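import Pool.Agent.Lib.MP_afd523_nt.Defs

/-!
Mellin transform of the theta function of a character at `1/2` (module ME of MP_afd523_nt).
-/

namespace Pool.Agent.NV

open Finset Complex MeasureTheory

lemma Mel_term_bound {q : ℕ} [NeZero q] (hq : q.Prime) (χ : DirichletCharacter ℂ q)
    (e : ℕ) (he : e ≤ 1) (t : ℝ) (ht : 0 < t) (n : ℕ) :
    ‖χ (n : ZMod q) * (n : ℂ) ^ e * Complex.exp (-(Real.pi * n ^ 2 * t / q))‖ ≤
      (n : ℝ) ^ 1 * Real.exp (-(Real.pi / q * t) * n) := by
  have : Fact q.Prime := ⟨hq⟩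
  have hq0 : (0 : ℝ) < q := by exact_mod_cast hq.pos
  rcases Nat.eq_zero_or_pos n with hn | hn
  · subst hn
    have : χ ((0 : ℕ) : ZMod q) = 0 := by
      rw [Nat.cast_zero]
      exact χ.map_nonunit (by simp)
    rw [this]
    simp
  · have hn1 : (1 : ℝ) ≤ n := by exact_mod_cast hn
    rw [norm_mul, norm_mul, norm_pow, Complex.norm_natCast]
    have h1 : ‖χ (n : ZMod q)‖ ≤ 1 := χ.norm_le_one _
    have h2 : (n : ℝ) ^ e ≤ (n : ℝ) ^ 1 := pow_le_pow_right₀ hn1 he
    have h3 : ‖Complex.exp (-(Real.pi * n ^ 2 * t / q))‖ ≤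
        Real.exp (-(Real.pi / q * t) * n) := by
      have : (-(Real.pi * n ^ 2 * t / q) : ℂ) = ((-(Real.pi * n ^ 2 * t / q) : ℝ) : ℂ) := by
        push_cast
        ring
      rw [this, Complex.norm_exp_ofReal]
      apply Real.exp_le_exp.mpr
      have h4 : (n : ℝ) ≤ (n : ℝ) ^ 2 := by nlinarith
      have h5 : 0 < Real.pi / q * t := by positivity
      have h6 : Real.pi / q * t * n ≤ Real.pi / q * t * (n : ℝ) ^ 2 := by
        exact mul_le_mul_of_nonneg_left h4 h5.le
      have h7 : (Real.pi * n ^ 2 * t / q : ℝ) = Real.pi / q * t * (n : ℝ) ^ 2 := by ring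
      rw [h7]
      linarith
    calc ‖χ (n : ZMod q)‖ * (n : ℝ) ^ e * ‖Complex.exp (-(Real.pi * n ^ 2 * t / q))‖
        ≤ 1 * (n : ℝ) ^ 1 * Real.exp (-(Real.pi / q * t) * n) := by
          apply mul_le_mul _ h3 (norm_nonneg _) (by positivity)
          exact mul_le_mul h1 h2 (by positivity) zero_le_one
      _ = _ := by ring

lemma Mel_summable_bd {q : ℕ} (hq : q.Prime) (t : ℝ) (ht : 0 < t) :
    Summable (fun n : ℕ => (n : ℝ) ^ 1 * Real.exp (-(Real.pi / q * t) * n)) := by
  have hq0 : (0 : ℝ) < q := by exact_mod_cast hq.pos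
  have := Real.summable_pow_mul_exp_neg_nat_mul 1 (r := Real.pi / q * t) (by positivity)
  exact this

lemma Mel_summable {q : ℕ} [NeZero q] (hq : q.Prime) (χ : DirichletCharacter ℂ q)
    (e : ℕ) (he : e ≤ 1) (t : ℝ) (ht : 0 < t) :
    Summable (fun n : ℕ => χ (n : ZMod q) * (n : ℂ) ^ e *
      Complex.exp (-(Real.pi * n ^ 2 * t / q))) :=
  Summable.of_norm_bounded (Mel_summable_bd hq t ht) (Mel_term_bound hq χ e he t ht)

lemma Mel_continuousOn {q : ℕ} [NeZero q] (hq : q.Prime) (χ : DirichletCharacter ℂ q)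
    (e : ℕ) (he : e ≤ 1) : ContinuousOn (theta χ e) (Set.Ioi 0) := by
  have hq0 : (0 : ℝ) < q := by exact_mod_cast hq.pos
  have key : ∀ a : ℝ, 0 < a → ContinuousOn (theta χ e) (Set.Ioi a) := by
    intro a ha
    unfold theta
    refine continuousOn_tsum (u := fun n : ℕ => (n : ℝ) ^ 1 * Real.exp (-(Real.pi / q * a) * n))
      ?_ (Mel_summable_bd hq a ha) ?_
    · intro n
      apply Continuous.continuousOn
      fun_prop
    · intro n t ht
      have hta : a < t := ht
      refine (Mel_term_bound hq χ e he t (ha.trans hta) n).trans ?_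
      apply mul_le_mul_of_nonneg_left _ (by positivity)
      apply Real.exp_le_exp.mpr
      have h5 : Real.pi / q * a ≤ Real.pi / q * t :=
        mul_le_mul_of_nonneg_left hta.le (by positivity)
      have h6 : Real.pi / q * a * n ≤ Real.pi / q * t * n :=
        mul_le_mul_of_nonneg_right h5 (by positivity)
      linarith
  intro t ht
  have ht' : 0 < t := ht
  have h1 := key (t / 2) (by positivity)
  have h2 : t ∈ Set.Ioi (t / 2) := by
    show t / 2 < t
    linarith
  exact (h1.continuousAt (Ioi_mem_nhds h2)).continuousWithinAt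

lemma Mel_decay {q : ℕ} [NeZero q] (hq : q.Prime) (χ : DirichletCharacter ℂ q)
    (e : ℕ) (he : e ≤ 1) : ∃ C : ℝ, 0 ≤ C ∧ ∀ t : ℝ, 1 ≤ t →
      ‖theta χ e t‖ ≤ C * Real.exp (-(Real.pi / q / 2) * t) := by
  have hq0 : (0 : ℝ) < q := by exact_mod_cast hq.pos
  refine ⟨∑' n : ℕ, (n : ℝ) ^ 1 * Real.exp (-(Real.pi / q * (1 / 2)) * n),
    tsum_nonneg (fun n => by positivity), ?_⟩
  intro t ht
  have hs := Mel_summable_bd hq (1 / 2) (by norm_num)
  unfold theta
  rw [← tsum_mul_right]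
  refine tsum_of_norm_bounded (hs.mul_right _).hasSum ?_
  intro n
  refine (Mel_term_bound hq χ e he t (by linarith) n).trans ?_
  rcases Nat.eq_zero_or_pos n with hn | hn
  · subst hn
    simp
  · have hn1 : (1 : ℝ) ≤ n := by exact_mod_cast hn
    rw [mul_assoc]
    apply mul_le_mul_of_nonneg_left _ (by positivity)
    rw [← Real.exp_add]
    apply Real.exp_le_exp.mpr
    have h5 : (0 : ℝ) < Real.pi / q := by positivity
    have h6 : (0 : ℝ) ≤ 2 * (t * n) - n - t := by nlinarith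
    have h7 : 0 ≤ Real.pi / q / 2 * (2 * (t * n) - n - t) :=
      mul_nonneg (by positivity) h6
    nlinarith

lemma Mel_bot {q : ℕ} [NeZero q] (hq : q.Prime) (χ : DirichletCharacter ℂ q)
    (e : ℕ) (he : e ≤ 1) (ε : ℂ) (hε : ‖ε‖ = 1)
    (h : ∀ t : ℝ, 0 < t →
      theta χ e (1 / t) = ε * (t : ℂ) ^ (1 / 2 + e : ℂ) * theta χ⁻¹ e t) :
    (theta χ e) =O[nhdsWithin 0 (Set.Ioi 0)] (fun t : ℝ => t ^ (-(0 : ℝ))) := by
  have hq0 : (0 : ℝ) < q := by exact_mod_cast hq.pos
  obtain ⟨C, hC, hb⟩ := Mel_decay hq χ⁻¹ e he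
  have hlim := tendsto_rpow_mul_exp_neg_mul_atTop_nhds_zero (1 / 2 + (e : ℝ))
    (Real.pi / q / 2) (by positivity)
  have hlim2 := hlim.comp (tendsto_inv_nhdsGT_zero (𝕜 := ℝ))
  have hev := hlim2.eventually (Metric.ball_mem_nhds (0 : ℝ) one_pos)
  have hle : ∀ᶠ t : ℝ in nhdsWithin 0 (Set.Ioi 0), t ≤ 1 := by
    apply Filter.Eventually.filter_mono nhdsWithin_le_nhds
    exact (eventually_le_nhds (by norm_num : (0 : ℝ) < 1))
  apply Asymptotics.IsBigO.of_bound C
  filter_upwards [hev, hle, self_mem_nhdsWithin] with t h1 h2 h3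
  have ht : 0 < t := h3
  have hti : 0 < t⁻¹ := inv_pos.mpr ht
  have h4 := h t⁻¹ hti
  rw [one_div, inv_inv] at h4
  rw [h4, neg_zero, Real.rpow_zero, norm_one, mul_one, norm_mul, norm_mul, hε, one_mul]
  have h5 : ‖((t⁻¹ : ℝ) : ℂ) ^ (1 / 2 + e : ℂ)‖ = t⁻¹ ^ (1 / 2 + (e : ℝ)) := by
    rw [Complex.norm_cpow_eq_rpow_re_of_pos hti]
    congr 1
    simp
  rw [h5]
  have h6 := hb t⁻¹ (by rw [← one_div]; exact (one_le_div ht).mpr h2)
  simp only [Function.comp, dist_zero_right] at h1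
  have h7 : t⁻¹ ^ (1 / 2 + (e : ℝ)) * Real.exp (-(Real.pi / q / 2) * t⁻¹) ≤ 1 :=
    (le_abs_self _).trans h1.le
  calc t⁻¹ ^ (1 / 2 + (e : ℝ)) * ‖theta χ⁻¹ e t⁻¹‖
      ≤ t⁻¹ ^ (1 / 2 + (e : ℝ)) * (C * Real.exp (-(Real.pi / q / 2) * t⁻¹)) :=
        mul_le_mul_of_nonneg_left h6 (by positivity)
    _ = C * (t⁻¹ ^ (1 / 2 + (e : ℝ)) * Real.exp (-(Real.pi / q / 2) * t⁻¹)) := by ring
    _ ≤ C * 1 := mul_le_mul_of_nonneg_left h7 hC
    _ = C := mul_one C

lemma Mel_term_eq {q : ℕ} (χ : DirichletCharacter ℂ q) (hχ0 : χ ((0 : ℕ) : ZMod q) = 0)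
    (hc : (0 : ℝ) < Real.pi / q) (e : ℕ) (s : ℂ) (n : ℕ) :
    ((Real.pi / q : ℝ) : ℂ) ^ (-((s + e) / 2)) *
      Complex.Gamma ((s + e) / 2) * LSeries.term (fun n : ℕ => χ (n : ZMod q)) s n =
      Complex.Gamma ((s + e) / 2) * (χ (n : ZMod q) * (n : ℂ) ^ e) /
        ((Real.pi / q * (n : ℝ) ^ 2 : ℝ) : ℂ) ^ ((s + e) / 2) := by
  rcases Nat.eq_zero_or_pos n with hn | hn
  · subst hn
    rw [hχ0]
    simp
  · have hn0 : (0 : ℝ) < n := by exact_mod_cast hn
    have hnC : (n : ℂ) ≠ 0 := by exact_mod_cast hn.ne'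
    rw [LSeries.term_of_ne_zero hn.ne']
    have h1 : ((Real.pi / q * (n : ℝ) ^ 2 : ℝ) : ℂ) ^ ((s + e) / 2) =
        ((Real.pi / q : ℝ) : ℂ) ^ ((s + e) / 2) * ((n : ℂ) ^ s * (n : ℂ) ^ e) := by
      rw [Complex.ofReal_mul, Complex.mul_cpow_ofReal_nonneg hc.le (by positivity)]
      congr 1
      rw [Complex.ofReal_pow, Complex.ofReal_natCast, ← Complex.cpow_nat_mul']
      · rw [← Complex.cpow_natCast (n : ℂ) e, ← Complex.cpow_add _ _ hnC]
        congr 1
        push_cast
        ring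
      · rw [Complex.natCast_arg]
        simp [Real.pi_pos]
      · rw [Complex.natCast_arg]
        simp [Real.pi_pos.le]
    rw [h1, Complex.cpow_neg]
    have h2 : ((Real.pi / q : ℝ) : ℂ) ^ ((s + e) / 2) ≠ 0 := by
      rw [Ne, Complex.cpow_eq_zero_iff, not_and_or]
      left
      exact_mod_cast hc.ne'
    have h3 : (n : ℂ) ^ s ≠ 0 := by
      rw [Ne, Complex.cpow_eq_zero_iff, not_and_or]
      left
      exact hnC
    have h4 : (n : ℂ) ^ e ≠ 0 := pow_ne_zero _ hnC
    field_simp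

lemma Mel_region {q : ℕ} [NeZero q] (hq : q.Prime) (χ : DirichletCharacter ℂ q)
    (e : ℕ) (he : e ≤ 1) (s : ℂ) (hs : 1 < s.re) :
    ((Real.pi / q : ℝ) : ℂ) ^ (-((s + e) / 2)) * Complex.Gamma ((s + e) / 2) *
      DirichletCharacter.LFunction χ s = mellin (theta χ e) ((s + e) / 2) := by
  have : Fact q.Prime := ⟨hq⟩
  have hq0 : (0 : ℝ) < q := by exact_mod_cast hq.pos
  have hc : (0 : ℝ) < Real.pi / q := by positivity
  have hχ0 : χ ((0 : ℕ) : ZMod q) = 0 := by
    rw [Nat.cast_zero]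
    exact χ.map_nonunit (by simp)
  have hre : ((s + e) / 2).re = (s.re + e) / 2 := by
    have : ((s + e) / 2 : ℂ) = (s + e) / ((2 : ℝ) : ℂ) := by norm_num
    rw [this, Complex.div_ofReal_re, Complex.add_re, Complex.natCast_re]
  have hu : 0 < ((s + e) / 2).re := by
    rw [hre]
    have : (0 : ℝ) ≤ e := Nat.cast_nonneg e
    linarith
  have key := hasSum_mellin (a := fun n : ℕ => χ (n : ZMod q) * (n : ℂ) ^ e)
    (p := fun n : ℕ => Real.pi / q * (n : ℝ) ^ 2) (F := theta χ e) (s := (s + e) / 2)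
    (fun n => by
      rcases Nat.eq_zero_or_pos n with hn | hn
      · left
        subst hn
        rw [hχ0, zero_mul]
      · right
        have : (0 : ℝ) < n := by exact_mod_cast hn
        positivity) hu
    (fun t ht => by
      have ht' : 0 < t := ht
      have := (Mel_summable hq χ e he t ht').hasSum
      unfold theta
      convert this using 2 with n
      rw [Complex.ofReal_exp]
      congr 2
      push_cast
      ring)
    (by
      have hsum : Summable (fun n : ℕ => (Real.pi / q) ^ (-((s.re + e) / 2)) *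
          (1 / (n : ℝ) ^ s.re)) := (Real.summable_one_div_nat_rpow.mpr hs).mul_left _
      refine Summable.of_nonneg_of_le (fun n => by positivity) (fun n => ?_) hsum
      rcases Nat.eq_zero_or_pos n with hn | hn
      · subst hn
        rw [hχ0, zero_mul, norm_zero, zero_div]
        positivity
      · have hn0 : (0 : ℝ) < n := by exact_mod_cast hn
        rw [hre, norm_mul, norm_pow, Complex.norm_natCast,
          Real.mul_rpow hc.le (by positivity), Real.rpow_neg hc.le]
        have h1 : ((n : ℝ) ^ 2) ^ ((s.re + e) / 2) = (n : ℝ) ^ s.re * (n : ℝ) ^ e := by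
          rw [← Real.rpow_natCast (n : ℝ) 2, ← Real.rpow_mul hn0.le,
            ← Real.rpow_natCast (n : ℝ) e, ← Real.rpow_add hn0]
          congr 1
          push_cast
          ring
        rw [h1]
        have h2 : ‖χ (n : ZMod q)‖ ≤ 1 := χ.norm_le_one _
        have h3 : (0 : ℝ) < (n : ℝ) ^ e := by positivity
        have h4 : (0 : ℝ) < (n : ℝ) ^ s.re := by positivity
        have h5 : (0 : ℝ) < (Real.pi / q) ^ ((s.re + e) / 2) := by positivity
        rw [div_le_iff₀ (by positivity)]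
        calc ‖χ (n : ZMod q)‖ * (n : ℝ) ^ e ≤ 1 * (n : ℝ) ^ e :=
              mul_le_mul_of_nonneg_right h2 h3.le
          _ = _ := by field_simp)
  have hL : HasSum (fun n : ℕ => LSeries.term (fun n : ℕ => χ (n : ZMod q)) s n)
      (DirichletCharacter.LFunction χ s) := by
    rw [DirichletCharacter.LFunction_eq_LSeries χ hs]
    exact (DirichletCharacter.LSeriesSummable_of_one_lt_re χ hs).LSeriesHasSum
  have hL2 := hL.mul_left (((Real.pi / q : ℝ) : ℂ) ^ (-((s + e) / 2)) *
    Complex.Gamma ((s + e) / 2))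
  refine hL2.unique ?_
  have hfun : (fun n : ℕ => ((Real.pi / q : ℝ) : ℂ) ^ (-((s + e) / 2)) *
      Complex.Gamma ((s + e) / 2) * LSeries.term (fun n : ℕ => χ (n : ZMod q)) s n) =
      (fun n : ℕ => Complex.Gamma ((s + e) / 2) * (χ (n : ZMod q) * (n : ℂ) ^ e) /
        ((Real.pi / q * (n : ℝ) ^ 2 : ℝ) : ℂ) ^ ((s + e) / 2)) := by
    funext n
    exact Mel_term_eq χ hχ0 hc e s n
  rw [hfun]
  exact key

theorem mellin_half {q : ℕ} [NeZero q] (hq : q.Prime) (χ : DirichletCharacter ℂ q) (hχ : χ ≠ 1)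
    (e : ℕ) (he : e ≤ 1) (ε : ℂ) (hε : ‖ε‖ = 1)
    (h : ∀ t : ℝ, 0 < t →
      theta χ e (1 / t) = ε * (t : ℂ) ^ (1 / 2 + e : ℂ) * theta χ⁻¹ e t) :
    IntegrableOn (fun t : ℝ => theta χ e t * (t : ℂ) ^ (bet e - 1 : ℂ)) (Set.Ioi 0) ∧
    ((Real.pi / q : ℝ) : ℂ) ^ (-(bet e) : ℂ) * Complex.Gamma (bet e) *
      DirichletCharacter.LFunction χ (1 / 2) =
        ∫ t in Set.Ioi (0 : ℝ), theta χ e t * (t : ℂ) ^ (bet e - 1 : ℂ) := by
  have hq0 : (0 : ℝ) < q := by exact_mod_cast hq.pos
  have hc : (0 : ℝ) < Real.pi / q := by positivity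
  have hloc : LocallyIntegrableOn (theta χ e) (Set.Ioi 0) :=
    (Mel_continuousOn hq χ e he).locallyIntegrableOn measurableSet_Ioi
  have htop : (theta χ e) =O[Filter.atTop] (fun t : ℝ => Real.exp (-(Real.pi / q / 2) * t)) := by
    obtain ⟨C, hC, hb⟩ := Mel_decay hq χ e he
    apply Asymptotics.IsBigO.of_bound C
    filter_upwards [Filter.eventually_ge_atTop (1 : ℝ)] with t ht
    rw [Real.norm_eq_abs, abs_of_pos (Real.exp_pos _)]
    exact hb t ht
  have hbot := Mel_bot hq χ e he ε hε h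
  have hb0 : (0 : ℝ) < bet e := by
    unfold bet
    positivity
  have hconv : MellinConvergent (theta χ e) (bet e : ℂ) :=
    mellinConvergent_of_isBigO_rpow_exp (by positivity) hloc htop hbot (by simpa using hb0)
  have hpt : ∀ t : ℝ, (t : ℂ) ^ ((bet e : ℂ) - 1) • theta χ e t =
      theta χ e t * (t : ℂ) ^ (bet e - 1 : ℂ) := by
    intro t
    rw [smul_eq_mul, mul_comm]
  constructor
  · have h1 := hconv
    unfold MellinConvergent at h1
    simpa only [hpt] using h1
  · have hre : ∀ s : ℂ, ((s + e) / 2).re = (s.re + e) / 2 := by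
      intro s
      have : ((s + e) / 2 : ℂ) = (s + e) / ((2 : ℝ) : ℂ) := by norm_num
      rw [this, Complex.div_ofReal_re, Complex.add_re, Complex.natCast_re]
    have hU : IsOpen {s : ℂ | 0 < s.re} := isOpen_lt continuous_const Complex.continuous_re
    have hpos : ∀ s : ℂ, 0 < s.re → 0 < ((s + e) / 2).re := by
      intro s hs
      rw [hre]
      have : (0 : ℝ) ≤ e := Nat.cast_nonneg e
      linarith
    have hf : AnalyticOnNhd ℂ (fun s : ℂ => ((Real.pi / q : ℝ) : ℂ) ^ (-((s + e) / 2)) *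
        Complex.Gamma ((s + e) / 2) * DirichletCharacter.LFunction χ s) {s : ℂ | 0 < s.re} := by
      apply DifferentiableOn.analyticOnNhd _ hU
      intro s hs
      have hs' : 0 < s.re := hs
      apply DifferentiableAt.differentiableWithinAt
      have d1 : DifferentiableAt ℂ (fun s : ℂ => ((Real.pi / q : ℝ) : ℂ) ^ (-((s + e) / 2))) s := by
        apply DifferentiableAt.const_cpow (by fun_prop)
        left
        exact_mod_cast hc.ne'
      have d2 : DifferentiableAt ℂ (fun s : ℂ => Complex.Gamma ((s + e) / 2)) s := by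
        have hg : DifferentiableAt ℂ Complex.Gamma ((s + e) / 2) := by
          apply Complex.differentiableAt_Gamma
          intro m hm
          have h1 := hpos s hs'
          rw [hm] at h1
          simp at h1
          have : (0 : ℝ) ≤ m := Nat.cast_nonneg m
          linarith
        exact hg.comp s (f := fun s : ℂ => (s + e) / 2) (by fun_prop)
      have d3 := (DirichletCharacter.differentiable_LFunction hχ) s
      exact (d1.mul d2).mul d3
    have hg : AnalyticOnNhd ℂ (fun s : ℂ => mellin (theta χ e) ((s + e) / 2))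
        {s : ℂ | 0 < s.re} := by
      apply DifferentiableOn.analyticOnNhd _ hU
      intro s hs
      have hs' : 0 < s.re := hs
      apply DifferentiableAt.differentiableWithinAt
      have hm : DifferentiableAt ℂ (mellin (theta χ e)) ((s + e) / 2) :=
        mellin_differentiableAt_of_isBigO_rpow_exp (by positivity) hloc htop hbot (hpos s hs')
      exact hm.comp s (f := fun s : ℂ => (s + e) / 2) (by fun_prop)
    have hpre : IsPreconnected {s : ℂ | 0 < s.re} := (convex_halfSpace_re_gt 0).isPreconnected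
    have h2U : (2 : ℂ) ∈ {s : ℂ | 0 < s.re} := by simp
    have hev : (fun s : ℂ => ((Real.pi / q : ℝ) : ℂ) ^ (-((s + e) / 2)) *
        Complex.Gamma ((s + e) / 2) * DirichletCharacter.LFunction χ s) =ᶠ[nhds 2]
        (fun s : ℂ => mellin (theta χ e) ((s + e) / 2)) := by
      have : {s : ℂ | 1 < s.re} ∈ nhds (2 : ℂ) :=
        (isOpen_lt continuous_const Complex.continuous_re).mem_nhds (by simp)
      filter_upwards [this] with s hs
      exact Mel_region hq χ e he s hs
    have heq := hf.eqOn_of_preconnected_of_eventuallyEq hg hpre h2U hev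
    have hhalf : (1 / 2 : ℂ) ∈ {s : ℂ | 0 < s.re} := by
      simp
    have h1 := heq hhalf
    simp only at h1
    have h2 : ((1 / 2 + e) / 2 : ℂ) = (bet e : ℂ) := by
      unfold bet
      push_cast
      ring
    rw [h2] at h1
    rw [h1]
    unfold mellin
    simp only [hpt]

end Pool.Agent.NV
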