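import Pool.Agent.Lib.MP_afd523_nt.Defs
import Pool.Agent.Lib.MP_848d44_nt.PV

/-!
Functional equation of the theta series of a nontrivial character of prime modulus
(MP_afd523_nt, project NV).
-/

namespace Pool.Agent.NV

open Finset Complex MeasureTheory

lemma Theta_primitive {q : ℕ} [NeZero q] (hq : q.Prime) (χ : DirichletCharacter ℂ q)
    (hχ : χ ≠ 1) : χ.IsPrimitive := by
  rcases (Nat.dvd_prime hq).1 χ.conductor_dvd_level with h | h
  · exact absurd (DirichletCharacter.eq_one_iff_conductor_eq_one.2 h) hχ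
  · exact h

lemma Theta_residue {q : ℕ} [NeZero q] (χ : DirichletCharacter ℂ q) (f : ℤ → ℂ) (F : ZMod q → ℂ)
    (hF : ∀ j : ZMod q, HasSum (fun m : ℤ => f (m * q + j.val)) (F j)) :
    HasSum (fun n : ℤ => χ (n : ZMod q) * f n) (∑ j : ZMod q, χ j * F j) := by
  classical
  have h1 : ∀ j : ZMod q, HasSum (fun n : ℤ => if (n : ZMod q) = j then χ j * f n else 0)
      (χ j * F j) := by
    intro j
    have hinj : Function.Injective (fun m : ℤ => m * (q : ℤ) + (j.val : ℤ)) := by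
      intro m m' h
      have hq0 : (q : ℤ) ≠ 0 := by exact_mod_cast NeZero.ne q
      simp only [add_left_inj] at h
      exact mul_right_cancel₀ hq0 h
    have hval : ∀ m : ℤ, (((m * (q : ℤ) + (j.val : ℤ) : ℤ)) : ZMod q) = j := by
      intro m
      push_cast
      simp
    refine (hinj.hasSum_iff ?_).1 ?_
    · intro n hn
      rw [if_neg]
      intro hnj
      apply hn
      have h2 : ((n - (j.val : ℤ) : ℤ) : ZMod q) = 0 := by
        push_cast
        rw [hnj]
        simp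
      rw [ZMod.intCast_zmod_eq_zero_iff_dvd] at h2
      obtain ⟨m, hm⟩ := h2
      refine ⟨m, ?_⟩
      simp only
      linarith [mul_comm (q : ℤ) m]
    · have h3 := (hF j).mul_left (χ j)
      refine h3.congr_fun fun m => ?_
      simp only [Function.comp]
      rw [if_pos (hval m)]
  have h4 := hasSum_sum (s := (Finset.univ : Finset (ZMod q))) (fun j _ => h1 j)
  refine h4.congr_fun fun n => ?_
  rw [Finset.sum_ite_eq Finset.univ (n : ZMod q) (fun j => χ j * f n)]
  simp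

lemma Theta_kernels (e : ℕ) (he : e ≤ 1) : ∃ E C : ℝ → ℝ → ℂ,
    (∀ a x : ℝ, 0 < x → HasSum (fun n : ℤ => ((n : ℂ) + a) ^ e *
      Complex.exp (-(Real.pi * ((n : ℂ) + a) ^ 2 * x))) (E a x)) ∧
    (∀ a x : ℝ, 0 < x → HasSum (fun n : ℤ => (-I) ^ e * (n : ℂ) ^ e *
      Complex.exp (2 * Real.pi * I * a * n) * Complex.exp (-(Real.pi * (n : ℂ) ^ 2 * x)))
      (C a x)) ∧
    (∀ a x : ℝ, 0 < x → E a (1 / x) = (x : ℂ) ^ (1 / 2 + e : ℂ) * C a x) := by
  interval_cases e
  · refine ⟨fun a x => (HurwitzZeta.evenKernel a x : ℂ), fun a x => (HurwitzZeta.cosKernel a x : ℂ),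
      ?_, ?_, ?_⟩
    · intro a x hx
      have h := HurwitzZeta.hasSum_int_evenKernel a hx
      rw [← hasSum_ofReal] at h
      refine h.congr_fun fun n => ?_
      push_cast
      rw [pow_zero, one_mul]
      congr 1
      ring
    · intro a x hx
      have h := HurwitzZeta.hasSum_int_cosKernel a hx
      refine h.congr_fun fun n => ?_
      push_cast
      rw [pow_zero, pow_zero, one_mul, one_mul]
      congr 2
      ring
    · intro a x hx
      have h := HurwitzZeta.evenKernel_functional_equation a (1 / x)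
      rw [one_div_one_div] at h
      simp only
      rw [h]
      push_cast
      rw [Complex.ofReal_cpow (by positivity)]
      push_cast
      rw [one_div (x : ℂ), Complex.inv_cpow _ _ (by
        rw [Complex.arg_ofReal_of_nonneg hx.le]; exact Real.pi_ne_zero.symm)]
      rw [one_div, inv_inv, add_zero]
  · refine ⟨fun a x => (HurwitzZeta.oddKernel a x : ℂ), fun a x => (HurwitzZeta.sinKernel a x : ℂ),
      ?_, ?_, ?_⟩
    · intro a x hx
      have h := HurwitzZeta.hasSum_int_oddKernel a hx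
      rw [← hasSum_ofReal] at h
      refine h.congr_fun fun n => ?_
      push_cast
      rw [pow_one]
      congr 2
      ring
    · intro a x hx
      have h := HurwitzZeta.hasSum_int_sinKernel a hx
      refine h.congr_fun fun n => ?_
      push_cast
      rw [pow_one, pow_one]
      congr 2
      ring
    · intro a x hx
      have h := HurwitzZeta.oddKernel_functional_equation a (1 / x)
      rw [one_div_one_div] at h
      simp only
      rw [h]
      push_cast
      rw [Complex.ofReal_cpow (by positivity)]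
      push_cast
      rw [one_div (x : ℂ), Complex.inv_cpow _ _ (by
        rw [Complex.arg_ofReal_of_nonneg hx.le]; exact Real.pi_ne_zero.symm)]
      rw [one_div, inv_inv]
      norm_num

lemma Theta_half {q : ℕ} [NeZero q] (hq : q.Prime) (χ : DirichletCharacter ℂ q)
    (e : ℕ) (he : χ (-1) = (-1) ^ e) (t : ℝ) (S : ℂ)
    (hS : HasSum (fun n : ℤ => χ (n : ZMod q) *
      ((n : ℂ) ^ e * Complex.exp (-(Real.pi * (n : ℂ) ^ 2 * t / q)))) S) :
    theta χ e t = S / 2 := by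
  have : Fact q.Prime := ⟨hq⟩
  have h0 : χ (0 : ZMod q) = 0 := MulChar.map_nonunit χ (by simp)
  have h := hS.nat_add_neg
  have h2 : HasSum (fun n : ℕ => 2 * (χ (n : ZMod q) * (n : ℂ) ^ e *
      Complex.exp (-(Real.pi * n ^ 2 * t / q)))) S := by
    have h3 : S + χ ((0 : ℤ) : ZMod q) * (((0 : ℤ) : ℂ) ^ e *
        Complex.exp (-(Real.pi * ((0 : ℤ) : ℂ) ^ 2 * t / q))) = S := by
      rw [Int.cast_zero, h0]; simp
    rw [h3] at h
    refine h.congr_fun fun n => ?_
    have h4 : χ (((-(n : ℤ) : ℤ)) : ZMod q) = (-1) ^ e * χ (n : ZMod q) := by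
      push_cast
      rw [← neg_one_mul, map_mul, he]
    rw [h4]
    push_cast
    have h5 : (-(n : ℂ)) ^ e = (-1) ^ e * (n : ℂ) ^ e := by
      rw [← mul_pow, neg_one_mul]
    rw [h5, neg_sq]
    have h6 : ((-1 : ℂ) ^ e) * (-1) ^ e = 1 := by
      rw [← mul_pow]; simp
    linear_combination (χ (n : ZMod q) * (n : ℂ) ^ e *
      Complex.exp (-(Real.pi * n ^ 2 * t / q))) * (-h6)
  have h7 := (h2.div_const 2).tsum_eq
  unfold theta
  rw [← h7]
  congr 1
  ext n
  ring

theorem theta_fe {q : ℕ} [NeZero q] (hq : q.Prime) (χ : DirichletCharacter ℂ q) (hχ : χ ≠ 1) :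
    ∃ e : ℕ, e ≤ 1 ∧ χ (-1) = (-1) ^ e ∧ ∃ ε : ℂ, ‖ε‖ = 1 ∧ ∀ t : ℝ, 0 < t →
      theta χ e (1 / t) = ε * (t : ℂ) ^ (1 / 2 + e : ℂ) * theta χ⁻¹ e t := by
  have : Fact q.Prime := ⟨hq⟩
  have hq0 : (0 : ℝ) < q := by exact_mod_cast hq.pos
  have hqc : (q : ℂ) ≠ 0 := by exact_mod_cast hq0.ne'
  obtain ⟨e, he1, he⟩ : ∃ e : ℕ, e ≤ 1 ∧ χ (-1) = (-1) ^ e := by
    have h : χ (-1) * χ (-1) = 1 := by
      rw [← map_mul]; simp
    rcases mul_self_eq_one_iff.1 h with h | h
    · exact ⟨0, by norm_num, by simpa using h⟩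
    · exact ⟨1, le_refl _, by simpa using h⟩
  have hei : χ⁻¹ (-1) = (-1) ^ e := by
    rw [MulChar.inv_apply_eq_inv', he]
    rw [← inv_pow]
    norm_num
  refine ⟨e, he1, he, ?_⟩
  set G : ℂ := gaussSum χ (ZMod.stdAddChar : AddChar (ZMod q) ℂ) with hG
  have hGn : ‖G‖ = √q := MP848.norm_gaussSum_stdAddChar χ hχ
  obtain ⟨E, C, hE, hC, hEC⟩ := Theta_kernels e he1
  have hsq : (0 : ℝ) < √q := Real.sqrt_pos.2 hq0
  refine ⟨(-I) ^ e * G / (√q : ℝ), ?_, ?_⟩
  · rw [norm_div, norm_mul, norm_pow, norm_neg, norm_I, one_pow, one_mul, hGn, Complex.norm_real,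
      Real.norm_of_nonneg hsq.le, div_self hsq.ne']
  intro t ht
  have htq : 0 < t / q := div_pos ht hq0
  -- the sum of characters
  have hgs : ∀ n : ℤ, ∑ j : ZMod q, χ j * Complex.exp (2 * Real.pi * I * ((j.val : ℝ) / q : ℝ) * n)
      = χ⁻¹ (n : ZMod q) * G := by
    intro n
    rw [hG, ← gaussSum_mulShift_of_isPrimitive (e := (ZMod.stdAddChar : AddChar (ZMod q) ℂ))
      (Theta_primitive hq χ hχ) (n : ZMod q)]
    unfold gaussSum
    refine Finset.sum_congr rfl fun j _ => ?_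
    congr 1
    rw [AddChar.mulShift_apply]
    have h1 : ((n : ZMod q) * j) = (((n * (j.val : ℤ) : ℤ)) : ZMod q) := by
      push_cast
      simp
    rw [h1, ZMod.stdAddChar_coe]
    congr 1
    push_cast
    field_simp
  -- dual sum
  have hS' : HasSum (fun n : ℤ => (-I) ^ e * G * (χ⁻¹ (n : ZMod q) *
      ((n : ℂ) ^ e * Complex.exp (-(Real.pi * (n : ℂ) ^ 2 * t / q)))))
      (∑ j : ZMod q, χ j * C ((j.val : ℝ) / q) (t / q)) := by
    have h1 := hasSum_sum (s := (Finset.univ : Finset (ZMod q)))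
      (fun j _ => (hC ((j.val : ℝ) / q) (t / q) htq).mul_left (χ j))
    refine h1.congr_fun fun n => ?_
    have h2 : ∀ j : ZMod q, χ j * ((-I) ^ e * (n : ℂ) ^ e *
        Complex.exp (2 * Real.pi * I * ((j.val : ℝ) / q : ℝ) * n) *
        Complex.exp (-(Real.pi * (n : ℂ) ^ 2 * ((t / q : ℝ) : ℂ)))) =
        (χ j * Complex.exp (2 * Real.pi * I * ((j.val : ℝ) / q : ℝ) * n)) * ((-I) ^ e *
          (n : ℂ) ^ e * Complex.exp (-(Real.pi * (n : ℂ) ^ 2 * t / q))) := by
      intro j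
      have h3 : Complex.exp (-(Real.pi * (n : ℂ) ^ 2 * ((t / q : ℝ) : ℂ))) =
          Complex.exp (-(Real.pi * (n : ℂ) ^ 2 * t / q)) := by
        congr 1
        push_cast
        ring
      rw [h3]
      ring
    rw [Finset.sum_congr rfl fun j _ => h2 j, ← Finset.sum_mul, hgs n]
    ring
  have hcne : (-I) ^ e * G ≠ 0 := by
    apply mul_ne_zero (pow_ne_zero _ (neg_ne_zero.2 I_ne_zero))
    intro h
    rw [h, norm_zero] at hGn
    exact hsq.ne hGn
  have hS'' := (hasSum_mul_left_iff hcne (a₁ := ((-I) ^ e * G)⁻¹ *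
    ∑ j : ZMod q, χ j * C ((j.val : ℝ) / q) (t / q))).1 (by
      rw [mul_inv_cancel_left₀ hcne]; exact hS')
  have hθ' := Theta_half hq χ⁻¹ e hei t _ hS''
  -- the original sum
  have hS1 : HasSum (fun n : ℤ => χ (n : ZMod q) *
      ((n : ℂ) ^ e * Complex.exp (-(Real.pi * (n : ℂ) ^ 2 * ((1 / t : ℝ) : ℂ) / q))))
      (∑ j : ZMod q, χ j * ((q : ℂ) ^ e * E ((j.val : ℝ) / q) (1 / (t / q)))) := by
    refine Theta_residue χ _ _ fun j => ?_
    have h1 := (hE ((j.val : ℝ) / q) (1 / (t / q)) (by positivity)).mul_left ((q : ℂ) ^ e)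
    refine h1.congr_fun fun m => ?_
    push_cast
    have h2 : ((m : ℂ) * q + (j.val : ℂ)) = q * ((m : ℂ) + (j.val : ℂ) / q) := by
      field_simp
    rw [h2, mul_pow, mul_assoc]
    congr 2
    congr 1
    have htc : (t : ℂ) ≠ 0 := by exact_mod_cast ht.ne'
    field_simp
  have hθ := Theta_half hq χ e he (1 / t) _ hS1
  rw [hθ, hθ']
  have h8 : ∑ j : ZMod q, χ j * ((q : ℂ) ^ e * E ((j.val : ℝ) / q) (1 / (t / q))) =
      ((q : ℂ) ^ e * ((t / q : ℝ) : ℂ) ^ (1 / 2 + e : ℂ)) *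
        ∑ j : ZMod q, χ j * C ((j.val : ℝ) / q) (t / q) := by
    rw [Finset.mul_sum]
    refine Finset.sum_congr rfl fun j _ => ?_
    rw [hEC _ _ htq]
    ring
  have h9 : (q : ℂ) ^ e * ((t / q : ℝ) : ℂ) ^ (1 / 2 + e : ℂ) =
      (t : ℂ) ^ (1 / 2 + e : ℂ) / (√q : ℝ) := by
    have h10 : ((t / q : ℝ) : ℂ) ^ (1 / 2 + e : ℂ) = (((t / q) ^ (1 / 2 + e : ℝ) : ℝ) : ℂ) := by
      rw [Complex.ofReal_cpow htq.le]
      push_cast
      rfl
    have h11 : (t : ℂ) ^ (1 / 2 + e : ℂ) = ((t ^ (1 / 2 + e : ℝ) : ℝ) : ℂ) := by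
      rw [Complex.ofReal_cpow ht.le]
      push_cast
      rfl
    rw [h10, h11, Real.div_rpow ht.le hq0.le, Real.rpow_add hq0, Real.rpow_natCast,
      ← Real.sqrt_eq_rpow]
    have h12 : ((√q : ℝ) : ℂ) ≠ 0 := by exact_mod_cast hsq.ne'
    push_cast
    field_simp
  rw [h8, h9]
  have h13 : ((-I) ^ e * G) * ((-I) ^ e * G)⁻¹ = 1 := mul_inv_cancel₀ hcne
  linear_combination (-((t : ℂ) ^ (1 / 2 + e : ℂ) / (√q : ℝ) *
    (∑ j : ZMod q, χ j * C ((j.val : ℝ) / q) (t / q)) / 2)) * h13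

end Pool.Agent.NV
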