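import Pool.Agent.Lib.MP_afd523_nt.Defs
import Pool.Agent.Lib.MP_afd523_nt.Theta
import Pool.Agent.Lib.MP_afd523_nt.Mel

/-!
MP_afd523_nt, project NV, module AF: the approximate functional equation at `1/2`.
-/

namespace Pool.Agent.NV

open Finset Complex MeasureTheory

theorem Afe_bet_pos (e : ℕ) : 0 < bet e := by unfold bet; positivity

theorem Afe_bet_lt (e : ℕ) (he : e ≤ 1) : bet e < 1 := by
  unfold bet
  have : (e : ℝ) ≤ 1 := by exact_mod_cast he
  linarith

/-- the measure of a half line -/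
theorem Afe_nu_real (e : ℕ) {x : ℝ} (hx : 0 ≤ x) :
    (nu e).real (Set.Ioi x) = ∫ r in Set.Ioi x,
      2 * Real.pi ^ bet e / Real.Gamma (bet e) * r ^ (2 * bet e - 1) *
        Real.exp (-Real.pi * r ^ 2) := by
  have hb := Afe_bet_pos e
  have hG := Real.Gamma_pos_of_pos hb
  rw [integral_eq_lintegral_of_nonneg_ae]
  · rw [Measure.real, nu, withDensity_apply _ measurableSet_Ioi,
      Measure.restrict_restrict measurableSet_Ioi,
      Set.inter_eq_self_of_subset_left (Set.Ioi_subset_Ioi hx)]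
  · refine (ae_restrict_iff' measurableSet_Ioi).2 (Filter.Eventually.of_forall fun r hr => ?_)
    have hr' : 0 < r := lt_of_le_of_lt hx hr
    have : 0 ≤ r ^ (2 * bet e - 1) := Real.rpow_nonneg hr'.le _
    simp only [Pi.zero_apply]
    positivity
  · exact (by fun_prop : Measurable fun r : ℝ =>
      2 * Real.pi ^ bet e / Real.Gamma (bet e) * r ^ (2 * bet e - 1) *
        Real.exp (-Real.pi * r ^ 2)).aestronglyMeasurable

/-- the substitution `y = r ^ 2` -/
theorem Afe_sq (b : ℝ) {x : ℝ} (hx : 0 ≤ x) :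
    ∫ y in Set.Ioi (x ^ 2), y ^ (b - 1) * Real.exp (-Real.pi * y) =
      ∫ r in Set.Ioi x, 2 * r ^ (2 * b - 1) * Real.exp (-Real.pi * r ^ 2) := by
  have h := integral_comp_rpow_Ioi
    (fun y : ℝ => (Set.Ioi (x ^ 2)).indicator (fun y : ℝ => y ^ (b - 1) * Real.exp (-Real.pi * y)) y)
    (p := 2) (by norm_num)
  rw [← integral_indicator measurableSet_Ioi, ← integral_indicator measurableSet_Ioi] at h
  rw [← integral_indicator measurableSet_Ioi, ← integral_indicator measurableSet_Ioi]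
  have h2 : (Set.Ioi (0 : ℝ)).indicator (fun y : ℝ => (Set.Ioi (x ^ 2)).indicator
      (fun y : ℝ => y ^ (b - 1) * Real.exp (-Real.pi * y)) y) =
      (Set.Ioi (x ^ 2)).indicator (fun y : ℝ => y ^ (b - 1) * Real.exp (-Real.pi * y)) := by
    rw [Set.indicator_indicator]
    congr 1
    exact Set.inter_eq_self_of_subset_right (Set.Ioi_subset_Ioi (by positivity))
  rw [← h2, ← h]
  congr 1
  funext r
  by_cases hr : r ∈ Set.Ioi (0 : ℝ)
  · have hr0 : (0 : ℝ) < r := hr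
    rw [Set.indicator_of_mem hr]
    have hr2 : r ^ (2 : ℝ) = r ^ 2 := by norm_cast
    by_cases hrx : x < r
    · have h3 : r ^ (2 : ℝ) ∈ Set.Ioi (x ^ 2) := by
        rw [hr2]
        exact pow_lt_pow_left₀ hrx hx (by norm_num)
      rw [Set.indicator_of_mem (show r ∈ Set.Ioi x from hrx), Set.indicator_of_mem h3]
      rw [← Real.rpow_mul hr0.le, hr2, smul_eq_mul, abs_of_pos (by norm_num : (0 : ℝ) < 2)]
      have h4 : r ^ (2 * b - 1) = r ^ ((2 : ℝ) - 1) * r ^ (2 * (b - 1)) := by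
        rw [← Real.rpow_add hr0]; congr 1; ring
      rw [h4]; ring
    · have h3 : r ^ (2 : ℝ) ∉ Set.Ioi (x ^ 2) := by
        rw [hr2]
        exact not_lt.2 (pow_le_pow_left₀ hr0.le (not_lt.1 hrx) 2)
      rw [Set.indicator_of_notMem (show r ∉ Set.Ioi x from hrx), Set.indicator_of_notMem h3,
        smul_zero]
  · rw [Set.indicator_of_notMem hr, Set.indicator_of_notMem]
    intro h3
    exact hr (lt_of_le_of_lt hx h3)

theorem Afe_int (e : ℕ) {c t : ℝ} (hc : 0 < c) (ht : 0 < t) :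
    ∫ s in Set.Ioi t, s ^ (bet e - 1) * Real.exp (-Real.pi * c * s) =
      c ^ (-bet e) * (Real.Gamma (bet e) * Real.pi ^ (-bet e)) *
        (nu e).real (Set.Ioi (√(c * t))) := by
  have hb := Afe_bet_pos e
  have hG := Real.Gamma_pos_of_pos hb
  have h1 := integral_comp_mul_left_Ioi
    (fun y : ℝ => y ^ (bet e - 1) * Real.exp (-Real.pi * y)) t hc
  have h2 : ∫ s in Set.Ioi t, (c * s) ^ (bet e - 1) * Real.exp (-Real.pi * (c * s)) =
      c ^ (bet e - 1) * ∫ s in Set.Ioi t, s ^ (bet e - 1) * Real.exp (-Real.pi * c * s) := by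
    rw [← integral_const_mul]
    refine setIntegral_congr_fun measurableSet_Ioi fun s hs => ?_
    have hs0 : (0 : ℝ) < s := lt_trans ht hs
    rw [Real.mul_rpow hc.le hs0.le, ← mul_assoc (-Real.pi) c s, mul_assoc]
  rw [h2] at h1
  have h3 : c * t = √(c * t) ^ 2 := (Real.sq_sqrt (by positivity)).symm
  rw [h3, Afe_sq _ (Real.sqrt_nonneg _)] at h1
  rw [Afe_nu_real e (Real.sqrt_nonneg _)]
  have h4 : ∫ r in Set.Ioi √(c * t), 2 * Real.pi ^ bet e / Real.Gamma (bet e) *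
      r ^ (2 * bet e - 1) * Real.exp (-Real.pi * r ^ 2) =
      Real.pi ^ bet e / Real.Gamma (bet e) *
        ∫ r in Set.Ioi √(c * t), 2 * r ^ (2 * bet e - 1) * Real.exp (-Real.pi * r ^ 2) := by
    rw [← integral_const_mul]
    refine setIntegral_congr_fun measurableSet_Ioi fun s hs => ?_
    ring
  rw [h4]
  have hpi : (0 : ℝ) < Real.pi ^ bet e := Real.rpow_pos_of_pos Real.pi_pos _
  have hcb : (0 : ℝ) < c ^ bet e := Real.rpow_pos_of_pos hc _
  have h5 : c ^ (bet e - 1) = c ^ bet e / c := Real.rpow_sub_one hc.ne' _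
  rw [h5, smul_eq_mul] at h1
  rw [Real.rpow_neg hc.le, Real.rpow_neg Real.pi_pos.le]
  have h6 : ∫ s in Set.Ioi t, s ^ (bet e - 1) * Real.exp (-Real.pi * c * s) =
      (c ^ bet e)⁻¹ *
        ∫ r in Set.Ioi √(c * t), 2 * r ^ (2 * bet e - 1) * Real.exp (-Real.pi * r ^ 2) := by
    rw [eq_inv_mul_iff_mul_eq₀ hcb.ne']
    have h7 : c * (c ^ bet e / c * ∫ s in Set.Ioi t,
        s ^ (bet e - 1) * Real.exp (-Real.pi * c * s)) =
        ∫ r in Set.Ioi √(c * t), 2 * r ^ (2 * bet e - 1) * Real.exp (-Real.pi * r ^ 2) := by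
      rw [h1, mul_inv_cancel_left₀ hc.ne']
    rw [← h7]
    field_simp
  rw [h6]
  field_simp

theorem Afe_exp_integrable {b c t : ℝ} (hc : 0 < c) (ht : 0 < t) (hb : b ≤ 1) :
    IntegrableOn (fun s : ℝ => s ^ (b - 1) * Real.exp (-Real.pi * c * s)) (Set.Ioi t) ∧
    ∫ s in Set.Ioi t, s ^ (b - 1) * Real.exp (-Real.pi * c * s) ≤
      t ^ (b - 1) * (Real.exp (-Real.pi * c * t) / (Real.pi * c)) := by
  have ha : -Real.pi * c < 0 := by
    have := Real.pi_pos
    nlinarith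
  have hI : IntegrableOn (fun s : ℝ => t ^ (b - 1) * Real.exp (-Real.pi * c * s)) (Set.Ioi t) :=
    (integrableOn_exp_mul_Ioi ha t).const_mul _
  have hle : ∀ s ∈ Set.Ioi t, s ^ (b - 1) * Real.exp (-Real.pi * c * s) ≤
      t ^ (b - 1) * Real.exp (-Real.pi * c * s) := by
    intro s hs
    have : s ^ (b - 1) ≤ t ^ (b - 1) :=
      Real.rpow_le_rpow_of_nonpos ht (le_of_lt hs) (by linarith)
    exact mul_le_mul_of_nonneg_right this (Real.exp_pos _).le
  have hI2 : IntegrableOn (fun s : ℝ => s ^ (b - 1) * Real.exp (-Real.pi * c * s)) (Set.Ioi t) := by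
    refine Integrable.mono' hI ?_ ?_
    · exact (by fun_prop : Measurable fun s : ℝ =>
        s ^ (b - 1) * Real.exp (-Real.pi * c * s)).aestronglyMeasurable
    · refine (ae_restrict_iff' measurableSet_Ioi).2 (Filter.Eventually.of_forall fun s hs => ?_)
      have hs0 : (0 : ℝ) < s := lt_trans ht hs
      rw [Real.norm_of_nonneg (by positivity)]
      exact hle s hs
  refine ⟨hI2, (setIntegral_mono_on hI2 hI measurableSet_Ioi hle).trans (le_of_eq ?_)⟩
  rw [integral_const_mul, integral_exp_mul_Ioi ha]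
  congr 1
  have := Real.pi_pos
  field_simp

/-- the integral of a theta series from `t` to infinity -/
theorem Afe_theta {q : ℕ} [NeZero q] (hq : q.Prime) (ξ : DirichletCharacter ℂ q) (e : ℕ)
    (he : e ≤ 1) {t : ℝ} (ht : 0 < t) :
    ∫ s in Set.Ioi t, theta ξ e s * (s : ℂ) ^ (bet e - 1 : ℂ) =
      ((Real.pi / q : ℝ) : ℂ) ^ (-(bet e) : ℂ) * Complex.Gamma (bet e) *
        ∑' n : ℕ, ((nu e).real (Set.Ioi (n * √(t / q))) : ℂ) * ξ (n : ZMod q) /
          (Real.sqrt n : ℂ) := by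
  have hq0 : (0 : ℝ) < q := by exact_mod_cast hq.pos
  have hb := Afe_bet_pos e
  have hb1 := Afe_bet_lt e he
  have hpi := Real.pi_pos
  have hξ0 : ξ ((0 : ℕ) : ZMod q) = 0 := by
    have : Fact (1 < q) := ⟨hq.one_lt⟩
    rw [Nat.cast_zero]
    exact ξ.map_zero
  let F : ℕ → ℝ → ℂ := fun n s => ξ (n : ZMod q) * (n : ℂ) ^ e *
    Complex.exp (-(Real.pi * n ^ 2 * s / q)) * (s : ℂ) ^ (bet e - 1 : ℂ)
  have hF0 : F 0 = fun _ => 0 := by
    funext s
    simp only [F]
    rw [hξ0]; simp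
  -- real form
  have hFr : ∀ n : ℕ, ∀ s ∈ Set.Ioi t, F n s = (ξ (n : ZMod q) * (n : ℂ) ^ e) *
      ((s ^ (bet e - 1) * Real.exp (-Real.pi * ((n : ℝ) ^ 2 / q) * s) : ℝ) : ℂ) := by
    intro n s hs
    have hs0 : (0 : ℝ) < s := lt_trans ht hs
    simp only [F]
    rw [Complex.ofReal_mul, Complex.ofReal_cpow hs0.le, Complex.ofReal_exp]
    push_cast
    have : (-(Real.pi * (n : ℂ) ^ 2 * s / q) : ℂ) = -Real.pi * ((n : ℂ) ^ 2 / q) * s := by ring
    rw [this]
    ring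
  have hFi : ∀ n : ℕ, Integrable (F n) (volume.restrict (Set.Ioi t)) := by
    intro n
    rcases Nat.eq_zero_or_pos n with h0 | hn
    · rw [h0, hF0]; exact integrable_zero _ _ _
    · have hc : (0 : ℝ) < (n : ℝ) ^ 2 / q := by
        have : (0 : ℝ) < n := by exact_mod_cast hn
        positivity
      have h1 := (Afe_exp_integrable (b := bet e) hc ht hb1.le).1
      have h2 : IntegrableOn (fun s : ℝ => (ξ (n : ZMod q) * (n : ℂ) ^ e) *
        ((s ^ (bet e - 1) * Real.exp (-Real.pi * ((n : ℝ) ^ 2 / q) * s) : ℝ) : ℂ)) (Set.Ioi t) :=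
        h1.ofReal.const_mul _
      exact h2.congr_fun (fun s hs => (hFr n s hs).symm) measurableSet_Ioi
  have hFn : ∀ n : ℕ, ∫ s in Set.Ioi t, ‖F n s‖ ≤
      q / Real.pi * t ^ (bet e - 1) * (Real.exp (-Real.pi * t / q)) ^ n := by
    intro n
    rcases Nat.eq_zero_or_pos n with h0 | hn
    · rw [h0, hF0]
      simp only [norm_zero, integral_zero]
      positivity
    · have hn0 : (0 : ℝ) < n := by exact_mod_cast hn
      have hn1 : (1 : ℝ) ≤ n := by exact_mod_cast hn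
      have hc : (0 : ℝ) < (n : ℝ) ^ 2 / q := by positivity
      have h1 := (Afe_exp_integrable (b := bet e) hc ht hb1.le).2
      have h2 : ∫ s in Set.Ioi t, ‖F n s‖ = ‖ξ (n : ZMod q) * (n : ℂ) ^ e‖ *
          ∫ s in Set.Ioi t, s ^ (bet e - 1) * Real.exp (-Real.pi * ((n : ℝ) ^ 2 / q) * s) := by
        rw [← integral_const_mul]
        refine setIntegral_congr_fun measurableSet_Ioi fun s hs => ?_
        have hs0 : (0 : ℝ) < s := lt_trans ht hs
        rw [hFr n s hs, norm_mul, Complex.norm_real, Real.norm_of_nonneg (by positivity)]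
      rw [h2]
      have h3 : ‖ξ (n : ZMod q) * (n : ℂ) ^ e‖ ≤ n := by
        rw [norm_mul, norm_pow, Complex.norm_natCast]
        have h4 : ‖ξ (n : ZMod q)‖ ≤ 1 := ξ.norm_le_one _
        have h5 : (n : ℝ) ^ e ≤ n := by
          calc (n : ℝ) ^ e ≤ (n : ℝ) ^ 1 := pow_le_pow_right₀ hn1 he
            _ = n := pow_one _
        calc ‖ξ (n : ZMod q)‖ * (n : ℝ) ^ e ≤ 1 * n := by gcongr
          _ = n := one_mul _
      have h6 : Real.exp (-Real.pi * ((n : ℝ) ^ 2 / q) * t) ≤ (Real.exp (-Real.pi * t / q)) ^ n := by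
        rw [← Real.exp_nat_mul]
        apply Real.exp_le_exp.2
        have h7 : (n : ℝ) ≤ (n : ℝ) ^ 2 := by nlinarith
        have h8 : 0 ≤ Real.pi * t / q := by positivity
        calc -Real.pi * ((n : ℝ) ^ 2 / q) * t = -((n : ℝ) ^ 2 * (Real.pi * t / q)) := by ring
          _ ≤ -((n : ℝ) * (Real.pi * t / q)) := by
            apply neg_le_neg
            gcongr
          _ = n * (-Real.pi * t / q) := by ring
      have hint0 : 0 ≤ ∫ s in Set.Ioi t, s ^ (bet e - 1) *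
          Real.exp (-Real.pi * ((n : ℝ) ^ 2 / q) * s) := by
        refine setIntegral_nonneg measurableSet_Ioi fun s hs => ?_
        have hs0 : (0 : ℝ) < s := lt_trans ht hs
        positivity
      calc ‖ξ (n : ZMod q) * (n : ℂ) ^ e‖ *
            ∫ s in Set.Ioi t, s ^ (bet e - 1) * Real.exp (-Real.pi * ((n : ℝ) ^ 2 / q) * s)
          ≤ n * (t ^ (bet e - 1) * (Real.exp (-Real.pi * ((n : ℝ) ^ 2 / q) * t) /
              (Real.pi * ((n : ℝ) ^ 2 / q)))) := by
            exact mul_le_mul h3 h1 hint0 hn0.le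
        _ ≤ n * (t ^ (bet e - 1) * ((Real.exp (-Real.pi * t / q)) ^ n /
              (Real.pi * ((n : ℝ) ^ 2 / q)))) := by
            gcongr
        _ = q / Real.pi * t ^ (bet e - 1) * (Real.exp (-Real.pi * t / q)) ^ n * (1 / n) := by
            field_simp
        _ ≤ q / Real.pi * t ^ (bet e - 1) * (Real.exp (-Real.pi * t / q)) ^ n * 1 := by
            gcongr
            rw [div_le_one hn0]; exact hn1
        _ = _ := mul_one _
  have hsum : Summable fun n : ℕ => ∫ s in Set.Ioi t, ‖F n s‖ := by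
    refine Summable.of_nonneg_of_le (fun n => integral_nonneg fun s => norm_nonneg _) hFn ?_
    refine (summable_geometric_of_lt_one (Real.exp_pos _).le ?_).mul_left _
    rw [Real.exp_lt_one_iff]
    have : 0 < Real.pi * t / q := by positivity
    have h : -Real.pi * t / q = -(Real.pi * t / q) := by ring
    rw [h]; linarith
  have hmain := hasSum_integral_of_summable_integral_norm hFi hsum
  have hL : ∫ s in Set.Ioi t, theta ξ e s * (s : ℂ) ^ (bet e - 1 : ℂ) =
      ∫ s in Set.Ioi t, ∑' n, F n s := by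
    congr 1
    funext s
    simp only [F, theta]
    rw [tsum_mul_right]
  rw [hL, ← hmain.tsum_eq, ← tsum_mul_left]
  refine tsum_congr fun n => ?_
  rcases Nat.eq_zero_or_pos n with h0 | hn
  · rw [h0, hF0, hξ0]
    simp
  · have hn0 : (0 : ℝ) < n := by exact_mod_cast hn
    have hc : (0 : ℝ) < (n : ℝ) ^ 2 / q := by positivity
    have h1 : ∫ s in Set.Ioi t, F n s = (ξ (n : ZMod q) * (n : ℂ) ^ e) *
        ((∫ s in Set.Ioi t, s ^ (bet e - 1) * Real.exp (-Real.pi * ((n : ℝ) ^ 2 / q) * s) : ℝ) :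
          ℂ) := by
      rw [setIntegral_congr_fun measurableSet_Ioi (hFr n), integral_const_mul]
      congr 1
      exact integral_ofReal
    rw [h1, Afe_int e hc ht]
    have h2 : √((n : ℝ) ^ 2 / q * t) = n * √(t / q) := by
      rw [show (n : ℝ) ^ 2 / q * t = (n : ℝ) ^ 2 * (t / q) by ring,
        Real.sqrt_mul (by positivity), Real.sqrt_sq hn0.le]
    rw [h2]
    have h3 : (((Real.pi / q : ℝ) : ℂ) ^ (-(bet e) : ℂ) * Complex.Gamma (bet e)) =
        (((Real.pi / q) ^ (-bet e) * Real.Gamma (bet e) : ℝ) : ℂ) := by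
      rw [Complex.ofReal_mul, Complex.ofReal_cpow (by positivity), Complex.Gamma_ofReal]
      push_cast
      rfl
    rw [h3]
    have h4 : ((n : ℝ) ^ 2 / q) ^ (-bet e) * (Real.Gamma (bet e) * Real.pi ^ (-bet e)) *
        (n : ℝ) ^ e = (Real.pi / q) ^ (-bet e) * Real.Gamma (bet e) * (1 / √n) := by
      have h5 : (n : ℝ) ^ e * ((n : ℝ) ^ 2) ^ (-bet e) = 1 / √n := by
        rw [← Real.rpow_natCast (n : ℝ) e, ← Real.rpow_natCast (n : ℝ) 2, ← Real.rpow_mul hn0.le,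
          ← Real.rpow_add hn0, Real.sqrt_eq_rpow, one_div, ← Real.rpow_neg hn0.le]
        congr 1
        unfold bet
        push_cast
        ring
      rw [Real.div_rpow (by positivity) hq0.le, Real.div_rpow hpi.le hq0.le]
      rw [← h5]
      ring
    have h6 : ((((n : ℝ) ^ 2 / q) ^ (-bet e) * (Real.Gamma (bet e) * Real.pi ^ (-bet e)) *
        (n : ℝ) ^ e : ℝ) : ℂ) =
        (((Real.pi / q) ^ (-bet e) * Real.Gamma (bet e) * (1 / √n) : ℝ) : ℂ) := by rw [h4]
    push_cast at h6 ⊢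
    linear_combination (ξ (n : ZMod q) * ((nu e).real (Set.Ioi (n * √(t / q))) : ℂ)) * h6

/-- the part of the integral near zero -/
theorem Afe_low {q : ℕ} [NeZero q] (χ : DirichletCharacter ℂ q) (e : ℕ) (ε : ℂ)
    (h : ∀ t : ℝ, 0 < t →
      theta χ e (1 / t) = ε * (t : ℂ) ^ (1 / 2 + e : ℂ) * theta χ⁻¹ e t) {t : ℝ} (ht : 0 < t) :
    ∫ s in Set.Ioc 0 t, theta χ e s * (s : ℂ) ^ (bet e - 1 : ℂ) =
      ε * ∫ s in Set.Ioi (1 / t), theta χ⁻¹ e s * (s : ℂ) ^ (bet e - 1 : ℂ) := by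
  have h1 := integral_comp_rpow_Ioi
    (fun y : ℝ => (Set.Ioc 0 t).indicator (fun s : ℝ => theta χ e s * (s : ℂ) ^ (bet e - 1 : ℂ)) y)
    (p := -1) (by norm_num)
  have h2 : ∫ y in Set.Ioi (0 : ℝ), (Set.Ioc 0 t).indicator
      (fun s : ℝ => theta χ e s * (s : ℂ) ^ (bet e - 1 : ℂ)) y =
      ∫ s in Set.Ioc 0 t, theta χ e s * (s : ℂ) ^ (bet e - 1 : ℂ) := by
    rw [setIntegral_indicator measurableSet_Ioc]
    congr 2
    ext x
    simp only [Set.mem_inter_iff, Set.mem_Ioi, Set.mem_Ioc]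
    tauto
  rw [← h2, ← h1, ← integral_Ici_eq_integral_Ioi (x := 1 / t), ← integral_const_mul]
  have h3 : ∫ s in Set.Ici (1 / t), ε * (theta χ⁻¹ e s * (s : ℂ) ^ (bet e - 1 : ℂ)) =
      ∫ x in Set.Ioi (0 : ℝ), (Set.Ici (1 / t)).indicator
        (fun s : ℝ => ε * (theta χ⁻¹ e s * (s : ℂ) ^ (bet e - 1 : ℂ))) x := by
    rw [setIntegral_indicator measurableSet_Ici]
    congr 2
    rw [eq_comm, Set.inter_eq_right]
    intro x hx
    have h0t : (0 : ℝ) < 1 / t := by positivity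
    exact lt_of_lt_of_le h0t hx
  rw [h3]
  refine setIntegral_congr_fun measurableSet_Ioi fun x hx => ?_
  have hx0 : (0 : ℝ) < x := hx
  rw [Real.rpow_neg_one]
  by_cases hxt : x⁻¹ ≤ t
  · have hm : x⁻¹ ∈ Set.Ioc 0 t := ⟨by positivity, hxt⟩
    have hm2 : x ∈ Set.Ici (1 / t) := by
      rw [Set.mem_Ici, one_div, inv_le_comm₀ ht hx0]
      exact hxt
    rw [Set.indicator_of_mem hm, Set.indicator_of_mem hm2]
    have h4 := h x hx0
    rw [one_div] at h4
    rw [h4]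
    have hxc : (x : ℂ) ≠ 0 := by exact_mod_cast hx0.ne'
    have h5 : ((x⁻¹ : ℝ) : ℂ) ^ (bet e - 1 : ℂ) = (x : ℂ) ^ (-(bet e - 1) : ℂ) := by
      rw [Complex.ofReal_inv, Complex.inv_cpow _ _ (by
        rw [Complex.arg_ofReal_of_nonneg hx0.le]; exact Real.pi_pos.ne), Complex.cpow_neg]
    have h6 : ((|(-1 : ℝ)| * x ^ ((-1 : ℝ) - 1) : ℝ) : ℂ) = (x : ℂ) ^ (-2 : ℂ) := by
      rw [abs_neg, abs_one, one_mul, Complex.ofReal_cpow hx0.le]
      congr 1
      push_cast
      ring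
    rw [h5]
    rw [Complex.real_smul, h6]
    have h7 : (x : ℂ) ^ (-2 : ℂ) * (x : ℂ) ^ (1 / 2 + e : ℂ) * (x : ℂ) ^ (-(bet e - 1) : ℂ) =
        (x : ℂ) ^ (bet e - 1 : ℂ) := by
      rw [← Complex.cpow_add _ _ hxc, ← Complex.cpow_add _ _ hxc]
      congr 1
      unfold bet
      push_cast
      ring
    rw [← h7]
    ring
  · have hm : x⁻¹ ∉ Set.Ioc 0 t := fun h => hxt h.2
    have hm2 : x ∉ Set.Ici (1 / t) := by
      intro h4
      rw [Set.mem_Ici, one_div, inv_le_comm₀ ht hx0] at h4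
      exact hxt h4
    rw [Set.indicator_of_notMem hm, Set.indicator_of_notMem hm2, smul_zero]

theorem afe {q : ℕ} [NeZero q] (hq : q.Prime) (χ : DirichletCharacter ℂ q) (hχ : χ ≠ 1) :
    ∃ e : ℕ, e ≤ 1 ∧ χ (-1) = (-1) ^ e ∧ ∃ ε : ℂ, ‖ε‖ = 1 ∧ ∀ T : ℝ, 0 < T →
      DirichletCharacter.LFunction χ (1 / 2) =
        ∑' n : ℕ, ((nu e).real (Set.Ioi (n / T)) : ℂ) * χ (n : ZMod q) / (Real.sqrt n : ℂ) +
        ε * ∑' n : ℕ, ((nu e).real (Set.Ioi (n * T / q)) : ℂ) *
          (starRingEnd ℂ) (χ (n : ZMod q)) / (Real.sqrt n : ℂ) := by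
  obtain ⟨e, he, hpar, ε, hε, hfe⟩ := theta_fe hq χ hχ
  refine ⟨e, he, hpar, ε, hε, fun T hT => ?_⟩
  have hq0 : (0 : ℝ) < q := by exact_mod_cast hq.pos
  have hpi := Real.pi_pos
  obtain ⟨hint, hmel⟩ := mellin_half hq χ hχ e he ε hε hfe
  have ht : (0 : ℝ) < q / T ^ 2 := by positivity
  have hsplit : ∫ t in Set.Ioi (0 : ℝ), theta χ e t * (t : ℂ) ^ (bet e - 1 : ℂ) =
      (∫ s in Set.Ioc 0 (q / T ^ 2), theta χ e s * (s : ℂ) ^ (bet e - 1 : ℂ)) +
        ∫ s in Set.Ioi (q / T ^ 2), theta χ e s * (s : ℂ) ^ (bet e - 1 : ℂ) := by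
    rw [← setIntegral_union (Set.Ioc_disjoint_Ioi le_rfl) measurableSet_Ioi
      (hint.mono_set Set.Ioc_subset_Ioi_self) (hint.mono_set (Set.Ioi_subset_Ioi ht.le)),
      Set.Ioc_union_Ioi_eq_Ioi ht.le]
  rw [hsplit, Afe_low χ e ε hfe ht, Afe_theta hq χ⁻¹ e he (by positivity : (0 : ℝ) < 1 / (q / T ^ 2)),
    Afe_theta hq χ e he ht] at hmel
  have h1 : √(q / T ^ 2 / q) = 1 / T := by
    rw [show (q : ℝ) / T ^ 2 / q = (1 / T) ^ 2 by field_simp, Real.sqrt_sq (by positivity)]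
  have h2 : √(1 / (q / T ^ 2) / q) = T / q := by
    rw [show (1 : ℝ) / (q / T ^ 2) / q = (T / q) ^ 2 by field_simp, Real.sqrt_sq (by positivity)]
  rw [h1, h2] at hmel
  have h3 : (((Real.pi / q : ℝ) : ℂ) ^ (-(bet e) : ℂ) * Complex.Gamma (bet e)) ≠ 0 := by
    have hb := Afe_bet_pos e
    apply mul_ne_zero
    · rw [Complex.cpow_ne_zero_iff]
      left
      exact_mod_cast (by positivity : (Real.pi / q) ≠ 0)
    · rw [Complex.Gamma_ofReal]
      exact_mod_cast (Real.Gamma_pos_of_pos hb).ne'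
  have h4 : ∀ n : ℕ, (n : ℝ) * (1 / T) = n / T := fun n => by ring
  have h5 : ∀ n : ℕ, (n : ℝ) * (T / q) = n * T / q := fun n => by ring
  have h6 : ∀ n : ℕ, χ⁻¹ (n : ZMod q) = (starRingEnd ℂ) (χ (n : ZMod q)) := by
    intro n
    rw [← MulChar.star_eq_inv, MulChar.star_apply]
    rfl
  simp only [h4, h5, h6] at hmel
  refine mul_left_cancel₀ h3 ?_
  rw [hmel]
  ring

end Pool.Agent.NV
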