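import Pool.Agent.Lib.MP_afd523_nt.Defs

/-! NV module LA: primitive points of a lattice of determinant `q` in a box. -/

namespace Pool.Agent.NV

open Finset Complex MeasureTheory

/-- one half of the box -/
theorem Latt_half (q X Y : ℕ) (hq : 0 < q) (T : Finset (ℕ × ℕ)) (u v : ℕ × ℕ → ℕ)
    (hu : ∀ p ∈ T, 1 ≤ u p) (huX : ∀ p ∈ T, u p ≤ X) (hv : ∀ p ∈ T, v p * X ≤ Y * u p)
    (hd : ∀ p ∈ T, ∀ p' ∈ T, p ≠ p' →
      (q : ℤ) ≤ |(u p : ℤ) * (v p' : ℤ) - (u p' : ℤ) * (v p : ℤ)|) :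
    T.card ≤ X * Y / q + 1 := by
  have hmaps : ∀ p ∈ T, v p * X ^ 2 / (u p * q) ∈ Finset.range (X * Y / q + 1) := by
    intro p hp
    rw [Finset.mem_range, Nat.lt_succ_iff]
    have h1 : v p * X ^ 2 ≤ u p * (X * Y) := by
      calc v p * X ^ 2 = v p * X * X := by ring
        _ ≤ Y * u p * X := Nat.mul_le_mul_right _ (hv p hp)
        _ = u p * (X * Y) := by ring
    calc v p * X ^ 2 / (u p * q) ≤ u p * (X * Y) / (u p * q) := Nat.div_le_div_right h1
      _ = X * Y / q := Nat.mul_div_mul_left _ _ (hu p hp)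
  have hinj : Set.InjOn (fun p => v p * X ^ 2 / (u p * q)) T := by
    intro p hp p' hp' he
    by_contra hne
    have hp := Finset.mem_coe.mp hp
    have hp' := Finset.mem_coe.mp hp'
    have hd1 := hd p hp p' hp' hne
    simp only at he
    have hu1 : (1 : ℤ) ≤ u p := by exact_mod_cast hu p hp
    have hu2 : (1 : ℤ) ≤ u p' := by exact_mod_cast hu p' hp'
    have hX1 : (u p : ℤ) ≤ X := by exact_mod_cast huX p hp
    have hX2 : (u p' : ℤ) ≤ X := by exact_mod_cast huX p' hp'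
    have hqz : (0 : ℤ) < q := by exact_mod_cast hq
    have hpos : 0 < u p * q := Nat.mul_pos (hu p hp) hq
    have hpos' : 0 < u p' * q := Nat.mul_pos (hu p' hp') hq
    have h1 : v p * X ^ 2 / (u p * q) * (u p * q) ≤ v p * X ^ 2 := Nat.div_mul_le_self _ _
    have h2 : v p * X ^ 2 < (v p * X ^ 2 / (u p * q) + 1) * (u p * q) :=
      (Nat.lt_mul_div_succ (v p * X ^ 2) hpos).trans_eq (mul_comm _ _)
    have h3 : v p' * X ^ 2 / (u p' * q) * (u p' * q) ≤ v p' * X ^ 2 := Nat.div_mul_le_self _ _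
    have h4 : v p' * X ^ 2 < (v p' * X ^ 2 / (u p' * q) + 1) * (u p' * q) :=
      (Nat.lt_mul_div_succ (v p' * X ^ 2) hpos').trans_eq (mul_comm _ _)
    rw [← he] at h3 h4
    set k := v p * X ^ 2 / (u p * q) with hk
    have h1z : (k : ℤ) * (u p * q) ≤ v p * X ^ 2 := by exact_mod_cast h1
    have h2z : (v p : ℤ) * X ^ 2 < (k + 1) * (u p * q) := by exact_mod_cast h2
    have h3z : (k : ℤ) * (u p' * q) ≤ v p' * X ^ 2 := by exact_mod_cast h3
    have h4z : (v p' : ℤ) * X ^ 2 < (k + 1) * (u p' * q) := by exact_mod_cast h4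
    have hX : (1 : ℤ) ≤ X := hu1.trans hX1
    have hXX : (0 : ℤ) < (X : ℤ) ^ 2 := by positivity
    have huu0 : (u p : ℤ) * u p' ≤ (X : ℤ) * X :=
      mul_le_mul hX1 hX2 (by linarith) (by linarith)
    have huu : (u p : ℤ) * u p' * q ≤ q * (X : ℤ) ^ 2 := by
      calc (u p : ℤ) * u p' * q ≤ (X : ℤ) * X * q := mul_le_mul_of_nonneg_right huu0 hqz.le
        _ = q * (X : ℤ) ^ 2 := by ring
    have e1 : ((u p : ℤ) * v p' - u p' * v p) * X ^ 2 < q * X ^ 2 := by nlinarith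
    have e2 : ((u p' : ℤ) * v p - u p * v p') * X ^ 2 < q * X ^ 2 := by nlinarith
    have e3 := lt_of_mul_lt_mul_right e1 hXX.le
    have e4 := lt_of_mul_lt_mul_right e2 hXX.le
    have e5 : |(u p : ℤ) * (v p' : ℤ) - (u p' : ℤ) * (v p : ℤ)| < q := abs_lt.mpr ⟨by linarith, e3⟩
    linarith
  have := Finset.card_le_card_of_injOn _ hmaps hinj
  rwa [Finset.card_range] at this

/-- coprime pairs with the same quotient are equal -/
theorem Latt_eq {a b c d : ℕ} (hb : 0 < b) (hd : 0 < d) (h1 : Nat.Coprime a b)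
    (h2 : Nat.Coprime c d) (h : a * d = c * b) : a = c ∧ b = d := by
  have h3 : b ∣ d := by
    have : b ∣ a * d := h ▸ Dvd.intro_left c rfl
    exact (Nat.Coprime.symm h1).dvd_of_dvd_mul_left this
  have h4 : d ∣ b := by
    have : d ∣ c * b := h ▸ Dvd.intro_left a rfl
    exact (Nat.Coprime.symm h2).dvd_of_dvd_mul_left this
  have h5 : b = d := Nat.dvd_antisymm h3 h4
  refine ⟨?_, h5⟩
  subst h5
  exact Nat.eq_of_mul_eq_mul_right hb h

theorem latt (q : ℕ) (hq : 0 < q) (h : ZMod q) (A B : ℕ) (hA : 1 ≤ A) (hB : 1 ≤ B) :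
    ((((Icc 1 A) ×ˢ (Icc 1 B)).filter
      (fun p => Nat.Coprime p.1 p.2 ∧ (p.1 : ZMod q) = h * (p.2 : ZMod q))).card : ℝ) ≤
      2 * ((A : ℝ) * B / q + 1) := by
  set S := ((Icc 1 A) ×ˢ (Icc 1 B)).filter
      (fun p => Nat.Coprime p.1 p.2 ∧ (p.1 : ZMod q) = h * (p.2 : ZMod q)) with hS
  have hmem : ∀ p ∈ S, (1 ≤ p.1 ∧ p.1 ≤ A) ∧ (1 ≤ p.2 ∧ p.2 ≤ B) ∧ Nat.Coprime p.1 p.2 ∧
      (p.1 : ZMod q) = h * (p.2 : ZMod q) := by
    intro p hp
    rw [hS, Finset.mem_filter, Finset.mem_product, Finset.mem_Icc, Finset.mem_Icc] at hp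
    exact ⟨hp.1.1, hp.1.2, hp.2.1, hp.2.2⟩
  have hdist : ∀ p ∈ S, ∀ p' ∈ S, p ≠ p' →
      (q : ℤ) ≤ |(p.1 : ℤ) * (p'.2 : ℤ) - (p'.1 : ℤ) * (p.2 : ℤ)| := by
    intro p hp p' hp' hne
    obtain ⟨ha, hb, hc, hm⟩ := hmem p hp
    obtain ⟨ha', hb', hc', hm'⟩ := hmem p' hp'
    have h1 : (q : ℤ) ∣ (p.1 : ℤ) * (p'.2 : ℤ) - (p'.1 : ℤ) * (p.2 : ℤ) := by
      rw [← ZMod.intCast_zmod_eq_zero_iff_dvd]
      push_cast
      rw [hm, hm']
      ring
    have h2 : (p.1 : ℤ) * (p'.2 : ℤ) - (p'.1 : ℤ) * (p.2 : ℤ) ≠ 0 := by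
      intro h0
      apply hne
      have h3 : p.1 * p'.2 = p'.1 * p.2 := by
        have : (p.1 : ℤ) * (p'.2 : ℤ) = (p'.1 : ℤ) * (p.2 : ℤ) := by linarith
        exact_mod_cast this
      obtain ⟨e1, e2⟩ := Latt_eq hb.1 hb'.1 hc hc' h3
      exact Prod.ext e1 e2
    exact Int.le_of_dvd (abs_pos.mpr h2) ((dvd_abs _ _).mpr h1)
  have hc1 : (S.filter (fun p => p.2 * A ≤ B * p.1)).card ≤ A * B / q + 1 := by
    refine Latt_half q A B hq _ (fun p => p.1) (fun p => p.2) ?_ ?_ ?_ ?_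
    · exact fun p hp => (hmem p (Finset.mem_filter.mp hp).1).1.1
    · exact fun p hp => (hmem p (Finset.mem_filter.mp hp).1).1.2
    · exact fun p hp => (Finset.mem_filter.mp hp).2
    · exact fun p hp p' hp' hne =>
        hdist p (Finset.mem_filter.mp hp).1 p' (Finset.mem_filter.mp hp').1 hne
  have hc2 : (S.filter (fun p => ¬ p.2 * A ≤ B * p.1)).card ≤ A * B / q + 1 := by
    rw [mul_comm A B]
    refine Latt_half q B A hq _ (fun p => p.2) (fun p => p.1) ?_ ?_ ?_ ?_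
    · exact fun p hp => (hmem p (Finset.mem_filter.mp hp).1).2.1.1
    · exact fun p hp => (hmem p (Finset.mem_filter.mp hp).1).2.1.2
    · intro p hp
      have := (Finset.mem_filter.mp hp).2
      rw [mul_comm p.1 B, mul_comm A p.2]
      exact (not_le.mp this).le
    · intro p hp p' hp' hne
      have := hdist p (Finset.mem_filter.mp hp).1 p' (Finset.mem_filter.mp hp').1 hne
      rw [abs_sub_comm] at this
      calc (q : ℤ) ≤ _ := this
        _ = _ := by congr 1; ring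
  have hcard := Finset.card_filter_add_card_filter_not (s := S) (fun p => p.2 * A ≤ B * p.1)
  have hsum : (S.card : ℝ) ≤ 2 * (((A * B / q : ℕ) : ℝ) + 1) := by
    have : S.card ≤ 2 * (A * B / q + 1) := by omega
    exact_mod_cast this
  have hdiv : ((A * B / q : ℕ) : ℝ) ≤ (A : ℝ) * B / q := by
    have := @Nat.cast_div_le ℝ _ _ _ (A * B) q
    rwa [Nat.cast_mul] at this
  linarith

end Pool.Agent.NV
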