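import Pool.Agent.Lib.MP_afd523_nt.Defs
import Pool.Agent.Lib.MP_afd523_nt.Latt
import Pool.Agent.Lib.MP_848d44_nt.Div

set_option autoImplicit false

/-! # MP_afd523_nt, project NV, module PO: the power trick -/

namespace Pool.Agent.NV

open Finset Complex MeasureTheory

theorem Pow_card_sets {P X Y : Finset ℕ} (hX : X ⊆ P) (hY : Y ⊆ P) (hXY : Disjoint X Y) :
    (2:ℝ) ^ P.card ≤ 2 ^ (X.card + Y.card) *
      ((P.powerset.filter (fun S => X ⊆ S ∧ Disjoint Y S)).card : ℝ) := by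
  have e : P.powerset.filter (fun S => X ⊆ S ∧ Disjoint Y S) = Finset.Icc X (P \ Y) := by
    ext S
    rw [Finset.mem_filter, Finset.mem_powerset, Finset.mem_Icc]
    constructor
    · rintro ⟨h1, h2, h3⟩
      refine ⟨h2, ?_⟩
      rw [Finset.subset_sdiff]
      exact ⟨h1, h3.symm⟩
    · rintro ⟨h1, h2⟩
      rw [Finset.subset_sdiff] at h2
      exact ⟨h2.1, h1, h2.2.symm⟩
  have hXP : X ⊆ P \ Y := by
    rw [Finset.subset_sdiff]
    exact ⟨hX, hXY⟩
  have h1 : (P \ Y).card = P.card - Y.card := Finset.card_sdiff_of_subset hY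
  have h2 : X.card ≤ (P \ Y).card := Finset.card_le_card hXP
  have h3 : Y.card ≤ P.card := Finset.card_le_card hY
  rw [e, Finset.card_Icc_finset hXP]
  push_cast
  rw [← pow_add]
  apply le_of_eq
  congr 1
  omega

theorem Pow_omega_le {n : ℕ} (hn : n ≠ 0) : 2 ^ n.primeFactors.card ≤ n.divisors.card := by
  rw [Nat.card_divisors hn, ← Finset.prod_const]
  apply Finset.prod_le_prod'
  intro p hp
  have : n.factorization p ≠ 0 := by
    rw [← Finsupp.mem_support_iff, Nat.support_factorization]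
    exact hp
  omega

theorem Pow_select (N : Finset (ℕ × ℕ)) (hco : ∀ p ∈ N, Nat.Coprime p.1 p.2) (D : ℝ)
    (hD : ∀ p ∈ N, (2:ℝ) ^ (p.1.primeFactors.card + p.2.primeFactors.card) ≤ D) :
    ∃ S : Finset ℕ, (N.card : ℝ) ≤ D * ((N.filter (fun p => p.1.primeFactors ⊆ S ∧
      Disjoint p.2.primeFactors S)).card : ℝ) := by
  by_contra hcon
  push Not at hcon
  set P : Finset ℕ := N.biUnion (fun p => p.1.primeFactors ∪ p.2.primeFactors) with hP
  have h1 : ∑ S ∈ P.powerset, D * ((N.filter (fun p => p.1.primeFactors ⊆ S ∧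
      Disjoint p.2.primeFactors S)).card : ℝ) < ∑ S ∈ P.powerset, (N.card : ℝ) :=
    Finset.sum_lt_sum_of_nonempty ⟨∅, Finset.empty_mem_powerset P⟩ (fun S _ => hcon S)
  rw [Finset.sum_const, Finset.card_powerset, nsmul_eq_mul, ← Finset.mul_sum] at h1
  have h2 : ∑ S ∈ P.powerset, ((N.filter (fun p => p.1.primeFactors ⊆ S ∧
      Disjoint p.2.primeFactors S)).card : ℝ) =
      ∑ p ∈ N, ((P.powerset.filter (fun S => p.1.primeFactors ⊆ S ∧
        Disjoint p.2.primeFactors S)).card : ℝ) := by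
    simp only [Finset.card_filter]
    push_cast
    rw [Finset.sum_comm]
  rw [h2, Finset.mul_sum] at h1
  have h3 : ∑ p ∈ N, (2:ℝ) ^ P.card ≤ ∑ p ∈ N, D * ((P.powerset.filter
      (fun S => p.1.primeFactors ⊆ S ∧ Disjoint p.2.primeFactors S)).card : ℝ) := by
    apply Finset.sum_le_sum
    intro p hp
    have hX : p.1.primeFactors ⊆ P := by
      intro x hx
      rw [hP, Finset.mem_biUnion]
      exact ⟨p, hp, Finset.mem_union_left _ hx⟩
    have hY : p.2.primeFactors ⊆ P := by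
      intro x hx
      rw [hP, Finset.mem_biUnion]
      exact ⟨p, hp, Finset.mem_union_right _ hx⟩
    refine (Pow_card_sets hX hY (Nat.Coprime.disjoint_primeFactors (hco p hp))).trans ?_
    exact mul_le_mul_of_nonneg_right (hD p hp) (Nat.cast_nonneg _)
  rw [Finset.sum_const, nsmul_eq_mul] at h3
  push_cast at h1
  linarith

theorem Pow_coprime {j : ℕ} {S : Finset ℕ} {t : Fin j → ℕ × ℕ}
    (h : ∀ i, (t i).1.primeFactors ⊆ S ∧ Disjoint (t i).2.primeFactors S)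
    (h0 : ∀ i, (t i).1 ≠ 0 ∧ (t i).2 ≠ 0) :
    Nat.Coprime (∏ i, (t i).1) (∏ i, (t i).2) := by
  apply Nat.Coprime.prod_left
  intro i _
  apply Nat.Coprime.prod_right
  intro k _
  rw [← Nat.disjoint_primeFactors (h0 i).1 (h0 k).2]
  exact (h k).2.symm.mono_left (h i).1

theorem Pow_image {q : ℕ} [NeZero q] (H : Subgroup (ZMod q)ˣ) (A B j : ℕ) (hA : 1 ≤ A)
    (hB : 1 ≤ B) (S : Finset ℕ) (N : Finset (ℕ × ℕ)) (hN : ∀ p ∈ N, p ∈ NB H A B ∧
      p.1.primeFactors ⊆ S ∧ Disjoint p.2.primeFactors S) :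
    ((((Fintype.piFinset (fun _ : Fin j => N)).image
      (fun t => (∏ i, (t i).1, ∏ i, (t i).2))).card : ℕ) : ℝ) ≤
      Nat.card H * (2 * ((4 * (A : ℝ) * B) ^ j / q + 1)) := by
  classical
  have hNB : ∀ p ∈ NB H A B, (A ≤ p.1 ∧ p.1 < 2 * A) ∧ (B ≤ p.2 ∧ p.2 < 2 * B) ∧
      RH H p.1 p.2 := by
    intro p hp
    unfold NB at hp
    simp only [Finset.mem_filter, Finset.mem_product, Finset.mem_Ico] at hp
    exact ⟨hp.1.1, hp.1.2, hp.2.2⟩
  set U : Finset (ZMod q)ˣ := Finset.univ.filter (fun u => u ∈ H) with hU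
  have hUc : U.card = Nat.card H := by
    rw [hU, Nat.card_eq_fintype_card, Fintype.card_subtype]
  set F : (ZMod q)ˣ → Finset (ℕ × ℕ) := fun u => ((Icc 1 ((2 * A) ^ j)) ×ˢ
    (Icc 1 ((2 * B) ^ j))).filter
      (fun p => Nat.Coprime p.1 p.2 ∧ (p.1 : ZMod q) = (u : ZMod q) * (p.2 : ZMod q)) with hF
  have hsub : (Fintype.piFinset (fun _ : Fin j => N)).image
      (fun t => (∏ i, (t i).1, ∏ i, (t i).2)) ⊆ U.biUnion F := by
    intro p hp
    rw [Finset.mem_image] at hp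
    obtain ⟨t, ht, rfl⟩ := hp
    rw [Fintype.mem_piFinset] at ht
    have h1 : ∀ i, RH H (t i).1 (t i).2 := fun i => (hNB _ (hN _ (ht i)).1).2.2
    choose u hu hu2 using h1
    rw [Finset.mem_biUnion]
    refine ⟨∏ i, u i, ?_, ?_⟩
    · rw [hU, Finset.mem_filter]
      exact ⟨Finset.mem_univ _, Subgroup.prod_mem H fun i _ => hu i⟩
    · rw [hF]
      simp only [Finset.mem_filter, Finset.mem_product, Finset.mem_Icc]
      have h2 : ∀ i, 1 ≤ (t i).1 ∧ (t i).1 ≤ 2 * A := fun i => by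
        have := (hNB _ (hN _ (ht i)).1).1
        omega
      have h3 : ∀ i, 1 ≤ (t i).2 ∧ (t i).2 ≤ 2 * B := fun i => by
        have := (hNB _ (hN _ (ht i)).1).2.1
        omega
      refine ⟨⟨⟨?_, ?_⟩, ?_, ?_⟩, ?_, ?_⟩
      · exact Finset.one_le_prod' fun i _ => (h2 i).1
      · refine (Finset.prod_le_prod' fun i _ => (h2 i).2).trans ?_
        simp
      · exact Finset.one_le_prod' fun i _ => (h3 i).1
      · refine (Finset.prod_le_prod' fun i _ => (h3 i).2).trans ?_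
        simp
      · apply Pow_coprime (S := S) (fun i => (hN _ (ht i)).2)
        intro i
        have := (h2 i).1
        have := (h3 i).1
        constructor <;> omega
      · push_cast
        rw [← Finset.prod_mul_distrib]
        exact Finset.prod_congr rfl fun i _ => hu2 i
  have h4 : (((Fintype.piFinset (fun _ : Fin j => N)).image
      (fun t => (∏ i, (t i).1, ∏ i, (t i).2))).card : ℝ) ≤ ∑ u ∈ U, ((F u).card : ℝ) := by
    exact_mod_cast (Finset.card_le_card hsub).trans Finset.card_biUnion_le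
  refine h4.trans ?_
  have hb : ∀ u ∈ U, ((F u).card : ℝ) ≤ 2 * ((4 * (A : ℝ) * B) ^ j / q + 1) := by
    intro u _
    have h5 := latt q (Nat.pos_of_ne_zero (NeZero.ne q)) (u : ZMod q) ((2 * A) ^ j) ((2 * B) ^ j)
      (Nat.one_le_pow _ _ (by omega)) (Nat.one_le_pow _ _ (by omega))
    refine h5.trans (le_of_eq ?_)
    push_cast
    rw [← mul_pow]
    congr 4
    ring
  refine (Finset.sum_le_card_nsmul _ _ _ hb).trans (le_of_eq ?_)
  rw [nsmul_eq_mul, hUc]

theorem pow_count (j : ℕ) (hj : 1 ≤ j) (ε : ℝ) (hε : 0 < ε) :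
    ∃ C : ℝ, 1 ≤ C ∧ ∀ (q : ℕ) [NeZero q] (H : Subgroup (ZMod q)ˣ) (A B : ℕ), 1 ≤ A → 1 ≤ B →
      ((NB H A B).card : ℝ) ^ j ≤
        C * ((A : ℝ) * B) ^ ε * Nat.card H * ((4 * (A : ℝ) * B) ^ j / q + 1) := by
  have hj0 : (0:ℝ) < j := by exact_mod_cast hj
  set δ : ℝ := ε / (2 * j ^ 2) with hδ
  have hδ0 : 0 < δ := by positivity
  obtain ⟨C1, hC1, hdiv⟩ := Pool.Agent.M848.divisor_bound δ hδ0
  refine ⟨2 * C1 ^ (4 * j) * 4 ^ ε, ?_, ?_⟩
  · have h1 : 1 ≤ C1 ^ (4 * j) := one_le_pow₀ hC1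
    have h2 : (1:ℝ) ≤ 4 ^ ε := Real.one_le_rpow (by norm_num) hε.le
    nlinarith
  intro q _ H A B hA hB
  have hA' : (1:ℝ) ≤ A := by exact_mod_cast hA
  have hB' : (1:ℝ) ≤ B := by exact_mod_cast hB
  have hX1 : (1:ℝ) ≤ 4 * A * B := by nlinarith
  set X : ℝ := 4 * (A:ℝ) * B with hX
  have hX0 : 0 < X := by linarith
  have hNB : ∀ p ∈ NB H A B, (A ≤ p.1 ∧ p.1 < 2 * A) ∧ (B ≤ p.2 ∧ p.2 < 2 * B) ∧
      Nat.Coprime p.1 p.2 := by
    intro p hp
    unfold NB at hp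
    simp only [Finset.mem_filter, Finset.mem_product, Finset.mem_Ico] at hp
    exact ⟨hp.1.1, hp.1.2, hp.2.1⟩
  -- the selection
  obtain ⟨S, hS⟩ := Pow_select (NB H A B) (fun p hp => (hNB p hp).2.2) (C1 ^ 2 * X ^ δ) (by
    intro p hp
    obtain ⟨⟨h1, h2⟩, ⟨h3, h4⟩, -⟩ := hNB p hp
    have e1 : ((2:ℝ)) ^ p.1.primeFactors.card ≤ C1 * (p.1:ℝ) ^ δ := by
      refine le_trans ?_ (hdiv p.1 (by omega))
      exact_mod_cast Pow_omega_le (by omega : p.1 ≠ 0)
    have e2 : ((2:ℝ)) ^ p.2.primeFactors.card ≤ C1 * (p.2:ℝ) ^ δ := by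
      refine le_trans ?_ (hdiv p.2 (by omega))
      exact_mod_cast Pow_omega_le (by omega : p.2 ≠ 0)
    have h2' : (p.1:ℝ) ≤ 2 * A := by exact_mod_cast h2.le
    have h4' : (p.2:ℝ) ≤ 2 * B := by exact_mod_cast h4.le
    rw [pow_add]
    calc (2:ℝ) ^ p.1.primeFactors.card * 2 ^ p.2.primeFactors.card
        ≤ (C1 * (p.1:ℝ) ^ δ) * (C1 * (p.2:ℝ) ^ δ) :=
          mul_le_mul e1 e2 (by positivity) (by positivity)
      _ = C1 ^ 2 * ((p.1:ℝ) * p.2) ^ δ := by
          rw [Real.mul_rpow (by positivity) (by positivity)]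
          ring
      _ ≤ C1 ^ 2 * X ^ δ := by
          apply mul_le_mul_of_nonneg_left _ (by positivity)
          apply Real.rpow_le_rpow (by positivity) _ hδ0.le
          rw [hX]
          nlinarith [(Nat.cast_nonneg p.1 : (0:ℝ) ≤ p.1), (Nat.cast_nonneg p.2 : (0:ℝ) ≤ p.2)])
  set N : Finset (ℕ × ℕ) := (NB H A B).filter (fun p => p.1.primeFactors ⊆ S ∧
      Disjoint p.2.primeFactors S) with hN
  have hNm : ∀ p ∈ N, p ∈ NB H A B ∧ p.1.primeFactors ⊆ S ∧ Disjoint p.2.primeFactors S := by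
    intro p hp
    rw [hN, Finset.mem_filter] at hp
    exact hp
  -- the tuples
  set T : Finset (Fin j → ℕ × ℕ) := Fintype.piFinset (fun _ : Fin j => N) with hT
  set f : (Fin j → ℕ × ℕ) → ℕ × ℕ := fun t => (∏ i, (t i).1, ∏ i, (t i).2) with hf
  have hTc : T.card = N.card ^ j := by
    rw [hT, Fintype.card_piFinset]
    simp
  have hfib : ∀ b ∈ T.image f, ((T.filter (fun t => f t = b)).card : ℝ) ≤
      (C1 ^ 2 * (X ^ j) ^ δ) ^ j := by
    intro b hb
    rw [Finset.mem_image] at hb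
    obtain ⟨t₀, ht₀, rfl⟩ := hb
    rw [hT, Fintype.mem_piFinset] at ht₀
    have hb1 : ∀ i, 1 ≤ (t₀ i).1 ∧ (t₀ i).1 ≤ 2 * A := fun i => by
      have := (hNB _ (hNm _ (ht₀ i)).1).1
      omega
    have hb2 : ∀ i, 1 ≤ (t₀ i).2 ∧ (t₀ i).2 ≤ 2 * B := fun i => by
      have := (hNB _ (hNm _ (ht₀ i)).1).2.1
      omega
    have hf1 : (f t₀).1 = ∏ i, (t₀ i).1 := rfl
    have hf2 : (f t₀).2 = ∏ i, (t₀ i).2 := rfl
    have hα1 : 1 ≤ (f t₀).1 := by
      rw [hf1]
      exact Finset.one_le_prod' fun i _ => (hb1 i).1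
    have hβ1 : 1 ≤ (f t₀).2 := by
      rw [hf2]
      exact Finset.one_le_prod' fun i _ => (hb2 i).1
    have hα2 : (f t₀).1 ≤ (2 * A) ^ j := by
      rw [hf1]
      refine (Finset.prod_le_prod' fun i _ => (hb1 i).2).trans ?_
      simp
    have hβ2 : (f t₀).2 ≤ (2 * B) ^ j := by
      rw [hf2]
      refine (Finset.prod_le_prod' fun i _ => (hb2 i).2).trans ?_
      simp
    have hsub : T.filter (fun t => f t = f t₀) ⊆ Fintype.piFinset
        (fun _ : Fin j => (f t₀).1.divisors ×ˢ (f t₀).2.divisors) := by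
      intro t ht
      rw [Finset.mem_filter] at ht
      rw [Fintype.mem_piFinset]
      intro i
      rw [Finset.mem_product, Nat.mem_divisors, Nat.mem_divisors]
      have e1 : (f t₀).1 = ∏ i, (t i).1 := by rw [← ht.2]
      have e2 : (f t₀).2 = ∏ i, (t i).2 := by rw [← ht.2]
      refine ⟨⟨?_, by omega⟩, ?_, by omega⟩
      · rw [e1]
        exact Finset.dvd_prod_of_mem (fun i => (t i).1) (Finset.mem_univ i)
      · rw [e2]
        exact Finset.dvd_prod_of_mem (fun i => (t i).2) (Finset.mem_univ i)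
    have h1 := Finset.card_le_card hsub
    rw [Fintype.card_piFinset] at h1
    simp only [Finset.card_product, Finset.prod_const, Finset.card_univ, Fintype.card_fin] at h1
    have h2 : ((T.filter (fun t => f t = f t₀)).card : ℝ) ≤
        (((f t₀).1.divisors.card : ℝ) * (f t₀).2.divisors.card) ^ j := by exact_mod_cast h1
    refine h2.trans ?_
    apply pow_le_pow_left₀ (by positivity)
    calc ((f t₀).1.divisors.card : ℝ) * (f t₀).2.divisors.card
        ≤ (C1 * ((f t₀).1 : ℝ) ^ δ) * (C1 * ((f t₀).2 : ℝ) ^ δ) :=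
          mul_le_mul (hdiv _ hα1) (hdiv _ hβ1) (by positivity) (by positivity)
      _ = C1 ^ 2 * (((f t₀).1 : ℝ) * (f t₀).2) ^ δ := by
          rw [Real.mul_rpow (by positivity) (by positivity)]
          ring
      _ ≤ C1 ^ 2 * (X ^ j) ^ δ := by
          apply mul_le_mul_of_nonneg_left _ (by positivity)
          apply Real.rpow_le_rpow (by positivity) _ hδ0.le
          have e1 : ((f t₀).1 : ℝ) ≤ (2 * A) ^ j := by exact_mod_cast hα2
          have e2 : ((f t₀).2 : ℝ) ≤ (2 * B) ^ j := by exact_mod_cast hβ2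
          calc ((f t₀).1 : ℝ) * (f t₀).2 ≤ (2 * A) ^ j * (2 * B) ^ j :=
                mul_le_mul e1 e2 (by positivity) (by positivity)
            _ = X ^ j := by
                rw [← mul_pow, hX]
                congr 1
                ring
  have himg := Pow_image H A B j hA hB S N hNm
  have hTb : (T.card : ℝ) ≤ ((T.image f).card : ℝ) * (C1 ^ 2 * (X ^ j) ^ δ) ^ j := by
    have h1 : (T.card : ℝ) = ∑ b ∈ T.image f, ((T.filter (fun t => f t = b)).card : ℝ) := by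
      exact_mod_cast Finset.card_eq_sum_card_image f T
    rw [h1]
    refine (Finset.sum_le_card_nsmul _ _ _ hfib).trans (le_of_eq ?_)
    rw [nsmul_eq_mul]
  rw [hTc] at hTb
  push_cast at hTb
  have hD0 : 0 ≤ C1 ^ 2 * X ^ δ := by positivity
  have hfin : ((NB H A B).card : ℝ) ^ j ≤ (C1 ^ 2 * X ^ δ) ^ j *
      ((Nat.card H * (2 * (X ^ j / q + 1))) * (C1 ^ 2 * (X ^ j) ^ δ) ^ j) := by
    calc ((NB H A B).card : ℝ) ^ j ≤ (C1 ^ 2 * X ^ δ * (N.card : ℝ)) ^ j :=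
          pow_le_pow_left₀ (Nat.cast_nonneg _) hS j
      _ = (C1 ^ 2 * X ^ δ) ^ j * (N.card : ℝ) ^ j := mul_pow _ _ _
      _ ≤ _ := by
          apply mul_le_mul_of_nonneg_left _ (pow_nonneg hD0 j)
          refine hTb.trans ?_
          exact mul_le_mul_of_nonneg_right himg (by positivity)
  refine hfin.trans ?_
  have e1 : (X ^ δ) ^ j = X ^ (δ * j) := by
    rw [← Real.rpow_natCast, ← Real.rpow_mul hX0.le]
  have e2 : ((X ^ j) ^ δ) ^ j = X ^ (δ * j ^ 2) := by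
    rw [← Real.rpow_natCast X j, ← Real.rpow_mul hX0.le, ← Real.rpow_natCast,
      ← Real.rpow_mul hX0.le]
    congr 1
    ring
  have e3 : X ^ (δ * j) * X ^ (δ * j ^ 2) ≤ 4 ^ ε * ((A:ℝ) * B) ^ ε := by
    rw [← Real.rpow_add hX0, ← Real.mul_rpow (by norm_num) (by positivity), ← mul_assoc]
    apply Real.rpow_le_rpow_of_exponent_le hX1
    rw [hδ]
    have hj1 : (1:ℝ) ≤ j := by exact_mod_cast hj
    have h6 : ε / (2 * (j:ℝ) ^ 2) * j + ε / (2 * (j:ℝ) ^ 2) * (j:ℝ) ^ 2 =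
        ε / (2 * j) + ε / 2 := by
      field_simp
    rw [h6]
    have h7 : ε / (2 * j) ≤ ε / 2 := by
      apply div_le_div_of_nonneg_left hε.le (by norm_num)
      linarith
    linarith
  have hq0 : (0:ℝ) < q := by exact_mod_cast Nat.pos_of_ne_zero (NeZero.ne q)
  have e4 : ∀ Y : ℝ, (C1 ^ 2 * X ^ δ) ^ j *
      ((Nat.card H * (2 * Y)) * (C1 ^ 2 * (X ^ j) ^ δ) ^ j) =
      2 * C1 ^ (4 * j) * (X ^ (δ * j) * X ^ (δ * j ^ 2)) * Nat.card H * Y := by
    intro Y
    rw [mul_pow (C1 ^ 2) (X ^ δ) j, mul_pow (C1 ^ 2) ((X ^ j) ^ δ) j, e1, e2, ← pow_mul]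
    have : C1 ^ (4 * j) = C1 ^ (2 * j) * C1 ^ (2 * j) := by
      rw [← pow_add]
      congr 1
      ring
    rw [this]
    ring
  rw [e4]
  have h8 : 2 * C1 ^ (4 * j) * (X ^ (δ * j) * X ^ (δ * j ^ 2)) ≤
      2 * C1 ^ (4 * j) * (4 ^ ε * ((A:ℝ) * B) ^ ε) :=
    mul_le_mul_of_nonneg_left e3 (by positivity)
  have h9 : 2 * C1 ^ (4 * j) * (4 ^ ε * ((A:ℝ) * B) ^ ε) =
      2 * C1 ^ (4 * j) * 4 ^ ε * ((A:ℝ) * B) ^ ε := by ring
  rw [h9] at h8
  exact mul_le_mul_of_nonneg_right (mul_le_mul_of_nonneg_right h8 (Nat.cast_nonneg _))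
    (by positivity)

end Pool.Agent.NV
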