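import Pool.Agent.Lib.MP_afd523_nt.Defs
import Pool.Agent.Lib.MP_afd523_nt.Pow

/-!
Large heights: power saving for the number of coprime pairs `(a, b)` in dyadic boxes whose quotient
lies in a small subgroup `H` of `(Z/q)^*`.
-/

namespace Pool.Agent.NV

open Finset Complex MeasureTheory

/-- choice of the exponent -/
theorem big_choose (z κ : ℝ) (hκ : 0 < κ) (hκ1 : κ ≤ 1 / 3) (hz : κ ≤ z) (hz1 : z ≤ 11 / 10) :
    ∃ j : ℕ, 1 ≤ j ∧ (j : ℝ) ≤ 1 / κ ∧ 2 / 3 ≤ (j : ℝ) * z ∧ (j : ℝ) * z ≤ 4 / 3 := by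
  have h3 : (3 : ℝ) ≤ 1 / κ := by
    rw [le_div_iff₀ hκ]; linarith
  rcases le_or_gt z (1 / 3) with h | h
  · have hz0 : 0 < z := lt_of_lt_of_le hκ hz
    have hf := Nat.floor_le (a := 1 / z) (by positivity)
    have hf2 := Nat.lt_floor_add_one (1 / z)
    have e1 : (⌊1 / z⌋₊ : ℝ) * z ≤ 1 := by
      rwa [← le_div_iff₀ hz0]
    have e2 : 1 < ((⌊1 / z⌋₊ : ℝ) + 1) * z := by
      rwa [div_lt_iff₀ hz0] at hf2
    refine ⟨⌊1 / z⌋₊, ?_, ?_, by nlinarith, by linarith⟩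
    · apply Nat.le_floor
      rw [Nat.cast_one, le_div_iff₀ hz0]
      linarith
    · exact hf.trans (one_div_le_one_div_of_le hκ hz)
  · rcases le_or_gt z (2 / 3) with h' | h'
    · exact ⟨2, by norm_num, by push_cast; linarith, by push_cast; linarith,
        by push_cast; linarith⟩
    · exact ⟨1, by norm_num, by push_cast; linarith, by push_cast; linarith,
        by push_cast; linarith⟩

/-- the inequality between exponents -/
theorem big_core (q : ℝ) (hq : 1 < q) (z ε κ h N C1 : ℝ) (j : ℕ) (hj : 1 ≤ j)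
    (hκ : 0 < κ) (hε : 0 < ε) (hjκ : (j : ℝ) ≤ 1 / κ) (hz1 : z ≤ 11 / 10)
    (h1 : 2 / 3 ≤ (j : ℝ) * z) (h2 : (j : ℝ) * z ≤ 4 / 3)
    (hN : 0 ≤ N) (hC : 1 ≤ C1) (hh : h ≤ q ^ (1 / 3 - ε))
    (hpow : N ^ j ≤ C1 * (q ^ z) ^ (ε / 4) * h * ((4 * q ^ z) ^ j / q + 1)) :
    N ≤ 8 * C1 * Real.sqrt (q ^ z) * q ^ (-(ε * κ / 4)) := by
  have hq0 : 0 < q := by linarith
  have hj0 : j ≠ 0 := by omega
  have hj1 : (1 : ℝ) ≤ j := by exact_mod_cast hj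
  have hjk : (j : ℝ) * κ ≤ 1 := by rwa [← le_div_iff₀ hκ]
  set M : ℝ := (j : ℝ) * z / 2 - ε * κ / 4 * j with hM
  have hcj : ε * κ / 4 * j ≤ ε / 4 := by nlinarith
  have e1 : z * (ε / 4) + (1 / 3 - ε) ≤ M := by
    rw [hM]; nlinarith
  have e2 : z * (ε / 4) + (1 / 3 - ε) + ((j : ℝ) * z - 1) ≤ M := by
    rw [hM]; nlinarith
  have hpj : (1 : ℝ) ≤ 4 ^ j := one_le_pow₀ (by norm_num)
  have hqz : (q ^ z) ^ j = q ^ ((j : ℝ) * z) := by
    rw [← Real.rpow_natCast, ← Real.rpow_mul hq0.le, mul_comm]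
  have hf : (4 * q ^ z) ^ j / q + 1 ≤ 4 ^ j * (q ^ ((j : ℝ) * z - 1) + 1) := by
    have : (4 * q ^ z) ^ j / q = 4 ^ j * q ^ ((j : ℝ) * z - 1) := by
      rw [mul_pow, hqz, Real.rpow_sub hq0, Real.rpow_one]; ring
    rw [this]; nlinarith
  have hpos : 0 ≤ q ^ (z * (ε / 4)) := by positivity
  have hfpos : 0 ≤ (4 * q ^ z) ^ j / q + 1 := by positivity
  have hA : (q ^ z) ^ (ε / 4) = q ^ (z * (ε / 4)) := by
    rw [← Real.rpow_mul hq0.le]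
  have hB : C1 * (q ^ z) ^ (ε / 4) * h * ((4 * q ^ z) ^ j / q + 1) ≤
      C1 * (2 * 4 ^ j * q ^ M) := by
    calc C1 * (q ^ z) ^ (ε / 4) * h * ((4 * q ^ z) ^ j / q + 1)
        ≤ C1 * (q ^ z) ^ (ε / 4) * q ^ (1 / 3 - ε) * ((4 * q ^ z) ^ j / q + 1) := by gcongr
      _ ≤ C1 * (q ^ z) ^ (ε / 4) * q ^ (1 / 3 - ε) *
          (4 ^ j * (q ^ ((j : ℝ) * z - 1) + 1)) := by gcongr
      _ = C1 * (4 ^ j * (q ^ (z * (ε / 4) + (1 / 3 - ε) + ((j : ℝ) * z - 1)) +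
          q ^ (z * (ε / 4) + (1 / 3 - ε)))) := by
          rw [hA, Real.rpow_add hq0 (z * (ε / 4) + (1 / 3 - ε)), Real.rpow_add hq0 (z * (ε / 4))]
          ring
      _ ≤ C1 * (4 ^ j * (q ^ M + q ^ M)) := by
          gcongr
          · exact hq.le
          · exact hq.le
      _ = C1 * (2 * 4 ^ j * q ^ M) := by ring
  have hS : (8 * C1 * Real.sqrt (q ^ z) * q ^ (-(ε * κ / 4))) ^ j =
      (8 * C1) ^ j * q ^ M := by
    rw [Real.sqrt_eq_rpow, ← Real.rpow_mul hq0.le, mul_assoc, ← Real.rpow_add hq0, mul_pow]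
    congr 1
    rw [← Real.rpow_natCast, ← Real.rpow_mul hq0.le, hM]
    congr 1
    ring
  have hC8 : C1 * (2 * 4 ^ j) ≤ (8 * C1) ^ j := by
    have a1 : C1 ≤ C1 ^ j := le_self_pow₀ hC hj0
    have a2 : (2 : ℝ) ≤ 2 ^ j := le_self_pow₀ (by norm_num) hj0
    calc C1 * (2 * 4 ^ j) ≤ C1 ^ j * (2 ^ j * 4 ^ j) := by gcongr
      _ = (8 * C1) ^ j := by
        rw [← mul_pow, ← mul_pow]; congr 1; ring
  rw [← pow_le_pow_iff_left₀ hN (by positivity) hj0, hS]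
  refine hpow.trans (hB.trans ?_)
  rw [← mul_assoc]
  gcongr

theorem big (ε : ℝ) (hε : 0 < ε) (κ : ℝ) (hκ : 0 < κ) :
    ∃ c : ℝ, 0 < c ∧ ∃ C : ℝ, ∀ (q : ℕ) [NeZero q] (H : Subgroup (ZMod q)ˣ),
      (Nat.card H : ℝ) ≤ (q : ℝ) ^ (1 / 3 - ε) → ∀ A B : ℕ, 1 ≤ A → 1 ≤ B →
      (q : ℝ) ^ κ ≤ (A : ℝ) * B → (A : ℝ) * B ≤ (q : ℝ) ^ (11 / 10 : ℝ) →
      ((NB H A B).card : ℝ) ≤ C * Real.sqrt ((A : ℝ) * B) * (q : ℝ) ^ (-c) := by
  set κ' : ℝ := min κ (1 / 3) with hκ'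
  have hκ0 : 0 < κ' := lt_min hκ (by norm_num)
  have hκ1 : κ' ≤ 1 / 3 := min_le_right _ _
  have hκ2 : κ' ≤ κ := min_le_left _ _
  have hex : ∀ j : ℕ, ∃ C : ℝ, 1 ≤ C ∧ (1 ≤ j → ∀ (q : ℕ) [NeZero q] (H : Subgroup (ZMod q)ˣ)
      (A B : ℕ), 1 ≤ A → 1 ≤ B → ((NB H A B).card : ℝ) ^ j ≤
        C * ((A : ℝ) * B) ^ (ε / 4) * Nat.card H * ((4 * (A : ℝ) * B) ^ j / q + 1)) := by
    intro j
    by_cases hj : 1 ≤ j
    · obtain ⟨C, hC, h⟩ := pow_count j hj (ε / 4) (by positivity)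
      exact ⟨C, hC, fun _ => h⟩
    · exact ⟨1, le_refl _, fun h => absurd h hj⟩
  choose F hF1 hF2 using hex
  set J : ℕ := ⌊1 / κ'⌋₊ + 1 with hJ
  set C1 : ℝ := ∑ j ∈ Finset.range (J + 1), F j with hC1
  have hFC : ∀ j, j ≤ J → F j ≤ C1 := by
    intro j hj
    exact Finset.single_le_sum (f := F) (fun i _ => le_trans zero_le_one (hF1 i))
      (Finset.mem_range.mpr (by omega))
  have hC1' : 1 ≤ C1 := (hF1 0).trans (hFC 0 (by omega))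
  refine ⟨ε * κ' / 4, by positivity, 8 * C1, ?_⟩
  intro q _ H hH A B hA hB hlo hhi
  have hq1 : 1 ≤ q := Nat.one_le_iff_ne_zero.mpr (NeZero.ne q)
  have hX1 : (1 : ℝ) ≤ (A : ℝ) * B := by
    have : 1 ≤ A * B := Nat.one_le_iff_ne_zero.mpr (by positivity)
    exact_mod_cast this
  rcases Nat.lt_or_ge 1 q with hq | hq
  · have hqR : (1 : ℝ) < q := by exact_mod_cast hq
    have hq0 : (0 : ℝ) < q := by linarith
    set z : ℝ := Real.logb q ((A : ℝ) * B) with hz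
    have hXz : (q : ℝ) ^ z = (A : ℝ) * B :=
      Real.rpow_logb hq0 hqR.ne' (by linarith)
    have hz1 : κ' ≤ z := by
      rw [← hXz, Real.rpow_le_rpow_left_iff hqR] at hlo
      linarith
    have hz2 : z ≤ 11 / 10 := by
      rwa [← hXz, Real.rpow_le_rpow_left_iff hqR] at hhi
    obtain ⟨j, hj, hjκ, h1, h2⟩ := big_choose z κ' hκ0 hκ1 hz1 hz2
    have hjJ : j ≤ J := by
      have : j ≤ ⌊1 / κ'⌋₊ := Nat.le_floor hjκ
      omega
    have hp := hF2 j hj q H A B hA hB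
    have hcoef : F j * ((A : ℝ) * B) ^ (ε / 4) * Nat.card H * ((4 * (A : ℝ) * B) ^ j / q + 1) ≤
        C1 * ((A : ℝ) * B) ^ (ε / 4) * Nat.card H * ((4 * (A : ℝ) * B) ^ j / q + 1) := by
      have := hFC j hjJ
      gcongr
    have hp' := hp.trans hcoef
    rw [show (4 * (A : ℝ) * B) = 4 * ((A : ℝ) * B) by ring, ← hXz] at hp'
    rw [← hXz]
    exact big_core q hqR z ε κ' (Nat.card H) _ C1 j hj hκ0 hε hjκ hz2 h1 h2
      (Nat.cast_nonneg _) hC1' hH hp'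
  · have hq1' : q = 1 := by omega
    subst hq1'
    have hp := hF2 1 le_rfl 1 H A B hA hB
    have hX : (A : ℝ) * B = 1 := by
      apply le_antisymm _ hX1
      simpa using hhi
    have hH1 : (Nat.card H : ℝ) ≤ 1 := by simpa using hH
    rw [show (4 * (A : ℝ) * B) = 4 * ((A : ℝ) * B) by ring, hX] at hp
    rw [hX]
    simp only [pow_one, Real.one_rpow, mul_one, Nat.cast_one, div_one] at hp
    simp only [Real.sqrt_one, mul_one, Nat.cast_one, Real.one_rpow]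
    have hF := hFC 1 (by omega)
    have hFp := hF1 1
    nlinarith
end Pool.Agent.NV
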