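import Mathlib

/-!
Definitions for MP_afd523_nt (non-vanishing of `L(1/2, χ)` in thin cosets, prime modulus `q`).
-/

namespace Pool.Agent.NV

open Finset Complex MeasureTheory

noncomputable section

/-- the `w`-smooth part of `n`: product of the prime powers `p ^ v ∥ n` with `p ≤ w` -/
def sm (w n : ℕ) : ℕ := ∏ p ∈ n.primeFactors.filter (fun p => p ≤ w), p ^ n.factorization p

/-- the `w`-rough part of `n`: product of the prime powers `p ^ v ∥ n` with `w < p` -/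
def ro (w n : ℕ) : ℕ := ∏ p ∈ n.primeFactors.filter (fun p => w < p), p ^ n.factorization p

/-- the bound for small primes, `w = ⌊(log q)^300⌋` -/
def ww (q : ℕ) : ℕ := ⌊(Real.log q) ^ 300⌋₊

/-- the length of each of the two mollifiers, `y = q^(1/100)` -/
def yy (q : ℕ) : ℝ := (q : ℝ) ^ (1 / 100 : ℝ)

/-- `α = 1 / log q` -/
def al (q : ℕ) : ℝ := 1 / Real.log q

/-- `P(m) = max(0, 1 - log m / log y)` -/
def PP (q m : ℕ) : ℝ := max 0 (1 - Real.log m / Real.log (yy q))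

/-- untruncated weight `μ(m) P(rough part of m)` -/
def lamf (q m : ℕ) : ℝ := (ArithmeticFunction.moebius m : ℝ) * PP q (ro (ww q) m)

/-- truncated weight: `μ(m) P(rough part of m)` if the smooth part of `m` is `≤ y`, else `0` -/
def lamq (q m : ℕ) : ℝ := if (sm (ww q) m : ℝ) ≤ yy q then lamf q m else 0

/-- the mollifier -/
def mol (q : ℕ) (χ : DirichletCharacter ℂ q) : ℂ :=
  ∑ m ∈ Icc 1 ⌊yy q ^ 2⌋₊, (lamq q m : ℂ) * χ (m : ZMod q) / (Real.sqrt m : ℂ)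

/-- `a/b` lies in the subgroup `H` modulo `q` -/
def RH {q : ℕ} (H : Subgroup (ZMod q)ˣ) (a b : ℕ) : Prop :=
  ∃ u ∈ H, (a : ZMod q) = (u : ZMod q) * (b : ZMod q)

/-- the coset of characters that agree with `ψ` on `H` -/
def cos {q : ℕ} [NeZero q] (H : Subgroup (ZMod q)ˣ) (ψ : DirichletCharacter ℂ q) :
    Finset (DirichletCharacter ℂ q) := by
  classical
  exact Finset.univ.filter (fun χ => ∀ u ∈ H, χ (u : ZMod q) = ψ (u : ZMod q))

/-- the `N ≤ X` whose class modulo `q` lies in `H` -/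
def HN {q : ℕ} (H : Subgroup (ZMod q)ˣ) (X : ℕ) : Finset ℕ := by
  classical
  exact (Icc 1 X).filter (fun N => RH H N 1)

/-- the pairs `(a, b)`, `a, b ≤ X`, with `a/b` in `H` -/
def HP {q : ℕ} (H : Subgroup (ZMod q)ˣ) (X : ℕ) : Finset (ℕ × ℕ) := by
  classical
  exact ((Icc 1 X) ×ˢ (Icc 1 X)).filter (fun p => RH H p.1 p.2)

/-- the coprime pairs `(a, b)`, `a, b ≤ X`, with `a/b` in `H` -/
def HC {q : ℕ} (H : Subgroup (ZMod q)ˣ) (X : ℕ) : Finset (ℕ × ℕ) := by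
  classical
  exact ((Icc 1 X) ×ˢ (Icc 1 X)).filter (fun p => Nat.Coprime p.1 p.2 ∧ RH H p.1 p.2)

/-- the coprime pairs `(a, b)` with `A ≤ a < 2A`, `B ≤ b < 2B`, `a/b` in `H` -/
def NB {q : ℕ} (H : Subgroup (ZMod q)ˣ) (A B : ℕ) : Finset (ℕ × ℕ) := by
  classical
  exact ((Ico A (2 * A)) ×ˢ (Ico B (2 * B))).filter
    (fun p => Nat.Coprime p.1 p.2 ∧ RH H p.1 p.2)

/-- those pairs of `NB` for which `a` and `b` together have `k` distinct prime factors -/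
def NK {q : ℕ} (H : Subgroup (ZMod q)ˣ) (i l k : ℕ) : Finset (ℕ × ℕ) :=
  (NB H (2 ^ i) (2 ^ l)).filter (fun p => p.1.primeFactors.card + p.2.primeFactors.card = k)

/-- `κ = 10^(-6)` -/
def kap : ℝ := 1 / 10 ^ 6

/-- theta function -/
def theta {q : ℕ} (χ : DirichletCharacter ℂ q) (e : ℕ) (t : ℝ) : ℂ :=
  ∑' n : ℕ, χ (n : ZMod q) * (n : ℂ) ^ e * Complex.exp (-(Real.pi * n ^ 2 * t / q))

/-- `β = 1/4 + e/2` -/
def bet (e : ℕ) : ℝ := 1 / 4 + (e : ℝ) / 2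

/-- the cut-off measure of the approximate functional equation: density
`2 π^β / Γ(β) r^(2β-1) exp(-π r²)` on `r > 0` -/
def nu (e : ℕ) : Measure ℝ :=
  (volume.restrict (Set.Ioi 0)).withDensity (fun r => ENNReal.ofReal
    (2 * Real.pi ^ bet e / Real.Gamma (bet e) * r ^ (2 * bet e - 1) * Real.exp (-Real.pi * r ^ 2)))

/-- `∏_{p ≤ w} (1 - 1/p)` -/
def Wp (q : ℕ) : ℝ := ∏ p ∈ (Icc 1 (ww q)).filter Nat.Prime, (1 - 1 / (p : ℝ))

/-- Fourier transform weight of a smoothing measure -/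
def phi (μ : Measure ℝ) (t : ℝ) : ℂ :=
  1 / (2 * Real.pi) * (∫ v, Complex.exp ((1 + t * Complex.I) * v) ∂μ) / (1 + t * Complex.I)

/-- smooth cut-off on the logarithmic scale: `μ {v : n < r q^v}` -/
def Phi (μ : Measure ℝ) (q : ℕ) (r : ℝ) (n : ℕ) : ℝ :=
  μ.real (Set.Ioi ((Real.log n - Real.log r) / Real.log q))

/-- the smoothed partial sum of `L(1/2, χ)` of length about `r q^(1/2)` -/
def SS (μ : Measure ℝ) (q : ℕ) (r : ℝ) (χ : DirichletCharacter ℂ q) : ℂ :=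
  ∑ n ∈ Icc 1 ⌊r * (q : ℝ) ^ (51 / 100 : ℝ)⌋₊,
    (Phi μ q r n : ℂ) * χ (n : ZMod q) / (Real.sqrt n : ℂ)

/-- coefficient of `χ(N) / √N` in `SS * mol` -/
def CN (μ : Measure ℝ) (q : ℕ) (r : ℝ) (N : ℕ) : ℝ :=
  ∑ m ∈ N.divisors, lamq q m * Phi μ q r (N / m)

/-- the same with the untruncated weights -/
def CF (μ : Measure ℝ) (q : ℕ) (r : ℝ) (N : ℕ) : ℝ :=
  ∑ m ∈ N.divisors, lamf q m * Phi μ q r (N / m)

/-- `s_t = α (1 + i t)` -/
def st (q : ℕ) (t : ℝ) : ℂ := (al q : ℂ) * (1 + t * Complex.I)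

/-- `Λ_t(N) = Σ_{m | N} μ(m) P(m) m^{s_t}` (used for rough `N`) -/
def Lam (q : ℕ) (t : ℝ) (N : ℕ) : ℂ :=
  ∑ m ∈ N.divisors, ((ArithmeticFunction.moebius m : ℝ) : ℂ) * (PP q m : ℂ) * (m : ℂ) ^ st q t

/-- `c_t(N) = ∏_{p | N, p ≤ w} (1 - p^{s_t}) · Λ_t(rough part of N)` -/
def ct (q : ℕ) (t : ℝ) (N : ℕ) : ℂ :=
  (∏ p ∈ N.primeFactors.filter (fun p => p ≤ ww q), (1 - (p : ℂ) ^ st q t)) *
    Lam q t (ro (ww q) N)

/-- `U*_t(a)`, `a` the rough part -/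
def Us (q X : ℕ) (t : ℝ) (a : ℕ) : ℝ :=
  (∏ p ∈ (Icc 1 (ww q)).filter Nat.Prime, (1 + ‖1 - (p : ℂ) ^ st q t‖ ^ 2 / (p - 1))) *
    ∑ g ∈ (Icc 1 X).filter (fun g => ro (ww q) g = g),
      (g : ℝ) ^ (-(1 + 2 * al q)) * ‖Lam q t (a * g)‖ ^ 2

/-- the number `Σ_g |c(a g)|² / g` -/
def DD (μ : Measure ℝ) (q : ℕ) (r : ℝ) (a : ℕ) : ℝ :=
  ∑ g ∈ Icc 1 q, (CN μ q r (a * g)) ^ 2 / g

/-- the final weight -/
def Wt (q : ℕ) (C : ℝ) (a : ℕ) : ℝ :=
  C ^ (a.primeFactors.card + 1) *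
    (((a.primeFactors.filter (fun p => p ≤ ww q)).card.factorial : ℝ)) ^ (21 / 20 : ℝ) *
    (∏ p ∈ a.primeFactors.filter (fun p => p ≤ ww q), (Real.log p / Real.log q)) *
    (if ro (ww q) a = 1 then 1 else (a.divisors.card : ℝ) * (Real.log q) ^ 4)

/-- admissible smoothing measures: symmetric probability measures on `[0.49, 0.51]` without atoms
whose exponential integrals decay like those of a Gevrey function of order `21/20`, up to order
`K` -/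
structure Smooth (μ : Measure ℝ) (C : ℝ) (K : ℕ) : Prop where
  prob : IsProbabilityMeasure μ
  supp : μ (Set.Icc (49 / 100) (51 / 100))ᶜ = 0
  symm : μ.map (fun v => 1 - v) = μ
  atom : ∀ x, μ {x} = 0
  dec : ∀ (k : ℕ) (t : ℝ), k ≤ K →
    |t| ^ k * ‖∫ v, Complex.exp ((1 + t * Complex.I) * v) ∂μ‖ ≤
      C ^ (k + 1) * (k.factorial : ℝ) ^ (21 / 20 : ℝ)

/-- the cut-off measures of the approximate functional equation -/
structure Cut (ν : Measure ℝ) (C : ℝ) : Prop where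
  prob : IsProbabilityMeasure ν
  pos : ν (Set.Iic 0) = 0
  mom : ∀ A : ℕ, Integrable (fun r => r ^ A) ν
  ball : ∀ x : ℝ, 0 < x → x ≤ 1 → ν.real (Set.Iic x) ≤ C * Real.sqrt x

end

end Pool.Agent.NV
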