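import Mathlib
import Pool.Agent.Lib.MP_afd523_nt.Defs
import Pool.Agent.Lib.MP_afd523_nt.Big
import Pool.Agent.Lib.MP_848d44_nt.Div

/-!
# MP_afd523_nt (NV), module BS: sum over the large pairs
-/

namespace Pool.Agent.NV

open Finset Complex MeasureTheory

/-- the number of dyadic boxes -/
theorem BigSum_log {q : ℕ} (hq : 1 ≤ q) (n : ℕ) (hn : 1 ≤ n)
    (h : (n : ℝ) ≤ (q : ℝ) ^ (27 / 25 : ℝ)) : Nat.log 2 n ≤ ⌊2 * Real.log q⌋₊ := by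
  have hq0 : (0 : ℝ) < q := by exact_mod_cast hq
  have hlq : 0 ≤ Real.log q := Real.log_nonneg (by exact_mod_cast hq)
  apply Nat.le_floor
  have h1 : ((2 : ℕ) ^ Nat.log 2 n : ℕ) ≤ n := Nat.pow_log_le_self 2 (by omega)
  have h2 : ((2 : ℝ) ^ Nat.log 2 n) ≤ (q : ℝ) ^ (27 / 25 : ℝ) := by
    refine le_trans ?_ h
    exact_mod_cast h1
  have h3 := Real.log_le_log (by positivity) h2
  rw [Real.log_pow, Real.log_rpow hq0] at h3
  have h4 : (0.6931471803 : ℝ) < Real.log 2 := Real.log_two_gt_d9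
  have h5 : (0 : ℝ) ≤ (Nat.log 2 n : ℝ) := Nat.cast_nonneg _
  nlinarith

theorem BigSum_key (ε : ℝ) (hε : 0 < ε) :
    ∃ c : ℝ, 0 < c ∧ ∃ q₀ : ℕ, ∀ (q : ℕ) [NeZero q] (H : Subgroup (ZMod q)ˣ),
      q₀ ≤ q → (Nat.card H : ℝ) ≤ (q : ℝ) ^ (1 / 3 - ε) → ∀ S : Finset (ℕ × ℕ),
      (∀ p ∈ S, 1 ≤ p.1 ∧ 1 ≤ p.2 ∧ Nat.Coprime p.1 p.2 ∧ RH H p.1 p.2 ∧
        (q : ℝ) ^ kap < (p.1 : ℝ) * p.2 ∧ (p.1 : ℝ) * p.2 ≤ (q : ℝ) ^ (27 / 25 : ℝ)) →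
      ∑ p ∈ S, (p.1.divisors.card : ℝ) * p.2.divisors.card / Real.sqrt ((p.1 : ℝ) * p.2) ≤
        (q : ℝ) ^ (-c) := by
  classical
  have hkap : 0 < kap / 2 := by unfold kap; norm_num
  obtain ⟨c, hc, C, hbig⟩ := big ε hε (kap / 2) hkap
  obtain ⟨C1, hC1, hdiv⟩ := M848.divisor_bound (c / 8) (by positivity)
  set C' : ℝ := max C 1 with hC'
  have hC'1 : 1 ≤ C' := le_max_right _ _
  have hC'C : C ≤ C' := le_max_left _ _
  set s : ℝ := c / 16 with hs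
  have hs0 : 0 < s := by positivity
  set K : ℝ := C' * C1 ^ 2 * (2 / s + 1) ^ 2 with hK
  have hK0 : 0 ≤ K := by positivity
  have ev1 : ∀ᶠ x : ℝ in Filter.atTop, K ≤ x ^ (c / 8) :=
    (tendsto_rpow_atTop (by positivity)).eventually_ge_atTop K
  have ev2 : ∀ᶠ x : ℝ in Filter.atTop, 4 ≤ x ^ (kap / 2) :=
    (tendsto_rpow_atTop hkap).eventually_ge_atTop 4
  have ev3 : ∀ᶠ n : ℕ in Filter.atTop, K ≤ (n : ℝ) ^ (c / 8) ∧ 4 ≤ (n : ℝ) ^ (kap / 2) ∧ 1 ≤ n :=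
    (tendsto_natCast_atTop_atTop.eventually ev1).and
      ((tendsto_natCast_atTop_atTop.eventually ev2).and (Filter.eventually_ge_atTop 1))
  obtain ⟨q₀, hq₀⟩ := Filter.eventually_atTop.mp ev3
  refine ⟨c / 4, by positivity, q₀, ?_⟩
  intro q _ H hq hH S hS
  obtain ⟨hKq, h4q, hq1⟩ := hq₀ q hq
  have hq0 : (0 : ℝ) < q := by exact_mod_cast hq1
  have hq1' : (1 : ℝ) ≤ q := by exact_mod_cast hq1
  have hlq : 0 ≤ Real.log q := Real.log_nonneg hq1'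
  set M : ℕ := ⌊2 * Real.log q⌋₊ with hM
  set E : ℝ := C' * C1 ^ 2 * ((q : ℝ) ^ (-c) * ((q : ℝ) ^ (27 / 25 : ℝ)) ^ (c / 8)) with hE
  have hE0 : 0 ≤ E := by positivity
  have hmaps : ∀ p ∈ S, (fun p : ℕ × ℕ => (Nat.log 2 p.1, Nat.log 2 p.2)) p ∈
      (range (M + 1)) ×ˢ (range (M + 1)) := by
    intro p hp
    obtain ⟨h1, h2, -, -, -, h3⟩ := hS p hp
    have g1 : (1 : ℝ) ≤ p.1 := by exact_mod_cast h1
    have g2 : (1 : ℝ) ≤ p.2 := by exact_mod_cast h2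
    rw [mem_product, mem_range, mem_range]
    constructor
    · exact Nat.lt_succ_of_le (BigSum_log hq1 _ h1 (by nlinarith))
    · exact Nat.lt_succ_of_le (BigSum_log hq1 _ h2 (by nlinarith))
  rw [← Finset.sum_fiberwise_of_maps_to hmaps]
  have hbox : ∀ b ∈ (range (M + 1)) ×ˢ (range (M + 1)),
      ∑ p ∈ S.filter (fun p : ℕ × ℕ => (Nat.log 2 p.1, Nat.log 2 p.2) = b),
        (p.1.divisors.card : ℝ) * p.2.divisors.card / Real.sqrt ((p.1 : ℝ) * p.2) ≤ E := by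
    rintro ⟨i, l⟩ -
    rcases (S.filter (fun p : ℕ × ℕ => (Nat.log 2 p.1, Nat.log 2 p.2) = (i, l))).eq_empty_or_nonempty
      with hemp | ⟨p0, hp0⟩
    · rw [hemp, sum_empty]
      exact hE0
    -- position of the members of the box
    have hpos : ∀ p ∈ S.filter (fun p : ℕ × ℕ => (Nat.log 2 p.1, Nat.log 2 p.2) = (i, l)),
        2 ^ i ≤ p.1 ∧ p.1 < 2 * 2 ^ i ∧ 2 ^ l ≤ p.2 ∧ p.2 < 2 * 2 ^ l := by
      intro p hp
      rw [mem_filter] at hp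
      obtain ⟨hpS, hpe⟩ := hp
      obtain ⟨h1, h2, -, -, -, -⟩ := hS p hpS
      have e1 : Nat.log 2 p.1 = i := congrArg Prod.fst hpe
      have e2 : Nat.log 2 p.2 = l := congrArg Prod.snd hpe
      refine ⟨?_, ?_, ?_, ?_⟩
      · rw [← e1]
        exact Nat.pow_log_le_self 2 (by omega)
      · rw [← e1, ← pow_succ']
        exact Nat.lt_pow_succ_log_self (by norm_num) _
      · rw [← e2]
        exact Nat.pow_log_le_self 2 (by omega)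
      · rw [← e2, ← pow_succ']
        exact Nat.lt_pow_succ_log_self (by norm_num) _
    have hsub : S.filter (fun p : ℕ × ℕ => (Nat.log 2 p.1, Nat.log 2 p.2) = (i, l)) ⊆
        NB H (2 ^ i) (2 ^ l) := by
      intro p hp
      obtain ⟨k1, k2, k3, k4⟩ := hpos p hp
      obtain ⟨-, -, h3, h4, -, -⟩ := hS p (mem_filter.mp hp).1
      unfold NB
      rw [mem_filter, mem_product, mem_Ico, mem_Ico]
      exact ⟨⟨⟨k1, k2⟩, ⟨k3, k4⟩⟩, h3, h4⟩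
    have hAB0 : (0 : ℝ) < ((2 ^ i : ℕ) : ℝ) * ((2 ^ l : ℕ) : ℝ) := by positivity
    have hlo : (q : ℝ) ^ (kap / 2) ≤ ((2 ^ i : ℕ) : ℝ) * ((2 ^ l : ℕ) : ℝ) := by
      obtain ⟨k1, k2, k3, k4⟩ := hpos p0 hp0
      obtain ⟨-, -, -, -, h5, -⟩ := hS p0 (mem_filter.mp hp0).1
      have g1 : (p0.1 : ℝ) ≤ 2 * ((2 ^ i : ℕ) : ℝ) := by exact_mod_cast k2.le
      have g2 : (p0.2 : ℝ) ≤ 2 * ((2 ^ l : ℕ) : ℝ) := by exact_mod_cast k4.le
      have g3 : (p0.1 : ℝ) * p0.2 ≤ (2 * ((2 ^ i : ℕ) : ℝ)) * (2 * ((2 ^ l : ℕ) : ℝ)) :=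
        mul_le_mul g1 g2 (Nat.cast_nonneg _) (by positivity)
      have g4 : (q : ℝ) ^ kap = (q : ℝ) ^ (kap / 2) * (q : ℝ) ^ (kap / 2) := by
        rw [← Real.rpow_add hq0]
        congr 1
        ring
      have g5 : 0 < (q : ℝ) ^ (kap / 2) := by positivity
      nlinarith
    have hhi : ((2 ^ i : ℕ) : ℝ) * ((2 ^ l : ℕ) : ℝ) ≤ (q : ℝ) ^ (11 / 10 : ℝ) := by
      obtain ⟨k1, k2, k3, k4⟩ := hpos p0 hp0
      obtain ⟨-, -, -, -, -, h6⟩ := hS p0 (mem_filter.mp hp0).1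
      have g1 : ((2 ^ i : ℕ) : ℝ) ≤ (p0.1 : ℝ) := by exact_mod_cast k1
      have g2 : ((2 ^ l : ℕ) : ℝ) ≤ (p0.2 : ℝ) := by exact_mod_cast k3
      have g3 : ((2 ^ i : ℕ) : ℝ) * ((2 ^ l : ℕ) : ℝ) ≤ (p0.1 : ℝ) * p0.2 :=
        mul_le_mul g1 g2 (Nat.cast_nonneg _) (Nat.cast_nonneg _)
      refine g3.trans (h6.trans ?_)
      exact Real.rpow_le_rpow_of_exponent_le hq1' (by norm_num)
    have hcard : ((NB H (2 ^ i) (2 ^ l)).card : ℝ) ≤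
        C' * Real.sqrt (((2 ^ i : ℕ) : ℝ) * ((2 ^ l : ℕ) : ℝ)) * (q : ℝ) ^ (-c) := by
      refine (hbig q H hH (2 ^ i) (2 ^ l) Nat.one_le_two_pow Nat.one_le_two_pow hlo hhi).trans ?_
      gcongr
    set A : ℝ := Real.sqrt (((2 ^ i : ℕ) : ℝ) * ((2 ^ l : ℕ) : ℝ)) with hA
    have hA0 : 0 < A := Real.sqrt_pos.mpr hAB0
    have hterm : ∀ p ∈ S.filter (fun p : ℕ × ℕ => (Nat.log 2 p.1, Nat.log 2 p.2) = (i, l)),
        (p.1.divisors.card : ℝ) * p.2.divisors.card / Real.sqrt ((p.1 : ℝ) * p.2) ≤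
          C1 ^ 2 * ((q : ℝ) ^ (27 / 25 : ℝ)) ^ (c / 8) / A := by
      intro p hp
      obtain ⟨k1, k2, k3, k4⟩ := hpos p hp
      obtain ⟨h1, h2, -, -, -, h6⟩ := hS p (mem_filter.mp hp).1
      have g1 : ((2 ^ i : ℕ) : ℝ) ≤ (p.1 : ℝ) := by exact_mod_cast k1
      have g2 : ((2 ^ l : ℕ) : ℝ) ≤ (p.2 : ℝ) := by exact_mod_cast k3
      have g3 : A ≤ Real.sqrt ((p.1 : ℝ) * p.2) :=
        Real.sqrt_le_sqrt (mul_le_mul g1 g2 (Nat.cast_nonneg _) (Nat.cast_nonneg _))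
      have g4 : (p.1.divisors.card : ℝ) * p.2.divisors.card ≤
          C1 ^ 2 * ((q : ℝ) ^ (27 / 25 : ℝ)) ^ (c / 8) := by
        have m1 := hdiv p.1 h1
        have m2 := hdiv p.2 h2
        have m3 : (p.1.divisors.card : ℝ) * p.2.divisors.card ≤
            (C1 * (p.1 : ℝ) ^ (c / 8)) * (C1 * (p.2 : ℝ) ^ (c / 8)) :=
          mul_le_mul m1 m2 (Nat.cast_nonneg _) (by positivity)
        have m4 : (C1 * (p.1 : ℝ) ^ (c / 8)) * (C1 * (p.2 : ℝ) ^ (c / 8)) =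
            C1 ^ 2 * ((p.1 : ℝ) * p.2) ^ (c / 8) := by
          rw [Real.mul_rpow (Nat.cast_nonneg _) (Nat.cast_nonneg _)]
          ring
        rw [m4] at m3
        refine m3.trans ?_
        gcongr
      exact div_le_div₀ (by positivity) g4 hA0 g3
    calc ∑ p ∈ S.filter (fun p : ℕ × ℕ => (Nat.log 2 p.1, Nat.log 2 p.2) = (i, l)),
          (p.1.divisors.card : ℝ) * p.2.divisors.card / Real.sqrt ((p.1 : ℝ) * p.2)
        ≤ ∑ _p ∈ S.filter (fun p : ℕ × ℕ => (Nat.log 2 p.1, Nat.log 2 p.2) = (i, l)),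
          C1 ^ 2 * ((q : ℝ) ^ (27 / 25 : ℝ)) ^ (c / 8) / A := sum_le_sum hterm
      _ = ((S.filter (fun p : ℕ × ℕ => (Nat.log 2 p.1, Nat.log 2 p.2) = (i, l))).card : ℝ) *
          (C1 ^ 2 * ((q : ℝ) ^ (27 / 25 : ℝ)) ^ (c / 8) / A) := by
          rw [sum_const, nsmul_eq_mul]
      _ ≤ (C' * A * (q : ℝ) ^ (-c)) * (C1 ^ 2 * ((q : ℝ) ^ (27 / 25 : ℝ)) ^ (c / 8) / A) := by
          refine mul_le_mul_of_nonneg_right ?_ (by positivity)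
          refine le_trans ?_ hcard
          exact_mod_cast card_le_card hsub
      _ = E := by
          rw [hE]
          field_simp
  refine (sum_le_sum hbox).trans ?_
  rw [sum_const, nsmul_eq_mul, card_product, card_range]
  push_cast
  have hM1 : (M : ℝ) + 1 ≤ (2 / s + 1) * (q : ℝ) ^ s := by
    have m1 : (M : ℝ) ≤ 2 * Real.log q := Nat.floor_le (by positivity)
    have m2 : Real.log q ≤ (q : ℝ) ^ s / s := Real.log_le_rpow_div hq0.le hs0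
    have m3 : (1 : ℝ) ≤ (q : ℝ) ^ s := Real.one_le_rpow hq1' hs0.le
    have m4 : (2 / s + 1) * (q : ℝ) ^ s = 2 * ((q : ℝ) ^ s / s) + (q : ℝ) ^ s := by
      field_simp
    rw [m4]
    linarith
  have hM0 : (0 : ℝ) ≤ (M : ℝ) + 1 := by positivity
  have hM2 : ((M : ℝ) + 1) * ((M : ℝ) + 1) ≤ (2 / s + 1) ^ 2 * (q : ℝ) ^ (c / 8) := by
    have m1 := mul_le_mul hM1 hM1 hM0 (hM0.trans hM1)
    have m2 : (2 / s + 1) * (q : ℝ) ^ s * ((2 / s + 1) * (q : ℝ) ^ s) =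
        (2 / s + 1) ^ 2 * ((q : ℝ) ^ s * (q : ℝ) ^ s) := by ring
    have m3 : (q : ℝ) ^ s * (q : ℝ) ^ s = (q : ℝ) ^ (c / 8) := by
      rw [← Real.rpow_add hq0]
      congr 1
      rw [hs]
      ring
    rw [m2, m3] at m1
    exact m1
  have hfin : (2 / s + 1) ^ 2 * (q : ℝ) ^ (c / 8) * E =
      K * ((q : ℝ) ^ (c / 8) * ((q : ℝ) ^ (-c) * ((q : ℝ) ^ (27 / 25 : ℝ)) ^ (c / 8))) := by
    rw [hE, hK]
    ring
  calc ((M : ℝ) + 1) * ((M : ℝ) + 1) * E ≤ (2 / s + 1) ^ 2 * (q : ℝ) ^ (c / 8) * E :=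
        mul_le_mul_of_nonneg_right hM2 hE0
    _ = K * ((q : ℝ) ^ (c / 8) * ((q : ℝ) ^ (-c) * ((q : ℝ) ^ (27 / 25 : ℝ)) ^ (c / 8))) := hfin
    _ ≤ (q : ℝ) ^ (c / 8) *
        ((q : ℝ) ^ (c / 8) * ((q : ℝ) ^ (-c) * ((q : ℝ) ^ (27 / 25 : ℝ)) ^ (c / 8))) :=
        mul_le_mul_of_nonneg_right hKq (by positivity)
    _ = (q : ℝ) ^ (c / 8 + (c / 8 + (-c + 27 / 25 * (c / 8)))) := by
        rw [Real.rpow_add hq0, Real.rpow_add hq0, Real.rpow_add hq0, Real.rpow_mul hq0.le]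
    _ ≤ (q : ℝ) ^ (-(c / 4)) :=
        Real.rpow_le_rpow_of_exponent_le hq1' (by linarith)

theorem big_sum (ε : ℝ) (hε : 0 < ε) :
    ∃ c : ℝ, 0 < c ∧ ∃ q₀ : ℕ, ∀ (q : ℕ) [NeZero q] (H : Subgroup (ZMod q)ˣ),
      q₀ ≤ q → (Nat.card H : ℝ) ≤ (q : ℝ) ^ (1 / 3 - ε) →
      (∀ X : ℕ, (X : ℝ) ≤ (q : ℝ) ^ (54 / 100 : ℝ) →
        ∑ p ∈ (HC H X).filter (fun p => (q : ℝ) ^ kap < (p.1 : ℝ) * p.2),
          (p.1.divisors.card : ℝ) * p.2.divisors.card / Real.sqrt ((p.1 : ℝ) * p.2) ≤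
            (q : ℝ) ^ (-c)) ∧
      (∀ X : ℕ, (X : ℝ) ≤ (q : ℝ) ^ (105 / 100 : ℝ) →
        ∑ N ∈ (HN H X).filter (fun N : ℕ => (q : ℝ) ^ kap < (N : ℝ)),
          (N.divisors.card : ℝ) / Real.sqrt N ≤ (q : ℝ) ^ (-c)) := by
  classical
  obtain ⟨c, hc, q₀, hkey⟩ := BigSum_key ε hε
  refine ⟨c, hc, q₀, ?_⟩
  intro q _ H hq hH
  have hq1 : 1 ≤ q := Nat.one_le_iff_ne_zero.mpr (NeZero.ne q)
  have hq0 : (0 : ℝ) < q := by exact_mod_cast hq1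
  have hq1' : (1 : ℝ) ≤ q := by exact_mod_cast hq1
  constructor
  · intro X hX
    refine hkey q H hq hH _ ?_
    intro p hp
    rw [mem_filter] at hp
    obtain ⟨hp1, hp2⟩ := hp
    unfold HC at hp1
    rw [mem_filter, mem_product, mem_Icc, mem_Icc] at hp1
    obtain ⟨⟨⟨h1, h2⟩, ⟨h3, h4⟩⟩, h5, h6⟩ := hp1
    refine ⟨h1, h3, h5, h6, hp2, ?_⟩
    have g1 : (p.1 : ℝ) ≤ (q : ℝ) ^ (54 / 100 : ℝ) := le_trans (by exact_mod_cast h2) hX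
    have g2 : (p.2 : ℝ) ≤ (q : ℝ) ^ (54 / 100 : ℝ) := le_trans (by exact_mod_cast h4) hX
    refine (mul_le_mul g1 g2 (Nat.cast_nonneg _) (by positivity)).trans ?_
    rw [← Real.rpow_add hq0]
    exact Real.rpow_le_rpow_of_exponent_le hq1' (by norm_num)
  · intro X hX
    have hinj : Function.Injective (fun N : ℕ => ((N, 1) : ℕ × ℕ)) :=
      fun a b hab => congrArg Prod.fst hab
    have h := hkey q H hq hH
      (((HN H X).filter (fun N : ℕ => (q : ℝ) ^ kap < (N : ℝ))).image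
        (fun N : ℕ => ((N, 1) : ℕ × ℕ))) ?_
    · rw [sum_image hinj.injOn] at h
      simpa using h
    · intro p hp
      rw [mem_image] at hp
      obtain ⟨N, hN, rfl⟩ := hp
      rw [mem_filter] at hN
      obtain ⟨hN1, hN2⟩ := hN
      unfold HN at hN1
      rw [mem_filter, mem_Icc] at hN1
      obtain ⟨⟨h1, h2⟩, h3⟩ := hN1
      simp only [Nat.cast_one, mul_one]
      refine ⟨h1, le_rfl, Nat.coprime_one_right N, h3, hN2, ?_⟩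
      have g1 : (N : ℝ) ≤ (q : ℝ) ^ (105 / 100 : ℝ) := le_trans (by exact_mod_cast h2) hX
      refine g1.trans ?_
      exact Real.rpow_le_rpow_of_exponent_le hq1' (by norm_num)

end Pool.Agent.NV
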