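import Mathlib
import Pool.Agent.Lib.MP_afd523_nt.Defs

/-!
# MP_afd523_nt, project NV, module CO: sparsity of rationals of small height in `H`
-/

set_option autoImplicit false

namespace Pool.Agent.NV

open Finset Complex MeasureTheory

namespace Cnt

/-- number of prime factors with multiplicity -/
def Om (m : ℕ) : ℕ := ∑ p ∈ m.primeFactors, m.factorization p

lemma two_pow_Om {m : ℕ} (hm : m ≠ 0) : 2 ^ Om m ≤ m := by
  unfold Om
  rw [← Finset.prod_pow_eq_pow_sum]
  calc ∏ p ∈ m.primeFactors, 2 ^ m.factorization p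
      ≤ ∏ p ∈ m.primeFactors, p ^ m.factorization p :=
        Finset.prod_le_prod' fun p hp => Nat.pow_le_pow_left (Nat.prime_of_mem_primeFactors hp).two_le _
    _ = m := by
        have := Nat.prod_factorization_pow_eq_self hm
        rw [Finsupp.prod, Nat.support_factorization] at this
        exact this

/-- the exponents minus one, with a slack variable at `0` -/
noncomputable def ex (L m : ℕ) : ℕ →₀ ℕ :=
  Finsupp.onFinset (insert 0 m.primeFactors)
    (fun p => if p = 0 then L - 1 - Om m else m.factorization p - 1) (by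
      intro p hp
      by_cases h0 : p = 0
      · simp [h0]
      · rw [if_neg h0] at hp
        refine mem_insert_of_mem ?_
        rw [← Nat.support_factorization, Finsupp.mem_support_iff]
        intro h
        rw [h] at hp
        simp at hp)

lemma ex_apply (L m p : ℕ) :
    ex L m p = if p = 0 then L - 1 - Om m else m.factorization p - 1 := rfl

lemma Om_ge (m : ℕ) : m.primeFactors.card ≤ Om m := by
  unfold Om
  rw [Finset.card_eq_sum_ones]
  refine Finset.sum_le_sum fun p hp => ?_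
  rw [← Nat.support_factorization, Finsupp.mem_support_iff] at hp
  omega

/-- the number of `m < 2 ^ L` with a given set of prime factors -/
lemma count_exact (D : Finset ℕ) (L : ℕ) :
    ((Finset.range (2 ^ L)).filter (fun m => m ≠ 0 ∧ m.primeFactors = D)).card ≤
      L.choose D.card := by
  by_cases hne : ((Finset.range (2 ^ L)).filter (fun m => m ≠ 0 ∧ m.primeFactors = D)) = ∅
  · rw [hne]; simp
  obtain ⟨m0, hm0⟩ := Finset.nonempty_iff_ne_empty.2 hne
  simp only [mem_filter, mem_range] at hm0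
  have hlt : ∀ m : ℕ, m ≠ 0 → m < 2 ^ L → Om m < L := by
    intro m h1 h2
    exact (Nat.pow_lt_pow_iff_right (by norm_num : 1 < 2)).1 (lt_of_le_of_lt (two_pow_Om h1) h2)
  have hL1 : 1 ≤ L := by have := hlt m0 hm0.2.1 hm0.1; omega
  have h0D : 0 ∉ D := by
    rw [← hm0.2.2]
    intro h
    exact (Nat.prime_of_mem_primeFactors h).ne_zero rfl
  have hkL : D.card + 1 ≤ L := by
    have h1 := hlt m0 hm0.2.1 hm0.1
    have h2 := Om_ge m0
    rw [hm0.2.2] at h2
    omega
  have hcard : ((insert 0 D).finsuppAntidiag (L - 1 - D.card) : Finset (ℕ →₀ ℕ)).card =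
      (L - 1).choose D.card := by
    rw [Finset.card_finsuppAntidiag_nat_eq_choose, Finset.card_insert_of_notMem h0D]
    have e1 : D.card + 1 + (L - 1 - D.card) - 1 = L - 1 := by omega
    rw [e1]
    exact Nat.choose_symm_of_eq_add (by omega)
  refine le_trans ?_ (hcard.le.trans (Nat.choose_le_choose _ (by omega)))
  refine Finset.card_le_card_of_injOn (ex L) ?_ ?_
  · intro m hm
    simp only [coe_filter, mem_range, Set.mem_ofPred_eq] at hm
    obtain ⟨h1, h2, h3⟩ := hm
    rw [mem_coe, mem_finsuppAntidiag]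
    constructor
    · rw [Finset.sum_insert h0D]
      rw [ex_apply, if_pos rfl]
      have e2 : ∑ p ∈ D, ex L m p = Om m - D.card := by
        unfold Om
        rw [h3]
        rw [eq_comm, Nat.sub_eq_iff_eq_add, Finset.card_eq_sum_ones, ← Finset.sum_add_distrib]
        · refine Finset.sum_congr rfl fun p hp => ?_
          rw [ex_apply, if_neg (fun h : p = 0 => h0D (h ▸ hp))]
          rw [← h3, ← Nat.support_factorization, Finsupp.mem_support_iff] at hp
          omega
        · have := Om_ge m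
          unfold Om at this
          rwa [h3] at this
      rw [e2]
      have := Om_ge m
      rw [h3] at this
      have := hlt m h2 h1
      omega
    · rw [← h3]
      exact Finsupp.support_onFinset_subset
  · intro m hm m' hm' he
    simp only [coe_filter, mem_range, Set.mem_ofPred_eq] at hm hm'
    obtain ⟨h1, h2, h3⟩ := hm
    obtain ⟨h1', h2', h3'⟩ := hm'
    refine Nat.eq_of_factorization_eq h2 h2' fun p => ?_
    by_cases hp : p ∈ D
    · have h4 := DFunLike.congr_fun he p
      rw [ex_apply, ex_apply, if_neg (fun h : p = 0 => h0D (h ▸ hp)), if_neg (fun h : p = 0 => h0D (h ▸ hp))] at h4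
      have h5 : m.factorization p ≠ 0 := by
        rw [← Finsupp.mem_support_iff, Nat.support_factorization, h3]; exact hp
      have h6 : m'.factorization p ≠ 0 := by
        rw [← Finsupp.mem_support_iff, Nat.support_factorization, h3']; exact hp
      omega
    · have h5 : m.factorization p = 0 := by
        rw [← Finsupp.notMem_support_iff, Nat.support_factorization, h3]; exact hp
      have h6 : m'.factorization p = 0 := by
        rw [← Finsupp.notMem_support_iff, Nat.support_factorization, h3']; exact hp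
      rw [h5, h6]

/-- the number of `m < 2 ^ L` with `k` prime factors, all in `T` -/
lemma count_sub (T : Finset ℕ) (L k : ℕ) :
    ((Finset.range (2 ^ L)).filter
      (fun m => m ≠ 0 ∧ m.primeFactors ⊆ T ∧ m.primeFactors.card = k)).card ≤
      L.choose k * T.card.choose k := by
  classical
  set A := (Finset.range (2 ^ L)).filter
      (fun m => m ≠ 0 ∧ m.primeFactors ⊆ T ∧ m.primeFactors.card = k) with hA
  refine (Finset.card_le_mul_card_image (f := Nat.primeFactors) A (L.choose k) ?_).trans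
    (Nat.mul_le_mul_left _ ?_)
  · intro D hD
    obtain ⟨m, hm, rfl⟩ := mem_image.1 hD
    obtain ⟨-, -, -, hk⟩ := mem_filter.1 hm
    have h1 := count_exact m.primeFactors L
    rw [hk] at h1
    refine le_trans (Finset.card_le_card ?_) h1
    intro x hx
    rw [mem_filter, hA, mem_filter] at hx
    rw [mem_filter]
    exact ⟨hx.1.1, hx.1.2.1, hx.2⟩
  · rw [← Finset.card_powersetCard]
    refine Finset.card_le_card ?_
    intro D hD
    obtain ⟨m, hm, rfl⟩ := mem_image.1 hD
    obtain ⟨-, -, h3, hk⟩ := mem_filter.1 hm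
    exact mem_powersetCard.2 ⟨h3, hk⟩

/-- the properties of the pairs which are counted -/
structure Pr (S : Finset ℕ) (i l k : ℕ) (p : ℕ × ℕ) : Prop where
  a0 : p.1 ≠ 0
  b0 : p.2 ≠ 0
  a1 : p.1 < 2 ^ (i + 1)
  b1 : p.2 < 2 ^ (l + 1)
  aS : p.1.primeFactors ⊆ S
  bS : Disjoint p.2.primeFactors S
  card : p.1.primeFactors.card + p.2.primeFactors.card = k

lemma cop {S : Finset ℕ} {a b : ℕ} (ha : a ≠ 0) (hb : b ≠ 0) (h1 : a.primeFactors ⊆ S)
    (h2 : Disjoint b.primeFactors S) : Nat.Coprime a b := by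
  rw [← Nat.disjoint_primeFactors ha hb]
  exact (h2.mono_right h1).symm

lemma sep {S : Finset ℕ} {a b a' b' : ℕ} (ha : a ≠ 0) (hb : b ≠ 0) (ha' : a' ≠ 0) (hb' : b' ≠ 0)
    (h1 : a.primeFactors ⊆ S) (h2 : Disjoint b.primeFactors S) (h1' : a'.primeFactors ⊆ S)
    (h2' : Disjoint b'.primeFactors S) (h : a * b = a' * b') : a = a' ∧ b = b' := by
  have c1 := cop ha hb' h1 h2'
  have c2 := cop ha' hb h1' h2
  have d1 : a ∣ a' := c1.dvd_of_dvd_mul_right (h ▸ Dvd.intro _ rfl)
  have d2 : a' ∣ a := c2.dvd_of_dvd_mul_right (h ▸ Dvd.intro _ rfl)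
  have e := Nat.dvd_antisymm d1 d2
  refine ⟨e, ?_⟩
  subst e
  exact Nat.eq_of_mul_eq_mul_left (Nat.pos_of_ne_zero ha) h

/-- the pairs with prime factors in a given set -/
lemma count_pairs (S T : Finset ℕ) (i l k : ℕ) (M : Finset (ℕ × ℕ))
    (hM : ∀ p ∈ M, Pr S i l k p) :
    (M.filter (fun p => p.1.primeFactors ∪ p.2.primeFactors ⊆ T)).card ≤
      (i + l + 2).choose k * T.card.choose k := by
  refine le_trans ?_ (count_sub T (i + l + 2) k)
  refine Finset.card_le_card_of_injOn (fun p => p.1 * p.2) ?_ ?_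
  · intro p hp
    obtain ⟨hp1, hp2⟩ := mem_filter.1 (mem_coe.1 hp)
    have h := hM p hp1
    rw [mem_coe, mem_filter, mem_range]
    refine ⟨?_, Nat.mul_ne_zero h.a0 h.b0, ?_, ?_⟩
    · have e : 2 ^ (i + l + 2) = 2 ^ (i + 1) * 2 ^ (l + 1) := by rw [← pow_add]; congr 1; omega
      rw [e]
      exact Nat.mul_lt_mul'' h.a1 h.b1
    · rw [Nat.primeFactors_mul h.a0 h.b0]
      exact hp2
    · rw [Nat.primeFactors_mul h.a0 h.b0, Finset.card_union_of_disjoint, h.card]
      exact (h.bS.mono_right h.aS).symm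
  · intro p hp p' hp' he
    have h := hM p (mem_filter.1 (mem_coe.1 hp)).1
    have h' := hM p' (mem_filter.1 (mem_coe.1 hp')).1
    obtain ⟨e1, e2⟩ := sep h.a0 h.b0 h'.a0 h'.b0 h.aS h.bS h'.aS h'.bS he
    exact Prod.ext e1 e2

lemma pf_prod {j : ℕ} (f : Fin j → ℕ) (hf : ∀ n, f n ≠ 0) :
    (∏ n, f n).primeFactors = univ.biUnion (fun n => (f n).primeFactors) := by
  ext p
  rw [Nat.mem_primeFactors, mem_biUnion]
  constructor
  · rintro ⟨hp, hd, -⟩
    obtain ⟨n, -, hn⟩ := (hp.prime.dvd_finsetProd_iff _).1 hd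
    exact ⟨n, mem_univ n, Nat.mem_primeFactors.2 ⟨hp, hn, hf n⟩⟩
  · rintro ⟨n, -, hn⟩
    obtain ⟨hp, hd, -⟩ := Nat.mem_primeFactors.1 hn
    exact ⟨hp, hd.trans (Finset.dvd_prod_of_mem _ (mem_univ n)),
      Finset.prod_ne_zero_iff.2 fun n _ => hf n⟩

lemma prod_lt {j i : ℕ} (hj : 1 ≤ j) (f : Fin j → ℕ) (hf : ∀ n, f n < 2 ^ (i + 1)) :
    ∏ n, f n < 2 ^ ((i + 1) * j) := by
  have h1 : ∏ n, f n ≤ (2 ^ (i + 1) - 1) ^ j := by
    have := Finset.prod_le_pow_card (univ : Finset (Fin j)) f (2 ^ (i + 1) - 1)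
      (fun n _ => Nat.le_sub_one_of_lt (hf n))
    rwa [card_univ, Fintype.card_fin] at this
  refine lt_of_le_of_lt h1 ?_
  rw [pow_mul]
  refine Nat.pow_lt_pow_left ?_ (by omega)
  have : 0 < 2 ^ (i + 1) := by positivity
  omega

/-- the power trick -/
lemma power {q : ℕ} [NeZero q] (hq : q.Prime) (H : Subgroup (ZMod q)ˣ) (S : Finset ℕ)
    (i l k j : ℕ) (hj : 1 ≤ j) (h : 2 ^ ((i + l + 2) * j) ≤ q) (M : Finset (ℕ × ℕ))
    (hM : ∀ p ∈ M, Pr S i l k p) (hR : ∀ p ∈ M, RH H p.1 p.2) :
    M.card ^ j ≤ ((i + l + 2).choose k * (j * k).choose k) ^ j * Nat.card H := by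
  classical
  have : Fact q.Prime := ⟨hq⟩
  set X : Finset (Fin j → ℕ × ℕ) := Fintype.piFinset (fun _ : Fin j => M) with hX
  set F : (Fin j → ℕ × ℕ) → ℕ × ℕ := fun t => (∏ n, (t n).1, ∏ n, (t n).2) with hF
  have hcard : X.card = M.card ^ j := by
    rw [hX, Fintype.card_piFinset_const]
  rw [← hcard]
  have hmem : ∀ t ∈ X, ∀ n, t n ∈ M := fun t ht n => Fintype.mem_piFinset.1 ht n
  refine (Finset.card_le_mul_card_image (f := F) X
    (((i + l + 2).choose k * (j * k).choose k) ^ j) ?_).trans (Nat.mul_le_mul_left _ ?_)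
  · intro v hv
    obtain ⟨t0, ht0, rfl⟩ := mem_image.1 hv
    set T := (F t0).1.primeFactors ∪ (F t0).2.primeFactors with hT
    have hTcard : T.card ≤ j * k := by
      have e : T = univ.biUnion (fun n => (t0 n).1.primeFactors ∪ (t0 n).2.primeFactors) := by
        rw [hT]
        simp only [hF]
        rw [pf_prod _ (fun n => (hM _ (hmem t0 ht0 n)).a0),
          pf_prod _ (fun n => (hM _ (hmem t0 ht0 n)).b0)]
        ext p
        simp only [mem_union, mem_biUnion, mem_univ, true_and]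
        constructor
        · rintro (⟨n, hn⟩ | ⟨n, hn⟩)
          · exact ⟨n, Or.inl hn⟩
          · exact ⟨n, Or.inr hn⟩
        · rintro ⟨n, hn | hn⟩
          · exact Or.inl ⟨n, hn⟩
          · exact Or.inr ⟨n, hn⟩
      rw [e]
      refine (Finset.card_biUnion_le).trans ?_
      refine (Finset.sum_le_card_nsmul _ _ k fun n _ => ?_).trans ?_
      · exact (Finset.card_union_le _ _).trans (hM _ (hmem t0 ht0 n)).card.le
      · rw [card_univ, Fintype.card_fin, smul_eq_mul]
    have hsub : X.filter (fun t => F t = F t0) ⊆ Fintype.piFinset (fun _ : Fin j =>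
        M.filter (fun p => p.1.primeFactors ∪ p.2.primeFactors ⊆ T)) := by
      intro t ht
      obtain ⟨ht1, ht2⟩ := mem_filter.1 ht
      refine Fintype.mem_piFinset.2 fun n => mem_filter.2 ⟨hmem t ht1 n, ?_⟩
      rw [hT, ← ht2]
      simp only [hF]
      rw [pf_prod _ (fun n => (hM _ (hmem t ht1 n)).a0),
          pf_prod _ (fun n => (hM _ (hmem t ht1 n)).b0)]
      refine Finset.union_subset_union ?_ ?_
      · exact Finset.subset_biUnion_of_mem (fun n => (t n).1.primeFactors) (mem_univ n)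
      · exact Finset.subset_biUnion_of_mem (fun n => (t n).2.primeFactors) (mem_univ n)
    refine (Finset.card_le_card hsub).trans ?_
    rw [Fintype.card_piFinset_const]
    refine Nat.pow_le_pow_left ?_ j
    refine (count_pairs S T i l k M hM).trans ?_
    exact Nat.mul_le_mul_left _ (Nat.choose_le_choose _ hTcard)
  · -- the image is not larger than `H`
    have himg : ∀ v ∈ X.image F, v.1 ≠ 0 ∧ v.2 ≠ 0 ∧ v.1 < 2 ^ ((i + 1) * j) ∧
        v.2 < 2 ^ ((l + 1) * j) ∧ v.1.primeFactors ⊆ S ∧ Disjoint v.2.primeFactors S ∧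
        RH H v.1 v.2 := by
      intro v hv
      obtain ⟨t, ht, rfl⟩ := mem_image.1 hv
      have hp := fun n => hM _ (hmem t ht n)
      simp only [hF]
      refine ⟨Finset.prod_ne_zero_iff.2 fun n _ => (hp n).a0,
        Finset.prod_ne_zero_iff.2 fun n _ => (hp n).b0,
        prod_lt hj _ (fun n => (hp n).a1), prod_lt hj _ (fun n => (hp n).b1), ?_, ?_, ?_⟩
      · rw [pf_prod _ (fun n => (hp n).a0)]
        exact Finset.biUnion_subset.2 fun n _ => (hp n).aS
      · rw [pf_prod _ (fun n => (hp n).b0)]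
        exact (Finset.disjoint_biUnion_left _ _ _).2 fun n _ => (hp n).bS
      · choose u hu huv using fun n => hR _ (hmem t ht n)
        refine ⟨∏ n, u n, Subgroup.prod_mem _ fun n _ => hu n, ?_⟩
        push_cast
        rw [← Finset.prod_mul_distrib]
        exact Finset.prod_congr rfl fun n _ => huv n
    set g : ℕ × ℕ → H := fun v => if hv : RH H v.1 v.2 then ⟨hv.choose, hv.choose_spec.1⟩ else 1
      with hg
    have hgspec : ∀ v : ℕ × ℕ, RH H v.1 v.2 →
        (v.1 : ZMod q) = ((g v : (ZMod q)ˣ) : ZMod q) * (v.2 : ZMod q) := by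
      intro v hv
      simp only [hg, dif_pos hv]
      exact hv.choose_spec.2
    have hfin : Finite H := inferInstance
    have hft : Fintype H := Fintype.ofFinite _
    rw [Nat.card_eq_fintype_card, ← Finset.card_univ]
    refine Finset.card_le_card_of_injOn g (fun _ _ => mem_coe.2 (mem_univ _)) ?_
    intro v hv v' hv' he
    obtain ⟨a0, b0, a1, b1, aS, bS, hR1⟩ := himg v (mem_coe.1 hv)
    obtain ⟨a0', b0', a1', b1', aS', bS', hR1'⟩ := himg v' (mem_coe.1 hv')
    have e1 := hgspec v hR1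
    have e2 := hgspec v' hR1'
    have e3 : (((v.1 * v'.2 : ℕ)) : ZMod q) = ((v'.1 * v.2 : ℕ) : ZMod q) := by
      push_cast
      rw [e1, e2, he]
      ring
    have hlt : ∀ a b : ℕ, a < 2 ^ ((i + 1) * j) → b < 2 ^ ((l + 1) * j) → a * b < q := by
      intro a b ha hb
      refine lt_of_lt_of_le (Nat.mul_lt_mul'' ha hb) (le_trans (le_of_eq ?_) h)
      rw [← pow_add]
      congr 1
      ring
    rw [ZMod.natCast_eq_natCast_iff'] at e3
    rw [Nat.mod_eq_of_lt (hlt _ _ a1 b1'), Nat.mod_eq_of_lt (hlt _ _ a1' b1)] at e3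
    -- `a b' = a' b` with both pairs coprime
    have c1 := cop a0 b0 aS bS
    have c2 := cop a0' b0' aS' bS'
    have d1 : v.1 ∣ v'.1 := c1.dvd_of_dvd_mul_right (e3 ▸ Dvd.intro _ rfl)
    have d2 : v'.1 ∣ v.1 := c2.dvd_of_dvd_mul_right (e3 ▸ Dvd.intro _ rfl)
    have e := Nat.dvd_antisymm d1 d2
    refine Prod.ext e ?_
    rw [e] at e3
    exact (Nat.eq_of_mul_eq_mul_left (Nat.pos_of_ne_zero a0') e3).symm

/-- the bipartition of the primes -/
lemma bipart (N : Finset (ℕ × ℕ)) (k : ℕ)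
    (h1 : ∀ p ∈ N, Disjoint p.1.primeFactors p.2.primeFactors)
    (h2 : ∀ p ∈ N, p.1.primeFactors.card + p.2.primeFactors.card = k) :
    ∃ S : Finset ℕ, N.card ≤ 2 ^ k *
      (N.filter (fun p => p.1.primeFactors ⊆ S ∧ Disjoint p.2.primeFactors S)).card := by
  classical
  set T := N.biUnion (fun p => p.1.primeFactors ∪ p.2.primeFactors) with hT
  have hsum : ∑ S ∈ T.powerset,
      (N.filter (fun p => p.1.primeFactors ⊆ S ∧ Disjoint p.2.primeFactors S)).card =
      N.card * 2 ^ (T.card - k) := by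
    simp_rw [Finset.card_filter]
    rw [Finset.sum_comm, Finset.card_eq_sum_ones, Finset.sum_mul]
    refine Finset.sum_congr rfl fun p hp => ?_
    have hA : p.1.primeFactors ⊆ T := fun x hx =>
      mem_biUnion.2 ⟨p, hp, mem_union_left _ hx⟩
    have hB : p.2.primeFactors ⊆ T := fun x hx =>
      mem_biUnion.2 ⟨p, hp, mem_union_right _ hx⟩
    rw [← Finset.card_filter]
    have e : T.powerset.filter (fun S => p.1.primeFactors ⊆ S ∧ Disjoint p.2.primeFactors S) =
        Finset.Icc p.1.primeFactors (T \ p.2.primeFactors) := by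
      ext S
      rw [mem_filter, mem_powerset, mem_Icc]
      rw [subset_sdiff]
      constructor
      · rintro ⟨a, b, c⟩
        exact ⟨b, a, c.symm⟩
      · rintro ⟨b, a, c⟩
        exact ⟨a, b, c.symm⟩
    rw [e, Finset.card_Icc_finset, Finset.card_sdiff_of_subset hB, one_mul]
    · congr 1
      have := h2 p hp
      omega
    · rw [subset_sdiff]
      exact ⟨hA, h1 p hp⟩
  by_contra hcon
  push Not at hcon
  have hlt : ∑ S ∈ T.powerset, 2 ^ k *
      (N.filter (fun p => p.1.primeFactors ⊆ S ∧ Disjoint p.2.primeFactors S)).card <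
      ∑ S ∈ T.powerset, N.card :=
    Finset.sum_lt_sum_of_nonempty ⟨∅, empty_mem_powerset _⟩ fun S _ => hcon S
  rw [← Finset.mul_sum, hsum, Finset.sum_const, card_powerset, smul_eq_mul] at hlt
  have hN : N.Nonempty := by
    by_contra hN
    rw [not_nonempty_iff_eq_empty] at hN
    have := hcon ∅
    rw [hN] at this
    simp at this
  obtain ⟨p, hp⟩ := hN
  have hk : k ≤ T.card := by
    rw [← h2 p hp, ← Finset.card_union_of_disjoint (h1 p hp)]
    exact Finset.card_le_card (Finset.subset_biUnion_of_mem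
      (fun p : ℕ × ℕ => p.1.primeFactors ∪ p.2.primeFactors) hp)
  have e : 2 ^ k * (N.card * 2 ^ (T.card - k)) = 2 ^ T.card * N.card := by
    rw [mul_left_comm, ← pow_add, Nat.add_sub_cancel' hk, mul_comm]
  rw [e] at hlt
  exact lt_irrefl _ hlt

/-- the elementary estimate -/
lemma elem (L k j : ℕ) :
    (2 : ℝ) ^ k * ((L.choose k : ℝ) * ((j * k).choose k : ℝ)) ≤
      (6 * j * L) ^ k / k.factorial := by
  have h1 : (L.choose k : ℝ) ≤ (L : ℝ) ^ k / k.factorial := Nat.choose_le_pow_div k L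
  have h2 : ((j * k).choose k : ℝ) ≤ ((j * k : ℕ) : ℝ) ^ k / k.factorial :=
    Nat.choose_le_pow_div k (j * k)
  have h3 : (k : ℝ) ^ k / k.factorial ≤ Real.exp k := Real.pow_div_factorial_le_exp _ (by positivity) k
  have h4 : Real.exp k ≤ 3 ^ k := by
    have : Real.exp (k : ℝ) = Real.exp 1 ^ k := by rw [← Real.exp_nat_mul, mul_one]
    rw [this]
    exact pow_le_pow_left₀ (Real.exp_pos _).le (by have := Real.exp_one_lt_d9; linarith) k
  have hf : (0 : ℝ) < k.factorial := by positivity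
  calc (2 : ℝ) ^ k * ((L.choose k : ℝ) * ((j * k).choose k : ℝ))
      ≤ 2 ^ k * ((L : ℝ) ^ k / k.factorial * (((j * k : ℕ) : ℝ) ^ k / k.factorial)) := by gcongr
    _ = (2 * j * L) ^ k / k.factorial * ((k : ℝ) ^ k / k.factorial) := by
        push_cast
        rw [mul_pow (j : ℝ), mul_pow _ (L : ℝ), mul_pow 2 (j : ℝ)]
        ring
    _ ≤ (2 * j * L) ^ k / k.factorial * 3 ^ k := by
        gcongr
        exact h3.trans h4
    _ = (6 * j * L) ^ k / k.factorial := by
        rw [div_mul_eq_mul_div, ← mul_pow]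
        congr 2
        ring

end Cnt

theorem small_count {q : ℕ} [NeZero q] (hq : q.Prime) (H : Subgroup (ZMod q)ˣ) (i l k j : ℕ)
    (hk : 1 ≤ k) (hj : 1 ≤ j) (h : 2 ^ ((i + l + 2) * j) ≤ q) :
    ((NK H i l k).card : ℝ) ≤
      (6 * j * (i + l + 2)) ^ k / k.factorial * (Nat.card H : ℝ) ^ (1 / (j : ℝ)) := by
  classical
  have hN : ∀ p ∈ NK H i l k, p.1 ≠ 0 ∧ p.2 ≠ 0 ∧ p.1 < 2 ^ (i + 1) ∧ p.2 < 2 ^ (l + 1) ∧
      Nat.Coprime p.1 p.2 ∧ RH H p.1 p.2 ∧ p.1.primeFactors.card + p.2.primeFactors.card = k := by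
    intro p hp
    obtain ⟨hp1, hp2⟩ := mem_filter.1 hp
    unfold NB at hp1
    simp only [mem_filter, mem_product, mem_Ico] at hp1
    obtain ⟨⟨⟨ha, ha'⟩, hb, hb'⟩, hc, hr⟩ := hp1
    have e1 : 0 < 2 ^ i := by positivity
    have e2 : 0 < 2 ^ l := by positivity
    refine ⟨by omega, by omega, ?_, ?_, hc, hr, hp2⟩
    · rw [pow_succ]; omega
    · rw [pow_succ]; omega
  obtain ⟨S, hS⟩ := Cnt.bipart (NK H i l k) k
    (fun p hp => (hN p hp).2.2.2.2.1.disjoint_primeFactors)
    (fun p hp => (hN p hp).2.2.2.2.2.2)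
  set M := (NK H i l k).filter (fun p => p.1.primeFactors ⊆ S ∧ Disjoint p.2.primeFactors S)
    with hM
  have hp := Cnt.power hq H S i l k j hj h M (fun p hp => by
    obtain ⟨hp1, hp2⟩ := mem_filter.1 hp
    obtain ⟨a0, b0, a1, b1, -, -, hc⟩ := hN p hp1
    exact ⟨a0, b0, a1, b1, hp2.1, hp2.2, hc⟩) (fun p hp => (hN p (mem_filter.1 hp).1).2.2.2.2.2.1)
  have hj0 : (j : ℝ) ≠ 0 := by exact_mod_cast (by omega : j ≠ 0)
  have hMle : (M.card : ℝ) ≤ (((i + l + 2).choose k : ℝ) * ((j * k).choose k : ℝ)) *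
      (Nat.card H : ℝ) ^ (1 / (j : ℝ)) := by
    have h1 : (M.card : ℝ) ^ j ≤ (((i + l + 2).choose k : ℝ) * ((j * k).choose k : ℝ)) ^ j *
        (Nat.card H : ℝ) := by exact_mod_cast hp
    have h2 : ((((i + l + 2).choose k : ℝ) * ((j * k).choose k : ℝ)) *
        (Nat.card H : ℝ) ^ (1 / (j : ℝ))) ^ j =
        (((i + l + 2).choose k : ℝ) * ((j * k).choose k : ℝ)) ^ j * (Nat.card H : ℝ) := by
      rw [mul_pow, ← Real.rpow_natCast ((Nat.card H : ℝ) ^ (1 / (j : ℝ))) j,
        ← Real.rpow_mul (by positivity), one_div, inv_mul_cancel₀ hj0, Real.rpow_one]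
    rw [← h2] at h1
    exact le_of_pow_le_pow_left₀ (by omega) (by positivity) h1
  calc ((NK H i l k).card : ℝ) ≤ 2 ^ k * (M.card : ℝ) := by exact_mod_cast hS
    _ ≤ 2 ^ k * ((((i + l + 2).choose k : ℝ) * ((j * k).choose k : ℝ)) *
        (Nat.card H : ℝ) ^ (1 / (j : ℝ))) := by gcongr
    _ = (2 ^ k * (((i + l + 2).choose k : ℝ) * ((j * k).choose k : ℝ))) *
        (Nat.card H : ℝ) ^ (1 / (j : ℝ)) := by ring
    _ ≤ (6 * j * ((i + l + 2 : ℕ) : ℝ)) ^ k / k.factorial *
        (Nat.card H : ℝ) ^ (1 / (j : ℝ)) := by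
        apply mul_le_mul_of_nonneg_right (Cnt.elem (i + l + 2) k j) (by positivity)
    _ = _ := by push_cast; ring

end Pool.Agent.NV
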