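import Pool.Agent.Lib.MP_afd523_nt.Defs

/-!
# MP_afd523_nt, project NV: the cut-off measures
-/

set_option autoImplicit false

namespace Pool.Agent.NV

open Finset Complex MeasureTheory

noncomputable section

namespace CutAux

theorem bet_pos (e : ℕ) : 0 < bet e := by
  unfold bet
  positivity

theorem bet_ge (e : ℕ) : 1 / 4 ≤ bet e := by
  unfold bet
  have : (0 : ℝ) ≤ (e : ℝ) / 2 := by positivity
  linarith

/-- the constant of the density -/
def cc (e : ℕ) : ℝ := 2 * Real.pi ^ bet e / Real.Gamma (bet e)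

theorem cc_pos (e : ℕ) : 0 < cc e := by
  unfold cc
  have := Real.Gamma_pos_of_pos (bet_pos e)
  positivity

/-- the density -/
def ff (e : ℕ) (r : ℝ) : ℝ := cc e * r ^ (2 * bet e - 1) * Real.exp (-Real.pi * r ^ 2)

theorem ff_meas (e : ℕ) : Measurable (ff e) := by
  unfold ff
  exact ((measurable_id.pow_const _).const_mul _).mul
    (Real.measurable_exp.comp ((measurable_id.pow_const 2).const_mul _))

theorem ff_nonneg (e : ℕ) {r : ℝ} (hr : 0 < r) : 0 ≤ ff e r := by
  unfold ff
  have := cc_pos e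
  positivity

theorem nu_eq (e : ℕ) : nu e =
    (volume.restrict (Set.Ioi 0)).withDensity (fun r => ENNReal.ofReal (ff e r)) := rfl

theorem pow_mul_ff (e A : ℕ) {r : ℝ} (hr : 0 < r) :
    r ^ A * ff e r = cc e * (r ^ ((A : ℝ) + (2 * bet e - 1)) * Real.exp (-Real.pi * r ^ 2)) := by
  unfold ff
  rw [Real.rpow_add hr, Real.rpow_natCast]
  ring

theorem integrable_pow_mul_ff (e A : ℕ) :
    IntegrableOn (fun r => r ^ A * ff e r) (Set.Ioi 0) := by
  have hb := bet_pos e
  have hA : (0 : ℝ) ≤ (A : ℝ) := Nat.cast_nonneg A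
  have h1 : IntegrableOn (fun r : ℝ => cc e *
      (r ^ ((A : ℝ) + (2 * bet e - 1)) * Real.exp (-Real.pi * r ^ 2))) (Set.Ioi 0) :=
    (integrableOn_rpow_mul_exp_neg_mul_sq Real.pi_pos
      (show (-1 : ℝ) < (A : ℝ) + (2 * bet e - 1) by linarith)).const_mul _
  refine h1.congr_fun (fun r hr => ?_) measurableSet_Ioi
  exact (pow_mul_ff e A hr).symm

theorem integrable_ff (e : ℕ) : IntegrableOn (ff e) (Set.Ioi 0) := by
  have h := integrable_pow_mul_ff e 0
  simpa using h

theorem integral_ff (e : ℕ) : ∫ r in Set.Ioi (0 : ℝ), ff e r = 1 := by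
  have hb := bet_pos e
  have hG := Real.Gamma_pos_of_pos hb
  have h1 : ∫ r in Set.Ioi (0 : ℝ), ff e r =
      ∫ r in Set.Ioi (0 : ℝ), cc e *
        (r ^ (2 * bet e - 1) * Real.exp (-Real.pi * r ^ (2 : ℝ))) := by
    refine setIntegral_congr_fun measurableSet_Ioi fun r _ => ?_
    show cc e * r ^ (2 * bet e - 1) * Real.exp (-Real.pi * r ^ 2) = _
    rw [Real.rpow_two, mul_assoc]
  rw [h1, integral_const_mul, _root_.integral_rpow_mul_exp_neg_mul_rpow (p := 2)
    (q := 2 * bet e - 1) (by norm_num) (by linarith) Real.pi_pos]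
  have h2 : -(2 * bet e - 1 + 1) / 2 = -bet e := by ring
  have h3 : (2 * bet e - 1 + 1) / 2 = bet e := by ring
  rw [h2, h3, Real.rpow_neg Real.pi_pos.le]
  unfold cc
  have hp : 0 < Real.pi ^ bet e := by positivity
  field_simp

theorem nu_univ (e : ℕ) : nu e Set.univ = 1 := by
  rw [nu_eq, withDensity_apply _ MeasurableSet.univ, Measure.restrict_univ,
    ← ofReal_integral_eq_lintegral_ofReal (integrable_ff e), integral_ff, ENNReal.ofReal_one]
  exact (ae_restrict_iff' measurableSet_Ioi).2 (Filter.Eventually.of_forall fun r hr =>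
    ff_nonneg e hr)

/-- the constant of the ball bound -/
def kk (e : ℕ) : ℝ := cc e / (2 * bet e)

theorem kk_nonneg (e : ℕ) : 0 ≤ kk e := by
  unfold kk
  have := cc_pos e
  have := bet_pos e
  positivity

theorem ball_bound (e : ℕ) {x : ℝ} (hx : 0 < x) (hx1 : x ≤ 1) :
    (nu e).real (Set.Iic x) ≤ kk e * Real.sqrt x := by
  have hb := bet_pos e
  have hb4 := bet_ge e
  have hc := cc_pos e
  have hI : IntegrableOn (fun r : ℝ => cc e * r ^ (2 * bet e - 1)) (Set.Ioc 0 x) :=
    ((intervalIntegrable_iff_integrableOn_Ioc_of_le hx.le).1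
      (intervalIntegral.intervalIntegrable_rpow' (by linarith))).const_mul _
  have h1 : ∫ r in Set.Ioc 0 x, cc e * r ^ (2 * bet e - 1) = kk e * x ^ (2 * bet e) := by
    rw [integral_const_mul, ← intervalIntegral.integral_of_le hx.le,
      integral_rpow (Or.inl (by linarith))]
    have h2 : 2 * bet e - 1 + 1 = 2 * bet e := by ring
    rw [h2, Real.zero_rpow (by positivity), sub_zero]
    unfold kk
    ring
  have h2 : nu e (Set.Iic x) ≤ ENNReal.ofReal (kk e * x ^ (2 * bet e)) := by
    rw [nu_eq, withDensity_apply _ measurableSet_Iic, Measure.restrict_restrict measurableSet_Iic,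
      show Set.Iic x ∩ Set.Ioi 0 = Set.Ioc 0 x from by
        ext r; simp only [Set.mem_inter_iff, Set.mem_Iic, Set.mem_Ioi, Set.mem_Ioc]; tauto,
      ← h1, ofReal_integral_eq_lintegral_ofReal hI]
    · refine setLIntegral_mono' measurableSet_Ioc fun r hr => ENNReal.ofReal_le_ofReal ?_
      unfold ff
      have hr0 : 0 < r := hr.1
      have h3 : Real.exp (-Real.pi * r ^ 2) ≤ 1 := by
        apply Real.exp_le_one_iff.2
        have := Real.pi_pos
        nlinarith [sq_nonneg r]
      exact mul_le_of_le_one_right (by positivity) h3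
    · exact (ae_restrict_iff' measurableSet_Ioc).2 (Filter.Eventually.of_forall fun r hr => by
        have hr0 : 0 < r := hr.1
        show 0 ≤ cc e * r ^ (2 * bet e - 1)
        positivity)
  have h3 : (nu e).real (Set.Iic x) ≤ kk e * x ^ (2 * bet e) := by
    have hk := kk_nonneg e
    rw [Measure.real]
    exact ENNReal.toReal_le_of_le_ofReal (by positivity) h2
  refine h3.trans (mul_le_mul_of_nonneg_left ?_ (kk_nonneg e))
  rw [Real.sqrt_eq_rpow]
  exact Real.rpow_le_rpow_of_exponent_ge hx hx1 (by linarith)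

end CutAux

open CutAux in
theorem cut_nu : ∃ C : ℝ, ∀ e : ℕ, e ≤ 1 → Cut (nu e) C := by
  refine ⟨kk 0 + kk 1, fun e he => ?_⟩
  refine ⟨⟨nu_univ e⟩, ?_, fun A => ?_, fun x hx hx1 => ?_⟩
  · have h1 : nu e ≪ volume.restrict (Set.Ioi (0 : ℝ)) := by
      rw [nu_eq]; exact withDensity_absolutelyContinuous _ _
    apply h1
    rw [Measure.restrict_apply measurableSet_Iic,
      show Set.Iic (0 : ℝ) ∩ Set.Ioi 0 = ∅ from by
        ext r; simp only [Set.mem_inter_iff, Set.mem_Iic, Set.mem_Ioi, Set.mem_empty_iff_false,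
          iff_false, not_and, not_lt]; exact fun h => h,
      measure_empty]
  · rw [nu_eq, integrable_withDensity_iff (ff_meas e).ennreal_ofReal
      (Filter.Eventually.of_forall fun _ => ENNReal.ofReal_lt_top)]
    refine (integrable_pow_mul_ff e A).congr ?_
    refine (ae_restrict_iff' measurableSet_Ioi).2 (Filter.Eventually.of_forall fun r hr => ?_)
    show r ^ A * ff e r = r ^ A * (ENNReal.ofReal (ff e r)).toReal
    rw [ENNReal.toReal_ofReal (ff_nonneg e hr)]
  · refine (ball_bound e hx hx1).trans (mul_le_mul_of_nonneg_right ?_ (Real.sqrt_nonneg x))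
    have h0 := kk_nonneg 0
    have h1 := kk_nonneg 1
    interval_cases e
    · linarith
    · linarith

end

end Pool.Agent.NV
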