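import Pool.Agent.Lib.MP_afd523_nt.Defs

/-!
MP_afd523_nt, module Orth: orthogonality of the characters of a coset.
-/

set_option autoImplicit false

namespace Pool.Agent.NV

open Finset Complex MeasureTheory

/-- the homomorphism `u ↦ χ(u) conj ψ(u)` on `H` -/
noncomputable def Orth_hom {q : ℕ} (H : Subgroup (ZMod q)ˣ) (χ ψ : DirichletCharacter ℂ q) :
    H →* ℂ where
  toFun u := χ ((u : (ZMod q)ˣ) : ZMod q) * ψ (((u⁻¹ : H) : (ZMod q)ˣ) : ZMod q)
  map_one' := by simp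
  map_mul' u v := by
    have h1 : ((((u * v)⁻¹ : H) : (ZMod q)ˣ) : ZMod q) =
        (((u⁻¹ : H) : (ZMod q)ˣ) : ZMod q) * (((v⁻¹ : H) : (ZMod q)ˣ) : ZMod q) := by
      rw [mul_inv, Subgroup.coe_mul, Units.val_mul]
    have h2 : (((u * v : H) : (ZMod q)ˣ) : ZMod q) =
        ((u : (ZMod q)ˣ) : ZMod q) * ((v : (ZMod q)ˣ) : ZMod q) := by
      rw [Subgroup.coe_mul, Units.val_mul]
    rw [h1, h2, map_mul, map_mul]
    ring

theorem Orth_unit {q : ℕ} (ψ : DirichletCharacter ℂ q) (u : (ZMod q)ˣ) :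
    ψ (u : ZMod q) * ψ ((u⁻¹ : (ZMod q)ˣ) : ZMod q) = 1 := by
  rw [← map_mul, ← Units.val_mul, mul_inv_cancel, Units.val_one, map_one]

theorem Orth_mem {q : ℕ} [NeZero q] (H : Subgroup (ZMod q)ˣ) (χ ψ : DirichletCharacter ℂ q) :
    χ ∈ cos H ψ ↔ ∀ u ∈ H, χ ((u : (ZMod q)ˣ) : ZMod q) = ψ (u : ZMod q) := by
  classical
  unfold cos
  rw [Finset.mem_filter]
  simp

theorem Orth_hom_eq {q : ℕ} [NeZero q] (H : Subgroup (ZMod q)ˣ) (χ ψ : DirichletCharacter ℂ q) :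
    Orth_hom H χ ψ = 1 ↔ χ ∈ cos H ψ := by
  rw [Orth_mem]
  constructor
  · intro h u hu
    have h1 : Orth_hom H χ ψ ⟨u, hu⟩ = 1 := by rw [h]; rfl
    have h2 : χ (u : ZMod q) * ψ ((u⁻¹ : (ZMod q)ˣ) : ZMod q) = 1 := h1
    have h3 := Orth_unit ψ u
    have h4 : ψ ((u⁻¹ : (ZMod q)ˣ) : ZMod q) ≠ 0 := by
      intro h0
      rw [h0, mul_zero] at h3
      exact zero_ne_one h3
    exact mul_right_cancel₀ h4 (h2.trans h3.symm)
  · intro h
    ext u
    have h1 : Orth_hom H χ ψ u =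
        χ ((u : (ZMod q)ˣ) : ZMod q) * ψ (((u⁻¹ : H) : (ZMod q)ˣ) : ZMod q) := rfl
    rw [h1, h _ u.2]
    have h2 := Orth_unit ψ (u : (ZMod q)ˣ)
    rw [MonoidHom.one_apply]
    simpa using h2

/-- the key formula -/
theorem Orth_key {q : ℕ} [NeZero q] (hq : q.Prime) (H : Subgroup (ZMod q)ˣ)
    (ψ : DirichletCharacter ℂ q) (x : (ZMod q)ˣ) [Decidable (x ∈ H)] :
    (Nat.card H : ℂ) * ∑ χ ∈ cos H ψ, χ (x : ZMod q) =
      if x ∈ H then ((q : ℂ) - 1) * ψ (x : ZMod q) else 0 := by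
  classical
  have hf : Fintype H := Fintype.ofFinite H
  have h1 : ∀ χ : DirichletCharacter ℂ q,
      (if χ ∈ cos H ψ then (Nat.card H : ℂ) * χ (x : ZMod q) else 0) =
        ∑ u : H, Orth_hom H χ ψ u * χ (x : ZMod q) := by
    intro χ
    rw [← Finset.sum_mul, sum_hom_units, Nat.card_eq_fintype_card]
    by_cases h : χ ∈ cos H ψ
    · rw [if_pos h, if_pos ((Orth_hom_eq H χ ψ).2 h)]
    · rw [if_neg h, if_neg (fun h' => h ((Orth_hom_eq H χ ψ).1 h')), Nat.cast_zero, zero_mul]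
  have h2 : (Nat.card H : ℂ) * ∑ χ ∈ cos H ψ, χ (x : ZMod q) =
      ∑ χ : DirichletCharacter ℂ q, ∑ u : H, Orth_hom H χ ψ u * χ (x : ZMod q) := by
    rw [Finset.mul_sum]
    simp_rw [← h1]
    rw [← Finset.sum_filter]
    congr 1
    ext χ
    simp
  rw [h2, Finset.sum_comm]
  have h3 : ∀ u : H, ∑ χ : DirichletCharacter ℂ q, Orth_hom H χ ψ u * χ (x : ZMod q) =
      if (u : (ZMod q)ˣ) * x = 1 then ((q : ℂ) - 1) * ψ (x : ZMod q) else 0 := by
    intro u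
    have h4 : ∀ χ : DirichletCharacter ℂ q, Orth_hom H χ ψ u * χ (x : ZMod q) =
        ψ (((u⁻¹ : H) : (ZMod q)ˣ) : ZMod q) * χ (((u : (ZMod q)ˣ) * x : (ZMod q)ˣ) : ZMod q) := by
      intro χ
      have h5 : Orth_hom H χ ψ u =
        χ ((u : (ZMod q)ˣ) : ZMod q) * ψ (((u⁻¹ : H) : (ZMod q)ˣ) : ZMod q) := rfl
      rw [h5, Units.val_mul, map_mul]
      ring
    simp_rw [h4]
    rw [← Finset.mul_sum, DirichletCharacter.sum_characters_eq]
    by_cases h6 : (u : (ZMod q)ˣ) * x = 1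
    · rw [if_pos h6, if_pos (by rw [h6, Units.val_one])]
      have h7 : x = ((u⁻¹ : H) : (ZMod q)ˣ) := by
        rw [Subgroup.coe_inv]
        exact eq_inv_of_mul_eq_one_right h6
      rw [← h7, Nat.totient_prime hq, Nat.cast_sub hq.one_le, Nat.cast_one]
      ring
    · rw [if_neg h6, if_neg, mul_zero]
      intro h7
      apply h6
      exact Units.ext h7
  simp_rw [h3]
  by_cases hx : x ∈ H
  · rw [if_pos hx, Finset.sum_eq_single (⟨x⁻¹, H.inv_mem hx⟩ : H)]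
    · rw [if_pos]
      simp
    · intro u _ hu
      rw [if_neg]
      intro h
      apply hu
      apply Subtype.ext
      exact eq_inv_of_mul_eq_one_left h
    · intro h
      exact absurd (Finset.mem_univ _) h
  · rw [if_neg hx]
    apply Finset.sum_eq_zero
    intro u _
    rw [if_neg]
    intro h
    apply hx
    have h8 : x = (u : (ZMod q)ˣ)⁻¹ := eq_inv_of_mul_eq_one_right h
    rw [h8]
    exact H.inv_mem u.2

theorem card_cos {q : ℕ} [NeZero q] (hq : q.Prime) (H : Subgroup (ZMod q)ˣ)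
    (ψ : DirichletCharacter ℂ q) : ((cos H ψ).card : ℝ) * Nat.card H = q - 1 := by
  classical
  have h := Orth_key hq H ψ 1
  rw [if_pos H.one_mem] at h
  simp only [Units.val_one, map_one, Finset.sum_const, nsmul_eq_mul, mul_one] at h
  have h2 : (((cos H ψ).card : ℝ) * Nat.card H : ℂ) = ((q - 1 : ℝ) : ℂ) := by
    push_cast
    rw [mul_comm]
    exact h
  exact_mod_cast h2

theorem Orth_key' {q : ℕ} [NeZero q] (hq : q.Prime) (H : Subgroup (ZMod q)ˣ)
    (ψ : DirichletCharacter ℂ q) (x : (ZMod q)ˣ) [Decidable (x ∈ H)] :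
    ∑ χ ∈ cos H ψ, χ (x : ZMod q) =
      if x ∈ H then ((cos H ψ).card : ℂ) * ψ (x : ZMod q) else 0 := by
  have h := Orth_key hq H ψ x
  have h0 : (Nat.card H : ℂ) ≠ 0 := by
    have : Nat.card H ≠ 0 := Nat.card_pos.ne'
    exact_mod_cast this
  have hc : ((q : ℂ) - 1) = Nat.card H * (cos H ψ).card := by
    have h1 := card_cos hq H ψ
    have h2 : (((cos H ψ).card : ℝ) * Nat.card H : ℂ) = ((q - 1 : ℝ) : ℂ) := by
      exact_mod_cast h1
    push_cast at h2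
    rw [mul_comm]
    exact h2.symm
  apply mul_left_cancel₀ h0
  rw [h]
  split_ifs with hx
  · rw [hc]
    ring
  · rw [mul_zero]

theorem Orth_nat {q : ℕ} [NeZero q] (hq : q.Prime) (H : Subgroup (ZMod q)ˣ)
    (ψ : DirichletCharacter ℂ q) (n : ℕ) [Decidable (RH H n 1)] :
    ∑ χ ∈ cos H ψ, χ (n : ZMod q) =
      if RH H n 1 then ((cos H ψ).card : ℂ) * ψ (n : ZMod q) else 0 := by
  classical
  have : Fact q.Prime := ⟨hq⟩
  by_cases hn : (n : ZMod q) = 0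
  · rw [hn, MulChar.map_zero, mul_zero, ite_self]
    exact Finset.sum_eq_zero fun χ _ => MulChar.map_zero χ
  · have h1 := Orth_key' hq H ψ (Units.mk0 (n : ZMod q) hn)
    rw [Units.val_mk0] at h1
    rw [h1]
    refine if_congr ?_ rfl rfl
    unfold RH
    constructor
    · intro h
      exact ⟨_, h, by simp⟩
    · rintro ⟨u, hu, hun⟩
      have : Units.mk0 (n : ZMod q) hn = u := by
        apply Units.ext
        rw [Units.val_mk0, hun]
        simp
      rw [this]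
      exact hu

theorem orth_sum {q : ℕ} [NeZero q] (hq : q.Prime) (H : Subgroup (ZMod q)ˣ)
    (ψ : DirichletCharacter ℂ q) (c : ℕ → ℂ) (X : ℕ) :
    ∑ χ ∈ cos H ψ, ∑ n ∈ Icc 1 X, c n * χ (n : ZMod q) =
      (cos H ψ).card * ∑ n ∈ HN H X, c n * ψ (n : ZMod q) := by
  classical
  rw [Finset.sum_comm]
  have h1 : ∀ n : ℕ, ∑ χ ∈ cos H ψ, c n * χ (n : ZMod q) =
      if RH H n 1 then ((cos H ψ).card : ℂ) * (c n * ψ (n : ZMod q)) else 0 := by
    intro n
    rw [← Finset.mul_sum, Orth_nat hq H ψ n]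
    split_ifs
    · ring
    · ring
  simp_rw [h1]
  rw [← Finset.sum_filter, ← Finset.mul_sum]
  congr 1

theorem orth_sq {q : ℕ} [NeZero q] (hq : q.Prime) (H : Subgroup (ZMod q)ˣ)
    (ψ : DirichletCharacter ℂ q) (c : ℕ → ℂ) (X : ℕ) (hX : X < q) :
    ∑ χ ∈ cos H ψ, ‖∑ n ∈ Icc 1 X, c n * χ (n : ZMod q)‖ ^ 2 ≤
      (cos H ψ).card * ∑ p ∈ HP H X, ‖c p.1‖ * ‖c p.2‖ := by
  classical
  have : Fact q.Prime := ⟨hq⟩
  have hn0 : ∀ n ∈ Icc 1 X, (n : ZMod q) ≠ 0 := by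
    intro n hn h0
    rw [Finset.mem_Icc] at hn
    rw [ZMod.natCast_eq_zero_iff] at h0
    exact absurd (Nat.le_of_dvd (by omega) h0) (by omega)
  -- one pair
  have hpair : ∀ p ∈ Icc 1 X ×ˢ Icc 1 X,
      ∑ χ ∈ cos H ψ, (c p.1 * χ (p.1 : ZMod q)) * star (c p.2 * χ (p.2 : ZMod q)) =
        if RH H p.1 p.2 then ((cos H ψ).card : ℂ) *
          ((c p.1 * star (c p.2)) * ψ ((p.1 : ZMod q) * (p.2 : ZMod q)⁻¹)) else 0 := by
    intro p hp
    rw [Finset.mem_product] at hp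
    have h1 := hn0 _ hp.1
    have h2 := hn0 _ hp.2
    set x : (ZMod q)ˣ := Units.mk0 (p.1 : ZMod q) h1 * (Units.mk0 (p.2 : ZMod q) h2)⁻¹ with hx
    have hxv : (x : ZMod q) = (p.1 : ZMod q) * (p.2 : ZMod q)⁻¹ := by
      rw [hx, Units.val_mul, Units.val_mk0, Units.val_inv_eq_inv_val, Units.val_mk0]
    have h3 : ∀ χ : DirichletCharacter ℂ q,
        (c p.1 * χ (p.1 : ZMod q)) * star (c p.2 * χ (p.2 : ZMod q)) =
          (c p.1 * star (c p.2)) * χ (x : ZMod q) := by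
      intro χ
      rw [star_mul', MulChar.star_apply', MulChar.inv_apply', hxv, map_mul]
      ring
    simp_rw [h3]
    rw [← Finset.mul_sum, Orth_key' hq H ψ x, hxv]
    have h4 : x ∈ H ↔ RH H p.1 p.2 := by
      unfold RH
      constructor
      · intro h
        refine ⟨x, h, ?_⟩
        rw [hxv, mul_assoc, inv_mul_cancel₀ h2, mul_one]
      · rintro ⟨u, hu, hun⟩
        have : x = u := by
          apply Units.ext
          rw [hxv, hun, mul_assoc, mul_inv_cancel₀ h2, mul_one]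
        rw [this]
        exact hu
    by_cases h5 : x ∈ H
    · rw [if_pos h5, if_pos (h4.1 h5)]
      ring
    · rw [if_neg h5, if_neg (fun h => h5 (h4.2 h)), mul_zero]
  have hsq : ((∑ χ ∈ cos H ψ, ‖∑ n ∈ Icc 1 X, c n * χ (n : ZMod q)‖ ^ 2 : ℝ) : ℂ) =
      ∑ p ∈ HP H X, ((cos H ψ).card : ℂ) *
          ((c p.1 * star (c p.2)) * ψ ((p.1 : ZMod q) * (p.2 : ZMod q)⁻¹)) := by
    have h1 : ∀ χ : DirichletCharacter ℂ q,
        ((‖∑ n ∈ Icc 1 X, c n * χ (n : ZMod q)‖ ^ 2 : ℝ) : ℂ) =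
          ∑ p ∈ Icc 1 X ×ˢ Icc 1 X,
            (c p.1 * χ (p.1 : ZMod q)) * star (c p.2 * χ (p.2 : ZMod q)) := by
      intro χ
      rw [Finset.sum_product]
      simp_rw [← Finset.mul_sum]
      rw [← Finset.sum_mul, ← star_sum]
      have h2 := Complex.mul_conj' (∑ n ∈ Icc 1 X, c n * χ (n : ZMod q))
      rw [Complex.ofReal_pow]
      exact h2.symm
    rw [Complex.ofReal_sum]
    simp_rw [h1]
    rw [Finset.sum_comm, Finset.sum_congr rfl hpair, ← Finset.sum_filter]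
    unfold HP
    refine Finset.sum_congr ?_ fun _ _ => rfl
    ext n
    simp only [Finset.mem_filter]
  have h0 : 0 ≤ ∑ χ ∈ cos H ψ, ‖∑ n ∈ Icc 1 X, c n * χ (n : ZMod q)‖ ^ 2 :=
    Finset.sum_nonneg fun χ _ => by positivity
  rw [← abs_of_nonneg h0, ← Real.norm_eq_abs, ← Complex.norm_real, hsq, Finset.mul_sum]
  refine (norm_sum_le _ _).trans (Finset.sum_le_sum fun p _ => ?_)
  rw [norm_mul, norm_mul, norm_mul, norm_star, Complex.norm_natCast]
  have h6 : ‖ψ ((p.1 : ZMod q) * (p.2 : ZMod q)⁻¹)‖ ≤ 1 := DirichletCharacter.norm_le_one ψ _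
  have h7 : 0 ≤ ‖c p.1‖ * ‖c p.2‖ := by positivity
  have h8 : (0 : ℝ) ≤ ((cos H ψ).card : ℝ) := by positivity
  exact mul_le_mul_of_nonneg_left (mul_le_of_le_one_right h7 h6) h8

end Pool.Agent.NV
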