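import Pool.Agent.Lib.MP_afd523_nt.Defs

/-! Project NV (MP_afd523_nt), module PA: smooth and rough parts of an integer. -/

namespace Pool.Agent.NV

open Finset Complex MeasureTheory

theorem Parts_fact (S : ℕ → Prop) [DecidablePred S] (n : ℕ) (p : ℕ) :
    (∏ p ∈ n.primeFactors.filter S, p ^ n.factorization p).factorization p =
      if S p then n.factorization p else 0 := by
  have h1 : ∏ p ∈ n.primeFactors.filter S, p ^ n.factorization p =
      (n.factorization.filter S).prod (fun p k => p ^ k) := by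
    rw [Finsupp.prod, Finsupp.support_filter, Nat.support_factorization]
    refine Finset.prod_congr rfl fun p hp => ?_
    rw [Finsupp.filter_apply_pos _ _ (Finset.mem_filter.mp hp).2]
  rw [h1, Nat.prod_pow_factorization_eq_self, Finsupp.filter_apply]
  intro p hp
  rw [Finsupp.support_filter, Nat.support_factorization] at hp
  exact Nat.prime_of_mem_primeFactors (Finset.mem_filter.mp hp).1

theorem Parts_ne (S : ℕ → Prop) [DecidablePred S] (n : ℕ) :
    ∏ p ∈ n.primeFactors.filter S, p ^ n.factorization p ≠ 0 :=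
  Finset.prod_ne_zero_iff.mpr fun _ hp =>
    pow_ne_zero _ (Nat.prime_of_mem_primeFactors (Finset.mem_filter.mp hp).1).ne_zero

theorem Parts_fact_sm (w n p : ℕ) :
    (sm w n).factorization p = if p ≤ w then n.factorization p else 0 :=
  Parts_fact (fun p => p ≤ w) n p

theorem Parts_fact_ro (w n p : ℕ) :
    (ro w n).factorization p = if w < p then n.factorization p else 0 :=
  Parts_fact (fun p => w < p) n p

theorem sm_ne_zero (w n : ℕ) : sm w n ≠ 0 := Parts_ne _ n

theorem ro_ne_zero (w n : ℕ) : ro w n ≠ 0 := Parts_ne _ n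

theorem sm_mul_ro (w : ℕ) {n : ℕ} (hn : n ≠ 0) : sm w n * ro w n = n := by
  refine Nat.eq_of_factorization_eq (mul_ne_zero (sm_ne_zero w n) (ro_ne_zero w n)) hn fun p => ?_
  rw [Nat.factorization_mul (sm_ne_zero w n) (ro_ne_zero w n), Finsupp.add_apply, Parts_fact_sm,
    Parts_fact_ro]
  by_cases h : p ≤ w
  · rw [if_pos h, if_neg (not_lt.mpr h), add_zero]
  · rw [if_neg h, if_pos (not_le.mp h), zero_add]

theorem sm_mul (w : ℕ) {a b : ℕ} (ha : a ≠ 0) (hb : b ≠ 0) :
    sm w (a * b) = sm w a * sm w b := by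
  refine Nat.eq_of_factorization_eq (sm_ne_zero _ _)
    (mul_ne_zero (sm_ne_zero _ _) (sm_ne_zero _ _)) fun p => ?_
  rw [Nat.factorization_mul (sm_ne_zero _ _) (sm_ne_zero _ _), Finsupp.add_apply, Parts_fact_sm,
    Parts_fact_sm, Parts_fact_sm, Nat.factorization_mul ha hb, Finsupp.add_apply]
  split_ifs <;> rfl

theorem ro_mul (w : ℕ) {a b : ℕ} (ha : a ≠ 0) (hb : b ≠ 0) :
    ro w (a * b) = ro w a * ro w b := by
  refine Nat.eq_of_factorization_eq (ro_ne_zero _ _)
    (mul_ne_zero (ro_ne_zero _ _) (ro_ne_zero _ _)) fun p => ?_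
  rw [Nat.factorization_mul (ro_ne_zero _ _) (ro_ne_zero _ _), Finsupp.add_apply, Parts_fact_ro,
    Parts_fact_ro, Parts_fact_ro, Nat.factorization_mul ha hb, Finsupp.add_apply]
  split_ifs <;> rfl

theorem primeFactors_sm (w n : ℕ) :
    (sm w n).primeFactors = n.primeFactors.filter (fun p => p ≤ w) := by
  ext p
  rw [Finset.mem_filter, ← Nat.support_factorization, ← Nat.support_factorization,
    Finsupp.mem_support_iff, Finsupp.mem_support_iff, Parts_fact_sm]
  by_cases h : p ≤ w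
  · simp [h]
  · simp [h]

theorem primeFactors_ro (w n : ℕ) :
    (ro w n).primeFactors = n.primeFactors.filter (fun p => w < p) := by
  ext p
  rw [Finset.mem_filter, ← Nat.support_factorization, ← Nat.support_factorization,
    Finsupp.mem_support_iff, Finsupp.mem_support_iff, Parts_fact_ro]
  by_cases h : w < p
  · simp [h]
  · simp [h]

theorem coprime_sm_ro (w m n : ℕ) : Nat.Coprime (sm w m) (ro w n) := by
  rw [← Nat.disjoint_primeFactors (sm_ne_zero w m) (ro_ne_zero w n), Finset.disjoint_left,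
    primeFactors_sm, primeFactors_ro]
  intro p hp hp'
  exact absurd (Finset.mem_filter.mp hp).2 (not_le.mpr (Finset.mem_filter.mp hp').2)

theorem sm_eq_self_iff (w : ℕ) {n : ℕ} (hn : n ≠ 0) :
    sm w n = n ↔ ∀ p, p.Prime → p ∣ n → p ≤ w := by
  constructor
  · intro h p hp hpn
    have h1 : p ∈ (sm w n).primeFactors := by
      rw [h]
      exact Nat.mem_primeFactors.mpr ⟨hp, hpn, hn⟩
    rw [primeFactors_sm] at h1
    exact (Finset.mem_filter.mp h1).2
  · intro h
    refine Nat.eq_of_factorization_eq (sm_ne_zero _ _) hn fun p => ?_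
    rw [Parts_fact_sm]
    by_cases hp : p ∈ n.primeFactors
    · rw [if_pos (h p (Nat.prime_of_mem_primeFactors hp) (Nat.dvd_of_mem_primeFactors hp))]
    · rw [← Nat.support_factorization, Finsupp.notMem_support_iff] at hp
      rw [hp, ite_self]

theorem ro_eq_self_iff (w : ℕ) {n : ℕ} (hn : n ≠ 0) :
    ro w n = n ↔ ∀ p, p.Prime → p ∣ n → w < p := by
  constructor
  · intro h p hp hpn
    have h1 : p ∈ (ro w n).primeFactors := by
      rw [h]
      exact Nat.mem_primeFactors.mpr ⟨hp, hpn, hn⟩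
    rw [primeFactors_ro] at h1
    exact (Finset.mem_filter.mp h1).2
  · intro h
    refine Nat.eq_of_factorization_eq (ro_ne_zero _ _) hn fun p => ?_
    rw [Parts_fact_ro]
    by_cases hp : p ∈ n.primeFactors
    · rw [if_pos (h p (Nat.prime_of_mem_primeFactors hp) (Nat.dvd_of_mem_primeFactors hp))]
    · rw [← Nat.support_factorization, Finsupp.notMem_support_iff] at hp
      rw [hp, ite_self]

theorem sm_sm (w n : ℕ) : sm w (sm w n) = sm w n := by
  refine Nat.eq_of_factorization_eq (sm_ne_zero _ _) (sm_ne_zero _ _) fun p => ?_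
  rw [Parts_fact_sm, Parts_fact_sm]
  split_ifs <;> rfl

theorem ro_ro (w n : ℕ) : ro w (ro w n) = ro w n := by
  refine Nat.eq_of_factorization_eq (ro_ne_zero _ _) (ro_ne_zero _ _) fun p => ?_
  rw [Parts_fact_ro, Parts_fact_ro]
  split_ifs <;> rfl

theorem sm_ro (w n : ℕ) : sm w (ro w n) = 1 := by
  refine Nat.eq_of_factorization_eq (sm_ne_zero _ _) one_ne_zero fun p => ?_
  rw [Parts_fact_sm, Parts_fact_ro, Nat.factorization_one, Finsupp.zero_apply]
  by_cases h : p ≤ w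
  · rw [if_pos h, if_neg (not_lt.mpr h)]
  · rw [if_neg h]

theorem ro_sm (w n : ℕ) : ro w (sm w n) = 1 := by
  refine Nat.eq_of_factorization_eq (ro_ne_zero _ _) one_ne_zero fun p => ?_
  rw [Parts_fact_ro, Parts_fact_sm, Nat.factorization_one, Finsupp.zero_apply]
  by_cases h : w < p
  · rw [if_pos h, if_neg (not_le.mpr h)]
  · rw [if_neg h]

theorem sum_split (w X : ℕ) (F G : ℕ → ℝ) (hF : ∀ n, 0 ≤ F n) (hG : ∀ n, 0 ≤ G n) :
    ∑ g ∈ Icc 1 X, F (sm w g) * G (ro w g) ≤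
      (∑ s ∈ (Icc 1 X).filter (fun s => sm w s = s), F s) *
        ∑ r ∈ (Icc 1 X).filter (fun r => ro w r = r), G r := by
  have hinj : Set.InjOn (fun g : ℕ => (sm w g, ro w g)) (Icc 1 X : Finset ℕ) := by
    intro a ha b hb h
    have ha1 : a ≠ 0 := by
      have := (Finset.mem_Icc.mp (Finset.mem_coe.mp ha)).1
      omega
    have hb1 : b ≠ 0 := by
      have := (Finset.mem_Icc.mp (Finset.mem_coe.mp hb)).1
      omega
    have h1 := (Prod.mk.injEq _ _ _ _).mp h
    rw [← sm_mul_ro w ha1, ← sm_mul_ro w hb1, h1.1, h1.2]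
  have h1 : ∑ g ∈ Icc 1 X, F (sm w g) * G (ro w g) =
      ∑ p ∈ (Icc 1 X).image (fun g : ℕ => (sm w g, ro w g)), F p.1 * G p.2 := by
    rw [Finset.sum_image hinj]
  rw [h1, Finset.sum_mul_sum, ← Finset.sum_product']
  refine Finset.sum_le_sum_of_subset_of_nonneg ?_ fun p _ _ => mul_nonneg (hF _) (hG _)
  intro p hp
  obtain ⟨g, hg, rfl⟩ := Finset.mem_image.mp hp
  obtain ⟨hg1, hg2⟩ := Finset.mem_Icc.mp hg
  have hg0 : g ≠ 0 := by omega
  have h2 : sm w g ∣ g := ⟨ro w g, (sm_mul_ro w hg0).symm⟩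
  have h3 : ro w g ∣ g := ⟨sm w g, by rw [mul_comm, sm_mul_ro w hg0]⟩
  have h4 := Nat.le_of_dvd (by omega) h2
  have h5 := Nat.le_of_dvd (by omega) h3
  have h6 := sm_ne_zero w g
  have h7 := ro_ne_zero w g
  refine Finset.mem_product.mpr ⟨Finset.mem_filter.mpr ⟨Finset.mem_Icc.mpr ⟨?_, ?_⟩, sm_sm w g⟩,
    Finset.mem_filter.mpr ⟨Finset.mem_Icc.mpr ⟨?_, ?_⟩, ro_ro w g⟩⟩
  · show 1 ≤ sm w g
    omega
  · exact h4.trans hg2
  · show 1 ≤ ro w g
    omega
  · exact h5.trans hg2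

theorem Parts_sm_dvd {w N d : ℕ} (hd : d ∣ sm w N) : sm w d = d ∧ ro w d = 1 := by
  have hd0 : d ≠ 0 := fun h => sm_ne_zero w N (by rw [h, zero_dvd_iff] at hd; exact hd)
  have h1 : sm w d = d := (sm_eq_self_iff w hd0).mpr fun p hp hpd =>
    (sm_eq_self_iff w (sm_ne_zero w N)).mp (sm_sm w N) p hp (hpd.trans hd)
  exact ⟨h1, by rw [← h1, ro_sm]⟩

theorem Parts_ro_dvd {w N e : ℕ} (he : e ∣ ro w N) : ro w e = e ∧ sm w e = 1 := by
  have he0 : e ≠ 0 := fun h => ro_ne_zero w N (by rw [h, zero_dvd_iff] at he; exact he)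
  have h1 : ro w e = e := (ro_eq_self_iff w he0).mpr fun p hp hpe =>
    (ro_eq_self_iff w (ro_ne_zero w N)).mp (ro_ro w N) p hp (hpe.trans he)
  exact ⟨h1, by rw [← h1, sm_ro]⟩

theorem divisors_split (w : ℕ) {N : ℕ} (hN : N ≠ 0) (F G : ℕ → ℂ) :
    ∑ m ∈ N.divisors, F (sm w m) * G (ro w m) =
      (∑ d ∈ (sm w N).divisors, F d) * ∑ e ∈ (ro w N).divisors, G e := by
  rw [Finset.sum_mul_sum, ← Finset.sum_product']
  symm
  have hmem : ∀ p : ℕ × ℕ, p ∈ (sm w N).divisors ×ˢ (ro w N).divisors →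
      sm w (p.1 * p.2) = p.1 ∧ ro w (p.1 * p.2) = p.2 ∧ p.1 * p.2 ∈ N.divisors := by
    intro p hp
    obtain ⟨h1, h2⟩ := Finset.mem_product.mp hp
    have h3 := Nat.dvd_of_mem_divisors h1
    have h4 := Nat.dvd_of_mem_divisors h2
    have h5 : p.1 ≠ 0 := fun h => sm_ne_zero w N (by rw [h, zero_dvd_iff] at h3; exact h3)
    have h6 : p.2 ≠ 0 := fun h => ro_ne_zero w N (by rw [h, zero_dvd_iff] at h4; exact h4)
    refine ⟨?_, ?_, Nat.mem_divisors.mpr ⟨?_, hN⟩⟩
    · rw [sm_mul w h5 h6, (Parts_sm_dvd h3).1, (Parts_ro_dvd h4).2, mul_one]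
    · rw [ro_mul w h5 h6, (Parts_sm_dvd h3).2, (Parts_ro_dvd h4).1, one_mul]
    · rw [← sm_mul_ro w hN]
      exact mul_dvd_mul h3 h4
  have hmem2 : ∀ m ∈ N.divisors, (sm w m, ro w m) ∈ (sm w N).divisors ×ˢ (ro w N).divisors := by
    intro m hm
    obtain ⟨k, hk⟩ := Nat.dvd_of_mem_divisors hm
    have hm0 : m ≠ 0 := fun h => hN (by rw [hk, h, zero_mul])
    have hk0 : k ≠ 0 := fun h => hN (by rw [hk, h, mul_zero])
    refine Finset.mem_product.mpr ⟨Nat.mem_divisors.mpr ⟨?_, sm_ne_zero w N⟩,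
      Nat.mem_divisors.mpr ⟨?_, ro_ne_zero w N⟩⟩
    · exact ⟨sm w k, by rw [hk, sm_mul w hm0 hk0]⟩
    · exact ⟨ro w k, by rw [hk, ro_mul w hm0 hk0]⟩
  refine Finset.sum_bij' (fun p _ => p.1 * p.2) (fun m _ => (sm w m, ro w m))
    (fun p hp => (hmem p hp).2.2) hmem2 (fun p hp => ?_) (fun m hm => ?_) (fun p hp => ?_)
  · exact Prod.ext (hmem p hp).1 (hmem p hp).2.1
  · have hm0 : m ≠ 0 := fun h => hN (by
      have := Nat.dvd_of_mem_divisors hm
      rw [h, zero_dvd_iff] at this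
      exact this)
    exact sm_mul_ro w hm0
  · rw [(hmem p hp).1, (hmem p hp).2.1]

end Pool.Agent.NV
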