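import Pool.Agent.Lib.MP_afd523_nt.Defs

/-!
Factorial bounds for MP_afd523_nt (module CX of project NV).
-/

namespace Pool.Agent.NV

open Finset Complex MeasureTheory

/-- `A ^ k / k! ≤ exp A` for `A ≥ 0` -/
theorem fac_pow_div (A : ℝ) (hA : 0 ≤ A) (k : ℕ) :
    A ^ k / k.factorial ≤ Real.exp A := Real.pow_div_factorial_le_exp A hA k

theorem fac_pow (C η : ℝ) (hC : 1 ≤ C) (hη : 0 < η) :
    ∃ C' : ℝ, 1 ≤ C' ∧ ∀ L k : ℕ, k.factorial ≤ 2 ^ L →
      C ^ k ≤ C' * (2 : ℝ) ^ (η * L) := by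
  have hC0 : (0 : ℝ) < C := by linarith
  set B : ℝ := C ^ (1 / η) with hB
  have hBpos : 0 < B := Real.rpow_pos_of_pos hC0 _
  refine ⟨Real.exp (B * η), ?_, ?_⟩
  · exact Real.one_le_exp (by positivity)
  · intro L k hk
    have h1 : B ^ k / k.factorial ≤ Real.exp B := fac_pow_div B hBpos.le k
    have hkf : (0 : ℝ) < k.factorial := by exact_mod_cast Nat.factorial_pos k
    have h2 : B ^ k ≤ Real.exp B * k.factorial := by
      rwa [div_le_iff₀ hkf] at h1
    have hk' : (k.factorial : ℝ) ≤ (2 : ℝ) ^ L := by exact_mod_cast hk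
    have h3 : B ^ k ≤ Real.exp B * (2 : ℝ) ^ L :=
      h2.trans (mul_le_mul_of_nonneg_left hk' (Real.exp_pos _).le)
    have h4 : (B ^ k) ^ η ≤ (Real.exp B * (2 : ℝ) ^ L) ^ η :=
      Real.rpow_le_rpow (by positivity) h3 hη.le
    have h5 : (B ^ k) ^ η = C ^ k := by
      rw [← Real.rpow_natCast B k, ← Real.rpow_mul hBpos.le, hB, ← Real.rpow_mul hC0.le]
      have : 1 / η * ((k : ℝ) * η) = (k : ℝ) := by field_simp
      rw [this, Real.rpow_natCast]
    have h6 : (Real.exp B * (2 : ℝ) ^ L) ^ η = Real.exp (B * η) * (2 : ℝ) ^ (η * L) := by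
      rw [Real.mul_rpow (Real.exp_pos _).le (by positivity)]
      congr 1
      · rw [← Real.exp_mul]
      · rw [← Real.rpow_natCast 2 L, ← Real.rpow_mul (by norm_num)]
        congr 1
        ring
    rw [h5, h6] at h4
    exact h4

theorem fac_bound (C η : ℝ) (hC : 1 ≤ C) (hη : 0 < η) :
    ∃ C' : ℝ, 1 ≤ C' ∧ ∀ L k : ℕ, k.factorial ≤ 2 ^ L →
      (C * L) ^ k / k.factorial ≤ C' * (2 : ℝ) ^ (η * L) ∧
      C ^ k ≤ C' * (2 : ℝ) ^ (η * L) := by
  have hC0 : (0 : ℝ) < C := by linarith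
  have hlog : 0 < Real.log 2 := Real.log_pos (by norm_num)
  set A : ℝ := η / 2 * Real.log 2 with hA
  have hApos : 0 < A := by positivity
  obtain ⟨C1, hC1, h1⟩ := fac_pow C η hC hη
  obtain ⟨C2, hC2, h2⟩ := fac_pow (max 1 (C / A)) (η / 2) (le_max_left _ _) (by positivity)
  refine ⟨max C1 C2, le_trans hC1 (le_max_left _ _), ?_⟩
  intro L k hk
  constructor
  · have h3 := h2 L k hk
    have h4 : (A * L) ^ k / k.factorial ≤ Real.exp (A * L) :=
      fac_pow_div (A * L) (by positivity) k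
    have h5 : (C * L) ^ k / k.factorial = (C / A) ^ k * ((A * L) ^ k / k.factorial) := by
      have : C * (L : ℝ) = (C / A) * (A * L) := by field_simp
      rw [this, mul_pow, mul_div_assoc]
    have h6 : (C / A) ^ k ≤ (max 1 (C / A)) ^ k :=
      pow_le_pow_left₀ (by positivity) (le_max_right _ _) k
    have h7 : Real.exp (A * L) = (2 : ℝ) ^ (η / 2 * L) := by
      rw [Real.rpow_def_of_pos (by norm_num : (0 : ℝ) < 2), hA]
      congr 1
      ring
    have h8 : (2 : ℝ) ^ (η / 2 * L) * (2 : ℝ) ^ (η / 2 * L) = (2 : ℝ) ^ (η * L) := by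
      rw [← Real.rpow_add (by norm_num)]
      congr 1
      ring
    rw [h5]
    calc (C / A) ^ k * ((A * L) ^ k / k.factorial)
        ≤ (C2 * (2 : ℝ) ^ (η / 2 * L)) * (2 : ℝ) ^ (η / 2 * L) := by
          apply mul_le_mul (h6.trans h3) (h7 ▸ h4) (by positivity) (by positivity)
      _ = C2 * (2 : ℝ) ^ (η * L) := by rw [mul_assoc, h8]
      _ ≤ max C1 C2 * (2 : ℝ) ^ (η * L) :=
          mul_le_mul_of_nonneg_right (le_max_right _ _) (by positivity)
  · exact (h1 L k hk).trans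
      (mul_le_mul_of_nonneg_right (le_max_left _ _) (by positivity))

theorem fac_le_prod (s : Finset ℕ) (hs : ∀ x ∈ s, 1 ≤ x) :
    s.card.factorial ≤ ∏ x ∈ s, x := by
  induction s using Finset.induction_on_max with
  | empty => simp
  | insert M s hM ih =>
    have hMs : M ∉ s := fun h => lt_irrefl _ (hM M h)
    rw [Finset.card_insert_of_notMem hMs, Finset.prod_insert hMs, Nat.factorial_succ]
    have hcard : s.card + 1 ≤ M := by
      have hsub : s ⊆ Finset.Ico 1 M := by
        intro x hx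
        rw [Finset.mem_Ico]
        exact ⟨hs x (Finset.mem_insert_of_mem hx), hM x hx⟩
      have h1 := Finset.card_le_card hsub
      rw [Nat.card_Ico] at h1
      have h2 : 1 ≤ M := hs M (Finset.mem_insert_self _ _)
      omega
    exact Nat.mul_le_mul hcard (ih (fun x hx => hs x (Finset.mem_insert_of_mem hx)))

end Pool.Agent.NV
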