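import Pool.Agent.Lib.MP_afd523_nt.Defs
import Pool.Agent.Lib.MP_afd523_nt.Parts
import Pool.Agent.Lib.MP_afd523_nt.Cnt
import Pool.Agent.Lib.MP_afd523_nt.Fac
import Pool.Agent.Lib.MP_848d44_nt.Div

namespace Pool.Agent.NV

open Finset Complex MeasureTheory

/-- elementary facts for large `q` -/
theorem RSum_large {q : ℕ} (hq : 2 ^ 300 ≤ q) :
    300 ≤ Nat.log 2 q ∧ (Nat.log 2 q : ℝ) * Real.log 2 ≤ Real.log q ∧
      Real.log q ≤ ((Nat.log 2 q : ℝ) + 1) * Real.log 2 ∧ 2 ≤ Real.log q := by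
  have hq0 : q ≠ 0 := by
    rintro rfl
    exact pow_ne_zero 300 two_ne_zero (Nat.le_zero.mp hq)
  have hM : 300 ≤ Nat.log 2 q := Nat.le_log_of_pow_le (by norm_num) hq
  have h1 : 2 ^ Nat.log 2 q ≤ q := Nat.pow_log_le_self 2 hq0
  have h2 : q < 2 ^ (Nat.log 2 q + 1) := Nat.lt_pow_succ_log_self (by norm_num) q
  have hqr : (0 : ℝ) < q := by exact_mod_cast Nat.pos_of_ne_zero hq0
  have h3 : (Nat.log 2 q : ℝ) * Real.log 2 ≤ Real.log q := by
    rw [← Real.log_pow]
    refine Real.log_le_log (by positivity) ?_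
    exact_mod_cast h1
  have h4 : Real.log q ≤ ((Nat.log 2 q : ℝ) + 1) * Real.log 2 := by
    have h5 : ((Nat.log 2 q : ℝ) + 1) * Real.log 2 = Real.log ((2 : ℝ) ^ (Nat.log 2 q + 1)) := by
      rw [Real.log_pow]
      push_cast
      ring
    rw [h5]
    refine Real.log_le_log hqr ?_
    exact_mod_cast h2.le
  refine ⟨hM, h3, h4, ?_⟩
  have h6 : (300 : ℝ) ≤ (Nat.log 2 q : ℝ) := by exact_mod_cast hM
  have h7 := Real.log_two_gt_d9
  nlinarith

/-- small height: `100 (i + 2) ≤ log_2 q` -/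
theorem RSum_height {q i N : ℕ} (hq : 2 ^ 300 ≤ q) (hi : 2 ^ i ≤ N)
    (hN : (N : ℝ) ≤ (q : ℝ) ^ kap) : 100 * (i + 2) ≤ Nat.log 2 q := by
  obtain ⟨hM, -, h4, h5⟩ := RSum_large hq
  have hqr : (0 : ℝ) < q := by
    have : 0 < q := lt_of_lt_of_le (by positivity) hq
    exact_mod_cast this
  have h1 : (i : ℝ) * Real.log 2 ≤ kap * Real.log q := by
    rw [← Real.log_pow, ← Real.log_rpow hqr]
    refine Real.log_le_log (by positivity) (le_trans ?_ hN)
    exact_mod_cast hi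
  have h2 : (i : ℝ) * Real.log 2 ≤ kap * (((Nat.log 2 q : ℝ) + 1) * Real.log 2) :=
    h1.trans (mul_le_mul_of_nonneg_left h4 (by norm_num [kap]))
  have hl : 0 < Real.log 2 := Real.log_pos (by norm_num)
  have h3 : (i : ℝ) ≤ kap * ((Nat.log 2 q : ℝ) + 1) := by
    have : (i : ℝ) * Real.log 2 ≤ (kap * ((Nat.log 2 q : ℝ) + 1)) * Real.log 2 := by
      rw [mul_assoc]; exact h2
    exact le_of_mul_le_mul_right this hl
  have h6 : (300 : ℝ) ≤ (Nat.log 2 q : ℝ) := by exact_mod_cast hM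
  have h7 : (100 : ℝ) * ((i : ℝ) + 2) ≤ (Nat.log 2 q : ℝ) := by
    unfold kap at h3
    linarith
  exact_mod_cast h7

/-- the number of elements of one class -/
theorem RSum_count {q : ℕ} [NeZero q] (hp : q.Prime) (hq : 2 ^ 300 ≤ q) (H : Subgroup (ZMod q)ˣ)
    (hH : (Nat.card H : ℝ) ≤ (q : ℝ) ^ (1 / 3 : ℝ)) (i k : ℕ) (hk : 1 ≤ k)
    (hi : 100 * (i + 2) ≤ Nat.log 2 q) :
    ((NK H i 0 k).card : ℝ) ≤ 9 ^ k * Real.log q ^ k *
      (2 : ℝ) ^ ((34 / 100 : ℝ) * ((i : ℝ) + 2)) := by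
  obtain ⟨hM, h3, h4, h5⟩ := RSum_large hq
  set M := Nat.log 2 q with hMdef
  set L := i + 2 with hL
  have hLpos : 0 < L := by omega
  set j := M / L with hj
  have hj100 : 100 ≤ j := by
    rw [hj, Nat.le_div_iff_mul_le hLpos]
    exact hi
  have hLj : L * j ≤ M := Nat.mul_div_le M L
  have hMj : M + 1 ≤ L * (j + 1) := Nat.lt_mul_div_succ M hLpos
  have hq0 : q ≠ 0 := hp.ne_zero
  have h1 : 2 ^ M ≤ q := Nat.pow_log_le_self 2 hq0
  have h2 : q < 2 ^ (M + 1) := Nat.lt_pow_succ_log_self (by norm_num) q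
  have hc := small_count hp H i 0 k j hk (by omega) (by
    have e : i + 0 + 2 = L := by omega
    rw [e]
    exact (Nat.pow_le_pow_right (by norm_num) hLj).trans h1)
  have hjr : (100 : ℝ) ≤ j := by exact_mod_cast hj100
  have hLr : (L : ℝ) = (i : ℝ) + 2 := by rw [hL]; push_cast; ring
  have hH0 : (0 : ℝ) ≤ Nat.card H := Nat.cast_nonneg _
  -- the power of the order of `H`
  have hpow : (Nat.card H : ℝ) ^ (1 / (j : ℝ)) ≤ (2 : ℝ) ^ ((34 / 100 : ℝ) * ((i : ℝ) + 2)) := by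
    have hq2 : (q : ℝ) ≤ (2 : ℝ) ^ ((L : ℝ) * (j + 1)) := by
      have h6 : q ≤ 2 ^ (L * (j + 1)) :=
        h2.le.trans (Nat.pow_le_pow_right (by norm_num) hMj)
      have h7 : (2 : ℝ) ^ ((L : ℝ) * (j + 1)) = ((2 : ℝ) ^ (L * (j + 1))) := by
        rw [← Real.rpow_natCast]
        push_cast
        rfl
      rw [h7]
      exact_mod_cast h6
    have hj0 : (0 : ℝ) < j := by linarith
    calc (Nat.card H : ℝ) ^ (1 / (j : ℝ)) ≤ ((q : ℝ) ^ (1 / 3 : ℝ)) ^ (1 / (j : ℝ)) :=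
          Real.rpow_le_rpow hH0 hH (by positivity)
      _ = (q : ℝ) ^ (1 / 3 * (1 / (j : ℝ))) := by rw [← Real.rpow_mul (Nat.cast_nonneg _)]
      _ ≤ ((2 : ℝ) ^ ((L : ℝ) * (j + 1))) ^ (1 / 3 * (1 / (j : ℝ))) :=
          Real.rpow_le_rpow (Nat.cast_nonneg _) hq2 (by positivity)
      _ = (2 : ℝ) ^ ((L : ℝ) * (j + 1) * (1 / 3 * (1 / (j : ℝ)))) := by
          rw [← Real.rpow_mul (by norm_num)]
      _ ≤ (2 : ℝ) ^ ((34 / 100 : ℝ) * ((i : ℝ) + 2)) := by
          refine Real.rpow_le_rpow_of_exponent_le (by norm_num) ?_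
          rw [← hLr]
          have h8 : (L : ℝ) * (j + 1) * (1 / 3 * (1 / (j : ℝ))) =
              L * ((j + 1) / (3 * j)) := by
            field_simp
          rw [h8]
          have h9 : ((j : ℝ) + 1) / (3 * j) ≤ 34 / 100 := by
            rw [div_le_div_iff₀ (by positivity) (by norm_num)]
            linarith
          have hL0 : (0 : ℝ) ≤ L := Nat.cast_nonneg _
          nlinarith
  have hbase : (6 * (j : ℝ) * ((i : ℝ) + ((0 : ℕ) : ℝ) + 2)) ≤ 9 * Real.log q := by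
    have h6 : (L : ℝ) * j ≤ M := by exact_mod_cast hLj
    have h7 := Real.log_two_gt_d9
    have h8 : (0 : ℝ) ≤ M := Nat.cast_nonneg _
    have h9 : (6 * (j : ℝ) * ((i : ℝ) + ((0 : ℕ) : ℝ) + 2)) = 6 * (L * j) := by
      rw [hLr]; push_cast; ring
    rw [h9]
    nlinarith
  have hbase0 : 0 ≤ (6 * (j : ℝ) * ((i : ℝ) + ((0 : ℕ) : ℝ) + 2)) := by positivity
  have hfac : (1 : ℝ) ≤ (k.factorial : ℝ) := by
    exact_mod_cast Nat.one_le_iff_ne_zero.mpr k.factorial_ne_zero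
  refine hc.trans ?_
  have h10 : (6 * (j : ℝ) * ((i : ℝ) + ((0 : ℕ) : ℝ) + 2)) ^ k / k.factorial ≤
      9 ^ k * Real.log q ^ k := by
    refine (div_le_self (by positivity) hfac).trans ?_
    rw [← mul_pow]
    exact pow_le_pow_left₀ hbase0 hbase k
  exact mul_le_mul h10 hpow (Real.rpow_nonneg hH0 _) (by positivity)

/-- facts on a rough integer -/
theorem RSum_rough {q N i : ℕ} (hq : 2 ^ 300 ≤ q) (hN1 : 1 < N) (hro : ro (ww q) N = N)
    (hi2 : N < 2 ^ (i + 1)) :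
    1 ≤ N.primeFactors.card ∧ N.primeFactors.card.factorial ≤ 2 ^ (i + 2) ∧
      Real.log q ^ (300 * N.primeFactors.card) ≤ (2 : ℝ) ^ (i + 2) ∧
      N.primeFactors.card ≤ i + 2 := by
  obtain ⟨hM, h3, h4, h5⟩ := RSum_large hq
  have hN0 : N ≠ 0 := by omega
  have hprod : ∏ p ∈ N.primeFactors, p ≤ N :=
    Nat.le_of_dvd (by omega) (Nat.prod_primeFactors_dvd N)
  have hlt : N < 2 ^ (i + 2) := hi2.trans_le (Nat.pow_le_pow_right (by norm_num) (by omega))
  have h1 : 1 ≤ N.primeFactors.card := by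
    rw [Nat.one_le_iff_ne_zero, Finset.card_ne_zero]
    exact Nat.nonempty_primeFactors.mpr hN1
  have h2 : N.primeFactors.card.factorial ≤ 2 ^ (i + 2) := by
    refine (fac_le_prod N.primeFactors fun p hp => ?_).trans (hprod.trans hlt.le)
    exact (Nat.prime_of_mem_primeFactors hp).one_lt.le
  have h6 : Real.log q ^ (300 * N.primeFactors.card) ≤ (2 : ℝ) ^ (i + 2) := by
    have h7 : ∀ p ∈ N.primeFactors, Real.log q ^ 300 ≤ (p : ℝ) := by
      intro p hp
      have h8 : ww q < p := (ro_eq_self_iff (ww q) hN0).mp hro p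
        (Nat.prime_of_mem_primeFactors hp) (Nat.dvd_of_mem_primeFactors hp)
      exact (Nat.lt_of_floor_lt h8).le
    calc Real.log q ^ (300 * N.primeFactors.card)
        = ∏ _p ∈ N.primeFactors, Real.log q ^ 300 := by rw [prod_const, pow_mul]
      _ ≤ ∏ p ∈ N.primeFactors, (p : ℝ) := prod_le_prod (fun _ _ => by positivity) h7
      _ = ((∏ p ∈ N.primeFactors, p : ℕ) : ℝ) := by rw [Nat.cast_prod]
      _ ≤ ((2 ^ (i + 2) : ℕ) : ℝ) := Nat.cast_le.mpr (hprod.trans hlt.le)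
      _ = (2 : ℝ) ^ (i + 2) := by rw [Nat.cast_pow, Nat.cast_ofNat]
  refine ⟨h1, h2, h6, ?_⟩
  have h9 : (2 : ℝ) ^ N.primeFactors.card ≤ (2 : ℝ) ^ (i + 2) := by
    refine le_trans ?_ h6
    calc (2 : ℝ) ^ N.primeFactors.card ≤ Real.log q ^ N.primeFactors.card :=
          pow_le_pow_left₀ (by norm_num) h5 _
      _ ≤ Real.log q ^ (300 * N.primeFactors.card) :=
          pow_le_pow_right₀ (by linarith) (by omega)
  exact (pow_le_pow_iff_right₀ (by norm_num : (1 : ℝ) < 2)).mp h9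

theorem rough_sum :
    ∃ C' : ℝ, ∃ q₀ : ℕ, ∀ (q : ℕ) [NeZero q] (H : Subgroup (ZMod q)ˣ),
      q.Prime → q₀ ≤ q → (Nat.card H : ℝ) ≤ (q : ℝ) ^ (1 / 3 : ℝ) →
      ∑ N ∈ (HN H q).filter (fun N : ℕ => (N : ℝ) ≤ (q : ℝ) ^ kap ∧ 1 < N ∧ ro (ww q) N = N),
        (N.divisors.card : ℝ) / Real.sqrt N ≤ C' / Real.log q := by
  classical
  obtain ⟨C1, hC1, hfac⟩ := fac_bound 9 (1 / 100) (by norm_num) (by norm_num)
  obtain ⟨C2, hC2, hdiv⟩ := M848.divisor_bound (1 / 100) (by norm_num)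
  set r : ℝ := (2 : ℝ) ^ (-(1 / 15) : ℝ) with hr
  have hr0 : 0 < r := by positivity
  have hr1 : r < 1 := Real.rpow_lt_one_of_one_lt_of_neg (by norm_num) (by norm_num)
  have hsum : Summable (fun t : ℕ × ℕ => r ^ t.1 * r ^ t.2) :=
    (summable_geometric_of_lt_one hr0.le hr1).mul_of_nonneg
      (summable_geometric_of_lt_one hr0.le hr1) (fun _ => by positivity) (fun _ => by positivity)
  refine ⟨2 * C1 * C2 * ∑' t : ℕ × ℕ, r ^ t.1 * r ^ t.2, 2 ^ 300, ?_⟩
  intro q _ H hp hq hH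
  obtain ⟨hM, h3, h4, h5⟩ := RSum_large hq
  have hL0 : 0 < Real.log q := by linarith
  set S := (HN H q).filter (fun N : ℕ => (N : ℝ) ≤ (q : ℝ) ^ kap ∧ 1 < N ∧ ro (ww q) N = N)
    with hS
  set g : ℕ → ℕ × ℕ := fun N => (Nat.log 2 N, N.primeFactors.card) with hg
  rw [← Finset.sum_fiberwise_of_maps_to (s := S) (t := S.image g) (g := g)
    (fun N hN => mem_image_of_mem g hN)]
  have hclass : ∀ t ∈ S.image g, ∑ N ∈ S.filter (fun N => g N = t),
      (N.divisors.card : ℝ) / Real.sqrt N ≤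
        2 * C1 * C2 / Real.log q * (r ^ t.1 * r ^ t.2) := by
    rintro ⟨i, k⟩ ht
    obtain ⟨N0, hN0, hgN0⟩ := mem_image.mp ht
    -- facts on all elements of the class
    have hel : ∀ N ∈ S, g N = (i, k) → 2 ^ i ≤ N ∧ N < 2 ^ (i + 1) ∧ N.primeFactors.card = k ∧
        RH H N 1 ∧ (N : ℝ) ≤ (q : ℝ) ^ kap ∧ 1 < N ∧ ro (ww q) N = N := by
      intro N hN hgN
      rw [hS, mem_filter] at hN
      obtain ⟨hN1, hN2, hN3, hN4⟩ := hN
      have h6 : Nat.log 2 N = i := congrArg Prod.fst hgN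
      have h7 : N.primeFactors.card = k := congrArg Prod.snd hgN
      refine ⟨?_, ?_, h7, ?_, hN2, hN3, hN4⟩
      · rw [← h6]; exact Nat.pow_log_le_self 2 (by omega)
      · rw [← h6]; exact Nat.lt_pow_succ_log_self (by norm_num) N
      · unfold HN at hN1
        exact (mem_filter.mp hN1).2
    obtain ⟨a1, a2, a3, a4, a5, a6, a7⟩ := hel N0 hN0 hgN0
    obtain ⟨b1, b2, b3, b4⟩ := RSum_rough hq a6 a7 a2
    rw [a3] at b1 b2 b3 b4
    have hheight := RSum_height hq a1 a5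
    have hcount := RSum_count hp hq H hH i k b1 hheight
    -- the class embeds
    have hcard : ((S.filter (fun N => g N = (i, k))).card : ℝ) ≤ ((NK H i 0 k).card : ℝ) := by
      refine Nat.cast_le.mpr (card_le_card_of_injOn (fun N => (N, 1)) ?_ ?_)
      · intro N hN
        rw [mem_coe, mem_filter] at hN
        obtain ⟨c1, c2, c3, c4, c5, c6, c7⟩ := hel N hN.1 hN.2
        rw [mem_coe]
        unfold NK NB
        rw [mem_filter, mem_filter, mem_product, mem_Ico, mem_Ico]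
        refine ⟨⟨⟨⟨c1, ?_⟩, by norm_num⟩, Nat.coprime_one_right N, c4⟩, ?_⟩
        · rw [pow_succ] at c2
          simp only
          omega
        · simp [c3]
      · intro N _ N' _ hNN
        exact congrArg Prod.fst hNN
    set u : ℝ := (2 : ℝ) ^ (((i : ℝ) + 2) / 300) with hu
    have hu0 : 0 < u := by positivity
    have hun : ∀ n : ℕ, u ^ n = (2 : ℝ) ^ ((n : ℝ) * (((i : ℝ) + 2) / 300)) := by
      intro n
      rw [hu, ← Real.rpow_natCast, ← Real.rpow_mul (by norm_num), mul_comm]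
    have hu300 : u ^ 300 = (2 : ℝ) ^ (i + 2) := by
      rw [hun, ← Real.rpow_natCast]
      congr 1
      push_cast
      ring
    have hLk : Real.log q ^ k ≤ u := by
      have h6 : (Real.log q ^ k) ^ 300 ≤ u ^ 300 := by
        rw [hu300, ← pow_mul, mul_comm k 300]
        exact b3
      exact (pow_le_pow_iff_left₀ (by positivity) hu0.le (by norm_num)).mp h6
    have hLu : Real.log q ≤ u := by
      refine le_trans ?_ hLk
      exact le_self_pow₀ (by linarith) (by omega)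
    have h9k : (9 : ℝ) ^ k ≤ C1 * u ^ 3 := by
      have h6 := (hfac (i + 2) k b2).2
      have h7 : (2 : ℝ) ^ ((1 / 100 : ℝ) * ((i + 2 : ℕ) : ℝ)) = u ^ 3 := by
        rw [hun]
        congr 1
        push_cast
        ring
      rwa [h7] at h6
    have h34 : (2 : ℝ) ^ ((34 / 100 : ℝ) * ((i : ℝ) + 2)) = u ^ 102 := by
      rw [hun]
      congr 1
      push_cast
      ring
    have hcard2 : ((S.filter (fun N => g N = (i, k))).card : ℝ) ≤ C1 * u ^ 106 := by
      refine hcard.trans (hcount.trans ?_)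
      rw [h34]
      calc 9 ^ k * Real.log q ^ k * u ^ 102 ≤ (C1 * u ^ 3) * u * u ^ 102 := by gcongr
        _ = C1 * u ^ 106 := by ring
    have hterm : ∀ N ∈ S.filter (fun N => g N = (i, k)),
        (N.divisors.card : ℝ) / Real.sqrt N ≤ 2 * C2 * u ^ 3 / u ^ 150 := by
      intro N hN
      rw [mem_filter] at hN
      obtain ⟨c1, c2, c3, c4, c5, c6, c7⟩ := hel N hN.1 hN.2
      have hNr : (0 : ℝ) < N := by
        have : 0 < N := by omega
        exact_mod_cast this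
      have d1 : (N.divisors.card : ℝ) ≤ C2 * u ^ 3 := by
        refine (hdiv N (by omega)).trans ?_
        have h6 : (N : ℝ) ≤ (2 : ℝ) ^ ((i : ℝ) + 2) := by
          have h7 : (2 : ℝ) ^ ((i : ℝ) + 2) = ((2 : ℝ) ^ (i + 2)) := by
            rw [← Real.rpow_natCast]
            push_cast
            rfl
          rw [h7]
          have h8 : N ≤ 2 ^ (i + 2) :=
            c2.le.trans (Nat.pow_le_pow_right (by norm_num) (by omega))
          exact_mod_cast h8
        have h7 : (N : ℝ) ^ (1 / 100 : ℝ) ≤ u ^ 3 := by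
          refine (Real.rpow_le_rpow hNr.le h6 (by norm_num)).trans (le_of_eq ?_)
          rw [hun, ← Real.rpow_mul (by norm_num)]
          congr 1
          push_cast
          ring
        exact mul_le_mul_of_nonneg_left h7 (by linarith)
      have d2 : u ^ 150 / 2 ≤ Real.sqrt N := by
        refine Real.le_sqrt_of_sq_le ?_
        have h6 : (u ^ 150 / 2) ^ 2 = (2 : ℝ) ^ i := by
          rw [div_pow, ← pow_mul, hu300, pow_add]
          norm_num
        rw [h6]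
        exact_mod_cast c1
      have d3 : 0 < u ^ 150 / 2 := by positivity
      calc (N.divisors.card : ℝ) / Real.sqrt N ≤ (C2 * u ^ 3) / (u ^ 150 / 2) :=
            div_le_div₀ (by positivity) d1 d3 d2
        _ = 2 * C2 * u ^ 3 / u ^ 150 := by field_simp
    have hrL : u ^ 20 * r ^ (i + 2) = 1 := by
      rw [hun, hr, ← Real.rpow_natCast, ← Real.rpow_mul (by norm_num),
        ← Real.rpow_add (by norm_num)]
      have : ((20 : ℕ) : ℝ) * (((i : ℝ) + 2) / 300) + -(1 / 15) * ((i + 2 : ℕ) : ℝ) = 0 := by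
        push_cast
        ring
      rw [this, Real.rpow_zero]
    have hr40 : 1 / u ^ 40 ≤ r ^ i * r ^ k := by
      have h6 : 1 / u ^ 40 = r ^ (i + 2) * r ^ (i + 2) := by
        rw [div_eq_iff (by positivity)]
        have h7 : r ^ (i + 2) * r ^ (i + 2) * u ^ 40 =
            (u ^ 20 * r ^ (i + 2)) * (u ^ 20 * r ^ (i + 2)) := by ring
        rw [h7, hrL, one_mul]
      rw [h6]
      exact mul_le_mul (pow_le_pow_of_le_one hr0.le hr1.le (by omega))
        (pow_le_pow_of_le_one hr0.le hr1.le b4) (by positivity) (by positivity)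
    calc ∑ N ∈ S.filter (fun N => g N = (i, k)), (N.divisors.card : ℝ) / Real.sqrt N
        ≤ (S.filter (fun N => g N = (i, k))).card • (2 * C2 * u ^ 3 / u ^ 150) :=
          sum_le_card_nsmul _ _ _ hterm
      _ = ((S.filter (fun N => g N = (i, k))).card : ℝ) * (2 * C2 * u ^ 3 / u ^ 150) := by
          rw [nsmul_eq_mul]
      _ ≤ (C1 * u ^ 106) * (2 * C2 * u ^ 3 / u ^ 150) :=
          mul_le_mul_of_nonneg_right hcard2 (by positivity)
      _ = 2 * C1 * C2 * (1 / u) * (1 / u ^ 40) := by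
          field_simp
      _ ≤ 2 * C1 * C2 * (1 / Real.log q) * (r ^ i * r ^ k) := by
          gcongr
      _ = 2 * C1 * C2 / Real.log q * (r ^ i * r ^ k) := by ring
  refine (sum_le_sum hclass).trans ?_
  rw [← mul_sum]
  have h6 : ∑ t ∈ S.image g, r ^ t.1 * r ^ t.2 ≤ ∑' t : ℕ × ℕ, r ^ t.1 * r ^ t.2 :=
    hsum.sum_le_tsum _ (fun _ _ => by positivity)
  calc 2 * C1 * C2 / Real.log q * ∑ t ∈ S.image g, r ^ t.1 * r ^ t.2
      ≤ 2 * C1 * C2 / Real.log q * ∑' t : ℕ × ℕ, r ^ t.1 * r ^ t.2 := by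
        gcongr
    _ = 2 * C1 * C2 * (∑' t : ℕ × ℕ, r ^ t.1 * r ^ t.2) / Real.log q := by ring

end Pool.Agent.NV
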