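import Pool.Agent.Lib.MP_afd523_nt.Defs
import Pool.Agent.Lib.MP_afd523_nt.Parts
import Pool.Agent.Lib.MP_afd523_nt.Orth
import Pool.Agent.Lib.MP_afd523_nt.BigSum
import Pool.Agent.Lib.MP_afd523_nt.RSum
import Pool.Agent.Lib.MP_afd523_nt.Cut
import Pool.Agent.Lib.MP_afd523_nt.Afe

/-!
MP_afd523_nt, module First: the mollified first moment over a coset.
-/

namespace Pool.Agent.NV

open Finset Complex MeasureTheory


/-! ### elementary lemmas -/

theorem First_PP_nonneg (q m : ℕ) : 0 ≤ PP q m := le_max_left _ _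

theorem First_yy_one {q : ℕ} (hq : 1 ≤ q) : 1 ≤ yy q := by
  unfold yy
  exact Real.one_le_rpow (by exact_mod_cast hq) (by norm_num)

theorem First_PP_le {q : ℕ} (hq : 1 ≤ q) (m : ℕ) : PP q m ≤ 1 := by
  unfold PP
  refine max_le zero_le_one ?_
  have h1 : 0 ≤ Real.log m := Real.log_natCast_nonneg m
  have h2 : 0 ≤ Real.log (yy q) := Real.log_nonneg (First_yy_one hq)
  have := div_nonneg h1 h2
  linarith

theorem First_moebius_abs (m : ℕ) : |(ArithmeticFunction.moebius m : ℝ)| ≤ 1 := by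
  have h := ArithmeticFunction.abs_moebius_le_one (n := m)
  have h2 : ((|ArithmeticFunction.moebius m| : ℤ) : ℝ) ≤ ((1 : ℤ) : ℝ) := by exact_mod_cast h
  simpa using h2

theorem First_lamf_abs {q : ℕ} (hq : 1 ≤ q) (m : ℕ) : |lamf q m| ≤ 1 := by
  unfold lamf
  rw [abs_mul, abs_of_nonneg (First_PP_nonneg _ _)]
  have h1 := First_moebius_abs m
  have h2 := First_PP_le hq (ro (ww q) m)
  have h3 := First_PP_nonneg q (ro (ww q) m)
  calc |(ArithmeticFunction.moebius m : ℝ)| * PP q (ro (ww q) m) ≤ 1 * 1 :=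
        mul_le_mul h1 h2 h3 zero_le_one
    _ = 1 := one_mul 1

theorem First_lamq_abs {q : ℕ} (hq : 1 ≤ q) (m : ℕ) : |lamq q m| ≤ 1 := by
  unfold lamq
  split_ifs
  · exact First_lamf_abs hq m
  · simp

theorem First_inv_sqrt_le {m : ℕ} (hm : 1 ≤ m) : 1 / Real.sqrt m ≤ 1 := by
  have : 1 ≤ Real.sqrt m := by
    rw [Real.one_le_sqrt]
    exact_mod_cast hm
  rw [div_le_one (by linarith)]
  exact this

theorem First_char_norm {q : ℕ} (χ : DirichletCharacter ℂ q) (a : ZMod q) : ‖χ a‖ ≤ 1 :=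
  DirichletCharacter.norm_le_one χ a

theorem First_yy_sq {q : ℕ} (hq : 1 ≤ q) : yy q ^ 2 = (q : ℝ) ^ (2 / 100 : ℝ) := by
  unfold yy
  rw [← Real.rpow_natCast, ← Real.rpow_mul (by positivity)]
  norm_num

/-- crude bound for the mollifier -/
theorem First_mol_norm {q : ℕ} (hq : 1 ≤ q) (χ : DirichletCharacter ℂ q) :
    ‖mol q χ‖ ≤ (q : ℝ) ^ (2 / 100 : ℝ) := by
  unfold mol
  calc ‖∑ m ∈ Icc 1 ⌊yy q ^ 2⌋₊, (lamq q m : ℂ) * χ (m : ZMod q) / (Real.sqrt m : ℂ)‖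
      ≤ ∑ m ∈ Icc 1 ⌊yy q ^ 2⌋₊, (1 : ℝ) := by
        refine norm_sum_le_of_le _ fun m hm => ?_
        have hm1 : 1 ≤ m := (mem_Icc.mp hm).1
        rw [norm_div, norm_mul, Complex.norm_real, Complex.norm_real, Real.norm_eq_abs,
          Real.norm_eq_abs, abs_of_nonneg (Real.sqrt_nonneg _)]
        have h1 := First_lamq_abs hq m
        have h2 := First_char_norm χ (m : ZMod q)
        have h3 := First_inv_sqrt_le hm1
        have h4 : |lamq q m| * ‖χ (m : ZMod q)‖ ≤ 1 := by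
          calc _ ≤ (1 : ℝ) * 1 := mul_le_mul h1 h2 (norm_nonneg _) zero_le_one
            _ = 1 := one_mul 1
        calc |lamq q m| * ‖χ (m : ZMod q)‖ / Real.sqrt m
            = (|lamq q m| * ‖χ (m : ZMod q)‖) * (1 / Real.sqrt m) := by ring
          _ ≤ 1 * 1 := mul_le_mul h4 h3 (by positivity) zero_le_one
          _ = 1 := one_mul 1
    _ = (⌊yy q ^ 2⌋₊ : ℝ) := by simp
    _ ≤ yy q ^ 2 := Nat.floor_le (by positivity)
    _ = (q : ℝ) ^ (2 / 100 : ℝ) := First_yy_sq hq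

theorem First_sum_inv_sqrt (X : ℕ) : ∑ n ∈ Icc 1 X, 1 / Real.sqrt n ≤ 2 * Real.sqrt X := by
  induction X with
  | zero => simp
  | succ X ih =>
    rw [Finset.sum_Icc_succ_top (by omega)]
    have h1 : 0 ≤ Real.sqrt X := Real.sqrt_nonneg _
    have h2 : 0 < Real.sqrt ((X + 1 : ℕ) : ℝ) := Real.sqrt_pos.mpr (by positivity)
    have h3 : Real.sqrt X ^ 2 = X := Real.sq_sqrt (by positivity)
    have h4 : Real.sqrt ((X + 1 : ℕ) : ℝ) ^ 2 = X + 1 := by
      rw [Real.sq_sqrt (by positivity)]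
      push_cast
      ring
    have h5 : 1 / Real.sqrt ((X + 1 : ℕ) : ℝ) ≤
        2 * Real.sqrt ((X + 1 : ℕ) : ℝ) - 2 * Real.sqrt X := by
      rw [div_le_iff₀ h2]
      nlinarith [sq_nonneg (Real.sqrt ((X + 1 : ℕ) : ℝ) - Real.sqrt X)]
    linarith

/-- Markov -/
theorem First_markov {ν : Measure ℝ} {C : ℝ} (hν : Cut ν C) (x : ℝ) (hx : 0 < x) :
    ν.real (Set.Ioi x) ≤ (∫ r, r ^ 302 ∂ν) / x ^ 302 := by
  have := hν.prob
  have h := mul_meas_ge_le_integral_of_nonneg (μ := ν) (f := fun r : ℝ => r ^ 302)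
    (Filter.Eventually.of_forall fun r => Even.pow_nonneg (by decide) r) (hν.mom 302) (x ^ 302)
  have h2 : ν.real (Set.Ioi x) ≤ ν.real {r : ℝ | x ^ 302 ≤ r ^ 302} := by
    refine measureReal_mono (fun r hr => ?_)
    exact pow_le_pow_left₀ hx.le (le_of_lt hr) 302
  rw [le_div_iff₀ (by positivity), mul_comm]
  exact le_trans (mul_le_mul_of_nonneg_left h2 (by positivity)) h

/-- tails of series with a bound `b / n ^ 2` -/
theorem First_tail (f : ℕ → ℂ) (X : ℕ) (a b : ℝ) (hb : 0 ≤ b) (h0 : f 0 = 0)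
    (h1 : ∀ n, 1 ≤ n → ‖f n‖ ≤ a / (n : ℝ) ^ 2)
    (h2 : ∀ n, X < n → ‖f n‖ ≤ b / (n : ℝ) ^ 2) :
    ‖∑' n, f n - ∑ n ∈ Icc 1 X, f n‖ ≤ 2 * b := by
  have hz := hasSum_zeta_two
  have hsf : Summable f := by
    refine Summable.of_norm_bounded (g := fun n : ℕ => |a| * (1 / (n : ℝ) ^ 2))
      (hz.summable.mul_left _) (fun n => ?_)
    rcases Nat.eq_zero_or_pos n with rfl | hn
    · simp [h0]
    · refine (h1 n hn).trans ?_
      rw [div_eq_mul_one_div]
      exact mul_le_mul_of_nonneg_right (le_abs_self a) (by positivity)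
  have hfin : HasSum (fun n => if n ∈ Icc 1 X then f n else 0) (∑ n ∈ Icc 1 X, f n) := by
    have h : HasSum (fun n => if n ∈ Icc 1 X then f n else 0)
        (∑ n ∈ Icc 1 X, if n ∈ Icc 1 X then f n else 0) :=
      hasSum_sum_of_ne_finset_zero (fun n hn => by simp only [hn, if_false])
    have e : (∑ n ∈ Icc 1 X, if n ∈ Icc 1 X then f n else 0) = ∑ n ∈ Icc 1 X, f n :=
      Finset.sum_congr rfl (fun n hn => by simp only [hn, if_true])
    rwa [e] at h
  have hsub := (hsf.hasSum.sub hfin)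
  rw [← hsub.tsum_eq]
  have hpi : Real.pi ^ 2 / 6 ≤ 2 := by
    have h3 := Real.pi_lt_d2
    have h0 := Real.pi_pos
    nlinarith
  refine (tsum_of_norm_bounded (hz.mul_left b) (fun n => ?_)).trans ?_
  · rcases Nat.eq_zero_or_pos n with rfl | hn
    · simp [h0]
    · by_cases hX : n ∈ Icc 1 X
      · simp only [hX, if_true, sub_self, norm_zero]
        positivity
      · simp only [hX, if_false, sub_zero]
        rw [← div_eq_mul_one_div]
        refine h2 n ?_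
        rw [mem_Icc] at hX
        omega
  · nlinarith

/-- convolution of two finite sums -/
theorem First_conv (X Y : ℕ) (a b : ℕ → ℂ) (χ : ℕ → ℂ)
    (hχ : ∀ m n, χ (m * n) = χ m * χ n) :
    (∑ n ∈ Icc 1 X, a n * χ n / (Real.sqrt n : ℂ)) *
      (∑ m ∈ Icc 1 Y, b m * χ m / (Real.sqrt m : ℂ)) =
    ∑ N ∈ Icc 1 (X * Y), ((∑ m ∈ N.divisors.filter (fun m => m ≤ Y ∧ N / m ≤ X),
      b m * a (N / m)) / (Real.sqrt N : ℂ)) * χ N := by
  rw [Finset.sum_mul_sum, ← Finset.sum_product']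
  have hmap : ∀ p ∈ Icc 1 X ×ˢ Icc 1 Y, p.1 * p.2 ∈ Icc 1 (X * Y) := by
    intro p hp
    rw [mem_product, mem_Icc, mem_Icc] at hp
    rw [mem_Icc]
    exact ⟨Nat.mul_pos hp.1.1 hp.2.1, Nat.mul_le_mul hp.1.2 hp.2.2⟩
  rw [← Finset.sum_fiberwise_of_maps_to hmap]
  refine Finset.sum_congr rfl fun N hN => ?_
  rw [mem_Icc] at hN
  rw [Finset.sum_div, Finset.sum_mul]
  refine Finset.sum_bij' (fun p _ => p.2) (fun m _ => (N / m, m)) ?_ ?_ ?_ ?_ ?_
  · intro p hp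
    rw [mem_filter, mem_product, mem_Icc, mem_Icc] at hp
    obtain ⟨⟨⟨h1, h2⟩, h3, h4⟩, h5⟩ := hp
    rw [mem_filter, Nat.mem_divisors]
    refine ⟨⟨⟨p.1, by rw [← h5, mul_comm]⟩, by omega⟩, h4, ?_⟩
    rw [← h5, Nat.mul_div_cancel _ h3]
    exact h2
  · intro m hm
    rw [mem_filter, Nat.mem_divisors] at hm
    obtain ⟨⟨h1, h2⟩, h3, h4⟩ := hm
    have hm0 : 1 ≤ m := Nat.pos_of_dvd_of_pos h1 hN.1
    rw [mem_filter, mem_product, mem_Icc, mem_Icc]
    refine ⟨⟨⟨?_, h4⟩, hm0, h3⟩, Nat.div_mul_cancel h1⟩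
    exact Nat.div_pos (Nat.le_of_dvd hN.1 h1) hm0
  · intro p hp
    rw [mem_filter, mem_product, mem_Icc, mem_Icc] at hp
    obtain ⟨⟨⟨h1, h2⟩, h3, h4⟩, h5⟩ := hp
    ext
    · show N / p.2 = p.1
      rw [← h5, Nat.mul_div_cancel _ h3]
    · rfl
  · intro m hm
    rfl
  · intro p hp
    rw [mem_filter, mem_product, mem_Icc, mem_Icc] at hp
    obtain ⟨⟨⟨h1, h2⟩, h3, h4⟩, h5⟩ := hp
    have e1 : N / p.2 = p.1 := by rw [← h5, Nat.mul_div_cancel _ h3]
    have e2 : (Real.sqrt N : ℂ) = (Real.sqrt p.1 : ℂ) * (Real.sqrt p.2 : ℂ) := by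
      rw [← Complex.ofReal_mul, ← Real.sqrt_mul (by positivity), ← h5]
      push_cast
      rfl
    rw [e1, e2, ← h5, hχ]
    have s1 : (Real.sqrt p.1 : ℂ) ≠ 0 := by
      rw [Complex.ofReal_ne_zero]
      exact (Real.sqrt_pos.mpr (by exact_mod_cast h1)).ne'
    have s2 : (Real.sqrt p.2 : ℂ) ≠ 0 := by
      rw [Complex.ofReal_ne_zero]
      exact (Real.sqrt_pos.mpr (by exact_mod_cast h3)).ne'
    field_simp

theorem First_sum_mu {n : ℕ} (hn : n ≠ 1) :
    ∑ d ∈ n.divisors, ((ArithmeticFunction.moebius d : ℝ) : ℂ) = 0 := by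
  have h : (ArithmeticFunction.moebius * (ArithmeticFunction.zeta : ArithmeticFunction ℤ)) n = 0 := by
    rw [ArithmeticFunction.moebius_mul_coe_zeta, ArithmeticFunction.one_apply_ne hn]
  rw [ArithmeticFunction.coe_mul_zeta_apply] at h
  have h2 : ((∑ d ∈ n.divisors, ArithmeticFunction.moebius d : ℤ) : ℂ) = 0 := by
    rw [h]; simp
  rw [← h2]
  push_cast
  rfl

theorem First_D (q : ℕ) {N : ℕ} (hN : N ≠ 0) (hs : sm (ww q) N ≠ 1) :
    ∑ m ∈ N.divisors, (lamf q m : ℂ) = 0 := by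
  have h := divisors_split (ww q) hN (fun d => ((ArithmeticFunction.moebius d : ℝ) : ℂ))
    (fun e => ((ArithmeticFunction.moebius e : ℝ) : ℂ) * (PP q e : ℂ))
  rw [First_sum_mu hs, zero_mul] at h
  rw [← h]
  refine Finset.sum_congr rfl fun m hm => ?_
  have hm0 : m ≠ 0 := (Nat.pos_of_mem_divisors hm).ne'
  have hmu : ArithmeticFunction.moebius m =
      ArithmeticFunction.moebius (sm (ww q) m) * ArithmeticFunction.moebius (ro (ww q) m) := by
    rw [← ArithmeticFunction.isMultiplicative_moebius.map_mul_of_coprime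
      (coprime_sm_ro (ww q) m m), sm_mul_ro _ hm0]
  unfold lamf
  rw [hmu]
  push_cast
  ring

/-- the weights `V n = ν (n / T, ∞)` -/
theorem First_V_bounds {ν : Measure ℝ} {C : ℝ} (hν : Cut ν C) (x : ℝ) :
    0 ≤ ν.real (Set.Ioi x) ∧ ν.real (Set.Ioi x) ≤ 1 := by
  have := hν.prob
  exact ⟨measureReal_nonneg, measureReal_le_one⟩

theorem First_V_near {ν : Measure ℝ} {C : ℝ} (hν : Cut ν C) (x : ℝ) (h0 : 0 < x) (h1 : x ≤ 1) :
    |ν.real (Set.Ioi x) - 1| ≤ C * Real.sqrt x := by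
  have := hν.prob
  have h : ν.real (Set.Ioi x) = 1 - ν.real (Set.Iic x) := by
    rw [← probReal_compl_eq_one_sub measurableSet_Iic, Set.compl_Iic]
  have h2 := hν.ball x h0 h1
  have h3 : 0 ≤ ν.real (Set.Iic x) := measureReal_nonneg
  rw [h, abs_le]
  constructor <;> linarith

theorem First_lamf_one {q : ℕ} : lamf q 1 = 1 := by
  unfold lamf
  have h : ro (ww q) 1 = 1 := by simp [ro]
  rw [h]
  simp [PP]

/-- the coefficients -/
noncomputable def First_C (q X Y : ℕ) (V : ℕ → ℝ) (N : ℕ) : ℂ :=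
  ∑ m ∈ N.divisors.filter (fun m => m ≤ Y ∧ N / m ≤ X), (lamq q m : ℂ) * (V (N / m) : ℂ)

theorem First_C_norm {q : ℕ} (hq : 1 ≤ q) (X Y : ℕ) (V : ℕ → ℝ)
    (hV : ∀ n, 0 ≤ V n ∧ V n ≤ 1) (N : ℕ) :
    ‖First_C q X Y V N‖ ≤ (N.divisors.card : ℝ) := by
  unfold First_C
  calc ‖∑ m ∈ N.divisors.filter (fun m => m ≤ Y ∧ N / m ≤ X),
        (lamq q m : ℂ) * (V (N / m) : ℂ)‖
      ≤ ∑ m ∈ N.divisors.filter (fun m => m ≤ Y ∧ N / m ≤ X), (1 : ℝ) := by
        refine norm_sum_le_of_le _ fun m _ => ?_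
        rw [norm_mul, Complex.norm_real, Complex.norm_real, Real.norm_eq_abs, Real.norm_eq_abs,
          abs_of_nonneg (hV _).1]
        calc _ ≤ (1 : ℝ) * 1 := mul_le_mul (First_lamq_abs hq m) (hV _).2 (hV _).1 zero_le_one
          _ = 1 := one_mul 1
    _ ≤ (N.divisors.card : ℝ) := by
        rw [Finset.sum_const, nsmul_eq_mul, mul_one]
        exact_mod_cast Finset.card_filter_le _ _

/-- small `N` -/
theorem First_C_small {q : ℕ} (hq : 1 ≤ q) (X Y : ℕ) (V : ℕ → ℝ) (δ : ℝ) (N : ℕ)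
    (hNy : (N : ℝ) ≤ yy q) (hNX : N ≤ X) (hNY : N ≤ Y)
    (hV : ∀ n, 1 ≤ n → n ≤ N → |V n - 1| ≤ δ) :
    ‖First_C q X Y V N - ∑ m ∈ N.divisors, (lamf q m : ℂ)‖ ≤ (N.divisors.card : ℝ) * δ := by
  unfold First_C
  have hfil : N.divisors.filter (fun m => m ≤ Y ∧ N / m ≤ X) = N.divisors := by
    refine Finset.filter_true_of_mem fun m hm => ?_
    have h1 : m ≤ N := Nat.divisor_le hm
    exact ⟨h1.trans hNY, (Nat.div_le_self N m).trans hNX⟩
  rw [hfil, ← Finset.sum_sub_distrib]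
  calc ‖∑ m ∈ N.divisors, ((lamq q m : ℂ) * (V (N / m) : ℂ) - (lamf q m : ℂ))‖
      ≤ ∑ m ∈ N.divisors, δ := by
        refine norm_sum_le_of_le _ fun m hm => ?_
        have h1 : m ≤ N := Nat.divisor_le hm
        have hm0 : 1 ≤ m := Nat.pos_of_mem_divisors hm
        have hsm : sm (ww q) m ≤ m := by
          refine Nat.le_of_dvd hm0 ⟨ro (ww q) m, ?_⟩
          rw [sm_mul_ro _ (by omega)]
        have hl : lamq q m = lamf q m := by
          unfold lamq
          rw [if_pos]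
          calc ((sm (ww q) m : ℕ) : ℝ) ≤ (m : ℝ) := by exact_mod_cast hsm
            _ ≤ (N : ℝ) := by exact_mod_cast h1
            _ ≤ yy q := hNy
        have e : (lamq q m : ℂ) * (V (N / m) : ℂ) - (lamf q m : ℂ) =
            ((lamf q m * (V (N / m) - 1) : ℝ) : ℂ) := by
          rw [hl]
          push_cast
          ring
        rw [e, Complex.norm_real, Real.norm_eq_abs, abs_mul]
        have h2 : |V (N / m) - 1| ≤ δ :=
          hV _ (Nat.div_pos h1 hm0) (Nat.div_le_self N m)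
        calc |lamf q m| * |V (N / m) - 1| ≤ 1 * δ :=
              mul_le_mul (First_lamf_abs hq m) h2 (abs_nonneg _) zero_le_one
          _ = δ := one_mul δ
    _ = (N.divisors.card : ℝ) * δ := by rw [Finset.sum_const, nsmul_eq_mul]

theorem First_mem_HN {q : ℕ} (H : Subgroup (ZMod q)ˣ) (X N : ℕ) :
    N ∈ HN H X ↔ (1 ≤ N ∧ N ≤ X) ∧ RH H N 1 := by
  simp only [HN, mem_filter, mem_Icc]

theorem First_kap_le {q : ℕ} (hq : 1 ≤ q) : (q : ℝ) ^ kap ≤ yy q := by
  unfold yy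
  refine Real.rpow_le_rpow_of_exponent_le (by exact_mod_cast hq) ?_
  unfold kap
  norm_num

theorem First_term {N : ℕ} (hN : 1 ≤ N) (z w : ℂ) (hw : ‖w‖ ≤ 1) (t : ℝ) (hz : ‖z‖ ≤ t) :
    ‖z / (Real.sqrt N : ℂ) * w‖ ≤ t / Real.sqrt N := by
  have hs : 0 < Real.sqrt N := Real.sqrt_pos.mpr (by exact_mod_cast hN)
  rw [norm_mul, norm_div, Complex.norm_real, Real.norm_eq_abs, abs_of_pos hs]
  have h0 : 0 ≤ t / Real.sqrt N := div_nonneg ((norm_nonneg _).trans hz) hs.le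
  calc ‖z‖ / Real.sqrt N * ‖w‖ ≤ t / Real.sqrt N * 1 :=
        mul_le_mul (div_le_div_of_nonneg_right hz hs.le) hw (norm_nonneg _) h0
    _ = t / Real.sqrt N := mul_one _

/-- the sum over `N` in `H` -/
theorem First_main {q : ℕ} [NeZero q] (hq : 1 ≤ q) (H : Subgroup (ZMod q)ˣ)
    (ψ : DirichletCharacter ℂ q) (X Y : ℕ) (V : ℕ → ℝ) (hV : ∀ n, 0 ≤ V n ∧ V n ≤ 1)
    (δ R B : ℝ) (hδ : 0 ≤ δ)
    (hX : (q : ℝ) ^ kap ≤ X) (hY : (q : ℝ) ^ kap ≤ Y)
    (hVn : ∀ n : ℕ, 1 ≤ n → (n : ℝ) ≤ (q : ℝ) ^ kap → |V n - 1| ≤ δ)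
    (hbig : ∑ N ∈ (HN H (X * Y)).filter (fun N : ℕ => (q : ℝ) ^ kap < (N : ℝ)),
          (N.divisors.card : ℝ) / Real.sqrt N ≤ B)
    (hrough : ∑ N ∈ (HN H q).filter
        (fun N : ℕ => (N : ℝ) ≤ (q : ℝ) ^ kap ∧ 1 < N ∧ ro (ww q) N = N),
        (N.divisors.card : ℝ) / Real.sqrt N ≤ R) :
    ‖∑ N ∈ HN H (X * Y), (First_C q X Y V N / (Real.sqrt N : ℂ)) * ψ (N : ZMod q) - 1‖ ≤
      B + R + δ * ((q : ℝ) ^ kap * (q : ℝ) ^ kap) := by
  have hq1 : (1 : ℝ) ≤ q := by exact_mod_cast hq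
  have hk1 : (1 : ℝ) ≤ (q : ℝ) ^ kap := Real.one_le_rpow hq1 (by unfold kap; norm_num)
  have hkq : (q : ℝ) ^ kap ≤ q := by
    calc (q : ℝ) ^ kap ≤ (q : ℝ) ^ (1 : ℝ) :=
          Real.rpow_le_rpow_of_exponent_le hq1 (by unfold kap; norm_num)
      _ = q := Real.rpow_one _
  have hX1 : 1 ≤ X := by
    have : (1 : ℝ) ≤ X := hk1.trans hX
    exact_mod_cast this
  have hY1 : 1 ≤ Y := by
    have : (1 : ℝ) ≤ Y := hk1.trans hY
    exact_mod_cast this
  set f : ℕ → ℂ := fun N => (First_C q X Y V N / (Real.sqrt N : ℂ)) * ψ (N : ZMod q) with hf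
  set D : ℕ → ℂ := fun N => ∑ m ∈ N.divisors, (lamf q m : ℂ) with hD
  set S := HN H (X * Y) with hS
  set sm1 := S.filter (fun N : ℕ => ¬ (q : ℝ) ^ kap < (N : ℝ)) with hsm1
  have hmem : ∀ N ∈ sm1, 1 ≤ N ∧ (N : ℝ) ≤ (q : ℝ) ^ kap ∧ RH H N 1 := by
    intro N hN
    rw [hsm1, mem_filter, hS, First_mem_HN] at hN
    exact ⟨hN.1.1.1, not_lt.mp hN.2, hN.1.2⟩
  have h1mem : 1 ∈ sm1 := by
    rw [hsm1, mem_filter, hS, First_mem_HN]
    refine ⟨⟨⟨le_refl _, Nat.mul_pos hX1 hY1⟩, 1, H.one_mem, ?_⟩, ?_⟩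
    · simp
    · rw [not_lt]
      exact_mod_cast hk1
  have hsplit : ∑ N ∈ S, f N = ∑ N ∈ S.filter (fun N : ℕ => (q : ℝ) ^ kap < (N : ℝ)), f N +
      ∑ N ∈ sm1, f N := (Finset.sum_filter_add_sum_filter_not S _ f).symm
  have hB : ‖∑ N ∈ S.filter (fun N : ℕ => (q : ℝ) ^ kap < (N : ℝ)), f N‖ ≤ B := by
    refine le_trans (norm_sum_le_of_le _ fun N hN => ?_) hbig
    rw [mem_filter, hS, First_mem_HN] at hN
    exact First_term hN.1.1.1 _ _ (First_char_norm ψ _) _ (First_C_norm hq X Y V hV N)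
  have hs1 : ∑ N ∈ sm1, f N = ∑ N ∈ sm1, ((First_C q X Y V N - D N) / (Real.sqrt N : ℂ)) *
      ψ (N : ZMod q) + ∑ N ∈ sm1, (D N / (Real.sqrt N : ℂ)) * ψ (N : ZMod q) := by
    rw [← Finset.sum_add_distrib]
    refine Finset.sum_congr rfl fun N _ => ?_
    rw [hf]
    ring
  have hs2 : ‖∑ N ∈ sm1, ((First_C q X Y V N - D N) / (Real.sqrt N : ℂ)) *
      ψ (N : ZMod q)‖ ≤ δ * ((q : ℝ) ^ kap * (q : ℝ) ^ kap) := by
    calc ‖∑ N ∈ sm1, ((First_C q X Y V N - D N) / (Real.sqrt N : ℂ)) * ψ (N : ZMod q)‖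
        ≤ ∑ N ∈ sm1, δ * (q : ℝ) ^ kap := by
          refine norm_sum_le_of_le _ fun N hN => ?_
          obtain ⟨h1, h2, _⟩ := hmem N hN
          have h3 := First_C_small hq X Y V δ N (h2.trans (First_kap_le hq))
            (by exact_mod_cast h2.trans hX) (by exact_mod_cast h2.trans hY)
            (fun n hn1 hn2 => hVn n hn1 (le_trans (by exact_mod_cast hn2) h2))
          refine (First_term h1 _ _ (First_char_norm ψ _) _ h3).trans ?_
          have h4 : (N.divisors.card : ℝ) ≤ (q : ℝ) ^ kap :=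
            le_trans (by exact_mod_cast Nat.card_divisors_le_self N) h2
          have h5 := First_inv_sqrt_le h1
          have h6 : 0 ≤ (N.divisors.card : ℝ) * δ := by positivity
          calc (N.divisors.card : ℝ) * δ / Real.sqrt N
              = (N.divisors.card : ℝ) * δ * (1 / Real.sqrt N) := by ring
            _ ≤ (N.divisors.card : ℝ) * δ * 1 := mul_le_mul_of_nonneg_left h5 h6
            _ = (N.divisors.card : ℝ) * δ := mul_one _
            _ ≤ (q : ℝ) ^ kap * δ := mul_le_mul_of_nonneg_right h4 hδ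
            _ = δ * (q : ℝ) ^ kap := mul_comm _ _
      _ = (sm1.card : ℝ) * (δ * (q : ℝ) ^ kap) := by rw [Finset.sum_const, nsmul_eq_mul]
      _ ≤ (q : ℝ) ^ kap * (δ * (q : ℝ) ^ kap) := by
          refine mul_le_mul_of_nonneg_right ?_ (by positivity)
          have hsub : sm1 ⊆ Icc 1 ⌊(q : ℝ) ^ kap⌋₊ := by
            intro N hN
            obtain ⟨h1, h2, _⟩ := hmem N hN
            rw [mem_Icc]
            exact ⟨h1, Nat.le_floor h2⟩
          have hc := Finset.card_le_card hsub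
          rw [Nat.card_Icc, Nat.add_sub_cancel] at hc
          calc (sm1.card : ℝ) ≤ (⌊(q : ℝ) ^ kap⌋₊ : ℝ) := by exact_mod_cast hc
            _ ≤ (q : ℝ) ^ kap := Nat.floor_le (by positivity)
      _ = δ * ((q : ℝ) ^ kap * (q : ℝ) ^ kap) := by ring
  have hs3 : ‖∑ N ∈ sm1, (D N / (Real.sqrt N : ℂ)) * ψ (N : ZMod q) - 1‖ ≤ R := by
    rw [← Finset.add_sum_erase sm1 _ h1mem]
    have e1 : D 1 / (Real.sqrt (1 : ℕ) : ℂ) * ψ ((1 : ℕ) : ZMod q) = 1 := by
      simp [hD, First_lamf_one]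
    rw [e1, add_sub_cancel_left]
    calc ‖∑ N ∈ sm1.erase 1, D N / (Real.sqrt N : ℂ) * ψ (N : ZMod q)‖
        ≤ ∑ N ∈ sm1.erase 1, (if ro (ww q) N = N then (N.divisors.card : ℝ) / Real.sqrt N
            else 0) := by
          refine norm_sum_le_of_le _ fun N hN => ?_
          rw [mem_erase] at hN
          obtain ⟨h1, h2, _⟩ := hmem N hN.2
          have hN0 : N ≠ 0 := by omega
          split_ifs with hr
          · refine First_term h1 _ _ (First_char_norm ψ _) _ ?_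
            rw [hD]
            calc ‖∑ m ∈ N.divisors, (lamf q m : ℂ)‖ ≤ ∑ m ∈ N.divisors, (1 : ℝ) := by
                  refine norm_sum_le_of_le _ fun m _ => ?_
                  rw [Complex.norm_real, Real.norm_eq_abs]
                  exact First_lamf_abs hq m
              _ = (N.divisors.card : ℝ) := by simp
          · have hs : sm (ww q) N ≠ 1 := by
              intro h
              apply hr
              have := sm_mul_ro (ww q) hN0
              rw [h, one_mul] at this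
              exact this
            have e2 : D N = 0 := First_D q hN0 hs
            rw [e2]
            simp
      _ = ∑ N ∈ (sm1.erase 1).filter (fun N => ro (ww q) N = N),
            (N.divisors.card : ℝ) / Real.sqrt N := (Finset.sum_filter _ _).symm
      _ ≤ ∑ N ∈ (HN H q).filter
        (fun N : ℕ => (N : ℝ) ≤ (q : ℝ) ^ kap ∧ 1 < N ∧ ro (ww q) N = N),
        (N.divisors.card : ℝ) / Real.sqrt N := by
          refine Finset.sum_le_sum_of_subset_of_nonneg ?_ (fun N _ _ => by positivity)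
          intro N hN
          rw [mem_filter, mem_erase] at hN
          obtain ⟨h1, h2, h3⟩ := hmem N hN.1.2
          rw [mem_filter, First_mem_HN]
          refine ⟨⟨⟨h1, ?_⟩, h3⟩, h2, by omega, hN.2⟩
          exact_mod_cast h2.trans hkq
      _ ≤ R := hrough
  have e3 : ∑ N ∈ S, f N - 1 = ∑ N ∈ S.filter (fun N : ℕ => (q : ℝ) ^ kap < (N : ℝ)), f N +
      (∑ N ∈ sm1, (D N / (Real.sqrt N : ℂ)) * ψ (N : ZMod q) - 1) +
      ∑ N ∈ sm1, ((First_C q X Y V N - D N) / (Real.sqrt N : ℂ)) * ψ (N : ZMod q) := by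
    rw [hsplit, hs1]
    ring
  rw [e3]
  exact (norm_add₃_le).trans (by linarith)

theorem First_term0 (n : ℕ) (v : ℝ) (w : ℂ) (hw : ‖w‖ ≤ 1) (hv : 0 ≤ v) (hn : 1 ≤ n) :
    ‖(v : ℂ) * w / (Real.sqrt n : ℂ)‖ ≤ v := by
  have hs : 0 < Real.sqrt n := Real.sqrt_pos.mpr (by exact_mod_cast hn)
  rw [norm_div, norm_mul, Complex.norm_real, Real.norm_eq_abs, abs_of_nonneg hv,
    Complex.norm_real, Real.norm_eq_abs, abs_of_pos hs]
  have h5 := First_inv_sqrt_le hn
  calc v * ‖w‖ / Real.sqrt n = v * ‖w‖ * (1 / Real.sqrt n) := by ring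
    _ ≤ v * 1 * 1 := mul_le_mul (mul_le_mul_of_nonneg_left hw hv) h5 (by positivity)
        (by positivity)
    _ = v := by ring

theorem First_q_eq {q : ℕ} : (q : ℝ) = yy q ^ 100 := by
  unfold yy
  rw [← Real.rpow_natCast, ← Real.rpow_mul (by positivity)]
  norm_num

/-- one character -/
theorem First_one {q : ℕ} [NeZero q] (hq1 : 1 ≤ q) (χ : DirichletCharacter ℂ q)
    {ν : Measure ℝ} {C0 : ℝ} (hν : Cut ν C0) (M : ℝ) (hM : ∫ r, r ^ 302 ∂ν ≤ M) (hM0 : 0 ≤ M)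
    (ε : ℂ) (hε : ‖ε‖ = 1)
    (h : ∀ T : ℝ, 0 < T → DirichletCharacter.LFunction χ (1 / 2) =
        ∑' n : ℕ, (ν.real (Set.Ioi (n / T)) : ℂ) * χ (n : ZMod q) / (Real.sqrt n : ℂ) +
        ε * ∑' n : ℕ, (ν.real (Set.Ioi (n * T / q)) : ℂ) *
          (starRingEnd ℂ) (χ (n : ZMod q)) / (Real.sqrt n : ℂ)) :
    ‖DirichletCharacter.LFunction χ (1 / 2) - ∑ n ∈ Icc 1 ⌊yy q ^ 102⌋₊,
      (ν.real (Set.Ioi (n / yy q ^ 101)) : ℂ) * χ (n : ZMod q) / (Real.sqrt n : ℂ)‖ ≤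
      4 * (M / yy q ^ 98) := by
  have hg1 : 1 ≤ yy q := First_yy_one hq1
  have hg0 : 0 < yy q := by linarith
  set g := yy q with hg
  have hqg : (q : ℝ) = g ^ 100 := First_q_eq
  have hmk : ∀ x : ℝ, 0 < x → ν.real (Set.Ioi x) ≤ M / x ^ 302 := fun x hx =>
    (First_markov hν x hx).trans (div_le_div_of_nonneg_right hM (by positivity))
  have hT : 0 < g ^ 101 := by positivity
  have hb : 0 ≤ M / g ^ 98 := by positivity
  have t1 := First_tail (fun n : ℕ => (ν.real (Set.Ioi (n / g ^ 101)) : ℂ) * χ (n : ZMod q) /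
    (Real.sqrt n : ℂ)) ⌊g ^ 102⌋₊ (M * (g ^ 101) ^ 302) (M / g ^ 98) hb (by simp)
    (by
      intro n hn
      have hn0 : (0 : ℝ) < n := by exact_mod_cast hn
      have hn1 : (1 : ℝ) ≤ n := by exact_mod_cast hn
      refine (First_term0 n _ _ (First_char_norm χ _) measureReal_nonneg hn).trans ?_
      refine (hmk _ (by positivity)).trans ?_
      rw [div_pow, div_div_eq_mul_div]
      refine div_le_div_of_nonneg_left (by positivity) (by positivity) ?_
      exact pow_le_pow_right₀ hn1 (by norm_num))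
    (by
      intro n hn
      have hn2 : g ^ 102 < n := (Nat.floor_lt (by positivity)).mp hn
      have hn0 : (0 : ℝ) < n := lt_trans (by positivity) hn2
      have hn1 : 1 ≤ n := by
        have : 0 < n := by exact_mod_cast hn0
        omega
      refine (First_term0 n _ _ (First_char_norm χ _) measureReal_nonneg hn1).trans ?_
      refine (hmk _ (by positivity)).trans ?_
      have hu : g ≤ (n : ℝ) / g ^ 101 := by
        rw [le_div_iff₀ hT]
        calc (g : ℝ) * g ^ 101 = g ^ 102 := by ring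
          _ ≤ (n : ℝ) := hn2.le
      have hu2 : g ^ 98 * (n : ℝ) ^ 2 ≤ ((n : ℝ) / g ^ 101) ^ 302 := by
        calc g ^ 98 * (n : ℝ) ^ 2 = g ^ 300 * ((n : ℝ) / g ^ 101) ^ 2 := by
              field_simp
          _ ≤ ((n : ℝ) / g ^ 101) ^ 300 * ((n : ℝ) / g ^ 101) ^ 2 :=
              mul_le_mul_of_nonneg_right (pow_le_pow_left₀ hg0.le hu 300) (by positivity)
          _ = ((n : ℝ) / g ^ 101) ^ 302 := by rw [← pow_add]
      rw [div_div]
      exact div_le_div_of_nonneg_left hM0 (by positivity) hu2)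
  have hb2 : ∀ n : ℕ, 1 ≤ n → ‖(ν.real (Set.Ioi (n * g ^ 101 / q)) : ℂ) *
      (starRingEnd ℂ) (χ (n : ZMod q)) / (Real.sqrt n : ℂ)‖ ≤ M / g ^ 98 / (n : ℝ) ^ 2 := by
    intro n hn
    have hn0 : (0 : ℝ) < n := by exact_mod_cast hn
    have hn1 : (1 : ℝ) ≤ n := by exact_mod_cast hn
    have hc : ‖(starRingEnd ℂ) (χ (n : ZMod q))‖ ≤ 1 := by
      rw [RCLike.norm_conj]
      exact First_char_norm χ _
    refine (First_term0 n _ _ hc measureReal_nonneg hn).trans ?_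
    have e : (n : ℝ) * g ^ 101 / q = n * g := by
      rw [hqg]
      field_simp
    rw [e]
    refine (hmk _ (by positivity)).trans ?_
    rw [div_div]
    refine div_le_div_of_nonneg_left hM0 (by positivity) ?_
    rw [mul_pow, mul_comm]
    exact mul_le_mul (pow_le_pow_right₀ hn1 (by norm_num)) (pow_le_pow_right₀ hg1 (by norm_num))
      (by positivity) (by positivity)
  have t2 := First_tail (fun n : ℕ => (ν.real (Set.Ioi (n * g ^ 101 / q)) : ℂ) *
    (starRingEnd ℂ) (χ (n : ZMod q)) / (Real.sqrt n : ℂ)) 0 (M / g ^ 98) (M / g ^ 98) hb (by simp)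
    hb2 (fun n hn => hb2 n hn)
  have hL := h (g ^ 101) hT
  simp only [show Icc 1 0 = (∅ : Finset ℕ) from rfl, Finset.sum_empty, sub_zero] at t2
  rw [hL, add_sub_right_comm]
  refine (norm_add_le _ _).trans ?_
  rw [norm_mul, hε, one_mul]
  calc _ ≤ 2 * (M / g ^ 98) + 2 * (M / g ^ 98) := add_le_add t1 t2
    _ = 4 * (M / g ^ 98) := by ring

theorem First_sumG {q : ℕ} [NeZero q] (hq : q.Prime) (H : Subgroup (ZMod q)ˣ)
    (ψ : DirichletCharacter ℂ q) (V : ℕ → ℝ) (X : ℕ) :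
    ∑ χ ∈ cos H ψ, (∑ n ∈ Icc 1 X, (V n : ℂ) * χ (n : ZMod q) / (Real.sqrt n : ℂ)) * mol q χ =
      (cos H ψ).card * ∑ N ∈ HN H (X * ⌊yy q ^ 2⌋₊),
        (First_C q X ⌊yy q ^ 2⌋₊ V N / (Real.sqrt N : ℂ)) * ψ (N : ZMod q) := by
  rw [← orth_sum hq H ψ (fun N => First_C q X ⌊yy q ^ 2⌋₊ V N / (Real.sqrt N : ℂ))
    (X * ⌊yy q ^ 2⌋₊)]
  refine Finset.sum_congr rfl fun χ _ => ?_
  unfold mol
  exact First_conv X ⌊yy q ^ 2⌋₊ (fun n => (V n : ℂ)) (fun m => (lamq q m : ℂ))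
    (fun n => χ (n : ZMod q)) (fun m n => by push_cast; rw [map_mul])

theorem First_G_norm {q : ℕ} (hq : 1 ≤ q) (χ : DirichletCharacter ℂ q) (V : ℕ → ℝ)
    (hV : ∀ n, 0 ≤ V n ∧ V n ≤ 1) :
    ‖(∑ n ∈ Icc 1 ⌊yy q ^ 102⌋₊, (V n : ℂ) * χ (n : ZMod q) / (Real.sqrt n : ℂ)) * mol q χ‖ ≤
      2 * yy q ^ 53 := by
  have hg1 : 1 ≤ yy q := First_yy_one hq
  have hg0 : 0 < yy q := by linarith
  have h1 : ‖mol q χ‖ ≤ yy q ^ 2 := by
    rw [First_yy_sq hq]
    exact First_mol_norm hq χ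
  have h2 : ‖∑ n ∈ Icc 1 ⌊yy q ^ 102⌋₊, (V n : ℂ) * χ (n : ZMod q) / (Real.sqrt n : ℂ)‖ ≤
      2 * yy q ^ 51 := by
    calc _ ≤ ∑ n ∈ Icc 1 ⌊yy q ^ 102⌋₊, 1 / Real.sqrt n := by
          refine norm_sum_le_of_le _ fun n hn => ?_
          have hn1 : 1 ≤ n := (mem_Icc.mp hn).1
          have hs : 0 < Real.sqrt n := Real.sqrt_pos.mpr (by exact_mod_cast hn1)
          rw [norm_div, norm_mul, Complex.norm_real, Real.norm_eq_abs, abs_of_nonneg (hV n).1,
            Complex.norm_real, Real.norm_eq_abs, abs_of_pos hs]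
          refine div_le_div_of_nonneg_right ?_ hs.le
          calc V n * ‖χ (n : ZMod q)‖ ≤ 1 * 1 :=
                mul_le_mul (hV n).2 (First_char_norm χ _) (norm_nonneg _) zero_le_one
            _ = 1 := one_mul 1
      _ ≤ 2 * Real.sqrt (⌊yy q ^ 102⌋₊ : ℕ) := First_sum_inv_sqrt _
      _ ≤ 2 * yy q ^ 51 := by
          refine mul_le_mul_of_nonneg_left ?_ (by norm_num)
          rw [Real.sqrt_le_left (by positivity)]
          calc ((⌊yy q ^ 102⌋₊ : ℕ) : ℝ) ≤ yy q ^ 102 := Nat.floor_le (by positivity)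
            _ = (yy q ^ 51) ^ 2 := by ring
  rw [norm_mul]
  calc _ ≤ 2 * yy q ^ 51 * yy q ^ 2 := mul_le_mul h2 h1 (norm_nonneg _) (by positivity)
    _ = 2 * yy q ^ 53 := by ring

theorem First_tendsto_yy : Filter.Tendsto (fun q : ℕ => yy q) Filter.atTop Filter.atTop :=
  (tendsto_rpow_atTop (by norm_num : (0 : ℝ) < 1 / 100)).comp tendsto_natCast_atTop_atTop

theorem First_cos_neg {q : ℕ} [NeZero q] {H : Subgroup (ZMod q)ˣ} {ψ χ : DirichletCharacter ℂ q}
    (hneg : (-1 : (ZMod q)ˣ) ∈ H) (hχ : χ ∈ cos H ψ) : χ (-1) = ψ (-1) := by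
  simp only [cos, mem_filter] at hχ
  have := hχ.2 (-1) hneg
  simpa using this

theorem first (ε : ℝ) (hε : 0 < ε) : ∃ q₀ : ℕ,
    ∀ (q : ℕ) [NeZero q] (H : Subgroup (ZMod q)ˣ) (ψ : DirichletCharacter ℂ q),
      q.Prime → q₀ ≤ q → (-1 : (ZMod q)ˣ) ∈ H → (Nat.card H : ℝ) ≤ (q : ℝ) ^ (1 / 3 - ε) →
      ‖∑ χ ∈ (cos H ψ).erase 1, DirichletCharacter.LFunction χ (1 / 2) * mol q χ -
        (cos H ψ).card‖ ≤ (cos H ψ).card / 2 := by
  obtain ⟨C0, hC0⟩ := cut_nu
  obtain ⟨c, hc, q1, hbig⟩ := big_sum ε hε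
  obtain ⟨C', q2, hrough⟩ := rough_sum
  obtain ⟨M, hM0, hM⟩ : ∃ M : ℝ, 0 ≤ M ∧ ∀ e : ℕ, e ≤ 1 → ∫ r, r ^ 302 ∂(nu e) ≤ M := by
    refine ⟨|∫ r, r ^ 302 ∂(nu 0)| + |∫ r, r ^ 302 ∂(nu 1)|, by positivity, ?_⟩
    intro e he
    interval_cases e
    · exact (le_abs_self _).trans (le_add_of_nonneg_right (abs_nonneg _))
    · exact (le_abs_self _).trans (le_add_of_nonneg_left (abs_nonneg _))
  have hC00 : 0 ≤ C0 := by
    have h := (hC0 0 (by norm_num)).ball 1 one_pos le_rfl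
    rw [Real.sqrt_one, mul_one] at h
    exact measureReal_nonneg.trans h
  have E1 : ∀ᶠ q : ℕ in Filter.atTop, 40 * (M + C0 + 1) ≤ yy q :=
    First_tendsto_yy.eventually_ge_atTop _
  have E2 : ∀ᶠ q : ℕ in Filter.atTop, (q : ℝ) ^ (-c) ≤ 1 / 10 := by
    have h := (tendsto_rpow_neg_atTop hc).comp (tendsto_natCast_atTop_atTop (R := ℝ))
    exact (h.eventually_le_const (by norm_num : (0 : ℝ) < 1 / 10))
  have E3 : ∀ᶠ q : ℕ in Filter.atTop, C' / Real.log q ≤ 1 / 10 := by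
    have h := (Filter.Tendsto.const_div_atTop
      (Real.tendsto_log_atTop.comp (tendsto_natCast_atTop_atTop (R := ℝ))) C')
    exact (h.eventually_le_const (by norm_num : (0 : ℝ) < 1 / 10))
  obtain ⟨q3, hq3⟩ := Filter.eventually_atTop.mp (E1.and (E2.and E3))
  refine ⟨max q1 (max q2 q3), ?_⟩
  intro q inst H ψ hqp hqq hneg hcard
  obtain ⟨F1, F2, F3⟩ := hq3 q (by omega)
  have hq1 : 1 ≤ q := hqp.one_lt.le
  have hq1r : (1 : ℝ) ≤ q := by exact_mod_cast hq1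
  have hg1 : 1 ≤ yy q := First_yy_one hq1
  have hg0 : 0 < yy q := by linarith
  have hqg : (q : ℝ) = yy q ^ 100 := First_q_eq
  have hkg : (q : ℝ) ^ kap ≤ yy q := First_kap_le hq1
  have hk0 : 0 < (q : ℝ) ^ kap := Real.rpow_pos_of_pos (by linarith) _
  -- the parity
  set e0 : ℕ := if ψ (-1) = 1 then 0 else 1 with he0
  have he01 : e0 ≤ 1 := by
    rw [he0]
    split_ifs <;> norm_num
  have hcut := hC0 e0 he01
  set V : ℕ → ℝ := fun n => (nu e0).real (Set.Ioi ((n : ℝ) / yy q ^ 101)) with hVdef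
  have hV : ∀ n, 0 ≤ V n ∧ V n ≤ 1 := fun n => First_V_bounds hcut _
  set G : DirichletCharacter ℂ q → ℂ := fun χ =>
    ∑ n ∈ Icc 1 ⌊yy q ^ 102⌋₊, (V n : ℂ) * χ (n : ZMod q) / (Real.sqrt n : ℂ) with hGdef
  have hone : ∀ χ ∈ (cos H ψ).erase 1,
      ‖DirichletCharacter.LFunction χ (1 / 2) - G χ‖ ≤ 4 * (M / yy q ^ 98) := by
    intro χ hχ
    rw [mem_erase] at hχ
    obtain ⟨e, he, hχe, ε', hε', hafe⟩ := afe hqp χ hχ.1
    have hpar := First_cos_neg hneg hχ.2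
    have hee : e = e0 := by
      rw [he0]
      interval_cases e
      · rw [pow_zero] at hχe
        rw [if_pos (by rw [← hpar, hχe])]
      · rw [pow_one] at hχe
        rw [if_neg]
        rw [← hpar, hχe]
        norm_num
    subst hee
    exact First_one hq1 χ hcut M (hM _ he) hM0 ε' hε' hafe
  have hmol : ∀ χ : DirichletCharacter ℂ q, ‖mol q χ‖ ≤ yy q ^ 2 := by
    intro χ
    rw [First_yy_sq hq1]
    exact First_mol_norm hq1 χ
  -- size of the coset
  have hcc := card_cos hqp H ψ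
  obtain ⟨K, hK⟩ : ∃ K : ℝ, K = ((cos H ψ).card : ℝ) := ⟨_, rfl⟩
  have hK0 : 0 ≤ K := by
    rw [hK]
    positivity
  rw [← hK] at hcc ⊢
  have hH : (Nat.card H : ℝ) ≤ yy q ^ 34 := by
    refine hcard.trans ?_
    have e : yy q ^ 34 = (q : ℝ) ^ (34 / 100 : ℝ) := by
      unfold yy
      rw [← Real.rpow_natCast, ← Real.rpow_mul (by positivity)]
      norm_num
    rw [e]
    exact Real.rpow_le_rpow_of_exponent_le hq1r (by linarith)
  have hH13 : (Nat.card H : ℝ) ≤ (q : ℝ) ^ (1 / 3 : ℝ) :=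
    hcard.trans (Real.rpow_le_rpow_of_exponent_le hq1r (by linarith))
  have hg40 : 40 ≤ yy q := by linarith
  have hKg : 20 * yy q ^ 53 ≤ K := by
    have h1 : K * (Nat.card H : ℝ) ≤ K * yy q ^ 34 := mul_le_mul_of_nonneg_left hH hK0
    rw [hcc, hqg] at h1
    have h13 : 40 ≤ yy q ^ 13 := by
      calc (40 : ℝ) ≤ yy q ^ 1 := by rw [pow_one]; exact hg40
        _ ≤ yy q ^ 13 := pow_le_pow_right₀ hg1 (by norm_num)
    have h87 : 1 ≤ yy q ^ 87 := one_le_pow₀ hg1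
    have h2 : 20 * yy q ^ 53 * yy q ^ 34 ≤ K * yy q ^ 34 := by
      calc 20 * yy q ^ 53 * yy q ^ 34 = 20 * yy q ^ 87 := by ring
        _ ≤ 40 * yy q ^ 87 - 1 := by linarith
        _ ≤ yy q ^ 13 * yy q ^ 87 - 1 := by
            have := mul_le_mul_of_nonneg_right h13 (by positivity : (0 : ℝ) ≤ yy q ^ 87)
            linarith
        _ = yy q ^ 100 - 1 := by ring
        _ ≤ K * yy q ^ 34 := h1
    exact le_of_mul_le_mul_right h2 (by positivity)
  -- the sum over `N`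
  set X := ⌊yy q ^ 102⌋₊ with hX
  set Y := ⌊yy q ^ 2⌋₊ with hY
  have hgg : yy q + 1 ≤ yy q ^ 2 := by nlinarith
  have hXr : (X : ℝ) ≤ yy q ^ 102 := Nat.floor_le (by positivity)
  have hYr : (Y : ℝ) ≤ yy q ^ 2 := Nat.floor_le (by positivity)
  have hkY : (q : ℝ) ^ kap ≤ Y := by
    have h := Nat.sub_one_lt_floor (yy q ^ 2)
    rw [← hY] at h
    linarith
  have hkX : (q : ℝ) ^ kap ≤ X := by
    have h := Nat.sub_one_lt_floor (yy q ^ 102)
    rw [← hX] at h
    have h2 : yy q ^ 2 ≤ yy q ^ 102 := pow_le_pow_right₀ hg1 (by norm_num)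
    linarith
  have hXY : ((X * Y : ℕ) : ℝ) ≤ (q : ℝ) ^ (105 / 100 : ℝ) := by
    have e : yy q ^ 105 = (q : ℝ) ^ (105 / 100 : ℝ) := by
      unfold yy
      rw [← Real.rpow_natCast, ← Real.rpow_mul (by positivity)]
      norm_num
    rw [← e]
    push_cast
    calc (X : ℝ) * Y ≤ yy q ^ 102 * yy q ^ 2 :=
          mul_le_mul hXr hYr (by positivity) (by positivity)
      _ = yy q ^ 104 := by rw [← pow_add]
      _ ≤ yy q ^ 105 := pow_le_pow_right₀ hg1 (by norm_num)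
  have hmain := First_main hq1 H ψ X Y V hV (C0 / yy q ^ 50) (C' / Real.log q) ((q : ℝ) ^ (-c))
    (by positivity) hkX hkY
    (by
      intro n hn hnk
      have hn0 : (0 : ℝ) < n := by exact_mod_cast hn
      have hle : (n : ℝ) / yy q ^ 101 ≤ (1 / yy q ^ 50) ^ 2 := by
        rw [div_pow, one_pow, ← pow_mul, div_le_div_iff₀ (by positivity) (by positivity), one_mul]
        calc (n : ℝ) * yy q ^ (50 * 2) ≤ yy q * yy q ^ (50 * 2) :=
              mul_le_mul_of_nonneg_right (hnk.trans hkg) (by positivity)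
          _ = yy q ^ 101 := by ring
      have hle1 : (1 / yy q ^ 50) ^ 2 ≤ 1 := by
        rw [div_pow, one_pow, ← pow_mul, div_le_one (by positivity)]
        exact one_le_pow₀ hg1
      refine (First_V_near hcut _ (by positivity) (hle.trans hle1)).trans ?_
      have e50 : C0 / yy q ^ 50 = C0 * (1 / yy q ^ 50) := by ring
      rw [e50]
      refine mul_le_mul_of_nonneg_left ?_ hC00
      exact (Real.sqrt_le_sqrt hle).trans (by rw [Real.sqrt_sq (by positivity)]))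
    ((hbig q H (by omega) hcard).2 (X * Y) hXY)
    (hrough q H hqp (by omega) hH13)
  -- assemble
  have hS := First_sumG hqp H ψ V X
  have hG1 := First_G_norm hq1 (1 : DirichletCharacter ℂ q) V hV
  rw [← hY] at hS
  set Z : ℂ := ∑ N ∈ HN H (X * Y), (First_C q X Y V N / (Real.sqrt N : ℂ)) * ψ (N : ZMod q)
    with hZ
  clear_value Z
  have hZ1 : ‖Z - 1‖ ≤ 3 / 10 := by
    refine hmain.trans ?_
    have h1 : C0 / yy q ^ 50 * ((q : ℝ) ^ kap * (q : ℝ) ^ kap) ≤ 1 / 10 := by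
      calc C0 / yy q ^ 50 * ((q : ℝ) ^ kap * (q : ℝ) ^ kap)
          ≤ C0 / yy q ^ 50 * (yy q * yy q) := by
            refine mul_le_mul_of_nonneg_left ?_ (by positivity)
            exact mul_le_mul hkg hkg hk0.le hg0.le
        _ = C0 / yy q ^ 48 := by field_simp
        _ ≤ C0 / yy q := by
            refine div_le_div_of_nonneg_left hC00 hg0 ?_
            exact le_self_pow₀ hg1 (by norm_num)
        _ ≤ 1 / 10 := by
            rw [div_le_div_iff₀ hg0 (by norm_num)]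
            linarith
    linarith
  have hdecomp : ∑ χ ∈ (cos H ψ).erase 1, DirichletCharacter.LFunction χ (1 / 2) * mol q χ -
      ((cos H ψ).card : ℂ) =
      ∑ χ ∈ (cos H ψ).erase 1, (DirichletCharacter.LFunction χ (1 / 2) - G χ) * mol q χ +
      (∑ χ ∈ (cos H ψ).erase 1, G χ * mol q χ - ∑ χ ∈ cos H ψ, G χ * mol q χ) +
      ((cos H ψ).card : ℂ) * (Z - 1) := by
    have e1 : ∑ χ ∈ (cos H ψ).erase 1, (DirichletCharacter.LFunction χ (1 / 2) - G χ) * mol q χ =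
        ∑ χ ∈ (cos H ψ).erase 1, DirichletCharacter.LFunction χ (1 / 2) * mol q χ -
        ∑ χ ∈ (cos H ψ).erase 1, G χ * mol q χ := by
      rw [← Finset.sum_sub_distrib]
      exact Finset.sum_congr rfl fun χ _ => by ring
    rw [e1, hS]
    ring
  have hT1 : ‖∑ χ ∈ (cos H ψ).erase 1,
      (DirichletCharacter.LFunction χ (1 / 2) - G χ) * mol q χ‖ ≤ K / 10 := by
    calc _ ≤ ∑ χ ∈ (cos H ψ).erase 1, 4 * (M / yy q ^ 98) * yy q ^ 2 := by
          refine norm_sum_le_of_le _ fun χ hχ => ?_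
          rw [norm_mul]
          exact mul_le_mul (hone χ hχ) (hmol χ) (norm_nonneg _) (by positivity)
      _ = (((cos H ψ).erase 1).card : ℝ) * (4 * (M / yy q ^ 98) * yy q ^ 2) := by
          rw [Finset.sum_const, nsmul_eq_mul]
      _ ≤ K * (1 / 10) := by
          refine mul_le_mul ?_ ?_ (by positivity) hK0
          · rw [hK]
            exact_mod_cast Finset.card_erase_le
          · calc 4 * (M / yy q ^ 98) * yy q ^ 2 = 4 * M / yy q ^ 96 := by field_simp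
              _ ≤ 4 * M / yy q := by
                  refine div_le_div_of_nonneg_left (by positivity) hg0 ?_
                  exact le_self_pow₀ hg1 (by norm_num)
              _ ≤ 1 / 10 := by
                  rw [div_le_div_iff₀ hg0 (by norm_num)]
                  linarith
      _ = K / 10 := by ring
  have hT2 : ‖∑ χ ∈ (cos H ψ).erase 1, G χ * mol q χ - ∑ χ ∈ cos H ψ, G χ * mol q χ‖ ≤
      K / 10 := by
    by_cases h1 : (1 : DirichletCharacter ℂ q) ∈ cos H ψ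
    · rw [← Finset.add_sum_erase _ _ h1, sub_add_cancel_right, norm_neg]
      exact hG1.trans (by linarith)
    · rw [Finset.erase_eq_of_notMem h1, sub_self, norm_zero]
      positivity
  have hT3 : ‖((cos H ψ).card : ℂ) * (Z - 1)‖ ≤ K * (3 / 10) := by
    rw [norm_mul, Complex.norm_natCast, ← hK]
    exact mul_le_mul_of_nonneg_left hZ1 hK0
  rw [hdecomp]
  refine (norm_add₃_le).trans ?_
  linarith

end Pool.Agent.NV
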