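import Pool.Agent.Lib.MP_afd523_nt.Defs

namespace Pool.Agent.NV

open Finset Complex MeasureTheory

noncomputable section

/-! ### the uniform measure on `[-h, h]` -/

/-- the uniform probability measure on `[-h, h]` -/
def gevU (h : ℝ) : Measure ℝ :=
  (ENNReal.ofReal (1 / (2 * h))) • (volume.restrict (Set.Icc (-h) h))

theorem gevU_prob {h : ℝ} (hh : 0 < h) : IsProbabilityMeasure (gevU h) := by
  constructor
  unfold gevU
  rw [Measure.smul_apply, Measure.restrict_apply_univ, Real.volume_Icc, smul_eq_mul,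
    ← ENNReal.ofReal_mul (by positivity)]
  have : 1 / (2 * h) * (h - -h) = 1 := by
    field_simp
    ring
  rw [this, ENNReal.ofReal_one]

theorem gevU_supp (h : ℝ) : gevU h (Set.Icc (-h) h)ᶜ = 0 := by
  unfold gevU
  rw [Measure.smul_apply, Measure.restrict_apply measurableSet_Icc.compl, Set.compl_inter_self,
    measure_empty, smul_zero]

theorem gevU_atom (h x : ℝ) : gevU h {x} = 0 := by
  unfold gevU
  rw [Measure.smul_apply, Measure.restrict_apply (measurableSet_singleton x)]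
  have : volume ({x} ∩ Set.Icc (-h) h) = 0 :=
    measure_mono_null Set.inter_subset_left Real.volume_singleton
  rw [this, smul_zero]

theorem gevU_symm (h : ℝ) : (gevU h).map (fun x => -x) = gevU h := by
  unfold gevU
  rw [Measure.map_smul]
  congr 1
  have h1 := (MeasurableEquiv.neg ℝ).restrict_map volume (Set.Icc (-h) h)
  have h2 : (volume : Measure ℝ).map (MeasurableEquiv.neg ℝ) = volume := by
    have := (Measure.measurePreserving_neg (volume : Measure ℝ)).map_eq
    exact this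
  rw [h2] at h1
  have h3 : (MeasurableEquiv.neg ℝ) ⁻¹' (Set.Icc (-h) h) = Set.Icc (-h) h := by
    ext x
    show -x ∈ Set.Icc (-h) h ↔ x ∈ Set.Icc (-h) h
    simp only [Set.mem_Icc]
    constructor
    · rintro ⟨h1, h2⟩
      exact ⟨by linarith, by linarith⟩
    · rintro ⟨h1, h2⟩
      exact ⟨by linarith, by linarith⟩
  rw [h3] at h1
  exact h1.symm

theorem gevU_int {h : ℝ} (hh : 0 < h) (t : ℝ) :
    ∫ x, Complex.exp ((1 + t * Complex.I) * x) ∂(gevU h) =
      (1 / (2 * h) : ℝ) • ((Complex.exp ((1 + t * Complex.I) * h) -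
        Complex.exp ((1 + t * Complex.I) * (-h))) / (1 + t * Complex.I)) := by
  have hc : (1 + t * Complex.I) ≠ 0 := by
    intro h0
    have := congrArg Complex.re h0
    simp at this
  unfold gevU
  rw [integral_smul_measure, ENNReal.toReal_ofReal (by positivity), integral_Icc_eq_integral_Ioc,
    ← intervalIntegral.integral_of_le (by linarith), integral_exp_mul_complex hc]
  push_cast
  rfl

theorem gevU_norm {h : ℝ} (hh : 0 < h) (t : ℝ) :
    ‖∫ x, Complex.exp ((1 + t * Complex.I) * x) ∂(gevU h)‖ ≤ Real.exp h := by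
  have := gevU_prob hh
  have h1 : ∀ᵐ x : ℝ ∂(gevU h), ‖Complex.exp ((1 + t * Complex.I) * (x : ℂ))‖ ≤ Real.exp h := by
    have h2 : ∀ᵐ x ∂(gevU h), x ∈ Set.Icc (-h) h := by
      rw [ae_iff]
      exact gevU_supp h
    filter_upwards [h2] with x hx
    rw [Complex.norm_exp]
    have h3 : ((1 + t * Complex.I) * (x : ℂ)).re = x := by simp
    rw [h3]
    exact Real.exp_le_exp.2 hx.2
  have h2 := norm_integral_le_of_norm_le_const h1
  simpa using h2

theorem gevU_decay {h : ℝ} (hh : 0 < h) (t : ℝ) :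
    |t| * ‖∫ x, Complex.exp ((1 + t * Complex.I) * x) ∂(gevU h)‖ ≤ Real.exp h / h := by
  have hc : (1 + t * Complex.I) ≠ 0 := by
    intro h0
    have := congrArg Complex.re h0
    simp at this
  have hcn : 0 < ‖(1 + t * Complex.I)‖ := norm_pos_iff.2 hc
  have ht : |t| ≤ ‖(1 + t * Complex.I)‖ := by
    have := Complex.abs_im_le_norm (1 + t * Complex.I)
    simpa using this
  rw [gevU_int hh, norm_smul, Real.norm_eq_abs,
    abs_of_pos (show (0:ℝ) < 1 / (2 * h) by positivity), norm_div]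
  have h1 : ‖Complex.exp ((1 + t * Complex.I) * h) - Complex.exp ((1 + t * Complex.I) * (-h))‖ ≤
      2 * Real.exp h := by
    refine (norm_sub_le _ _).trans ?_
    rw [Complex.norm_exp, Complex.norm_exp]
    have h3 : ((1 + t * Complex.I) * (h : ℂ)).re = h := by simp
    have h4 : ((1 + t * Complex.I) * (-h : ℂ)).re = -h := by simp
    rw [h3, h4]
    have h5 : Real.exp (-h) ≤ Real.exp h := Real.exp_le_exp.2 (by linarith)
    linarith
  have h2 : ‖Complex.exp ((1 + t * Complex.I) * h) - Complex.exp ((1 + t * Complex.I) * (-h))‖ /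
      ‖(1 + t * Complex.I)‖ ≤ 2 * Real.exp h / ‖(1 + t * Complex.I)‖ :=
    div_le_div_of_nonneg_right h1 hcn.le
  have h0 : 0 ≤ 1 / (2 * h) := by positivity
  calc |t| * (1 / (2 * h) * (‖Complex.exp ((1 + t * Complex.I) * h) -
        Complex.exp ((1 + t * Complex.I) * (-h))‖ / ‖(1 + t * Complex.I)‖))
      ≤ ‖(1 + t * Complex.I)‖ * (1 / (2 * h) * (2 * Real.exp h / ‖(1 + t * Complex.I)‖)) := by
        refine mul_le_mul ht (mul_le_mul_of_nonneg_left h2 h0) (by positivity) hcn.le
    _ = Real.exp h / h := by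
        field_simp

/-! ### the iterated convolution -/

/-- adding an independent uniform variable -/
def gevStep (μ : Measure ℝ) (h : ℝ) : Measure ℝ :=
  (μ.prod (gevU h)).map (fun p : ℝ × ℝ => p.1 + p.2)

theorem gevStep_prob {μ : Measure ℝ} (hμ : IsProbabilityMeasure μ) {h : ℝ} (hh : 0 < h) :
    IsProbabilityMeasure (gevStep μ h) := by
  have := hμ
  have := gevU_prob hh
  exact Measure.isProbabilityMeasure_map (measurable_fst.add measurable_snd).aemeasurable

theorem gevStep_supp {μ : Measure ℝ} (hμ : IsProbabilityMeasure μ) {s h : ℝ} (hh : 0 < h)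
    (hs : μ (Set.Icc (1 / 2 - s) (1 / 2 + s))ᶜ = 0) :
    gevStep μ h (Set.Icc (1 / 2 - (s + h)) (1 / 2 + (s + h)))ᶜ = 0 := by
  have := hμ
  have := gevU_prob hh
  have ma : Measurable (fun p : ℝ × ℝ => p.1 + p.2) := measurable_fst.add measurable_snd
  unfold gevStep
  rw [Measure.map_apply ma measurableSet_Icc.compl]
  have h1 : ∀ᵐ v ∂μ, v ∈ Set.Icc (1 / 2 - s) (1 / 2 + s) := by
    rw [ae_iff]
    exact hs
  have h2 : ∀ᵐ x ∂(gevU h), x ∈ Set.Icc (-h) h := by
    rw [ae_iff]
    exact gevU_supp h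
  have h3 : ∀ᵐ p ∂(μ.prod (gevU h)), p.1 ∈ Set.Icc (1 / 2 - s) (1 / 2 + s) :=
    Measure.quasiMeasurePreserving_fst.ae h1
  have h4 : ∀ᵐ p ∂(μ.prod (gevU h)), p.2 ∈ Set.Icc (-h) h :=
    Measure.quasiMeasurePreserving_snd.ae h2
  have h5 : ∀ᵐ p ∂(μ.prod (gevU h)), p.1 + p.2 ∈
      Set.Icc (1 / 2 - (s + h)) (1 / 2 + (s + h)) := by
    filter_upwards [h3, h4] with p hp hq
    exact ⟨by linarith [hp.1, hq.1], by linarith [hp.2, hq.2]⟩
  rw [ae_iff] at h5
  exact h5

theorem gevStep_symm {μ : Measure ℝ} (hμ : IsProbabilityMeasure μ) {h : ℝ} (hh : 0 < h)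
    (hs : μ.map (fun v => 1 - v) = μ) :
    (gevStep μ h).map (fun v => 1 - v) = gevStep μ h := by
  have := hμ
  have := gevU_prob hh
  have m1 : Measurable (fun v : ℝ => 1 - v) := measurable_const.sub measurable_id
  have m2 : Measurable (fun v : ℝ => -v) := measurable_neg
  have ma : Measurable (fun p : ℝ × ℝ => p.1 + p.2) := measurable_fst.add measurable_snd
  unfold gevStep
  rw [Measure.map_map m1 ma]
  have h1 : (fun v : ℝ => 1 - v) ∘ (fun p : ℝ × ℝ => p.1 + p.2) =
      (fun p : ℝ × ℝ => p.1 + p.2) ∘ (Prod.map (fun v : ℝ => 1 - v) (fun v : ℝ => -v)) := by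
    ext p
    show 1 - (p.1 + p.2) = (1 - p.1) + -p.2
    ring
  rw [h1, ← Measure.map_map ma (m1.prodMap m2), ← Measure.map_prod_map _ _ m1 m2, hs, gevU_symm]

theorem gevStep_atom {μ : Measure ℝ} (hμ : IsProbabilityMeasure μ) {h : ℝ} (hh : 0 < h) (x : ℝ) :
    gevStep μ h {x} = 0 := by
  have := hμ
  have := gevU_prob hh
  have ma : Measurable (fun p : ℝ × ℝ => p.1 + p.2) := measurable_fst.add measurable_snd
  unfold gevStep
  rw [Measure.map_apply ma (measurableSet_singleton x),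
    Measure.prod_apply (ma (measurableSet_singleton x))]
  have h1 : ∀ v : ℝ, gevU h (Prod.mk v ⁻¹' ((fun p : ℝ × ℝ => p.1 + p.2) ⁻¹' {x})) = 0 := by
    intro v
    have h2 : (Prod.mk v ⁻¹' ((fun p : ℝ × ℝ => p.1 + p.2) ⁻¹' {x})) = {x - v} := by
      ext y
      show v + y = x ↔ y = x - v
      constructor
      · intro h
        linarith
      · intro h
        linarith
    rw [h2]
    exact gevU_atom h _
  simp only [h1, lintegral_zero]

theorem gevStep_int {μ : Measure ℝ} (hμ : IsProbabilityMeasure μ) {h : ℝ} (hh : 0 < h) (t : ℝ) :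
    ∫ v, Complex.exp ((1 + t * Complex.I) * v) ∂(gevStep μ h) =
      (∫ v, Complex.exp ((1 + t * Complex.I) * v) ∂μ) *
        ∫ x, Complex.exp ((1 + t * Complex.I) * x) ∂(gevU h) := by
  have := hμ
  have := gevU_prob hh
  have ma : Measurable (fun p : ℝ × ℝ => p.1 + p.2) := measurable_fst.add measurable_snd
  unfold gevStep
  rw [integral_map ma.aemeasurable (by
    have : Continuous fun v : ℝ => Complex.exp ((1 + t * Complex.I) * v) := by fun_prop
    exact this.aestronglyMeasurable)]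
  rw [← integral_prod_mul]
  congr 1
  ext p
  rw [← Complex.exp_add]
  congr 1
  push_cast
  ring

/-! ### the sequence -/

/-- the lengths -/
def gevh (n : ℕ) : ℝ := 1 / 2200 * ((n : ℝ) + 1) ^ (-(21 / 20) : ℝ)

theorem gevh_pos (n : ℕ) : 0 < gevh n := by
  unfold gevh
  positivity

theorem gevh_sum (K : ℕ) : 2200 * ∑ n ∈ Finset.range K, gevh n ≤
    21 - (if K = 0 then 21 else 20 * (K : ℝ) ^ (-(1 / 20) : ℝ)) := by
  induction K with
  | zero => simp
  | succ K ih =>
    rw [Finset.sum_range_succ, mul_add]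
    rcases Nat.eq_zero_or_pos K with hK | hK
    · subst hK
      simp only [Finset.range_zero, Finset.sum_empty, gevh]
      norm_num
    · rw [if_neg hK.ne'] at ih
      rw [if_neg (Nat.succ_ne_zero K)]
      have ha : (0:ℝ) < K := Nat.cast_pos.2 hK
      have hb : (0:ℝ) < (K:ℝ) + 1 := by linarith
      have h1 : (1:ℝ) + 1 / (20 * ((K:ℝ) + 1)) ≤ ((K:ℝ) / ((K:ℝ) + 1)) ^ (-(1 / 20) : ℝ) := by
        rw [Real.rpow_def_of_pos (by positivity)]
        have h2 := Real.log_le_sub_one_of_pos (show 0 < (K:ℝ) / ((K:ℝ) + 1) by positivity)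
        have h3 := Real.add_one_le_exp (Real.log ((K:ℝ) / ((K:ℝ) + 1)) * (-(1 / 20)))
        have h4 : (K:ℝ) / ((K:ℝ) + 1) - 1 = -(1 / ((K:ℝ) + 1)) := by
          field_simp
          ring
        rw [h4] at h2
        have h5 : 1 / (20 * ((K:ℝ) + 1)) = (1 / 20) * (1 / ((K:ℝ) + 1)) := by
          field_simp
        rw [h5]
        linarith
      rw [Real.div_rpow ha.le hb.le, le_div_iff₀ (by positivity)] at h1
      have h6 : ((K:ℝ) + 1) ^ (-(21 / 20) : ℝ) = ((K:ℝ) + 1) ^ (-(1 / 20) : ℝ) / ((K:ℝ) + 1) := by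
        rw [← Real.rpow_sub_one hb.ne']
        congr 1
        norm_num
      have h7 : 2200 * gevh K = ((K:ℝ) + 1) ^ (-(1 / 20) : ℝ) / ((K:ℝ) + 1) := by
        unfold gevh
        rw [h6]
        ring
      rw [h7]
      push_cast
      have h8 : (1 + 1 / (20 * ((K:ℝ) + 1))) * ((K:ℝ) + 1) ^ (-(1 / 20) : ℝ) =
          ((K:ℝ) + 1) ^ (-(1 / 20) : ℝ) + (1 / 20) *
            (((K:ℝ) + 1) ^ (-(1 / 20) : ℝ) / ((K:ℝ) + 1)) := by
        field_simp
      rw [h8] at h1
      linarith

theorem gevh_sum_le (K : ℕ) : ∑ n ∈ Finset.range K, gevh n ≤ 1 / 100 := by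
  have h1 := gevh_sum K
  have h2 : (0:ℝ) ≤ if K = 0 then 21 else 20 * (K : ℝ) ^ (-(1 / 20) : ℝ) := by
    split_ifs <;> positivity
  linarith

theorem gevh_prod (k : ℕ) : ∏ n ∈ Finset.range k, (1 / gevh n) =
    2200 ^ k * (k.factorial : ℝ) ^ (21 / 20 : ℝ) := by
  induction k with
  | zero => simp
  | succ k ih =>
    rw [Finset.prod_range_succ, ih, Nat.factorial_succ]
    push_cast
    rw [Real.mul_rpow (by positivity) (by positivity)]
    have hb : (0:ℝ) < (k:ℝ) + 1 := by positivity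
    have h1 : 1 / gevh k = 2200 * ((k:ℝ) + 1) ^ (21 / 20 : ℝ) := by
      unfold gevh
      rw [Real.rpow_neg hb.le]
      have : 0 < ((k:ℝ) + 1) ^ (21 / 20 : ℝ) := by positivity
      field_simp
    rw [h1]
    ring

/-- the convolutions -/
def gevM : ℕ → Measure ℝ
  | 0 => Measure.dirac (1 / 2)
  | K + 1 => gevStep (gevM K) (gevh K)

theorem gevM_prob (K : ℕ) : IsProbabilityMeasure (gevM K) := by
  induction K with
  | zero =>
    show IsProbabilityMeasure (Measure.dirac (1 / 2 : ℝ))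
    infer_instance
  | succ K ih => exact gevStep_prob ih (gevh_pos K)

theorem gevM_supp (K : ℕ) : gevM K (Set.Icc (1 / 2 - ∑ n ∈ Finset.range K, gevh n)
    (1 / 2 + ∑ n ∈ Finset.range K, gevh n))ᶜ = 0 := by
  induction K with
  | zero =>
    show Measure.dirac (1 / 2 : ℝ) _ = 0
    rw [Measure.dirac_apply' _ measurableSet_Icc.compl]
    simp
  | succ K ih =>
    rw [Finset.sum_range_succ]
    exact gevStep_supp (gevM_prob K) (gevh_pos K) ih

theorem gevM_symm (K : ℕ) : (gevM K).map (fun v => 1 - v) = gevM K := by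
  induction K with
  | zero =>
    show (Measure.dirac (1 / 2 : ℝ)).map (fun v => 1 - v) = Measure.dirac (1 / 2 : ℝ)
    have m1 : Measurable (fun v : ℝ => 1 - v) := measurable_const.sub measurable_id
    rw [Measure.map_dirac' m1]
    norm_num
  | succ K ih => exact gevStep_symm (gevM_prob K) (gevh_pos K) ih

theorem gevM_dec (K : ℕ) (t : ℝ) : ∀ k ≤ K,
    |t| ^ k * ‖∫ v, Complex.exp ((1 + t * Complex.I) * v) ∂(gevM K)‖ ≤
      Real.exp (1 / 2 + ∑ n ∈ Finset.range K, gevh n) * ∏ n ∈ Finset.range k, (1 / gevh n) := by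
  induction K with
  | zero =>
    intro k hk
    have hk0 : k = 0 := Nat.le_zero.1 hk
    subst hk0
    show |t| ^ 0 * ‖∫ v, Complex.exp ((1 + t * Complex.I) * v) ∂(Measure.dirac (1 / 2 : ℝ))‖ ≤ _
    rw [integral_dirac, Complex.norm_exp]
    simp
  | succ K ih =>
    intro k hk
    have e1 : ∫ v, Complex.exp ((1 + t * Complex.I) * v) ∂(gevM (K + 1)) =
        (∫ v, Complex.exp ((1 + t * Complex.I) * v) ∂(gevM K)) *
          ∫ x, Complex.exp ((1 + t * Complex.I) * x) ∂(gevU (gevh K)) :=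
      gevStep_int (gevM_prob K) (gevh_pos K) t
    rw [e1, norm_mul, Finset.sum_range_succ, ← add_assoc, Real.exp_add]
    set S := ∑ n ∈ Finset.range K, gevh n
    set A := ‖∫ v, Complex.exp ((1 + t * Complex.I) * v) ∂(gevM K)‖
    set B := ‖∫ x, Complex.exp ((1 + t * Complex.I) * x) ∂(gevU (gevh K))‖
    have hB : B ≤ Real.exp (gevh K) := gevU_norm (gevh_pos K) t
    have hB2 : |t| * B ≤ Real.exp (gevh K) / gevh K := gevU_decay (gevh_pos K) t
    have hprod : ∀ j : ℕ, 0 ≤ ∏ n ∈ Finset.range j, (1 / gevh n) := fun j =>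
      Finset.prod_nonneg fun n _ => (one_div_pos.2 (gevh_pos n)).le
    rcases Nat.lt_or_ge K k with h | h
    · have hkk : k = K + 1 := le_antisymm hk h
      subst hkk
      have h1 := ih K le_rfl
      rw [Finset.prod_range_succ]
      calc |t| ^ (K + 1) * (A * B) = (|t| ^ K * A) * (|t| * B) := by ring
        _ ≤ (Real.exp (1 / 2 + S) * ∏ n ∈ Finset.range K, (1 / gevh n)) *
            (Real.exp (gevh K) / gevh K) :=
          mul_le_mul h1 hB2 (by positivity) (mul_nonneg (Real.exp_pos _).le (hprod K))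
        _ = Real.exp (1 / 2 + S) * Real.exp (gevh K) *
            ((∏ n ∈ Finset.range K, (1 / gevh n)) * (1 / gevh K)) := by ring
    · have h1 := ih k h
      calc |t| ^ k * (A * B) = (|t| ^ k * A) * B := by ring
        _ ≤ (Real.exp (1 / 2 + S) * ∏ n ∈ Finset.range k, (1 / gevh n)) * Real.exp (gevh K) :=
          mul_le_mul h1 hB (norm_nonneg _) (mul_nonneg (Real.exp_pos _).le (hprod k))
        _ = Real.exp (1 / 2 + S) * Real.exp (gevh K) * ∏ n ∈ Finset.range k, (1 / gevh n) := by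
          ring

theorem gevrey : ∃ C : ℝ, 1 ≤ C ∧ ∀ K : ℕ, ∃ μ : Measure ℝ, Smooth μ C K := by
  refine ⟨2200, by norm_num, fun K => ⟨gevM (K + 1), ?_⟩⟩
  refine ⟨gevM_prob _, ?_, gevM_symm _, fun x => gevStep_atom (gevM_prob K) (gevh_pos K) x, ?_⟩
  · refine measure_mono_null ?_ (gevM_supp (K + 1))
    rw [Set.compl_subset_compl]
    have h1 := gevh_sum_le (K + 1)
    intro v hv
    exact ⟨by linarith [hv.1], by linarith [hv.2]⟩
  · intro k t hk
    refine (gevM_dec (K + 1) t k (by omega)).trans ?_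
    rw [gevh_prod]
    have h1 := gevh_sum_le (K + 1)
    have h2 : Real.exp (1 / 2 + ∑ n ∈ Finset.range (K + 1), gevh n) ≤ 2200 := by
      have h3 : Real.exp (1 / 2 + ∑ n ∈ Finset.range (K + 1), gevh n) ≤ Real.exp 1 :=
        Real.exp_le_exp.2 (by linarith)
      have h4 := Real.exp_one_lt_d9
      linarith
    have h5 : (0:ℝ) ≤ 2200 ^ k * (k.factorial : ℝ) ^ (21 / 20 : ℝ) := by positivity
    calc Real.exp (1 / 2 + ∑ n ∈ Finset.range (K + 1), gevh n) *
          (2200 ^ k * (k.factorial : ℝ) ^ (21 / 20 : ℝ))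
        ≤ 2200 * (2200 ^ k * (k.factorial : ℝ) ^ (21 / 20 : ℝ)) :=
          mul_le_mul_of_nonneg_right h2 h5
      _ = 2200 ^ (k + 1) * (k.factorial : ℝ) ^ (21 / 20 : ℝ) := by ring

end

end Pool.Agent.NV
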