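import Pool.Agent.Lib.MP_afd523_nt.Defs

/-!
MP_afd523_nt, module MJ: averaging the approximate functional equation.
-/

namespace Pool.Agent.NV

open Finset Complex MeasureTheory

/-- second moment bound for the tails of a cut-off measure -/
theorem Maj_markov {C : ℝ} {ν : Measure ℝ} (hν : Cut ν C) :
    ∃ M : ℝ, 0 ≤ M ∧ ∀ x : ℝ, 0 < x → ν.real (Set.Ioi x) ≤ M / x ^ 2 := by
  have := hν.prob
  refine ⟨∫ r, r ^ 2 ∂ν, integral_nonneg fun r => sq_nonneg r, fun x hx => ?_⟩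
  have h1 := mul_meas_ge_le_integral_of_nonneg (μ := ν) (f := fun r : ℝ => r ^ 2)
    (Filter.Eventually.of_forall fun r => sq_nonneg r) (hν.mom 2) (x ^ 2)
  rw [le_div_iff₀ (by positivity), mul_comm]
  refine le_trans ?_ h1
  refine mul_le_mul_of_nonneg_left ?_ (by positivity)
  refine measureReal_mono (fun r hr => ?_)
  have hr' : x < r := hr
  exact pow_le_pow_left₀ hx.le hr'.le 2

theorem Maj_log_pos {q : ℕ} (hq : 3 ≤ q) : 0 < Real.log q :=
  Real.log_pos (by exact_mod_cast (by omega : 1 < q))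

/-- the condition `n / q ^ v < r` in terms of logarithms -/
theorem Maj_iff {q : ℕ} (hq : 3 ≤ q) {n : ℕ} (hn : 1 ≤ n) {r : ℝ} (hr : 0 < r) (v : ℝ) :
    (n : ℝ) / (q : ℝ) ^ v < r ↔ (Real.log n - Real.log r) / Real.log q < v := by
  have hq0 : (0 : ℝ) < q := by exact_mod_cast (by omega : 0 < q)
  have hn0 : (0 : ℝ) < n := by exact_mod_cast hn
  have hqv : 0 < (q : ℝ) ^ v := Real.rpow_pos_of_pos hq0 v
  rw [div_lt_iff₀ hqv, div_lt_iff₀ (Maj_log_pos hq),
    ← Real.log_lt_log_iff hn0 (mul_pos hr hqv), Real.log_mul hr.ne' hqv.ne',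
    Real.log_rpow hq0]
  constructor <;> intro h <;> linarith

/-- Fubini for the region `n / q ^ v < r` -/
theorem Maj_fub {μ ν : Measure ℝ} [IsProbabilityMeasure μ] [IsProbabilityMeasure ν]
    (hpos : ν (Set.Iic 0) = 0) {q : ℕ} (hq : 3 ≤ q) {n : ℕ} (hn : 1 ≤ n) :
    ∫ v, ν.real (Set.Ioi ((n : ℝ) / (q : ℝ) ^ v)) ∂μ = ∫ r, Phi μ q r n ∂ν := by
  have hq0 : (0 : ℝ) < q := by exact_mod_cast (by omega : 0 < q)
  have hcont : Continuous fun v : ℝ => (n : ℝ) / (q : ℝ) ^ v :=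
    continuous_const.div (Real.continuous_const_rpow hq0.ne')
      fun v => (Real.rpow_pos_of_pos hq0 v).ne'
  obtain ⟨E, hE⟩ : ∃ E : Set (ℝ × ℝ), E = {p | (n : ℝ) / (q : ℝ) ^ p.1 < p.2} := ⟨_, rfl⟩
  have hEm : MeasurableSet E := by
    rw [hE]
    exact measurableSet_lt (hcont.measurable.comp measurable_fst) measurable_snd
  have h1 : (μ.prod ν) E = ∫⁻ v, ν (Set.Ioi ((n : ℝ) / (q : ℝ) ^ v)) ∂μ := by
    rw [Measure.prod_apply hEm]
    refine lintegral_congr fun v => ?_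
    congr 1
    rw [hE]
    rfl
  have h2 : (μ.prod ν) E = ∫⁻ r, μ (Set.Ioi ((Real.log n - Real.log r) / Real.log q)) ∂ν := by
    rw [Measure.prod_apply_symm hEm]
    refine lintegral_congr_ae ?_
    have hae : ∀ᵐ r ∂ν, 0 < r := by
      rw [ae_iff]
      convert hpos using 2
      ext r
      simp
    filter_upwards [hae] with r hr
    congr 1
    ext v
    rw [hE]
    exact Maj_iff hq hn hr v
  have hanti : ∀ κ : Measure ℝ, [IsProbabilityMeasure κ] → Measurable fun x : ℝ => κ (Set.Ioi x) := by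
    intro κ _
    have : Antitone fun x : ℝ => κ (Set.Ioi x) := fun x y hxy =>
      measure_mono (Set.Ioi_subset_Ioi hxy)
    exact this.measurable
  have h3 : ∫ v, ν.real (Set.Ioi ((n : ℝ) / (q : ℝ) ^ v)) ∂μ = ((μ.prod ν) E).toReal := by
    rw [h1]
    exact integral_toReal ((hanti ν).comp hcont.measurable).aemeasurable
      (Filter.Eventually.of_forall fun v => measure_lt_top _ _)
  have h4 : ∫ r, Phi μ q r n ∂ν = ((μ.prod ν) E).toReal := by
    rw [h2]
    have hm : Measurable fun r : ℝ => (Real.log n - Real.log r) / Real.log q :=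
      (measurable_const.sub Real.measurable_log).div_const _
    exact integral_toReal ((hanti μ).comp hm).aemeasurable
      (Filter.Eventually.of_forall fun v => measure_lt_top _ _)
  rw [h3, h4]

theorem Maj_Phi_meas {μ : Measure ℝ} [IsProbabilityMeasure μ] (q n : ℕ) :
    Measurable fun r : ℝ => Phi μ q r n := by
  have h1 : Antitone fun x : ℝ => μ.real (Set.Ioi x) := fun x y hxy =>
    measureReal_mono (Set.Ioi_subset_Ioi hxy)
  have hm : Measurable fun r : ℝ => (Real.log n - Real.log r) / Real.log q :=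
    (measurable_const.sub Real.measurable_log).div_const _
  exact h1.measurable.comp hm

theorem Maj_Phi_nonneg (μ : Measure ℝ) (q : ℕ) (r : ℝ) (n : ℕ) : 0 ≤ Phi μ q r n :=
  measureReal_nonneg

theorem Maj_Phi_le_one {μ : Measure ℝ} [IsProbabilityMeasure μ] (q : ℕ) (r : ℝ) (n : ℕ) :
    Phi μ q r n ≤ 1 := measureReal_le_one

/-- `Phi` vanishes beyond `r q^0.51` -/
theorem Maj_Phi_zero {μ : Measure ℝ} {C' : ℝ} {K : ℕ} (hμ : Smooth μ C' K) {q : ℕ} (hq : 3 ≤ q)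
    {r : ℝ} (hr : 0 < r) {n : ℕ} (hn : ⌊r * (q : ℝ) ^ (51 / 100 : ℝ)⌋₊ < n) :
    Phi μ q r n = 0 := by
  have hq0 : (0 : ℝ) < q := by exact_mod_cast (by omega : 0 < q)
  have hn1 : 1 ≤ n := by omega
  have h1 : r * (q : ℝ) ^ (51 / 100 : ℝ) < n := Nat.lt_of_floor_lt hn
  have h2 : ¬ (Real.log n - Real.log r) / Real.log q < 51 / 100 := by
    rw [← Maj_iff hq hn1 hr, div_lt_iff₀ (Real.rpow_pos_of_pos hq0 _)]
    exact not_lt.2 h1.le
  have h3 : μ (Set.Ioi ((Real.log n - Real.log r) / Real.log q)) = 0 := by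
    refine measure_mono_null (fun v hv => ?_) hμ.supp
    intro hv'
    exact h2 (lt_of_lt_of_le hv hv'.2)
  unfold Phi
  rw [measureReal_def, h3]
  rfl

/-- `∑_{n ≤ x} 1/√n ≤ 2 √x` -/
theorem Maj_sum_sqrt (N : ℕ) : ∑ n ∈ Icc 1 N, 1 / Real.sqrt n ≤ 2 * Real.sqrt N := by
  induction N with
  | zero => simp
  | succ N ih =>
    rw [Finset.sum_Icc_succ_top (by omega)]
    have h1 : 1 / Real.sqrt ((N + 1 : ℕ) : ℝ) ≤
        2 * Real.sqrt ((N + 1 : ℕ) : ℝ) - 2 * Real.sqrt N := by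
      push_cast
      have hN : (0 : ℝ) ≤ N := Nat.cast_nonneg N
      have ha : 0 < Real.sqrt (N + 1) := Real.sqrt_pos.2 (by linarith)
      have hb : 0 ≤ Real.sqrt N := Real.sqrt_nonneg _
      have ha2 : Real.sqrt (N + 1) ^ 2 = N + 1 := Real.sq_sqrt (by linarith)
      have hb2 : Real.sqrt N ^ 2 = N := Real.sq_sqrt hN
      rw [div_le_iff₀ ha]
      nlinarith [sq_nonneg (Real.sqrt (N + 1) - Real.sqrt N)]
    linarith

theorem Maj_term_norm {q : ℕ} (χ : DirichletCharacter ℂ q) (x : ℝ) (n : ℕ) :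
    ‖(x : ℂ) * χ (n : ZMod q) / (Real.sqrt n : ℂ)‖ ≤ |x| * (1 / Real.sqrt n) := by
  rw [norm_div, norm_mul, Complex.norm_real, Complex.norm_real, Real.norm_eq_abs,
    Real.norm_eq_abs, abs_of_nonneg (Real.sqrt_nonneg _), mul_div_assoc, mul_one_div]
  rw [← mul_div_assoc]
  refine div_le_div_of_nonneg_right ?_ (Real.sqrt_nonneg _)
  exact mul_le_of_le_one_right (abs_nonneg _) (DirichletCharacter.norm_le_one χ _)

theorem Maj_SS_norm {μ : Measure ℝ} [IsProbabilityMeasure μ] (q : ℕ) (r : ℝ)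
    (χ : DirichletCharacter ℂ q) :
    ‖SS μ q r χ‖ ^ 2 ≤ 4 * (q : ℝ) ^ (51 / 100 : ℝ) * |r ^ 1| := by
  have hc : 0 ≤ (q : ℝ) ^ (51 / 100 : ℝ) := Real.rpow_nonneg (Nat.cast_nonneg _) _
  have h1 : ‖SS μ q r χ‖ ≤ 2 * Real.sqrt (⌊r * (q : ℝ) ^ (51 / 100 : ℝ)⌋₊ : ℝ) := by
    refine le_trans (norm_sum_le _ _) (le_trans (Finset.sum_le_sum fun n _ => ?_) (Maj_sum_sqrt _))
    refine le_trans (Maj_term_norm χ _ n) ?_
    rw [abs_of_nonneg (Maj_Phi_nonneg _ _ _ _)]
    exact mul_le_of_le_one_left (by positivity) (Maj_Phi_le_one _ _ _)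
  have h2 : ‖SS μ q r χ‖ ^ 2 ≤ (2 * Real.sqrt (⌊r * (q : ℝ) ^ (51 / 100 : ℝ)⌋₊ : ℝ)) ^ 2 :=
    pow_le_pow_left₀ (norm_nonneg _) h1 2
  rw [mul_pow, Real.sq_sqrt (Nat.cast_nonneg _)] at h2
  have h3 : (⌊r * (q : ℝ) ^ (51 / 100 : ℝ)⌋₊ : ℝ) ≤ |r| * (q : ℝ) ^ (51 / 100 : ℝ) := by
    rcases le_or_gt 0 (r * (q : ℝ) ^ (51 / 100 : ℝ)) with h | h
    · exact le_trans (Nat.floor_le h) (mul_le_mul_of_nonneg_right (le_abs_self r) hc)
    · rw [Nat.floor_of_nonpos h.le]
      simp only [Nat.cast_zero]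
      positivity
  rw [pow_one]
  nlinarith

theorem Maj_SS_meas {μ : Measure ℝ} [IsProbabilityMeasure μ] (q : ℕ)
    (χ : DirichletCharacter ℂ q) : Measurable fun r : ℝ => SS μ q r χ := by
  have h0 : ∀ n : ℕ, Measurable fun r : ℝ =>
      (Phi μ q r n : ℂ) * χ (n : ZMod q) / (Real.sqrt n : ℂ) := fun n =>
    ((Complex.measurable_ofReal.comp (Maj_Phi_meas q n)).mul_const _).div_const _
  have h1 : ∀ m : ℕ, Measurable fun r : ℝ => ∑ n ∈ Icc 1 m,
      (Phi μ q r n : ℂ) * χ (n : ZMod q) / (Real.sqrt n : ℂ) := fun m =>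
    Finset.measurable_fun_sum (Icc 1 m) (fun n _ => h0 n)
  obtain ⟨F, hF⟩ : ∃ F : ℕ → ℝ → ℂ, F = fun (m : ℕ) (r : ℝ) => ∑ n ∈ Icc 1 m,
      (Phi μ q r n : ℂ) * χ (n : ZMod q) / (Real.sqrt n : ℂ) := ⟨_, rfl⟩
  have hFm : ∀ m, Measurable (F m) := fun m => by rw [hF]; exact h1 m
  have h3 : Measurable fun p : ℕ × ℝ => F p.1 p.2 :=
    measurable_from_prod_countable_right fun m => hFm m
  have h2 : Measurable fun r : ℝ => (⌊r * (q : ℝ) ^ (51 / 100 : ℝ)⌋₊, r) :=
    (Nat.measurable_floor.comp (measurable_id.mul_const _)).prodMk measurable_id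
  have h4 : (fun r : ℝ => SS μ q r χ) =
      fun r : ℝ => F ⌊r * (q : ℝ) ^ (51 / 100 : ℝ)⌋₊ r := by
    funext r
    rw [hF]
    rfl
  rw [h4]
  exact h3.comp h2

/-- the square of the mean is at most the mean of the square -/
theorem Maj_sq_mean {ν : Measure ℝ} [IsProbabilityMeasure ν] {f : ℝ → ℝ} (hf : Integrable f ν)
    (hf2 : Integrable (fun r => f r ^ 2) ν) : (∫ r, f r ∂ν) ^ 2 ≤ ∫ r, f r ^ 2 ∂ν := by
  obtain ⟨m, hm⟩ : ∃ m : ℝ, m = ∫ r, f r ∂ν := ⟨_, rfl⟩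
  have h1 : 0 ≤ ∫ r, (f r - m) ^ 2 ∂ν := integral_nonneg fun r => sq_nonneg _
  have h2 : (fun r => (f r - m) ^ 2) = fun r => (f r ^ 2 - 2 * m * f r) + m ^ 2 := by
    funext r
    ring
  have h3 : Integrable (fun r => 2 * m * f r) ν := hf.const_mul _
  have h4 : Integrable (fun r => f r ^ 2 - 2 * m * f r) ν := hf2.sub h3
  rw [h2, integral_add h4 (integrable_const _), integral_sub hf2 h3, integral_const_mul,
    ← hm] at h1
  simp only [integral_const, probReal_univ, one_smul] at h1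
  rw [← hm]
  nlinarith

theorem Maj_summable (M : ℝ) : Summable fun n : ℕ => M / (n : ℝ) ^ 2 := by
  have := (Real.summable_nat_pow_inv (p := 2)).2 one_lt_two
  simpa [div_eq_mul_inv] using this.mul_left M

theorem majorant {C : ℝ} {ν : Measure ℝ} (hν : Cut ν C) {q : ℕ} [NeZero q] (hq : 3 ≤ q)
    (χ : DirichletCharacter ℂ q) (ε : ℂ) (hε : ‖ε‖ = 1)
    (h : ∀ T : ℝ, 0 < T → DirichletCharacter.LFunction χ (1 / 2) =
          ∑' n : ℕ, (ν.real (Set.Ioi (n / T)) : ℂ) * χ (n : ZMod q) / (Real.sqrt n : ℂ) +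
          ε * ∑' n : ℕ, (ν.real (Set.Ioi (n * T / q)) : ℂ) *
            (starRingEnd ℂ) (χ (n : ZMod q)) / (Real.sqrt n : ℂ))
    {μ : Measure ℝ} {C' : ℝ} {K : ℕ} (hμ : Smooth μ C' K) :
    Integrable (fun r => ‖SS μ q r χ‖ ^ 2) ν ∧
      ‖DirichletCharacter.LFunction χ (1 / 2)‖ ^ 2 ≤ 4 * ∫ r, ‖SS μ q r χ‖ ^ 2 ∂ν := by
  have hpν := hν.prob
  have hpμ := hμ.prob
  have hq0 : (0 : ℝ) < q := by exact_mod_cast (by omega : 0 < q)
  have hq1 : (1 : ℝ) ≤ q := by exact_mod_cast (by omega : 1 ≤ q)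
  have hint : Integrable (fun r => ‖SS μ q r χ‖ ^ 2) ν := by
    refine Integrable.mono' ((hν.mom 1).norm.const_mul (4 * (q : ℝ) ^ (51 / 100 : ℝ)))
      ((Maj_SS_meas q χ).norm.pow_const 2).aestronglyMeasurable
      (Filter.Eventually.of_forall fun r => ?_)
    rw [Real.norm_eq_abs, abs_of_nonneg (sq_nonneg _)]
    exact Maj_SS_norm q r χ
  refine ⟨hint, ?_⟩
  have hint1 : Integrable (fun r => ‖SS μ q r χ‖) ν := by
    refine Integrable.mono' (hint.add (integrable_const (1 : ℝ)))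
      (Maj_SS_meas q χ).norm.aestronglyMeasurable (Filter.Eventually.of_forall fun r => ?_)
    rw [Real.norm_eq_abs, abs_of_nonneg (norm_nonneg _)]
    simp only [Pi.add_apply]
    nlinarith [sq_nonneg (‖SS μ q r χ‖ - 1)]
  obtain ⟨M, hM0, hM⟩ := Maj_markov hν
  -- the tails
  obtain ⟨g, hg⟩ : ∃ g : ℕ → ℝ → ℝ, g = fun (n : ℕ) (v : ℝ) => ν.real (Set.Ioi ((n : ℝ) / (q : ℝ) ^ v)) :=
    ⟨_, rfl⟩
  have hg0 : ∀ n v, 0 ≤ g n v := fun n v => by rw [hg]; exact measureReal_nonneg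
  have hgm : ∀ n, Measurable (g n) := by
    intro n
    have h1 : Antitone fun x : ℝ => ν.real (Set.Ioi x) := fun x y hxy =>
      measureReal_mono (Set.Ioi_subset_Ioi hxy)
    have hcont : Continuous fun v : ℝ => (n : ℝ) / (q : ℝ) ^ v :=
      continuous_const.div (Real.continuous_const_rpow hq0.ne')
        fun v => (Real.rpow_pos_of_pos hq0 v).ne'
    rw [hg]
    exact h1.measurable.comp hcont.measurable
  have hg1 : ∀ n v, g n v ≤ 1 := fun n v => by rw [hg]; exact measureReal_le_one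
  -- terms
  obtain ⟨B, hB⟩ : ∃ B : ℝ, B = M * (q : ℝ) ^ 2 := ⟨_, rfl⟩
  have hgb : ∀ (n : ℕ) (v : ℝ), v ≤ 1 → g n v * (1 / Real.sqrt n) ≤ B / (n : ℝ) ^ 2 := by
    intro n v hv
    rcases Nat.eq_zero_or_pos n with rfl | hn
    · simp
    have hn0 : (0 : ℝ) < n := by exact_mod_cast hn
    have hn1 : (1 : ℝ) ≤ n := by exact_mod_cast hn
    have hqv : 0 < (q : ℝ) ^ v := Real.rpow_pos_of_pos hq0 v
    have h1 : g n v ≤ M / ((n : ℝ) / (q : ℝ) ^ v) ^ 2 := by
      rw [hg]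
      exact hM _ (div_pos hn0 hqv)
    have h2 : M / ((n : ℝ) / (q : ℝ) ^ v) ^ 2 ≤ B / (n : ℝ) ^ 2 := by
      rw [div_pow, div_div_eq_mul_div, hB]
      have h3 : (q : ℝ) ^ v ≤ q := by
        calc (q : ℝ) ^ v ≤ (q : ℝ) ^ (1 : ℝ) := Real.rpow_le_rpow_of_exponent_le hq1 hv
          _ = q := Real.rpow_one _
      have h4 : ((q : ℝ) ^ v) ^ 2 ≤ (q : ℝ) ^ 2 := pow_le_pow_left₀ hqv.le h3 2
      exact div_le_div_of_nonneg_right (mul_le_mul_of_nonneg_left h4 hM0) (by positivity)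
    have h5 : 1 / Real.sqrt n ≤ 1 := by
      rw [div_le_one (Real.sqrt_pos.2 hn0)]
      exact Real.one_le_sqrt.2 hn1
    exact le_trans (mul_le_of_le_one_right (hg0 n v) h5) (le_trans h1 h2)
  -- the symmetric average
  obtain ⟨G, hG⟩ : ∃ G : ℕ → ℝ, G = fun n => ∫ v, g n v ∂μ := ⟨_, rfl⟩
  have hgi : ∀ n, Integrable (g n) μ := by
    intro n
    refine Integrable.mono' (integrable_const (1 : ℝ)) (hgm n).aestronglyMeasurable
      (Filter.Eventually.of_forall fun v => ?_)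
    rw [Real.norm_eq_abs, abs_of_nonneg (hg0 n v)]
    exact hg1 n v
  have hm1 : Measurable fun v : ℝ => 1 - v := measurable_const.sub measurable_id
  have hgi' : ∀ n, Integrable (fun v => g n (1 - v)) μ := by
    intro n
    refine Integrable.mono' (integrable_const (1 : ℝ)) ((hgm n).comp hm1).aestronglyMeasurable
      (Filter.Eventually.of_forall fun v => ?_)
    rw [Real.norm_eq_abs, abs_of_nonneg (hg0 n _)]
    exact hg1 n _
  have hGs : ∀ n, ∫ v, g n (1 - v) ∂μ = G n := by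
    intro n
    have h1 := integral_map (μ := μ) hm1.aemeasurable (f := g n)
      (by rw [hμ.symm]; exact (hgm n).aestronglyMeasurable)
    rw [hμ.symm] at h1
    rw [hG]
    exact h1.symm
  have haeμ : ∀ᵐ v ∂μ, v ∈ Set.Icc (49 / 100 : ℝ) (51 / 100) := by
    rw [ae_iff]
    exact hμ.supp
  have hG0 : ∀ n, 0 ≤ G n := fun n => by rw [hG]; exact integral_nonneg (hg0 n)
  have hGb : ∀ n : ℕ, G n * (1 / Real.sqrt n) ≤ B / (n : ℝ) ^ 2 := by
    intro n
    have h1 : ∫ v, g n v * (1 / Real.sqrt n) ∂μ ≤ ∫ _, B / (n : ℝ) ^ 2 ∂μ := by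
      refine integral_mono_ae ((hgi n).mul_const _) (integrable_const _) ?_
      filter_upwards [haeμ] with v hv
      exact hgb n v (by linarith [hv.2])
    rw [integral_mul_const] at h1
    simp only [integral_const, probReal_univ, one_smul] at h1
    have h2 : G n = ∫ v, g n v ∂μ := by rw [hG]
    rw [h2]
    exact h1
  -- the function is a convergent series for every admissible v
  have hsum1 : ∀ v : ℝ, v ≤ 1 → Summable fun n : ℕ =>
      (g n v : ℂ) * χ (n : ZMod q) / (Real.sqrt n : ℂ) := by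
    intro v hv
    refine Summable.of_norm_bounded (Maj_summable B) fun n => ?_
    refine le_trans (Maj_term_norm χ _ n) ?_
    rw [abs_of_nonneg (hg0 n v)]
    exact hgb n v hv
  have hstar : ∀ (x : ℝ) (n : ℕ),
      (x : ℂ) * (starRingEnd ℂ) (χ (n : ZMod q)) / (Real.sqrt n : ℂ) =
        (starRingEnd ℂ) ((x : ℂ) * χ (n : ZMod q) / (Real.sqrt n : ℂ)) := by
    intro x n
    rw [map_div₀, map_mul, Complex.conj_ofReal, Complex.conj_ofReal]
  have hsum2 : ∀ v : ℝ, 0 ≤ v → Summable fun n : ℕ =>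
      (g n (1 - v) : ℂ) * (starRingEnd ℂ) (χ (n : ZMod q)) / (Real.sqrt n : ℂ) := by
    intro v hv
    refine Summable.of_norm_bounded (Maj_summable B) fun n => ?_
    rw [hstar, RCLike.norm_conj]
    refine le_trans (Maj_term_norm χ _ n) ?_
    rw [abs_of_nonneg (hg0 n _)]
    exact hgb n _ (by linarith)
  obtain ⟨L, hL⟩ : ∃ L : ℂ, L = DirichletCharacter.LFunction χ (1 / 2) := ⟨_, rfl⟩
  have hLv : ∀ v : ℝ, 0 ≤ v → v ≤ 1 → HasSum (fun n : ℕ =>
      (g n v : ℂ) * χ (n : ZMod q) / (Real.sqrt n : ℂ) +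
        ε * ((g n (1 - v) : ℂ) * (starRingEnd ℂ) (χ (n : ZMod q)) / (Real.sqrt n : ℂ))) L := by
    intro v hv0 hv1
    have h1 := h ((q : ℝ) ^ v) (Real.rpow_pos_of_pos hq0 v)
    have h2 : ∀ n : ℕ, ν.real (Set.Ioi ((n : ℝ) * (q : ℝ) ^ v / q)) = g n (1 - v) := by
      intro n
      rw [hg]
      simp only
      rw [Real.rpow_sub hq0, Real.rpow_one, div_div_eq_mul_div]
    have h3 : ∀ n : ℕ, ν.real (Set.Ioi ((n : ℝ) / (q : ℝ) ^ v)) = g n v := by
      intro n
      rw [hg]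
    simp only [h2, h3] at h1
    rw [hL, h1]
    exact (hsum1 v hv1).hasSum.add ((hsum2 v hv0).hasSum.mul_left ε)
  have hmain1 : HasSum (fun n : ℕ => ∫ v,
      ((g n v : ℂ) * χ (n : ZMod q) / (Real.sqrt n : ℂ) +
        ε * ((g n (1 - v) : ℂ) * (starRingEnd ℂ) (χ (n : ZMod q)) / (Real.sqrt n : ℂ))) ∂μ)
      (∫ _, L ∂μ) := by
    refine hasSum_integral_of_dominated_convergence (fun n _ => (2 * B) / (n : ℝ) ^ 2) ?_ ?_ ?_ ?_ ?_
    · intro n
      refine Measurable.aestronglyMeasurable ?_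
      refine Measurable.add ?_ (Measurable.const_mul ?_ _)
      · exact ((Complex.measurable_ofReal.comp (hgm n)).mul_const _).div_const _
      · exact ((Complex.measurable_ofReal.comp ((hgm n).comp hm1)).mul_const _).div_const _
    · intro n
      filter_upwards [haeμ] with v hv
      refine le_trans (norm_add_le _ _) ?_
      rw [norm_mul, hε, one_mul, hstar, RCLike.norm_conj]
      have h1 := Maj_term_norm χ (g n v) n
      have h2 := Maj_term_norm χ (g n (1 - v)) n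
      rw [abs_of_nonneg (hg0 n _)] at h1 h2
      have h3 := hgb n v (by linarith [hv.2])
      have h4 := hgb n (1 - v) (by linarith [hv.1])
      have h5 : 2 * B / (n : ℝ) ^ 2 = B / (n : ℝ) ^ 2 + B / (n : ℝ) ^ 2 := by ring
      rw [h5]
      exact add_le_add (h1.trans h3) (h2.trans h4)
    · exact Filter.Eventually.of_forall fun _ => Maj_summable _
    · exact integrable_const _
    · filter_upwards [haeμ] with v hv
      exact hLv v (by linarith [hv.1]) (by linarith [hv.2])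
  have hterm : ∀ n : ℕ, ∫ v,
      ((g n v : ℂ) * χ (n : ZMod q) / (Real.sqrt n : ℂ) +
        ε * ((g n (1 - v) : ℂ) * (starRingEnd ℂ) (χ (n : ZMod q)) / (Real.sqrt n : ℂ))) ∂μ =
      (G n : ℂ) * χ (n : ZMod q) / (Real.sqrt n : ℂ) +
        ε * ((G n : ℂ) * (starRingEnd ℂ) (χ (n : ZMod q)) / (Real.sqrt n : ℂ)) := by
    intro n
    have h1 : Integrable (fun v => (g n v : ℂ) * χ (n : ZMod q) / (Real.sqrt n : ℂ)) μ :=
      ((hgi n).ofReal.mul_const _).div_const _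
    have h2 : Integrable (fun v =>
        ε * ((g n (1 - v) : ℂ) * (starRingEnd ℂ) (χ (n : ZMod q)) / (Real.sqrt n : ℂ))) μ :=
      (((hgi' n).ofReal.mul_const _).div_const _).const_mul _
    rw [integral_add h1 h2, integral_div, integral_mul_const, integral_const_mul, integral_div,
      integral_mul_const, integral_complex_ofReal, integral_complex_ofReal, hGs n, hG]
  simp only [hterm] at hmain1
  have hGsum : Summable fun n : ℕ => (G n : ℂ) * χ (n : ZMod q) / (Real.sqrt n : ℂ) := by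
    refine Summable.of_norm_bounded (Maj_summable B) fun n => ?_
    refine le_trans (Maj_term_norm χ _ n) ?_
    rw [abs_of_nonneg (hG0 n)]
    exact hGb n
  obtain ⟨A, hA⟩ : ∃ A : ℂ, A = ∑' n : ℕ, (G n : ℂ) * χ (n : ZMod q) / (Real.sqrt n : ℂ) :=
    ⟨_, rfl⟩
  have hAs : HasSum (fun n : ℕ => (G n : ℂ) * χ (n : ZMod q) / (Real.sqrt n : ℂ)) A := by
    rw [hA]
    exact hGsum.hasSum
  have hAc : HasSum (fun n : ℕ =>
      (G n : ℂ) * (starRingEnd ℂ) (χ (n : ZMod q)) / (Real.sqrt n : ℂ)) ((starRingEnd ℂ) A) := by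
    simp only [hstar]
    exact Complex.hasSum_conj'.2 (by simpa using hAs)
  have hLA : L = A + ε * (starRingEnd ℂ) A := by
    have h1 := hmain1.unique (hAs.add (hAc.mul_left ε))
    simpa using h1
  have hLn : ‖L‖ ≤ 2 * ‖A‖ := by
    rw [hLA]
    refine le_trans (norm_add_le _ _) ?_
    rw [norm_mul, hε, one_mul, RCLike.norm_conj, two_mul]
  -- the second interchange
  have haeν : ∀ᵐ r ∂ν, 0 < r := by
    rw [ae_iff]
    convert hν.pos using 2
    ext r
    simp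
  have hPi : ∀ n : ℕ, Integrable (fun r => Phi μ q r n) ν := by
    intro n
    refine Integrable.mono' (integrable_const (1 : ℝ)) (Maj_Phi_meas q n).aestronglyMeasurable
      (Filter.Eventually.of_forall fun v => ?_)
    rw [Real.norm_eq_abs, abs_of_nonneg (Maj_Phi_nonneg _ _ _ _)]
    exact Maj_Phi_le_one _ _ _
  have hGP : ∀ n : ℕ, (G n : ℂ) * χ (n : ZMod q) / (Real.sqrt n : ℂ) =
      ∫ r, (Phi μ q r n : ℂ) * χ (n : ZMod q) / (Real.sqrt n : ℂ) ∂ν := by
    intro n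
    rw [integral_div, integral_mul_const, integral_complex_ofReal]
    rcases Nat.eq_zero_or_pos n with rfl | hn
    · simp
    · rw [hG, ← Maj_fub hν.pos hq hn, hg]
  have hPs : ∀ n : ℕ, Integrable
      (fun r => (Phi μ q r n : ℂ) * χ (n : ZMod q) / (Real.sqrt n : ℂ)) ν := fun n =>
    ((hPi n).ofReal.mul_const _).div_const _
  have hPsum : Summable fun n : ℕ =>
      ∫ r, ‖(Phi μ q r n : ℂ) * χ (n : ZMod q) / (Real.sqrt n : ℂ)‖ ∂ν := by
    refine Summable.of_nonneg_of_le (fun n => integral_nonneg fun r => norm_nonneg _)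
      (fun n => ?_) (Maj_summable B)
    refine le_trans ?_ (hGb n)
    rcases Nat.eq_zero_or_pos n with rfl | hn
    · simp
    have h1 : G n * (1 / Real.sqrt n) = ∫ r, Phi μ q r n * (1 / Real.sqrt n) ∂ν := by
      rw [integral_mul_const, hG, ← Maj_fub hν.pos hq hn, hg]
    rw [h1]
    refine integral_mono (hPs n).norm ((hPi n).mul_const _) fun r => ?_
    refine le_trans (Maj_term_norm χ _ n) ?_
    rw [abs_of_nonneg (Maj_Phi_nonneg _ _ _ _)]
  have hmain2 := hasSum_integral_of_summable_integral_norm hPs hPsum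
  have hSSt : ∀ᵐ r ∂ν, ∑' n : ℕ, (Phi μ q r n : ℂ) * χ (n : ZMod q) / (Real.sqrt n : ℂ) =
      SS μ q r χ := by
    filter_upwards [haeν] with r hr
    unfold SS
    refine tsum_eq_sum fun n hn => ?_
    rcases Nat.eq_zero_or_pos n with rfl | hn0
    · simp
    · have h1 : ⌊r * (q : ℝ) ^ (51 / 100 : ℝ)⌋₊ < n := by
        by_contra h2
        exact hn (Finset.mem_Icc.2 ⟨hn0, not_lt.1 h2⟩)
      rw [Maj_Phi_zero hμ hq hr h1]
      simp
  have hAint : A = ∫ r, SS μ q r χ ∂ν := by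
    have h1 : HasSum (fun n : ℕ => (G n : ℂ) * χ (n : ZMod q) / (Real.sqrt n : ℂ))
        (∫ r, ∑' n : ℕ, (Phi μ q r n : ℂ) * χ (n : ZMod q) / (Real.sqrt n : ℂ) ∂ν) := by
      simp only [hGP]
      exact hmain2
    rw [hAs.unique h1]
    exact integral_congr_ae hSSt
  have hAn : ‖A‖ ≤ ∫ r, ‖SS μ q r χ‖ ∂ν := by
    rw [hAint]
    exact norm_integral_le_integral_norm _
  have hsq := Maj_sq_mean hint1 hint
  rw [← hL]
  have h0 : ‖L‖ ≤ 2 * ∫ r, ‖SS μ q r χ‖ ∂ν := by linarith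
  calc ‖L‖ ^ 2 ≤ (2 * ∫ r, ‖SS μ q r χ‖ ∂ν) ^ 2 := pow_le_pow_left₀ (norm_nonneg _) h0 2
    _ = 4 * (∫ r, ‖SS μ q r χ‖ ∂ν) ^ 2 := by ring
    _ ≤ _ := by linarith

end Pool.Agent.NV
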