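import Pool.Agent.Lib.MP_afd523_nt.Defs

/-!
Moments of the Fourier weight `phi μ` of an admissible smoothing measure.
-/

namespace Pool.Agent.NV

open Finset Complex MeasureTheory

/-- the exponential integral of the measure -/
noncomputable def MomE (μ : Measure ℝ) (t : ℝ) : ℂ :=
  ∫ v, Complex.exp ((1 + t * Complex.I) * v) ∂μ

theorem Mom_ae {μ : Measure ℝ} {C : ℝ} {K : ℕ} (h : Smooth μ C K) :
    ∀ᵐ v ∂μ, v ∈ Set.Icc (49 / 100 : ℝ) (51 / 100) := by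
  rw [ae_iff]
  exact h.supp

theorem Mom_cont {μ : Measure ℝ} {C : ℝ} {K : ℕ} (h : Smooth μ C K) :
    Continuous (MomE μ) := by
  haveI := h.prob
  unfold MomE
  apply continuous_of_dominated (bound := fun _ => Real.exp (51 / 100))
  · intro t
    apply Continuous.aestronglyMeasurable
    fun_prop
  · intro t
    filter_upwards [Mom_ae h] with v hv
    rw [Complex.norm_exp]
    have h1 : ((1 + (t : ℂ) * Complex.I) * (v : ℂ)).re = v := by
      simp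
    rw [h1]
    exact Real.exp_le_exp.mpr hv.2
  · exact integrable_const _
  · filter_upwards with v
    fun_prop

theorem Mom_den (t : ℝ) : (1 : ℝ) ≤ ‖(1 + (t : ℂ) * Complex.I)‖ := by
  have h1 := Complex.abs_re_le_norm (1 + (t : ℂ) * Complex.I)
  simpa using h1

theorem Mom_den_ne (t : ℝ) : (1 + (t : ℂ) * Complex.I) ≠ 0 := by
  intro h
  have := Mom_den t
  rw [h, norm_zero] at this
  linarith

theorem Mom_phi_norm (μ : Measure ℝ) (t : ℝ) :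
    ‖phi μ t‖ ≤ ‖MomE μ t‖ / (2 * Real.pi) := by
  have h1 : phi μ t = 1 / (2 * (Real.pi : ℂ)) * MomE μ t / (1 + (t : ℂ) * Complex.I) := rfl
  have h2 : ‖(1 / (2 * (Real.pi : ℂ)))‖ = 1 / (2 * Real.pi) := by
    rw [norm_div, norm_mul, Complex.norm_real]
    simp [abs_of_pos Real.pi_pos]
  rw [h1, norm_div, norm_mul, h2]
  have h3 : 0 ≤ 1 / (2 * Real.pi) * ‖MomE μ t‖ := by positivity
  calc 1 / (2 * Real.pi) * ‖MomE μ t‖ / ‖(1 + (t : ℂ) * Complex.I)‖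
      ≤ 1 / (2 * Real.pi) * ‖MomE μ t‖ / 1 :=
        div_le_div_of_nonneg_left h3 one_pos (Mom_den t)
    _ = ‖MomE μ t‖ / (2 * Real.pi) := by ring

theorem Mom_phi_cont {μ : Measure ℝ} {C : ℝ} {K : ℕ} (h : Smooth μ C K) :
    Continuous (phi μ) := by
  have h1 : phi μ = fun t : ℝ => 1 / (2 * (Real.pi : ℂ)) * MomE μ t /
      (1 + (t : ℂ) * Complex.I) := rfl
  rw [h1]
  have h2 := Mom_cont h
  apply Continuous.div
  · fun_prop
  · fun_prop
  · exact Mom_den_ne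

/-- `(1+t²)(1+|t|)^m ≤ 2^(m+2) (1 + |t|^(m+2))` -/
theorem Mom_pow (t : ℝ) (m : ℕ) :
    (1 + t ^ 2) * (1 + |t|) ^ m ≤ 2 ^ (m + 2) * (1 + |t| ^ (m + 2)) := by
  have h0 : 0 ≤ |t| := abs_nonneg t
  have h1 : (1 + t ^ 2) ≤ (1 + |t|) ^ 2 := by
    have : t ^ 2 = |t| ^ 2 := (sq_abs t).symm
    rw [this]
    nlinarith
  have h2 : (1 + t ^ 2) * (1 + |t|) ^ m ≤ (1 + |t|) ^ (m + 2) := by
    calc (1 + t ^ 2) * (1 + |t|) ^ m ≤ (1 + |t|) ^ 2 * (1 + |t|) ^ m := by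
          apply mul_le_mul_of_nonneg_right h1 (by positivity)
      _ = (1 + |t|) ^ (m + 2) := by ring
  refine h2.trans ?_
  have hp : (0 : ℝ) ≤ 2 ^ (m + 2) := by positivity
  by_cases ht : |t| ≤ 1
  · calc (1 + |t|) ^ (m + 2) ≤ 2 ^ (m + 2) := by
          apply pow_le_pow_left₀ (by positivity)
          linarith
      _ ≤ 2 ^ (m + 2) * (1 + |t| ^ (m + 2)) := by
          have : 0 ≤ |t| ^ (m + 2) := by positivity
          nlinarith
  · push Not at ht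
    calc (1 + |t|) ^ (m + 2) ≤ (2 * |t|) ^ (m + 2) := by
          apply pow_le_pow_left₀ (by positivity)
          linarith
      _ = 2 ^ (m + 2) * |t| ^ (m + 2) := mul_pow _ _ _
      _ ≤ 2 ^ (m + 2) * (1 + |t| ^ (m + 2)) := by
          nlinarith

theorem Mom_poly (m : ℕ) : (((m + 1) * (m + 2) : ℕ) : ℝ) ≤ 2 * 3 ^ m := by
  have h : (m + 1) * (m + 2) ≤ 2 * 3 ^ m := by
    induction m with
    | zero => simp
    | succ m ih =>
      calc (m + 1 + 1) * (m + 1 + 2) ≤ 3 * ((m + 1) * (m + 2)) := by nlinarith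
        _ ≤ 3 * (2 * 3 ^ m) := Nat.mul_le_mul_left _ ih
        _ = 2 * 3 ^ (m + 1) := by ring
  exact_mod_cast h

theorem Mom_fact (m : ℕ) :
    (((m + 2).factorial : ℕ) : ℝ) ^ (21 / 20 : ℝ) ≤
      4 * 9 ^ m * (m.factorial : ℝ) ^ (21 / 20 : ℝ) := by
  have h1 : (((m + 2).factorial : ℕ) : ℝ) = (((m + 1) * (m + 2) : ℕ) : ℝ) * (m.factorial : ℝ) := by
    have : (m + 2).factorial = (m + 1) * (m + 2) * m.factorial := by
      rw [Nat.factorial_succ, Nat.factorial_succ]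
      ring
    rw [this]
    push_cast
    ring
  rw [h1, Real.mul_rpow (by positivity) (by positivity)]
  apply mul_le_mul_of_nonneg_right _ (by positivity)
  have h2 := Mom_poly m
  have h3 : (1 : ℝ) ≤ 2 * 3 ^ m := by
    have : (1 : ℝ) ≤ 3 ^ m := one_le_pow₀ (by norm_num)
    linarith
  calc (((m + 1) * (m + 2) : ℕ) : ℝ) ^ (21 / 20 : ℝ) ≤ (2 * 3 ^ m : ℝ) ^ (21 / 20 : ℝ) :=
        Real.rpow_le_rpow (by positivity) h2 (by norm_num)
    _ ≤ (2 * 3 ^ m : ℝ) ^ (2 : ℝ) := Real.rpow_le_rpow_of_exponent_le h3 (by norm_num)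
    _ = (2 * 3 ^ m : ℝ) ^ 2 := by norm_cast
    _ = 4 * 9 ^ m := by
        rw [mul_pow, ← pow_mul, mul_comm m 2, pow_mul]
        norm_num

/-- the pointwise bound -/
theorem Mom_point {μ : Measure ℝ} {C : ℝ} {K : ℕ} (hC : 1 ≤ C) (h : Smooth μ C K) (m : ℕ)
    (hm : m + 2 ≤ K) (t : ℝ) :
    ‖phi μ t‖ * (1 + |t|) ^ m ≤
      (16 * 18 ^ m * C ^ (m + 3) * (m.factorial : ℝ) ^ (21 / 20 : ℝ) / Real.pi) *
        (1 + t ^ 2)⁻¹ := by
  have hC0 : 0 < C := by linarith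
  have hpos : 0 < 1 + t ^ 2 := by positivity
  have hpi := Real.pi_pos
  rw [← div_eq_mul_inv, le_div_iff₀ hpos]
  have e0 : ‖MomE μ t‖ ≤ C := by
    have := h.dec 0 t (Nat.zero_le _)
    simpa [MomE] using this
  have e1 : |t| ^ (m + 2) * ‖MomE μ t‖ ≤
      C ^ (m + 3) * (((m + 2).factorial : ℕ) : ℝ) ^ (21 / 20 : ℝ) := h.dec (m + 2) t hm
  have e2 : (((m + 2).factorial : ℕ) : ℝ) ^ (21 / 20 : ℝ) ≤
      4 * 9 ^ m * (m.factorial : ℝ) ^ (21 / 20 : ℝ) := Mom_fact m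
  have hf : (1 : ℝ) ≤ (m.factorial : ℝ) ^ (21 / 20 : ℝ) := by
    apply Real.one_le_rpow _ (by norm_num)
    exact_mod_cast Nat.succ_le_of_lt (Nat.factorial_pos m)
  have h9 : (1 : ℝ) ≤ 9 ^ m := one_le_pow₀ (by norm_num)
  have hCm : C ≤ C ^ (m + 3) := by
    calc C = C ^ 1 := (pow_one C).symm
      _ ≤ C ^ (m + 3) := pow_le_pow_right₀ hC (by omega)
  set F : ℝ := (m.factorial : ℝ) ^ (21 / 20 : ℝ) with hF
  have e3 : (1 + |t| ^ (m + 2)) * ‖MomE μ t‖ ≤ C ^ (m + 3) * (8 * 9 ^ m * F) := by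
    have hCp : 0 < C ^ (m + 3) := by positivity
    have e4 : |t| ^ (m + 2) * ‖MomE μ t‖ ≤ C ^ (m + 3) * (4 * 9 ^ m * F) :=
      e1.trans (mul_le_mul_of_nonneg_left e2 hCp.le)
    have e5 : ‖MomE μ t‖ ≤ C ^ (m + 3) * (4 * 9 ^ m * F) := by
      calc ‖MomE μ t‖ ≤ C ^ (m + 3) := e0.trans hCm
        _ = C ^ (m + 3) * 1 := (mul_one _).symm
        _ ≤ C ^ (m + 3) * (4 * 9 ^ m * F) := by
            apply mul_le_mul_of_nonneg_left _ hCp.le
            nlinarith [mul_le_mul h9 hf zero_le_one (by positivity)]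
    calc (1 + |t| ^ (m + 2)) * ‖MomE μ t‖ = ‖MomE μ t‖ + |t| ^ (m + 2) * ‖MomE μ t‖ := by ring
      _ ≤ C ^ (m + 3) * (4 * 9 ^ m * F) + C ^ (m + 3) * (4 * 9 ^ m * F) := add_le_add e5 e4
      _ = C ^ (m + 3) * (8 * 9 ^ m * F) := by ring
  calc ‖phi μ t‖ * (1 + |t|) ^ m * (1 + t ^ 2)
      ≤ ‖MomE μ t‖ / (2 * Real.pi) * (1 + |t|) ^ m * (1 + t ^ 2) := by
        apply mul_le_mul_of_nonneg_right _ hpos.le
        apply mul_le_mul_of_nonneg_right (Mom_phi_norm μ t) (by positivity)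
    _ = ‖MomE μ t‖ / (2 * Real.pi) * ((1 + t ^ 2) * (1 + |t|) ^ m) := by ring
    _ ≤ ‖MomE μ t‖ / (2 * Real.pi) * (2 ^ (m + 2) * (1 + |t| ^ (m + 2))) :=
        mul_le_mul_of_nonneg_left (Mom_pow t m) (by positivity)
    _ = 2 ^ (m + 2) / (2 * Real.pi) * ((1 + |t| ^ (m + 2)) * ‖MomE μ t‖) := by ring
    _ ≤ 2 ^ (m + 2) / (2 * Real.pi) * (C ^ (m + 3) * (8 * 9 ^ m * F)) :=
        mul_le_mul_of_nonneg_left e3 (by positivity)
    _ = 16 * 18 ^ m * C ^ (m + 3) * F / Real.pi := by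
        have h18 : (18 : ℝ) ^ m = 2 ^ m * 9 ^ m := by
          rw [← mul_pow]
          norm_num
        rw [h18]
        field_simp
        ring

theorem phi_mom (C : ℝ) (hC : 1 ≤ C) : ∃ C' : ℝ, 1 ≤ C' ∧ ∀ (μ : Measure ℝ) (K m : ℕ),
    Smooth μ C K → m + 2 ≤ K → Integrable (fun t => ‖phi μ t‖ * (1 + |t|) ^ m) ∧
      ∫ t, ‖phi μ t‖ * (1 + |t|) ^ m ≤ C' ^ (m + 1) * (m.factorial : ℝ) ^ (21 / 20 : ℝ) := by
  have hC3 : 1 ≤ C ^ 3 := one_le_pow₀ hC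
  refine ⟨18 * C ^ 3, by linarith, ?_⟩
  intro μ K m h hm
  set D : ℝ := 16 * 18 ^ m * C ^ (m + 3) * (m.factorial : ℝ) ^ (21 / 20 : ℝ) / Real.pi with hD
  have hb : ∀ t : ℝ, ‖phi μ t‖ * (1 + |t|) ^ m ≤ D * (1 + t ^ 2)⁻¹ := Mom_point hC h m hm
  have hDi : Integrable (fun t : ℝ => D * (1 + t ^ 2)⁻¹) :=
    integrable_inv_one_add_sq.const_mul D
  have hc : Continuous (fun t : ℝ => ‖phi μ t‖ * (1 + |t|) ^ m) := by
    have := Mom_phi_cont h
    fun_prop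
  have hI : Integrable (fun t : ℝ => ‖phi μ t‖ * (1 + |t|) ^ m) := by
    apply hDi.mono' hc.aestronglyMeasurable
    filter_upwards with t
    rw [Real.norm_of_nonneg (by positivity)]
    exact hb t
  refine ⟨hI, ?_⟩
  have hpi := Real.pi_pos
  have hC0 : 0 < C := by linarith
  calc ∫ t, ‖phi μ t‖ * (1 + |t|) ^ m ≤ ∫ t : ℝ, D * (1 + t ^ 2)⁻¹ :=
        integral_mono hI hDi hb
    _ = D * Real.pi := by
        rw [integral_const_mul, integral_univ_inv_one_add_sq]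
    _ = 16 * 18 ^ m * C ^ (m + 3) * (m.factorial : ℝ) ^ (21 / 20 : ℝ) := by
        rw [hD]
        field_simp
    _ ≤ (18 * C ^ 3) ^ (m + 1) * (m.factorial : ℝ) ^ (21 / 20 : ℝ) := by
        apply mul_le_mul_of_nonneg_right _ (by positivity)
        rw [mul_pow, ← pow_mul]
        have h1 : C ^ (m + 3) ≤ C ^ (3 * (m + 1)) := pow_le_pow_right₀ hC (by omega)
        have h2 : (16 : ℝ) * 18 ^ m ≤ 18 ^ (m + 1) := by
          rw [pow_succ]
          have : (0 : ℝ) < 18 ^ m := by positivity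
          linarith
        exact mul_le_mul h2 h1 (by positivity) (by positivity)

end Pool.Agent.NV
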