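import Pool.Agent.Lib.MP_afd523_nt.Defs

/-!
Module EP: finite sums over smooth numbers are at most the Euler product.
-/

namespace Pool.Agent.NV

open Finset Complex MeasureTheory

theorem Euler_prime_le {w s p : ℕ} (hs : sm w s = s) (hp : p.Prime) (hd : p ∣ s) : p ≤ w := by
  rw [← hs] at hd
  unfold sm at hd
  obtain ⟨r, hr, hr2⟩ := (Prime.dvd_finsetProd_iff (Nat.Prime.prime hp) _).1 hd
  have h3 := hp.dvd_of_dvd_pow hr2
  rw [Finset.mem_filter] at hr
  have h4 : r.Prime := Nat.prime_of_mem_primeFactors hr.1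
  have h5 : p = r := (Nat.prime_dvd_prime_iff_eq hp h4).1 h3
  rw [h5]
  exact hr.2

theorem Euler_prod (w : ℕ) (f : ℕ → ℝ) (h1 : f 1 = 1)
    (hmul : ∀ a b : ℕ, Nat.Coprime a b → f (a * b) = f a * f b) (s : ℕ) (hs0 : s ≠ 0)
    (hs : sm w s = s) :
    f s = ∏ p ∈ (Icc 1 w).filter Nat.Prime, f (p ^ s.factorization p) := by
  rw [Nat.multiplicative_factorization f hmul h1 hs0]
  unfold Finsupp.prod
  apply Finset.prod_subset
  · intro p hp
    rw [Nat.support_factorization] at hp
    have h4 : p.Prime := Nat.prime_of_mem_primeFactors hp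
    rw [Finset.mem_filter, Finset.mem_Icc]
    exact ⟨⟨h4.one_lt.le, Euler_prime_le hs h4 (Nat.dvd_of_mem_primeFactors hp)⟩, h4⟩
  · intro p _ hp
    rw [Finsupp.notMem_support_iff] at hp
    show f (p ^ s.factorization p) = 1
    rw [hp, pow_zero, h1]

theorem euler_le (w X : ℕ) (f B : ℕ → ℝ) (hf : ∀ n, 0 ≤ f n) (h1 : f 1 = 1)
    (hmul : ∀ a b : ℕ, Nat.Coprime a b → f (a * b) = f a * f b)
    (hB : ∀ p : ℕ, p.Prime → p ≤ w → ∀ K : ℕ, ∑ k ∈ range K, f (p ^ (k + 1)) ≤ B p) :
    ∑ s ∈ (Icc 1 X).filter (fun s => sm w s = s), f s ≤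
      ∏ p ∈ (Icc 1 w).filter Nat.Prime, (1 + B p) := by
  classical
  set P := (Icc 1 w).filter Nat.Prime with hP
  -- the product of the finite sums
  have step1 : ∏ p ∈ P, ∑ k ∈ range (X + 1), f (p ^ k) ≤ ∏ p ∈ P, (1 + B p) := by
    apply Finset.prod_le_prod
    · intro p _
      exact Finset.sum_nonneg (fun k _ => hf _)
    · intro p hp
      rw [hP, Finset.mem_filter, Finset.mem_Icc] at hp
      rw [Finset.sum_range_succ', pow_zero, h1, add_comm]
      have := hB p hp.2 hp.1.2 X
      linarith
  refine le_trans ?_ step1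
  rw [Finset.prod_sum]
  have hinj : Set.InjOn (fun (s : ℕ) => (fun (p : ℕ) (_ : p ∈ P) => s.factorization p))
      (((Icc 1 X).filter (fun s => sm w s = s) : Finset ℕ) : Set ℕ) := by
    intro s hs t ht hst
    rw [Finset.mem_coe, Finset.mem_filter, Finset.mem_Icc] at hs ht
    apply Nat.eq_of_factorization_eq (by omega) (by omega)
    intro p
    by_cases hp : p ∈ P
    · have := congrFun (congrFun hst p) hp
      exact this
    · have key : ∀ r : ℕ, r ≠ 0 → sm w r = r → r.factorization p = 0 := by
        intro r hr0 hr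
        by_cases hpp : p.Prime
        · by_cases hd : p ∣ r
          · exfalso
            apply hp
            rw [hP, Finset.mem_filter, Finset.mem_Icc]
            exact ⟨⟨hpp.one_lt.le, Euler_prime_le hr hpp hd⟩, hpp⟩
          · exact Nat.factorization_eq_zero_of_not_dvd hd
        · exact Nat.factorization_eq_zero_of_not_prime r hpp
      rw [key s (by omega) hs.2, key t (by omega) ht.2]
  calc ∑ s ∈ (Icc 1 X).filter (fun s => sm w s = s), f s
      = ∑ s ∈ (Icc 1 X).filter (fun s => sm w s = s),
          (fun (g : (p : ℕ) → p ∈ P → ℕ) => ∏ x ∈ P.attach, f (x.1 ^ g x.1 x.2))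
            (fun (p : ℕ) (_ : p ∈ P) => s.factorization p) := by
        apply Finset.sum_congr rfl
        intro s hs
        rw [Finset.mem_filter, Finset.mem_Icc] at hs
        rw [Euler_prod w f h1 hmul s (by omega) hs.2]
        exact (Finset.prod_attach P (fun p => f (p ^ s.factorization p))).symm
    _ = ∑ g ∈ ((Icc 1 X).filter (fun s => sm w s = s)).image
          (fun (s : ℕ) => (fun (p : ℕ) (_ : p ∈ P) => s.factorization p)),
          ∏ x ∈ P.attach, f (x.1 ^ g x.1 x.2) := by
        rw [Finset.sum_image hinj]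
    _ ≤ _ := by
        apply Finset.sum_le_sum_of_subset_of_nonneg
        · intro g hg
          rw [Finset.mem_image] at hg
          obtain ⟨s, hs, rfl⟩ := hg
          rw [Finset.mem_filter, Finset.mem_Icc] at hs
          rw [Finset.mem_pi]
          intro p hp
          rw [hP, Finset.mem_filter] at hp
          rw [Finset.mem_range]
          have h2 : s.factorization p < s := Nat.factorization_lt p (by omega)
          omega
        · intro g _ _
          exact Finset.prod_nonneg (fun x _ => hf _)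

end Pool.Agent.NV
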