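import Mathlib
import Pool.Agent.Lib.MP_afd523_nt.Defs

/-!
Module ST of NV (MP_afd523_nt): the sum of `τ(n)² / n`.
-/

namespace Pool.Agent.NV

open Finset Complex MeasureTheory

namespace STau

theorem sum_dvd_le (f : ℕ → ℝ) (hf : ∀ n, 0 ≤ f n) (X u : ℕ) (hu : 1 ≤ u) :
    ∑ e ∈ (Icc 1 X).filter (fun e => u ∣ e), f e ≤ ∑ v ∈ Icc 1 X, f (u * v) := by
  have hinj : Set.InjOn (fun v => u * v) ((Icc 1 X : Finset ℕ) : Set ℕ) :=
    fun x _ y _ hxy => Nat.eq_of_mul_eq_mul_left (show 0 < u by omega) hxy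
  rw [← sum_image (f := f) (g := fun v => u * v) hinj]
  refine sum_le_sum_of_subset_of_nonneg ?_ fun n _ _ => hf n
  intro e he
  rw [mem_filter, mem_Icc] at he
  obtain ⟨⟨h1, h2⟩, v, rfl⟩ := he
  rw [mem_image]
  have hv0 : v ≠ 0 := by
    rintro rfl
    rw [mul_zero] at h1
    omega
  refine ⟨v, mem_Icc.2 ⟨by omega, ?_⟩, rfl⟩
  exact (Nat.le_mul_of_pos_left v (by omega)).trans h2

/-- `Σ τ(e) f(e) ≤ (Σ f)²` for submultiplicative `f` -/
theorem sum_tau_le (f : ℕ → ℝ) (hf : ∀ n, 0 ≤ f n) (hm : ∀ m n, f (m * n) ≤ f m * f n) (X : ℕ) :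
    ∑ e ∈ Icc 1 X, (e.divisors.card : ℝ) * f e ≤ (∑ u ∈ Icc 1 X, f u) ^ 2 := by
  have h1 : ∀ e ∈ Icc 1 X, (e.divisors.card : ℝ) * f e =
      ∑ u ∈ Icc 1 X, if u ∣ e then f e else 0 := by
    intro e he
    rw [mem_Icc] at he
    rw [← sum_filter, sum_const, nsmul_eq_mul]
    congr 2
    refine congrArg card ?_
    ext u
    rw [Nat.mem_divisors, mem_filter, mem_Icc]
    constructor
    · rintro ⟨h2, h3⟩
      exact ⟨⟨Nat.pos_of_dvd_of_pos h2 he.1, (Nat.le_of_dvd he.1 h2).trans he.2⟩, h2⟩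
    · rintro ⟨_, h2⟩
      exact ⟨h2, by omega⟩
  rw [sum_congr rfl h1, sum_comm, sq, sum_mul]
  refine sum_le_sum fun u hu => ?_
  rw [mem_Icc] at hu
  rw [← sum_filter, mul_sum]
  exact (sum_dvd_le f hf X u hu.1).trans (sum_le_sum fun v _ => hm u v)

theorem sum_inv_le (X : ℕ) : ∑ u ∈ Icc 1 X, (1 : ℝ) / u ≤ 1 + Real.log X := by
  have h1 := harmonic_le_one_add_log X
  refine le_trans (le_of_eq ?_) h1
  rw [harmonic_eq_sum_Icc]
  push_cast
  exact sum_congr rfl fun u _ => one_div _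

theorem sum_tau_inv (X : ℕ) :
    ∑ e ∈ Icc 1 X, (e.divisors.card : ℝ) / e ≤ (1 + Real.log X) ^ 2 := by
  have h1 := sum_tau_le (fun n => (1 : ℝ) / n) (fun n => by positivity)
    (fun m n => le_of_eq (by push_cast; rw [div_mul_div_comm, one_mul])) X
  have h2 : ∑ e ∈ Icc 1 X, (e.divisors.card : ℝ) / e =
      ∑ e ∈ Icc 1 X, (e.divisors.card : ℝ) * (1 / e) :=
    sum_congr rfl fun e _ => by ring
  rw [h2]
  refine h1.trans (pow_le_pow_left₀ (sum_nonneg fun u _ => by positivity) (sum_inv_le X) 2)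

theorem tau_mul_le (m n : ℕ) :
    ((m * n).divisors.card : ℝ) ≤ (m.divisors.card : ℝ) * (n.divisors.card : ℝ) := by
  have h1 : (m * n).divisors.card ≤ m.divisors.card * n.divisors.card := by
    rw [Nat.divisors_mul]
    exact card_mul_le
  exact_mod_cast h1

end STau

theorem sum_tau_sq (X : ℕ) :
    ∑ n ∈ Icc 1 X, (n.divisors.card : ℝ) ^ 2 / n ≤ (1 + Real.log X) ^ 4 := by
  have h1 := STau.sum_tau_le (fun n => (n.divisors.card : ℝ) / n) (fun n => by positivity)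
    (fun m n => by
      show ((m * n).divisors.card : ℝ) / ((m * n : ℕ) : ℝ) ≤
        (m.divisors.card : ℝ) / m * ((n.divisors.card : ℝ) / n)
      push_cast
      rw [div_mul_div_comm]
      exact div_le_div_of_nonneg_right (STau.tau_mul_le m n) (by positivity)) X
  have h2 : ∑ n ∈ Icc 1 X, (n.divisors.card : ℝ) ^ 2 / n =
      ∑ n ∈ Icc 1 X, (n.divisors.card : ℝ) * ((n.divisors.card : ℝ) / n) :=
    sum_congr rfl fun e _ => by ring
  rw [h2]
  refine h1.trans ?_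
  have h3 : (1 + Real.log X) ^ 4 = ((1 + Real.log X) ^ 2) ^ 2 := by ring
  rw [h3]
  exact pow_le_pow_left₀ (sum_nonneg fun u _ => by positivity) (STau.sum_tau_inv X) 2

end Pool.Agent.NV
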