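import Pool.Agent.Lib.MP_afd523_nt.Defs
import Pool.Agent.Lib.MP_afd523_nt.Parts
import Pool.Agent.Lib.MP_afd523_nt.Euler
import Pool.Agent.Lib.MP_afd523_nt.STau

namespace Pool.Agent.NV

open Finset Complex MeasureTheory

/-! ### auxiliary lemmas -/

theorem rank_poly (j : ℕ) : ((j : ℝ) + 2) ^ 2 ≤ 16 * (3 / 2 : ℝ) ^ j := by
  have h : ∀ k : ℕ, ((k : ℝ) + 5) ^ 2 ≤ 16 * (3 / 2 : ℝ) ^ (k + 3) := by
    intro k
    induction k with
    | zero => norm_num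
    | succ k ih =>
      have h1 : ((k : ℝ) + 6) ^ 2 ≤ (3 / 2) * ((k : ℝ) + 5) ^ 2 := by nlinarith [Nat.cast_nonneg (α := ℝ) k]
      push_cast
      calc ((k : ℝ) + 1 + 5) ^ 2 = ((k : ℝ) + 6) ^ 2 := by ring
        _ ≤ (3 / 2) * ((k : ℝ) + 5) ^ 2 := h1
        _ ≤ (3 / 2) * (16 * (3 / 2 : ℝ) ^ (k + 3)) := by gcongr
        _ = 16 * (3 / 2 : ℝ) ^ (k + 1 + 3) := by ring
  rcases lt_or_ge j 3 with hj | hj
  · interval_cases j <;> norm_num
  · obtain ⟨k, rfl⟩ := Nat.exists_eq_add_of_le hj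
    have := h k
    push_cast
    calc ((3 : ℝ) + k + 2) ^ 2 = ((k : ℝ) + 5) ^ 2 := by ring
      _ ≤ 16 * (3 / 2 : ℝ) ^ (k + 3) := this
      _ = _ := by rw [add_comm k 3]

theorem rank_geom (x : ℝ) (hx0 : 0 ≤ x) (hx : x ≤ 3 / 5) (K : ℕ) :
    ∑ k ∈ range K, ((k : ℝ) + 2) ^ 2 * x ^ k ≤ 160 := by
  have h1 : ∀ k ∈ range K, ((k : ℝ) + 2) ^ 2 * x ^ k ≤ 16 * (9 / 10 : ℝ) ^ k := by
    intro k _
    calc ((k : ℝ) + 2) ^ 2 * x ^ k ≤ (16 * (3 / 2 : ℝ) ^ k) * (3 / 5 : ℝ) ^ k := by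
          gcongr
          exact rank_poly k
      _ = 16 * ((3 / 2 : ℝ) * (3 / 5)) ^ k := by rw [mul_pow]; ring
      _ = 16 * (9 / 10 : ℝ) ^ k := by norm_num
  refine (sum_le_sum h1).trans ?_
  rw [← mul_sum, geom_sum_eq (by norm_num)]
  have : (0 : ℝ) ≤ (9 / 10 : ℝ) ^ K := by positivity
  have h2 : ((9 / 10 : ℝ) ^ K - 1) / (9 / 10 - 1) = 10 * (1 - (9 / 10 : ℝ) ^ K) := by
    field_simp
    ring
  rw [h2]
  linarith

theorem rank_sum_rpow (b : ℝ) (hb0 : 0 < b) (hb1 : b ≤ 1) (w : ℕ) :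
    ∑ n ∈ Icc 1 w, (n : ℝ) ^ (b - 1) ≤ (w : ℝ) ^ b / b := by
  rw [le_div_iff₀ hb0]
  induction w with
  | zero => simp [Real.zero_rpow hb0.ne']
  | succ w ih =>
    rw [sum_Icc_succ_top (by omega), add_mul]
    have hn : (0 : ℝ) < ((w + 1 : ℕ) : ℝ) := by positivity
    have h1 := rpow_one_add_le_one_add_mul_self (s := -(1 / ((w + 1 : ℕ) : ℝ))) (p := b)
      (by
        have : 1 / ((w + 1 : ℕ) : ℝ) ≤ 1 := by
          rw [div_le_one hn]; push_cast; linarith [Nat.cast_nonneg (α := ℝ) w]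
        linarith) hb0.le hb1
    have h2 : (w : ℝ) ^ b = ((w + 1 : ℕ) : ℝ) ^ b * (1 + -(1 / ((w + 1 : ℕ) : ℝ))) ^ b := by
      rw [← Real.mul_rpow hn.le]
      · congr 1
        field_simp
        push_cast
        ring
      · have : 1 / ((w + 1 : ℕ) : ℝ) ≤ 1 := by
          rw [div_le_one hn]; push_cast; linarith [Nat.cast_nonneg (α := ℝ) w]
        linarith
    have h3 : ((w + 1 : ℕ) : ℝ) ^ (b - 1) = ((w + 1 : ℕ) : ℝ) ^ b * (1 / ((w + 1 : ℕ) : ℝ)) := by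
      rw [Real.rpow_sub_one hn.ne']; ring
    have h4 : (0 : ℝ) ≤ ((w + 1 : ℕ) : ℝ) ^ b := by positivity
    have h5 : (w : ℝ) ^ b ≤ ((w + 1 : ℕ) : ℝ) ^ b - ((w + 1 : ℕ) : ℝ) ^ (b - 1) * b := by
      rw [h2, h3]
      calc _ ≤ ((w + 1 : ℕ) : ℝ) ^ b * (1 + b * -(1 / ((w + 1 : ℕ) : ℝ))) := by gcongr
        _ = _ := by ring
    linarith

/-- the multiplicative function of the Rankin trick -/
noncomputable def rankF (n : ℕ) : ℝ := (n.divisors.card : ℝ) ^ 2 * (n : ℝ) ^ (-(599 / 600) : ℝ)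

theorem rankF_nonneg (n : ℕ) : 0 ≤ rankF n := by unfold rankF; positivity

theorem rankF_one : rankF 1 = 1 := by simp [rankF]

theorem rankF_mul (a b : ℕ) (h : Nat.Coprime a b) : rankF (a * b) = rankF a * rankF b := by
  unfold rankF
  rw [h.card_divisors_mul]
  push_cast
  rw [Real.mul_rpow (by positivity) (by positivity)]
  ring

theorem rank_two : (2 : ℝ) ^ (-(599 / 600) : ℝ) ≤ 3 / 5 := by
  have h1 : (2 : ℝ) ^ (-(599 / 600) : ℝ) = (1 / 2) * (2 : ℝ) ^ (1 / 600 : ℝ) := by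
    rw [show (-(599 / 600) : ℝ) = -1 + 1 / 600 by norm_num, Real.rpow_add (by norm_num)]
    rw [Real.rpow_neg_one]
    ring
  have h2 : (2 : ℝ) ^ (1 / 600 : ℝ) ≤ 6 / 5 := by
    have h := rpow_one_add_le_one_add_mul_self (s := 1) (p := 1 / 600) (by norm_num)
      (by norm_num) (by norm_num)
    have : (1 + 1 : ℝ) = 2 := by norm_num
    rw [this] at h
    linarith
  rw [h1]
  linarith

theorem rankF_prime (p : ℕ) (hp : p.Prime) (K : ℕ) :
    ∑ k ∈ range K, rankF (p ^ (k + 1)) ≤ 160 * (p : ℝ) ^ ((1 / 600 : ℝ) - 1) := by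
  set x : ℝ := (p : ℝ) ^ (-(599 / 600) : ℝ) with hx
  have hp0 : (0 : ℝ) < p := by exact_mod_cast hp.pos
  have hx0 : 0 ≤ x := by positivity
  have hx1 : x ≤ 3 / 5 := by
    refine le_trans ?_ rank_two
    rw [hx]
    exact Real.rpow_le_rpow_of_nonpos (by norm_num) (by exact_mod_cast hp.two_le) (by norm_num)
  have h1 : ∀ k ∈ range K, rankF (p ^ (k + 1)) = x * (((k : ℝ) + 2) ^ 2 * x ^ k) := by
    intro k _
    unfold rankF
    rw [Nat.divisors_prime_pow hp]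
    simp only [card_map, card_range]
    push_cast
    have : ((p : ℝ) ^ (k + 1)) ^ (-(599 / 600) : ℝ) = x ^ (k + 1) := by
      rw [hx, ← Real.rpow_natCast, ← Real.rpow_mul hp0.le, ← Real.rpow_natCast,
        ← Real.rpow_mul hp0.le, mul_comm]
    rw [this]
    ring
  rw [sum_congr rfl h1, ← mul_sum]
  have h2 : (p : ℝ) ^ ((1 / 600 : ℝ) - 1) = x := by rw [hx]; norm_num
  rw [h2]
  have := rank_geom x hx0 hx1 K
  nlinarith

theorem rank_smooth (w X : ℕ) :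
    ∑ s ∈ (Icc 1 X).filter (fun s => sm w s = s), rankF s ≤
      Real.exp (96000 * (w : ℝ) ^ (1 / 600 : ℝ)) := by
  refine (euler_le w X rankF (fun p => 160 * (p : ℝ) ^ ((1 / 600 : ℝ) - 1)) rankF_nonneg rankF_one
    rankF_mul (fun p hp _ K => rankF_prime p hp K)).trans ?_
  have h1 : ∏ p ∈ (Icc 1 w).filter Nat.Prime, (1 + 160 * (p : ℝ) ^ ((1 / 600 : ℝ) - 1)) ≤
      ∏ p ∈ (Icc 1 w).filter Nat.Prime, Real.exp (160 * (p : ℝ) ^ ((1 / 600 : ℝ) - 1)) := by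
    refine prod_le_prod (fun p _ => by positivity) (fun p _ => ?_)
    rw [add_comm]
    exact Real.add_one_le_exp _
  refine h1.trans ?_
  rw [← Real.exp_sum]
  apply Real.exp_le_exp.mpr
  calc ∑ p ∈ (Icc 1 w).filter Nat.Prime, 160 * (p : ℝ) ^ ((1 / 600 : ℝ) - 1)
      ≤ ∑ p ∈ Icc 1 w, 160 * (p : ℝ) ^ ((1 / 600 : ℝ) - 1) :=
        sum_le_sum_of_subset_of_nonneg (filter_subset _ _) (fun p _ _ => by positivity)
    _ = 160 * ∑ p ∈ Icc 1 w, (p : ℝ) ^ ((1 / 600 : ℝ) - 1) := by rw [mul_sum]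
    _ ≤ 160 * ((w : ℝ) ^ (1 / 600 : ℝ) / (1 / 600)) := by
        gcongr
        exact rank_sum_rpow (1 / 600) (by norm_num) (by norm_num) w
    _ = _ := by ring

theorem rank_tau_le (a g : ℕ) : ((a * g).divisors.card : ℝ) ≤ a * g.divisors.card := by
  have h1 : (a * g).divisors.card ≤ a.divisors.card * g.divisors.card := by
    rw [Nat.divisors_mul]
    exact Finset.card_mul_le
  have h2 : a.divisors.card ≤ a := Nat.card_divisors_le_self a
  have h3 : (a * g).divisors.card ≤ a * g.divisors.card :=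
    h1.trans (Nat.mul_le_mul_right _ h2)
  exact_mod_cast h3

theorem rank_point {q w a g : ℕ} (hq : 1 ≤ q) (ha : 1 ≤ a) (haq : (a : ℝ) ≤ (q : ℝ) ^ kap)
    (hg : 1 ≤ g) (h : yy q < (sm w (a * g) : ℝ)) :
    ((a * g).divisors.card : ℝ) ^ 2 / g ≤
      (q : ℝ) ^ (2 * kap - (1 / 100 - kap) / 600) *
        (rankF (sm w g) * (((ro w g).divisors.card : ℝ) ^ 2 / (ro w g : ℝ))) := by
  have hq0 : (0 : ℝ) < q := by exact_mod_cast hq
  have hg0 : g ≠ 0 := by omega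
  have ha0 : a ≠ 0 := by omega
  have hs : (0 : ℝ) < (sm w g : ℝ) := by exact_mod_cast Nat.pos_of_ne_zero (sm_ne_zero w g)
  have hr : (0 : ℝ) < (ro w g : ℝ) := by exact_mod_cast Nat.pos_of_ne_zero (ro_ne_zero w g)
  have hgs : (g : ℝ) = (sm w g : ℝ) * ro w g := by exact_mod_cast (sm_mul_ro w hg0).symm
  have hsa : (sm w a : ℝ) ≤ a := by
    have h1 : sm w a ∣ a := ⟨ro w a, (sm_mul_ro w ha0).symm⟩
    exact_mod_cast Nat.le_of_dvd (by omega) h1
  -- the smooth part of g is large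
  have hY : (q : ℝ) ^ (1 / 100 - kap) ≤ (sm w g : ℝ) := by
    rw [sm_mul w ha0 hg0] at h
    push_cast at h
    unfold yy at h
    have h1 : (q : ℝ) ^ (1 / 100 : ℝ) ≤ (q : ℝ) ^ kap * (sm w g : ℝ) := by
      refine h.le.trans ?_
      gcongr
      exact hsa.trans haq
    rw [Real.rpow_sub hq0, div_le_iff₀ (by positivity), mul_comm]
    exact h1
  have hone : (1 : ℝ) ≤ (q : ℝ) ^ (-((1 / 100 - kap) / 600)) * (sm w g : ℝ) ^ (1 / 600 : ℝ) := by
    have h1 : ((q : ℝ) ^ (1 / 100 - kap)) ^ (1 / 600 : ℝ) ≤ (sm w g : ℝ) ^ (1 / 600 : ℝ) :=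
      Real.rpow_le_rpow (by positivity) hY (by norm_num)
    rw [← Real.rpow_mul hq0.le] at h1
    calc (1 : ℝ) = (q : ℝ) ^ (-((1 / 100 - kap) / 600)) * (q : ℝ) ^ ((1 / 100 - kap) * (1 / 600)) := by
          rw [← Real.rpow_add hq0]
          rw [show -((1 / 100 - kap) / 600) + (1 / 100 - kap) * (1 / 600) = 0 by ring]
          simp
      _ ≤ _ := by gcongr
  have hdiv : (g.divisors.card : ℝ) = (sm w g).divisors.card * (ro w g).divisors.card := by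
    have h1 := (coprime_sm_ro w g g).card_divisors_mul
    rw [sm_mul_ro w hg0] at h1
    exact_mod_cast h1
  have ha2 : (a : ℝ) ^ 2 ≤ (q : ℝ) ^ (2 * kap) := by
    calc (a : ℝ) ^ 2 ≤ ((q : ℝ) ^ kap) ^ 2 := by gcongr
      _ = (q : ℝ) ^ (2 * kap) := by
        rw [← Real.rpow_natCast, ← Real.rpow_mul hq0.le, mul_comm]; norm_num
  have hT := rank_tau_le a g
  have hsm : (sm w g : ℝ) ^ (-(599 / 600) : ℝ) = (sm w g : ℝ) ^ (1 / 600 : ℝ) / (sm w g : ℝ) := by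
    rw [show (-(599 / 600) : ℝ) = 1 / 600 - 1 by norm_num, Real.rpow_sub_one hs.ne']
  calc ((a * g).divisors.card : ℝ) ^ 2 / g ≤ ((a : ℝ) * g.divisors.card) ^ 2 / g := by gcongr
    _ = (a : ℝ) ^ 2 * (((sm w g).divisors.card : ℝ) ^ 2 / (sm w g : ℝ) *
        (((ro w g).divisors.card : ℝ) ^ 2 / (ro w g : ℝ))) := by
        rw [hdiv, hgs]
        field_simp
    _ ≤ (q : ℝ) ^ (2 * kap) * (((sm w g).divisors.card : ℝ) ^ 2 / (sm w g : ℝ) *
        (((ro w g).divisors.card : ℝ) ^ 2 / (ro w g : ℝ)) * 1) := by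
        rw [mul_one]; gcongr
    _ ≤ (q : ℝ) ^ (2 * kap) * (((sm w g).divisors.card : ℝ) ^ 2 / (sm w g : ℝ) *
        (((ro w g).divisors.card : ℝ) ^ 2 / (ro w g : ℝ)) *
          ((q : ℝ) ^ (-((1 / 100 - kap) / 600)) * (sm w g : ℝ) ^ (1 / 600 : ℝ))) := by gcongr
    _ = _ := by
        unfold rankF
        rw [hsm, sub_eq_add_neg (2 * kap), Real.rpow_add hq0]
        ring

theorem rank_final : ∃ M : ℝ, 0 ≤ M ∧ ∀ L : ℝ, M ≤ L →
    (2 * kap - (1 / 100 - kap) / 600) * L + 96000 * Real.sqrt L + 8 * Real.sqrt L ≤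
      (-(1 / 70000)) * L := by
  refine ⟨(10 : ℝ) ^ 24, by positivity, fun L hL => ?_⟩
  have hL0 : 0 ≤ L := le_trans (by positivity) hL
  have hs : (10 : ℝ) ^ 12 ≤ Real.sqrt L := by
    apply Real.le_sqrt_of_sq_le
    calc ((10 : ℝ) ^ 12) ^ 2 = 10 ^ 24 := by norm_num
      _ ≤ L := hL
  have hsq : Real.sqrt L * Real.sqrt L = L := Real.mul_self_sqrt hL0
  have h1 : (10 : ℝ) ^ 12 * Real.sqrt L ≤ L := by
    calc (10 : ℝ) ^ 12 * Real.sqrt L ≤ Real.sqrt L * Real.sqrt L := by gcongr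
      _ = L := hsq
  unfold kap
  nlinarith [h1, Real.sqrt_nonneg L]

theorem rank_chain {E c d L W S S1 S2 T : ℝ} (hE0 : 0 ≤ E) (hE : E = Real.exp (c * L))
    (h1 : S ≤ E * T) (h2 : T ≤ S1 * S2) (hS1 : 0 ≤ S1)
    (h3 : S1 ≤ Real.exp (96000 * W)) (h4 : S2 ≤ (1 + L) ^ 4)
    (h5 : (1 + L) ^ 4 ≤ Real.exp (8 * Real.sqrt L)) (hw : W ≤ Real.sqrt L)
    (hM : c * L + 96000 * Real.sqrt L + 8 * Real.sqrt L ≤ d * L) : S ≤ Real.exp (d * L) := by
  have a1 : S1 * S2 ≤ Real.exp (96000 * Real.sqrt L) * Real.exp (8 * Real.sqrt L) := by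
    have b1 : S1 ≤ Real.exp (96000 * Real.sqrt L) :=
      h3.trans (Real.exp_le_exp.mpr (by linarith))
    have b2 : S2 ≤ Real.exp (8 * Real.sqrt L) := h4.trans h5
    calc S1 * S2 ≤ S1 * Real.exp (8 * Real.sqrt L) := mul_le_mul_of_nonneg_left b2 hS1
      _ ≤ _ := mul_le_mul_of_nonneg_right b1 (Real.exp_pos _).le
  calc S ≤ E * T := h1
    _ ≤ E * (Real.exp (96000 * Real.sqrt L) * Real.exp (8 * Real.sqrt L)) :=
        mul_le_mul_of_nonneg_left (h2.trans a1) hE0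
    _ = Real.exp (c * L + 96000 * Real.sqrt L + 8 * Real.sqrt L) := by
        rw [hE, ← Real.exp_add, ← Real.exp_add, add_assoc]
    _ ≤ Real.exp (d * L) := Real.exp_le_exp.mpr hM

theorem rankin : ∃ q₀ : ℕ, ∀ q : ℕ, q₀ ≤ q → ∀ a : ℕ, 1 ≤ a → (a : ℝ) ≤ (q : ℝ) ^ kap →
    ∑ g ∈ (Icc 1 q).filter (fun g => yy q < (sm (ww q) (a * g) : ℝ)),
      ((a * g).divisors.card : ℝ) ^ 2 / g ≤ (q : ℝ) ^ (-(1 / 70000) : ℝ) := by
  obtain ⟨M, hM0, hM⟩ := rank_final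
  refine ⟨⌈Real.exp M⌉₊, fun q hq a ha haq => ?_⟩
  have hqe : Real.exp M ≤ q := (Nat.le_ceil _).trans (by exact_mod_cast hq)
  have hq0 : (0 : ℝ) < q := lt_of_lt_of_le (Real.exp_pos _) hqe
  have hq1 : 1 ≤ q := by
    have : 0 < q := by exact_mod_cast hq0
    omega
  set L : ℝ := Real.log q with hLdef
  have hL : M ≤ L := by
    rw [hLdef, Real.le_log_iff_exp_le hq0]; exact hqe
  have hL0 : 0 ≤ L := le_trans hM0 hL
  set E : ℝ := (q : ℝ) ^ (2 * kap - (1 / 100 - kap) / 600) with hE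
  have hE0 : 0 ≤ E := by positivity
  have h1 : ∑ g ∈ (Icc 1 q).filter (fun g => yy q < (sm (ww q) (a * g) : ℝ)),
      ((a * g).divisors.card : ℝ) ^ 2 / g ≤
      E * ∑ g ∈ Icc 1 q, rankF (sm (ww q) g) *
        (fun r : ℕ => ((r.divisors.card : ℝ) ^ 2 / (r : ℝ))) (ro (ww q) g) := by
    calc ∑ g ∈ (Icc 1 q).filter (fun g => yy q < (sm (ww q) (a * g) : ℝ)),
          ((a * g).divisors.card : ℝ) ^ 2 / g
        ≤ ∑ g ∈ (Icc 1 q).filter (fun g => yy q < (sm (ww q) (a * g) : ℝ)),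
          E * (rankF (sm (ww q) g) *
            (((ro (ww q) g).divisors.card : ℝ) ^ 2 / (ro (ww q) g : ℝ))) := by
          refine sum_le_sum (fun g hg => ?_)
          rw [mem_filter, mem_Icc] at hg
          exact rank_point hq1 ha haq hg.1.1 hg.2
      _ ≤ ∑ g ∈ Icc 1 q, E * (rankF (sm (ww q) g) *
            (((ro (ww q) g).divisors.card : ℝ) ^ 2 / (ro (ww q) g : ℝ))) :=
          sum_le_sum_of_subset_of_nonneg (filter_subset _ _)
            (fun g _ _ => mul_nonneg hE0 (mul_nonneg (rankF_nonneg _) (by positivity)))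
      _ = _ := by rw [← mul_sum]
  have h2 := sum_split (ww q) q rankF (fun r : ℕ => ((r.divisors.card : ℝ) ^ 2 / (r : ℝ)))
    rankF_nonneg (fun r => by positivity)
  have h3 := rank_smooth (ww q) q
  have h4 : ∑ r ∈ (Icc 1 q).filter (fun r => ro (ww q) r = r),
      (fun r : ℕ => ((r.divisors.card : ℝ) ^ 2 / (r : ℝ))) r ≤ (1 + L) ^ 4 :=
    (sum_le_sum_of_subset_of_nonneg (filter_subset _ _) (fun g _ _ => by positivity)).trans
      (sum_tau_sq q)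
  have hw : ((ww q : ℕ) : ℝ) ^ (1 / 600 : ℝ) ≤ Real.sqrt L := by
    have hw1 : ((ww q : ℕ) : ℝ) ≤ L ^ 300 := Nat.floor_le (by positivity)
    calc ((ww q : ℕ) : ℝ) ^ (1 / 600 : ℝ) ≤ (L ^ 300) ^ (1 / 600 : ℝ) :=
          Real.rpow_le_rpow (by positivity) hw1 (by norm_num)
      _ = Real.sqrt L := by
          rw [← Real.rpow_natCast, ← Real.rpow_mul hL0, Real.sqrt_eq_rpow]
          norm_num
  have h5 : (1 + L) ^ 4 ≤ Real.exp (8 * Real.sqrt L) := by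
    have hs0 := Real.sqrt_nonneg L
    have hsq : Real.sqrt L * Real.sqrt L = L := Real.mul_self_sqrt hL0
    calc (1 + L) ^ 4 ≤ ((1 + Real.sqrt L) ^ 2) ^ 4 := by
          gcongr
          nlinarith
      _ = (1 + Real.sqrt L) ^ 8 := by ring
      _ ≤ (Real.exp (Real.sqrt L)) ^ 8 := by
          gcongr
          rw [add_comm]
          exact Real.add_one_le_exp _
      _ = Real.exp (8 * Real.sqrt L) := by
          rw [← Real.exp_nat_mul]; norm_num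
  have hEexp : E = Real.exp ((2 * kap - (1 / 100 - kap) / 600) * L) := by
    rw [hE, Real.rpow_def_of_pos hq0, mul_comm]
  have hR : (q : ℝ) ^ (-(1 / 70000) : ℝ) = Real.exp ((-(1 / 70000)) * L) := by
    rw [Real.rpow_def_of_pos hq0, mul_comm]
  rw [hR]
  exact rank_chain hE0 hEexp h1 h2 (sum_nonneg (fun s _ => rankF_nonneg s)) h3 h4 h5 hw
    (hM L hL)

end Pool.Agent.NV
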