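import Mathlib
import Pool.Agent.Lib.MP_afd523_nt.Defs

/-!
# Project NV: Fourier representation of the cut-off
-/

namespace Pool.Agent.NV

open Finset Complex MeasureTheory

open scoped FourierTransform Topology

theorem Rep_cont {μ : Measure ℝ} {C : ℝ} {K : ℕ} (hμ : Smooth μ C K) :
    Continuous (fun u => μ.real (Set.Ioi u)) := by
  have := hμ.prob
  have h1 : (fun u => μ.real (Set.Ioi u)) =
      fun u => ∫ v, (Set.Ioi u).indicator (fun _ => (1:ℝ)) v ∂μ := by
    funext u
    rw [integral_indicator measurableSet_Ioi]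
    simp
  rw [h1, continuous_iff_continuousAt]
  intro u₀
  apply continuousAt_of_dominated (bound := fun _ => 1)
  · exact Filter.Eventually.of_forall fun u =>
      (measurable_const.indicator measurableSet_Ioi).aestronglyMeasurable
  · refine Filter.Eventually.of_forall fun u => Filter.Eventually.of_forall fun v => ?_
    by_cases h : v ∈ Set.Ioi u
    · rw [Set.indicator_of_mem h]; simp
    · rw [Set.indicator_of_notMem h]; simp
  · exact integrable_const _
  · have h2 : ∀ᵐ v ∂μ, v ≠ u₀ := by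
      rw [ae_iff]
      simpa using hμ.atom u₀
    filter_upwards [h2] with v hv
    rcases lt_or_gt_of_ne hv with h | h
    · apply ContinuousAt.congr (f := fun _ => (0:ℝ)) continuousAt_const
      filter_upwards [lt_mem_nhds h] with u hu
      rw [Set.indicator_of_notMem]
      simpa using hu.le
    · apply ContinuousAt.congr (f := fun _ => (1:ℝ)) continuousAt_const
      filter_upwards [gt_mem_nhds h] with u hu
      rw [Set.indicator_of_mem]
      exact hu

theorem Rep_zero {μ : Measure ℝ} {C : ℝ} {K : ℕ} (hμ : Smooth μ C K) {u : ℝ}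
    (hu : 51 / 100 ≤ u) : μ.real (Set.Ioi u) = 0 := by
  have h : Set.Ioi u ⊆ (Set.Icc (49 / 100) (51 / 100))ᶜ := by
    intro v hv h2
    have h3 : u < v := hv
    linarith [h2.2]
  rw [measureReal_def, measure_mono_null h hμ.supp]
  simp

/-- the function whose Fourier transform is computed -/
noncomputable def Rep_f (μ : Measure ℝ) (u : ℝ) : ℂ :=
  ((Real.exp u * μ.real (Set.Ioi u) : ℝ) : ℂ)

theorem Rep_fcont {μ : Measure ℝ} {C : ℝ} {K : ℕ} (hμ : Smooth μ C K) : Continuous (Rep_f μ) :=
  Complex.continuous_ofReal.comp (Real.continuous_exp.mul (Rep_cont hμ))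

theorem Rep_fint {μ : Measure ℝ} {C : ℝ} {K : ℕ} (hμ : Smooth μ C K) : Integrable (Rep_f μ) := by
  have := hμ.prob
  have hb : Integrable ((Set.Iic (51/100:ℝ)).indicator Real.exp) :=
    (integrable_indicator_iff measurableSet_Iic).2 (integrableOn_exp_Iic _)
  refine hb.mono' (Rep_fcont hμ).aestronglyMeasurable ?_
  refine Filter.Eventually.of_forall fun u => ?_
  unfold Rep_f
  rw [Complex.norm_real, Real.norm_of_nonneg (by positivity)]
  by_cases h : u ∈ Set.Iic (51/100:ℝ)
  · rw [Set.indicator_of_mem h]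
    exact mul_le_of_le_one_right (Real.exp_pos u).le measureReal_le_one
  · rw [Set.indicator_of_notMem h, Rep_zero hμ (by simpa using (not_le.1 h).le), mul_zero]

theorem Rep_swap {μ : Measure ℝ} {C : ℝ} {K : ℕ} (hμ : Smooth μ C K) (t : ℝ) :
    ∫ u : ℝ, cexp (t * u * I) * Rep_f μ u =
      (∫ v, cexp ((1 + t * I) * v) ∂μ) / (1 + t * I) := by
  have := hμ.prob
  set c : ℂ := 1 + t * I with hc
  have hre : c.re = 1 := by simp [hc]
  have h1 : ∀ u : ℝ, cexp (t * u * I) * Rep_f μ u =
      ∫ v, (if u < v then cexp (c * u) else 0) ∂μ := by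
    intro u
    have h2 : (fun v : ℝ => if u < v then cexp (c * u) else 0) =
        (Set.Ioi u).indicator (fun _ => cexp (c * u)) := by
      funext v
      by_cases h : u < v
      · rw [if_pos h, Set.indicator_of_mem (show v ∈ Set.Ioi u from h)]
      · rw [if_neg h, Set.indicator_of_notMem (show v ∉ Set.Ioi u from h)]
    rw [h2, integral_indicator measurableSet_Ioi, setIntegral_const]
    unfold Rep_f
    rw [Complex.real_smul]
    have h3 : cexp (c * u) = cexp (t * u * I) * (Real.exp u : ℂ) := by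
      rw [Complex.ofReal_exp, ← Complex.exp_add]
      congr 1
      rw [hc]
      ring
    rw [h3]
    push_cast
    ring
  have hmeas : Measurable (Function.uncurry fun (u v : ℝ) => if u < v then cexp (c * u) else 0) := by
    apply Measurable.ite (measurableSet_lt measurable_fst measurable_snd)
    · fun_prop
    · exact measurable_const
  have hnorm : ∀ u : ℝ, ‖cexp (c * u)‖ = Real.exp u := by
    intro u
    rw [Complex.norm_exp]
    congr 1
    simp [hc]
  have hind : ∀ v : ℝ, (fun u : ℝ => if u < v then cexp (c * u) else 0) =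
      (Set.Iio v).indicator (fun u : ℝ => cexp (c * u)) := by
    intro v
    funext u
    by_cases h : u < v
    · rw [if_pos h, Set.indicator_of_mem (show u ∈ Set.Iio v from h)]
    · rw [if_neg h, Set.indicator_of_notMem (show u ∉ Set.Iio v from h)]
  have hexp : ∀ v : ℝ, IntegrableOn (fun u : ℝ => cexp (c * u)) (Set.Iio v) := by
    intro v
    have h2 : IntegrableOn Real.exp (Set.Iio v) := (integrableOn_exp_Iic v).mono_set Set.Iio_subset_Iic_self
    refine h2.mono' (by fun_prop) ?_
    exact Filter.Eventually.of_forall fun u => (hnorm u).le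
  have hint : Integrable (Function.uncurry fun (u v : ℝ) => if u < v then cexp (c * u) else 0)
      (volume.prod μ) := by
    rw [integrable_prod_iff' hmeas.aestronglyMeasurable]
    constructor
    · refine Filter.Eventually.of_forall fun v => ?_
      show Integrable (fun u : ℝ => if u < v then cexp (c * u) else 0)
      rw [hind v, integrable_indicator_iff measurableSet_Iio]
      exact hexp v
    · have h3 : ∀ v : ℝ, ∫ u : ℝ, ‖Function.uncurry (fun (u v : ℝ) =>
          if u < v then cexp (c * u) else 0) (u, v)‖ = Real.exp v := by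
        intro v
        have h4 : (fun u : ℝ => ‖Function.uncurry (fun (u v : ℝ) =>
            if u < v then cexp (c * u) else 0) (u, v)‖) = (Set.Iio v).indicator Real.exp := by
          funext u
          show ‖(if u < v then cexp (c * u) else 0 : ℂ)‖ = _
          by_cases h : u < v
          · rw [if_pos h, Set.indicator_of_mem (show u ∈ Set.Iio v from h), hnorm]
          · rw [if_neg h, Set.indicator_of_notMem (show u ∉ Set.Iio v from h), norm_zero]
        rw [h4, integral_indicator measurableSet_Iio, ← integral_Iic_eq_integral_Iio,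
          integral_exp_Iic]
      simp only [h3]
      refine Integrable.mono' (integrable_const (Real.exp (51/100)))
        Real.continuous_exp.aestronglyMeasurable ?_
      have h5 : ∀ᵐ v ∂μ, v ∈ Set.Icc (49/100:ℝ) (51/100) := by
        rw [ae_iff]
        exact hμ.supp
      filter_upwards [h5] with v hv
      rw [Real.norm_of_nonneg (Real.exp_pos v).le]
      exact Real.exp_le_exp.2 hv.2
  simp only [h1]
  rw [integral_integral_swap hint]
  have h6 : ∀ v : ℝ, ∫ u : ℝ, (if u < v then cexp (c * u) else 0) = cexp (c * v) / c := by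
    intro v
    rw [hind v, integral_indicator measurableSet_Iio, ← integral_Iic_eq_integral_Iio,
      integral_exp_mul_complex_Iic (by rw [hre]; exact one_pos)]
  simp only [h6]
  rw [integral_div]

theorem Rep_fourier {μ : Measure ℝ} {C : ℝ} {K : ℕ} (hμ : Smooth μ C K) (ξ : ℝ) :
    𝓕 (Rep_f μ) ξ = 2 * Real.pi * phi μ (-2 * Real.pi * ξ) := by
  have h1 := Rep_swap hμ (-2 * Real.pi * ξ)
  rw [Real.fourier_real_eq_integral_exp_smul]
  unfold phi
  have h2 : (fun v : ℝ => cexp (↑(-2 * Real.pi * v * ξ) * I) • Rep_f μ v) =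
      fun u : ℝ => cexp (((-2 * Real.pi * ξ : ℝ) : ℂ) * u * I) * Rep_f μ u := by
    funext v
    rw [smul_eq_mul]
    congr 2
    push_cast
    ring
  rw [h2, h1]
  have : (Real.pi : ℂ) ≠ 0 := by exact_mod_cast Real.pi_ne_zero
  field_simp

theorem Rep_bound {μ : Measure ℝ} {C : ℝ} {K : ℕ} (hμ : Smooth μ C K) (hK : 4 ≤ K) (t : ℝ) :
    ‖phi μ t‖ ≤ (C + C ^ 3 * (2:ℝ) ^ (21 / 20 : ℝ)) * (1 + t ^ 2)⁻¹ := by
  have h0 := hμ.dec 0 t (by omega)
  have h2 := hμ.dec 2 t (by omega)
  simp only [pow_zero, one_mul, zero_add, pow_one, Nat.factorial_zero, Nat.cast_one,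
    Real.one_rpow, mul_one] at h0
  rw [sq_abs, Nat.factorial_two] at h2
  set m := ‖∫ v, cexp ((1 + t * I) * v) ∂μ‖ with hm
  have hm0 : 0 ≤ m := norm_nonneg _
  have h3 : (1 + t ^ 2) * m ≤ C + C ^ 3 * (2:ℝ) ^ (21 / 20 : ℝ) := by
    have : (2 + 1 : ℕ) = 3 := rfl
    push_cast at h2
    linarith
  have h4 : (1:ℝ) ≤ ‖(1 + t * I : ℂ)‖ := by
    have := Complex.abs_re_le_norm (1 + t * I : ℂ)
    simpa using this
  have h5 : ‖phi μ t‖ = 1 / (2 * Real.pi) * m / ‖(1 + t * I : ℂ)‖ := by
    unfold phi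
    rw [norm_div, norm_mul, ← hm]
    congr 2
    have : (1 / (2 * (Real.pi : ℂ))) = ((1 / (2 * Real.pi) : ℝ) : ℂ) := by push_cast; rfl
    rw [this, Complex.norm_real, Real.norm_of_nonneg (by positivity)]
  rw [h5, ← div_eq_mul_inv, le_div_iff₀ (by positivity)]
  have h6 : 1 / (2 * Real.pi) ≤ 1 := by
    rw [div_le_one (by positivity)]
    linarith [Real.pi_gt_three]
  have h7 : 1 / (2 * Real.pi) * m / ‖(1 + t * I : ℂ)‖ ≤ m := by
    rw [div_le_iff₀ (by linarith)]
    calc 1 / (2 * Real.pi) * m ≤ 1 * m := mul_le_mul_of_nonneg_right h6 hm0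
      _ = m * 1 := by ring
      _ ≤ m * ‖(1 + t * I : ℂ)‖ := mul_le_mul_of_nonneg_left h4 hm0
  calc 1 / (2 * Real.pi) * m / ‖(1 + t * I : ℂ)‖ * (1 + t ^ 2) ≤ m * (1 + t ^ 2) :=
        mul_le_mul_of_nonneg_right h7 (by positivity)
    _ ≤ _ := by linarith

theorem Rep_Fcont {μ : Measure ℝ} {C : ℝ} {K : ℕ} (hμ : Smooth μ C K) :
    Continuous (𝓕 (Rep_f μ)) :=
  VectorFourier.fourierIntegral_continuous Real.continuous_fourierChar
    (by exact continuous_inner) (Rep_fint hμ)

theorem Rep_Fint {μ : Measure ℝ} {C : ℝ} {K : ℕ} (hμ : Smooth μ C K) (hK : 4 ≤ K) :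
    Integrable (𝓕 (Rep_f μ)) := by
  set D := C + C ^ 3 * (2:ℝ) ^ (21 / 20 : ℝ) with hD
  have h1 : Integrable (fun ξ : ℝ => 2 * Real.pi * (D * (1 + (-2 * Real.pi * ξ) ^ 2)⁻¹)) := by
    apply Integrable.const_mul
    apply Integrable.const_mul
    exact integrable_inv_one_add_sq.comp_mul_left' (R := -2 * Real.pi) (by
      have := Real.pi_pos
      simp)
  refine h1.mono' (Rep_Fcont hμ).aestronglyMeasurable ?_
  refine Filter.Eventually.of_forall fun ξ => ?_
  rw [Rep_fourier hμ, norm_mul]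
  have h2 : ‖(2 * Real.pi : ℂ)‖ = 2 * Real.pi := by
    rw [norm_mul, Complex.norm_real, Real.norm_of_nonneg Real.pi_pos.le]
    simp
  rw [h2]
  exact mul_le_mul_of_nonneg_left (Rep_bound hμ hK _) (by positivity)

theorem Rep_inv {μ : Measure ℝ} {C : ℝ} {K : ℕ} (hμ : Smooth μ C K) (hK : 4 ≤ K) (u : ℝ) :
    Rep_f μ u = ∫ t, phi μ t * cexp (-(t * u * I)) := by
  have h1 := congrFun ((Rep_fcont hμ).fourierInv_fourier_eq (Rep_fint hμ) (Rep_Fint hμ hK)) u
  rw [← h1, Real.fourierInv_eq']
  have h2 : ∀ ξ : ℝ, cexp (↑(2 * Real.pi * inner ℝ ξ u) * I) • 𝓕 (Rep_f μ) ξ =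
      (fun t : ℝ => (2 * Real.pi : ℂ) * (phi μ t * cexp (-(t * u * I)))) ((-2 * Real.pi) * ξ) := by
    intro ξ
    rw [Rep_fourier hμ, smul_eq_mul]
    have h3 : cexp (↑(2 * Real.pi * inner ℝ ξ u) * I) =
        cexp (-(((-2 * Real.pi * ξ : ℝ) : ℂ) * u * I)) := by
      congr 1
      simp only [RCLike.inner_apply, conj_trivial]
      push_cast
      ring
    rw [h3]
    ring
  simp only [h2]
  rw [Measure.integral_comp_mul_left (fun t : ℝ => (2 * Real.pi : ℂ) *
    (phi μ t * cexp (-(t * u * I)))) (-2 * Real.pi), integral_const_mul, Complex.real_smul,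
    ← mul_assoc]
  have h4 : ((|(-2 * Real.pi)⁻¹| : ℝ) : ℂ) * (2 * Real.pi) = 1 := by
    rw [abs_inv, abs_mul, abs_neg, abs_two, abs_of_pos Real.pi_pos]
    push_cast
    have : (Real.pi : ℂ) ≠ 0 := by exact_mod_cast Real.pi_ne_zero
    field_simp
  rw [h4, one_mul]

theorem phi_rep {μ : Measure ℝ} {C : ℝ} {K : ℕ} (hμ : Smooth μ C K) (hK : 4 ≤ K) (q : ℕ) (r : ℝ)
    (n : ℕ) (hq : 3 ≤ q) (hr : 0 < r) (hn : 1 ≤ n) :
    (Phi μ q r n : ℂ) = ∫ t, phi μ t * (r : ℂ) ^ st q t * (n : ℂ) ^ (-st q t) := by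
  have hL : 0 < Real.log q := Real.log_pos (by exact_mod_cast (by omega : 1 < q))
  have hn0 : (0:ℝ) < n := by exact_mod_cast hn
  set u : ℝ := (Real.log n - Real.log r) / Real.log q with hu
  have h1 : ∀ t : ℝ, phi μ t * (r : ℂ) ^ st q t * (n : ℂ) ^ (-st q t) =
      cexp (-(u : ℂ)) * (phi μ t * cexp (-(t * u * I))) := by
    intro t
    have h2 : (r : ℂ) ^ st q t = cexp ((Real.log r : ℂ) * st q t) := by
      rw [Complex.cpow_def_of_ne_zero (by exact_mod_cast hr.ne'), Complex.ofReal_log hr.le]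
    have h3 : (n : ℂ) ^ (-st q t) = cexp ((Real.log n : ℂ) * (-st q t)) := by
      rw [Complex.cpow_def_of_ne_zero (by exact_mod_cast hn0.ne'), Complex.ofReal_log hn0.le]
      rfl
    have h4 : cexp ((Real.log r : ℂ) * st q t) * cexp ((Real.log n : ℂ) * (-st q t)) =
        cexp (-(u : ℂ)) * cexp (-(t * u * I)) := by
      rw [← Complex.exp_add, ← Complex.exp_add]
      congr 1
      unfold st al
      rw [hu]
      have : (Real.log q : ℂ) ≠ 0 := by exact_mod_cast hL.ne'
      push_cast
      field_simp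
      ring
    rw [h2, h3, mul_assoc, h4]
    ring
  simp only [h1]
  rw [integral_const_mul, ← Rep_inv hμ hK u]
  unfold Rep_f Phi
  rw [← hu]
  push_cast
  rw [← mul_assoc, ← Complex.exp_add]
  simp

end Pool.Agent.NV
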