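import Pool.Agent.Lib.MP_afd523_nt.Defs
import Pool.Agent.Lib.MP_6396c4_an.Mertens

/-!
# Products over the small primes
-/

namespace Pool.Agent.NV

open Finset Complex MeasureTheory

/-- powers of the logarithm are small -/
lemma SProd_asym (K : ℝ) (hK : 1 ≤ K) : ∃ L₁ : ℝ, 1 ≤ L₁ ∧ ∀ L : ℝ, L₁ ≤ L →
    K * (1 + 300 * Real.log L) ^ 18 ≤ L := by
  have h := Real.isLittleO_pow_log_id_atTop (n := 18)
  have h2 := h.def (c := 1 / (K * 301 ^ 18)) (by positivity)
  rw [Filter.eventually_atTop] at h2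
  obtain ⟨a, ha⟩ := h2
  refine ⟨max a (Real.exp 1), le_trans (Real.one_le_exp zero_le_one) (le_max_right _ _), ?_⟩
  intro L hL
  have h3 := ha L (le_trans (le_max_left _ _) hL)
  have hLe : Real.exp 1 ≤ L := le_trans (le_max_right _ _) hL
  have hL0 : 0 < L := lt_of_lt_of_le (Real.exp_pos 1) hLe
  have hlog : 1 ≤ Real.log L := by
    rw [Real.le_log_iff_exp_le hL0]; exact hLe
  simp only [id_eq, Real.norm_eq_abs] at h3
  rw [abs_of_nonneg (by positivity), abs_of_pos hL0] at h3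
  have h4 : (1 + 300 * Real.log L) ^ 18 ≤ (301 * Real.log L) ^ 18 := by
    apply pow_le_pow_left₀ (by linarith)
    linarith
  calc K * (1 + 300 * Real.log L) ^ 18 ≤ K * (301 * Real.log L) ^ 18 := by gcongr
    _ = (K * 301 ^ 18) * (Real.log L ^ 18) := by rw [mul_pow]; ring
    _ ≤ (K * 301 ^ 18) * (1 / (K * 301 ^ 18) * L) := by gcongr
    _ = L := by field_simp

/-- product bounded by the exponential of a sum -/
lemma SProd_exp (S : Finset ℕ) (f : ℕ → ℝ) (hf : ∀ p ∈ S, 0 ≤ f p) :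
    ∏ p ∈ S, (1 + f p) ≤ Real.exp (∑ p ∈ S, f p) := by
  rw [Real.exp_sum]
  apply Finset.prod_le_prod
  · intro p hp
    have := hf p hp
    linarith
  · intro p _
    linarith [Real.add_one_le_exp (f p)]

/-- exponential near zero -/
lemma SProd_cexp (z : ℂ) (hz : 0 ≤ z.re) : ‖1 - Complex.exp z‖ ≤ ‖z‖ * Real.exp z.re := by
  have h := Convex.norm_image_sub_le_of_norm_deriv_le (𝕜 := ℂ) (f := Complex.exp)
    (s := {w : ℂ | w.re ≤ z.re}) (C := Real.exp z.re) (x := 0) (y := z)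
    (fun w _ => Complex.differentiableAt_exp)
    (by
      intro w hw
      rw [Complex.deriv_exp, Complex.norm_exp]
      exact Real.exp_le_exp.mpr hw)
    (convex_halfSpace_re_le z.re)
    (by simpa using hz)
    (by simp)
  rw [Complex.exp_zero, sub_zero] at h
  rw [norm_sub_rev, mul_comm]
  exact h

/-- products over the small primes -/
theorem small_prod : ∃ q₀ : ℕ, ∀ q : ℕ, q₀ ≤ q → ∀ t : ℝ,
    (∏ p ∈ (Icc 1 (ww q)).filter Nat.Prime, (1 + ‖1 - (p : ℂ) ^ st q t‖ ^ 2 / ((p : ℝ) - 1)) ≤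
      Real.log q) ∧
    (|t| ≤ Real.sqrt (Real.log q) →
      ∏ p ∈ (Icc 1 (ww q)).filter Nat.Prime, (1 + ‖1 - (p : ℂ) ^ st q t‖ ^ 2 / ((p : ℝ) - 1)) ≤
        2) := by
  obtain ⟨C, hC0, hC⟩ := Pool.Agent.MP6396c4.mertens
  have hKe : 1 ≤ Real.exp (18 * C) := Real.one_le_exp (by positivity)
  obtain ⟨L₁, hL₁, hasym⟩ := SProd_asym (64 * Real.exp (18 * C)) (by linarith)
  refine ⟨⌈Real.exp L₁⌉₊ + 1, ?_⟩
  intro q hq t
  have hqL : Real.exp L₁ ≤ (q : ℝ) := by
    have h1 : Real.exp L₁ ≤ (⌈Real.exp L₁⌉₊ : ℝ) := Nat.le_ceil _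
    have h2 : ((⌈Real.exp L₁⌉₊ + 1 : ℕ) : ℝ) ≤ (q : ℝ) := by exact_mod_cast hq
    push_cast at h2
    linarith
  have hq0 : (0 : ℝ) < q := lt_of_lt_of_le (Real.exp_pos _) hqL
  set L : ℝ := Real.log q with hLdef
  have hL : L₁ ≤ L := by
    rw [hLdef, Real.le_log_iff_exp_le hq0]; exact hqL
  have hL1 : 1 ≤ L := le_trans hL₁ hL
  have hLpos : 0 < L := by linarith
  have hlogL : 0 ≤ Real.log L := Real.log_nonneg hL1
  set F : ℝ := 1 + 300 * Real.log L with hF
  have hF1 : 1 ≤ F := by rw [hF]; linarith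
  have hmain : 64 * Real.exp (18 * C) * F ^ 18 ≤ L := hasym L hL
  have hF18 : 64 * F ^ 18 ≤ L := by
    refine le_trans ?_ hmain
    have : 0 ≤ F ^ 18 := by positivity
    nlinarith
  have hF3 : 64 * F ^ 3 ≤ L := by
    refine le_trans ?_ hF18
    have : F ^ 3 ≤ F ^ 18 := pow_le_pow_right₀ hF1 (by norm_num)
    linarith
  have hFF : 64 * F ≤ L := by
    refine le_trans ?_ hF18
    have : F ≤ F ^ 18 := by
      calc F = F ^ 1 := (pow_one F).symm
        _ ≤ F ^ 18 := pow_le_pow_right₀ hF1 (by norm_num)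
    linarith
  -- the bound for log p
  have hwle : ((ww q : ℕ) : ℝ) ≤ L ^ 300 := by
    unfold ww
    exact Nat.floor_le (by positivity)
  have hlogw : ∀ p : ℕ, 1 ≤ p → p ≤ ww q → Real.log p ≤ F - 1 := by
    intro p hp1 hp
    have h1 : (p : ℝ) ≤ L ^ 300 := le_trans (by exact_mod_cast hp) hwle
    have h0 : (0 : ℝ) < p := by exact_mod_cast hp1
    have h2 := Real.log_le_log h0 h1
    rw [Real.log_pow] at h2
    push_cast at h2
    rw [hF]
    linarith
  have hal : al q = 1 / L := rfl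
  -- basic facts on primes
  set S : Finset ℕ := (Icc 1 (ww q)).filter Nat.Prime with hS
  have hSm : ∀ p ∈ S, p.Prime ∧ 1 ≤ p ∧ p ≤ ww q := by
    intro p hp
    rw [hS, Finset.mem_filter, Finset.mem_Icc] at hp
    exact ⟨hp.2, hp.1.1, hp.1.2⟩
  have hp1 : ∀ p ∈ S, (p : ℝ) / 2 ≤ (p : ℝ) - 1 := by
    intro p hp
    have : (2 : ℝ) ≤ p := by exact_mod_cast (hSm p hp).1.two_le
    linarith
  have hppos : ∀ p ∈ S, (0 : ℝ) < p := by
    intro p hp
    exact_mod_cast (hSm p hp).1.pos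
  have hcpow : ∀ p ∈ S, (p : ℂ) ^ st q t =
      Complex.exp (((Real.log p : ℝ) : ℂ) * st q t) := by
    intro p hp
    have hpne : (p : ℂ) ≠ 0 := by
      exact_mod_cast (hSm p hp).1.ne_zero
    rw [Complex.cpow_def_of_ne_zero hpne, Complex.natCast_log]
  have hre : ∀ p : ℕ, (((Real.log p : ℝ) : ℂ) * st q t).re = Real.log p / L := by
    intro p
    unfold st
    rw [hal, Complex.re_ofReal_mul, Complex.re_ofReal_mul]
    simp
    ring
  have hrele : ∀ p ∈ S, Real.log p / L ≤ 1 / 64 := by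
    intro p hp
    rw [div_le_div_iff₀ hLpos (by norm_num)]
    have := hlogw p (hSm p hp).2.1 (hSm p hp).2.2
    linarith
  have hre0 : ∀ p ∈ S, 0 ≤ Real.log p / L := by
    intro p hp
    have : 0 ≤ Real.log p := Real.log_natCast_nonneg p
    positivity
  have hexp2 : ∀ p ∈ S, Real.exp (Real.log p / L) ≤ 2 := by
    intro p hp
    have h1 : Real.exp (Real.log p / L) ≤ Real.exp (1 / 64) := Real.exp_le_exp.mpr (hrele p hp)
    have h2 : Real.exp (1 / 64 : ℝ) ≤ 2 := by
      have h3 : (1 / 64 : ℝ) ≤ Real.log 2 := by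
        have := Real.log_two_gt_d9
        linarith
      calc Real.exp (1 / 64 : ℝ) ≤ Real.exp (Real.log 2) := Real.exp_le_exp.mpr h3
        _ = 2 := Real.exp_log (by norm_num)
    linarith
  -- the sum of 1/p
  have hpr : ∀ M : ℝ, 0 ≤ M → (∀ p ∈ S, ‖1 - (p : ℂ) ^ st q t‖ ^ 2 ≤ M) →
      ∏ p ∈ S, (1 + ‖1 - (p : ℂ) ^ st q t‖ ^ 2 / ((p : ℝ) - 1)) ≤
        Real.exp (2 * M * ∑ p ∈ S, (p : ℝ)⁻¹) := by
    intro M hM hMp
    refine le_trans (SProd_exp S _ ?_) ?_
    · intro p hp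
      have h1 := hp1 p hp
      have h2 := hppos p hp
      have : 0 < (p : ℝ) - 1 := by linarith
      positivity
    · apply Real.exp_le_exp.mpr
      rw [Finset.mul_sum]
      apply Finset.sum_le_sum
      intro p hp
      have h1 := hp1 p hp
      have h2 := hppos p hp
      have h3 : 0 < (p : ℝ) - 1 := by linarith
      calc ‖1 - (p : ℂ) ^ st q t‖ ^ 2 / ((p : ℝ) - 1) ≤ M / ((p : ℝ) / 2) := by
            apply div_le_div₀ hM (hMp p hp) (by positivity) h1
        _ = 2 * M * (p : ℝ)⁻¹ := by field_simp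
  have hw1 : ww q ≠ 0 := by
    unfold ww
    have : (1 : ℝ) ≤ L ^ 300 := one_le_pow₀ hL1
    rw [← Nat.pos_iff_ne_zero, Nat.floor_pos]
    exact this
  have hw1' : 1 ≤ ww q := Nat.one_le_iff_ne_zero.mpr hw1
  have hlogww : Real.log (ww q : ℕ) ≤ F - 1 := hlogw _ hw1' le_rfl
  have hlogww0 : 0 ≤ Real.log (ww q : ℕ) := Real.log_natCast_nonneg _
  have hSpr : S = Pool.Agent.MP6396c4.pr (ww q) := rfl
  have hsum : ∑ p ∈ S, (p : ℝ)⁻¹ ≤ Real.log F + C := by
    have h1 := (hC (ww q) hw1').1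
    rw [hSpr]
    refine le_trans h1 ?_
    have : Real.log (1 + Real.log (ww q : ℕ)) ≤ Real.log F := by
      apply Real.log_le_log (by linarith)
      linarith
    linarith
  have hlogF : Real.log F ≤ F - 1 := Real.log_le_sub_one_of_pos (by linarith)
  constructor
  · -- first bound
    have hb : ∀ p ∈ S, ‖1 - (p : ℂ) ^ st q t‖ ^ 2 ≤ 9 := by
      intro p hp
      have h1 : ‖1 - (p : ℂ) ^ st q t‖ ≤ 3 := by
        refine le_trans (norm_sub_le _ _) ?_
        rw [hcpow p hp, Complex.norm_exp, hre, norm_one]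
        linarith [hexp2 p hp]
      have h0 : 0 ≤ ‖1 - (p : ℂ) ^ st q t‖ := norm_nonneg _
      nlinarith
    refine le_trans (hpr 9 (by norm_num) hb) ?_
    have h2 : Real.exp (2 * 9 * ∑ p ∈ S, (p : ℝ)⁻¹) ≤ Real.exp (18 * Real.log F + 18 * C) := by
      apply Real.exp_le_exp.mpr
      linarith
    refine le_trans h2 ?_
    rw [Real.exp_add]
    have h3 : Real.exp (18 * Real.log F) = F ^ 18 := by
      rw [show (18 : ℝ) * Real.log F = ((18 : ℕ) : ℝ) * Real.log F by norm_num,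
        Real.exp_nat_mul, Real.exp_log (by linarith)]
    rw [h3]
    have h4 : 0 ≤ F ^ 18 * Real.exp (18 * C) := by positivity
    nlinarith
  · intro ht
    have hsq : Real.sqrt L ^ 2 = L := Real.sq_sqrt hLpos.le
    have hsq1 : 1 ≤ Real.sqrt L := Real.one_le_sqrt.mpr hL1
    have hb : ∀ p ∈ S, ‖1 - (p : ℂ) ^ st q t‖ ^ 2 ≤ 16 * F ^ 2 / L := by
      intro p hp
      have hlp := hlogw p (hSm p hp).2.1 (hSm p hp).2.2
      have hlp0 : 0 ≤ Real.log p := Real.log_natCast_nonneg p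
      have hz : ‖((Real.log p : ℝ) : ℂ) * st q t‖ ≤ F * (2 * Real.sqrt L) / L := by
        rw [norm_mul, Complex.norm_real, Real.norm_eq_abs, abs_of_nonneg hlp0]
        have hst : ‖st q t‖ ≤ (2 * Real.sqrt L) / L := by
          unfold st
          rw [norm_mul, Complex.norm_real, hal, Real.norm_eq_abs,
            abs_of_nonneg (by positivity)]
          have : ‖(1 : ℂ) + t * Complex.I‖ ≤ 2 * Real.sqrt L := by
            refine le_trans (norm_add_le _ _) ?_
            rw [norm_mul, Complex.norm_I, Complex.norm_real, Real.norm_eq_abs, norm_one]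
            linarith
          calc 1 / L * ‖(1 : ℂ) + t * Complex.I‖ ≤ 1 / L * (2 * Real.sqrt L) := by gcongr
            _ = (2 * Real.sqrt L) / L := by ring
        calc Real.log p * ‖st q t‖ ≤ F * ((2 * Real.sqrt L) / L) := by
              apply mul_le_mul (by linarith) hst (norm_nonneg _) (by linarith)
          _ = F * (2 * Real.sqrt L) / L := by ring
      have h1 : ‖1 - (p : ℂ) ^ st q t‖ ≤ 4 * F * Real.sqrt L / L := by
        rw [hcpow p hp]
        have h2 := SProd_cexp (((Real.log p : ℝ) : ℂ) * st q t) (by rw [hre]; exact hre0 p hp)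
        rw [hre] at h2
        refine le_trans h2 ?_
        calc ‖((Real.log p : ℝ) : ℂ) * st q t‖ * Real.exp (Real.log p / L)
            ≤ (F * (2 * Real.sqrt L) / L) * 2 := by
              apply mul_le_mul hz (hexp2 p hp) (Real.exp_pos _).le
              positivity
          _ = 4 * F * Real.sqrt L / L := by ring
      have h0 : 0 ≤ ‖1 - (p : ℂ) ^ st q t‖ := norm_nonneg _
      calc ‖1 - (p : ℂ) ^ st q t‖ ^ 2 ≤ (4 * F * Real.sqrt L / L) ^ 2 := by
            apply pow_le_pow_left₀ h0 h1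
        _ = 16 * F ^ 2 * (Real.sqrt L ^ 2) / L ^ 2 := by ring
        _ = 16 * F ^ 2 / L := by
            rw [hsq]; field_simp
    refine le_trans (hpr (16 * F ^ 2 / L) (by positivity) hb) ?_
    have hC18 : 1 + C ≤ Real.exp (18 * C) := by
      have := Real.add_one_le_exp (18 * C)
      linarith
    have hs2 : ∑ p ∈ S, (p : ℝ)⁻¹ ≤ F * Real.exp (18 * C) := by
      have h1 : F - 1 + C ≤ F * (1 + C) := by nlinarith
      have h2 : F * (1 + C) ≤ F * Real.exp (18 * C) := by gcongr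
      linarith
    have h5 : 2 * (16 * F ^ 2 / L) * ∑ p ∈ S, (p : ℝ)⁻¹ ≤ 1 / 2 := by
      have h6 : F ^ 3 ≤ F ^ 18 := pow_le_pow_right₀ hF1 (by norm_num)
      have h7 : 64 * (F ^ 3 * Real.exp (18 * C)) ≤ L := by
        refine le_trans ?_ hmain
        have h8 : F ^ 3 * Real.exp (18 * C) ≤ F ^ 18 * Real.exp (18 * C) := by gcongr
        linarith
      calc 2 * (16 * F ^ 2 / L) * ∑ p ∈ S, (p : ℝ)⁻¹
          ≤ 2 * (16 * F ^ 2 / L) * (F * Real.exp (18 * C)) := by gcongr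
        _ = (32 * (F ^ 3 * Real.exp (18 * C))) / L := by ring
        _ ≤ 1 / 2 := by
          rw [div_le_div_iff₀ hLpos (by norm_num)]
          linarith
    have h9 : (1 / 2 : ℝ) ≤ Real.log 2 := by
      have := Real.log_two_gt_d9
      linarith
    calc Real.exp (2 * (16 * F ^ 2 / L) * ∑ p ∈ S, (p : ℝ)⁻¹) ≤ Real.exp (Real.log 2) :=
          Real.exp_le_exp.mpr (le_trans h5 h9)
      _ = 2 := Real.exp_log (by norm_num)

end Pool.Agent.NV
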