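import Mathlib
import Pool.Agent.Lib.MP_afd523_nt.Defs
import Pool.Agent.Lib.MP_afd523_nt.Parts

/-!
MP_afd523_nt, project NV, module QA (DForm): Selberg diagonalisation.
-/

namespace Pool.Agent.NV

open Finset Complex MeasureTheory

/-- partial sums over the rough numbers -/
noncomputable def DForm_R (w : ℕ) (s : ℝ) (T : ℕ) : ℝ :=
  ∑ g ∈ (Icc 1 T).filter (fun g => ro w g = g), (g : ℝ) ^ (-s)

/-- the multiplicative function `J` -/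
noncomputable def DForm_J (s : ℝ) (d : ℕ) : ℝ := ∏ p ∈ d.primeFactors, ((p : ℝ) ^ s - 1)

theorem DForm_R_mono (w : ℕ) (s : ℝ) : Monotone (DForm_R w s) := by
  intro a b hab
  unfold DForm_R
  refine Finset.sum_le_sum_of_subset_of_nonneg ?_ fun g _ _ => by positivity
  intro g hg
  simp only [mem_filter, mem_Icc] at hg ⊢
  exact ⟨⟨hg.1.1, hg.1.2.trans hab⟩, hg.2⟩

theorem DForm_rough_dvd {w m d : ℕ} (hm : m ≠ 0) (h : ro w m = m) (hd : d ∣ m) : ro w d = d := by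
  have hd0 : d ≠ 0 := fun h0 => hm (by rw [h0] at hd; exact Nat.eq_zero_of_zero_dvd hd)
  rw [ro_eq_self_iff w hd0]
  rw [ro_eq_self_iff w hm] at h
  exact fun p hp hpd => h p hp (hpd.trans hd)

theorem DForm_rough_lcm {w m n : ℕ} (hm : m ≠ 0) (hn : n ≠ 0) (h : ro w m = m) (h' : ro w n = n) :
    ro w (Nat.lcm m n) = Nat.lcm m n := by
  rw [ro_eq_self_iff w (Nat.lcm_ne_zero hm hn)]
  rw [ro_eq_self_iff w hm] at h
  rw [ro_eq_self_iff w hn] at h'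
  intro p hp hpd
  have h1 : p ∣ m * n := hpd.trans (Nat.lcm_dvd_mul m n)
  rcases (Nat.Prime.dvd_mul hp).1 h1 with h2 | h2
  · exact h p hp h2
  · exact h' p hp h2

theorem DForm_rough_mul {w L g : ℕ} (hL : L ≠ 0) (hg : g ≠ 0) (h : ro w L = L) :
    ro w (L * g) = L * g ↔ ro w g = g := by
  rw [ro_mul w hL hg, h]
  constructor
  · exact fun h1 => Nat.eq_of_mul_eq_mul_left (Nat.pos_of_ne_zero hL) h1
  · exact fun h1 => by rw [h1]

/-- the sum over the rough multiples of `L` -/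
theorem DForm_mult (w T L : ℕ) (s : ℝ) (hL : L ≠ 0) (hr : ro w L = L) :
    ∑ g ∈ (Icc 1 T).filter (fun g => ro w g = g ∧ L ∣ g), (g : ℝ) ^ (-s) =
      (L : ℝ) ^ (-s) * DForm_R w s (T / L) := by
  unfold DForm_R
  rw [Finset.mul_sum]
  symm
  refine Finset.sum_nbij' (fun g => L * g) (fun g => g / L) ?_ ?_ ?_ ?_ ?_
  · intro g hg
    simp only [mem_filter, mem_Icc] at hg ⊢
    have hg0 : g ≠ 0 := by omega
    refine ⟨⟨Nat.one_le_iff_ne_zero.2 (mul_ne_zero hL hg0), ?_⟩,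
      (DForm_rough_mul hL hg0 hr).2 hg.2, Dvd.intro _ rfl⟩
    calc L * g ≤ L * (T / L) := Nat.mul_le_mul_left L hg.1.2
      _ ≤ T := Nat.mul_div_le T L
  · intro g hg
    simp only [mem_filter, mem_Icc] at hg ⊢
    obtain ⟨⟨h1, h2⟩, h3, k, rfl⟩ := hg
    have hk : k ≠ 0 := by
      rintro rfl
      simp at h1
    rw [Nat.mul_div_cancel_left k (Nat.pos_of_ne_zero hL)]
    refine ⟨⟨Nat.one_le_iff_ne_zero.2 hk, ?_⟩, (DForm_rough_mul hL hk hr).1 h3⟩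
    rw [Nat.le_div_iff_mul_le (Nat.pos_of_ne_zero hL), mul_comm]
    exact h2
  · intro g _
    exact Nat.mul_div_cancel_left g (Nat.pos_of_ne_zero hL)
  · intro g hg
    simp only [mem_filter, mem_Icc] at hg
    exact Nat.mul_div_cancel' hg.2.2
  · intro g _
    rw [Nat.cast_mul, Real.mul_rpow (Nat.cast_nonneg _) (Nat.cast_nonneg _)]

theorem DForm_pow (s : ℝ) {n : ℕ} (hn : Squarefree n) :
    (n : ℝ) ^ s = ∑ d ∈ n.divisors, DForm_J s d := by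
  have hn0 : n ≠ 0 := hn.ne_zero
  have h1 : (n : ℝ) ^ s = ∏ p ∈ n.primeFactors, (p : ℝ) ^ s := by
    conv_lhs => rw [← Nat.prod_primeFactors_of_squarefree hn]
    rw [Nat.cast_prod, Real.finsetProd_rpow _ _ fun p _ => Nat.cast_nonneg _]
  have h2 := (ArithmeticFunction.IsMultiplicative.prodPrimeFactors
    (fun p => (p : ℝ) ^ s - 1)).prodPrimeFactors_one_add_of_squarefree hn
  rw [h1]
  have h3 : ∏ p ∈ n.primeFactors, (p : ℝ) ^ s = ∏ p ∈ n.primeFactors,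
      (1 + ArithmeticFunction.prodPrimeFactors (fun p => (p : ℝ) ^ s - 1) p) := by
    refine Finset.prod_congr rfl fun p hp => ?_
    have hp' := Nat.prime_of_mem_primeFactors hp
    rw [ArithmeticFunction.prodPrimeFactors_apply hp'.ne_zero, hp'.primeFactors,
      Finset.prod_singleton]
    ring
  rw [h3, h2]
  refine Finset.sum_congr rfl fun d hd => ?_
  rw [ArithmeticFunction.prodPrimeFactors_apply (Nat.pos_of_mem_divisors hd).ne']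
  rfl

theorem DForm_J_nonneg (s : ℝ) (hs : 0 ≤ s) (d : ℕ) : 0 ≤ DForm_J s d := by
  refine Finset.prod_nonneg fun p hp => ?_
  have h1 : (1 : ℝ) ≤ p := by exact_mod_cast (Nat.prime_of_mem_primeFactors hp).one_lt.le
  linarith [Real.one_le_rpow h1 hs]

theorem DForm_J_le (s : ℝ) (hs : 0 ≤ s) {d : ℕ} (hd : Squarefree d) : DForm_J s d ≤ (d : ℝ) ^ s := by
  rw [DForm_pow s hd]
  exact Finset.single_le_sum (fun i _ => DForm_J_nonneg s hs i)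
    (Nat.mem_divisors_self d hd.ne_zero)

/-- the cpow is real -/
theorem DForm_cpow (m : ℕ) (s : ℝ) : (m : ℂ) ^ (-(s : ℂ)) = (((m : ℝ) ^ (-s) : ℝ) : ℂ) := by
  rw [Complex.ofReal_cpow (Nat.cast_nonneg _)]
  push_cast
  rfl

section
variable (w X Y : ℕ) (s : ℝ) (l : ℕ → ℂ)
  (hl : ∀ m, l m ≠ 0 → 1 ≤ m ∧ m ≤ Y ∧ Squarefree m ∧ ro w m = m)
include hl

theorem DForm_div {g : ℕ} (hg : g ≠ 0) :
    ∑ m ∈ g.divisors, l m = ∑ m ∈ Icc 1 Y, if m ∣ g then l m else 0 := by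
  rw [← Finset.sum_filter]
  have h1 : ∑ m ∈ g.divisors, l m = ∑ m ∈ g.divisors.filter (fun m => l m ≠ 0), l m := by
    rw [Finset.sum_filter]
    refine Finset.sum_congr rfl fun m _ => ?_
    by_cases h : l m = 0
    · simp [h]
    · simp [h]
  have h2 : ∑ m ∈ (Icc 1 Y).filter (fun m => m ∣ g), l m =
      ∑ m ∈ ((Icc 1 Y).filter (fun m => m ∣ g)).filter (fun m => l m ≠ 0), l m := by
    rw [Finset.sum_filter (s := (Icc 1 Y).filter (fun m => m ∣ g))]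
    refine Finset.sum_congr rfl fun m _ => ?_
    by_cases h : l m = 0
    · simp [h]
    · simp [h]
  rw [h1, h2]
  refine Finset.sum_congr ?_ fun _ _ => rfl
  ext m
  simp only [mem_filter, Nat.mem_divisors, mem_Icc]
  constructor
  · rintro ⟨⟨h3, _⟩, h4⟩
    exact ⟨⟨⟨(hl m h4).1, (hl m h4).2.1⟩, h3⟩, h4⟩
  · rintro ⟨⟨_, h3⟩, h4⟩
    exact ⟨⟨h3, hg⟩, h4⟩

/-- expansion of the form -/
theorem DForm_expand (T : ℕ) :
    ((∑ g ∈ (Icc 1 T).filter (fun g => ro w g = g), (g : ℝ) ^ (-s) *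
      ‖∑ m ∈ g.divisors, l m‖ ^ 2 : ℝ) : ℂ) =
    ∑ m₁ ∈ Icc 1 Y, ∑ m₂ ∈ Icc 1 Y, l m₁ * (starRingEnd ℂ) (l m₂) *
      (((Nat.lcm m₁ m₂ : ℝ) ^ (-s) * DForm_R w s (T / Nat.lcm m₁ m₂) : ℝ) : ℂ) := by
  have h1 : ∀ g ∈ (Icc 1 T).filter (fun g => ro w g = g),
      (((g : ℝ) ^ (-s) * ‖∑ m ∈ g.divisors, l m‖ ^ 2 : ℝ) : ℂ) =
      ∑ m₁ ∈ Icc 1 Y, ∑ m₂ ∈ Icc 1 Y, (((g : ℝ) ^ (-s) : ℝ) : ℂ) *
        ((if m₁ ∣ g then l m₁ else 0) * (starRingEnd ℂ) (if m₂ ∣ g then l m₂ else 0)) := by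
    intro g hg
    simp only [mem_filter, mem_Icc] at hg
    rw [DForm_div w Y l hl (by omega : g ≠ 0)]
    rw [Complex.ofReal_mul, Complex.ofReal_pow, ← Complex.mul_conj', map_sum,
      Finset.sum_mul_sum, Finset.mul_sum]
    refine Finset.sum_congr rfl fun m₁ _ => ?_
    rw [Finset.mul_sum]
  rw [Complex.ofReal_sum, Finset.sum_congr rfl h1, Finset.sum_comm]
  refine Finset.sum_congr rfl fun m₁ _ => ?_
  rw [Finset.sum_comm]
  refine Finset.sum_congr rfl fun m₂ _ => ?_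
  by_cases h2 : l m₁ = 0
  · simp [h2]
  by_cases h3 : l m₂ = 0
  · simp [h3]
  obtain ⟨a1, a2, a3, a4⟩ := hl m₁ h2
  obtain ⟨b1, b2, b3, b4⟩ := hl m₂ h3
  have hm1 : m₁ ≠ 0 := by omega
  have hm2 : m₂ ≠ 0 := by omega
  rw [← DForm_mult w T (Nat.lcm m₁ m₂) s (Nat.lcm_ne_zero hm1 hm2)
    (DForm_rough_lcm hm1 hm2 a4 b4), Complex.ofReal_sum, Finset.mul_sum, ← Finset.filter_filter,
    Finset.sum_filter (s := (Icc 1 T).filter (fun g => ro w g = g))]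
  refine Finset.sum_congr rfl fun g _ => ?_
  by_cases h4 : Nat.lcm m₁ m₂ ∣ g
  · have h5 : m₁ ∣ g := (Nat.dvd_lcm_left m₁ m₂).trans h4
    have h6 : m₂ ∣ g := (Nat.dvd_lcm_right m₁ m₂).trans h4
    rw [if_pos h4, if_pos h5, if_pos h6]
    ring
  · rw [if_neg h4]
    by_cases h5 : m₁ ∣ g
    · have h6 : ¬ m₂ ∣ g := fun h6 => h4 (Nat.lcm_dvd h5 h6)
      rw [if_neg h6]
      simp
    · rw [if_neg h5]
      simp

/-- the diagonal form -/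
theorem DForm_diag :
    ∑ m₁ ∈ Icc 1 Y, ∑ m₂ ∈ Icc 1 Y, l m₁ * (starRingEnd ℂ) (l m₂) *
      (((Nat.lcm m₁ m₂ : ℝ) ^ (-s) : ℝ) : ℂ) =
    ((∑ δ ∈ (Icc 1 Y).filter (fun δ => ro w δ = δ ∧ Squarefree δ),
        DForm_J s δ * ‖∑ m ∈ (Icc 1 Y).filter (fun m => δ ∣ m), l m * (m : ℂ) ^ (-(s : ℂ))‖ ^ 2 :
        ℝ) : ℂ) := by
  have h1 : ∀ δ ∈ (Icc 1 Y).filter (fun δ => ro w δ = δ ∧ Squarefree δ),
      ((DForm_J s δ * ‖∑ m ∈ (Icc 1 Y).filter (fun m => δ ∣ m), l m * (m : ℂ) ^ (-(s : ℂ))‖ ^ 2 :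
        ℝ) : ℂ) =
      ∑ m₁ ∈ Icc 1 Y, ∑ m₂ ∈ Icc 1 Y, l m₁ * (starRingEnd ℂ) (l m₂) *
        (if δ ∣ m₁ ∧ δ ∣ m₂ then
          (((m₁ : ℝ) ^ (-s) * (m₂ : ℝ) ^ (-s) * DForm_J s δ : ℝ) : ℂ) else 0) := by
    intro δ _
    rw [Complex.ofReal_mul, Complex.ofReal_pow, ← Complex.mul_conj', map_sum,
      Finset.sum_mul_sum, Finset.mul_sum, Finset.sum_filter]
    refine Finset.sum_congr rfl fun m₁ _ => ?_
    by_cases h2 : δ ∣ m₁
    · rw [if_pos h2, Finset.mul_sum, Finset.sum_filter]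
      refine Finset.sum_congr rfl fun m₂ _ => ?_
      by_cases h3 : δ ∣ m₂
      · rw [if_pos h3, if_pos ⟨h2, h3⟩, DForm_cpow, DForm_cpow, map_mul, Complex.conj_ofReal]
        push_cast
        ring
      · rw [if_neg h3, if_neg (fun h => h3 h.2), mul_zero]
    · rw [if_neg h2]
      symm
      refine Finset.sum_eq_zero fun m₂ _ => ?_
      rw [if_neg (fun h => h2 h.1), mul_zero]
  rw [Complex.ofReal_sum]
  symm
  rw [Finset.sum_congr rfl h1, Finset.sum_comm]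
  refine Finset.sum_congr rfl fun m₁ _ => ?_
  rw [Finset.sum_comm]
  refine Finset.sum_congr rfl fun m₂ _ => ?_
  rw [← Finset.mul_sum]
  by_cases h2 : l m₁ = 0
  · simp [h2]
  by_cases h3 : l m₂ = 0
  · simp [h3]
  congr 1
  symm
  obtain ⟨a1, a2, a3, a4⟩ := hl m₁ h2
  obtain ⟨b1, b2, b3, b4⟩ := hl m₂ h3
  have hm1 : m₁ ≠ 0 := by omega
  have hm2 : m₂ ≠ 0 := by omega
  have hg : Squarefree (Nat.gcd m₁ m₂) := a3.squarefree_of_dvd (Nat.gcd_dvd_left _ _)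
  have h4 : (Nat.lcm m₁ m₂ : ℝ) ^ (-s) =
      (m₁ : ℝ) ^ (-s) * (m₂ : ℝ) ^ (-s) * (Nat.gcd m₁ m₂ : ℝ) ^ s := by
    have h5 : (Nat.gcd m₁ m₂ : ℝ) ^ (-s) * (Nat.lcm m₁ m₂ : ℝ) ^ (-s) =
        (m₁ : ℝ) ^ (-s) * (m₂ : ℝ) ^ (-s) := by
      rw [← Real.mul_rpow (Nat.cast_nonneg _) (Nat.cast_nonneg _),
        ← Real.mul_rpow (Nat.cast_nonneg _) (Nat.cast_nonneg _), ← Nat.cast_mul, ← Nat.cast_mul,
        Nat.gcd_mul_lcm]
    have h6 : (0 : ℝ) < (Nat.gcd m₁ m₂ : ℝ) := by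
      exact_mod_cast Nat.gcd_pos_of_pos_left m₂ (Nat.pos_of_ne_zero hm1)
    have h7 : (Nat.gcd m₁ m₂ : ℝ) ^ (-s) * (Nat.gcd m₁ m₂ : ℝ) ^ s = 1 := by
      rw [← Real.rpow_add h6]
      simp
    rw [← h5]
    linear_combination (-(Nat.lcm m₁ m₂ : ℝ) ^ (-s)) * h7
  rw [h4, DForm_pow s hg, ← Finset.sum_filter, Finset.mul_sum, Complex.ofReal_sum]
  refine Finset.sum_congr ?_ fun _ _ => rfl
  ext δ
  simp only [mem_filter, mem_Icc, Nat.mem_divisors, Nat.dvd_gcd_iff]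
  constructor
  · rintro ⟨⟨h5, h6⟩, h7⟩
    have h8 : δ ≠ 0 := fun h0 => hm1 (by rw [h0] at h5; exact Nat.eq_zero_of_zero_dvd h5)
    refine ⟨⟨⟨Nat.one_le_iff_ne_zero.2 h8, (Nat.le_of_dvd (Nat.pos_of_ne_zero hm1) h5).trans a2⟩,
      DForm_rough_dvd hm1 a4 h5, a3.squarefree_of_dvd h5⟩, h5, h6⟩
  · rintro ⟨_, h5, h6⟩
    exact ⟨⟨h5, h6⟩, (Nat.gcd_pos_of_pos_left m₂ (Nat.pos_of_ne_zero hm1)).ne'⟩

end

theorem diag_form (w X Y : ℕ) (s Z : ℝ) (hs : 1 < s)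
    (hZ : ∀ X' : ℕ, ∑ g ∈ (Icc 1 X').filter (fun g => ro w g = g), (g : ℝ) ^ (-s) ≤ Z)
    (l : ℕ → ℂ) (hl : ∀ m, l m ≠ 0 → 1 ≤ m ∧ m ≤ Y ∧ Squarefree m ∧ ro w m = m) :
    ∑ g ∈ (Icc 1 X).filter (fun g => ro w g = g), (g : ℝ) ^ (-s) * ‖∑ m ∈ g.divisors, l m‖ ^ 2 ≤
      Z * ∑ δ ∈ (Icc 1 Y).filter (fun δ => ro w δ = δ ∧ Squarefree δ),
        (δ : ℝ) ^ s * ‖∑ m ∈ (Icc 1 Y).filter (fun m => δ ∣ m), l m * (m : ℂ) ^ (-(s : ℂ))‖ ^ 2 := by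
  have hs0 : 0 ≤ s := by linarith
  -- the limit of the partial sums
  have hbdd : BddAbove (Set.range (DForm_R w s)) := by
    refine ⟨Z, ?_⟩
    rintro _ ⟨T, rfl⟩
    exact hZ T
  have hlim := tendsto_atTop_ciSup (DForm_R_mono w s) hbdd
  set Z0 : ℝ := ⨆ T, DForm_R w s T with hZ0
  have hZ0Z : Z0 ≤ Z := ciSup_le fun T => hZ T
  set F : ℕ → ℝ := fun T => ∑ g ∈ (Icc 1 T).filter (fun g => ro w g = g), (g : ℝ) ^ (-s) *
    ‖∑ m ∈ g.divisors, l m‖ ^ 2 with hF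
  set Q : ℝ := ∑ δ ∈ (Icc 1 Y).filter (fun δ => ro w δ = δ ∧ Squarefree δ),
    DForm_J s δ * ‖∑ m ∈ (Icc 1 Y).filter (fun m => δ ∣ m), l m * (m : ℂ) ^ (-(s : ℂ))‖ ^ 2 with hQ
  have hQ0 : 0 ≤ Q := Finset.sum_nonneg fun δ _ =>
    mul_nonneg (DForm_J_nonneg s hs0 δ) (by positivity)
  have hmono : Monotone F := by
    intro a b hab
    refine Finset.sum_le_sum_of_subset_of_nonneg ?_ fun g _ _ => by positivity
    intro g hg
    simp only [mem_filter, mem_Icc] at hg ⊢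
    exact ⟨⟨hg.1.1, hg.1.2.trans hab⟩, hg.2⟩
  have htend : Filter.Tendsto (fun T => ((F T : ℝ) : ℂ)) Filter.atTop
      (nhds (((Z0 * Q : ℝ)) : ℂ)) := by
    have h1 : (((Z0 * Q : ℝ)) : ℂ) = ∑ m₁ ∈ Icc 1 Y, ∑ m₂ ∈ Icc 1 Y,
        l m₁ * (starRingEnd ℂ) (l m₂) * (((Nat.lcm m₁ m₂ : ℝ) ^ (-s) * Z0 : ℝ) : ℂ) := by
      rw [Complex.ofReal_mul, hQ, ← DForm_diag w Y s l hl, Finset.mul_sum]
      refine Finset.sum_congr rfl fun m₁ _ => ?_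
      rw [Finset.mul_sum]
      refine Finset.sum_congr rfl fun m₂ _ => ?_
      push_cast
      ring
    rw [h1]
    simp only [hF, DForm_expand w Y s l hl]
    refine tendsto_finsetSum _ fun m₁ hm₁ => tendsto_finsetSum _ fun m₂ hm₂ => ?_
    refine Filter.Tendsto.mul tendsto_const_nhds ?_
    refine (Complex.continuous_ofReal.tendsto _).comp ?_
    refine Filter.Tendsto.mul tendsto_const_nhds ?_
    simp only [mem_Icc] at hm₁ hm₂
    exact hlim.comp (Nat.tendsto_div_const_atTop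
      (Nat.lcm_ne_zero (by omega : m₁ ≠ 0) (by omega : m₂ ≠ 0)))
  have htend' : Filter.Tendsto F Filter.atTop (nhds (Z0 * Q)) := by
    have h1 := (Complex.continuous_re.tendsto _).comp htend
    simpa [Function.comp_def] using h1
  have h2 : F X ≤ Z0 * Q := hmono.ge_of_tendsto htend' X
  calc F X ≤ Z0 * Q := h2
    _ ≤ Z * Q := mul_le_mul_of_nonneg_right hZ0Z hQ0
    _ ≤ Z * ∑ δ ∈ (Icc 1 Y).filter (fun δ => ro w δ = δ ∧ Squarefree δ),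
        (δ : ℝ) ^ s * ‖∑ m ∈ (Icc 1 Y).filter (fun m => δ ∣ m), l m * (m : ℂ) ^ (-(s : ℂ))‖ ^ 2 := by
        refine mul_le_mul_of_nonneg_left ?_ ?_
        · refine Finset.sum_le_sum fun δ hδ => ?_
          simp only [mem_filter] at hδ
          exact mul_le_mul_of_nonneg_right (DForm_J_le s hs0 hδ.2.2) (by positivity)
        · have h3 := hZ 0
          simpa using h3

end Pool.Agent.NV
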