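import Pool.Agent.Lib.MP_afd523_nt.Defs
import Pool.Agent.Lib.MP_afd523_nt.Parts

/-! Project NV (MP_afd523_nt), module QB: zeta over rough numbers. -/

namespace Pool.Agent.NV

open Finset Complex MeasureTheory

theorem ZRough_term (a : ℝ) (ha : 0 < a) (n : ℕ) (hn : 1 ≤ n) :
    a * ((n + 1 : ℕ) : ℝ) ^ (-(1 + a)) ≤ (n : ℝ) ^ (-a) - ((n + 1 : ℕ) : ℝ) ^ (-a) := by
  have hn0 : (0 : ℝ) < n := by exact_mod_cast hn
  set y : ℝ := ((n + 1 : ℕ) : ℝ) with hy
  have hy0 : 0 < y := by rw [hy]; positivity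
  have hyn : (n : ℝ) = y * (1 - 1 / y) := by
    rw [hy]
    push_cast
    field_simp
    ring
  have hx : 0 < 1 - 1 / y := by
    by_contra h
    have : (n : ℝ) ≤ 0 := by
      rw [hyn]
      exact mul_nonpos_of_nonneg_of_nonpos hy0.le (not_lt.1 h)
    linarith
  have h1 : (n : ℝ) ^ (-a) = y ^ (-a) * (1 - 1 / y) ^ (-a) := by
    conv_lhs => rw [hyn]
    exact Real.mul_rpow hy0.le hx.le
  have h2 : 1 + a / y ≤ (1 - 1 / y) ^ (-a) := by
    rw [Real.rpow_def_of_pos hx]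
    have h3 := Real.log_le_sub_one_of_pos hx
    have h4 : a / y ≤ Real.log (1 - 1 / y) * -a := by
      have h5 : a * (1 / y) ≤ a * (-Real.log (1 - 1 / y)) :=
        mul_le_mul_of_nonneg_left (by linarith) ha.le
      calc a / y = a * (1 / y) := by ring
        _ ≤ a * (-Real.log (1 - 1 / y)) := h5
        _ = Real.log (1 - 1 / y) * -a := by ring
    have h6 := Real.add_one_le_exp (Real.log (1 - 1 / y) * -a)
    linarith
  have h3 : y ^ (-(1 + a)) = y ^ (-a) * y⁻¹ := by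
    rw [show -(1 + a) = -a + (-1) by ring, Real.rpow_add hy0, Real.rpow_neg_one]
  have h4 : 0 < y ^ (-a) := Real.rpow_pos_of_pos hy0 _
  rw [h1, h3]
  have h5 : y ^ (-a) * (a / y) ≤ y ^ (-a) * ((1 - 1 / y) ^ (-a) - 1) :=
    mul_le_mul_of_nonneg_left (by linarith) h4.le
  calc a * (y ^ (-a) * y⁻¹) = y ^ (-a) * (a / y) := by ring
    _ ≤ y ^ (-a) * ((1 - 1 / y) ^ (-a) - 1) := h5
    _ = y ^ (-a) * (1 - 1 / y) ^ (-a) - y ^ (-a) := by ring

theorem ZRough_Icc (a : ℝ) (ha : 0 < a) (M : ℕ) :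
    ∑ n ∈ Icc 1 (M + 1), (n : ℝ) ^ (-(1 + a)) ≤ 1 + 1 / a - ((M + 1 : ℕ) : ℝ) ^ (-a) / a := by
  induction M with
  | zero =>
    simp
  | succ M ih =>
    rw [Finset.sum_Icc_succ_top (by omega)]
    have h := ZRough_term a ha (M + 1) (by omega)
    have h2 : ((M + 1 + 1 : ℕ) : ℝ) ^ (-(1 + a)) ≤
        ((M + 1 : ℕ) : ℝ) ^ (-a) / a - ((M + 1 + 1 : ℕ) : ℝ) ^ (-a) / a := by
      rw [← sub_div, le_div_iff₀ ha]
      linarith
    linarith

theorem ZRough_finset (a : ℝ) (ha : 0 < a) (F : Finset ℕ) (hF : ∀ n ∈ F, 1 ≤ n) :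
    ∑ n ∈ F, (n : ℝ) ^ (-(1 + a)) ≤ 1 + 1 / a := by
  have h1 : F ⊆ Icc 1 (F.sup id + 1) := by
    intro n hn
    rw [mem_Icc]
    exact ⟨hF n hn, (Finset.le_sup (f := id) hn).trans (Nat.le_succ _)⟩
  have h2 : ∑ n ∈ F, (n : ℝ) ^ (-(1 + a)) ≤ ∑ n ∈ Icc 1 (F.sup id + 1), (n : ℝ) ^ (-(1 + a)) :=
    Finset.sum_le_sum_of_subset_of_nonneg h1 fun i _ _ => Real.rpow_nonneg (Nat.cast_nonneg _) _
  have h3 := ZRough_Icc a ha (F.sup id)
  have h4 : 0 ≤ ((F.sup id + 1 : ℕ) : ℝ) ^ (-a) / a := by positivity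
  linarith

/-- the completely multiplicative function `n ↦ n ^ (-s)` -/
noncomputable def ZRough_f (s : ℝ) : ℕ →* ℝ where
  toFun n := (n : ℝ) ^ (-s)
  map_one' := by simp
  map_mul' m n := by
    push_cast
    exact Real.mul_rpow (Nat.cast_nonneg _) (Nat.cast_nonneg _)

theorem ZRough_f_lt {s : ℝ} (hs : 0 < s) {p : ℕ} (hp : p.Prime) : ZRough_f s p < 1 := by
  change (p : ℝ) ^ (-s) < 1
  exact Real.rpow_lt_one_of_one_lt_of_neg (by exact_mod_cast hp.one_lt) (by linarith)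

theorem ZRough_f_nonneg (s : ℝ) (n : ℕ) : 0 ≤ ZRough_f s n :=
  Real.rpow_nonneg (Nat.cast_nonneg _) _

theorem ZRough_main (a : ℝ) (ha : 0 < a) (w X : ℕ) :
    ∑ g ∈ (Icc 1 X).filter (fun g => ro w g = g), (g : ℝ) ^ (-(1 + a)) ≤
      (1 + 1 / a) * ∏ p ∈ (Icc 1 w).filter Nat.Prime, (1 - (p : ℝ) ^ (-(1 + a))) := by
  classical
  have hs : 0 < 1 + a := by linarith
  obtain ⟨-, hsum⟩ := EulerProduct.summable_and_hasSum_factoredNumbers_prod_filter_prime_geometric
    (f := ZRough_f (1 + a)) (fun {p} hp => by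
      rw [Real.norm_of_nonneg (ZRough_f_nonneg _ _)]
      exact ZRough_f_lt hs hp) (Icc 1 w)
  set A := ∑ g ∈ (Icc 1 X).filter (fun g => ro w g = g), (g : ℝ) ^ (-(1 + a)) with hA
  have h1 : ∀ s : Finset (Nat.factoredNumbers (Icc 1 w)),
      ∑ m ∈ s, A * ZRough_f (1 + a) (m : ℕ) ≤ 1 + 1 / a := by
    intro s
    have h2 : ∑ m ∈ s, A * ZRough_f (1 + a) (m : ℕ) =
        ∑ x ∈ ((Icc 1 X).filter (fun g => ro w g = g)) ×ˢ s,
          ((x.1 * (x.2 : ℕ) : ℕ) : ℝ) ^ (-(1 + a)) := by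
      rw [← Finset.mul_sum, hA, Finset.sum_mul_sum, Finset.sum_product]
      refine Finset.sum_congr rfl fun g _ => Finset.sum_congr rfl fun m _ => ?_
      push_cast
      rw [Real.mul_rpow (Nat.cast_nonneg _) (Nat.cast_nonneg _)]
      rfl
    have h3 : Set.InjOn (fun x : ℕ × Nat.factoredNumbers (Icc 1 w) => x.1 * (x.2 : ℕ))
        (((Icc 1 X).filter (fun g => ro w g = g)) ×ˢ s : Finset _) := by
      have key : ∀ x ∈ (((Icc 1 X).filter (fun g => ro w g = g)) ×ˢ s :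
          Finset (ℕ × Nat.factoredNumbers (Icc 1 w))), ro w (x.1 * (x.2 : ℕ)) = x.1 ∧
          x.1 ≠ 0 := by
        rintro ⟨g, m, hm⟩ hx
        rw [mem_product, mem_filter, mem_Icc] at hx
        obtain ⟨⟨⟨hg1, -⟩, hg⟩, -⟩ := hx
        dsimp only at hg1 hg ⊢
        have hm0 : m ≠ 0 := Nat.ne_zero_of_mem_factoredNumbers hm
        have hg0 : g ≠ 0 := by omega
        have hsm : sm w m = m := by
          rw [sm_eq_self_iff w hm0]
          intro p hp hpm
          exact (mem_Icc.1 ((Nat.mem_factoredNumbers'.1 hm) p hp hpm)).2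
        have hro : ro w m = 1 := by
          rw [← hsm]
          exact ro_sm w m
        refine ⟨?_, hg0⟩
        rw [ro_mul w hg0 hm0, hg, hro, mul_one]
      intro x hx y hy hxy
      obtain ⟨hx1, hx0⟩ := key x hx
      obtain ⟨hy1, -⟩ := key y hy
      dsimp only at hxy
      have h4 : x.1 = y.1 := by rw [← hx1, ← hy1, hxy]
      have h5 : (x.2 : ℕ) = y.2 := by
        rw [← h4] at hxy
        exact Nat.eq_of_mul_eq_mul_left (Nat.pos_of_ne_zero hx0) hxy
      exact Prod.ext h4 (Subtype.ext h5)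
    rw [h2, ← Finset.sum_image (f := fun n : ℕ => (n : ℝ) ^ (-(1 + a))) h3]
    refine ZRough_finset a ha _ ?_
    intro n hn
    rw [mem_image] at hn
    obtain ⟨⟨g, m, hm⟩, hx, rfl⟩ := hn
    rw [mem_product, mem_filter, mem_Icc] at hx
    have hm0 : m ≠ 0 := Nat.ne_zero_of_mem_factoredNumbers hm
    exact Nat.mul_pos hx.1.1.1 (Nat.pos_of_ne_zero hm0)
  have h2 := hasSum_le_of_sum_le (hsum.mul_left A) h1
  have hpos : ∀ p ∈ (Icc 1 w).filter Nat.Prime, 0 < 1 - (p : ℝ) ^ (-(1 + a)) := by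
    intro p hp
    have := ZRough_f_lt hs (mem_filter.1 hp).2
    change (p : ℝ) ^ (-(1 + a)) < 1 at this
    linarith
  have h3 : 0 < ∏ p ∈ (Icc 1 w).filter Nat.Prime, (1 - (p : ℝ) ^ (-(1 + a))) :=
    Finset.prod_pos hpos
  have h4 : ∏ p ∈ (Icc 1 w).filter Nat.Prime, (1 - ZRough_f (1 + a) p)⁻¹ =
      (∏ p ∈ (Icc 1 w).filter Nat.Prime, (1 - (p : ℝ) ^ (-(1 + a))))⁻¹ := by
    rw [← Finset.prod_inv_distrib]
    rfl
  rw [h4, ← div_eq_mul_inv, div_le_iff₀ h3] at h2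
  exact h2

theorem ZRough_factor (a : ℝ) (p : ℕ) (hp : p.Prime) :
    1 - (p : ℝ) ^ (-(1 + 2 * a)) ≤
      (1 - 1 / (p : ℝ)) * Real.exp (4 * a * (Real.log p / p)) ∨ a < 0 := by
  by_cases ha : a < 0
  · exact Or.inr ha
  left
  rw [not_lt] at ha
  have hp0 : (0 : ℝ) < p := by exact_mod_cast hp.pos
  have hp2 : (2 : ℝ) ≤ p := by exact_mod_cast hp.two_le
  have hlog : 0 ≤ Real.log p := Real.log_nonneg (by linarith)
  have h1 : (p : ℝ) ^ (-(1 + 2 * a)) = 1 / (p : ℝ) * Real.exp (-(2 * a * Real.log p)) := by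
    rw [show -(1 + 2 * a) = -1 + -(2 * a) by ring, Real.rpow_add hp0, Real.rpow_neg_one,
      Real.rpow_def_of_pos hp0, one_div]
    congr 2
    ring
  have h2 := Real.add_one_le_exp (-(2 * a * Real.log p))
  have h3 : 1 / (p : ℝ) * (1 - 2 * a * Real.log p) ≤ (p : ℝ) ^ (-(1 + 2 * a)) := by
    rw [h1]
    exact mul_le_mul_of_nonneg_left (by linarith) (by positivity)
  have h4 : 1 / (p : ℝ) ≤ 1 / 2 := by
    apply one_div_le_one_div_of_le <;> linarith
  have h5 := Real.add_one_le_exp (4 * a * (Real.log p / p))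
  have h6 : 0 ≤ a * (Real.log p / p) := by positivity
  calc 1 - (p : ℝ) ^ (-(1 + 2 * a)) ≤ 1 - 1 / (p : ℝ) * (1 - 2 * a * Real.log p) := by linarith
    _ = (1 - 1 / (p : ℝ)) + 2 * (a * (Real.log p / p)) := by ring
    _ ≤ (1 - 1 / (p : ℝ)) + (1 - 1 / (p : ℝ)) * (4 * (a * (Real.log p / p))) := by
        have : (1 / 2 : ℝ) * (4 * (a * (Real.log p / p))) ≤
            (1 - 1 / (p : ℝ)) * (4 * (a * (Real.log p / p))) :=
          mul_le_mul_of_nonneg_right (by linarith) (by positivity)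
        linarith
    _ = (1 - 1 / (p : ℝ)) * (4 * a * (Real.log p / p) + 1) := by ring
    _ ≤ (1 - 1 / (p : ℝ)) * Real.exp (4 * a * (Real.log p / p)) :=
        mul_le_mul_of_nonneg_left h5 (by linarith)

theorem ZRough_harm (w : ℕ) :
    ∑ p ∈ (Icc 1 w).filter Nat.Prime, Real.log p / p ≤ (1 + Real.log w) ^ 2 := by
  have hlw : 0 ≤ Real.log w := Real.log_natCast_nonneg w
  have h1 : ∑ p ∈ (Icc 1 w).filter Nat.Prime, Real.log p / p ≤
      ∑ p ∈ Icc 1 w, Real.log w * ((p : ℝ)⁻¹) := by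
    refine (Finset.sum_le_sum fun p hp => ?_).trans
      (Finset.sum_le_sum_of_subset_of_nonneg (Finset.filter_subset _ _) fun i _ _ => by positivity)
    rw [mem_filter, mem_Icc] at hp
    rw [div_eq_mul_inv]
    refine mul_le_mul_of_nonneg_right ?_ (by positivity)
    exact Real.log_le_log (by exact_mod_cast hp.1.1) (by exact_mod_cast hp.1.2)
  have h2 : ∑ p ∈ Icc 1 w, ((p : ℝ)⁻¹) ≤ 1 + Real.log w := by
    have h3 := harmonic_le_one_add_log w
    rw [harmonic_eq_sum_Icc] at h3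
    push_cast at h3
    exact h3
  rw [← Finset.mul_sum] at h1
  nlinarith [mul_le_mul_of_nonneg_left h2 hlw]

theorem zeta_rough : ∃ C : ℝ, 0 < C ∧ ∃ q₀ : ℕ, ∀ q X : ℕ, q₀ ≤ q →
    ∑ g ∈ (Icc 1 X).filter (fun g => ro (ww q) g = g), (g : ℝ) ^ (-(1 + 2 * al q)) ≤
      C * Real.log q * Wp q := by
  have hlim : ∀ᶠ x : ℝ in Filter.atTop, 4 * 301 ^ 2 * Real.log x ^ 2 ≤ x := by
    have h := (Real.isLittleO_pow_log_id_atTop (n := 2)).def
      (show (0 : ℝ) < 1 / (4 * 301 ^ 2) by norm_num)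
    filter_upwards [h, Filter.eventually_ge_atTop (1 : ℝ)] with x hx hx1
    rw [Real.norm_of_nonneg (by positivity), id, Real.norm_of_nonneg (by linarith)] at hx
    linarith
  have hq : ∀ᶠ q : ℕ in Filter.atTop, 4 * 301 ^ 2 * Real.log (Real.log q) ^ 2 ≤ Real.log q ∧
      Real.exp 1 ≤ Real.log q := by
    have ht : Filter.Tendsto (fun q : ℕ => Real.log (q : ℝ)) Filter.atTop Filter.atTop :=
      Real.tendsto_log_atTop.comp tendsto_natCast_atTop_atTop
    exact (ht.eventually hlim).and (ht.eventually (Filter.eventually_ge_atTop _))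
  obtain ⟨q₀, hq₀⟩ := Filter.eventually_atTop.1 hq
  refine ⟨Real.exp 1, Real.exp_pos 1, q₀, fun q X hqq => ?_⟩
  obtain ⟨hL1, hL2⟩ := hq₀ q hqq
  set L := Real.log (q : ℝ) with hL
  have he : (2 : ℝ) < Real.exp 1 := by
    have := Real.exp_one_gt_d9
    linarith
  have hL0 : 0 < L := by linarith
  have hlL : 1 ≤ Real.log L := by
    rw [← Real.log_exp 1]
    exact Real.log_le_log (Real.exp_pos 1) hL2
  have hal : al q = 1 / L := rfl
  have hal0 : 0 < al q := by rw [hal]; positivity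
  have h1 := ZRough_main (2 * al q) (by positivity) (ww q) X
  have hw : Real.log (ww q) ≤ 300 * Real.log L := by
    by_cases h0 : ww q = 0
    · rw [h0]
      simp only [Nat.cast_zero, Real.log_zero]
      positivity
    · have h2 : ((ww q : ℕ) : ℝ) ≤ L ^ 300 := Nat.floor_le (by positivity)
      have h3 : (0 : ℝ) < ((ww q : ℕ) : ℝ) := by
        exact_mod_cast Nat.pos_of_ne_zero h0
      calc Real.log (ww q) ≤ Real.log (L ^ 300) := Real.log_le_log h3 h2
        _ = 300 * Real.log L := by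
          rw [Real.log_pow]
          norm_num
  have hsum : 4 * al q * ∑ p ∈ (Icc 1 (ww q)).filter Nat.Prime, Real.log p / p ≤ 1 := by
    have h2 := ZRough_harm (ww q)
    have h3 : (1 + Real.log (ww q)) ^ 2 ≤ 301 ^ 2 * Real.log L ^ 2 := by
      have h4 : 0 ≤ 1 + Real.log (ww q) := by
        have := Real.log_natCast_nonneg (ww q)
        linarith
      calc (1 + Real.log (ww q)) ^ 2 ≤ (301 * Real.log L) ^ 2 :=
            pow_le_pow_left₀ h4 (by linarith) 2
        _ = 301 ^ 2 * Real.log L ^ 2 := by ring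
    have h5 : 4 * al q * ∑ p ∈ (Icc 1 (ww q)).filter Nat.Prime, Real.log p / p ≤
        4 * al q * (301 ^ 2 * Real.log L ^ 2) :=
      mul_le_mul_of_nonneg_left (h2.trans h3) (by positivity)
    have h6 : 4 * al q * (301 ^ 2 * Real.log L ^ 2) = (4 * 301 ^ 2 * Real.log L ^ 2) / L := by
      rw [hal]
      ring
    rw [h6] at h5
    exact h5.trans ((div_le_one hL0).2 hL1)
  have hprod : ∏ p ∈ (Icc 1 (ww q)).filter Nat.Prime, (1 - (p : ℝ) ^ (-(1 + 2 * al q))) ≤
      Wp q * Real.exp 1 := by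
    calc ∏ p ∈ (Icc 1 (ww q)).filter Nat.Prime, (1 - (p : ℝ) ^ (-(1 + 2 * al q))) ≤
          ∏ p ∈ (Icc 1 (ww q)).filter Nat.Prime,
            ((1 - 1 / (p : ℝ)) * Real.exp (4 * al q * (Real.log p / p))) := by
          refine Finset.prod_le_prod ?_ ?_
          · intro p hp
            have h2 := ZRough_f_lt (s := 1 + 2 * al q) (by positivity) (mem_filter.1 hp).2
            change (p : ℝ) ^ (-(1 + 2 * al q)) < 1 at h2
            linarith
          · intro p hp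
            rcases ZRough_factor (al q) p (mem_filter.1 hp).2 with h2 | h2
            · exact h2
            · exact absurd hal0 (not_lt.2 h2.le)
      _ = Wp q * Real.exp (4 * al q * ∑ p ∈ (Icc 1 (ww q)).filter Nat.Prime,
            Real.log p / p) := by
          rw [Finset.prod_mul_distrib, ← Real.exp_sum, ← Finset.mul_sum]
          rfl
      _ ≤ Wp q * Real.exp 1 := by
          refine mul_le_mul_of_nonneg_left (Real.exp_le_exp.2 hsum) ?_
          refine Finset.prod_nonneg fun p hp => ?_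
          have h2 : (1 : ℝ) ≤ p := by exact_mod_cast (mem_Icc.1 (mem_filter.1 hp).1).1
          have h3 : 1 / (p : ℝ) ≤ 1 := by
            rw [div_le_one (by linarith)]
            exact h2
          linarith
  have hW : 0 ≤ Wp q * Real.exp 1 := by
    refine mul_nonneg ?_ (Real.exp_pos 1).le
    refine Finset.prod_nonneg fun p hp => ?_
    have h2 : (1 : ℝ) ≤ p := by exact_mod_cast (mem_Icc.1 (mem_filter.1 hp).1).1
    have h3 : 1 / (p : ℝ) ≤ 1 := by
      rw [div_le_one (by linarith)]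
      exact h2
    linarith
  have hT : 1 + 1 / (2 * al q) ≤ L := by
    rw [hal]
    have h2 : 1 / (2 * (1 / L)) = L / 2 := by
      field_simp
    rw [h2]
    linarith
  have hT0 : 0 ≤ 1 + 1 / (2 * al q) := by positivity
  calc ∑ g ∈ (Icc 1 X).filter (fun g => ro (ww q) g = g), (g : ℝ) ^ (-(1 + 2 * al q)) ≤
        (1 + 1 / (2 * al q)) * ∏ p ∈ (Icc 1 (ww q)).filter Nat.Prime,
          (1 - (p : ℝ) ^ (-(1 + 2 * al q))) := h1
    _ ≤ (1 + 1 / (2 * al q)) * (Wp q * Real.exp 1) := mul_le_mul_of_nonneg_left hprod hT0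
    _ ≤ L * (Wp q * Real.exp 1) := mul_le_mul_of_nonneg_right hT hW
    _ = Real.exp 1 * L * Wp q := by ring

end Pool.Agent.NV
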