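import Pool.Agent.Lib.MP_afd523_nt.Defs
import Pool.Agent.Lib.MP_afd523_nt.Parts
import Pool.Agent.Lib.MP_afd523_nt.ZRough

/-!
Module QC of NV (MP_afd523_nt): the sum over `δ`.
-/

namespace Pool.Agent.NV

open Finset Complex MeasureTheory

/-- the function `n ↦ n^(-1/2)` -/
noncomputable def DSum_f : ArithmeticFunction ℝ :=
  ⟨fun n => (n : ℝ) ^ (-(1 / 2) : ℝ), by
    rw [Nat.cast_zero, Real.zero_rpow (by norm_num)]⟩

theorem DSum_f_apply (n : ℕ) : DSum_f n = (n : ℝ) ^ (-(1 / 2) : ℝ) := rfl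

theorem DSum_f_mul : DSum_f.IsMultiplicative := by
  refine ⟨?_, ?_⟩
  · rw [DSum_f_apply, Nat.cast_one, Real.one_rpow]
  · intro m n _
    rw [DSum_f_apply, DSum_f_apply, DSum_f_apply, Nat.cast_mul,
      Real.mul_rpow (Nat.cast_nonneg _) (Nat.cast_nonneg _)]

theorem DSum_prime {p : ℕ} (hp : 9 ≤ p) :
    ((1 - 1 / (p : ℝ))⁻¹) ^ 2 ≤ 1 + DSum_f p := by
  have hp' : (9 : ℝ) ≤ p := by exact_mod_cast hp
  have hp0 : (0 : ℝ) < p := by linarith
  have h1 : ((1 - 1 / (p : ℝ))⁻¹) ^ 2 ≤ 1 + 3 / (p : ℝ) := by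
    have h2 : (1 - 1 / (p : ℝ))⁻¹ = p / (p - 1) := by
      have : (p : ℝ) - 1 ≠ 0 := by linarith
      rw [one_sub_div hp0.ne', inv_div]
    rw [h2, div_pow, div_le_iff₀ (by nlinarith)]
    have h3 : (1 + 3 / (p : ℝ)) * ((p : ℝ) - 1) ^ 2 =
        (p : ℝ) ^ 2 + (p - 5 + 3 / p) := by
      field_simp
      ring
    rw [h3]
    have : (0 : ℝ) ≤ 3 / (p : ℝ) := by positivity
    linarith
  refine h1.trans ?_
  have h4 : (3 : ℝ) / p ≤ DSum_f p := by
    rw [DSum_f_apply, Real.rpow_neg hp0.le, ← Real.sqrt_eq_rpow, div_le_iff₀ hp0]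
    have h5 : (3 : ℝ) ≤ Real.sqrt p := by
      rw [show (3 : ℝ) = Real.sqrt 9 by
        rw [show (9 : ℝ) = 3 ^ 2 by norm_num, Real.sqrt_sq (by norm_num)]]
      exact Real.sqrt_le_sqrt hp'
    have h6 : (Real.sqrt p)⁻¹ * p = Real.sqrt p := by
      have h7 : Real.sqrt p ≠ 0 := by linarith
      field_simp
      exact (Real.sq_sqrt hp0.le).symm
    rw [h6]
    exact h5
  linarith

theorem DSum_prod {w d : ℕ} (hw : 8 ≤ w) (hd : ro w d = d) (hs : Squarefree d) :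
    (∏ p ∈ d.primeFactors, (1 - 1 / (p : ℝ))⁻¹) ^ 2 ≤ ∑ e ∈ d.divisors, DSum_f e := by
  rw [← DSum_f_mul.prodPrimeFactors_one_add_of_squarefree hs, ← Finset.prod_pow]
  refine Finset.prod_le_prod (fun p _ => by positivity) fun p hp => ?_
  have h1 := (ro_eq_self_iff w hs.ne_zero).1 hd p (Nat.prime_of_mem_primeFactors hp)
    (Nat.dvd_of_mem_primeFactors hp)
  exact DSum_prime (by omega)

/-- swapping the two sums -/
theorem DSum_swap (w Y : ℕ) (F : ℕ → ℕ → ℝ) (hF : ∀ a b, 0 ≤ F a b) :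
    ∑ d ∈ (Icc 1 Y).filter (fun d => ro w d = d), ∑ e ∈ d.divisors, F e (d / e) ≤
      ∑ e ∈ Icc 1 Y, ∑ d ∈ (Icc 1 Y).filter (fun d => ro w d = d), F e d := by
  rw [Finset.sum_sigma', ← Finset.sum_product']
  have hinj : Set.InjOn (fun x : (Σ _ : ℕ, ℕ) => (x.2, x.1 / x.2))
      ((((Icc 1 Y).filter (fun d => ro w d = d)).sigma fun d => d.divisors :
        Finset (Σ _ : ℕ, ℕ)) : Set (Σ _ : ℕ, ℕ)) := by
    rintro ⟨a, b⟩ hab ⟨c, d⟩ hcd h
    rw [Finset.mem_coe, Finset.mem_sigma, Nat.mem_divisors] at hab hcd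
    simp only [Prod.mk.injEq] at h
    obtain ⟨h1, h2⟩ := h
    have h3 : a = c := by
      have h4 := Nat.div_mul_cancel hab.2.1
      have h5 := Nat.div_mul_cancel hcd.2.1
      simp only at h4 h5
      have h6 : a / b * b = c / d * d := by rw [h2, h1]
      rw [← h4, h6, h5]
    subst h3
    subst h1
    rfl
  rw [← Finset.sum_image (f := fun x : ℕ × ℕ => F x.1 x.2) hinj]
  refine Finset.sum_le_sum_of_subset_of_nonneg ?_ fun x _ _ => hF _ _
  intro x hx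
  rw [Finset.mem_image] at hx
  obtain ⟨⟨a, b⟩, hab, rfl⟩ := hx
  rw [Finset.mem_sigma, Nat.mem_divisors, Finset.mem_filter, Finset.mem_Icc] at hab
  obtain ⟨⟨⟨ha1, haY⟩, har⟩, hba, ha0⟩ := hab
  simp only at ha1 haY har hba ha0
  have hb1 : 1 ≤ b := Nat.pos_of_dvd_of_pos hba ha1
  have hbY : b ≤ Y := (Nat.le_of_dvd ha1 hba).trans haY
  have hc1 : 1 ≤ a / b := Nat.div_pos (Nat.le_of_dvd ha1 hba) hb1
  rw [Finset.mem_product, Finset.mem_filter, Finset.mem_Icc, Finset.mem_Icc]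
  refine ⟨⟨hb1, hbY⟩, ⟨hc1, (Nat.div_le_self _ _).trans haY⟩, ?_⟩
  show ro w (a / b) = a / b
  rw [ro_eq_self_iff w (by omega)]
  intro p hp hpd
  exact (ro_eq_self_iff w (by omega)).1 har p hp (hpd.trans (Nat.div_dvd_of_dvd hba))

theorem delta_sum : ∃ C : ℝ, 0 < C ∧ ∃ q₀ : ℕ, ∀ q : ℕ, q₀ ≤ q →
    ∑ δ ∈ (Icc 1 ⌊yy q⌋₊).filter (fun δ => ro (ww q) δ = δ ∧ Squarefree δ),
      (∏ p ∈ δ.primeFactors, (1 - 1 / (p : ℝ))⁻¹) ^ 2 / δ ≤ C * Real.log q * Wp q := by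
  obtain ⟨C, hC, q₀, h⟩ := zeta_rough
  have hsum : Summable (fun n : ℕ => (n : ℝ) ^ (-(3 / 2) : ℝ)) :=
    Real.summable_nat_rpow.2 (by norm_num)
  have hK0 : 0 ≤ ∑' n : ℕ, (n : ℝ) ^ (-(3 / 2) : ℝ) := tsum_nonneg fun n => by positivity
  set K : ℝ := ∑' n : ℕ, (n : ℝ) ^ (-(3 / 2) : ℝ) with hK
  refine ⟨Real.exp (1 / 50) * (K + 1) * C, by positivity, max q₀ 8, fun q hq => ?_⟩
  have hq8 : (8 : ℝ) ≤ q := by
    have : 8 ≤ q := (le_max_right _ _).trans hq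
    exact_mod_cast this
  have hq0 : (0 : ℝ) < q := by linarith
  have hL : 2 ≤ Real.log q := by
    have h1 : Real.log 8 ≤ Real.log q := Real.log_le_log (by norm_num) hq8
    have h2 : Real.log 8 = 3 * Real.log 2 := by
      rw [show (8 : ℝ) = 2 ^ 3 by norm_num, Real.log_pow]
      norm_num
    have h3 := Real.log_two_gt_d9
    linarith
  have hw : 8 ≤ ww q := by
    rw [ww]
    refine Nat.le_floor ?_
    have h1 : (2 : ℝ) ^ 3 ≤ (Real.log q) ^ 300 :=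
      (pow_le_pow_right₀ (by norm_num) (by norm_num)).trans
        (pow_le_pow_left₀ (by norm_num) hL 300)
    norm_num at h1 ⊢
    exact h1
  have hal : 0 < al q := by
    rw [al]
    positivity
  set Y := ⌊yy q⌋₊ with hY
  set s : ℝ := 1 + 2 * al q with hs
  -- `1 / d ≤ e^(1/50) d^(-s)`
  have hinv : ∀ d ∈ Icc 1 Y, 1 / (d : ℝ) ≤ Real.exp (1 / 50) * (d : ℝ) ^ (-s) := by
    intro d hd
    rw [Finset.mem_Icc] at hd
    have hd0 : (0 : ℝ) < d := by exact_mod_cast hd.1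
    have hdy : (d : ℝ) ≤ yy q := (Nat.le_floor_iff' (by omega)).1 hd.2
    have h1 : (d : ℝ) ^ (2 * al q) ≤ Real.exp (1 / 50) := by
      refine (Real.rpow_le_rpow hd0.le hdy (by positivity)).trans (le_of_eq ?_)
      rw [yy, ← Real.rpow_mul hq0.le, Real.rpow_def_of_pos hq0, al]
      congr 1
      have : Real.log q ≠ 0 := by linarith
      field_simp
      norm_num
    have h2 : 1 / (d : ℝ) = (d : ℝ) ^ (2 * al q) * (d : ℝ) ^ (-s) := by
      rw [← Real.rpow_add hd0, hs, show 2 * al q + -(1 + 2 * al q) = -1 by ring,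
        Real.rpow_neg_one, one_div]
    rw [h2]
    exact mul_le_mul_of_nonneg_right h1 (by positivity)
  -- the bound of the sum
  have hA : ∑ δ ∈ (Icc 1 Y).filter (fun δ => ro (ww q) δ = δ ∧ Squarefree δ),
      (∏ p ∈ δ.primeFactors, (1 - 1 / (p : ℝ))⁻¹) ^ 2 / δ ≤
      Real.exp (1 / 50) * ∑ d ∈ (Icc 1 Y).filter (fun d => ro (ww q) d = d),
        ∑ e ∈ d.divisors, (fun a b : ℕ => DSum_f a * (a : ℝ) ^ (-s) * (b : ℝ) ^ (-s)) e (d / e) := by
    rw [Finset.mul_sum]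
    refine (Finset.sum_le_sum fun d hd => ?_).trans
      (Finset.sum_le_sum_of_subset_of_nonneg
        (s := (Icc 1 Y).filter (fun δ => ro (ww q) δ = δ ∧ Squarefree δ)) ?_ fun d _ _ => ?_)
    · rw [Finset.mem_filter] at hd
      obtain ⟨hd1, hd2, hd3⟩ := hd
      have h1 := DSum_prod hw hd2 hd3
      have h2 := hinv d hd1
      have h3 : ∑ e ∈ d.divisors,
          (fun a b : ℕ => DSum_f a * (a : ℝ) ^ (-s) * (b : ℝ) ^ (-s)) e (d / e) =
          (∑ e ∈ d.divisors, DSum_f e) * (d : ℝ) ^ (-s) := by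
        rw [Finset.sum_mul]
        refine Finset.sum_congr rfl fun e he => ?_
        have h4 := Nat.mul_div_cancel' (Nat.dvd_of_mem_divisors he)
        show DSum_f e * (e : ℝ) ^ (-s) * ((d / e : ℕ) : ℝ) ^ (-s) = _
        rw [mul_assoc, ← Real.mul_rpow (Nat.cast_nonneg _) (Nat.cast_nonneg _), ← Nat.cast_mul, h4]
      rw [h3, div_eq_mul_one_div]
      calc _ ≤ (∑ e ∈ d.divisors, DSum_f e) * (Real.exp (1 / 50) * (d : ℝ) ^ (-s)) :=
            mul_le_mul h1 h2 (by positivity) ((by positivity : (0 : ℝ) ≤ _).trans h1)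
        _ = _ := by ring
    · intro d hd
      rw [Finset.mem_filter] at hd ⊢
      exact ⟨hd.1, hd.2.1⟩
    · refine mul_nonneg (by positivity) (Finset.sum_nonneg fun e _ => ?_)
      show 0 ≤ DSum_f e * (e : ℝ) ^ (-s) * ((d / e : ℕ) : ℝ) ^ (-s)
      rw [DSum_f_apply]
      positivity
  refine hA.trans ?_
  have hB := DSum_swap (ww q) Y (fun a b : ℕ => DSum_f a * (a : ℝ) ^ (-s) * (b : ℝ) ^ (-s))
    (fun a b => by
      show 0 ≤ DSum_f a * (a : ℝ) ^ (-s) * (b : ℝ) ^ (-s)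
      rw [DSum_f_apply]
      positivity)
  have hD : ∑ e ∈ Icc 1 Y, ∑ d ∈ (Icc 1 Y).filter (fun d => ro (ww q) d = d),
      (fun a b : ℕ => DSum_f a * (a : ℝ) ^ (-s) * (b : ℝ) ^ (-s)) e d =
      (∑ e ∈ Icc 1 Y, DSum_f e * (e : ℝ) ^ (-s)) *
        ∑ d ∈ (Icc 1 Y).filter (fun d => ro (ww q) d = d), (d : ℝ) ^ (-s) := by
    rw [Finset.sum_mul_sum]
  have hE : ∑ e ∈ Icc 1 Y, DSum_f e * (e : ℝ) ^ (-s) ≤ K + 1 := by
    have h1 : ∑ e ∈ Icc 1 Y, DSum_f e * (e : ℝ) ^ (-s) ≤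
        ∑ e ∈ Icc 1 Y, (e : ℝ) ^ (-(3 / 2) : ℝ) := by
      refine Finset.sum_le_sum fun e he => ?_
      rw [Finset.mem_Icc] at he
      have he1 : (1 : ℝ) ≤ e := by exact_mod_cast he.1
      rw [DSum_f_apply, ← Real.rpow_add (by linarith)]
      exact Real.rpow_le_rpow_of_exponent_le he1 (by rw [hs]; linarith)
    have h2 := hsum.sum_le_tsum (Icc 1 Y) fun n _ => by positivity
    linarith
  have hF := h q Y ((le_max_left _ _).trans hq)
  have hG : 0 ≤ ∑ d ∈ (Icc 1 Y).filter (fun d => ro (ww q) d = d), (d : ℝ) ^ (-s) :=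
    Finset.sum_nonneg fun d _ => by positivity
  calc _ ≤ Real.exp (1 / 50) * ((∑ e ∈ Icc 1 Y, DSum_f e * (e : ℝ) ^ (-s)) *
        ∑ d ∈ (Icc 1 Y).filter (fun d => ro (ww q) d = d), (d : ℝ) ^ (-s)) :=
        mul_le_mul_of_nonneg_left (hB.trans (le_of_eq hD)) (by positivity)
    _ ≤ Real.exp (1 / 50) * ((K + 1) * (C * Real.log q * Wp q)) :=
        mul_le_mul_of_nonneg_left (mul_le_mul hE hF hG (by positivity)) (by positivity)
    _ = _ := by ring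

end Pool.Agent.NV
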