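import Pool.Agent.Lib.MP_afd523_nt.Defs

/-!
The sum of `mu(m)/m * log(x/m)` over `m ≤ x` coprime to `k` is at most
`3 * prod_{p | k} (1 - 1/p)^(-1)`.
-/

namespace Pool.Agent.NV

open Finset Complex MeasureTheory

namespace MuLog

/-- sums of reciprocals against the logarithm, error `1/u` -/
theorem E_bound (u : ℝ) (hu : 1 ≤ u) :
    |(∑ n ∈ Ioc 0 ⌊u⌋₊, 1 / (n : ℝ)) - Real.log u - Real.eulerMascheroniConstant| ≤ 1 / u := by
  set n := ⌊u⌋₊ with hn
  have hu0 : 0 < u := by linarith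
  have hn1 : 1 ≤ n := by
    rw [hn]; exact Nat.le_floor (by simpa using hu)
  have hnu : (n : ℝ) ≤ u := Nat.floor_le hu0.le
  have hun : u < n + 1 := Nat.lt_floor_add_one u
  have hn0 : (0 : ℝ) < n := by exact_mod_cast hn1
  have hH : (∑ n ∈ Ioc 0 n, 1 / (n : ℝ)) = (harmonic n : ℝ) := by
    rw [harmonic_eq_sum_Icc]
    push_cast
    refine Finset.sum_congr ?_ (fun i _ => by rw [one_div])
    ext i; simp; omega
  rw [hH]
  have h1 := Real.eulerMascheroniSeq_lt_eulerMascheroniConstant n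
  have h2 := Real.eulerMascheroniConstant_lt_eulerMascheroniSeq' (n + 1)
  unfold Real.eulerMascheroniSeq at h1
  unfold Real.eulerMascheroniSeq' at h2
  rw [if_neg (by omega), harmonic_succ] at h2
  push_cast at h2
  have h3 : Real.log (n + 1) - Real.log u ≤ 1 / u := by
    rw [← Real.log_div (by positivity) (by positivity)]
    have := Real.log_le_sub_one_of_pos (show 0 < ((n : ℝ) + 1) / u by positivity)
    have h4 : ((n : ℝ) + 1) / u - 1 ≤ 1 / u := by
      rw [div_sub_one hu0.ne']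
      apply div_le_div_of_nonneg_right _ hu0.le
      linarith
    linarith
  have h5 : Real.log u ≤ Real.log (n + 1) := Real.log_le_log hu0 hun.le
  have h6 : ((n : ℝ) + 1)⁻¹ ≤ 1 / u := by
    rw [← one_div]
    exact one_div_le_one_div_of_le hu0 hun.le
  rw [abs_le]
  constructor
  · linarith
  · linarith

/-- `mu(m)/m` -/
noncomputable def af : ArithmeticFunction ℝ :=
  ⟨fun m => (ArithmeticFunction.moebius m : ℝ) / m, by simp⟩

/-- `1/m` -/
noncomputable def ag : ArithmeticFunction ℝ := ⟨fun m => 1 / (m : ℝ), by simp⟩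

/-- the divisor sum of the Moebius function -/
theorem conv_one (N : ℕ) (_hN : N ≠ 0) : (af * ag) N = if N = 1 then 1 else 0 := by
  rw [ArithmeticFunction.mul_apply]
  have h1 : ∀ x ∈ N.divisorsAntidiagonal, af x.1 * ag x.2 =
      1 / (N : ℝ) * (((ArithmeticFunction.moebius : ArithmeticFunction ℤ) :
        ArithmeticFunction ℝ) x.1 *
        ((ArithmeticFunction.zeta : ArithmeticFunction ℕ) : ArithmeticFunction ℝ) x.2) := by
    intro x hx
    rw [Nat.mem_divisorsAntidiagonal] at hx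
    have hx1 : x.1 ≠ 0 := by rintro h; rw [h, zero_mul] at hx; exact hx.2 hx.1.symm
    have hx2 : x.2 ≠ 0 := by rintro h; rw [h, mul_zero] at hx; exact hx.2 hx.1.symm
    have hNx : (N : ℝ) = x.1 * x.2 := by rw [← hx.1]; push_cast; ring
    have hx1' : (x.1 : ℝ) ≠ 0 := by exact_mod_cast hx1
    have hx2' : (x.2 : ℝ) ≠ 0 := by exact_mod_cast hx2
    show (ArithmeticFunction.moebius x.1 : ℝ) / x.1 * (1 / (x.2 : ℝ)) = _
    rw [ArithmeticFunction.intCoe_apply, ArithmeticFunction.natCoe_apply,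
      ArithmeticFunction.zeta_apply, if_neg hx2, hNx]
    push_cast
    field_simp
  rw [Finset.sum_congr rfl h1, ← Finset.mul_sum, ← ArithmeticFunction.mul_apply,
    ArithmeticFunction.coe_moebius_mul_coe_zeta, ArithmeticFunction.one_apply]
  by_cases h : N = 1
  · simp [h]
  · simp [h]

/-- convolution identity -/
theorem conv_sum (N : ℕ) (hN : 1 ≤ N) :
    ∑ m ∈ Ioc 0 N, (ArithmeticFunction.moebius m : ℝ) / m *
      ∑ n ∈ Ioc 0 (N / m), 1 / (n : ℝ) = 1 := by
  have h := ArithmeticFunction.sum_Ioc_mul_eq_sum_sum af ag N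
  have h2 : ∑ n ∈ Ioc 0 N, (af * ag) n = 1 := by
    rw [Finset.sum_congr rfl (fun n hn => conv_one n (by
      have := (Finset.mem_Ioc.mp hn).1; omega))]
    rw [Finset.sum_ite_eq' (Ioc 0 N) 1 (fun _ => (1 : ℝ))]
    simp
    omega
  rw [h2] at h
  exact h.symm

/-- convolution identity with floors -/
theorem conv_floor (N : ℕ) (hN : 1 ≤ N) :
    ∑ m ∈ Ioc 0 N, (ArithmeticFunction.moebius m : ℝ) * ((N / m : ℕ) : ℝ) = 1 := by
  have h := ArithmeticFunction.sum_Ioc_mul_zeta_eq_sum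
    ((ArithmeticFunction.moebius : ArithmeticFunction ℤ) : ArithmeticFunction ℝ) N
  rw [ArithmeticFunction.coe_moebius_mul_coe_zeta] at h
  have h2 : ∑ n ∈ Ioc 0 N, (1 : ArithmeticFunction ℝ) n = 1 := by
    simp_rw [ArithmeticFunction.one_apply]
    rw [Finset.sum_ite_eq' (Ioc 0 N) 1 (fun _ => (1 : ℝ))]
    simp
    omega
  rw [h2] at h
  rw [h]
  exact Finset.sum_congr rfl (fun m _ => by rw [ArithmeticFunction.intCoe_apply])

/-- the sums of `mu(m)/m` are at most `1` -/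
theorem mu_div (N : ℕ) (hN : 1 ≤ N) :
    |∑ m ∈ Ioc 0 N, (ArithmeticFunction.moebius m : ℝ) / m| ≤ 1 := by
  have hN0 : (0 : ℝ) < N := by exact_mod_cast hN
  have h1 := conv_floor N hN
  have h2 : (N : ℝ) * ∑ m ∈ Ioc 0 N, (ArithmeticFunction.moebius m : ℝ) / m =
      1 + ∑ m ∈ Ioc 0 N, (ArithmeticFunction.moebius m : ℝ) *
        ((N : ℝ) / m - ((N / m : ℕ) : ℝ)) := by
    rw [← h1, ← Finset.sum_add_distrib, Finset.mul_sum]
    refine Finset.sum_congr rfl (fun m _ => by ring)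
  have h3 : |∑ m ∈ Ioc 0 N, (ArithmeticFunction.moebius m : ℝ) *
        ((N : ℝ) / m - ((N / m : ℕ) : ℝ))| ≤ N - 1 := by
    have h4 : Ioc 0 N = insert 1 (Ioc 1 N) := by
      ext i; simp; omega
    rw [h4, Finset.sum_insert (by simp)]
    have h5 : (ArithmeticFunction.moebius 1 : ℝ) * ((N : ℝ) / (1 : ℕ) - ((N / 1 : ℕ) : ℝ)) = 0 := by
      simp
    rw [h5, zero_add]
    calc |∑ m ∈ Ioc 1 N, (ArithmeticFunction.moebius m : ℝ) *
        ((N : ℝ) / m - ((N / m : ℕ) : ℝ))| ≤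
        ∑ m ∈ Ioc 1 N, |(ArithmeticFunction.moebius m : ℝ) *
        ((N : ℝ) / m - ((N / m : ℕ) : ℝ))| := Finset.abs_sum_le_sum_abs _ _
      _ ≤ ∑ m ∈ Ioc 1 N, (1 : ℝ) := by
        refine Finset.sum_le_sum (fun m hm => ?_)
        have hm1 := (Finset.mem_Ioc.mp hm).1
        have hm0 : (0 : ℝ) < m := by
          have : 0 < m := by omega
          exact_mod_cast this
        rw [abs_mul]
        have ha : |(ArithmeticFunction.moebius m : ℝ)| ≤ 1 := by
          have := ArithmeticFunction.abs_moebius_le_one (n := m)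
          exact_mod_cast this
        have hb : |(N : ℝ) / m - ((N / m : ℕ) : ℝ)| ≤ 1 := by
          have hfl : ((N / m : ℕ) : ℝ) = (⌊(N : ℝ) / m⌋₊ : ℝ) := by
            rw [Nat.floor_div_eq_div]
          rw [hfl, abs_le]
          have h6 := Nat.floor_le (show 0 ≤ (N : ℝ) / m by positivity)
          have h7 := Nat.lt_floor_add_one ((N : ℝ) / m)
          constructor <;> linarith
        calc _ ≤ 1 * 1 := mul_le_mul ha hb (abs_nonneg _) zero_le_one
          _ = 1 := one_mul 1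
      _ = N - 1 := by
        rw [Finset.sum_const, Nat.card_Ioc, nsmul_eq_mul, mul_one, Nat.cast_sub hN, Nat.cast_one]
  have h8 : |(N : ℝ) * ∑ m ∈ Ioc 0 N, (ArithmeticFunction.moebius m : ℝ) / m| ≤ N := by
    rw [h2]
    calc _ ≤ |(1 : ℝ)| + _ := abs_add_le _ _
      _ ≤ 1 + (N - 1) := by rw [abs_one]; linarith
      _ = N := by ring
  rw [abs_mul, abs_of_pos hN0] at h8
  by_contra hc
  push Not at hc
  nlinarith

/-- the sum over all `m` -/
theorem h_bound (x : ℝ) (hx : 1 ≤ x) :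
    |∑ m ∈ Ioc 0 ⌊x⌋₊, (ArithmeticFunction.moebius m : ℝ) / m * Real.log (x / m)| ≤ 3 := by
  have hx0 : 0 < x := by linarith
  set N := ⌊x⌋₊ with hN
  have hN1 : 1 ≤ N := by
    rw [hN]; exact Nat.le_floor (by simpa using hx)
  have hNx : (N : ℝ) ≤ x := Nat.floor_le hx0.le
  have hNpos : (0 : ℝ) < N := by exact_mod_cast hN1
  set g := Real.eulerMascheroniConstant with hg
  have hg0 : 0 ≤ g := by have := Real.one_half_lt_eulerMascheroniConstant; linarith
  have hg1 : g ≤ 1 := by have := Real.eulerMascheroniConstant_lt_two_thirds; linarith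
  have h1 := conv_sum N hN1
  have h2 := mu_div N hN1
  -- decomposition
  have h3' : ∑ m ∈ Ioc 0 N, (ArithmeticFunction.moebius m : ℝ) / m * Real.log (x / m) =
      (∑ m ∈ Ioc 0 N, (ArithmeticFunction.moebius m : ℝ) / m *
      ∑ n ∈ Ioc 0 (N / m), 1 / (n : ℝ)) -
      g * (∑ m ∈ Ioc 0 N, (ArithmeticFunction.moebius m : ℝ) / m) -
      ∑ m ∈ Ioc 0 N, (ArithmeticFunction.moebius m : ℝ) / m *
        ((∑ n ∈ Ioc 0 ⌊x / m⌋₊, 1 / (n : ℝ)) - Real.log (x / m) - g) := by
    rw [Finset.mul_sum, ← Finset.sum_sub_distrib, ← Finset.sum_sub_distrib]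
    refine Finset.sum_congr rfl (fun m _ => ?_)
    have hfl : ⌊x / m⌋₊ = N / m := by rw [Nat.floor_div_natCast]
    rw [hfl]
    ring
  have h3 : ∑ m ∈ Ioc 0 N, (ArithmeticFunction.moebius m : ℝ) / m * Real.log (x / m) =
      1 - g * (∑ m ∈ Ioc 0 N, (ArithmeticFunction.moebius m : ℝ) / m) -
      ∑ m ∈ Ioc 0 N, (ArithmeticFunction.moebius m : ℝ) / m *
        ((∑ n ∈ Ioc 0 ⌊x / m⌋₊, 1 / (n : ℝ)) - Real.log (x / m) - g) := by
    rw [h3', h1]
  have h4 : |∑ m ∈ Ioc 0 N, (ArithmeticFunction.moebius m : ℝ) / m *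
        ((∑ n ∈ Ioc 0 ⌊x / m⌋₊, 1 / (n : ℝ)) - Real.log (x / m) - g)| ≤ 1 := by
    calc _ ≤ ∑ m ∈ Ioc 0 N, |(ArithmeticFunction.moebius m : ℝ) / m *
        ((∑ n ∈ Ioc 0 ⌊x / m⌋₊, 1 / (n : ℝ)) - Real.log (x / m) - g)| :=
          Finset.abs_sum_le_sum_abs _ _
      _ ≤ ∑ m ∈ Ioc 0 N, 1 / x := by
        refine Finset.sum_le_sum (fun m hm => ?_)
        obtain ⟨hm0, hmN⟩ := Finset.mem_Ioc.mp hm
        have hm' : (0 : ℝ) < m := by exact_mod_cast hm0
        have hmx : (m : ℝ) ≤ x := le_trans (by exact_mod_cast hmN) hNx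
        have h5 := E_bound (x / m) (by rw [le_div_iff₀ hm']; linarith)
        have ha : |(ArithmeticFunction.moebius m : ℝ)| ≤ 1 := by
          have := ArithmeticFunction.abs_moebius_le_one (n := m)
          exact_mod_cast this
        rw [abs_mul, abs_div, abs_of_pos hm']
        calc |(ArithmeticFunction.moebius m : ℝ)| / m * _ ≤ 1 / m * (1 / (x / m)) := by
              apply mul_le_mul _ h5 (abs_nonneg _) (by positivity)
              exact div_le_div_of_nonneg_right ha hm'.le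
          _ = 1 / x := by field_simp
      _ = N / x := by
        rw [Finset.sum_const, Nat.card_Ioc, nsmul_eq_mul, Nat.sub_zero]
        ring
      _ ≤ 1 := by rw [div_le_one hx0]; exact hNx
  rw [h3]
  set A := ∑ m ∈ Ioc 0 N, (ArithmeticFunction.moebius m : ℝ) / m with hA
  set B := ∑ m ∈ Ioc 0 N, (ArithmeticFunction.moebius m : ℝ) / m *
        ((∑ n ∈ Ioc 0 ⌊x / m⌋₊, 1 / (n : ℝ)) - Real.log (x / m) - g) with hB
  have hgA : |g * A| ≤ 1 := by
    rw [abs_mul, abs_of_nonneg hg0]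
    calc g * |A| ≤ 1 * 1 := mul_le_mul hg1 h2 (abs_nonneg _) zero_le_one
      _ = 1 := one_mul 1
  rw [abs_le] at hgA h4 ⊢
  constructor <;> linarith [hgA.1, hgA.2, h4.1, h4.2]

/-- the sum over the `m ≤ x` divisible by no `p` of a finite set -/
noncomputable def hs (S : Finset ℕ) (x : ℝ) : ℝ :=
  ∑ m ∈ (Ioc 0 ⌊x⌋₊).filter (fun m => ∀ p ∈ S, ¬ p ∣ m),
    (ArithmeticFunction.moebius m : ℝ) / m * Real.log (x / m)

/-- recursion in the set of primes -/
theorem hs_insert (S : Finset ℕ) (hS : ∀ p ∈ S, p.Prime) (p : ℕ) (hp : p.Prime) (hpS : p ∉ S)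
    (x : ℝ) :
    hs (insert p S) x = hs S x + 1 / (p : ℝ) * hs (insert p S) (x / p) := by
  have hp0 : (p : ℝ) ≠ 0 := by exact_mod_cast hp.ne_zero
  have h1 : hs S x = hs (insert p S) x +
      ∑ m ∈ (Ioc 0 ⌊x⌋₊).filter (fun m => (∀ r ∈ S, ¬ r ∣ m) ∧ p ∣ m),
        (ArithmeticFunction.moebius m : ℝ) / m * Real.log (x / m) := by
    unfold hs
    rw [← Finset.sum_filter_add_sum_filter_not ((Ioc 0 ⌊x⌋₊).filter (fun m => ∀ p ∈ S, ¬ p ∣ m))
      (fun m => ¬ p ∣ m)]
    congr 1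
    · rw [Finset.filter_filter]
      refine Finset.sum_congr ?_ (fun _ _ => rfl)
      ext m
      simp only [Finset.mem_filter, Finset.mem_insert, forall_eq_or_imp]
      tauto
    · rw [Finset.filter_filter]
      refine Finset.sum_congr ?_ (fun _ _ => rfl)
      ext m
      simp only [Finset.mem_filter, not_not]
  have h2 : ∑ m ∈ (Ioc 0 ⌊x⌋₊).filter (fun m => (∀ r ∈ S, ¬ r ∣ m) ∧ p ∣ m),
        (ArithmeticFunction.moebius m : ℝ) / m * Real.log (x / m) =
      ∑ n ∈ (Ioc 0 ⌊x / p⌋₊).filter (fun m => ∀ r ∈ S, ¬ r ∣ m),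
        (ArithmeticFunction.moebius (p * n) : ℝ) / (p * n : ℕ) * Real.log (x / (p * n : ℕ)) := by
    symm
    refine Finset.sum_bij' (fun n _ => p * n) (fun m _ => m / p) ?_ ?_ ?_ ?_ ?_
    · intro n hn
      rw [Finset.mem_filter, Finset.mem_Ioc] at hn ⊢
      obtain ⟨⟨hn0, hnx⟩, hnS⟩ := hn
      rw [Nat.floor_div_natCast] at hnx
      refine ⟨⟨Nat.mul_pos hp.pos hn0, ?_⟩, ?_, Dvd.intro n rfl⟩
      · calc p * n ≤ p * (⌊x⌋₊ / p) := Nat.mul_le_mul_left _ hnx
          _ ≤ ⌊x⌋₊ := Nat.mul_div_le _ _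
      · intro r hr hrd
        rcases (hS r hr).dvd_mul.mp hrd with h | h
        · rw [(Nat.prime_dvd_prime_iff_eq (hS r hr) hp)] at h
          exact hpS (h ▸ hr)
        · exact hnS r hr h
    · intro m hm
      rw [Finset.mem_filter, Finset.mem_Ioc] at hm ⊢
      obtain ⟨⟨hm0, hmx⟩, hmS, hpm⟩ := hm
      rw [Nat.floor_div_natCast]
      refine ⟨⟨Nat.div_pos (Nat.le_of_dvd hm0 hpm) hp.pos, Nat.div_le_div_right hmx⟩, ?_⟩
      intro r hr hrd
      exact hmS r hr (dvd_trans hrd (Nat.div_dvd_of_dvd hpm))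
    · intro n hn
      exact Nat.mul_div_cancel_left n hp.pos
    · intro m hm
      rw [Finset.mem_filter] at hm
      exact Nat.mul_div_cancel' hm.2.2
    · intro n hn
      rfl
  have h3 : ∑ n ∈ (Ioc 0 ⌊x / p⌋₊).filter (fun m => ∀ r ∈ S, ¬ r ∣ m),
        (ArithmeticFunction.moebius (p * n) : ℝ) / (p * n : ℕ) * Real.log (x / (p * n : ℕ)) =
      - (1 / (p : ℝ) * hs (insert p S) (x / p)) := by
    unfold hs
    rw [← Finset.sum_filter_add_sum_filter_not
      ((Ioc 0 ⌊x / p⌋₊).filter (fun m => ∀ r ∈ S, ¬ r ∣ m)) (fun m => ¬ p ∣ m)]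
    have h4 : ∑ n ∈ ((Ioc 0 ⌊x / p⌋₊).filter (fun m => ∀ r ∈ S, ¬ r ∣ m)).filter
        (fun m => ¬ ¬ p ∣ m),
        (ArithmeticFunction.moebius (p * n) : ℝ) / (p * n : ℕ) * Real.log (x / (p * n : ℕ)) = 0 := by
      refine Finset.sum_eq_zero (fun n hn => ?_)
      rw [Finset.mem_filter, not_not] at hn
      have h5 : ArithmeticFunction.moebius (p * n) = 0 := by
        apply ArithmeticFunction.moebius_eq_zero_of_not_squarefree
        intro hsq
        obtain ⟨c, hc⟩ := hn.2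
        have := hsq p ⟨c, by rw [hc]; ring⟩
        exact hp.one_lt.ne' (Nat.isUnit_iff.mp this)
      rw [h5]
      simp
    rw [h4, add_zero, Finset.mul_sum, ← Finset.sum_neg_distrib, Finset.filter_filter]
    refine Finset.sum_congr ?_ (fun n hn => ?_)
    · ext m
      simp only [Finset.mem_filter, Finset.mem_insert, forall_eq_or_imp]
      tauto
    · rw [Finset.mem_filter, Finset.mem_Ioc] at hn
      have hpn : ¬ p ∣ n := hn.2 p (Finset.mem_insert_self p S)
      have hcop : Nat.Coprime p n := (Nat.Prime.coprime_iff_not_dvd hp).mpr hpn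
      have hn0 : (n : ℝ) ≠ 0 := by
        have := hn.1.1
        exact_mod_cast this.ne'
      rw [ArithmeticFunction.isMultiplicative_moebius.map_mul_of_coprime hcop,
        ArithmeticFunction.moebius_apply_prime hp]
      have hxx : x / ((p * n : ℕ) : ℝ) = x / p / n := by
        push_cast
        rw [div_div]
      rw [hxx]
      push_cast
      field_simp
  rw [h1, h2, h3]
  ring

/-- the bound for a finite set of primes -/
theorem hs_bound (S : Finset ℕ) : (∀ p ∈ S, p.Prime) → ∀ x : ℝ, 0 ≤ x →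
    |hs S x| ≤ 3 * ∏ p ∈ S, (1 - 1 / (p : ℝ))⁻¹ := by
  induction S using Finset.induction_on with
  | empty =>
    intro _ x hx
    rw [Finset.prod_empty, mul_one]
    by_cases hx1 : 1 ≤ x
    · have h := h_bound x hx1
      unfold hs
      have h2 : (Ioc 0 ⌊x⌋₊).filter (fun m => ∀ p ∈ (∅ : Finset ℕ), ¬ p ∣ m) = Ioc 0 ⌊x⌋₊ := by
        ext m; simp
      rw [h2]
      exact h
    · unfold hs
      have h2 : ⌊x⌋₊ = 0 := Nat.floor_eq_zero.mpr (by linarith)
      rw [h2]
      simp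
  | insert p S hpS ih =>
    intro hS
    have hp : p.Prime := hS p (Finset.mem_insert_self p S)
    have hS' : ∀ r ∈ S, r.Prime := fun r hr => hS r (Finset.mem_insert_of_mem hr)
    have hp1 : (1 : ℝ) < p := by exact_mod_cast hp.one_lt
    have hp0 : (0 : ℝ) < p := by linarith
    have hpinv : 1 / (p : ℝ) < 1 := by rw [div_lt_one hp0]; exact hp1
    set B := 3 * ∏ r ∈ S, (1 - 1 / (r : ℝ))⁻¹ with hB
    have hkey : ∀ n : ℕ, ∀ x : ℝ, 0 ≤ x → ⌊x⌋₊ ≤ n →
        |hs (insert p S) x| ≤ B * (1 - 1 / (p : ℝ))⁻¹ := by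
      intro n
      induction n using Nat.strong_induction_on with
      | _ n ihn =>
        intro x hx hxn
        have hB0 : 0 ≤ B := le_trans (abs_nonneg _) (ih hS' x hx)
        by_cases hx1 : 1 ≤ x
        · have hfl : ⌊x / p⌋₊ < n := by
            rw [Nat.floor_div_natCast]
            have h1 : 1 ≤ ⌊x⌋₊ := Nat.le_floor (by simpa using hx1)
            have h2 : ⌊x⌋₊ / p < ⌊x⌋₊ := Nat.div_lt_self h1 hp.one_lt
            omega
          have h3 := ihn _ hfl (x / p) (by positivity) le_rfl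
          rw [hs_insert S hS' p hp hpS x]
          have h4 := ih hS' x hx
          calc |hs S x + 1 / (p : ℝ) * hs (insert p S) (x / p)| ≤
              |hs S x| + |1 / (p : ℝ) * hs (insert p S) (x / p)| := abs_add_le _ _
            _ ≤ B + 1 / (p : ℝ) * (B * (1 - 1 / (p : ℝ))⁻¹) := by
              rw [abs_mul, abs_of_pos (show 0 < 1 / (p : ℝ) by positivity)]
              gcongr
            _ = B * (1 - 1 / (p : ℝ))⁻¹ := by
              have h5 : (1 - 1 / (p : ℝ)) ≠ 0 := by linarith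
              have h6 : (1 - 1 / (p : ℝ)) * (1 - 1 / (p : ℝ))⁻¹ = 1 := mul_inv_cancel₀ h5
              linear_combination (-B) * h6
        · unfold hs
          have h2 : ⌊x⌋₊ = 0 := Nat.floor_eq_zero.mpr (by linarith)
          rw [h2]
          simp only [Finset.Ioc_self, Finset.filter_empty, Finset.sum_empty, abs_zero]
          apply mul_nonneg hB0
          rw [inv_nonneg]
          linarith
    intro x hx
    rw [Finset.prod_insert hpS]
    have := hkey ⌊x⌋₊ x hx le_rfl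
    calc _ ≤ _ := this
      _ = _ := by rw [hB]; ring

end MuLog

theorem mu_log (k : ℕ) (hk : 1 ≤ k) (x : ℝ) (hx : 1 ≤ x) :
    |∑ m ∈ (Icc 1 ⌊x⌋₊).filter (fun m => Nat.Coprime m k),
      (ArithmeticFunction.moebius m : ℝ) / m * Real.log (x / m)| ≤
      3 * ∏ p ∈ k.primeFactors, (1 - 1 / (p : ℝ))⁻¹ := by
  have h := MuLog.hs_bound k.primeFactors (fun p hp => Nat.prime_of_mem_primeFactors hp) x
    (by linarith)
  unfold MuLog.hs at h
  have h2 : (Ioc 0 ⌊x⌋₊).filter (fun m => ∀ p ∈ k.primeFactors, ¬ p ∣ m) =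
      (Icc 1 ⌊x⌋₊).filter (fun m => Nat.Coprime m k) := by
    ext m
    simp only [Finset.mem_filter, Finset.mem_Ioc, Finset.mem_Icc]
    have h3 : (∀ p ∈ k.primeFactors, ¬ p ∣ m) ↔ Nat.Coprime m k := by
      constructor
      · intro h4
        rw [Nat.coprime_iff_gcd_eq_one]
        by_contra hc
        obtain ⟨p, hp, hpd⟩ := Nat.exists_prime_and_dvd hc
        exact h4 p (Nat.mem_primeFactors.mpr ⟨hp, dvd_trans hpd (Nat.gcd_dvd_right m k), by omega⟩)
          (dvd_trans hpd (Nat.gcd_dvd_left m k))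
      · intro h4 p hp hpm
        obtain ⟨hpp, hpk, _⟩ := Nat.mem_primeFactors.mp hp
        exact Nat.Prime.not_coprime_iff_dvd.mpr ⟨p, hpp, hpm, hpk⟩ h4
    rw [h3]
    constructor
    · rintro ⟨⟨h4, h5⟩, h6⟩; exact ⟨⟨h4, h5⟩, h6⟩
    · rintro ⟨⟨h4, h5⟩, h6⟩; exact ⟨⟨h4, h5⟩, h6⟩
  rw [h2] at h
  exact h

end Pool.Agent.NV
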