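import Pool.Agent.Lib.MP_afd523_nt.Defs
import Pool.Agent.Lib.MP_afd523_nt.MuLog

namespace Pool.Agent.NV

open Finset Complex MeasureTheory

/-- antiderivative -/
theorem muTw_deriv (z : ℂ) (X M v : ℝ) :
    HasDerivAt (fun v : ℝ => -(z * ((v - M : ℝ) : ℂ) * ((X - v : ℝ) : ℂ) + ((X - M : ℝ) : ℂ)) *
      cexp (-z * v)) ((z ^ 2 * ((X - v : ℝ) : ℂ) + 2 * z) * cexp (-z * v) *
        ((v - M : ℝ) : ℂ)) v := by
  have h1 : HasDerivAt (fun v : ℝ => ((v - M : ℝ) : ℂ)) 1 v := by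
    have := ((hasDerivAt_id v).sub_const M).ofReal_comp
    simpa using this
  have h2 : HasDerivAt (fun v : ℝ => ((X - v : ℝ) : ℂ)) (-1) v := by
    have := ((hasDerivAt_id v).const_sub X).ofReal_comp
    simpa using this
  have h3 : HasDerivAt (fun v : ℝ => cexp (-z * v)) (cexp (-z * v) * (-z * 1)) v := by
    have h4 : HasDerivAt (fun v : ℝ => -z * (v : ℂ)) (-z * 1) v :=
      (Complex.ofRealCLM.hasDerivAt (x := v)).const_mul (-z)
    exact h4.cexp
  have h5 := ((((h1.const_mul z).mul h2).add_const ((X - M : ℝ) : ℂ)).neg).mul h3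
  have h6 : HasDerivAt (fun v : ℝ => -(z * ((v - M : ℝ) : ℂ) * ((X - v : ℝ) : ℂ) +
      ((X - M : ℝ) : ℂ)) * cexp (-z * v))
      (-(z * 1 * ((X - v : ℝ) : ℂ) + z * ((v - M : ℝ) : ℂ) * -1) * cexp (-z * v) +
      -(z * ((v - M : ℝ) : ℂ) * ((X - v : ℝ) : ℂ) + ((X - M : ℝ) : ℂ)) *
        (cexp (-z * v) * (-z * 1))) v := h5
  refine h6.congr_deriv ?_
  push_cast
  ring

/-- termwise identity -/
theorem muTw_term (z : ℂ) (X M : ℝ) (h0 : 0 ≤ M) (h1 : M ≤ X) :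
    cexp (-z * M) * ((X - M : ℝ) : ℂ) = cexp (-z * X) * ((X - M : ℝ) : ℂ) +
      ∫ v in (0 : ℝ)..X, (z ^ 2 * ((X - v : ℝ) : ℂ) + 2 * z) * cexp (-z * v) *
        ((max 0 (v - M) : ℝ) : ℂ) := by
  have hc : Continuous fun v : ℝ => (z ^ 2 * ((X - v : ℝ) : ℂ) + 2 * z) * cexp (-z * v) *
        ((max 0 (v - M) : ℝ) : ℂ) := by
    fun_prop
  rw [← intervalIntegral.integral_add_adjacent_intervals (hc.intervalIntegrable 0 M)
    (hc.intervalIntegrable M X)]
  have e1 : ∫ v in (0 : ℝ)..M, (z ^ 2 * ((X - v : ℝ) : ℂ) + 2 * z) * cexp (-z * v) *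
        ((max 0 (v - M) : ℝ) : ℂ) = 0 := by
    rw [intervalIntegral.integral_congr (g := fun _ => 0), intervalIntegral.integral_zero]
    intro v hv
    rw [Set.uIcc_of_le h0] at hv
    have h2 : v - M ≤ 0 := by linarith [hv.2]
    beta_reduce
    rw [max_eq_left h2, ofReal_zero, mul_zero]
  have e2 : ∫ v in M..X, (z ^ 2 * ((X - v : ℝ) : ℂ) + 2 * z) * cexp (-z * v) *
        ((max 0 (v - M) : ℝ) : ℂ) = ∫ v in M..X, (z ^ 2 * ((X - v : ℝ) : ℂ) + 2 * z) *
        cexp (-z * v) * ((v - M : ℝ) : ℂ) := by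
    refine intervalIntegral.integral_congr fun v hv => ?_
    rw [Set.uIcc_of_le h1] at hv
    rw [max_eq_right (by linarith [hv.1])]
  have hc' : Continuous fun v : ℝ => (z ^ 2 * ((X - v : ℝ) : ℂ) + 2 * z) * cexp (-z * v) *
        ((v - M : ℝ) : ℂ) := by
    fun_prop
  rw [e1, e2, intervalIntegral.integral_eq_sub_of_hasDerivAt
    (fun v _ => muTw_deriv z X M v) (hc'.intervalIntegrable _ _)]
  simp only [sub_self, ofReal_zero, mul_zero, zero_add]
  ring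

/-- the partial sums, as a continuous function of `v` -/
noncomputable def muTwB (I : Finset ℕ) (v : ℝ) : ℝ :=
  ∑ m ∈ I, (ArithmeticFunction.moebius m : ℝ) / m * max 0 (v - Real.log m)

theorem muTw_bound (k : ℕ) (hk : 1 ≤ k) (x : ℝ) (v : ℝ) (hv : 0 ≤ v)
    (hvx : Real.exp v ≤ x) :
    |muTwB ((Icc 1 ⌊x⌋₊).filter (fun m => Nat.Coprime m k)) v| ≤
      3 * ∏ p ∈ k.primeFactors, (1 - 1 / (p : ℝ))⁻¹ := by
  have h := mu_log k hk (Real.exp v) (Real.one_le_exp hv)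
  convert h using 2
  rw [muTwB]
  symm
  refine Finset.sum_subset_zero_on_sdiff (fun m hm => ?_) (fun m hm => ?_) (fun m hm => ?_)
  · rw [mem_filter, mem_Icc] at hm ⊢
    exact ⟨⟨hm.1.1, hm.1.2.trans (Nat.floor_le_floor hvx)⟩, hm.2⟩
  · rw [mem_sdiff, mem_filter, mem_filter, mem_Icc, mem_Icc] at hm
    have h1 : ¬ m ≤ ⌊Real.exp v⌋₊ := fun h2 => hm.2 ⟨⟨hm.1.1.1, h2⟩, hm.1.2⟩
    have h2 : Real.exp v < m := by
      by_contra h3
      push Not at h3
      exact h1 (Nat.le_floor h3)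
    have h3 : v < Real.log m := by
      rw [← Real.log_exp v]
      exact Real.log_lt_log (Real.exp_pos v) h2
    rw [max_eq_left (by linarith), mul_zero]
  · rw [mem_filter, mem_Icc] at hm
    have h0 : (0 : ℝ) < m := by exact_mod_cast hm.1.1
    have h1 : (m : ℝ) ≤ Real.exp v := by
      have := Nat.floor_le (Real.exp_pos v).le
      exact le_trans (by exact_mod_cast hm.1.2) this
    have h2 : Real.log m ≤ v := by
      rw [← Real.log_exp v]
      exact Real.log_le_log h0 h1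
    rw [max_eq_right (by linarith), Real.log_div (Real.exp_pos v).ne' h0.ne', Real.log_exp]

theorem mu_twist (k : ℕ) (hk : 1 ≤ k) (x : ℝ) (hx : 1 ≤ x) (z : ℂ) (hz : 0 ≤ z.re) :
    ‖∑ m ∈ (Icc 1 ⌊x⌋₊).filter (fun m => Nat.Coprime m k),
      ((ArithmeticFunction.moebius m : ℝ) : ℂ) * (m : ℂ) ^ (-(1 + z)) *
        (Real.log (x / m) : ℂ)‖ ≤
      3 * (∏ p ∈ k.primeFactors, (1 - 1 / (p : ℝ))⁻¹) * (1 + ‖z‖ * Real.log x) ^ 2 := by
  set I := (Icc 1 ⌊x⌋₊).filter (fun m => Nat.Coprime m k) with hI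
  set C := 3 * (∏ p ∈ k.primeFactors, (1 - 1 / (p : ℝ))⁻¹) with hC
  set X := Real.log x with hX
  have hx0 : 0 < x := by linarith
  have hX0 : 0 ≤ X := Real.log_nonneg hx
  have hm0 : ∀ m ∈ I, (1 : ℝ) ≤ m ∧ (m : ℝ) ≤ x := fun m hm => by
    rw [hI, mem_filter, mem_Icc] at hm
    refine ⟨by exact_mod_cast hm.1.1, ?_⟩
    exact le_trans (by exact_mod_cast hm.1.2) (Nat.floor_le hx0.le)
  have hB : ∀ v, 0 ≤ v → v ≤ X → |muTwB I v| ≤ C := fun v h0 h1 => by
    refine muTw_bound k hk x v h0 ?_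
    rw [← Real.exp_log hx0]
    exact Real.exp_le_exp.mpr h1
  have hterm : ∀ m ∈ I, ((ArithmeticFunction.moebius m : ℝ) : ℂ) * (m : ℂ) ^ (-(1 + z)) *
        (Real.log (x / m) : ℂ) =
      ((ArithmeticFunction.moebius m : ℝ) : ℂ) / m *
        (cexp (-z * X) * ((max 0 (X - Real.log m) : ℝ) : ℂ)) +
      ∫ v in (0 : ℝ)..X, (z ^ 2 * ((X - v : ℝ) : ℂ) + 2 * z) * cexp (-z * v) *
        (((ArithmeticFunction.moebius m : ℝ) : ℂ) / m *
          ((max 0 (v - Real.log m) : ℝ) : ℂ)) := by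
    intro m hm
    obtain ⟨h1, h2⟩ := hm0 m hm
    have h3 : (0 : ℝ) < m := by linarith
    have h4 : (m : ℂ) ≠ 0 := by exact_mod_cast h3.ne'
    have hM0 : 0 ≤ Real.log m := Real.log_nonneg h1
    have hM1 : Real.log m ≤ X := Real.log_le_log h3 h2
    have e1 : (m : ℂ) ^ (-(1 + z)) = (m : ℂ)⁻¹ * cexp (-z * (Real.log m : ℝ)) := by
      rw [neg_add, Complex.cpow_add _ _ h4, Complex.cpow_neg_one, Complex.cpow_def_of_ne_zero h4,
        ← Complex.ofReal_natCast m, ← Complex.ofReal_log h3.le]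
      congr 2
      ring
    have e2 : Real.log (x / m) = X - Real.log m := Real.log_div hx0.ne' h3.ne'
    have e3 := muTw_term z X (Real.log m) hM0 hM1
    have e4 : ∫ v in (0 : ℝ)..X, (z ^ 2 * ((X - v : ℝ) : ℂ) + 2 * z) * cexp (-z * v) *
        (((ArithmeticFunction.moebius m : ℝ) : ℂ) / m *
          ((max 0 (v - Real.log m) : ℝ) : ℂ)) =
        ((ArithmeticFunction.moebius m : ℝ) : ℂ) / m *
        ∫ v in (0 : ℝ)..X, (z ^ 2 * ((X - v : ℝ) : ℂ) + 2 * z) * cexp (-z * v) *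
          ((max 0 (v - Real.log m) : ℝ) : ℂ) := by
      rw [← intervalIntegral.integral_const_mul]
      refine intervalIntegral.integral_congr fun v _ => ?_
      ring
    rw [e4, e1, e2, max_eq_right (by linarith : (0 : ℝ) ≤ X - Real.log m)]
    have e5 : ((ArithmeticFunction.moebius m : ℝ) : ℂ) * ((m : ℂ)⁻¹ *
        cexp (-z * (Real.log m : ℝ))) * ((X - Real.log m : ℝ) : ℂ) =
        ((ArithmeticFunction.moebius m : ℝ) : ℂ) / m *
          (cexp (-z * (Real.log m : ℝ)) * ((X - Real.log m : ℝ) : ℂ)) := by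
      ring
    rw [e5, e3]
    ring
  have hS : ∑ m ∈ I, ((ArithmeticFunction.moebius m : ℝ) : ℂ) * (m : ℂ) ^ (-(1 + z)) *
        (Real.log (x / m) : ℂ) = cexp (-z * X) * ((muTwB I X : ℝ) : ℂ) +
      ∫ v in (0 : ℝ)..X, (z ^ 2 * ((X - v : ℝ) : ℂ) + 2 * z) * cexp (-z * v) *
        ((muTwB I v : ℝ) : ℂ) := by
    rw [Finset.sum_congr rfl hterm, Finset.sum_add_distrib, ← intervalIntegral.integral_finsetSum]
    · congr 1
      · rw [muTwB]
        push_cast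
        rw [Finset.mul_sum]
        exact Finset.sum_congr rfl fun m _ => by ring
      · refine intervalIntegral.integral_congr fun v _ => ?_
        rw [muTwB]
        push_cast
        rw [Finset.mul_sum]
    · intro m _
      exact Continuous.intervalIntegrable (by fun_prop) _ _
  rw [hS]
  have hexp : ∀ v : ℝ, 0 ≤ v → ‖cexp (-z * v)‖ ≤ 1 := fun v hv => by
    rw [Complex.norm_exp]
    refine Real.exp_le_one_iff.mpr ?_
    simp only [neg_mul, neg_re, mul_re, ofReal_re, ofReal_im, mul_zero, sub_zero]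
    have := mul_nonneg hz hv
    linarith
  have hC0 : 0 ≤ C := (abs_nonneg _).trans (hB 0 le_rfl hX0)
  have hb1 : ‖cexp (-z * X) * ((muTwB I X : ℝ) : ℂ)‖ ≤ C := by
    rw [norm_mul, Complex.norm_real, Real.norm_eq_abs]
    calc _ ≤ 1 * C := mul_le_mul (hexp X hX0) (hB X hX0 le_rfl) (abs_nonneg _) zero_le_one
      _ = C := one_mul C
  have hb2 : ‖∫ v in (0 : ℝ)..X, (z ^ 2 * ((X - v : ℝ) : ℂ) + 2 * z) * cexp (-z * v) *
        ((muTwB I v : ℝ) : ℂ)‖ ≤ (‖z‖ ^ 2 * X + 2 * ‖z‖) * C * |X - 0| := by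
    refine intervalIntegral.norm_integral_le_of_norm_le_const fun v hv => ?_
    rw [Set.uIoc_of_le hX0] at hv
    rw [norm_mul, norm_mul, Complex.norm_real, Real.norm_eq_abs]
    have h1 : ‖z ^ 2 * ((X - v : ℝ) : ℂ) + 2 * z‖ ≤ ‖z‖ ^ 2 * X + 2 * ‖z‖ := by
      refine (norm_add_le _ _).trans ?_
      rw [norm_mul, norm_mul, norm_pow, Complex.norm_real, Real.norm_eq_abs,
        abs_of_nonneg (by linarith [hv.2] : (0 : ℝ) ≤ X - v)]
      have h2 : ‖(2 : ℂ)‖ = 2 := by simp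
      rw [h2]
      have h3 : ‖z‖ ^ 2 * (X - v) ≤ ‖z‖ ^ 2 * X :=
        mul_le_mul_of_nonneg_left (by linarith [hv.1]) (by positivity)
      linarith
    have h4 : 0 ≤ ‖z‖ ^ 2 * X + 2 * ‖z‖ := by positivity
    calc _ ≤ (‖z‖ ^ 2 * X + 2 * ‖z‖) * 1 * C :=
          mul_le_mul (mul_le_mul h1 (hexp v hv.1.le) (norm_nonneg _) h4) (hB v hv.1.le hv.2)
            (abs_nonneg _) (by positivity)
      _ = _ := by ring
  refine (norm_add_le _ _).trans ((add_le_add hb1 hb2).trans (le_of_eq ?_))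
  rw [sub_zero, abs_of_nonneg hX0]
  ring

end Pool.Agent.NV
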