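import Pool.Agent.Lib.MP_afd523_nt.Defs
import Pool.Agent.Lib.MP_afd523_nt.Parts
import Pool.Agent.Lib.MP_afd523_nt.MuTw
import Pool.Agent.Lib.MP_afd523_nt.DForm
import Pool.Agent.Lib.MP_afd523_nt.ZRough
import Pool.Agent.Lib.MP_afd523_nt.DSum

/-!
The quadratic form bound for the mollified coefficients (module QU).
-/

namespace Pool.Agent.NV

open Finset Complex MeasureTheory

/-- the coefficients to which the diagonal form is applied -/
noncomputable def Quad_l (q : ℕ) (t : ℝ) (m : ℕ) : ℂ :=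
  if ro (ww q) m = m then
    ((ArithmeticFunction.moebius m : ℝ) : ℂ) * (PP q m : ℂ) * (m : ℂ) ^ st q t
  else 0

theorem Quad_yy_pos {q : ℕ} (hq : 2 ≤ q) : 0 < yy q := by
  unfold yy
  apply Real.rpow_pos_of_pos
  have : (2 : ℝ) ≤ q := by exact_mod_cast hq
  linarith

theorem Quad_log_yy {q : ℕ} (hq : 2 ≤ q) : Real.log (yy q) = Real.log q / 100 := by
  unfold yy
  have : (0 : ℝ) < q := by
    have : (2 : ℝ) ≤ q := by exact_mod_cast hq
    linarith
  rw [Real.log_rpow this]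
  ring

theorem Quad_log_pos {q : ℕ} (hq : 2 ≤ q) : 0 < Real.log q := by
  apply Real.log_pos
  have : (2 : ℝ) ≤ q := by exact_mod_cast hq
  linarith

theorem Quad_log_yy_pos {q : ℕ} (hq : 2 ≤ q) : 0 < Real.log (yy q) := by
  rw [Quad_log_yy hq]
  have := Quad_log_pos hq
  positivity

theorem Quad_one_le_yy {q : ℕ} (hq : 2 ≤ q) : 1 ≤ yy q := by
  unfold yy
  apply Real.one_le_rpow
  · have : (2 : ℝ) ≤ q := by exact_mod_cast hq
    linarith
  · norm_num

theorem Quad_le_of_PP {q m : ℕ} (hq : 2 ≤ q) (h : PP q m ≠ 0) : m ≤ ⌊yy q⌋₊ := by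
  have hL := Quad_log_yy_pos hq
  have hy := Quad_yy_pos hq
  apply Nat.le_floor
  by_contra hcon
  push Not at hcon
  apply h
  unfold PP
  apply max_eq_left
  have h2 : Real.log (yy q) ≤ Real.log m := Real.log_le_log hy hcon.le
  rw [sub_nonpos, one_le_div hL]
  exact h2

theorem Quad_PP_eq {q d m : ℕ} (hq : 2 ≤ q) (hd : 1 ≤ d) (hm : 1 ≤ m)
    (h : (m : ℝ) ≤ yy q / d) :
    PP q (d * m) = Real.log ((yy q / d) / m) / Real.log (yy q) := by
  have hL := Quad_log_yy_pos hq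
  have hy := Quad_yy_pos hq
  have hd' : (0 : ℝ) < d := by exact_mod_cast hd
  have hm' : (0 : ℝ) < m := by exact_mod_cast hm
  have e1 : Real.log ((yy q / d) / m) = Real.log (yy q) - Real.log d - Real.log m := by
    rw [Real.log_div (by positivity) (by positivity), Real.log_div (by positivity) (by positivity)]
  have e2 : Real.log ((d * m : ℕ) : ℝ) = Real.log d + Real.log m := by
    push_cast
    rw [Real.log_mul (by positivity) (by positivity)]
  have e3 : 0 ≤ Real.log ((yy q / d) / m) := by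
    apply Real.log_nonneg
    rw [le_div_iff₀ hm']
    linarith
  unfold PP
  rw [e2, e1]
  have e4 : 1 - (Real.log d + Real.log m) / Real.log (yy q) =
      (Real.log (yy q) - Real.log d - Real.log m) / Real.log (yy q) := by
    field_simp
    ring
  rw [e4]
  apply max_eq_right
  rw [← e1]
  positivity

theorem Quad_l_ne {q : ℕ} (hq : 2 ≤ q) (t : ℝ) (m : ℕ) (h : Quad_l q t m ≠ 0) :
    1 ≤ m ∧ m ≤ ⌊yy q⌋₊ ∧ Squarefree m ∧ ro (ww q) m = m := by
  unfold Quad_l at h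
  split_ifs at h with h1
  · have h0 : m ≠ 0 := by
      rw [← h1]
      exact ro_ne_zero _ _
    have hmu : ArithmeticFunction.moebius m ≠ 0 := by
      intro h2
      apply h
      rw [h2]
      simp
    have hP : PP q m ≠ 0 := by
      intro h2
      apply h
      rw [h2]
      simp
    refine ⟨Nat.one_le_iff_ne_zero.mpr h0, Quad_le_of_PP hq hP, ?_, h1⟩
    exact ArithmeticFunction.moebius_ne_zero_iff_squarefree.mp hmu
  · exact absurd rfl h

theorem Quad_Lam {q : ℕ} (t : ℝ) (g : ℕ) (hg : ro (ww q) g = g) :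
    Lam q t g = ∑ m ∈ g.divisors, Quad_l q t m := by
  unfold Lam
  apply Finset.sum_congr rfl
  intro m hm
  have hm1 := Nat.dvd_of_mem_divisors hm
  have hg0 : g ≠ 0 := (Nat.mem_divisors.mp hm).2
  have hm0 : m ≠ 0 := by
    intro h
    rw [h] at hm1
    exact hg0 (zero_dvd_iff.mp hm1)
  have : ro (ww q) m = m := by
    rw [ro_eq_self_iff _ hm0]
    intro p hp hpm
    exact (ro_eq_self_iff _ hg0).mp hg p hp (hpm.trans hm1)
  unfold Quad_l
  rw [if_pos this]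

/-- the product of the small primes -/
def Quad_k (w : ℕ) : ℕ := ∏ p ∈ (Icc 1 w).filter Nat.Prime, p

theorem Quad_k_ne (w : ℕ) : Quad_k w ≠ 0 := by
  unfold Quad_k
  rw [Finset.prod_ne_zero_iff]
  intro p hp
  exact (Finset.mem_filter.mp hp).2.ne_zero

theorem Quad_k_pf (w : ℕ) : (Quad_k w).primeFactors = (Icc 1 w).filter Nat.Prime := by
  unfold Quad_k
  apply Nat.primeFactors_prod
  intro p hp
  exact (Finset.mem_filter.mp hp).2

theorem Quad_cop (w : ℕ) {m : ℕ} (hm : m ≠ 0) : ro w m = m ↔ Nat.Coprime m (Quad_k w) := by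
  rw [ro_eq_self_iff w hm]
  constructor
  · intro h
    rw [Nat.coprime_iff_gcd_eq_one]
    by_contra hcon
    obtain ⟨p, hp, hpd⟩ := Nat.exists_prime_and_dvd hcon
    have h1 : p ∣ m := hpd.trans (Nat.gcd_dvd_left _ _)
    have h2 : p ∣ Quad_k w := hpd.trans (Nat.gcd_dvd_right _ _)
    have h3 : p ∈ (Quad_k w).primeFactors := Nat.mem_primeFactors.mpr ⟨hp, h2, Quad_k_ne w⟩
    rw [Quad_k_pf] at h3
    have h4 := (Finset.mem_Icc.mp (Finset.mem_filter.mp h3).1).2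
    have := h p hp h1
    omega
  · intro h p hp hpm
    by_contra hcon
    push Not at hcon
    have h3 : p ∈ (Quad_k w).primeFactors := by
      rw [Quad_k_pf]
      exact Finset.mem_filter.mpr ⟨Finset.mem_Icc.mpr ⟨hp.one_lt.le, hcon⟩, hp⟩
    have h4 : p ∣ Quad_k w := (Nat.mem_primeFactors.mp h3).2.1
    have h5 : p ∣ Nat.gcd m (Quad_k w) := Nat.dvd_gcd hpm h4
    rw [h] at h5
    exact hp.one_lt.ne' (Nat.dvd_one.mp h5)

/-- the reindexed sum over the multiples of `d` -/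
theorem Quad_reindex {q : ℕ} (hq : 2 ≤ q) (t s : ℝ) (d : ℕ) (hd : 1 ≤ d)
    (hdr : ro (ww q) d = d) :
    ∑ m ∈ (Icc 1 ⌊yy q⌋₊).filter (fun m => d ∣ m), Quad_l q t m * (m : ℂ) ^ (-(s : ℂ)) =
      ((ArithmeticFunction.moebius d : ℝ) : ℂ) * (d : ℂ) ^ (st q t - s) *
        ((Real.log (yy q) : ℝ) : ℂ)⁻¹ *
        ∑ m ∈ (Icc 1 ⌊yy q / d⌋₊).filter (fun m => Nat.Coprime m (d * Quad_k (ww q))),
          ((ArithmeticFunction.moebius m : ℝ) : ℂ) * (m : ℂ) ^ (st q t - s) *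
            (Real.log (yy q / d / m) : ℂ) := by
  have hd0 : d ≠ 0 := by omega
  have hdC : (d : ℂ) ≠ 0 := by exact_mod_cast hd0
  have hdpos : (0 : ℝ) < d := by exact_mod_cast hd
  have e0 : ∑ m ∈ (Icc 1 ⌊yy q⌋₊).filter (fun m => d ∣ m), Quad_l q t m * (m : ℂ) ^ (-(s : ℂ)) =
      ∑ m ∈ Icc 1 ⌊yy q / d⌋₊, Quad_l q t (d * m) * ((d * m : ℕ) : ℂ) ^ (-(s : ℂ)) := by
    symm
    apply Finset.sum_bij (fun m _ => d * m)
    · intro m hm
      rw [Finset.mem_Icc] at hm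
      rw [Finset.mem_filter, Finset.mem_Icc]
      refine ⟨⟨Nat.mul_pos hd hm.1, ?_⟩, Dvd.intro m rfl⟩
      apply Nat.le_floor
      have h1 : (m : ℝ) ≤ yy q / d := (Nat.le_floor_iff (by
        have := Quad_yy_pos hq
        positivity)).mp hm.2
      push_cast
      rw [le_div_iff₀ hdpos] at h1
      linarith
    · intro a _ b _ hab
      exact Nat.eq_of_mul_eq_mul_left hd hab
    · intro b hb
      rw [Finset.mem_filter, Finset.mem_Icc] at hb
      obtain ⟨⟨hb1, hb2⟩, c, hc⟩ := hb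
      refine ⟨c, ?_, hc.symm⟩
      rw [Finset.mem_Icc]
      constructor
      · rcases Nat.eq_zero_or_pos c with h | h
        · rw [h] at hc
          omega
        · exact h
      · apply Nat.le_floor
        rw [le_div_iff₀ hdpos]
        have h1 : (b : ℝ) ≤ yy q := (Nat.le_floor_iff (Quad_yy_pos hq).le).mp hb2
        rw [hc] at h1
        push_cast at h1
        linarith
    · intro a _
      rfl
  rw [e0, Finset.mul_sum, Finset.sum_filter]
  apply Finset.sum_congr rfl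
  intro m hm
  rw [Finset.mem_Icc] at hm
  have hm0 : m ≠ 0 := by omega
  have hmx : (m : ℝ) ≤ yy q / d := (Nat.le_floor_iff (by
    have := Quad_yy_pos hq
    positivity)).mp hm.2
  split_ifs with hc
  · have hcd : Nat.Coprime m d := Nat.Coprime.coprime_mul_right_right hc
    have hck : Nat.Coprime m (Quad_k (ww q)) := Nat.Coprime.coprime_mul_left_right hc
    have hmr : ro (ww q) m = m := (Quad_cop (ww q) hm0).mpr hck
    have hr : ro (ww q) (d * m) = d * m := by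
      rw [ro_mul (ww q) hd0 hm0, hdr, hmr]
    have hmul : ArithmeticFunction.moebius (d * m) =
        ArithmeticFunction.moebius d * ArithmeticFunction.moebius m :=
      ArithmeticFunction.isMultiplicative_moebius.map_mul_of_coprime hcd.symm
    have hdm : (((d * m : ℕ)) : ℂ) ≠ 0 := by
      exact_mod_cast Nat.mul_ne_zero hd0 hm0
    unfold Quad_l
    rw [if_pos hr, hmul, Quad_PP_eq hq hd (by omega) hmx]
    have e1 : (((d * m : ℕ)) : ℂ) ^ st q t * (((d * m : ℕ)) : ℂ) ^ (-(s : ℂ)) =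
        (d : ℂ) ^ (st q t - s) * (m : ℂ) ^ (st q t - s) := by
      rw [← Complex.cpow_add _ _ hdm, ← sub_eq_add_neg, Nat.cast_mul,
        Complex.natCast_mul_natCast_cpow]
    have e2 : ((Real.log (yy q / d / m) / Real.log (yy q) : ℝ) : ℂ) =
        ((Real.log (yy q) : ℝ) : ℂ)⁻¹ * (Real.log (yy q / d / m) : ℂ) := by
      push_cast
      rw [div_eq_mul_inv, mul_comm]
    calc _ = (((ArithmeticFunction.moebius d * ArithmeticFunction.moebius m : ℤ) : ℝ) : ℂ) *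
          ((Real.log (yy q / d / m) / Real.log (yy q) : ℝ) : ℂ) *
          ((((d * m : ℕ)) : ℂ) ^ st q t * (((d * m : ℕ)) : ℂ) ^ (-(s : ℂ))) := by ring
      _ = _ := by
        rw [e1, e2]
        push_cast
        ring
  · have hz : Quad_l q t (d * m) = 0 := by
      by_contra hne
      obtain ⟨h1, h2, h3, h4⟩ := Quad_l_ne hq t _ hne
      apply hc
      have hcop : Nat.Coprime d m := Nat.coprime_of_squarefree_mul h3
      have hmr : ro (ww q) m = m := by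
        rw [ro_eq_self_iff _ hm0]
        intro p hp hpm
        exact (ro_eq_self_iff _ (by positivity)).mp h4 p hp (hpm.trans (Dvd.intro_left d rfl))
      exact Nat.Coprime.mul_right hcop.symm ((Quad_cop (ww q) hm0).mp hmr)
    rw [hz, zero_mul]

theorem Quad_prod {q : ℕ} (d : ℕ) (hd : d ≠ 0) (hdr : ro (ww q) d = d) :
    ∏ p ∈ (d * Quad_k (ww q)).primeFactors, (1 - 1 / (p : ℝ))⁻¹ =
      (Wp q)⁻¹ * ∏ p ∈ d.primeFactors, (1 - 1 / (p : ℝ))⁻¹ := by
  rw [Nat.primeFactors_mul hd (Quad_k_ne _), Quad_k_pf, Finset.prod_union, mul_comm]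
  · unfold Wp
    rw [Finset.prod_inv_distrib]
  · rw [Finset.disjoint_left]
    intro p hp hp2
    have h1 := Nat.mem_primeFactors.mp hp
    have h2 := (ro_eq_self_iff _ hd).mp hdr p h1.1 h1.2.1
    have h3 := (Finset.mem_Icc.mp (Finset.mem_filter.mp hp2).1).2
    omega

theorem Quad_prod_pos (d : ℕ) : 0 < ∏ p ∈ d.primeFactors, (1 - 1 / (p : ℝ))⁻¹ := by
  apply Finset.prod_pos
  intro p hp
  have h1 := (Nat.mem_primeFactors.mp hp).1.one_lt
  have h2 : (1 : ℝ) < p := by exact_mod_cast h1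
  rw [inv_pos, sub_pos, div_lt_one (by linarith)]
  exact h2

theorem Quad_Wp_pos (q : ℕ) : 0 < Wp q := by
  unfold Wp
  apply Finset.prod_pos
  intro p hp
  have h1 := (Finset.mem_filter.mp hp).2.one_lt
  have h2 : (1 : ℝ) < p := by exact_mod_cast h1
  rw [sub_pos, div_lt_one (by linarith)]
  exact h2

theorem Quad_term {q : ℕ} (hq : 2 ≤ q) (t : ℝ) (d : ℕ) (hd : 1 ≤ d) (hdy : d ≤ ⌊yy q⌋₊)
    (hdr : ro (ww q) d = d) :
    (d : ℝ) ^ (1 + 2 * al q) *
      ‖∑ m ∈ (Icc 1 ⌊yy q⌋₊).filter (fun m => d ∣ m),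
        Quad_l q t m * (m : ℂ) ^ (-((1 + 2 * al q : ℝ) : ℂ))‖ ^ 2 ≤
      (600 * (1 + |t|) ^ 2 / (Real.log q * Wp q)) ^ 2 *
        ((∏ p ∈ d.primeFactors, (1 - 1 / (p : ℝ))⁻¹) ^ 2 / d) := by
  have hd0 : d ≠ 0 := by omega
  have hdpos : (0 : ℝ) < d := by exact_mod_cast hd
  have hL := Quad_log_pos hq
  have hLy := Quad_log_yy hq
  have hW := Quad_Wp_pos q
  have hy := Quad_yy_pos hq
  have hP := Quad_prod_pos d
  have hal : 0 < al q := by
    unfold al
    positivity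
  rw [Quad_reindex hq t (1 + 2 * al q) d hd hdr]
  set z : ℂ := (al q : ℂ) * (1 - t * Complex.I) with hz
  have hzs : st q t - ((1 + 2 * al q : ℝ) : ℂ) = -(1 + z) := by
    rw [hz]
    unfold st
    push_cast
    ring
  have hx : 1 ≤ yy q / d := by
    rw [le_div_iff₀ hdpos, one_mul]
    exact (Nat.le_floor_iff hy.le).mp hdy
  have hzre : 0 ≤ z.re := by
    rw [hz]
    simp
    exact hal.le
  have hk : 1 ≤ d * Quad_k (ww q) := Nat.mul_pos hd (Nat.pos_of_ne_zero (Quad_k_ne _))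
  have htw := mu_twist (d * Quad_k (ww q)) hk (yy q / d) hx z hzre
  rw [Quad_prod d hd0 hdr] at htw
  rw [hzs]
  set S : ℂ := ∑ m ∈ (Icc 1 ⌊yy q / d⌋₊).filter (fun m => Nat.Coprime m (d * Quad_k (ww q))),
      ((ArithmeticFunction.moebius m : ℝ) : ℂ) * (m : ℂ) ^ (-(1 + z)) *
        (Real.log (yy q / d / m) : ℂ) with hS
  have hmu : ‖((ArithmeticFunction.moebius d : ℝ) : ℂ)‖ ≤ 1 := by
    rw [Complex.norm_real, Real.norm_eq_abs]
    have := ArithmeticFunction.abs_moebius_le_one (n := d)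
    exact_mod_cast this
  have hdn : ‖(d : ℂ) ^ (-(1 + z))‖ = (d : ℝ) ^ (-(1 + al q)) := by
    rw [Complex.norm_natCast_cpow_of_pos (by omega)]
    congr 1
    rw [hz]
    simp
  have hzn : ‖z‖ ≤ al q * (1 + |t|) := by
    rw [hz, norm_mul, Complex.norm_real, Real.norm_eq_abs, abs_of_pos hal]
    apply mul_le_mul_of_nonneg_left _ hal.le
    calc ‖(1 : ℂ) - t * Complex.I‖ ≤ ‖(1 : ℂ)‖ + ‖(t : ℂ) * Complex.I‖ := norm_sub_le _ _
      _ = 1 + |t| := by
        rw [norm_one, norm_mul, Complex.norm_I, mul_one, Complex.norm_real, Real.norm_eq_abs]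
  have hlx : Real.log (yy q / d) ≤ Real.log q / 100 := by
    rw [← hLy]
    apply Real.log_le_log (by positivity)
    rw [div_le_iff₀ hdpos]
    have : (1 : ℝ) ≤ d := by exact_mod_cast hd
    nlinarith
  have hlx0 : 0 ≤ Real.log (yy q / d) := Real.log_nonneg hx
  have hzl : ‖z‖ * Real.log (yy q / d) ≤ (1 + |t|) / 100 := by
    calc ‖z‖ * Real.log (yy q / d) ≤ (al q * (1 + |t|)) * (Real.log q / 100) := by
          apply mul_le_mul hzn hlx hlx0
          have := abs_nonneg t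
          positivity
      _ = (1 + |t|) / 100 := by
          unfold al
          field_simp
  have hsq : (1 + ‖z‖ * Real.log (yy q / d)) ^ 2 ≤ 2 * (1 + |t|) ^ 2 := by
    have h0 : 0 ≤ ‖z‖ * Real.log (yy q / d) := mul_nonneg (norm_nonneg _) hlx0
    have ht := abs_nonneg t
    have h1 : 1 + ‖z‖ * Real.log (yy q / d) ≤ 101 / 100 * (1 + |t|) := by linarith
    calc (1 + ‖z‖ * Real.log (yy q / d)) ^ 2 ≤ (101 / 100 * (1 + |t|)) ^ 2 :=
          pow_le_pow_left₀ (by linarith) h1 2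
      _ ≤ 2 * (1 + |t|) ^ 2 := by nlinarith [sq_nonneg (1 + |t|)]
  have hSb : ‖S‖ ≤ 6 * ((Wp q)⁻¹ * ∏ p ∈ d.primeFactors, (1 - 1 / (p : ℝ))⁻¹) *
      (1 + |t|) ^ 2 := by
    calc ‖S‖ ≤ _ := htw
      _ ≤ 3 * ((Wp q)⁻¹ * ∏ p ∈ d.primeFactors, (1 - 1 / (p : ℝ))⁻¹) *
          (2 * (1 + |t|) ^ 2) := by
          apply mul_le_mul_of_nonneg_left hsq
          positivity
      _ = _ := by ring
  have hA : ‖((ArithmeticFunction.moebius d : ℝ) : ℂ) * (d : ℂ) ^ (-(1 + z)) *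
        ((Real.log (yy q) : ℝ) : ℂ)⁻¹ * S‖ ≤
      (d : ℝ) ^ (-(1 + al q)) * (600 * (1 + |t|) ^ 2 / (Real.log q * Wp q)) *
        ∏ p ∈ d.primeFactors, (1 - 1 / (p : ℝ))⁻¹ := by
    have hLn : ‖((Real.log (yy q) : ℝ) : ℂ)⁻¹‖ = (Real.log q / 100)⁻¹ := by
      rw [norm_inv, Complex.norm_real, Real.norm_eq_abs, hLy,
        abs_of_pos (by positivity : (0 : ℝ) < Real.log q / 100)]
    rw [norm_mul, norm_mul, norm_mul, hdn, hLn]
    have hdp : 0 < (d : ℝ) ^ (-(1 + al q)) := Real.rpow_pos_of_pos hdpos _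
    calc ‖((ArithmeticFunction.moebius d : ℝ) : ℂ)‖ * (d : ℝ) ^ (-(1 + al q)) *
          (Real.log q / 100)⁻¹ * ‖S‖
        ≤ 1 * (d : ℝ) ^ (-(1 + al q)) * (Real.log q / 100)⁻¹ *
          (6 * ((Wp q)⁻¹ * ∏ p ∈ d.primeFactors, (1 - 1 / (p : ℝ))⁻¹) * (1 + |t|) ^ 2) := by
          gcongr
      _ = _ := by
          field_simp
          ring
  have hd2 : (d : ℝ) ^ (1 + 2 * al q) * ((d : ℝ) ^ (-(1 + al q))) ^ 2 = 1 / d := by
    rw [← Real.rpow_natCast, ← Real.rpow_mul hdpos.le, ← Real.rpow_add hdpos, one_div,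
      ← Real.rpow_neg_one]
    congr 1
    push_cast
    ring
  calc (d : ℝ) ^ (1 + 2 * al q) * ‖((ArithmeticFunction.moebius d : ℝ) : ℂ) *
          (d : ℂ) ^ (-(1 + z)) * ((Real.log (yy q) : ℝ) : ℂ)⁻¹ * S‖ ^ 2
      ≤ (d : ℝ) ^ (1 + 2 * al q) *
        ((d : ℝ) ^ (-(1 + al q)) * (600 * (1 + |t|) ^ 2 / (Real.log q * Wp q)) *
        ∏ p ∈ d.primeFactors, (1 - 1 / (p : ℝ))⁻¹) ^ 2 := by
        apply mul_le_mul_of_nonneg_left _ (Real.rpow_nonneg hdpos.le _)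
        exact pow_le_pow_left₀ (norm_nonneg _) hA 2
    _ = ((d : ℝ) ^ (1 + 2 * al q) * ((d : ℝ) ^ (-(1 + al q))) ^ 2) *
        ((600 * (1 + |t|) ^ 2 / (Real.log q * Wp q)) ^ 2 *
        (∏ p ∈ d.primeFactors, (1 - 1 / (p : ℝ))⁻¹) ^ 2) := by ring
    _ = _ := by
        rw [hd2]
        ring

theorem quad : ∃ C : ℝ, ∃ q₀ : ℕ, ∀ q X : ℕ, q₀ ≤ q → ∀ t : ℝ,
    ∑ g ∈ (Icc 1 X).filter (fun g => ro (ww q) g = g),
      (g : ℝ) ^ (-(1 + 2 * al q)) * ‖Lam q t g‖ ^ 2 ≤ C * (1 + |t|) ^ 4 := by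
  obtain ⟨C₁, hC₁, q₁, h₁⟩ := zeta_rough
  obtain ⟨C₂, hC₂, q₂, h₂⟩ := delta_sum
  refine ⟨360000 * C₁ * C₂, max 2 (max q₁ q₂), ?_⟩
  intro q X hqq t
  have hq : 2 ≤ q := (le_max_left _ _).trans hqq
  have hq1 : q₁ ≤ q := ((le_max_left _ _).trans (le_max_right _ _)).trans hqq
  have hq2 : q₂ ≤ q := ((le_max_right _ _).trans (le_max_right _ _)).trans hqq
  have hL := Quad_log_pos hq
  have hW := Quad_Wp_pos q
  have hal : 0 < al q := by
    unfold al
    positivity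
  have hs : 1 < 1 + 2 * al q := by linarith
  have hdf := diag_form (ww q) X ⌊yy q⌋₊ (1 + 2 * al q) (C₁ * Real.log q * Wp q) hs
    (fun X' => h₁ q X' hq1) (Quad_l q t) (Quad_l_ne hq t)
  have e0 : ∑ g ∈ (Icc 1 X).filter (fun g => ro (ww q) g = g),
      (g : ℝ) ^ (-(1 + 2 * al q)) * ‖Lam q t g‖ ^ 2 =
      ∑ g ∈ (Icc 1 X).filter (fun g => ro (ww q) g = g),
      (g : ℝ) ^ (-(1 + 2 * al q)) * ‖∑ m ∈ g.divisors, Quad_l q t m‖ ^ 2 := by
    apply Finset.sum_congr rfl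
    intro g hg
    rw [Quad_Lam t g (Finset.mem_filter.mp hg).2]
  rw [e0]
  refine hdf.trans ?_
  have hZ : 0 ≤ C₁ * Real.log q * Wp q := by positivity
  have hsum : ∑ δ ∈ (Icc 1 ⌊yy q⌋₊).filter (fun δ => ro (ww q) δ = δ ∧ Squarefree δ),
        (δ : ℝ) ^ (1 + 2 * al q) * ‖∑ m ∈ (Icc 1 ⌊yy q⌋₊).filter (fun m => δ ∣ m),
          Quad_l q t m * (m : ℂ) ^ (-((1 + 2 * al q : ℝ) : ℂ))‖ ^ 2 ≤
      (600 * (1 + |t|) ^ 2 / (Real.log q * Wp q)) ^ 2 * (C₂ * Real.log q * Wp q) := by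
    calc _ ≤ ∑ δ ∈ (Icc 1 ⌊yy q⌋₊).filter (fun δ => ro (ww q) δ = δ ∧ Squarefree δ),
          (600 * (1 + |t|) ^ 2 / (Real.log q * Wp q)) ^ 2 *
          ((∏ p ∈ δ.primeFactors, (1 - 1 / (p : ℝ))⁻¹) ^ 2 / δ) := by
          apply Finset.sum_le_sum
          intro d hd
          rw [Finset.mem_filter, Finset.mem_Icc] at hd
          exact Quad_term hq t d hd.1.1 hd.1.2 hd.2.1
      _ ≤ _ := by
          rw [← Finset.mul_sum]
          apply mul_le_mul_of_nonneg_left (h₂ q hq2)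
          positivity
  calc C₁ * Real.log q * Wp q *
        ∑ δ ∈ (Icc 1 ⌊yy q⌋₊).filter (fun δ => ro (ww q) δ = δ ∧ Squarefree δ),
        (δ : ℝ) ^ (1 + 2 * al q) * ‖∑ m ∈ (Icc 1 ⌊yy q⌋₊).filter (fun m => δ ∣ m),
          Quad_l q t m * (m : ℂ) ^ (-((1 + 2 * al q : ℝ) : ℂ))‖ ^ 2
      ≤ C₁ * Real.log q * Wp q *
        ((600 * (1 + |t|) ^ 2 / (Real.log q * Wp q)) ^ 2 * (C₂ * Real.log q * Wp q)) :=
        mul_le_mul_of_nonneg_left hsum hZ
    _ = 360000 * C₁ * C₂ * (1 + |t|) ^ 4 := by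
        field_simp
        ring

end Pool.Agent.NV
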