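import Pool.Agent.Lib.MP_afd523_nt.Defs
import Pool.Agent.Lib.MP_afd523_nt.Quad
import Pool.Agent.Lib.MP_afd523_nt.STau
import Pool.Agent.Lib.MP_afd523_nt.SProd

namespace Pool.Agent.NV

open Finset Complex MeasureTheory

/-! Bounds for `Us`. -/

private lemma us_prod_nonneg (q : ℕ) (t : ℝ) :
    0 ≤ ∏ p ∈ (Icc 1 (ww q)).filter Nat.Prime,
      (1 + ‖1 - (p : ℂ) ^ st q t‖ ^ 2 / ((p : ℝ) - 1)) := by
  apply Finset.prod_nonneg
  intro p hp
  have hp2 : 2 ≤ p := (Finset.mem_filter.1 hp).2.two_le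
  have : (0 : ℝ) ≤ (p : ℝ) - 1 := by
    have : (2 : ℝ) ≤ (p : ℝ) := by exact_mod_cast hp2
    linarith
  positivity

private lemma us_sum_nonneg (q X : ℕ) (t : ℝ) (a : ℕ) :
    0 ≤ ∑ g ∈ (Icc 1 X).filter (fun g => ro (ww q) g = g),
      (g : ℝ) ^ (-(1 + 2 * al q)) * ‖Lam q t (a * g)‖ ^ 2 := by
  apply Finset.sum_nonneg
  intro g _
  have : (0 : ℝ) ≤ (g : ℝ) ^ (-(1 + 2 * al q)) := Real.rpow_nonneg (Nat.cast_nonneg g) _
  positivity

theorem us_one : ∃ C : ℝ, ∃ q₀ : ℕ, ∀ q X : ℕ, q₀ ≤ q → ∀ t : ℝ,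
    Us q X t 1 ≤ C * (1 + |t|) ^ 6 := by
  obtain ⟨C, q1, h1⟩ := quad
  obtain ⟨q2, h2⟩ := small_prod
  refine ⟨2 * |C|, max (max q1 q2) 1, ?_⟩
  intro q X hq t
  have hq1 : q1 ≤ q := le_trans (le_trans (le_max_left _ _) (le_max_left _ _)) hq
  have hq2 : q2 ≤ q := le_trans (le_trans (le_max_right _ _) (le_max_left _ _)) hq
  have hq3 : 1 ≤ q := le_trans (le_max_right _ _) hq
  have hs := h1 q X hq1 t
  obtain ⟨ha, hb⟩ := h2 q hq2 t
  have hP := us_prod_nonneg q t
  have hS := us_sum_nonneg q X t 1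
  unfold Us
  simp only [one_mul] at hS ⊢
  set P := ∏ p ∈ (Icc 1 (ww q)).filter Nat.Prime,
      (1 + ‖1 - (p : ℂ) ^ st q t‖ ^ 2 / ((p : ℝ) - 1)) with hPdef
  set S := ∑ g ∈ (Icc 1 X).filter (fun g => ro (ww q) g = g),
      (g : ℝ) ^ (-(1 + 2 * al q)) * ‖Lam q t g‖ ^ 2 with hSdef
  have ht : 1 ≤ 1 + |t| := by linarith [abs_nonneg t]
  have hS2 : S ≤ |C| * (1 + |t|) ^ 4 :=
    le_trans hs (mul_le_mul_of_nonneg_right (le_abs_self C) (by positivity))
  have hC : 0 ≤ |C| := abs_nonneg C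
  by_cases hc : |t| ≤ Real.sqrt (Real.log q)
  · have h2' := hb hc
    calc P * S ≤ 2 * (|C| * (1 + |t|) ^ 4) := mul_le_mul h2' hS2 hS (by norm_num)
      _ = 2 * |C| * (1 + |t|) ^ 4 := by ring
      _ ≤ 2 * |C| * (1 + |t|) ^ 6 := by
          apply mul_le_mul_of_nonneg_left _ (by positivity)
          exact pow_le_pow_right₀ ht (by norm_num)
  · push Not at hc
    have hlog : 0 ≤ Real.log q := Real.log_nonneg (by exact_mod_cast hq3)
    have h3 : Real.log q ≤ (1 + |t|) ^ 2 := by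
      have h4 : Real.log q = Real.sqrt (Real.log q) ^ 2 := (Real.sq_sqrt hlog).symm
      rw [h4]
      have h5 : Real.sqrt (Real.log q) ≤ 1 + |t| := by linarith
      exact pow_le_pow_left₀ (Real.sqrt_nonneg _) h5 2
    calc P * S ≤ (1 + |t|) ^ 2 * (|C| * (1 + |t|) ^ 4) :=
          mul_le_mul (le_trans ha h3) hS2 hS (by positivity)
      _ = |C| * (1 + |t|) ^ 6 := by ring
      _ ≤ 2 * |C| * (1 + |t|) ^ 6 := by
          have : 0 ≤ |C| * (1 + |t|) ^ 6 := by positivity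
          linarith

open Pointwise in
private lemma us_tau_mul (a g : ℕ) :
    (a * g).divisors.card ≤ a.divisors.card * g.divisors.card := by
  rw [Nat.divisors_mul]
  exact Finset.card_mul_le

private lemma us_PP_nonneg (q m : ℕ) : 0 ≤ PP q m := le_max_left _ _

private lemma us_PP_le (q m : ℕ) (hq : 3 ≤ q) : PP q m ≤ 1 := by
  unfold PP
  apply max_le zero_le_one
  have h1 : 0 ≤ Real.log m := Real.log_natCast_nonneg m
  have hq1 : (1 : ℝ) < q := by exact_mod_cast (by omega : 1 < q)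
  have h2 : 0 < Real.log (yy q) := by
    unfold yy
    rw [Real.log_rpow (by linarith)]
    have := Real.log_pos hq1
    positivity
  have : 0 ≤ Real.log m / Real.log (yy q) := by positivity
  linarith

private lemma us_term (q : ℕ) (hq : 3 ≤ q) (m : ℕ) (hm : 1 ≤ m) :
    PP q m * (m : ℝ) ^ al q ≤ Real.exp (1 / 100) := by
  have hq1 : (1 : ℝ) < q := by exact_mod_cast (by omega : 1 < q)
  have hlq : 0 < Real.log q := Real.log_pos hq1
  have hly : Real.log (yy q) = 1 / 100 * Real.log q := by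
    unfold yy
    rw [Real.log_rpow (by linarith)]
  have hm1 : (1 : ℝ) ≤ m := by exact_mod_cast hm
  have hmal : 0 ≤ (m : ℝ) ^ al q := Real.rpow_nonneg (by linarith) _
  by_cases h : Real.log m ≤ Real.log (yy q)
  · have h1 : (m : ℝ) ^ al q ≤ Real.exp (1 / 100) := by
      rw [Real.rpow_def_of_pos (by linarith)]
      apply Real.exp_le_exp.2
      unfold al
      rw [hly] at h
      rw [mul_one_div, div_le_iff₀ hlq]
      exact h
    calc PP q m * (m : ℝ) ^ al q ≤ 1 * (m : ℝ) ^ al q :=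
          mul_le_mul_of_nonneg_right (us_PP_le q m hq) hmal
      _ ≤ Real.exp (1 / 100) := by rw [one_mul]; exact h1
  · push Not at h
    have hpos : 0 < Real.log (yy q) := by rw [hly]; positivity
    have : PP q m = 0 := by
      unfold PP
      apply max_eq_left
      have : 1 < Real.log m / Real.log (yy q) := by
        rw [lt_div_iff₀ hpos]; linarith
      linarith
    rw [this, zero_mul]
    positivity

private lemma us_Lam (q : ℕ) (hq : 3 ≤ q) (t : ℝ) (N : ℕ) :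
    ‖Lam q t N‖ ≤ Real.exp (1 / 100) * N.divisors.card := by
  unfold Lam
  refine le_trans (norm_sum_le _ _) ?_
  have : ∀ m ∈ N.divisors,
      ‖((ArithmeticFunction.moebius m : ℝ) : ℂ) * (PP q m : ℂ) * (m : ℂ) ^ st q t‖ ≤
        Real.exp (1 / 100) := by
    intro m hm
    have hm1 : 1 ≤ m := Nat.pos_of_mem_divisors hm
    rw [norm_mul, norm_mul, Complex.norm_real, Complex.norm_real,
      Complex.norm_natCast_cpow_of_pos hm1]
    have hre : (st q t).re = al q := by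
      unfold st
      simp
    rw [hre, Real.norm_eq_abs, Real.norm_eq_abs, abs_of_nonneg (us_PP_nonneg q m)]
    have hmu : |((ArithmeticFunction.moebius m : ℤ) : ℝ)| ≤ 1 := by
      have := ArithmeticFunction.abs_moebius_le_one (n := m)
      exact_mod_cast this
    have hmal : 0 ≤ (m : ℝ) ^ al q := Real.rpow_nonneg (Nat.cast_nonneg m) _
    calc |((ArithmeticFunction.moebius m : ℤ) : ℝ)| * PP q m * (m : ℝ) ^ al q
        = |((ArithmeticFunction.moebius m : ℤ) : ℝ)| * (PP q m * (m : ℝ) ^ al q) := by ring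
      _ ≤ 1 * (PP q m * (m : ℝ) ^ al q) :=
          mul_le_mul_of_nonneg_right hmu (mul_nonneg (us_PP_nonneg q m) hmal)
      _ ≤ Real.exp (1 / 100) := by rw [one_mul]; exact us_term q hq m hm1
  refine le_trans (Finset.sum_le_sum this) ?_
  rw [Finset.sum_const, nsmul_eq_mul, mul_comm]

theorem us_gen : ∃ q₀ : ℕ, ∀ q X : ℕ, q₀ ≤ q → X ≤ q → ∀ (t : ℝ) (a : ℕ), 1 ≤ a →
    Us q X t a ≤ (a.divisors.card : ℝ) ^ 2 * (Real.log q) ^ 6 := by
  obtain ⟨q2, h2⟩ := small_prod
  refine ⟨max q2 (max 3 ⌈Real.exp 8⌉₊), ?_⟩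
  intro q X hq hX t a ha
  have hq2 : q2 ≤ q := le_trans (le_max_left _ _) hq
  have hq3 : 3 ≤ q := le_trans (le_trans (le_max_left _ _) (le_max_right _ _)) hq
  have hq8 : ⌈Real.exp 8⌉₊ ≤ q := le_trans (le_trans (le_max_right _ _) (le_max_right _ _)) hq
  have hqpos : (0 : ℝ) < q := by exact_mod_cast (by omega : 0 < q)
  have hL : 8 ≤ Real.log q := by
    rw [Real.le_log_iff_exp_le hqpos]
    exact Nat.ceil_le.1 hq8
  obtain ⟨hP, -⟩ := h2 q hq2 t
  have hP0 := us_prod_nonneg q t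
  have hal : 0 ≤ al q := by
    unfold al
    have : 0 < Real.log q := by linarith
    positivity
  unfold Us
  have hS : ∑ g ∈ (Icc 1 X).filter (fun g => ro (ww q) g = g),
      (g : ℝ) ^ (-(1 + 2 * al q)) * ‖Lam q t (a * g)‖ ^ 2 ≤
      Real.exp (1 / 50) * (a.divisors.card : ℝ) ^ 2 * (1 + Real.log q) ^ 4 := by
    have h1 : ∀ g ∈ (Icc 1 X).filter (fun g => ro (ww q) g = g),
        (g : ℝ) ^ (-(1 + 2 * al q)) * ‖Lam q t (a * g)‖ ^ 2 ≤
        Real.exp (1 / 50) * (a.divisors.card : ℝ) ^ 2 * ((g.divisors.card : ℝ) ^ 2 / g) := by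
      intro g hg
      have hg1 : 1 ≤ g := (Finset.mem_Icc.1 (Finset.mem_filter.1 hg).1).1
      have hgr : (1 : ℝ) ≤ g := by exact_mod_cast hg1
      have e1 : (g : ℝ) ^ (-(1 + 2 * al q)) ≤ 1 / g := by
        calc (g : ℝ) ^ (-(1 + 2 * al q)) ≤ (g : ℝ) ^ (-1 : ℝ) :=
              Real.rpow_le_rpow_of_exponent_le hgr (by linarith)
          _ = 1 / g := by rw [Real.rpow_neg_one, one_div]
      have e2 : ‖Lam q t (a * g)‖ ≤
          Real.exp (1 / 100) * ((a.divisors.card : ℝ) * g.divisors.card) := by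
        refine le_trans (us_Lam q hq3 t (a * g)) ?_
        apply mul_le_mul_of_nonneg_left _ (Real.exp_pos _).le
        exact_mod_cast us_tau_mul a g
      have e3 : ‖Lam q t (a * g)‖ ^ 2 ≤
          (Real.exp (1 / 100) * ((a.divisors.card : ℝ) * g.divisors.card)) ^ 2 :=
        pow_le_pow_left₀ (norm_nonneg _) e2 2
      have e4 : (Real.exp (1 / 100)) ^ 2 = Real.exp (1 / 50) := by
        rw [← Real.exp_nat_mul]; norm_num
      calc (g : ℝ) ^ (-(1 + 2 * al q)) * ‖Lam q t (a * g)‖ ^ 2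
          ≤ (1 / g) * (Real.exp (1 / 100) * ((a.divisors.card : ℝ) * g.divisors.card)) ^ 2 :=
            mul_le_mul e1 e3 (by positivity) (by positivity)
        _ = (Real.exp (1 / 100)) ^ 2 * (a.divisors.card : ℝ) ^ 2 *
              ((g.divisors.card : ℝ) ^ 2 / g) := by ring
        _ = _ := by rw [e4]
    calc ∑ g ∈ (Icc 1 X).filter (fun g => ro (ww q) g = g),
          (g : ℝ) ^ (-(1 + 2 * al q)) * ‖Lam q t (a * g)‖ ^ 2
        ≤ ∑ g ∈ (Icc 1 X).filter (fun g => ro (ww q) g = g),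
          Real.exp (1 / 50) * (a.divisors.card : ℝ) ^ 2 * ((g.divisors.card : ℝ) ^ 2 / g) :=
          Finset.sum_le_sum h1
      _ ≤ ∑ g ∈ Icc 1 X,
          Real.exp (1 / 50) * (a.divisors.card : ℝ) ^ 2 * ((g.divisors.card : ℝ) ^ 2 / g) := by
          apply Finset.sum_le_sum_of_subset_of_nonneg (Finset.filter_subset _ _)
          intro g _ _
          positivity
      _ = Real.exp (1 / 50) * (a.divisors.card : ℝ) ^ 2 *
          ∑ g ∈ Icc 1 X, (g.divisors.card : ℝ) ^ 2 / g := by rw [Finset.mul_sum]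
      _ ≤ Real.exp (1 / 50) * (a.divisors.card : ℝ) ^ 2 * (1 + Real.log X) ^ 4 :=
          mul_le_mul_of_nonneg_left (sum_tau_sq X) (by positivity)
      _ ≤ _ := by
          apply mul_le_mul_of_nonneg_left _ (by positivity)
          have h3 : Real.log X ≤ Real.log q := by
            rcases Nat.eq_zero_or_pos X with h0 | h0
            · rw [h0]; simp; linarith
            · exact Real.log_le_log (by exact_mod_cast h0) (by exact_mod_cast hX)
          have h4 : 0 ≤ Real.log X := Real.log_natCast_nonneg X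
          exact pow_le_pow_left₀ (by linarith) (by linarith) 4
  have hS0 := us_sum_nonneg q X t a
  have hexp : Real.exp (1 / 50) ≤ 2 := by
    have h := Real.exp_one_lt_d9
    have h5 : Real.exp (1 / 50) ^ 50 = Real.exp 1 := by
      rw [← Real.exp_nat_mul]; norm_num
    by_contra hcon
    push Not at hcon
    have h6 : (2 : ℝ) ^ 50 ≤ Real.exp (1 / 50) ^ 50 := pow_le_pow_left₀ (by norm_num) hcon.le 50
    rw [h5] at h6
    norm_num at h6
    linarith
  set L := Real.log q with hLdef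
  have hfin : 2 * (1 + L) ^ 4 ≤ L ^ 5 := by
    have h7 : 1 + L ≤ 9 / 8 * L := by linarith
    have h8 : (1 + L) ^ 4 ≤ (9 / 8 * L) ^ 4 := pow_le_pow_left₀ (by linarith) h7 4
    have h9 : 0 ≤ L ^ 4 := by positivity
    calc 2 * (1 + L) ^ 4 ≤ 2 * (9 / 8 * L) ^ 4 := by linarith
      _ = (2 * (9 / 8) ^ 4) * L ^ 4 := by ring
      _ ≤ 8 * L ^ 4 := by
          apply mul_le_mul_of_nonneg_right _ h9
          norm_num
      _ ≤ L * L ^ 4 := mul_le_mul_of_nonneg_right hL h9
      _ = L ^ 5 := by ring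
  calc (∏ p ∈ (Icc 1 (ww q)).filter Nat.Prime,
          (1 + ‖1 - (p : ℂ) ^ st q t‖ ^ 2 / ((p : ℝ) - 1))) *
        ∑ g ∈ (Icc 1 X).filter (fun g => ro (ww q) g = g),
          (g : ℝ) ^ (-(1 + 2 * al q)) * ‖Lam q t (a * g)‖ ^ 2
      ≤ L * (Real.exp (1 / 50) * (a.divisors.card : ℝ) ^ 2 * (1 + L) ^ 4) :=
        mul_le_mul hP hS hS0 (by linarith)
    _ = (a.divisors.card : ℝ) ^ 2 * (L * (Real.exp (1 / 50) * (1 + L) ^ 4)) := by ring
    _ ≤ (a.divisors.card : ℝ) ^ 2 * (L * L ^ 5) := by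
        apply mul_le_mul_of_nonneg_left _ (by positivity)
        apply mul_le_mul_of_nonneg_left _ (by linarith)
        refine le_trans ?_ hfin
        exact mul_le_mul_of_nonneg_right hexp (by positivity)
    _ = (a.divisors.card : ℝ) ^ 2 * L ^ 6 := by ring

end Pool.Agent.NV
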