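import Pool.Agent.Lib.MP_afd523_nt.Defs
import Pool.Agent.Lib.MP_afd523_nt.Parts
import Pool.Agent.Lib.MP_afd523_nt.Euler

/-!
Module UT: separation of the smooth part.
-/

namespace Pool.Agent.NV

open Finset Complex MeasureTheory

/-- the local factor outside the primes of `A` -/
noncomputable def Ut_b (q : ℕ) (t : ℝ) (A : Finset ℕ) (p : ℕ) : ℝ :=
  if p ∈ A then 1 else ‖1 - (p : ℂ) ^ st q t‖ ^ 2

/-- the smooth function -/
noncomputable def Ut_F (q : ℕ) (t : ℝ) (A : Finset ℕ) (n : ℕ) : ℝ :=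
  (n : ℝ) ^ (-(1 + 2 * al q)) * ∏ p ∈ n.primeFactors, Ut_b q t A p

theorem Ut_b_nonneg (q : ℕ) (t : ℝ) (A : Finset ℕ) (p : ℕ) : 0 ≤ Ut_b q t A p := by
  unfold Ut_b
  split_ifs
  · exact zero_le_one
  · positivity

theorem Ut_F_nonneg (q : ℕ) (t : ℝ) (A : Finset ℕ) (n : ℕ) : 0 ≤ Ut_F q t A n :=
  mul_nonneg (Real.rpow_nonneg (Nat.cast_nonneg n) _)
    (Finset.prod_nonneg fun p _ => Ut_b_nonneg q t A p)

theorem Ut_F_one (q : ℕ) (t : ℝ) (A : Finset ℕ) : Ut_F q t A 1 = 1 := by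
  simp [Ut_F]

theorem Ut_F_mul (q : ℕ) (t : ℝ) (A : Finset ℕ) (a b : ℕ) (h : Nat.Coprime a b) :
    Ut_F q t A (a * b) = Ut_F q t A a * Ut_F q t A b := by
  rcases Nat.eq_zero_or_pos a with ha | ha
  · subst ha
    have hb : b = 1 := (Nat.coprime_zero_left b).1 h
    subst hb
    rw [mul_one, Ut_F_one, mul_one]
  rcases Nat.eq_zero_or_pos b with hb | hb
  · subst hb
    have ha1 : a = 1 := (Nat.coprime_zero_right a).1 h
    subst ha1
    rw [one_mul, Ut_F_one, one_mul]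
  unfold Ut_F
  rw [Nat.primeFactors_mul ha.ne' hb.ne', Finset.prod_union h.disjoint_primeFactors, Nat.cast_mul,
    Real.mul_rpow (Nat.cast_nonneg a) (Nat.cast_nonneg b)]
  ring

theorem Ut_al_nonneg {q : ℕ} (hq : 3 ≤ q) : 0 ≤ al q := by
  unfold al
  exact div_nonneg zero_le_one (Real.log_nonneg (by exact_mod_cast (by omega : 1 ≤ q)))

theorem Ut_geom {p : ℕ} (hp : 2 ≤ p) (K : ℕ) :
    ∑ k ∈ range K, ((p : ℝ) ^ (k + 1))⁻¹ ≤ 1 / ((p : ℝ) - 1) := by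
  have hp2 : (2 : ℝ) ≤ p := by exact_mod_cast hp
  have hp0 : (0 : ℝ) < (p : ℝ) - 1 := by linarith
  have hpp : (0 : ℝ) < (p : ℝ) := by linarith
  have key : ∀ K : ℕ, ∑ k ∈ range K, ((p : ℝ) ^ (k + 1))⁻¹ =
      (1 - ((p : ℝ) ^ K)⁻¹) / ((p : ℝ) - 1) := by
    intro K
    induction K with
    | zero => simp
    | succ n ih =>
      rw [Finset.sum_range_succ, ih]
      have h1 : (p : ℝ) ^ n ≠ 0 := (pow_pos hpp n).ne'
      have h2 : (p : ℝ) ≠ 0 := hpp.ne'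
      have h3 : (p : ℝ) - 1 ≠ 0 := hp0.ne'
      field_simp
      ring
  rw [key]
  apply div_le_div_of_nonneg_right _ hp0.le
  have : 0 ≤ ((p : ℝ) ^ K)⁻¹ := by positivity
  linarith

theorem Ut_F_pow {q : ℕ} (hq : 3 ≤ q) (t : ℝ) (A : Finset ℕ) {p : ℕ} (hp : p.Prime) (K : ℕ) :
    ∑ k ∈ range K, Ut_F q t A (p ^ (k + 1)) ≤ Ut_b q t A p / ((p : ℝ) - 1) := by
  have hal := Ut_al_nonneg hq
  have hp1 : (1 : ℝ) ≤ p := by exact_mod_cast hp.one_lt.le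
  have h1 : ∀ k ∈ range K, Ut_F q t A (p ^ (k + 1)) ≤ ((p : ℝ) ^ (k + 1))⁻¹ * Ut_b q t A p := by
    intro k _
    unfold Ut_F
    rw [Nat.primeFactors_prime_pow (Nat.succ_ne_zero k) hp, Finset.prod_singleton]
    apply mul_le_mul_of_nonneg_right _ (Ut_b_nonneg q t A p)
    rw [Nat.cast_pow]
    have h2 : (1 : ℝ) ≤ (p : ℝ) ^ (k + 1) := one_le_pow₀ hp1
    calc ((p : ℝ) ^ (k + 1)) ^ (-(1 + 2 * al q)) ≤ ((p : ℝ) ^ (k + 1)) ^ (-1 : ℝ) :=
          Real.rpow_le_rpow_of_exponent_le h2 (by linarith)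
      _ = ((p : ℝ) ^ (k + 1))⁻¹ := Real.rpow_neg_one _
  refine (Finset.sum_le_sum h1).trans ?_
  rw [← Finset.sum_mul]
  calc (∑ k ∈ range K, ((p : ℝ) ^ (k + 1))⁻¹) * Ut_b q t A p
      ≤ 1 / ((p : ℝ) - 1) * Ut_b q t A p :=
        mul_le_mul_of_nonneg_right (Ut_geom hp.two_le K) (Ut_b_nonneg q t A p)
    _ = Ut_b q t A p / ((p : ℝ) - 1) := by ring

theorem Ut_prod_le (w q : ℕ) (t : ℝ) (A : Finset ℕ)
    (hA : A ⊆ (Icc 1 w).filter Nat.Prime) :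
    ∏ p ∈ (Icc 1 w).filter Nat.Prime, (1 + Ut_b q t A p / ((p : ℝ) - 1)) ≤
      2 ^ A.card * ∏ p ∈ (Icc 1 w).filter Nat.Prime,
        (1 + ‖1 - (p : ℂ) ^ st q t‖ ^ 2 / ((p : ℝ) - 1)) := by
  have h2 : (2 : ℝ) ^ A.card =
      ∏ p ∈ (Icc 1 w).filter Nat.Prime, (if p ∈ A then (2 : ℝ) else 1) := by
    rw [Finset.prod_ite, Finset.prod_const_one, mul_one, Finset.prod_const]
    congr 2
    ext p
    simp only [Finset.mem_filter]
    constructor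
    · intro h
      have := hA h
      rw [Finset.mem_filter] at this
      exact ⟨this, h⟩
    · exact fun h => h.2
  rw [h2, ← Finset.prod_mul_distrib]
  apply Finset.prod_le_prod
  · intro p hp
    have hp2 : (2 : ℝ) ≤ p := by exact_mod_cast (Finset.mem_filter.1 hp).2.two_le
    have := div_nonneg (Ut_b_nonneg q t A p) (by linarith : (0 : ℝ) ≤ (p : ℝ) - 1)
    linarith
  · intro p hp
    have hp2 : (2 : ℝ) ≤ p := by exact_mod_cast (Finset.mem_filter.1 hp).2.two_le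
    have hpos : (0 : ℝ) < (p : ℝ) - 1 := by linarith
    unfold Ut_b
    by_cases h : p ∈ A
    · rw [if_pos h, if_pos h]
      have h3 : 1 / ((p : ℝ) - 1) ≤ 1 := by
        rw [div_le_one hpos]
        linarith
      have h4 : 0 ≤ ‖1 - (p : ℂ) ^ st q t‖ ^ 2 / ((p : ℝ) - 1) := by positivity
      linarith
    · rw [if_neg h, if_neg h, one_mul]

theorem ut (q X : ℕ) (hq : 3 ≤ q) (t : ℝ) (a : ℕ) (ha : 1 ≤ a) :
    ∑ g ∈ Icc 1 X, (g : ℝ) ^ (-(1 + 2 * al q)) * ‖ct q t (a * g)‖ ^ 2 ≤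
      2 ^ (a.primeFactors.filter (fun p => p ≤ ww q)).card *
      (∏ p ∈ a.primeFactors.filter (fun p => p ≤ ww q), ‖1 - (p : ℂ) ^ st q t‖ ^ 2) *
      Us q X t (ro (ww q) a) := by
  set w := ww q with hw
  set A := a.primeFactors.filter (fun p => p ≤ w) with hAdef
  have hAsub : A ⊆ (Icc 1 w).filter Nat.Prime := by
    intro p hp
    rw [hAdef, Finset.mem_filter] at hp
    have hpp := Nat.prime_of_mem_primeFactors hp.1
    rw [Finset.mem_filter, Finset.mem_Icc]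
    exact ⟨⟨hpp.one_lt.le, hp.2⟩, hpp⟩
  set G : ℕ → ℝ := fun r => (r : ℝ) ^ (-(1 + 2 * al q)) * ‖Lam q t (ro w a * r)‖ ^ 2 with hG
  have hG0 : ∀ n, 0 ≤ G n := fun n =>
    mul_nonneg (Real.rpow_nonneg (Nat.cast_nonneg n) _) (by positivity)
  set PA : ℝ := ∏ p ∈ A, ‖1 - (p : ℂ) ^ st q t‖ ^ 2 with hPA
  have hPA0 : 0 ≤ PA := Finset.prod_nonneg fun p _ => by positivity
  have hterm : ∀ g ∈ Icc 1 X, (g : ℝ) ^ (-(1 + 2 * al q)) * ‖ct q t (a * g)‖ ^ 2 =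
      PA * (Ut_F q t A (sm w g) * G (ro w g)) := by
    intro g hg
    have hg1 : 1 ≤ g := (Finset.mem_Icc.1 hg).1
    have hg0 : g ≠ 0 := by omega
    have ha0 : a ≠ 0 := by omega
    have h1 : (g : ℝ) ^ (-(1 + 2 * al q)) =
        (sm w g : ℝ) ^ (-(1 + 2 * al q)) * (ro w g : ℝ) ^ (-(1 + 2 * al q)) := by
      rw [← Real.mul_rpow (Nat.cast_nonneg _) (Nat.cast_nonneg _), ← Nat.cast_mul,
        sm_mul_ro w hg0]
    have h2 : ‖ct q t (a * g)‖ ^ 2 =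
        (∏ p ∈ (a * g).primeFactors.filter (fun p => p ≤ w), ‖1 - (p : ℂ) ^ st q t‖ ^ 2) *
          ‖Lam q t (ro w a * ro w g)‖ ^ 2 := by
      unfold ct
      rw [norm_mul, mul_pow, norm_prod, ← Finset.prod_pow, ← hw, ro_mul w ha0 hg0]
    have h3 : ∏ p ∈ (a * g).primeFactors.filter (fun p => p ≤ w), ‖1 - (p : ℂ) ^ st q t‖ ^ 2 =
        PA * ∏ p ∈ (sm w g).primeFactors, Ut_b q t A p := by
      rw [primeFactors_sm, Nat.primeFactors_mul ha0 hg0, Finset.filter_union, ← hAdef]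
      set B := g.primeFactors.filter (fun p => p ≤ w) with hB
      have h4 : ∏ p ∈ B, Ut_b q t A p = ∏ p ∈ B \ A, ‖1 - (p : ℂ) ^ st q t‖ ^ 2 := by
        unfold Ut_b
        rw [Finset.prod_ite, Finset.prod_const_one, one_mul]
        congr 1
        ext p
        simp only [Finset.mem_filter, Finset.mem_sdiff]
      rw [h4, hPA, ← Finset.prod_union Finset.disjoint_sdiff, Finset.union_sdiff_self_eq_union]
    rw [h1, h2, h3, hG]
    unfold Ut_F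
    ring
  rw [Finset.sum_congr rfl hterm, ← Finset.mul_sum]
  have hsplit := sum_split w X (Ut_F q t A) G (Ut_F_nonneg q t A) hG0
  have hE : ∑ s ∈ (Icc 1 X).filter (fun s => sm w s = s), Ut_F q t A s ≤
      ∏ p ∈ (Icc 1 w).filter Nat.Prime, (1 + Ut_b q t A p / ((p : ℝ) - 1)) :=
    euler_le w X (Ut_F q t A) _ (Ut_F_nonneg q t A) (Ut_F_one q t A) (Ut_F_mul q t A)
      fun p hp _ K => Ut_F_pow hq t A hp K
  have hE2 := hE.trans (Ut_prod_le w q t A hAsub)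
  have hGs : 0 ≤ ∑ r ∈ (Icc 1 X).filter (fun r => ro w r = r), G r :=
    Finset.sum_nonneg fun r _ => hG0 r
  calc PA * ∑ g ∈ Icc 1 X, Ut_F q t A (sm w g) * G (ro w g)
      ≤ PA * ((∑ s ∈ (Icc 1 X).filter (fun s => sm w s = s), Ut_F q t A s) *
          ∑ r ∈ (Icc 1 X).filter (fun r => ro w r = r), G r) :=
        mul_le_mul_of_nonneg_left hsplit hPA0
    _ ≤ PA * ((2 ^ A.card * ∏ p ∈ (Icc 1 w).filter Nat.Prime,
          (1 + ‖1 - (p : ℂ) ^ st q t‖ ^ 2 / ((p : ℝ) - 1))) *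
          ∑ r ∈ (Icc 1 X).filter (fun r => ro w r = r), G r) :=
        mul_le_mul_of_nonneg_left (mul_le_mul_of_nonneg_right hE2 hGs) hPA0
    _ = 2 ^ A.card * PA * Us q X t (ro w a) := by
        unfold Us
        rw [← hw, hG]
        ring

end Pool.Agent.NV
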