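import Pool.Agent.Lib.MP_afd523_nt.Defs
import Pool.Agent.Lib.MP_afd523_nt.Parts
import Pool.Agent.Lib.MP_afd523_nt.Rep
import Pool.Agent.Lib.MP_afd523_nt.Mom
import Pool.Agent.Lib.MP_afd523_nt.Ut
import Pool.Agent.Lib.MP_afd523_nt.Us
import Pool.Agent.Lib.MP_afd523_nt.Rank
import Pool.Agent.Lib.MP_afd523_nt.SProd

/-!
# Project NV: the diagonal sums `DD`
-/

namespace Pool.Agent.NV

open Finset Complex MeasureTheory

/-! ### truncated and untruncated weights -/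

theorem Diag_Phi {μ : Measure ℝ} {C : ℝ} {K : ℕ} (h : Smooth μ C K) (q : ℕ) (r : ℝ) (n : ℕ) :
    0 ≤ Phi μ q r n ∧ Phi μ q r n ≤ 1 := by
  have := h.prob
  exact ⟨measureReal_nonneg, measureReal_le_one⟩

theorem Diag_PP (q m : ℕ) : 0 ≤ PP q m ∧ PP q m ≤ 1 := by
  unfold PP
  refine ⟨le_max_left _ _, max_le zero_le_one ?_⟩
  have h1 : 0 ≤ Real.log m := Real.log_natCast_nonneg m
  have h2 : 0 ≤ Real.log (yy q) := by
    unfold yy
    rcases Nat.eq_zero_or_pos q with h | h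
    · subst h
      simp
    · apply Real.log_nonneg
      exact Real.one_le_rpow (by exact_mod_cast h) (by norm_num)
  have := div_nonneg h1 h2
  linarith

theorem Diag_lam (q m : ℕ) : |lamf q m| ≤ 1 := by
  unfold lamf
  rw [abs_mul, abs_of_nonneg (Diag_PP q _).1]
  have h1 : |(ArithmeticFunction.moebius m : ℝ)| ≤ 1 := by
    exact_mod_cast ArithmeticFunction.abs_moebius_le_one
  calc |(ArithmeticFunction.moebius m : ℝ)| * PP q (ro (ww q) m) ≤ 1 * 1 :=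
        mul_le_mul h1 (Diag_PP q _).2 (Diag_PP q _).1 zero_le_one
    _ = 1 := one_mul 1

theorem Diag_sm_le (w : ℕ) {m N : ℕ} (hN : N ≠ 0) (hm : m ∣ N) : sm w m ≤ sm w N := by
  obtain ⟨k, rfl⟩ := hm
  have hm0 : m ≠ 0 := fun h => hN (by simp [h])
  have hk0 : k ≠ 0 := fun h => hN (by simp [h])
  rw [sm_mul w hm0 hk0]
  exact Nat.le_mul_of_pos_right _ (Nat.pos_of_ne_zero (sm_ne_zero w k))

theorem Diag_diff {μ : Measure ℝ} {C : ℝ} {K : ℕ} (h : Smooth μ C K) (q : ℕ) (r : ℝ) {N : ℕ}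
    (hN : N ≠ 0) : |CN μ q r N - CF μ q r N| ≤
      if yy q < (sm (ww q) N : ℝ) then (N.divisors.card : ℝ) else 0 := by
  split_ifs with hy
  · unfold CN CF
    rw [← Finset.sum_sub_distrib]
    have hterm : ∀ m ∈ N.divisors, |lamq q m * Phi μ q r (N / m) - lamf q m * Phi μ q r (N / m)| ≤
        1 := by
      intro m _
      rw [← sub_mul, abs_mul, abs_of_nonneg (Diag_Phi h q r _).1]
      have h1 : |lamq q m - lamf q m| ≤ 1 := by
        unfold lamq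
        split_ifs
        · simp
        · rw [zero_sub, abs_neg]
          exact Diag_lam q m
      calc |lamq q m - lamf q m| * Phi μ q r (N / m) ≤ 1 * 1 :=
            mul_le_mul h1 (Diag_Phi h q r _).2 (Diag_Phi h q r _).1 zero_le_one
        _ = 1 := one_mul 1
    calc |∑ m ∈ N.divisors, (lamq q m * Phi μ q r (N / m) - lamf q m * Phi μ q r (N / m))|
        ≤ ∑ m ∈ N.divisors, |lamq q m * Phi μ q r (N / m) - lamf q m * Phi μ q r (N / m)| :=
          Finset.abs_sum_le_sum_abs _ _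
      _ ≤ ∑ m ∈ N.divisors, (1 : ℝ) := Finset.sum_le_sum hterm
      _ = N.divisors.card := by simp
  · have h1 : CN μ q r N = CF μ q r N := by
      unfold CN CF
      refine Finset.sum_congr rfl fun m hm => ?_
      have h2 := Diag_sm_le (ww q) hN (Nat.dvd_of_mem_divisors hm)
      have h3 : (sm (ww q) m : ℝ) ≤ yy q := by
        have : (sm (ww q) m : ℝ) ≤ sm (ww q) N := by exact_mod_cast h2
        exact this.trans (not_lt.1 hy)
      unfold lamq
      rw [if_pos h3]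
    rw [h1]
    simp

theorem Diag_split {μ : Measure ℝ} {C : ℝ} {K : ℕ} (h : Smooth μ C K) (q : ℕ) (r : ℝ) (a : ℕ)
    (ha : 1 ≤ a) : DD μ q r a ≤ 2 * ∑ g ∈ Icc 1 q, (CF μ q r (a * g)) ^ 2 / g +
      2 * ∑ g ∈ (Icc 1 q).filter (fun g => yy q < (sm (ww q) (a * g) : ℝ)),
        ((a * g).divisors.card : ℝ) ^ 2 / g := by
  unfold DD
  rw [Finset.sum_filter, Finset.mul_sum, Finset.mul_sum, ← Finset.sum_add_distrib]
  refine Finset.sum_le_sum fun g hg => ?_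
  have hg1 : 1 ≤ g := (Finset.mem_Icc.1 hg).1
  have hg0 : (0 : ℝ) < g := by exact_mod_cast hg1
  have hN : a * g ≠ 0 := by positivity
  have hd := Diag_diff h q r hN
  set D := CN μ q r (a * g) - CF μ q r (a * g) with hD
  have hCN : CN μ q r (a * g) = CF μ q r (a * g) + D := by rw [hD]; ring
  have h1 : D ^ 2 ≤ if yy q < (sm (ww q) (a * g) : ℝ) then ((a * g).divisors.card : ℝ) ^ 2
      else 0 := by
    rw [← sq_abs]
    split_ifs at hd ⊢ with hy
    · exact pow_le_pow_left₀ (abs_nonneg _) hd 2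
    · have : |D| = 0 := le_antisymm hd (abs_nonneg _)
      rw [this]
      norm_num
  have h2 : (CN μ q r (a * g)) ^ 2 ≤ 2 * (CF μ q r (a * g)) ^ 2 + 2 * D ^ 2 := by
    rw [hCN]
    nlinarith [sq_nonneg (CF μ q r (a * g) - D)]
  have h3 : (if yy q < (sm (ww q) (a * g) : ℝ) then ((a * g).divisors.card : ℝ) ^ 2 / g else 0) =
      (if yy q < (sm (ww q) (a * g) : ℝ) then ((a * g).divisors.card : ℝ) ^ 2 else 0) / g := by
    split_ifs <;> simp
  rw [h3]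
  rw [← mul_div_assoc, ← mul_div_assoc, ← add_div]
  exact div_le_div_of_nonneg_right (by linarith) hg0.le

/-! ### the Dirichlet polynomial -/

/-- the arithmetic function `n ^ s` -/
noncomputable def Diag_pow (s : ℂ) : ArithmeticFunction ℂ := ⟨fun n => if n = 0 then 0 else (n : ℂ) ^ s, by simp⟩

theorem Diag_pow_mult (s : ℂ) : (Diag_pow s).IsMultiplicative := by
  constructor
  · simp [Diag_pow]
  · intro m n _
    show (if m * n = 0 then (0 : ℂ) else ((m * n : ℕ) : ℂ) ^ s) =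
      (if m = 0 then 0 else (m : ℂ) ^ s) * (if n = 0 then 0 else (n : ℂ) ^ s)
    by_cases hm : m = 0
    · simp [hm]
    by_cases hn : n = 0
    · simp [hn]
    have hmn : m * n ≠ 0 := mul_ne_zero hm hn
    rw [if_neg hm, if_neg hn, if_neg hmn]
    push_cast
    exact natCast_mul_natCast_cpow m n s

theorem Diag_musum {n : ℕ} (hn : n ≠ 0) (s : ℂ) :
    ∑ d ∈ n.divisors, ((ArithmeticFunction.moebius d : ℝ) : ℂ) * (d : ℂ) ^ s =
      ∏ p ∈ n.primeFactors, (1 - (p : ℂ) ^ s) := by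
  set R := ∏ p ∈ n.primeFactors, p with hR
  have hR0 : R ≠ 0 := Finset.prod_ne_zero_iff.2 fun p hp => (Nat.prime_of_mem_primeFactors hp).ne_zero
  have hRn : R ∣ n := Nat.prod_primeFactors_dvd n
  have hRpf : R.primeFactors = n.primeFactors :=
    Nat.primeFactors_prod fun p hp => Nat.prime_of_mem_primeFactors hp
  have hRsq : Squarefree R := by
    rw [hR]
    apply Finset.squarefree_prod_of_pairwise_isCoprime
    · intro p hp p' hp' hne
      exact Nat.coprime_iff_isRelPrime.1 ((Nat.coprime_primes (Nat.prime_of_mem_primeFactors hp)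
        (Nat.prime_of_mem_primeFactors hp')).2 hne)
    · intro p hp
      exact (Nat.prime_of_mem_primeFactors hp).squarefree
  have h1 := ArithmeticFunction.IsMultiplicative.prodPrimeFactors_one_sub_of_squarefree
    (Diag_pow s) (Diag_pow_mult s) hRsq
  rw [hRpf] at h1
  have h2 : ∏ p ∈ n.primeFactors, (1 - Diag_pow s p) = ∏ p ∈ n.primeFactors, (1 - (p : ℂ) ^ s) := by
    refine Finset.prod_congr rfl fun p hp => ?_
    have hp0 : p ≠ 0 := (Nat.prime_of_mem_primeFactors hp).ne_zero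
    show 1 - (if p = 0 then (0 : ℂ) else (p : ℂ) ^ s) = _
    rw [if_neg hp0]
  rw [← h2, h1]
  symm
  have hsub : R.divisors ⊆ n.divisors := Nat.divisors_subset_of_dvd hn hRn
  rw [← Finset.sum_subset hsub]
  · refine Finset.sum_congr rfl fun d hd => ?_
    have hd0 : d ≠ 0 := (Nat.pos_of_mem_divisors hd).ne'
    show ((ArithmeticFunction.moebius d : ℤ) : ℂ) * (if d = 0 then (0 : ℂ) else (d : ℂ) ^ s) = _
    rw [if_neg hd0]
    push_cast
    rfl
  · intro d hd hdR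
    have hd0 : d ≠ 0 := (Nat.pos_of_mem_divisors hd).ne'
    have hns : ¬ Squarefree d := by
      intro hsq
      apply hdR
      rw [Nat.mem_divisors]
      refine ⟨?_, hR0⟩
      rw [← Nat.prod_primeFactors_of_squarefree hsq, hR]
      exact Finset.prod_dvd_prod_of_subset _ _ _
        (Nat.primeFactors_mono (Nat.dvd_of_mem_divisors hd) hn)
    rw [ArithmeticFunction.moebius_eq_zero_of_not_squarefree hns]
    simp

theorem Diag_ct (q : ℕ) (t : ℝ) {N : ℕ} (hN : N ≠ 0) :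
    ∑ m ∈ N.divisors, (lamf q m : ℂ) * (m : ℂ) ^ st q t = ct q t N := by
  have h1 := divisors_split (ww q) hN
    (fun d => ((ArithmeticFunction.moebius d : ℝ) : ℂ) * (d : ℂ) ^ st q t)
    (fun m => ((ArithmeticFunction.moebius m : ℝ) : ℂ) * (PP q m : ℂ) * (m : ℂ) ^ st q t)
  rw [Diag_musum (sm_ne_zero _ _), primeFactors_sm] at h1
  unfold ct Lam
  rw [← h1]
  refine Finset.sum_congr rfl fun m hm => ?_
  have hm0 : m ≠ 0 := (Nat.pos_of_mem_divisors hm).ne'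
  have h2 : (ArithmeticFunction.moebius m : ℝ) =
      (ArithmeticFunction.moebius (sm (ww q) m) : ℝ) *
        (ArithmeticFunction.moebius (ro (ww q) m) : ℝ) := by
    have := ArithmeticFunction.isMultiplicative_moebius.map_mul_of_coprime
      (coprime_sm_ro (ww q) m m)
    rw [sm_mul_ro (ww q) hm0] at this
    rw [this]
    push_cast
    rfl
  have h3 : (m : ℂ) ^ st q t = (sm (ww q) m : ℂ) ^ st q t * (ro (ww q) m : ℂ) ^ st q t := by
    rw [← natCast_mul_natCast_cpow]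
    congr 1
    exact_mod_cast (sm_mul_ro (ww q) hm0).symm
  unfold lamf
  rw [h2, h3]
  push_cast
  ring

/-! ### the integral representation -/

theorem Diag_st_re (q : ℕ) (t : ℝ) : (st q t).re = al q := by simp [st]

theorem Diag_norm_cpow (q : ℕ) (t : ℝ) {x : ℝ} (hx : 0 < x) : ‖(x : ℂ) ^ st q t‖ = x ^ al q := by
  rw [Complex.norm_cpow_eq_rpow_re_of_pos hx, Diag_st_re]

theorem Diag_norm_cpow_neg (q : ℕ) (t : ℝ) {x : ℝ} (hx : 0 < x) :
    ‖(x : ℂ) ^ (-st q t)‖ = x ^ (-al q) := by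
  rw [Complex.norm_cpow_eq_rpow_re_of_pos hx, Complex.neg_re, Diag_st_re]

theorem Diag_st_cont (q : ℕ) : Continuous (st q) := by
  unfold st
  fun_prop

/-- the integrand -/
noncomputable def Diag_A (q : ℕ) (r : ℝ) (N : ℕ) (t : ℝ) : ℂ :=
  (r : ℂ) ^ st q t * (N : ℂ) ^ (-st q t) * ct q t N

theorem Diag_ct_cont (q : ℕ) {N : ℕ} (hN : N ≠ 0) : Continuous (fun t => ct q t N) := by
  have h1 : (fun t => ct q t N) = fun t => ∑ m ∈ N.divisors, (lamf q m : ℂ) * (m : ℂ) ^ st q t :=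
    funext fun t => (Diag_ct q t hN).symm
  rw [h1]
  refine continuous_finsetSum _ fun m hm => ?_
  have hm0 : (m : ℂ) ≠ 0 := by exact_mod_cast (Nat.pos_of_mem_divisors hm).ne'
  exact continuous_const.mul ((Diag_st_cont q).const_cpow (Or.inl hm0))

theorem Diag_ct_bound (q : ℕ) (t : ℝ) {N : ℕ} (hN : N ≠ 0) :
    ‖ct q t N‖ ≤ ∑ m ∈ N.divisors, (m : ℝ) ^ al q := by
  rw [← Diag_ct q t hN]
  refine (norm_sum_le _ _).trans (Finset.sum_le_sum fun m hm => ?_)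
  have hm0 : (0 : ℝ) < m := by exact_mod_cast Nat.pos_of_mem_divisors hm
  have h1 : ‖(m : ℂ) ^ st q t‖ = (m : ℝ) ^ al q := by
    have := Diag_norm_cpow q t hm0
    simpa using this
  rw [norm_mul, h1, Complex.norm_real, Real.norm_eq_abs]
  have h2 := Diag_lam q m
  have h3 : 0 ≤ (m : ℝ) ^ al q := by positivity
  calc |lamf q m| * (m : ℝ) ^ al q ≤ 1 * (m : ℝ) ^ al q := mul_le_mul_of_nonneg_right h2 h3
    _ = _ := one_mul _

theorem Diag_pow_cont (q : ℕ) {r : ℝ} (hr : 0 < r) {n : ℕ} (hn : n ≠ 0) :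
    Continuous (fun t => (r : ℂ) ^ st q t * (n : ℂ) ^ (-st q t)) := by
  have hr0 : (r : ℂ) ≠ 0 := by exact_mod_cast hr.ne'
  have hn0 : (n : ℂ) ≠ 0 := by exact_mod_cast hn
  exact ((Diag_st_cont q).const_cpow (Or.inl hr0)).mul
    ((Diag_st_cont q).neg.const_cpow (Or.inl hn0))

theorem Diag_pow_norm (q : ℕ) (t : ℝ) {r : ℝ} (hr : 0 < r) {n : ℕ} (hn : n ≠ 0) :
    ‖(r : ℂ) ^ st q t * (n : ℂ) ^ (-st q t)‖ = r ^ al q * (n : ℝ) ^ (-al q) := by
  have hn0 : (0 : ℝ) < n := by exact_mod_cast Nat.pos_of_ne_zero hn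
  rw [norm_mul, Diag_norm_cpow q t hr]
  have := Diag_norm_cpow_neg q t hn0
  simp only [ofReal_natCast] at this
  rw [this]

theorem Diag_A_cont (q : ℕ) {r : ℝ} (hr : 0 < r) {N : ℕ} (hN : N ≠ 0) :
    Continuous (Diag_A q r N) :=
  (Diag_pow_cont q hr hN).mul (Diag_ct_cont q hN)

theorem Diag_A_norm (q : ℕ) (t : ℝ) {r : ℝ} (hr : 0 < r) {N : ℕ} (hN : N ≠ 0) :
    ‖Diag_A q r N t‖ = r ^ al q * (N : ℝ) ^ (-al q) * ‖ct q t N‖ := by
  unfold Diag_A
  rw [norm_mul, Diag_pow_norm q t hr hN]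

theorem Diag_A_bound (q : ℕ) {r : ℝ} (hr : 0 < r) {N : ℕ} (hN : N ≠ 0) :
    ∃ M : ℝ, ∀ t, ‖Diag_A q r N t‖ ≤ M := by
  refine ⟨r ^ al q * (N : ℝ) ^ (-al q) * ∑ m ∈ N.divisors, (m : ℝ) ^ al q, fun t => ?_⟩
  rw [Diag_A_norm q t hr hN]
  exact mul_le_mul_of_nonneg_left (Diag_ct_bound q t hN) (by positivity)

theorem Diag_int_mul {μ : Measure ℝ} (hphi : Integrable (phi μ)) {A : ℝ → ℂ} (hA : Continuous A)
    {M : ℝ} (hM : ∀ t, ‖A t‖ ≤ M) : Integrable (fun t => phi μ t * A t) := by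
  refine (hphi.norm.mul_const M).mono' (hphi.aestronglyMeasurable.mul hA.aestronglyMeasurable) ?_
  refine Filter.Eventually.of_forall fun t => ?_
  rw [norm_mul]
  exact mul_le_mul_of_nonneg_left (hM t) (norm_nonneg _)

theorem Diag_int_norm {μ : Measure ℝ} (hphi : Integrable (phi μ)) {B : ℝ → ℝ} (hB : Continuous B)
    {M : ℝ} (hM : ∀ t, |B t| ≤ M) : Integrable (fun t => ‖phi μ t‖ * B t) := by
  refine (hphi.norm.mul_const M).mono' (hphi.norm.aestronglyMeasurable.mul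
    hB.aestronglyMeasurable) ?_
  refine Filter.Eventually.of_forall fun t => ?_
  rw [norm_mul, norm_norm, Real.norm_eq_abs]
  exact mul_le_mul_of_nonneg_left (hM t) (norm_nonneg _)

theorem Diag_rep {μ : Measure ℝ} {C : ℝ} {K : ℕ} (hμ : Smooth μ C K) (hK : 4 ≤ K)
    (hphi : Integrable (phi μ)) {q : ℕ} {r : ℝ} {N : ℕ} (hq : 3 ≤ q) (hr : 0 < r) (hN : N ≠ 0) :
    (CF μ q r N : ℂ) = ∫ t, phi μ t * Diag_A q r N t := by
  unfold CF
  push_cast
  have hquot : ∀ m ∈ N.divisors, m ≠ 0 ∧ N / m ≠ 0 ∧ m * (N / m) = N := by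
    intro m hm
    have hd := Nat.dvd_of_mem_divisors hm
    have hm0 := Nat.pos_of_mem_divisors hm
    refine ⟨hm0.ne', ?_, Nat.mul_div_cancel' hd⟩
    exact (Nat.div_pos (Nat.le_of_dvd (Nat.pos_of_ne_zero hN) hd) hm0).ne'
  have h1 : ∀ m ∈ N.divisors, (lamf q m : ℂ) * (Phi μ q r (N / m) : ℂ) =
      ∫ t, (lamf q m : ℂ) * (phi μ t * ((r : ℂ) ^ st q t * ((N / m : ℕ) : ℂ) ^ (-st q t))) := by
    intro m hm
    have hq' := hquot m hm
    rw [phi_rep hμ hK q r (N / m) hq hr (Nat.one_le_iff_ne_zero.2 hq'.2.1), integral_const_mul]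
    congr 1
    refine integral_congr_ae (Filter.Eventually.of_forall fun t => ?_)
    simp only [mul_assoc]
  rw [Finset.sum_congr rfl h1, ← integral_finsetSum]
  · refine integral_congr_ae (Filter.Eventually.of_forall fun t => ?_)
    show ∑ m ∈ N.divisors, (lamf q m : ℂ) * (phi μ t * ((r : ℂ) ^ st q t *
      ((N / m : ℕ) : ℂ) ^ (-st q t))) = phi μ t * Diag_A q r N t
    unfold Diag_A
    rw [← Diag_ct q t hN, Finset.mul_sum, Finset.mul_sum]
    refine Finset.sum_congr rfl fun m hm => ?_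
    obtain ⟨hm0, hn0, hmn⟩ := hquot m hm
    have h2 : (N : ℂ) ^ (-st q t) = (m : ℂ) ^ (-st q t) * ((N / m : ℕ) : ℂ) ^ (-st q t) := by
      rw [← natCast_mul_natCast_cpow]
      congr 1
      exact_mod_cast hmn.symm
    have h3 : (m : ℂ) ^ (-st q t) * (m : ℂ) ^ st q t = 1 := by
      have hmc : (m : ℂ) ≠ 0 := by exact_mod_cast hm0
      rw [← Complex.cpow_add _ _ hmc]
      simp
    rw [h2]
    linear_combination (-(phi μ t * (r : ℂ) ^ st q t * ((N / m : ℕ) : ℂ) ^ (-st q t) *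
      (lamf q m : ℂ))) * h3
  · intro m hm
    obtain ⟨_, hn0, _⟩ := hquot m hm
    exact (Diag_int_mul hphi (Diag_pow_cont q hr hn0)
      (fun t => (Diag_pow_norm q t hr hn0).le)).const_mul _

theorem Diag_CS {f A : ℝ → ℝ} (hf : ∀ t, 0 ≤ f t) (h0 : Integrable f)
    (h1 : Integrable (fun t => f t * A t)) (h2 : Integrable (fun t => f t * A t ^ 2)) :
    (∫ t, f t * A t) ^ 2 ≤ (∫ t, f t) * ∫ t, f t * A t ^ 2 := by
  have h : ∀ x : ℝ, 0 ≤ (∫ t, f t) * (x * x) + (-(2 * ∫ t, f t * A t)) * x +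
      ∫ t, f t * A t ^ 2 := by
    intro x
    have h3 : ∫ t, f t * (A t - x) ^ 2 = (∫ t, f t) * (x * x) + (-(2 * ∫ t, f t * A t)) * x +
        ∫ t, f t * A t ^ 2 := by
      have h4 : (fun t => f t * (A t - x) ^ 2) = fun t => (f t * (x * x) +
          (f t * A t) * (-(2 * x))) + f t * A t ^ 2 := by
        funext t
        ring
      have h6 : Integrable (fun t => f t * (x * x) + (f t * A t) * (-(2 * x))) :=
        (h0.mul_const _).add (h1.mul_const _)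
      rw [h4, integral_add h6 h2, integral_add (h0.mul_const _) (h1.mul_const _),
        integral_mul_const, integral_mul_const]
      ring
    rw [← h3]
    exact integral_nonneg fun t => mul_nonneg (hf t) (sq_nonneg _)
  have h5 := discrim_le_zero h
  unfold discrim at h5
  nlinarith

theorem Diag_CF_sq {μ : Measure ℝ} {C : ℝ} {K : ℕ} (hμ : Smooth μ C K) (hK : 4 ≤ K)
    (hphi : Integrable (phi μ)) {q : ℕ} {r : ℝ} {N : ℕ} (hq : 3 ≤ q) (hr : 0 < r) (hN : N ≠ 0) :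
    (CF μ q r N) ^ 2 ≤ (∫ t, ‖phi μ t‖) * ∫ t, ‖phi μ t‖ * ‖Diag_A q r N t‖ ^ 2 := by
  obtain ⟨M, hM⟩ := Diag_A_bound q hr hN
  have hc := Diag_A_cont q hr hN
  have h1 : |CF μ q r N| ≤ ∫ t, ‖phi μ t‖ * ‖Diag_A q r N t‖ := by
    have h2 : |CF μ q r N| = ‖(CF μ q r N : ℂ)‖ := by
      rw [Complex.norm_real, Real.norm_eq_abs]
    rw [h2, Diag_rep hμ hK hphi hq hr hN]
    refine (norm_integral_le_integral_norm _).trans (le_of_eq ?_)
    simp only [norm_mul]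
  have h3 := Diag_CS (f := fun t => ‖phi μ t‖) (A := fun t => ‖Diag_A q r N t‖)
    (fun t => norm_nonneg _) hphi.norm
    (Diag_int_norm hphi hc.norm (M := M) fun t => by rw [abs_norm]; exact hM t)
    (Diag_int_norm hphi (hc.norm.pow 2) (M := M ^ 2) fun t => by
      rw [abs_of_nonneg (by positivity)]
      exact pow_le_pow_left₀ (norm_nonneg _) (hM t) 2)
  refine le_trans ?_ h3
  rw [← sq_abs]
  exact pow_le_pow_left₀ (abs_nonneg _) h1 2

theorem Diag_sum {μ : Measure ℝ} {C : ℝ} {K : ℕ} (hμ : Smooth μ C K) (hK : 4 ≤ K)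
    (hphi : Integrable (phi μ)) {q : ℕ} {r : ℝ} (hq : 3 ≤ q) (hr : 0 < r) {a : ℕ} (ha : 1 ≤ a) :
    ∑ g ∈ Icc 1 q, (CF μ q r (a * g)) ^ 2 / g ≤
      (∫ t, ‖phi μ t‖) * ∫ t, ‖phi μ t‖ * ∑ g ∈ Icc 1 q, ‖Diag_A q r (a * g) t‖ ^ 2 / g := by
  have hN : ∀ g ∈ Icc 1 q, a * g ≠ 0 := by
    intro g hg
    have hg1 : 1 ≤ g := (Finset.mem_Icc.1 hg).1
    positivity
  have hint : ∀ g ∈ Icc 1 q, Integrable (fun t => ‖phi μ t‖ * ‖Diag_A q r (a * g) t‖ ^ 2) := by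
    intro g hg
    obtain ⟨M, hM⟩ := Diag_A_bound q hr (hN g hg)
    exact Diag_int_norm hphi ((Diag_A_cont q hr (hN g hg)).norm.pow 2) (M := M ^ 2) fun t => by
      rw [abs_of_nonneg (by positivity)]
      exact pow_le_pow_left₀ (norm_nonneg _) (hM t) 2
  have h1 : ∫ t, ‖phi μ t‖ * ∑ g ∈ Icc 1 q, ‖Diag_A q r (a * g) t‖ ^ 2 / g =
      ∑ g ∈ Icc 1 q, (∫ t, ‖phi μ t‖ * ‖Diag_A q r (a * g) t‖ ^ 2) / g := by
    have h2 : (fun t => ‖phi μ t‖ * ∑ g ∈ Icc 1 q, ‖Diag_A q r (a * g) t‖ ^ 2 / g) =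
        fun t => ∑ g ∈ Icc 1 q, ‖phi μ t‖ * ‖Diag_A q r (a * g) t‖ ^ 2 / g := by
      funext t
      rw [Finset.mul_sum]
      exact Finset.sum_congr rfl fun g _ => by ring
    rw [h2, integral_finsetSum _ fun g hg => (hint g hg).div_const _]
    exact Finset.sum_congr rfl fun g _ => integral_div _ _
  rw [h1, Finset.mul_sum]
  refine Finset.sum_le_sum fun g hg => ?_
  rw [← mul_div_assoc]
  exact div_le_div_of_nonneg_right (Diag_CF_sq hμ hK hphi hq hr (hN g hg)) (Nat.cast_nonneg g)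

theorem Diag_point (q : ℕ) {r : ℝ} (hr : 0 < r) {a : ℕ} (ha : 1 ≤ a) (t : ℝ)
    (hal : 0 ≤ al q) :
    ∑ g ∈ Icc 1 q, ‖Diag_A q r (a * g) t‖ ^ 2 / g ≤
      (r ^ al q) ^ 2 * ∑ g ∈ Icc 1 q, (g : ℝ) ^ (-(1 + 2 * al q)) * ‖ct q t (a * g)‖ ^ 2 := by
  rw [Finset.mul_sum]
  refine Finset.sum_le_sum fun g hg => ?_
  have hg1 : 1 ≤ g := (Finset.mem_Icc.1 hg).1
  have hg0 : (0 : ℝ) < g := by exact_mod_cast hg1
  have ha1 : (1 : ℝ) ≤ a := by exact_mod_cast ha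
  have hN : a * g ≠ 0 := by positivity
  rw [Diag_A_norm q t hr hN]
  have h1 : ((a * g : ℕ) : ℝ) ^ (-al q) ≤ (g : ℝ) ^ (-al q) := by
    apply Real.rpow_le_rpow_of_nonpos hg0
    · push_cast
      nlinarith
    · linarith
  have h2 : ((g : ℝ) ^ (-al q)) ^ 2 / g = (g : ℝ) ^ (-(1 + 2 * al q)) := by
    rw [← Real.rpow_natCast, ← Real.rpow_mul hg0.le, div_eq_mul_inv, ← Real.rpow_neg_one,
      ← Real.rpow_add hg0]
    congr 1
    push_cast
    ring
  have h3 : 0 ≤ ((a * g : ℕ) : ℝ) ^ (-al q) := by positivity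
  have h4 : (((a * g : ℕ) : ℝ) ^ (-al q)) ^ 2 ≤ ((g : ℝ) ^ (-al q)) ^ 2 :=
    pow_le_pow_left₀ h3 h1 2
  calc (r ^ al q * ((a * g : ℕ) : ℝ) ^ (-al q) * ‖ct q t (a * g)‖) ^ 2 / g
      = (r ^ al q) ^ 2 * ((((a * g : ℕ) : ℝ) ^ (-al q)) ^ 2 / g) * ‖ct q t (a * g)‖ ^ 2 := by
        ring
    _ ≤ (r ^ al q) ^ 2 * (((g : ℝ) ^ (-al q)) ^ 2 / g) * ‖ct q t (a * g)‖ ^ 2 := by
        gcongr
    _ = _ := by
        rw [h2]
        ring

/-! ### numerical bounds -/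

theorem Diag_small : ∃ q₀ : ℕ, 3 ≤ q₀ ∧ ∀ q : ℕ, q₀ ≤ q → 1 ≤ Real.log q ∧
    ∀ p : ℕ, p.Prime → p ≤ ww q → ∀ t : ℝ,
      ‖1 - (p : ℂ) ^ st q t‖ ≤ 2 * (1 + |t|) * (Real.log p / Real.log q) := by
  obtain ⟨L₁, hL₁, hasym⟩ := SProd_asym 2 (by norm_num)
  refine ⟨⌈Real.exp L₁⌉₊ + 3, by omega, ?_⟩
  intro q hq
  have hqL : Real.exp L₁ ≤ (q : ℝ) := by
    have h1 : Real.exp L₁ ≤ (⌈Real.exp L₁⌉₊ : ℝ) := Nat.le_ceil _
    have h2 : ((⌈Real.exp L₁⌉₊ + 3 : ℕ) : ℝ) ≤ (q : ℝ) := by exact_mod_cast hq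
    push_cast at h2
    linarith
  have hq0 : (0 : ℝ) < q := lt_of_lt_of_le (Real.exp_pos _) hqL
  have hL : L₁ ≤ Real.log q := by
    rw [Real.le_log_iff_exp_le hq0]
    exact hqL
  have hL1 : 1 ≤ Real.log q := hL₁.trans hL
  refine ⟨hL1, ?_⟩
  intro p hp hpw t
  have hLpos : 0 < Real.log q := by linarith
  have hp0 : (0 : ℝ) < p := by exact_mod_cast hp.pos
  have hp1 : (1 : ℝ) ≤ p := by exact_mod_cast hp.one_le
  have hlp : 0 ≤ Real.log p := Real.log_nonneg hp1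
  have h3 := hasym (Real.log q) hL
  have hll : 0 ≤ Real.log (Real.log q) := Real.log_nonneg hL1
  have h4 : 2 * (1 + 300 * Real.log (Real.log q)) ≤ Real.log q := by
    have h5 : (1 + 300 * Real.log (Real.log q)) ≤ (1 + 300 * Real.log (Real.log q)) ^ 18 := by
      apply le_self_pow₀ _ (by norm_num)
      linarith
    linarith
  have hlogp : Real.log p ≤ 300 * Real.log (Real.log q) := by
    have h5 : (p : ℝ) ≤ (Real.log q) ^ 300 := by
      have h6 : (p : ℝ) ≤ ww q := by exact_mod_cast hpw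
      have h7 : ((ww q : ℕ) : ℝ) ≤ (Real.log q) ^ 300 := Nat.floor_le (by positivity)
      linarith
    have h6 := Real.log_le_log hp0 h5
    rw [Real.log_pow] at h6
    exact_mod_cast h6
  have hz : (p : ℂ) ^ st q t = Complex.exp ((Real.log p : ℂ) * st q t) := by
    rw [Complex.cpow_def_of_ne_zero (by exact_mod_cast hp0.ne'), Complex.ofReal_log hp0.le]
    rfl
  have hre : ((Real.log p : ℂ) * st q t).re = Real.log p * al q := by
    rw [Complex.re_ofReal_mul, Diag_st_re]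
  have hal : al q = 1 / Real.log q := rfl
  have hal0 : 0 ≤ al q := by rw [hal]; positivity
  have h5 := SProd_cexp ((Real.log p : ℂ) * st q t) (by rw [hre]; positivity)
  rw [hz]
  refine h5.trans ?_
  rw [hre]
  have hexp : Real.exp (Real.log p * al q) ≤ 2 := by
    have h6 : Real.log p * al q ≤ 1 / 2 := by
      rw [hal, mul_one_div, div_le_iff₀ hLpos]
      linarith
    have h7 : Real.exp (1 / 2) ≤ 2 := by
      have h8 : Real.exp (1 / 2) ^ 2 = Real.exp 1 := by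
        rw [← Real.exp_nat_mul]
        norm_num
      have h9 := Real.exp_one_lt_d9
      nlinarith [Real.exp_pos (1 / 2)]
    exact (Real.exp_le_exp.2 h6).trans h7
  have hst : ‖st q t‖ ≤ al q * (1 + |t|) := by
    unfold st
    rw [norm_mul, Complex.norm_real, Real.norm_of_nonneg hal0]
    apply mul_le_mul_of_nonneg_left _ hal0
    refine (norm_add_le _ _).trans ?_
    simp
  have hnz : ‖(Real.log p : ℂ) * st q t‖ ≤ Real.log p * (al q * (1 + |t|)) := by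
    rw [norm_mul, Complex.norm_real, Real.norm_of_nonneg hlp]
    exact mul_le_mul_of_nonneg_left hst hlp
  have ht : 0 ≤ |t| := abs_nonneg t
  calc ‖(Real.log p : ℂ) * st q t‖ * Real.exp (Real.log p * al q)
      ≤ (Real.log p * (al q * (1 + |t|))) * 2 :=
        mul_le_mul hnz hexp (Real.exp_pos _).le (by positivity)
    _ = 2 * (1 + |t|) * (Real.log p / Real.log q) := by
        rw [hal]
        ring

theorem Diag_card (q a : ℕ) (ha : 1 ≤ a) :
    2 ^ (a.primeFactors.filter (fun p => p ≤ ww q)).card ≤ a := by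
  have h1 : ∏ p ∈ a.primeFactors, p ≤ a :=
    Nat.le_of_dvd (by omega) (Nat.prod_primeFactors_dvd a)
  have h2 : 2 ^ a.primeFactors.card ≤ ∏ p ∈ a.primeFactors, p := by
    rw [← Finset.prod_const]
    exact Finset.prod_le_prod' fun p hp => (Nat.prime_of_mem_primeFactors hp).two_le
  have h3 : 2 ^ (a.primeFactors.filter (fun p => p ≤ ww q)).card ≤ 2 ^ a.primeFactors.card :=
    Nat.pow_le_pow_right (by norm_num) (Finset.card_filter_le _ _)
  omega

theorem Diag_fac (k : ℕ) :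
    (((2 * k + 6).factorial : ℕ) : ℝ) ^ (21 / 20 : ℝ) ≤
      (46080 ^ 2) ^ (k + 1) * ((k.factorial : ℝ) ^ (21 / 20 : ℝ)) ^ 2 := by
  have h1 : (2 * k + 6).factorial ≤ 46080 ^ (k + 1) * (k.factorial) ^ 2 := by
    have h2 : (2 * k + 6).factorial ≤ 2 ^ (2 * k + 6) * (2 * k).factorial * (6).factorial := by
      have h3 := Nat.add_choose_mul_factorial_mul_factorial (2 * k) 6
      have h4 := Nat.choose_le_two_pow (2 * k + 6) 6
      rw [← h3]
      gcongr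
    have h5 : (2 * k).factorial ≤ 2 ^ (2 * k) * k.factorial * k.factorial := by
      have h3 := Nat.add_choose_mul_factorial_mul_factorial k k
      have h4 := Nat.choose_le_two_pow (k + k) k
      rw [two_mul, ← h3]
      gcongr
    calc (2 * k + 6).factorial ≤ 2 ^ (2 * k + 6) * (2 * k).factorial * (6).factorial := h2
      _ ≤ 2 ^ (2 * k + 6) * (2 ^ (2 * k) * k.factorial * k.factorial) * (6).factorial := by
        gcongr
      _ = 46080 * 16 ^ k * (k.factorial) ^ 2 := by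
        have : (6).factorial = 720 := rfl
        rw [this]
        have h6 : (16 : ℕ) ^ k = 2 ^ (2 * k) * 2 ^ (2 * k) := by
          rw [← pow_add, show (16 : ℕ) = 2 ^ 4 by norm_num, ← pow_mul]
          congr 1
          ring
        rw [h6, pow_add]
        ring
      _ ≤ 46080 * 46080 ^ k * (k.factorial) ^ 2 := by
        gcongr
        norm_num
      _ = 46080 ^ (k + 1) * (k.factorial) ^ 2 := by ring
  have h2 : (((2 * k + 6).factorial : ℕ) : ℝ) ≤ 46080 ^ (k + 1) * (k.factorial : ℝ) ^ 2 := by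
    exact_mod_cast h1
  have h3 : (0 : ℝ) < k.factorial := by exact_mod_cast Nat.factorial_pos k
  calc (((2 * k + 6).factorial : ℕ) : ℝ) ^ (21 / 20 : ℝ)
      ≤ (46080 ^ (k + 1) * (k.factorial : ℝ) ^ 2) ^ (21 / 20 : ℝ) :=
        Real.rpow_le_rpow (by positivity) h2 (by norm_num)
    _ = ((46080 : ℝ) ^ (k + 1)) ^ (21 / 20 : ℝ) * ((k.factorial : ℝ) ^ 2) ^ (21 / 20 : ℝ) :=
        Real.mul_rpow (by positivity) (by positivity)
    _ ≤ ((46080 : ℝ) ^ (k + 1)) ^ 2 * ((k.factorial : ℝ) ^ (21 / 20 : ℝ)) ^ 2 := by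
        have h4 : ((k.factorial : ℝ) ^ 2) ^ (21 / 20 : ℝ) =
            ((k.factorial : ℝ) ^ (21 / 20 : ℝ)) ^ 2 := by
          rw [← Real.rpow_natCast, ← Real.rpow_mul h3.le, ← Real.rpow_natCast,
            ← Real.rpow_mul h3.le]
          congr 1
          push_cast
          ring
        rw [h4]
        have h5 : ((46080 : ℝ) ^ (k + 1)) ^ (21 / 20 : ℝ) ≤ ((46080 : ℝ) ^ (k + 1)) ^ 2 := by
          rw [← Real.rpow_two]
          apply Real.rpow_le_rpow_of_exponent_le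
          · exact one_le_pow₀ (by norm_num)
          · norm_num
        gcongr
    _ = _ := by
        rw [← pow_mul, ← pow_mul]
        ring_nf

theorem Diag_rpow {q : ℕ} {r : ℝ} (hq : 3 ≤ q) (hr : 0 < r)
    (hrq : r ≤ (q : ℝ) ^ (1 / 100 : ℝ)) : (r ^ al q) ^ 2 ≤ 2 := by
  have hq1 : (1 : ℝ) < q := by exact_mod_cast (by omega : 1 < q)
  have hq0 : (0 : ℝ) < q := by linarith
  have hL : 0 < Real.log q := Real.log_pos hq1
  have hal : 0 ≤ al q := by unfold al; positivity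
  have h1 : r ^ al q ≤ Real.exp (1 / 100) := by
    refine (Real.rpow_le_rpow hr.le hrq hal).trans (le_of_eq ?_)
    rw [← Real.rpow_mul hq0.le, Real.rpow_def_of_pos hq0]
    congr 1
    unfold al
    field_simp
  have h2 : 0 < r ^ al q := by positivity
  have h3 : (r ^ al q) ^ 2 ≤ Real.exp (1 / 100) ^ 2 := pow_le_pow_left₀ h2.le h1 2
  refine h3.trans ?_
  rw [← Real.exp_nat_mul]
  have h4 : Real.exp ((2 : ℕ) * (1 / 100)) ≤ Real.exp (1 / 2) := by
    apply Real.exp_le_exp.2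
    norm_num
  have h7 : Real.exp (1 / 2) ≤ 2 := by
    have h8 : Real.exp (1 / 2) ^ 2 = Real.exp 1 := by
      rw [← Real.exp_nat_mul]
      norm_num
    have h9 := Real.exp_one_lt_d9
    nlinarith [Real.exp_pos (1 / 2)]
  linarith

/-- the pointwise bound of the integrand -/
theorem Diag_integrand {q : ℕ} {r : ℝ} (hq : 3 ≤ q) (hr : 0 < r)
    (hrq : r ≤ (q : ℝ) ^ (1 / 100 : ℝ)) {a : ℕ} (ha : 1 ≤ a) (hL : 1 ≤ Real.log q)
    (hsm : ∀ p : ℕ, p.Prime → p ≤ ww q → ∀ t : ℝ,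
      ‖1 - (p : ℂ) ^ st q t‖ ≤ 2 * (1 + |t|) * (Real.log p / Real.log q)) {D : ℝ}
    (hU : ∀ t : ℝ, Us q q t (ro (ww q) a) ≤ D * (1 + |t|) ^ 6) (t : ℝ) :
    ∑ g ∈ Icc 1 q, ‖Diag_A q r (a * g) t‖ ^ 2 / g ≤
      (2 * 8 ^ (a.primeFactors.filter (fun p => p ≤ ww q)).card *
      (∏ p ∈ a.primeFactors.filter (fun p => p ≤ ww q), (Real.log p / Real.log q)) ^ 2 * D) *
      (1 + |t|) ^ (2 * (a.primeFactors.filter (fun p => p ≤ ww q)).card + 6) := by
  set k := (a.primeFactors.filter (fun p => p ≤ ww q)).card with hk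
  set Pr := ∏ p ∈ a.primeFactors.filter (fun p => p ≤ ww q), (Real.log p / Real.log q) with hPr
  have hal : 0 ≤ al q := by unfold al; positivity
  have h1 := Diag_point q hr ha t hal
  have h2 := ut q q hq t a ha
  have ht : 0 ≤ |t| := abs_nonneg t
  have h3 : ∏ p ∈ a.primeFactors.filter (fun p => p ≤ ww q), ‖1 - (p : ℂ) ^ st q t‖ ^ 2 ≤
      4 ^ k * (1 + |t|) ^ (2 * k) * Pr ^ 2 := by
    have h4 : ∏ p ∈ a.primeFactors.filter (fun p => p ≤ ww q), ‖1 - (p : ℂ) ^ st q t‖ ^ 2 ≤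
        ∏ p ∈ a.primeFactors.filter (fun p => p ≤ ww q),
          ((2 * (1 + |t|)) ^ 2 * (Real.log p / Real.log q) ^ 2) := by
      apply Finset.prod_le_prod (fun p _ => by positivity)
      intro p hp
      rw [Finset.mem_filter] at hp
      have h5 := hsm p (Nat.prime_of_mem_primeFactors hp.1) hp.2 t
      rw [← mul_pow]
      exact pow_le_pow_left₀ (norm_nonneg _) h5 2
    refine h4.trans (le_of_eq ?_)
    rw [Finset.prod_mul_distrib, Finset.prod_const, ← hk, Finset.prod_pow, ← hPr, ← pow_mul,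
      mul_pow, pow_mul 2 2 k]
    norm_num
  have hUs0 : 0 ≤ Us q q t (ro (ww q) a) := by
    unfold Us
    apply mul_nonneg
    · apply Finset.prod_nonneg
      intro p hp
      rw [Finset.mem_filter] at hp
      have : (1 : ℝ) ≤ p := by exact_mod_cast hp.2.one_le
      have h5 : 0 ≤ ‖1 - (p : ℂ) ^ st q t‖ ^ 2 / ((p : ℝ) - 1) :=
        div_nonneg (by positivity) (by linarith)
      linarith
    · exact Finset.sum_nonneg fun g _ => by positivity
  have h5 : ∑ g ∈ Icc 1 q, (g : ℝ) ^ (-(1 + 2 * al q)) * ‖ct q t (a * g)‖ ^ 2 ≤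
      2 ^ k * (4 ^ k * (1 + |t|) ^ (2 * k) * Pr ^ 2) * (D * (1 + |t|) ^ 6) := by
    refine h2.trans ?_
    apply mul_le_mul _ (hU t) hUs0 (by positivity)
    exact mul_le_mul_of_nonneg_left h3 (by positivity)
  have h6 : 0 ≤ ∑ g ∈ Icc 1 q, (g : ℝ) ^ (-(1 + 2 * al q)) * ‖ct q t (a * g)‖ ^ 2 :=
    Finset.sum_nonneg fun g _ => by positivity
  have h7 := Diag_rpow hq hr hrq
  calc ∑ g ∈ Icc 1 q, ‖Diag_A q r (a * g) t‖ ^ 2 / g
      ≤ (r ^ al q) ^ 2 * ∑ g ∈ Icc 1 q, (g : ℝ) ^ (-(1 + 2 * al q)) * ‖ct q t (a * g)‖ ^ 2 := h1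
    _ ≤ 2 * ∑ g ∈ Icc 1 q, (g : ℝ) ^ (-(1 + 2 * al q)) * ‖ct q t (a * g)‖ ^ 2 :=
        mul_le_mul_of_nonneg_right h7 h6
    _ ≤ 2 * (2 ^ k * (4 ^ k * (1 + |t|) ^ (2 * k) * Pr ^ 2) * (D * (1 + |t|) ^ 6)) :=
        mul_le_mul_of_nonneg_left h5 (by norm_num)
    _ = _ := by
        have h8 : (8 : ℝ) ^ k = 2 ^ k * 4 ^ k := by rw [← mul_pow]; norm_num
        rw [h8, pow_add]
        ring

theorem Diag_num {C1 C2 B : ℝ} (F Pr E : ℝ) {k m : ℕ} (hC1 : 1 ≤ C1) (hC2 : 1 ≤ C2) (hB : 1 ≤ B)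
    (hkm : k ≤ m) : 2 * (C1 * ((2 * 8 ^ k * Pr ^ 2 * (C2 * E ^ 2)) *
      (C1 ^ (2 * k + 6 + 1) * (B ^ (k + 1) * F ^ 2)))) ≤
      ((2 * (16 * C1 ^ 10 * B) * C2) ^ (m + 1) * F * Pr * E) ^ 2 := by
  have hC1p : ∀ n : ℕ, 1 ≤ C1 ^ n := fun n => one_le_pow₀ hC1
  have h10 := hC1p 10
  have h8le : C1 ^ 8 ≤ C1 ^ 10 := pow_le_pow_right₀ hC1 (by norm_num)
  have h2le : C1 ^ 2 ≤ C1 ^ 10 := pow_le_pow_right₀ hC1 (by norm_num)
  set C : ℝ := 2 * (16 * C1 ^ 10 * B) * C2 with hC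
  have h6 : 4 * C1 ^ 8 * B ≤ 2 * (16 * C1 ^ 10 * B) := by
    have h9 : C1 ^ 8 * B ≤ C1 ^ 10 * B := mul_le_mul_of_nonneg_right h8le (by linarith)
    have h10 : 0 ≤ C1 ^ 10 * B := by positivity
    linarith
  have h7 : 8 * C1 ^ 2 * B ≤ C := by
    have h9 : C1 ^ 2 * B ≤ C1 ^ 10 * B := mul_le_mul_of_nonneg_right h2le (by linarith)
    have h10 : 0 ≤ C1 ^ 10 * B := by positivity
    have h11 : C1 ^ 10 * B * 1 ≤ C1 ^ 10 * B * C2 := mul_le_mul_of_nonneg_left hC2 h10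
    rw [hC]
    linarith
  have hC1' : 1 ≤ C := by
    have h9 : 1 ≤ C1 ^ 10 * B := by
      calc (1 : ℝ) = 1 * 1 := (one_mul 1).symm
        _ ≤ C1 ^ 10 * B := mul_le_mul h10 hB zero_le_one (by linarith)
    have h11 : C1 ^ 10 * B * 1 ≤ C1 ^ 10 * B * C2 := mul_le_mul_of_nonneg_left hC2 (by linarith)
    rw [hC]
    linarith
  have h5 : (4 * C1 ^ 8 * B) * (8 * C1 ^ 2 * B) ^ k * C2 ≤ C ^ (k + 1) := by
    calc (4 * C1 ^ 8 * B) * (8 * C1 ^ 2 * B) ^ k * C2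
        ≤ (2 * (16 * C1 ^ 10 * B)) * C ^ k * C2 := by gcongr
      _ = C ^ (k + 1) := by rw [pow_succ, hC]; ring
  have h8 : C ^ (k + 1) ≤ (C ^ (m + 1)) ^ 2 := by
    have h9 : C ^ (k + 1) ≤ C ^ (m + 1) := pow_le_pow_right₀ hC1' (by omega)
    have h11 : (1 : ℝ) ≤ C ^ (m + 1) := one_le_pow₀ hC1'
    nlinarith
  calc 2 * (C1 * ((2 * 8 ^ k * Pr ^ 2 * (C2 * E ^ 2)) *
        (C1 ^ (2 * k + 6 + 1) * (B ^ (k + 1) * F ^ 2))))
      = ((4 * C1 ^ 8 * B) * (8 * C1 ^ 2 * B) ^ k * C2) * (F * Pr * E) ^ 2 := by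
        rw [mul_pow, mul_pow, ← pow_mul C1 2 k]
        ring
    _ ≤ C ^ (k + 1) * (F * Pr * E) ^ 2 := mul_le_mul_of_nonneg_right h5 (by positivity)
    _ ≤ (C ^ (m + 1)) ^ 2 * (F * Pr * E) ^ 2 := mul_le_mul_of_nonneg_right h8 (by positivity)
    _ = _ := by ring

theorem Diag_core {f G : ℝ → ℝ} {A M : ℝ} {n : ℕ} (hf : ∀ t, 0 ≤ f t) (hG : ∀ t, 0 ≤ G t)
    (hA : 0 ≤ A) (hi : Integrable (fun t => f t * (1 + |t|) ^ n))
    (hM : ∫ t, f t * (1 + |t|) ^ n ≤ M) (hb : ∀ t, G t ≤ A * (1 + |t|) ^ n) :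
    ∫ t, f t * G t ≤ A * M := by
  have h3 : ∫ t, f t * G t ≤ ∫ t, A * (f t * (1 + |t|) ^ n) := by
    apply integral_mono_of_nonneg
    · exact Filter.Eventually.of_forall fun t => mul_nonneg (hf t) (hG t)
    · exact hi.const_mul _
    · refine Filter.Eventually.of_forall fun t => ?_
      calc f t * G t ≤ f t * (A * (1 + |t|) ^ n) := mul_le_mul_of_nonneg_left (hb t) (hf t)
        _ = A * (f t * (1 + |t|) ^ n) := by ring
  rw [integral_const_mul] at h3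
  exact h3.trans (mul_le_mul_of_nonneg_left hM hA)

theorem diag (C₇ : ℝ) (hC₇ : 1 ≤ C₇) : ∃ C : ℝ, 1 ≤ C ∧ ∃ q₀ : ℕ, ∀ (q : ℕ) (μ : Measure ℝ)
    (K : ℕ), q₀ ≤ q → 10 * Real.log q + 100 ≤ K → Smooth μ C₇ K → ∀ r : ℝ, 0 < r →
    r ≤ (q : ℝ) ^ (1 / 100 : ℝ) → ∀ a : ℕ, 1 ≤ a → (a : ℝ) ≤ (q : ℝ) ^ kap →
    Real.sqrt (DD μ q r a) ≤ Wt q C a + (q : ℝ) ^ (-(1 / 150000) : ℝ) := by
  obtain ⟨C1, hC1, hmom⟩ := phi_mom C₇ hC₇
  obtain ⟨C2', q2, hone⟩ := us_one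
  obtain ⟨q3, hgen⟩ := us_gen
  obtain ⟨q4, hrank⟩ := rankin
  obtain ⟨q5, hq53, hsmall⟩ := Diag_small
  set C2 := max C2' 1 with hC2
  have hC21 : 1 ≤ C2 := le_max_right _ _
  obtain ⟨B, hB⟩ : ∃ B : ℝ, B = 46080 ^ 2 := ⟨_, rfl⟩
  have hB1 : 1 ≤ B := by rw [hB]; norm_num
  have hC1p : 1 ≤ C1 ^ 10 := one_le_pow₀ hC1
  obtain ⟨C, hC⟩ : ∃ C : ℝ, C = 2 * (16 * C1 ^ 10 * B) * C2 := ⟨_, rfl⟩
  have hC1' : 1 ≤ C := by
    have h9 : 1 ≤ C1 ^ 10 * B := by
      calc (1 : ℝ) = 1 * 1 := (one_mul 1).symm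
        _ ≤ C1 ^ 10 * B := mul_le_mul hC1p hB1 zero_le_one (by linarith)
    have h11 : C1 ^ 10 * B * 1 ≤ C1 ^ 10 * B * C2 := mul_le_mul_of_nonneg_left hC21 (by linarith)
    rw [hC]
    linarith
  -- the power of q
  have htend : Filter.Tendsto (fun q : ℕ => (q : ℝ) ^ (1 / 70000 - 1 / 75000 : ℝ)) Filter.atTop
      Filter.atTop :=
    (tendsto_rpow_atTop (by norm_num)).comp tendsto_natCast_atTop_atTop
  obtain ⟨q6, hq6⟩ := Filter.eventually_atTop.1 (htend.eventually_ge_atTop 2)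
  refine ⟨C, hC1', max (max q2 q3) (max (max q4 q5) q6), ?_⟩
  intro q μ K hq hK hμ r hr hrq a ha haq
  have hqq2 : q2 ≤ q := le_trans (le_trans (le_max_left _ _) (le_max_left _ _)) hq
  have hqq3 : q3 ≤ q := le_trans (le_trans (le_max_right _ _) (le_max_left _ _)) hq
  have hqq4 : q4 ≤ q := le_trans (le_trans (le_trans (le_max_left _ _) (le_max_left _ _))
    (le_max_right _ _)) hq
  have hqq5 : q5 ≤ q := le_trans (le_trans (le_trans (le_max_right _ _) (le_max_left _ _))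
    (le_max_right _ _)) hq
  have hqq6 : q6 ≤ q := le_trans (le_trans (le_max_right _ _) (le_max_right _ _)) hq
  have hq3 : 3 ≤ q := hq53.trans hqq5
  obtain ⟨hL1, hsm⟩ := hsmall q hqq5
  have hq1 : (1 : ℝ) < q := by exact_mod_cast (by omega : 1 < q)
  have hq0 : (0 : ℝ) < q := by linarith
  have hL0 : 0 < Real.log q := by linarith
  obtain ⟨k, hk⟩ : ∃ k, k = (a.primeFactors.filter (fun p => p ≤ ww q)).card := ⟨_, rfl⟩
  obtain ⟨Pr, hPr⟩ : ∃ Pr : ℝ, Pr = ∏ p ∈ a.primeFactors.filter (fun p => p ≤ ww q),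
    (Real.log p / Real.log q) := ⟨_, rfl⟩
  have hPr0 : 0 ≤ Pr := hPr ▸ Finset.prod_nonneg fun p hp => by
    have h1 : (1 : ℝ) ≤ p := by
      exact_mod_cast (Nat.prime_of_mem_primeFactors (Finset.mem_filter.1 hp).1).one_le
    exact div_nonneg (Real.log_nonneg h1) hL0.le
  -- 2 k + 8 ≤ K
  have hkK : 2 * k + 6 + 2 ≤ K := by
    have h1 : (2 : ℝ) ^ k ≤ q := by
      have h2 : ((2 ^ k : ℕ) : ℝ) ≤ a := by rw [hk]; exact_mod_cast Diag_card q a ha
      push_cast at h2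
      have h3 : (q : ℝ) ^ kap ≤ (q : ℝ) ^ (1 : ℝ) :=
        Real.rpow_le_rpow_of_exponent_le hq1.le (by unfold kap; norm_num)
      rw [Real.rpow_one] at h3
      linarith
    have h2 : (k : ℝ) * Real.log 2 ≤ Real.log q := by
      have h3 := Real.log_le_log (by positivity) h1
      rwa [Real.log_pow] at h3
    have h3 := Real.log_two_gt_d9
    have h4 : (k : ℝ) ≤ 2 * Real.log q := by
      have : (0 : ℝ) ≤ k := Nat.cast_nonneg k
      nlinarith
    have h5 : ((2 * k + 6 + 2 : ℕ) : ℝ) ≤ K := by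
      push_cast
      linarith
    exact_mod_cast h5
  have hphi : Integrable (phi μ) := by
    have h1 := (hmom μ K 0 hμ (by omega)).1
    simp only [pow_zero, mul_one] at h1
    exact (integrable_norm_iff (Mom_phi_cont hμ).aestronglyMeasurable).1 h1
  have hJ0 : ∫ t, ‖phi μ t‖ ≤ C1 := by
    have h1 := (hmom μ K 0 hμ (by omega)).2
    simpa using h1
  have hJ00 : 0 ≤ ∫ t, ‖phi μ t‖ := integral_nonneg fun t => norm_nonneg _
  obtain ⟨hmi, hmb⟩ := hmom μ K (2 * k + 6) hμ hkK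
  -- the bound for Us
  obtain ⟨E, hE⟩ : ∃ E : ℝ, E = if ro (ww q) a = 1 then 1 else
    (a.divisors.card : ℝ) * (Real.log q) ^ 4 := ⟨_, rfl⟩
  have hE0 : 0 ≤ E := by rw [hE]; split_ifs <;> positivity
  have hU : ∀ t : ℝ, Us q q t (ro (ww q) a) ≤ (C2 * E ^ 2) * (1 + |t|) ^ 6 := by
    intro t
    have ht : 0 ≤ |t| := abs_nonneg t
    have ht6 : (1 : ℝ) ≤ (1 + |t|) ^ 6 := one_le_pow₀ (by linarith)
    by_cases hro : ro (ww q) a = 1
    · rw [hro]
      refine (hone q q hqq2 t).trans ?_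
      rw [hE, if_pos hro, one_pow, mul_one]
      exact mul_le_mul_of_nonneg_right (le_max_left _ _) (by positivity)
    · have hro1 : 1 ≤ ro (ww q) a := Nat.one_le_iff_ne_zero.2 (ro_ne_zero _ _)
      refine (hgen q q hqq3 le_rfl t _ hro1).trans ?_
      have h1 : ((ro (ww q) a).divisors.card : ℝ) ≤ a.divisors.card := by
        have h2 : ro (ww q) a ∣ a := ⟨sm (ww q) a, by
          rw [mul_comm]
          exact (sm_mul_ro (ww q) (by omega)).symm⟩
        exact_mod_cast Finset.card_le_card (Nat.divisors_subset_of_dvd (by omega) h2)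
      rw [hE, if_neg hro]
      have h3 : Real.log q ^ 6 ≤ Real.log q ^ 8 := pow_le_pow_right₀ hL1 (by norm_num)
      calc ((ro (ww q) a).divisors.card : ℝ) ^ 2 * Real.log q ^ 6
          ≤ (a.divisors.card : ℝ) ^ 2 * Real.log q ^ 8 := by gcongr
        _ = 1 * ((a.divisors.card : ℝ) * Real.log q ^ 4) ^ 2 * 1 := by ring
        _ ≤ C2 * ((a.divisors.card : ℝ) * Real.log q ^ 4) ^ 2 * (1 + |t|) ^ 6 := by gcongr
  -- the sum over CF
  obtain ⟨F, hF⟩ : ∃ F : ℝ, F = (k.factorial : ℝ) ^ (21 / 20 : ℝ) := ⟨_, rfl⟩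
  have hF0 : 0 < F := by rw [hF]; positivity
  have hWt : Wt q C a = C ^ (a.primeFactors.card + 1) * F * Pr * E := by
    rw [hF, hPr, hE, hk]
    rfl
  have hSb : 2 * ∑ g ∈ Icc 1 q, (CF μ q r (a * g)) ^ 2 / g ≤ (Wt q C a) ^ 2 := by
    have h1 := Diag_sum hμ (by omega) hphi hq3 hr ha
    have hA0 : 0 ≤ 2 * 8 ^ k * Pr ^ 2 * (C2 * E ^ 2) := by positivity
    have h2 : ∫ t, ‖phi μ t‖ * ∑ g ∈ Icc 1 q, ‖Diag_A q r (a * g) t‖ ^ 2 / g ≤
        (2 * 8 ^ k * Pr ^ 2 * (C2 * E ^ 2)) *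
          (C1 ^ (2 * k + 6 + 1) * (((2 * k + 6).factorial : ℕ) : ℝ) ^ (21 / 20 : ℝ)) :=
      Diag_core (fun t => norm_nonneg _) (fun t => Finset.sum_nonneg fun g _ => by positivity)
        hA0 hmi hmb (hk ▸ hPr ▸ Diag_integrand hq3 hr hrq ha hL1 hsm hU)
    have h3 : ∑ g ∈ Icc 1 q, (CF μ q r (a * g)) ^ 2 / g ≤ C1 * ((2 * 8 ^ k * Pr ^ 2 * (C2 * E ^ 2)) *
        (C1 ^ (2 * k + 6 + 1) * (B ^ (k + 1) * F ^ 2))) := by
      refine h1.trans ?_
      have h5 : 0 ≤ ∫ t, ‖phi μ t‖ * ∑ g ∈ Icc 1 q, ‖Diag_A q r (a * g) t‖ ^ 2 / g :=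
        integral_nonneg fun t =>
          mul_nonneg (norm_nonneg _) (Finset.sum_nonneg fun g _ => by positivity)
      apply mul_le_mul hJ0 _ h5 (by linarith)
      refine h2.trans ?_
      have h6 := Diag_fac k
      rw [← hB, ← hF] at h6
      have hCp : 0 ≤ C1 ^ (2 * k + 6 + 1) := by positivity
      exact mul_le_mul_of_nonneg_left (mul_le_mul_of_nonneg_left h6 hCp) hA0
    have h6 := Diag_num (k := k) (m := a.primeFactors.card) F Pr E hC1 hC21 hB1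
      (hk ▸ Finset.card_filter_le _ _)
    rw [← hC] at h6
    rw [hWt]
    linarith
  -- the end
  have hR := hrank q hqq4 a ha haq
  have hsp := Diag_split hμ q r a ha
  have hW0 : 0 ≤ Wt q C a := by
    rw [hWt]
    positivity
  have hz : 2 * (q : ℝ) ^ (-(1 / 70000) : ℝ) ≤ ((q : ℝ) ^ (-(1 / 150000) : ℝ)) ^ 2 := by
    have h1 : ((q : ℝ) ^ (-(1 / 150000) : ℝ)) ^ 2 = (q : ℝ) ^ (-(1 / 75000) : ℝ) := by
      rw [← Real.rpow_natCast, ← Real.rpow_mul hq0.le]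
      congr 1
      push_cast
      norm_num
    have h2 : (q : ℝ) ^ (-(1 / 75000) : ℝ) = (q : ℝ) ^ (1 / 70000 - 1 / 75000 : ℝ) *
        (q : ℝ) ^ (-(1 / 70000) : ℝ) := by
      rw [← Real.rpow_add hq0]
      congr 1
      ring
    rw [h1, h2]
    exact mul_le_mul_of_nonneg_right (hq6 q hqq6) (by positivity)
  have hz0 : 0 ≤ (q : ℝ) ^ (-(1 / 150000) : ℝ) := by positivity
  rw [Real.sqrt_le_left (by positivity)]
  nlinarith [mul_nonneg hW0 hz0]

end Pool.Agent.NV
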