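import Pool.Agent.Lib.MP_afd523_nt.Defs
import Pool.Agent.Lib.MP_afd523_nt.Cnt
import Pool.Agent.Lib.MP_afd523_nt.Fac
import Pool.Agent.Lib.MP_848d44_nt.Div

/-!
Module SU: the weighted sum over rationals of small height in `H`.
-/

namespace Pool.Agent.NV

open Finset Complex MeasureTheory

namespace WSum

theorem mul_pow_le (n : ℕ) {x s : ℝ} (hx : 0 ≤ x) (hs : 0 ≤ s) :
    ((n : ℝ) + 1) * x * s ^ n ≤ (x + s) ^ (n + 1) := by
  induction n with
  | zero => simpa using hs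
  | succ n ih =>
    calc (((n + 1 : ℕ) : ℝ) + 1) * x * s ^ (n + 1)
        = s * (((n : ℝ) + 1) * x * s ^ n) + x * s ^ (n + 1) := by push_cast; ring
      _ ≤ s * (x + s) ^ (n + 1) + x * (x + s) ^ (n + 1) := by
          gcongr
          linarith
      _ = (x + s) ^ (n + 1 + 1) := by ring

theorem prod_mul_factorial_le (S : Finset ℕ) (x : ℕ → ℝ) (hx : ∀ i ∈ S, 0 ≤ x i) :
    (∏ i ∈ S, x i) * S.card.factorial ≤ (∑ i ∈ S, x i) ^ S.card := by
  induction S using Finset.induction_on with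
  | empty => simp
  | insert a S ha ih =>
    have hxS : ∀ i ∈ S, 0 ≤ x i := fun i hi => hx i (mem_insert_of_mem hi)
    have hxa := hx a (mem_insert_self a S)
    rw [prod_insert ha, sum_insert ha, card_insert_of_notMem ha, Nat.factorial_succ]
    have h1 := ih hxS
    have h2 := mul_pow_le S.card hxa (sum_nonneg hxS)
    push_cast
    calc x a * (∏ i ∈ S, x i) * (((S.card : ℝ) + 1) * S.card.factorial)
        = ((S.card : ℝ) + 1) * x a * ((∏ i ∈ S, x i) * S.card.factorial) := by ring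
      _ ≤ ((S.card : ℝ) + 1) * x a * (∑ i ∈ S, x i) ^ S.card := by gcongr
      _ ≤ _ := h2

theorem prod_filter_le {N : ℕ} (hN : N ≠ 0) (P : ℕ → Prop) [DecidablePred P] :
    ∏ p ∈ N.primeFactors.filter P, p ≤ N := by
  refine le_trans ?_ (Nat.le_of_dvd (Nat.pos_of_ne_zero hN) (Nat.prod_primeFactors_dvd N))
  exact prod_le_prod_of_subset_of_one_le' (filter_subset _ _)
    (fun p hp _ => (Nat.prime_of_mem_primeFactors hp).one_lt.le)

theorem fac_filter_le {N : ℕ} (hN : N ≠ 0) (P : ℕ → Prop) [DecidablePred P] :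
    (N.primeFactors.filter P).card.factorial ≤ N :=
  (fac_le_prod _ fun _ hx =>
    (Nat.prime_of_mem_primeFactors (filter_subset _ _ hx)).one_lt.le).trans (prod_filter_le hN P)

theorem log_sum_le {N : ℕ} (hN : N ≠ 0) (P : ℕ → Prop) [DecidablePred P] :
    ∑ p ∈ N.primeFactors.filter P, Real.log p ≤ Real.log N := by
  have h1 : ∀ p ∈ N.primeFactors.filter P, (p : ℝ) ≠ 0 := fun p hp => by
    have := (Nat.prime_of_mem_primeFactors (filter_subset _ _ hp)).pos
    positivity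
  rw [← Real.log_prod h1]
  refine Real.log_le_log (prod_pos fun p hp => ?_) ?_
  · exact lt_of_le_of_ne (Nat.cast_nonneg _) (h1 p hp).symm
  · rw [← Nat.cast_prod]
    exact Nat.cast_le.mpr (prod_filter_le hN P)

theorem rough_le {N w : ℕ} (hN : N ≠ 0) {x : ℝ} (hx : 0 ≤ x) (hxw : x ≤ (w : ℝ) + 1) :
    x ^ (N.primeFactors.filter (fun p => w < p)).card ≤ N := by
  have h1 : x ^ (N.primeFactors.filter (fun p => w < p)).card ≤
      ∏ p ∈ N.primeFactors.filter (fun p => w < p), (p : ℝ) := by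
    rw [← prod_const]
    refine prod_le_prod (fun _ _ => hx) fun p hp => ?_
    have h2 : w + 1 ≤ p := (mem_filter.mp hp).2
    have h3 : ((w : ℝ) + 1) ≤ p := by exact_mod_cast h2
    linarith
  refine h1.trans ?_
  rw [← Nat.cast_prod]
  exact Nat.cast_le.mpr (prod_filter_le hN _)

theorem alg1 {c2 cks ckr nks nkr Lks u v w F fi tt Y X : ℝ} (hu : u ≠ 0) :
    (cks * ckr * c2 * (F * (Lks / u)) * (tt * w)) * ((nks * nkr * (u * v)) * fi) * (2 * Y) * X =
      2 * c2 * ((nks * cks * Lks) * fi) * F * (nkr * ckr) * (w * v) * tt * (Y * X) := by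
  have h : Lks / u * u = Lks := div_mul_cancel₀ _ hu
  calc _ = 2 * c2 * ((nks * cks * (Lks / u * u)) * fi) * F * (nkr * ckr) * (w * v) * tt *
      (Y * X) := by ring
    _ = _ := by rw [h]

/-- bound for the last factor of the weight -/
theorem last_le {q a w : ℕ} (ha : a ≠ 0) (hq : 1 ≤ Real.log q) :
    (if ro w a = 1 then 1 else (a.divisors.card : ℝ) * (Real.log q) ^ 4) ≤
      a.divisors.card * (Real.log q ^ 4) ^ (a.primeFactors.filter (fun p => w < p)).card := by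
  have h1 : (1 : ℝ) ≤ a.divisors.card := by
    have : 0 < a.divisors.card := card_pos.mpr ⟨1, Nat.one_mem_divisors.mpr ha⟩
    exact_mod_cast this
  have h4 : (1 : ℝ) ≤ Real.log q ^ 4 := one_le_pow₀ hq
  split_ifs with h
  · calc (1 : ℝ) = 1 * 1 := by ring
      _ ≤ _ := by
        gcongr
        exact one_le_pow₀ h4
  · have h2 : (a.primeFactors.filter (fun p => w < p)).card ≠ 0 := by
      intro h0
      apply h
      rw [card_eq_zero] at h0
      rw [ro, h0, prod_empty]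
    have h3 : Real.log q ^ 4 ≤
        (Real.log q ^ 4) ^ (a.primeFactors.filter (fun p => w < p)).card :=
      le_self_pow₀ h4 h2
    gcongr

theorem last_nonneg {q a w : ℕ} (hq : 1 ≤ Real.log q) :
    0 ≤ (if ro w a = 1 then 1 else (a.divisors.card : ℝ) * (Real.log q) ^ 4) := by
  split_ifs
  · exact zero_le_one
  · positivity

theorem Wt_nonneg {q : ℕ} {C : ℝ} (hC : 1 ≤ C) (hq : 1 ≤ Real.log q) (a : ℕ) :
    0 ≤ Wt q C a := by
  unfold Wt
  refine mul_nonneg (mul_nonneg (mul_nonneg (by positivity) (by positivity)) ?_) (last_nonneg hq)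
  refine prod_nonneg fun p hp => ?_
  have := (Nat.prime_of_mem_primeFactors (filter_subset _ _ hp)).one_lt.le
  have h2 : (1 : ℝ) ≤ p := by exact_mod_cast this
  exact div_nonneg (Real.log_nonneg h2) (by linarith)

/-- the product of two weights -/
theorem wt_mul_le {q : ℕ} {C : ℝ} (hC : 1 ≤ C) (hq : 1 ≤ Real.log q) {a b : ℕ} (ha : a ≠ 0)
    (hb : b ≠ 0) (hab : Nat.Coprime a b) :
    Wt q C a * Wt q C b ≤ C ^ ((a * b).primeFactors.card + 2) *
      ((((a * b).primeFactors.filter (fun p => p ≤ ww q)).card.factorial : ℝ)) ^ (21 / 20 : ℝ) *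
      (∏ p ∈ (a * b).primeFactors.filter (fun p => p ≤ ww q), (Real.log p / Real.log q)) *
      (a.divisors.card * b.divisors.card *
        (Real.log q ^ 4) ^ ((a * b).primeFactors.filter (fun p => ww q < p)).card) := by
  have hd : Disjoint a.primeFactors b.primeFactors := hab.disjoint_primeFactors
  have hu : (a * b).primeFactors = a.primeFactors ∪ b.primeFactors := hab.primeFactors_mul
  have hdf : ∀ (P : ℕ → Prop) [DecidablePred P],
      Disjoint (a.primeFactors.filter P) (b.primeFactors.filter P) := fun P _ =>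
    disjoint_filter_filter hd
  rw [hu, filter_union, filter_union, card_union_of_disjoint hd, card_union_of_disjoint (hdf _),
    card_union_of_disjoint (hdf _), prod_union (hdf _)]
  set ka := (a.primeFactors.filter (fun p => p ≤ ww q)).card with hka
  set kb := (b.primeFactors.filter (fun p => p ≤ ww q)).card with hkb
  set ra := (a.primeFactors.filter (fun p => ww q < p)).card with hra
  set rb := (b.primeFactors.filter (fun p => ww q < p)).card with hrb
  have hf : ((ka.factorial : ℝ)) ^ (21 / 20 : ℝ) * ((kb.factorial : ℝ)) ^ (21 / 20 : ℝ) ≤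
      (((ka + kb).factorial : ℝ)) ^ (21 / 20 : ℝ) := by
    rw [← Real.mul_rpow (Nat.cast_nonneg _) (Nat.cast_nonneg _)]
    refine Real.rpow_le_rpow (by positivity) ?_ (by norm_num)
    have := Nat.le_of_dvd (Nat.factorial_pos _) (Nat.factorial_mul_factorial_dvd_factorial_add ka kb)
    exact_mod_cast this
  have hp : ∀ x : ℕ, 0 ≤ ∏ p ∈ x.primeFactors.filter (fun p => p ≤ ww q),
      (Real.log p / Real.log q) := fun x => by
    refine prod_nonneg fun p hp => ?_
    have := (Nat.prime_of_mem_primeFactors (filter_subset _ _ hp)).one_lt.le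
    have h2 : (1 : ℝ) ≤ p := by exact_mod_cast this
    exact div_nonneg (Real.log_nonneg h2) (by linarith)
  have hla := last_le (w := ww q) ha hq
  have hlb := last_le (w := ww q) hb hq
  have hna := last_nonneg (a := a) (w := ww q) hq
  have hnb := last_nonneg (a := b) (w := ww q) hq
  unfold Wt
  set A := (if ro (ww q) a = 1 then 1 else (a.divisors.card : ℝ) * (Real.log q) ^ 4) with hA
  set B := (if ro (ww q) b = 1 then 1 else (b.divisors.card : ℝ) * (Real.log q) ^ 4) with hB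
  set Pa := ∏ p ∈ a.primeFactors.filter (fun p => p ≤ ww q), (Real.log p / Real.log q) with hPa
  set Pb := ∏ p ∈ b.primeFactors.filter (fun p => p ≤ ww q), (Real.log p / Real.log q) with hPb
  have hpa : 0 ≤ Pa := hp a
  have hpb : 0 ≤ Pb := hp b
  calc C ^ (a.primeFactors.card + 1) * ((ka.factorial : ℝ)) ^ (21 / 20 : ℝ) * Pa * A *
      (C ^ (b.primeFactors.card + 1) * ((kb.factorial : ℝ)) ^ (21 / 20 : ℝ) * Pb * B)
      = C ^ (a.primeFactors.card + b.primeFactors.card + 2) *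
        (((ka.factorial : ℝ)) ^ (21 / 20 : ℝ) * ((kb.factorial : ℝ)) ^ (21 / 20 : ℝ)) *
        (Pa * Pb) * (A * B) := by ring
    _ ≤ C ^ (a.primeFactors.card + b.primeFactors.card + 2) *
        ((((ka + kb).factorial : ℝ)) ^ (21 / 20 : ℝ)) * (Pa * Pb) *
        ((a.divisors.card * (Real.log q ^ 4) ^ ra) * (b.divisors.card * (Real.log q ^ 4) ^ rb)) := by
        gcongr
    _ = _ := by ring

/-- the pointwise bound -/
theorem point (C : ℝ) (hC : 1 ≤ C) :
    ∃ K : ℝ, 0 ≤ K ∧ ∀ (q : ℕ) (_ : 1 ≤ Real.log q) (a b i l k : ℕ), Nat.Coprime a b →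
      2 ^ i ≤ a → a < 2 ^ (i + 1) → 2 ^ l ≤ b → b < 2 ^ (l + 1) →
      a.primeFactors.card + b.primeFactors.card = k →
      Wt q C a * Wt q C b / Real.sqrt ((a : ℝ) * b) *
        ((9 * Real.log q) ^ k / k.factorial * (2 : ℝ) ^ (0.34 * ((i : ℝ) + l + 2))) ≤
        K * (2 : ℝ) ^ (-(0.06 * ((i : ℝ) + l + 2))) := by
  obtain ⟨C₁, hC₁, hfac⟩ := fac_bound (9 * C) 0.01 (by linarith) (by norm_num)
  obtain ⟨C₂, hC₂, hdiv⟩ := Pool.Agent.M848.divisor_bound 0.01 (by norm_num)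
  refine ⟨2 * C ^ 2 * C₁ ^ 2 * C₂ ^ 2, by positivity, ?_⟩
  intro q hq a b i l k hab hai hai' hbl hbl' hk
  have ha : a ≠ 0 := by
    have : 0 < 2 ^ i := by positivity
    omega
  have hb : b ≠ 0 := by
    have : 0 < 2 ^ l := by positivity
    omega
  have hN : a * b ≠ 0 := mul_ne_zero ha hb
  set L : ℕ := i + l + 2 with hL
  have hLr : ((i : ℝ) + l + 2) = (L : ℝ) := by rw [hL]; push_cast; ring
  rw [hLr]
  have hNlt : a * b < 2 ^ L := by
    calc a * b < 2 ^ (i + 1) * 2 ^ (l + 1) := Nat.mul_lt_mul'' hai' hbl'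
      _ = 2 ^ L := by rw [← pow_add, hL]; congr 1; ring
  have hNge : 2 ^ (i + l) ≤ a * b := by
    rw [pow_add]
    exact Nat.mul_le_mul hai hbl
  set S := (a * b).primeFactors.filter (fun p => p ≤ ww q) with hS
  set R := (a * b).primeFactors.filter (fun p => ww q < p) with hR
  set ks := S.card with hks
  set kr := R.card with hkr
  have hcard : (a * b).primeFactors.card = k := by
    rw [hab.primeFactors_mul, card_union_of_disjoint hab.disjoint_primeFactors, hk]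
  have hksr : ks + kr = k := by
    rw [← hcard, hks, hkr, hS, hR]
    rw [← card_union_of_disjoint]
    · congr 1
      ext p
      simp only [mem_union, mem_filter]
      constructor
      · rintro (h | h) <;> exact h.1
      · intro h
        rcases le_or_gt p (ww q) with h' | h'
        · exact Or.inl ⟨h, h'⟩
        · exact Or.inr ⟨h, h'⟩
    · rw [disjoint_left]
      intro p hp hp'
      have h1 := (mem_filter.mp hp).2
      have h2 := (mem_filter.mp hp').2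
      omega
  have hksf : ks.factorial ≤ 2 ^ L := (fac_filter_le hN _).trans hNlt.le
  have hkrf : kr.factorial ≤ 2 ^ L := (fac_filter_le hN _).trans hNlt.le
  obtain ⟨f1, -⟩ := hfac L ks hksf
  obtain ⟨-, f2⟩ := hfac L kr hkrf
  have hNr : ((a * b : ℕ) : ℝ) ≤ (2 : ℝ) ^ (L : ℝ) := by
    rw [Real.rpow_natCast]
    exact_mod_cast hNlt.le
  have hksfr : ((ks.factorial : ℝ)) ≤ (2 : ℝ) ^ (L : ℝ) := by
    rw [Real.rpow_natCast]
    exact_mod_cast hksf
  have hfpos : (0 : ℝ) < ks.factorial := by exact_mod_cast Nat.factorial_pos ks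
  -- f3
  have f3 : ((ks.factorial : ℝ)) ^ (1 / 20 : ℝ) ≤ (2 : ℝ) ^ (0.05 * (L : ℝ)) := by
    calc ((ks.factorial : ℝ)) ^ (1 / 20 : ℝ) ≤ ((2 : ℝ) ^ (L : ℝ)) ^ (1 / 20 : ℝ) :=
          Real.rpow_le_rpow hfpos.le hksfr (by norm_num)
      _ = (2 : ℝ) ^ (0.05 * (L : ℝ)) := by
          rw [← Real.rpow_mul (by norm_num)]
          congr 1
          ring
  -- f4
  have hL0 : 0 < Real.log q := by linarith
  have f4 : (Real.log q ^ 5) ^ kr ≤ (2 : ℝ) ^ (0.02 * (L : ℝ)) := by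
    have hw : Real.log q ^ 300 ≤ (ww q : ℝ) + 1 := (Nat.lt_floor_add_one _).le
    have h1 : (Real.log q ^ 300) ^ kr ≤ (2 : ℝ) ^ (L : ℝ) :=
      (rough_le hN (by positivity) hw).trans hNr
    have h2 : (Real.log q ^ 5) ^ kr = ((Real.log q ^ 300) ^ kr) ^ (1 / 60 : ℝ) := by
      rw [← pow_mul, ← pow_mul, ← Real.rpow_natCast, ← Real.rpow_natCast, ← Real.rpow_mul hL0.le]
      congr 1
      push_cast
      ring
    rw [h2]
    calc ((Real.log q ^ 300) ^ kr) ^ (1 / 60 : ℝ) ≤ ((2 : ℝ) ^ (L : ℝ)) ^ (1 / 60 : ℝ) :=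
          Real.rpow_le_rpow (by positivity) h1 (by norm_num)
      _ = (2 : ℝ) ^ ((L : ℝ) * (1 / 60)) := by rw [← Real.rpow_mul (by norm_num)]
      _ ≤ (2 : ℝ) ^ (0.02 * (L : ℝ)) := by
          apply Real.rpow_le_rpow_of_exponent_le (by norm_num)
          have : (0 : ℝ) ≤ L := Nat.cast_nonneg _
          linarith
  -- f5
  have f5 : (a.divisors.card : ℝ) * b.divisors.card ≤ C₂ ^ 2 * (2 : ℝ) ^ (0.01 * (L : ℝ)) := by
    have h1 := hdiv a (Nat.pos_of_ne_zero ha)
    have h2 := hdiv b (Nat.pos_of_ne_zero hb)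
    calc (a.divisors.card : ℝ) * b.divisors.card
        ≤ (C₂ * (a : ℝ) ^ (0.01 : ℝ)) * (C₂ * (b : ℝ) ^ (0.01 : ℝ)) := by gcongr
      _ = C₂ ^ 2 * (((a * b : ℕ) : ℝ)) ^ (0.01 : ℝ) := by
          rw [Nat.cast_mul, Real.mul_rpow (Nat.cast_nonneg _) (Nat.cast_nonneg _)]
          ring
      _ ≤ C₂ ^ 2 * ((2 : ℝ) ^ (L : ℝ)) ^ (0.01 : ℝ) := by gcongr
      _ = C₂ ^ 2 * (2 : ℝ) ^ (0.01 * (L : ℝ)) := by
          rw [← Real.rpow_mul (by norm_num)]
          congr 2
          ring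
  -- f6
  have hab0 : (0 : ℝ) < (a : ℝ) * b := by positivity
  have f6 : 1 / Real.sqrt ((a : ℝ) * b) ≤ 2 * (2 : ℝ) ^ (-(0.5 * (L : ℝ))) := by
    have h1 : (2 : ℝ) ^ ((L : ℝ) - 2) ≤ (a : ℝ) * b := by
      have h2 : ((i + l : ℕ) : ℝ) = (L : ℝ) - 2 := by rw [hL]; push_cast; ring
      rw [← h2, Real.rpow_natCast]
      exact_mod_cast hNge
    have h3 : (2 : ℝ) ^ (0.5 * ((L : ℝ) - 2)) ≤ Real.sqrt ((a : ℝ) * b) := by
      apply Real.le_sqrt_of_sq_le
      rw [← Real.rpow_natCast, ← Real.rpow_mul (by norm_num)]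
      convert! h1 using 2
      push_cast
      ring
    have h4 : (0 : ℝ) < (2 : ℝ) ^ (0.5 * ((L : ℝ) - 2)) := by positivity
    calc 1 / Real.sqrt ((a : ℝ) * b) ≤ 1 / (2 : ℝ) ^ (0.5 * ((L : ℝ) - 2)) :=
          one_div_le_one_div_of_le h4 h3
      _ = 2 * (2 : ℝ) ^ (-(0.5 * (L : ℝ))) := by
          rw [one_div, ← Real.rpow_neg (by norm_num)]
          have : (2 : ℝ) * (2 : ℝ) ^ (-(0.5 * (L : ℝ))) =
              (2 : ℝ) ^ (1 : ℝ) * (2 : ℝ) ^ (-(0.5 * (L : ℝ))) := by rw [Real.rpow_one]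
          rw [this, ← Real.rpow_add (by norm_num)]
          congr 1
          ring
  -- product of logarithms
  have hlog0 : ∀ p ∈ S, 0 ≤ Real.log (p : ℝ) := fun p hp => by
    have := (Nat.prime_of_mem_primeFactors (filter_subset _ _ hp)).one_lt.le
    exact Real.log_nonneg (by exact_mod_cast this)
  have f7 : (∏ p ∈ S, Real.log (p : ℝ)) * ks.factorial ≤ (L : ℝ) ^ ks := by
    refine (prod_mul_factorial_le S (fun p => Real.log (p : ℝ)) hlog0).trans ?_
    have h1 : ∑ p ∈ S, Real.log (p : ℝ) ≤ L := by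
      refine (log_sum_le hN _).trans ?_
      have h2 : Real.log ((a * b : ℕ) : ℝ) ≤ Real.log ((2 : ℝ) ^ (L : ℝ)) :=
        Real.log_le_log (by exact_mod_cast Nat.pos_of_ne_zero hN) hNr
      rw [Real.log_rpow (by norm_num)] at h2
      have h3 : Real.log 2 ≤ 1 := by
        have := Real.log_two_lt_d9
        linarith
      have h4 : (0 : ℝ) ≤ L := Nat.cast_nonneg _
      nlinarith
    exact pow_le_pow_left₀ (sum_nonneg hlog0) h1 _
  have f8 : ((ks.factorial : ℝ)) ^ (21 / 20 : ℝ) *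
      (∏ p ∈ S, (Real.log p / Real.log q)) ≤
      ((ks.factorial : ℝ)) ^ (1 / 20 : ℝ) * ((L : ℝ) ^ ks / Real.log q ^ ks) := by
    have h1 : ((ks.factorial : ℝ)) ^ (21 / 20 : ℝ) =
        ((ks.factorial : ℝ)) ^ (1 / 20 : ℝ) * ks.factorial := by
      rw [show (21 / 20 : ℝ) = 1 / 20 + 1 by norm_num, Real.rpow_add hfpos, Real.rpow_one]
    have h2 : (∏ p ∈ S, (Real.log p / Real.log q)) =
        (∏ p ∈ S, Real.log (p : ℝ)) / Real.log q ^ ks := by
      rw [prod_div_distrib, prod_const]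
    rw [h1, h2]
    have h3 : 0 < Real.log q ^ ks := by positivity
    calc ((ks.factorial : ℝ)) ^ (1 / 20 : ℝ) * ks.factorial *
          ((∏ p ∈ S, Real.log (p : ℝ)) / Real.log q ^ ks)
        = ((ks.factorial : ℝ)) ^ (1 / 20 : ℝ) *
          (((∏ p ∈ S, Real.log (p : ℝ)) * ks.factorial) / Real.log q ^ ks) := by ring
      _ ≤ _ := by gcongr
  have hW := wt_mul_le hC hq ha hb hab
  rw [hcard] at hW
  have hkk : (1 : ℝ) / k.factorial ≤ 1 / ks.factorial := by
    apply one_div_le_one_div_of_le hfpos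
    have : ks.factorial ≤ k.factorial := Nat.factorial_le (by omega)
    exact_mod_cast this
  have hτ0 : (0 : ℝ) ≤ (a.divisors.card : ℝ) * b.divisors.card := by positivity
  have hkpos : (0 : ℝ) < k.factorial := by exact_mod_cast Nat.factorial_pos k
  have hsq : 0 < Real.sqrt ((a : ℝ) * b) := Real.sqrt_pos.mpr hab0
  have hC0 : 0 < C := by linarith
  have hPS : 0 ≤ ∏ p ∈ S, (Real.log p / Real.log q) :=
    prod_nonneg fun p hp => div_nonneg (hlog0 p hp) hL0.le
  -- first combine the weights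
  have g1 : Wt q C a * Wt q C b ≤ C ^ (k + 2) *
      (((ks.factorial : ℝ)) ^ (1 / 20 : ℝ) * ((L : ℝ) ^ ks / Real.log q ^ ks)) *
      ((a.divisors.card : ℝ) * b.divisors.card * (Real.log q ^ 4) ^ kr) := by
    refine hW.trans ?_
    rw [mul_assoc (C ^ (k + 2))]
    gcongr
  calc Wt q C a * Wt q C b / Real.sqrt ((a : ℝ) * b) *
        ((9 * Real.log q) ^ k / k.factorial * (2 : ℝ) ^ (0.34 * (L : ℝ)))
      = Wt q C a * Wt q C b * ((9 * Real.log q) ^ k * (1 / k.factorial)) *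
        (1 / Real.sqrt ((a : ℝ) * b)) * (2 : ℝ) ^ (0.34 * (L : ℝ)) := by
        rw [div_eq_mul_one_div, div_eq_mul_one_div _ (k.factorial : ℝ)]
        ring
    _ ≤ (C ^ (k + 2) *
        (((ks.factorial : ℝ)) ^ (1 / 20 : ℝ) * ((L : ℝ) ^ ks / Real.log q ^ ks)) *
        ((a.divisors.card : ℝ) * b.divisors.card * (Real.log q ^ 4) ^ kr)) *
        ((9 * Real.log q) ^ k * (1 / ks.factorial)) *
        (2 * (2 : ℝ) ^ (-(0.5 * (L : ℝ)))) * (2 : ℝ) ^ (0.34 * (L : ℝ)) := by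
        gcongr
    _ = 2 * C ^ 2 * ((9 * C * L) ^ ks / ks.factorial) * ((ks.factorial : ℝ)) ^ (1 / 20 : ℝ) *
        (9 * C) ^ kr * (Real.log q ^ 5) ^ kr * ((a.divisors.card : ℝ) * b.divisors.card) *
        ((2 : ℝ) ^ (-(0.5 * (L : ℝ))) * (2 : ℝ) ^ (0.34 * (L : ℝ))) := by
        have h9 : (Real.log q ^ 4) ^ kr * Real.log q ^ kr = (Real.log q ^ 5) ^ kr := by
          rw [← mul_pow]; ring
        have h10 : C ^ (k + 2) = C ^ ks * C ^ kr * C ^ 2 := by
          rw [← hksr, pow_add, pow_add]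
        have h11 : (9 * Real.log q) ^ k = 9 ^ ks * 9 ^ kr * (Real.log q ^ ks * Real.log q ^ kr) := by
          rw [← hksr, pow_add, mul_pow, mul_pow]; ring
        have h12 : (9 * C * (L : ℝ)) ^ ks / ks.factorial =
            (9 ^ ks * C ^ ks * (L : ℝ) ^ ks) * (1 / ks.factorial) := by
          rw [mul_pow, mul_pow, div_eq_mul_one_div]
        rw [← h9, h10, h11, h12, mul_pow 9 C kr]
        exact alg1 (pow_ne_zero _ hL0.ne')
    _ ≤ 2 * C ^ 2 * (C₁ * (2 : ℝ) ^ (0.01 * (L : ℝ))) * (2 : ℝ) ^ (0.05 * (L : ℝ)) *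
        (C₁ * (2 : ℝ) ^ (0.01 * (L : ℝ))) * (2 : ℝ) ^ (0.02 * (L : ℝ)) *
        (C₂ ^ 2 * (2 : ℝ) ^ (0.01 * (L : ℝ))) *
        ((2 : ℝ) ^ (-(0.5 * (L : ℝ))) * (2 : ℝ) ^ (0.34 * (L : ℝ))) := by
        gcongr
    _ = 2 * C ^ 2 * C₁ ^ 2 * C₂ ^ 2 *
        ((2 : ℝ) ^ (0.01 * (L : ℝ)) * (2 : ℝ) ^ (0.05 * (L : ℝ)) *
        (2 : ℝ) ^ (0.01 * (L : ℝ)) * (2 : ℝ) ^ (0.02 * (L : ℝ)) *
        (2 : ℝ) ^ (0.01 * (L : ℝ)) *
        (2 : ℝ) ^ (-(0.5 * (L : ℝ))) * (2 : ℝ) ^ (0.34 * (L : ℝ))) := by ring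
    _ = 2 * C ^ 2 * C₁ ^ 2 * C₂ ^ 2 * (2 : ℝ) ^ (-(0.06 * (L : ℝ))) := by
        simp only [← Real.rpow_add (show (0 : ℝ) < 2 by norm_num)]
        congr 2
        ring

/-- the number of pairs -/
theorem count {q : ℕ} [NeZero q] (hq : q.Prime) (hq0 : 200 ≤ Real.log q) (H : Subgroup (ZMod q)ˣ)
    (hH : (Nat.card H : ℝ) ≤ (q : ℝ) ^ (1 / 3 : ℝ)) (i l k : ℕ)
    (hil : ((2 : ℝ) ^ (i + l)) ≤ (q : ℝ) ^ kap) :
    ((NK H i l k).card : ℝ) ≤
      (9 * Real.log q) ^ k / k.factorial * (2 : ℝ) ^ (0.34 * ((i : ℝ) + l + 2)) := by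
  have hq1 : (0 : ℝ) < q := by exact_mod_cast hq.pos
  have hlog2 : 0.6931 < Real.log 2 := by
    have := Real.log_two_gt_d9
    linarith
  have hlog2' : Real.log 2 < 0.6932 := by
    have := Real.log_two_lt_d9
    linarith
  set L : ℝ := (i : ℝ) + l + 2 with hL
  have hL2 : 2 ≤ L := by
    have h1 : (0 : ℝ) ≤ i := Nat.cast_nonneg _
    have h2 : (0 : ℝ) ≤ l := Nat.cast_nonneg _
    linarith
  rcases Nat.eq_zero_or_pos k with hk | hk
  · -- only the pair (1, 1)
    classical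
    subst hk
    have h1 : (NK H i l 0).card ≤ 1 := by
      refine card_le_one.mpr ?_
      have key : ∀ p ∈ NK H i l 0, p = (1, 1) := by
        intro p hp
        rw [NK, mem_filter, NB, mem_filter, mem_product, mem_Ico, mem_Ico] at hp
        obtain ⟨⟨⟨⟨h1, -⟩, h2, -⟩, -⟩, h3⟩ := hp
        have e1 : p.1.primeFactors.card = 0 := by omega
        have e2 : p.2.primeFactors.card = 0 := by omega
        rw [card_eq_zero, Nat.primeFactors_eq_empty] at e1 e2
        have p1 : 0 < 2 ^ i := by positivity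
        have p2 : 0 < 2 ^ l := by positivity
        ext
        · show p.1 = 1
          omega
        · show p.2 = 1
          omega
      intro x hx y hy
      rw [key x hx, key y hy]
    have h2 : ((NK H i l 0).card : ℝ) ≤ 1 := by exact_mod_cast h1
    have h3 : (1 : ℝ) ≤ (2 : ℝ) ^ (0.34 * L) :=
      Real.one_le_rpow (by norm_num) (by linarith)
    simpa using h2.trans h3
  -- the exponent
  set L0 := Real.log q with hL0
  have hq2 : (q : ℝ) = Real.exp L0 := (Real.exp_log hq1).symm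
  have hLsmall : L * Real.log 2 ≤ L0 / 100 := by
    have h1 := Real.log_le_log (by positivity) hil
    rw [Real.log_pow, Real.log_rpow hq1] at h1
    have h2 : ((i + l : ℕ) : ℝ) = (i : ℝ) + l := by push_cast; ring
    rw [h2] at h1
    have h3 : L * Real.log 2 = ((i : ℝ) + l) * Real.log 2 + 2 * Real.log 2 := by
      rw [hL]; ring
    rw [h3]
    have h4 : kap * Real.log q = 1 / 10 ^ 6 * L0 := rfl
    rw [h4] at h1
    linarith
  have hLpos : 0 < L * Real.log 2 := by positivity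
  set j : ℕ := ⌊L0 / (L * Real.log 2)⌋₊ with hj
  have hj1 : (j : ℝ) ≤ L0 / (L * Real.log 2) := Nat.floor_le (by positivity)
  have hj2 : L0 / (L * Real.log 2) < j + 1 := Nat.lt_floor_add_one _
  have hj3 : (j : ℝ) * (L * Real.log 2) ≤ L0 := by
    rwa [le_div_iff₀ hLpos] at hj1
  have hj4 : L0 - L * Real.log 2 < j * (L * Real.log 2) := by
    rw [div_lt_iff₀ hLpos] at hj2
    linarith
  have hjpos : 1 ≤ j := by
    by_contra h0
    have : j = 0 := by omega
    rw [this] at hj4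
    simp only [Nat.cast_zero, zero_mul] at hj4
    linarith
  have hjr : (1 : ℝ) ≤ j := by exact_mod_cast hjpos
  have hpow : 2 ^ ((i + l + 2) * j) ≤ q := by
    have h1 : ((2 : ℝ)) ^ ((i + l + 2) * j) ≤ q := by
      rw [hq2, ← Real.log_le_iff_le_exp (by positivity), Real.log_pow]
      push_cast
      rw [hL] at hj3
      linarith
    exact_mod_cast h1
  have hcount := small_count hq H i l k j hk hjpos hpow
  refine hcount.trans ?_
  have hbase : 6 * (j : ℝ) * ((i : ℝ) + l + 2) ≤ 9 * L0 := by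
    rw [← hL]
    have h1 : (j : ℝ) * L * 0.6931 ≤ L0 := by
      have : (j : ℝ) * L * 0.6931 ≤ j * L * Real.log 2 := by gcongr
      linarith
    have h2 : 0 ≤ (j : ℝ) * L := by positivity
    linarith
  have hroot : ((Nat.card H : ℝ)) ^ (1 / (j : ℝ)) ≤ (2 : ℝ) ^ (0.34 * L) := by
    calc ((Nat.card H : ℝ)) ^ (1 / (j : ℝ))
        ≤ ((q : ℝ) ^ (1 / 3 : ℝ)) ^ (1 / (j : ℝ)) :=
          Real.rpow_le_rpow (Nat.cast_nonneg _) hH (by positivity)
      _ = Real.exp (L0 * (1 / 3) * (1 / (j : ℝ))) := by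
          rw [hq2, ← Real.exp_mul, ← Real.exp_mul]
      _ ≤ Real.exp (Real.log 2 * (0.34 * L)) := by
          apply Real.exp_le_exp.mpr
          have h1 : L0 ≤ 1.02 * (j * (L * Real.log 2)) := by linarith
          have h2 : L0 * (1 / 3) * (1 / (j : ℝ)) = L0 / (3 * j) := by
            field_simp
          rw [h2, div_le_iff₀ (by positivity)]
          linarith
      _ = (2 : ℝ) ^ (0.34 * L) := by
          rw [Real.rpow_def_of_pos (by norm_num)]
  have hk0 : (0 : ℝ) < k.factorial := by exact_mod_cast Nat.factorial_pos k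
  gcongr

theorem sum_geom (ρ : ℝ) (h0 : 0 ≤ ρ) (h1 : ρ < 1) :
    ∃ M : ℝ, 0 ≤ M ∧ ∀ n : ℕ, ∑ i ∈ range n, ((i : ℝ) + 1) * ρ ^ i ≤ M := by
  have hs : Summable (fun i : ℕ => ((i : ℝ) + 1) * ρ ^ i) := by
    have h2 := summable_pow_mul_geometric_of_norm_lt_one 1
      (show ‖ρ‖ < 1 by rwa [Real.norm_of_nonneg h0])
    have h3 := summable_geometric_of_lt_one h0 h1
    refine (h2.add h3).congr fun i => ?_
    ring
  refine ⟨∑' i : ℕ, ((i : ℝ) + 1) * ρ ^ i, tsum_nonneg fun i => by positivity, fun n => ?_⟩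
  exact hs.sum_le_tsum (range n) fun i _ => by positivity

end WSum

theorem weight_sum (C : ℝ) (hC : 1 ≤ C) :
    ∃ C' : ℝ, ∃ q₀ : ℕ, ∀ (q : ℕ) [NeZero q] (H : Subgroup (ZMod q)ˣ),
      q.Prime → q₀ ≤ q → (Nat.card H : ℝ) ≤ (q : ℝ) ^ (1 / 3 : ℝ) →
      ∑ p ∈ (HC H q).filter (fun p => (p.1 : ℝ) * p.2 ≤ (q : ℝ) ^ kap),
        Wt q C p.1 * Wt q C p.2 / Real.sqrt ((p.1 : ℝ) * p.2) ≤ C' := by
  classical
  obtain ⟨K, hK, hpoint⟩ := WSum.point C hC
  set ρ : ℝ := (2 : ℝ) ^ (-0.06 : ℝ) with hρ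
  have hρ0 : 0 < ρ := by positivity
  have hρ1 : ρ < 1 := Real.rpow_lt_one_of_one_lt_of_neg (by norm_num) (by norm_num)
  obtain ⟨M, hM, hgeom⟩ := WSum.sum_geom ρ hρ0.le hρ1
  refine ⟨K * M ^ 2, ⌈Real.exp 200⌉₊, ?_⟩
  intro q _ H hq hq0 hH
  have hq1 : (0 : ℝ) < q := by exact_mod_cast hq.pos
  have hL0 : 200 ≤ Real.log q := by
    rw [Real.le_log_iff_exp_le hq1]
    exact (Nat.le_ceil _).trans (by exact_mod_cast hq0)
  have hL1 : 1 ≤ Real.log q := by linarith
  set T := (HC H q).filter (fun p => (p.1 : ℝ) * p.2 ≤ (q : ℝ) ^ kap) with hT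
  set f : ℕ × ℕ → ℝ := fun p => Wt q C p.1 * Wt q C p.2 / Real.sqrt ((p.1 : ℝ) * p.2) with hf
  have hmem : ∀ p ∈ T, p.1 ∈ Icc 1 q ∧ p.2 ∈ Icc 1 q ∧ Nat.Coprime p.1 p.2 ∧ RH H p.1 p.2 ∧
      (p.1 : ℝ) * p.2 ≤ (q : ℝ) ^ kap := by
    intro p hp
    rw [hT, mem_filter, HC, mem_filter, mem_product] at hp
    exact ⟨hp.1.1.1, hp.1.1.2, hp.1.2.1, hp.1.2.2, hp.2⟩
  -- the sum over one class
  have hclass : ∀ i l k : ℕ,
      ∑ p ∈ T.filter (fun p => (Nat.log 2 p.1, Nat.log 2 p.2) = (i, l) ∧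
        p.1.primeFactors.card + p.2.primeFactors.card = k), f p ≤
        K * (2 : ℝ) ^ (-(0.06 * ((i : ℝ) + l + 2))) := by
    intro i l k
    set F := T.filter (fun p => (Nat.log 2 p.1, Nat.log 2 p.2) = (i, l) ∧
        p.1.primeFactors.card + p.2.primeFactors.card = k) with hF
    have hFm : ∀ p ∈ F, p ∈ T ∧ 2 ^ i ≤ p.1 ∧ p.1 < 2 ^ (i + 1) ∧ 2 ^ l ≤ p.2 ∧
        p.2 < 2 ^ (l + 1) ∧ p.1.primeFactors.card + p.2.primeFactors.card = k := by
      intro p hp
      rw [hF, mem_filter] at hp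
      obtain ⟨hpT, hil, hk⟩ := hp
      obtain ⟨h1, h2, -⟩ := hmem p hpT
      have e1 : Nat.log 2 p.1 = i := congrArg Prod.fst hil
      have e2 : Nat.log 2 p.2 = l := congrArg Prod.snd hil
      have n1 : p.1 ≠ 0 := by
        have := (mem_Icc.mp h1).1
        omega
      have n2 : p.2 ≠ 0 := by
        have := (mem_Icc.mp h2).1
        omega
      refine ⟨hpT, ?_, ?_, ?_, ?_, hk⟩
      · rw [← e1]; exact Nat.pow_log_le_self 2 n1
      · rw [← e1]; exact Nat.lt_pow_succ_log_self (by norm_num) _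
      · rw [← e2]; exact Nat.pow_log_le_self 2 n2
      · rw [← e2]; exact Nat.lt_pow_succ_log_self (by norm_num) _
    rcases F.eq_empty_or_nonempty with hF0 | ⟨p₀, hp₀⟩
    · rw [hF0, sum_empty]
      positivity
    have hil : ((2 : ℝ) ^ (i + l)) ≤ (q : ℝ) ^ kap := by
      obtain ⟨hpT, h1, -, h2, -, -⟩ := hFm p₀ hp₀
      obtain ⟨-, -, -, -, h5⟩ := hmem p₀ hpT
      refine le_trans ?_ h5
      rw [pow_add]
      have h1' : ((2 : ℝ) ^ i) ≤ p₀.1 := by exact_mod_cast h1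
      have h2' : ((2 : ℝ) ^ l) ≤ p₀.2 := by exact_mod_cast h2
      gcongr
    set D : ℝ := (9 * Real.log q) ^ k / k.factorial *
      (2 : ℝ) ^ (0.34 * ((i : ℝ) + l + 2)) with hD
    have hDpos : 0 < D := by
      have : (0 : ℝ) < k.factorial := by exact_mod_cast Nat.factorial_pos k
      positivity
    have hsub : F ⊆ NK H i l k := by
      intro p hp
      obtain ⟨hpT, h1, h2, h3, h4, h5⟩ := hFm p hp
      obtain ⟨-, -, h6, h7, -⟩ := hmem p hpT
      rw [NK, mem_filter, NB, mem_filter, mem_product, mem_Ico, mem_Ico]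
      refine ⟨⟨⟨⟨h1, ?_⟩, h3, ?_⟩, h6, h7⟩, h5⟩
      · rw [pow_succ] at h2; omega
      · rw [pow_succ] at h4; omega
    have hcard : (F.card : ℝ) ≤ D := by
      refine le_trans ?_ (WSum.count hq hL0 H hH i l k hil)
      exact_mod_cast card_le_card hsub
    have hpt : ∀ p ∈ F, f p ≤ K * (2 : ℝ) ^ (-(0.06 * ((i : ℝ) + l + 2))) / D := by
      intro p hp
      obtain ⟨hpT, h1, h2, h3, h4, h5⟩ := hFm p hp
      obtain ⟨-, -, h6, -, -⟩ := hmem p hpT
      rw [le_div_iff₀ hDpos]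
      exact hpoint q hL1 p.1 p.2 i l k h6 h1 h2 h3 h4 h5
    calc ∑ p ∈ F, f p ≤ F.card • (K * (2 : ℝ) ^ (-(0.06 * ((i : ℝ) + l + 2))) / D) :=
          sum_le_card_nsmul _ _ _ hpt
      _ = F.card * (K * (2 : ℝ) ^ (-(0.06 * ((i : ℝ) + l + 2))) / D) := by rw [nsmul_eq_mul]
      _ ≤ D * (K * (2 : ℝ) ^ (-(0.06 * ((i : ℝ) + l + 2))) / D) := by
          have : 0 ≤ K * (2 : ℝ) ^ (-(0.06 * ((i : ℝ) + l + 2))) / D := by positivity
          gcongr
      _ = K * (2 : ℝ) ^ (-(0.06 * ((i : ℝ) + l + 2))) := by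
          field_simp
  -- the sum over one dyadic box
  have hbox : ∀ i l : ℕ,
      ∑ p ∈ T.filter (fun p => (Nat.log 2 p.1, Nat.log 2 p.2) = (i, l)), f p ≤
        K * ((((i : ℝ) + 1) * ρ ^ i) * (((l : ℝ) + 1) * ρ ^ l)) := by
    intro i l
    have hmaps : ∀ p ∈ T.filter (fun p => (Nat.log 2 p.1, Nat.log 2 p.2) = (i, l)),
        p.1.primeFactors.card + p.2.primeFactors.card ∈ range (i + l + 1) := by
      intro p hp
      rw [mem_filter] at hp
      obtain ⟨hpT, hil⟩ := hp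
      obtain ⟨h1, h2, -⟩ := hmem p hpT
      have e1 : Nat.log 2 p.1 = i := congrArg Prod.fst hil
      have e2 : Nat.log 2 p.2 = l := congrArg Prod.snd hil
      have key : ∀ n : ℕ, 1 ≤ n → n.primeFactors.card ≤ Nat.log 2 n := by
        intro n hn
        apply Nat.le_log_of_pow_le (by norm_num)
        calc 2 ^ n.primeFactors.card = ∏ _p ∈ n.primeFactors, 2 := by rw [prod_const]
          _ ≤ ∏ p ∈ n.primeFactors, p :=
            prod_le_prod' fun p hp => (Nat.prime_of_mem_primeFactors hp).two_le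
          _ ≤ n := Nat.le_of_dvd hn (Nat.prod_primeFactors_dvd n)
      have k1 := key p.1 (mem_Icc.mp h1).1
      have k2 := key p.2 (mem_Icc.mp h2).1
      rw [mem_range]
      omega
    rw [← sum_fiberwise_of_maps_to hmaps]
    have h1 : ∀ k ∈ range (i + l + 1),
        ∑ p ∈ (T.filter (fun p => (Nat.log 2 p.1, Nat.log 2 p.2) = (i, l))).filter
          (fun p => p.1.primeFactors.card + p.2.primeFactors.card = k), f p ≤
          K * (2 : ℝ) ^ (-(0.06 * ((i : ℝ) + l + 2))) := by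
      intro k _
      rw [filter_filter]
      exact hclass i l k
    refine (sum_le_sum h1).trans ?_
    rw [sum_const, card_range, nsmul_eq_mul]
    have h2 : (2 : ℝ) ^ (-(0.06 * ((i : ℝ) + l + 2))) ≤ ρ ^ i * ρ ^ l := by
      rw [← pow_add, hρ, ← Real.rpow_natCast, ← Real.rpow_mul (by norm_num)]
      apply Real.rpow_le_rpow_of_exponent_le (by norm_num)
      push_cast
      linarith
    have h3 : ((i + l + 1 : ℕ) : ℝ) ≤ ((i : ℝ) + 1) * ((l : ℝ) + 1) := by
      push_cast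
      have : (0 : ℝ) ≤ (i : ℝ) * l := by positivity
      nlinarith
    calc ((i + l + 1 : ℕ) : ℝ) * (K * (2 : ℝ) ^ (-(0.06 * ((i : ℝ) + l + 2))))
        ≤ (((i : ℝ) + 1) * ((l : ℝ) + 1)) * (K * (ρ ^ i * ρ ^ l)) := by gcongr
      _ = _ := by ring
  -- the total
  have hmaps2 : ∀ p ∈ T, (Nat.log 2 p.1, Nat.log 2 p.2) ∈ range (q + 1) ×ˢ range (q + 1) := by
    intro p hp
    obtain ⟨h1, h2, -⟩ := hmem p hp
    rw [mem_product, mem_range, mem_range]
    have e1 := Nat.log_le_self 2 p.1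
    have e2 := Nat.log_le_self 2 p.2
    have e3 := (mem_Icc.mp h1).2
    have e4 := (mem_Icc.mp h2).2
    exact ⟨by show Nat.log 2 p.1 < q + 1; omega, by show Nat.log 2 p.2 < q + 1; omega⟩
  rw [← sum_fiberwise_of_maps_to hmaps2]
  have h1 : ∀ y ∈ range (q + 1) ×ˢ range (q + 1),
      ∑ p ∈ T.filter (fun p => (Nat.log 2 p.1, Nat.log 2 p.2) = y), f p ≤
        K * ((((y.1 : ℝ) + 1) * ρ ^ y.1) * (((y.2 : ℝ) + 1) * ρ ^ y.2)) := by
    rintro ⟨i, l⟩ _
    exact hbox i l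
  refine (sum_le_sum h1).trans ?_
  rw [← mul_sum, sum_product]
  have h2 : ∑ x ∈ range (q + 1), ∑ y ∈ range (q + 1),
      (((x : ℝ) + 1) * ρ ^ x) * (((y : ℝ) + 1) * ρ ^ y) =
      (∑ x ∈ range (q + 1), ((x : ℝ) + 1) * ρ ^ x) ^ 2 := by
    rw [sq, sum_mul_sum]
  simp only
  rw [h2]
  have h3 : 0 ≤ ∑ x ∈ range (q + 1), ((x : ℝ) + 1) * ρ ^ x :=
    sum_nonneg fun x _ => by positivity
  have h4 := hgeom (q + 1)
  gcongr

end Pool.Agent.NV
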