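import Pool.Agent.Lib.MP_afd523_nt.Defs
import Pool.Agent.Lib.MP_afd523_nt.Parts
import Pool.Agent.Lib.MP_afd523_nt.Orth
import Pool.Agent.Lib.MP_afd523_nt.BigSum
import Pool.Agent.Lib.MP_afd523_nt.Fac
import Pool.Agent.Lib.MP_afd523_nt.WSum
import Pool.Agent.Lib.MP_afd523_nt.STau
import Pool.Agent.Lib.MP_afd523_nt.Diag

/-! Project NV (MP_afd523_nt), module S1: the mollified second moment of the smoothed sums. -/

namespace Pool.Agent.NV

open Finset Complex MeasureTheory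

theorem SecA_log_pos {q : ℕ} (hq : 2 ≤ q) : 0 < Real.log q :=
  Real.log_pos (by exact_mod_cast hq)

theorem SecA_yy_pos {q : ℕ} (hq : 2 ≤ q) : 0 < yy q := by
  have : (0 : ℝ) < q := by exact_mod_cast (by omega : 0 < q)
  unfold yy
  positivity

theorem SecA_log_yy {q : ℕ} (hq : 2 ≤ q) : 0 < Real.log (yy q) := by
  have h0 : (0 : ℝ) < q := by exact_mod_cast (by omega : 0 < q)
  unfold yy
  rw [Real.log_rpow h0]
  have := SecA_log_pos hq
  positivity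

theorem SecA_PP_nonneg (q m : ℕ) : 0 ≤ PP q m := le_max_left _ _

theorem SecA_PP_le {q : ℕ} (hq : 2 ≤ q) (m : ℕ) : PP q m ≤ 1 := by
  unfold PP
  refine max_le zero_le_one ?_
  have h1 : 0 ≤ Real.log m := Real.log_natCast_nonneg m
  have h2 := SecA_log_yy hq
  have : 0 ≤ Real.log m / Real.log (yy q) := by positivity
  linarith

theorem SecA_abs_lamq {q : ℕ} (hq : 2 ≤ q) (m : ℕ) : |lamq q m| ≤ 1 := by
  unfold lamq lamf
  split_ifs
  · rw [abs_mul, abs_of_nonneg (SecA_PP_nonneg _ _)]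
    have h1 : |(ArithmeticFunction.moebius m : ℝ)| ≤ 1 := by
      have := ArithmeticFunction.abs_moebius_le_one (n := m)
      exact_mod_cast this
    calc _ ≤ 1 * 1 := mul_le_mul h1 (SecA_PP_le hq _) (SecA_PP_nonneg _ _) zero_le_one
      _ = 1 := one_mul 1
  · simp

theorem SecA_Phi_nonneg (μ : Measure ℝ) (q : ℕ) (r : ℝ) (n : ℕ) : 0 ≤ Phi μ q r n :=
  measureReal_nonneg

theorem SecA_Phi_le {μ : Measure ℝ} (hμ : IsProbabilityMeasure μ) (q : ℕ) (r : ℝ) (n : ℕ) :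
    Phi μ q r n ≤ 1 := by
  unfold Phi
  exact measureReal_le_one

theorem SecA_abs_CN {μ : Measure ℝ} (hμ : IsProbabilityMeasure μ) {q : ℕ} (hq : 2 ≤ q) (r : ℝ)
    (N : ℕ) : |CN μ q r N| ≤ N.divisors.card := by
  unfold CN
  calc |∑ m ∈ N.divisors, lamq q m * Phi μ q r (N / m)|
      ≤ ∑ m ∈ N.divisors, |lamq q m * Phi μ q r (N / m)| := abs_sum_le_sum_abs _ _
    _ ≤ ∑ _m ∈ N.divisors, (1 : ℝ) := by
        apply Finset.sum_le_sum
        intro m _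
        rw [abs_mul, abs_of_nonneg (SecA_Phi_nonneg _ _ _ _)]
        calc _ ≤ (1 : ℝ) * 1 := mul_le_mul (SecA_abs_lamq hq m) (SecA_Phi_le hμ _ _ _)
              (SecA_Phi_nonneg _ _ _ _) zero_le_one
          _ = 1 := one_mul 1
    _ = N.divisors.card := by simp

theorem SecA_lamq_ne {q : ℕ} (hq : 2 ≤ q) {m : ℕ} (hm : m ≠ 0) (h : lamq q m ≠ 0) :
    m ≤ ⌊yy q ^ 2⌋₊ := by
  apply Nat.le_floor
  unfold lamq at h
  by_cases h1 : (sm (ww q) m : ℝ) ≤ yy q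
  · rw [if_pos h1] at h
    have hP : PP q (ro (ww q) m) ≠ 0 := fun h0 => h (by unfold lamf; rw [h0, mul_zero])
    have h2 : Real.log (ro (ww q) m) / Real.log (yy q) < 1 := by
      by_contra hcon
      apply hP
      unfold PP
      rw [max_eq_left]
      linarith
    rw [div_lt_one (SecA_log_yy hq)] at h2
    have hr : (0 : ℝ) < ro (ww q) m := by exact_mod_cast Nat.pos_of_ne_zero (ro_ne_zero _ _)
    have hy := SecA_yy_pos hq
    have h3 : (ro (ww q) m : ℝ) < yy q := (Real.log_lt_log_iff hr hy).1 h2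
    have h4 := sm_mul_ro (ww q) hm
    calc (m : ℝ) = (sm (ww q) m : ℝ) * (ro (ww q) m : ℝ) := by rw [← Nat.cast_mul, h4]
      _ ≤ yy q * yy q := mul_le_mul h1 h3.le hr.le hy.le
      _ = yy q ^ 2 := by ring
  · rw [if_neg h1] at h
    exact absurd rfl h

theorem SecA_Phi_ne {μ : Measure ℝ} {C : ℝ} {K : ℕ} (hμ : Smooth μ C K) {q : ℕ} (hq : 2 ≤ q)
    {r : ℝ} (hr : 0 < r) {n : ℕ} (h : Phi μ q r n ≠ 0) :
    n ≤ ⌊r * (q : ℝ) ^ (51 / 100 : ℝ)⌋₊ := by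
  apply Nat.le_floor
  by_contra hcon
  rw [not_le] at hcon
  apply h
  unfold Phi
  have hL := SecA_log_pos hq
  have h0 : (0 : ℝ) < q := by exact_mod_cast (by omega : 0 < q)
  have h1 : (51 / 100 : ℝ) ≤ (Real.log n - Real.log r) / Real.log q := by
    rw [le_div_iff₀ hL]
    have h2 := Real.log_le_log (by positivity) hcon.le
    rw [Real.log_mul hr.ne' (by positivity), Real.log_rpow h0] at h2
    linarith
  have h3 : μ (Set.Ioi ((Real.log n - Real.log r) / Real.log q)) = 0 := by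
    refine measure_mono_null ?_ hμ.supp
    intro v hv hv2
    exact absurd hv2.2 (not_le.2 (lt_of_le_of_lt h1 hv))
  simp [Measure.real, h3]

theorem SecA_CN_eq {μ : Measure ℝ} {C : ℝ} {K : ℕ} (hμ : Smooth μ C K) {q : ℕ} (hq : 2 ≤ q)
    {r : ℝ} (hr : 0 < r) {N : ℕ} (hN : 1 ≤ N) :
    CN μ q r N = ∑ p ∈ (Icc 1 ⌊r * (q : ℝ) ^ (51 / 100 : ℝ)⌋₊ ×ˢ Icc 1 ⌊yy q ^ 2⌋₊).filter
      (fun p => p.1 * p.2 = N), lamq q p.2 * Phi μ q r p.1 := by
  unfold CN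
  rw [← Finset.sum_filter_of_ne (s := N.divisors) (p := fun m => m ≤ ⌊yy q ^ 2⌋₊ ∧
    N / m ≤ ⌊r * (q : ℝ) ^ (51 / 100 : ℝ)⌋₊)]
  · refine Finset.sum_nbij' (fun m => (N / m, m)) (fun p => p.2) ?_ ?_ ?_ ?_ ?_
    · intro m hm
      rw [Finset.mem_filter, Nat.mem_divisors] at hm
      obtain ⟨⟨hmN, hN0⟩, h1, h2⟩ := hm
      have hm0 : 0 < m := Nat.pos_of_dvd_of_pos hmN hN
      rw [Finset.mem_filter, Finset.mem_product, Finset.mem_Icc, Finset.mem_Icc]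
      exact ⟨⟨⟨Nat.div_pos (Nat.le_of_dvd hN hmN) hm0, h2⟩, hm0, h1⟩, Nat.div_mul_cancel hmN⟩
    · intro p hp
      rw [Finset.mem_filter, Finset.mem_product, Finset.mem_Icc, Finset.mem_Icc] at hp
      obtain ⟨⟨⟨h1, h2⟩, h3, h4⟩, h5⟩ := hp
      rw [Finset.mem_filter, Nat.mem_divisors]
      refine ⟨⟨⟨p.1, by rw [← h5]; ring⟩, by omega⟩, h4, ?_⟩
      rw [← h5, Nat.mul_div_cancel _ h3]
      exact h2
    · intro m _
      rfl
    · intro p hp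
      rw [Finset.mem_filter, Finset.mem_product, Finset.mem_Icc, Finset.mem_Icc] at hp
      obtain ⟨⟨⟨h1, h2⟩, h3, h4⟩, h5⟩ := hp
      apply Prod.ext
      · show N / p.2 = p.1
        rw [← h5, Nat.mul_div_cancel _ h3]
      · rfl
    · intro m _
      rfl
  · intro m hm hne
    rw [Nat.mem_divisors] at hm
    have hm0 : 0 < m := Nat.pos_of_dvd_of_pos hm.1 hN
    have h1 : lamq q m ≠ 0 := fun h0 => hne (by rw [h0, zero_mul])
    have h2 : Phi μ q r (N / m) ≠ 0 := fun h0 => hne (by rw [h0, mul_zero])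
    exact ⟨SecA_lamq_ne hq hm0.ne' h1,
      SecA_Phi_ne hμ hq hr h2⟩

theorem SecA_expand {μ : Measure ℝ} {C : ℝ} {K : ℕ} (hμ : Smooth μ C K) {q : ℕ} [NeZero q]
    (hq : 2 ≤ q) {r : ℝ} (hr : 0 < r) (χ : DirichletCharacter ℂ q) :
    SS μ q r χ * mol q χ =
      ∑ N ∈ Icc 1 (⌊r * (q : ℝ) ^ (51 / 100 : ℝ)⌋₊ * ⌊yy q ^ 2⌋₊),
        ((CN μ q r N : ℝ) : ℂ) / (Real.sqrt N : ℂ) * χ (N : ZMod q) := by
  unfold SS mol
  rw [Finset.sum_mul_sum, ← Finset.sum_product']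
  have hmaps : ∀ p ∈ Icc 1 ⌊r * (q : ℝ) ^ (51 / 100 : ℝ)⌋₊ ×ˢ Icc 1 ⌊yy q ^ 2⌋₊,
      p.1 * p.2 ∈ Icc 1 (⌊r * (q : ℝ) ^ (51 / 100 : ℝ)⌋₊ * ⌊yy q ^ 2⌋₊) := by
    intro p hp
    rw [Finset.mem_product, Finset.mem_Icc, Finset.mem_Icc] at hp
    rw [Finset.mem_Icc]
    exact ⟨Nat.mul_pos hp.1.1 hp.2.1, Nat.mul_le_mul hp.1.2 hp.2.2⟩
  rw [← Finset.sum_fiberwise_of_maps_to hmaps]
  apply Finset.sum_congr rfl
  intro N hN
  rw [Finset.mem_Icc] at hN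
  rw [SecA_CN_eq hμ hq hr hN.1, Complex.ofReal_sum, Finset.sum_div, Finset.sum_mul]
  apply Finset.sum_congr rfl
  intro p hp
  rw [Finset.mem_filter, Finset.mem_product, Finset.mem_Icc, Finset.mem_Icc] at hp
  obtain ⟨⟨⟨h1, h2⟩, h3, h4⟩, h5⟩ := hp
  have hs : Real.sqrt ((N : ℕ) : ℝ) = Real.sqrt (p.1 : ℝ) * Real.sqrt (p.2 : ℝ) := by
    rw [← h5, Nat.cast_mul, Real.sqrt_mul (Nat.cast_nonneg _)]
  have hχ : χ ((N : ℕ) : ZMod q) = χ (p.1 : ZMod q) * χ (p.2 : ZMod q) := by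
    rw [← h5, Nat.cast_mul, map_mul]
  rw [hs, hχ]
  push_cast
  ring

theorem SecA_group {q : ℕ} [NeZero q] (hq : q.Prime) (H : Subgroup (ZMod q)ˣ) (X : ℕ)
    (hX : X < q) (F : ℕ → ℝ) (hF : ∀ n, 0 ≤ F n) :
    ∑ p ∈ HP H X, F p.1 / Real.sqrt p.1 * (F p.2 / Real.sqrt p.2) ≤
      ∑ p ∈ HC H X, 1 / Real.sqrt ((p.1 : ℝ) * p.2) *
        ∑ g ∈ Icc 1 X, F (p.1 * g) * F (p.2 * g) / g := by
  classical
  have hfact : Fact q.Prime := ⟨hq⟩
  have hR : ∑ p ∈ HC H X, 1 / Real.sqrt ((p.1 : ℝ) * p.2) *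
        ∑ g ∈ Icc 1 X, F (p.1 * g) * F (p.2 * g) / g =
      ∑ t ∈ HC H X ×ˢ Icc 1 X, 1 / Real.sqrt ((t.1.1 : ℝ) * t.1.2) *
        (F (t.1.1 * t.2) * F (t.1.2 * t.2) / t.2) := by
    rw [Finset.sum_product]
    apply Finset.sum_congr rfl
    intro p _
    rw [Finset.mul_sum]
  rw [hR]
  set G : (ℕ × ℕ) × ℕ → ℝ := fun t => 1 / Real.sqrt ((t.1.1 : ℝ) * t.1.2) *
        (F (t.1.1 * t.2) * F (t.1.2 * t.2) / t.2) with hG
  set φ : ℕ × ℕ → (ℕ × ℕ) × ℕ := fun p =>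
    ((p.1 / Nat.gcd p.1 p.2, p.2 / Nat.gcd p.1 p.2), Nat.gcd p.1 p.2) with hφ
  have hmem : ∀ p ∈ HP H X, (1 ≤ p.1 ∧ p.1 ≤ X) ∧ (1 ≤ p.2 ∧ p.2 ≤ X) ∧ RH H p.1 p.2 := by
    intro p hp
    unfold HP at hp
    rw [Finset.mem_filter, Finset.mem_product, Finset.mem_Icc, Finset.mem_Icc] at hp
    exact ⟨hp.1.1, hp.1.2, hp.2⟩
  have hinj : Set.InjOn φ (HP H X : Set (ℕ × ℕ)) := by
    intro p hp p' hp' h
    simp only [hφ, Prod.mk.injEq] at h
    obtain ⟨⟨h1, h2⟩, h3⟩ := h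
    apply Prod.ext
    · rw [← Nat.div_mul_cancel (Nat.gcd_dvd_left p.1 p.2), h1, h3,
        Nat.div_mul_cancel (Nat.gcd_dvd_left p'.1 p'.2)]
    · rw [← Nat.div_mul_cancel (Nat.gcd_dvd_right p.1 p.2), h2, h3,
        Nat.div_mul_cancel (Nat.gcd_dvd_right p'.1 p'.2)]
  have hval : ∀ p ∈ HP H X, F p.1 / Real.sqrt p.1 * (F p.2 / Real.sqrt p.2) = G (φ p) := by
    intro p hp
    obtain ⟨h1, h2, -⟩ := hmem p hp
    have hg : 0 < Nat.gcd p.1 p.2 := Nat.gcd_pos_of_pos_left _ h1.1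
    set g := Nat.gcd p.1 p.2 with hgdef
    set a := p.1 / g with ha
    set b := p.2 / g with hb
    have ea : a * g = p.1 := Nat.div_mul_cancel (Nat.gcd_dvd_left p.1 p.2)
    have eb : b * g = p.2 := Nat.div_mul_cancel (Nat.gcd_dvd_right p.1 p.2)
    show F p.1 / Real.sqrt p.1 * (F p.2 / Real.sqrt p.2) =
      1 / Real.sqrt ((a : ℝ) * b) * (F (a * g) * F (b * g) / g)
    rw [ea, eb]
    have e1 : Real.sqrt (p.1 : ℝ) = Real.sqrt a * Real.sqrt g := by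
      rw [← ea, Nat.cast_mul, Real.sqrt_mul (Nat.cast_nonneg _)]
    have e2 : Real.sqrt (p.2 : ℝ) = Real.sqrt b * Real.sqrt g := by
      rw [← eb, Nat.cast_mul, Real.sqrt_mul (Nat.cast_nonneg _)]
    have e3 : (g : ℝ) = Real.sqrt g * Real.sqrt g := (Real.mul_self_sqrt (Nat.cast_nonneg _)).symm
    rw [e1, e2, Real.sqrt_mul (Nat.cast_nonneg _)]
    have ha0 : 0 < a := by
      rcases Nat.eq_zero_or_pos a with h | h
      · rw [h, zero_mul] at ea; omega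
      · exact h
    have hb0 : 0 < b := by
      rcases Nat.eq_zero_or_pos b with h | h
      · rw [h, zero_mul] at eb; omega
      · exact h
    have p1 : 0 < Real.sqrt (a : ℝ) := Real.sqrt_pos.2 (by exact_mod_cast ha0)
    have p2 : 0 < Real.sqrt (b : ℝ) := Real.sqrt_pos.2 (by exact_mod_cast hb0)
    have p3 : 0 < Real.sqrt (g : ℝ) := Real.sqrt_pos.2 (by exact_mod_cast hg)
    rw [div_mul_div_comm, div_mul_div_comm, div_eq_div_iff (by positivity) (by positivity)]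
    conv_rhs => rw [one_mul]
    conv_lhs => rw [e3]
    ring
  rw [Finset.sum_congr rfl hval, ← Finset.sum_image (f := G) hinj]
  apply Finset.sum_le_sum_of_subset_of_nonneg
  · intro t ht
    rw [Finset.mem_image] at ht
    obtain ⟨p, hp, rfl⟩ := ht
    obtain ⟨h1, h2, u, hu, hRH⟩ := hmem p hp
    have hg : 0 < Nat.gcd p.1 p.2 := Nat.gcd_pos_of_pos_left _ h1.1
    have hgX : Nat.gcd p.1 p.2 ≤ X := (Nat.gcd_le_left _ h1.1).trans h1.2
    rw [Finset.mem_product, Finset.mem_Icc]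
    refine ⟨?_, hg, hgX⟩
    show (p.1 / Nat.gcd p.1 p.2, p.2 / Nat.gcd p.1 p.2) ∈ HC H X
    unfold HC
    rw [Finset.mem_filter, Finset.mem_product, Finset.mem_Icc, Finset.mem_Icc]
    refine ⟨⟨⟨Nat.div_pos (Nat.gcd_le_left _ h1.1) hg, (Nat.div_le_self _ _).trans h1.2⟩,
      Nat.div_pos (Nat.gcd_le_right _ h2.1) hg, (Nat.div_le_self _ _).trans h2.2⟩,
      Nat.coprime_div_gcd_div_gcd hg, u, hu, ?_⟩
    set g := Nat.gcd p.1 p.2 with hgdef
    have ea : p.1 / g * g = p.1 := Nat.div_mul_cancel (Nat.gcd_dvd_left p.1 p.2)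
    have eb : p.2 / g * g = p.2 := Nat.div_mul_cancel (Nat.gcd_dvd_right p.1 p.2)
    have hg0 : (g : ZMod q) ≠ 0 := by
      rw [Ne, ZMod.natCast_eq_zero_iff]
      intro hdvd
      have := Nat.le_of_dvd hg hdvd
      omega
    apply mul_right_cancel₀ hg0
    have h3 : (((p.1 / g : ℕ) : ZMod q)) * (g : ZMod q) = (p.1 : ZMod q) := by
      rw [← Nat.cast_mul, ea]
    have h4 : (((p.2 / g : ℕ) : ZMod q)) * (g : ZMod q) = (p.2 : ZMod q) := by
      rw [← Nat.cast_mul, eb]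
    rw [h3, mul_assoc, h4]
    exact hRH
  · intro t _ _
    have := hF (t.1.1 * t.2)
    have := hF (t.1.2 * t.2)
    simp only [hG]
    positivity

theorem SecA_CS (μ : Measure ℝ) (q : ℕ) (r : ℝ) {X : ℕ} (hX : X ≤ q) (a b : ℕ) :
    ∑ g ∈ Icc 1 X, |CN μ q r (a * g)| * |CN μ q r (b * g)| / g ≤
      Real.sqrt (DD μ q r a) * Real.sqrt (DD μ q r b) := by
  have h1 : ∀ g ∈ Icc 1 X, |CN μ q r (a * g)| * |CN μ q r (b * g)| / g =
      (|CN μ q r (a * g)| / Real.sqrt g) * (|CN μ q r (b * g)| / Real.sqrt g) := by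
    intro g _
    rw [div_mul_div_comm, Real.mul_self_sqrt (Nat.cast_nonneg _)]
  have h2 : ∀ c : ℕ, ∑ g ∈ Icc 1 X, (|CN μ q r (c * g)| / Real.sqrt g) ^ 2 ≤ DD μ q r c := by
    intro c
    unfold DD
    have h3 : ∀ g : ℕ, (|CN μ q r (c * g)| / Real.sqrt g) ^ 2 = (CN μ q r (c * g)) ^ 2 / g := by
      intro g
      rw [div_pow, sq_abs, Real.sq_sqrt (Nat.cast_nonneg _)]
    simp only [h3]
    apply Finset.sum_le_sum_of_subset_of_nonneg
    · exact Finset.Icc_subset_Icc le_rfl hX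
    · intro g _ _
      positivity
  rw [Finset.sum_congr rfl h1]
  refine (Real.sum_mul_le_sqrt_mul_sqrt _ _ _).trans ?_
  exact mul_le_mul (Real.sqrt_le_sqrt (h2 a)) (Real.sqrt_le_sqrt (h2 b)) (Real.sqrt_nonneg _)
    (Real.sqrt_nonneg _)

theorem SecA_tau {n : ℕ} (hn : 1 ≤ n) : (n.divisors.card : ℝ) ≤ 2 * Real.sqrt n := by
  classical
  set s := Nat.sqrt n with hs
  have h1 : n.divisors ⊆ Icc 1 s ∪ (Icc 1 s).image (fun d => n / d) := by
    intro d hd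
    rw [Nat.mem_divisors] at hd
    have hd0 : 0 < d := Nat.pos_of_dvd_of_pos hd.1 hn
    rw [Finset.mem_union]
    by_cases h : d ≤ s
    · left
      rw [Finset.mem_Icc]
      exact ⟨hd0, h⟩
    · right
      rw [Finset.mem_image]
      refine ⟨n / d, ?_, ?_⟩
      · rw [Finset.mem_Icc]
        refine ⟨Nat.div_pos (Nat.le_of_dvd hn hd.1) hd0, ?_⟩
        by_contra hcon
        have h2 : d * (n / d) = n := Nat.mul_div_cancel' hd.1
        have h3 : (s + 1) * (s + 1) ≤ d * (n / d) :=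
          Nat.mul_le_mul (by omega) (by omega)
        have h4 : n < (s + 1) * (s + 1) := Nat.lt_succ_sqrt n
        omega
      · exact Nat.div_div_self hd.1 hd.2
  have h2 : n.divisors.card ≤ s + s := by
    refine (Finset.card_le_card h1).trans ((Finset.card_union_le _ _).trans ?_)
    refine Nat.add_le_add ?_ ((Finset.card_image_le).trans ?_)
    · simp
    · simp
  have h3 : (s : ℝ) ≤ Real.sqrt n := by
    rw [hs]
    exact Real.nat_sqrt_le_real_sqrt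
  have h4 : (n.divisors.card : ℝ) ≤ s + s := by exact_mod_cast h2
  linarith

theorem SecA_tau_mul {a g : ℕ} : ((a * g).divisors.card : ℝ) ≤
    a.divisors.card * g.divisors.card := by
  have h : (a * g).divisors.card ≤ a.divisors.card * g.divisors.card := by
    rw [Nat.divisors_mul]
    exact Finset.card_mul_le
  exact_mod_cast h

theorem SecA_large (A s : ℝ) (hA : 0 ≤ A) (hs : 0 < s) (k : ℕ) :
    ∃ q₀ : ℕ, ∀ q : ℕ, q₀ ≤ q → A * (1 + Real.log q) ^ k ≤ (q : ℝ) ^ s := by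
  set δ : ℝ := s / (2 * (k + 1)) with hδ
  have hk : (0 : ℝ) ≤ (k : ℝ) := Nat.cast_nonneg k
  have hδ0 : 0 < δ := by positivity
  have h1 : Filter.Tendsto (fun q : ℕ => (q : ℝ) ^ (s / 2)) Filter.atTop Filter.atTop :=
    (tendsto_rpow_atTop (half_pos hs)).comp tendsto_natCast_atTop_atTop
  obtain ⟨q₁, hq₁⟩ := Filter.eventually_atTop.1
    (h1.eventually_ge_atTop (A * (1 + 1 / δ) ^ k))
  refine ⟨max q₁ 1, fun q hq => ?_⟩
  have hq1 : q₁ ≤ q := (le_max_left _ _).trans hq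
  have hq2 : 1 ≤ q := (le_max_right _ _).trans hq
  have hq3 : (1 : ℝ) ≤ q := by exact_mod_cast hq2
  have hq0 : (0 : ℝ) < q := by linarith
  have h2 : Real.log q ≤ (q : ℝ) ^ δ / δ := Real.log_le_rpow_div hq0.le hδ0
  have h3 : (1 : ℝ) ≤ (q : ℝ) ^ δ := Real.one_le_rpow hq3 hδ0.le
  have h4 : 1 + Real.log q ≤ (1 + 1 / δ) * (q : ℝ) ^ δ := by
    have : (1 + 1 / δ) * (q : ℝ) ^ δ = (q : ℝ) ^ δ + (q : ℝ) ^ δ / δ := by ring
    linarith
  have h5 : 0 ≤ 1 + Real.log q := by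
    have := Real.log_nonneg hq3
    linarith
  have h6 : ((q : ℝ) ^ δ) ^ k ≤ (q : ℝ) ^ (s / 2) := by
    rw [← Real.rpow_natCast, ← Real.rpow_mul hq0.le]
    apply Real.rpow_le_rpow_of_exponent_le hq3
    rw [hδ, div_mul_eq_mul_div, div_le_div_iff₀ (by positivity) (by norm_num)]
    nlinarith
  calc A * (1 + Real.log q) ^ k ≤ A * ((1 + 1 / δ) * (q : ℝ) ^ δ) ^ k :=
        mul_le_mul_of_nonneg_left (pow_le_pow_left₀ h5 h4 k) hA
    _ = A * (1 + 1 / δ) ^ k * ((q : ℝ) ^ δ) ^ k := by rw [mul_pow]; ring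
    _ ≤ (q : ℝ) ^ (s / 2) * (q : ℝ) ^ (s / 2) := by
        apply mul_le_mul (hq₁ q hq1) h6 (by positivity) (by positivity)
    _ = (q : ℝ) ^ s := by rw [← Real.rpow_add hq0]; congr 1; ring

theorem SecA_fac_le {a : ℕ} (ha : 1 ≤ a) (s : Finset ℕ) (hs : s ⊆ a.primeFactors) :
    s.card.factorial ≤ a := by
  have h1 : s.card.factorial ≤ ∏ x ∈ s, x :=
    fac_le_prod s fun x hx => (Nat.prime_of_mem_primeFactors (hs hx)).one_lt.le
  have h2 : ∏ x ∈ s, x ∣ ∏ x ∈ a.primeFactors, x := Finset.prod_dvd_prod_of_subset _ _ _ hs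
  have h3 : ∏ x ∈ a.primeFactors, x ∣ a := Nat.prod_primeFactors_dvd a
  exact h1.trans (Nat.le_of_dvd ha (h2.trans h3))

theorem SecA_Wt_nonneg (q : ℕ) (hq : 2 ≤ q) (C : ℝ) (hC : 1 ≤ C) (a : ℕ) : 0 ≤ Wt q C a := by
  unfold Wt
  have hL := SecA_log_pos hq
  have h1 : 0 ≤ ∏ p ∈ a.primeFactors.filter (fun p => p ≤ ww q), (Real.log p / Real.log q) := by
    apply Finset.prod_nonneg
    intro p _
    have := Real.log_natCast_nonneg p
    positivity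
  have h2 : (0 : ℝ) ≤ (if ro (ww q) a = 1 then 1 else (a.divisors.card : ℝ) *
      (Real.log q) ^ 4) := by
    split_ifs
    · norm_num
    · positivity
  positivity

theorem SecA_Wt_le (C : ℝ) (hC : 1 ≤ C) : ∃ q₀ : ℕ, ∀ q : ℕ, q₀ ≤ q → ∀ a : ℕ, 1 ≤ a →
    (a : ℝ) ≤ (q : ℝ) ^ kap → Wt q C a ≤ (q : ℝ) ^ (2 * kap) := by
  obtain ⟨C₁, hC₁, hfac⟩ := fac_bound C (1 / 10) hC (by norm_num)
  have hkap : (0 : ℝ) < kap := by unfold kap; norm_num
  obtain ⟨q₁, hq₁⟩ := SecA_large (C * C₁ * 4) (35 / 100 * kap) (by positivity) (by positivity) 4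
  refine ⟨max q₁ 2, fun q hq a ha haq => ?_⟩
  have hq1 : q₁ ≤ q := (le_max_left _ _).trans hq
  have hq2 : 2 ≤ q := (le_max_right _ _).trans hq
  have hq3 : (1 : ℝ) ≤ q := by exact_mod_cast (by omega : 1 ≤ q)
  have hq0 : (0 : ℝ) < q := by linarith
  have hL := SecA_log_pos hq2
  have ha0 : (0 : ℝ) < a := by exact_mod_cast ha
  have ha1 : (1 : ℝ) ≤ a := by exact_mod_cast ha
  -- the factors
  set k := a.primeFactors.card with hk
  have h1 : C ^ k ≤ C₁ * (2 * (q : ℝ) ^ (kap / 10)) := by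
    set L := Nat.log 2 a + 1 with hLdef
    have h2 : a < 2 ^ L := Nat.lt_pow_succ_log_self (by norm_num) a
    have h3 : k.factorial ≤ 2 ^ L := (SecA_fac_le ha _ (Finset.Subset.refl _)).trans h2.le
    have h4 := (hfac L k h3).2
    refine h4.trans (mul_le_mul_of_nonneg_left ?_ (by linarith))
    have h5 : (2 : ℝ) ^ (L : ℕ) ≤ 2 * a := by
      have h6 : 2 ^ Nat.log 2 a ≤ a := Nat.pow_log_le_self 2 (by omega)
      have h7 : ((2 ^ Nat.log 2 a : ℕ) : ℝ) ≤ a := by exact_mod_cast h6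
      push_cast at h7
      rw [hLdef, pow_succ]
      linarith
    have h8 : (2 : ℝ) ^ (1 / 10 * (L : ℝ)) = ((2 : ℝ) ^ (L : ℕ)) ^ (1 / 10 : ℝ) := by
      rw [← Real.rpow_natCast, ← Real.rpow_mul (by norm_num)]
      congr 1
      ring
    rw [h8]
    calc ((2 : ℝ) ^ (L : ℕ)) ^ (1 / 10 : ℝ) ≤ (2 * (q : ℝ) ^ kap) ^ (1 / 10 : ℝ) := by
          apply Real.rpow_le_rpow (by positivity) _ (by norm_num)
          exact h5.trans (by linarith)
      _ = (2 : ℝ) ^ (1 / 10 : ℝ) * (q : ℝ) ^ (kap / 10) := by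
          rw [Real.mul_rpow (by norm_num) (by positivity), ← Real.rpow_mul hq0.le]
          congr 2
          ring
      _ ≤ 2 * (q : ℝ) ^ (kap / 10) := by
          apply mul_le_mul_of_nonneg_right _ (by positivity)
          calc (2 : ℝ) ^ (1 / 10 : ℝ) ≤ (2 : ℝ) ^ (1 : ℝ) :=
                Real.rpow_le_rpow_of_exponent_le (by norm_num) (by norm_num)
            _ = 2 := Real.rpow_one 2
  have h2 : (((a.primeFactors.filter (fun p => p ≤ ww q)).card.factorial : ℝ)) ^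
      (21 / 20 : ℝ) ≤ (q : ℝ) ^ (21 / 20 * kap) := by
    have h3 : (((a.primeFactors.filter (fun p => p ≤ ww q)).card.factorial : ℝ)) ≤ a := by
      exact_mod_cast SecA_fac_le ha _ (Finset.filter_subset _ _)
    calc _ ≤ ((q : ℝ) ^ kap) ^ (21 / 20 : ℝ) :=
          Real.rpow_le_rpow (by positivity) (h3.trans haq) (by norm_num)
      _ = (q : ℝ) ^ (21 / 20 * kap) := by
          rw [← Real.rpow_mul hq0.le]
          congr 1
          ring
  have haq1 : (a : ℝ) ≤ q := by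
    refine haq.trans ?_
    calc (q : ℝ) ^ kap ≤ (q : ℝ) ^ (1 : ℝ) :=
          Real.rpow_le_rpow_of_exponent_le hq3 (by unfold kap; norm_num)
      _ = q := Real.rpow_one _
  have h3 : ∏ p ∈ a.primeFactors.filter (fun p => p ≤ ww q), (Real.log p / Real.log q) ≤ 1 := by
    apply Finset.prod_le_one
    · intro p _
      have := Real.log_natCast_nonneg p
      positivity
    · intro p hp
      rw [Finset.mem_filter] at hp
      rw [div_le_one hL]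
      have hp0 : 0 < p := (Nat.prime_of_mem_primeFactors hp.1).pos
      have hpa : p ≤ a := Nat.le_of_mem_primeFactors hp.1
      apply Real.log_le_log (by exact_mod_cast hp0)
      exact le_trans (by exact_mod_cast hpa) haq1
  have h3' : 0 ≤ ∏ p ∈ a.primeFactors.filter (fun p => p ≤ ww q),
      (Real.log p / Real.log q) := by
    apply Finset.prod_nonneg
    intro p _
    have := Real.log_natCast_nonneg p
    positivity
  have h4 : (if ro (ww q) a = 1 then 1 else (a.divisors.card : ℝ) * (Real.log q) ^ 4) ≤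
      2 * (q : ℝ) ^ (kap / 2) * (1 + Real.log q) ^ 4 := by
    have h5 : (a.divisors.card : ℝ) ≤ 2 * (q : ℝ) ^ (kap / 2) := by
      refine (SecA_tau ha).trans ?_
      have h6 : Real.sqrt a ≤ (q : ℝ) ^ (kap / 2) := by
        rw [Real.sqrt_eq_rpow]
        calc (a : ℝ) ^ (1 / 2 : ℝ) ≤ ((q : ℝ) ^ kap) ^ (1 / 2 : ℝ) :=
              Real.rpow_le_rpow ha0.le haq (by norm_num)
          _ = (q : ℝ) ^ (kap / 2) := by
              rw [← Real.rpow_mul hq0.le]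
              congr 1
              ring
      linarith
    have h6 : (1 : ℝ) ≤ (q : ℝ) ^ (kap / 2) := Real.one_le_rpow hq3 (by positivity)
    have h7 : (1 : ℝ) ≤ (1 + Real.log q) ^ 4 := one_le_pow₀ (by linarith)
    split_ifs
    · nlinarith
    · apply mul_le_mul h5 _ (by positivity) (by positivity)
      exact pow_le_pow_left₀ hL.le (by linarith) 4
  have h4' : (0 : ℝ) ≤ (if ro (ww q) a = 1 then 1 else (a.divisors.card : ℝ) *
      (Real.log q) ^ 4) := by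
    split_ifs
    · norm_num
    · positivity
  have h5 : C ^ (k + 1) ≤ C * C₁ * 2 * (q : ℝ) ^ (kap / 10) := by
    rw [pow_succ]
    calc C ^ k * C ≤ C₁ * (2 * (q : ℝ) ^ (kap / 10)) * C :=
          mul_le_mul_of_nonneg_right h1 (by linarith)
      _ = _ := by ring
  have hE : (q : ℝ) ^ (kap / 10) * (q : ℝ) ^ (21 / 20 * kap) * (q : ℝ) ^ (kap / 2) *
      (q : ℝ) ^ (35 / 100 * kap) = (q : ℝ) ^ (2 * kap) := by
    rw [← Real.rpow_add hq0, ← Real.rpow_add hq0, ← Real.rpow_add hq0]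
    congr 1
    ring
  unfold Wt
  rw [← hk]
  calc C ^ (k + 1) * (((a.primeFactors.filter (fun p => p ≤ ww q)).card.factorial : ℝ)) ^
        (21 / 20 : ℝ) * (∏ p ∈ a.primeFactors.filter (fun p => p ≤ ww q),
          (Real.log p / Real.log q)) *
        (if ro (ww q) a = 1 then 1 else (a.divisors.card : ℝ) * (Real.log q) ^ 4)
      ≤ (C * C₁ * 2 * (q : ℝ) ^ (kap / 10)) * (q : ℝ) ^ (21 / 20 * kap) * 1 *
        (2 * (q : ℝ) ^ (kap / 2) * (1 + Real.log q) ^ 4) := by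
        gcongr
    _ = ((q : ℝ) ^ (kap / 10) * (q : ℝ) ^ (21 / 20 * kap) * (q : ℝ) ^ (kap / 2)) *
        (C * C₁ * 4 * (1 + Real.log q) ^ 4) := by ring
    _ ≤ ((q : ℝ) ^ (kap / 10) * (q : ℝ) ^ (21 / 20 * kap) * (q : ℝ) ^ (kap / 2)) *
        (q : ℝ) ^ (35 / 100 * kap) :=
        mul_le_mul_of_nonneg_left (hq₁ q hq1) (by positivity)
    _ = (q : ℝ) ^ (2 * kap) := hE

theorem SecA_HC_mem {q : ℕ} (H : Subgroup (ZMod q)ˣ) {X : ℕ} {p : ℕ × ℕ} (hp : p ∈ HC H X) :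
    (1 ≤ p.1 ∧ p.1 ≤ X) ∧ (1 ≤ p.2 ∧ p.2 ≤ X) := by
  classical
  unfold HC at hp
  rw [Finset.mem_filter, Finset.mem_product, Finset.mem_Icc, Finset.mem_Icc] at hp
  exact ⟨hp.1.1, hp.1.2⟩

theorem SecA_HC_mono {q : ℕ} (H : Subgroup (ZMod q)ˣ) {X Y : ℕ} (h : X ≤ Y) :
    HC H X ⊆ HC H Y := by
  classical
  intro p hp
  unfold HC at hp ⊢
  rw [Finset.mem_filter, Finset.mem_product, Finset.mem_Icc, Finset.mem_Icc] at hp ⊢
  exact ⟨⟨⟨hp.1.1.1, hp.1.1.2.trans h⟩, hp.1.2.1, hp.1.2.2.trans h⟩, hp.2⟩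

/-- the pairs of large height -/
theorem SecA_big {μ : Measure ℝ} (hμ : IsProbabilityMeasure μ) {q : ℕ} [NeZero q] (hq : 2 ≤ q)
    (H : Subgroup (ZMod q)ˣ) (r : ℝ) {X : ℕ} (hX : X ≤ q) {c : ℝ}
    (h : ∑ p ∈ (HC H X).filter (fun p => (q : ℝ) ^ kap < (p.1 : ℝ) * p.2),
          (p.1.divisors.card : ℝ) * p.2.divisors.card / Real.sqrt ((p.1 : ℝ) * p.2) ≤
            (q : ℝ) ^ (-c)) (h' : 1 * (1 + Real.log q) ^ 4 ≤ (q : ℝ) ^ c) :
    ∑ p ∈ (HC H X).filter (fun p => (q : ℝ) ^ kap < (p.1 : ℝ) * p.2),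
      1 / Real.sqrt ((p.1 : ℝ) * p.2) *
        ∑ g ∈ Icc 1 X, |CN μ q r (p.1 * g)| * |CN μ q r (p.2 * g)| / g ≤ 1 := by
  have hq0 : (0 : ℝ) < q := by exact_mod_cast (by omega : 0 < q)
  have hlog : 1 + Real.log X ≤ 1 + Real.log q := by
    rcases Nat.eq_zero_or_pos X with h0 | h0
    · rw [h0, Nat.cast_zero, Real.log_zero]
      have := SecA_log_pos hq
      linarith
    · have := Real.log_le_log (by exact_mod_cast h0 : (0 : ℝ) < X)
        (by exact_mod_cast hX : (X : ℝ) ≤ q)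
      linarith
  have hlog0 : 0 ≤ 1 + Real.log X := by
    have := Real.log_natCast_nonneg X
    linarith
  have hin : ∀ p ∈ (HC H X).filter (fun p => (q : ℝ) ^ kap < (p.1 : ℝ) * p.2),
      1 / Real.sqrt ((p.1 : ℝ) * p.2) *
        ∑ g ∈ Icc 1 X, |CN μ q r (p.1 * g)| * |CN μ q r (p.2 * g)| / g ≤
      (p.1.divisors.card : ℝ) * p.2.divisors.card / Real.sqrt ((p.1 : ℝ) * p.2) *
        (1 + Real.log q) ^ 4 := by
    intro p _
    have h1 : ∑ g ∈ Icc 1 X, |CN μ q r (p.1 * g)| * |CN μ q r (p.2 * g)| / g ≤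
        ∑ g ∈ Icc 1 X, ((p.1.divisors.card : ℝ) * p.2.divisors.card) *
          ((g.divisors.card : ℝ) ^ 2 / g) := by
      apply Finset.sum_le_sum
      intro g _
      have h2 := (SecA_abs_CN hμ hq r (p.1 * g)).trans SecA_tau_mul
      have h3 := (SecA_abs_CN hμ hq r (p.2 * g)).trans SecA_tau_mul
      calc |CN μ q r (p.1 * g)| * |CN μ q r (p.2 * g)| / g
          ≤ ((p.1.divisors.card : ℝ) * g.divisors.card) *
            ((p.2.divisors.card : ℝ) * g.divisors.card) / g := by gcongr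
        _ = _ := by ring
    rw [← Finset.mul_sum] at h1
    have h2 : ∑ g ∈ Icc 1 X, ((g.divisors.card : ℝ) ^ 2 / g) ≤ (1 + Real.log q) ^ 4 :=
      (sum_tau_sq X).trans (pow_le_pow_left₀ hlog0 hlog 4)
    calc 1 / Real.sqrt ((p.1 : ℝ) * p.2) *
          ∑ g ∈ Icc 1 X, |CN μ q r (p.1 * g)| * |CN μ q r (p.2 * g)| / g
        ≤ 1 / Real.sqrt ((p.1 : ℝ) * p.2) *
          (((p.1.divisors.card : ℝ) * p.2.divisors.card) * (1 + Real.log q) ^ 4) := by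
          apply mul_le_mul_of_nonneg_left _ (by positivity)
          exact h1.trans (mul_le_mul_of_nonneg_left h2 (by positivity))
      _ = _ := by ring
  refine (Finset.sum_le_sum hin).trans ?_
  rw [← Finset.sum_mul]
  have h4 : 0 ≤ (1 + Real.log q) ^ 4 := by positivity
  calc _ ≤ (q : ℝ) ^ (-c) * (1 + Real.log q) ^ 4 := mul_le_mul_of_nonneg_right h h4
    _ ≤ (q : ℝ) ^ (-c) * (q : ℝ) ^ c := by
        apply mul_le_mul_of_nonneg_left _ (by positivity)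
        linarith
    _ = 1 := by rw [← Real.rpow_add hq0]; simp

/-- the pairs of small height -/
theorem SecA_small {μ : Measure ℝ} {q : ℕ} [NeZero q] (hq : 2 ≤ q)
    (H : Subgroup (ZMod q)ˣ) (r : ℝ) {X : ℕ} (hX : X ≤ q) {C C' z : ℝ} (hC : 1 ≤ C)
    (hz0 : 0 ≤ z) (hz1 : z ≤ 1)
    (hD : ∀ a : ℕ, 1 ≤ a → (a : ℝ) ≤ (q : ℝ) ^ kap → Real.sqrt (DD μ q r a) ≤ Wt q C a + z)
    (hW : ∀ a : ℕ, 1 ≤ a → (a : ℝ) ≤ (q : ℝ) ^ kap → Wt q C a ≤ (q : ℝ) ^ (2 * kap))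
    (hS : ∑ p ∈ (HC H q).filter (fun p => (p.1 : ℝ) * p.2 ≤ (q : ℝ) ^ kap),
        Wt q C p.1 * Wt q C p.2 / Real.sqrt ((p.1 : ℝ) * p.2) ≤ C')
    (hfin : 3 * z * (q : ℝ) ^ (4 * kap) ≤ 1) :
    ∑ p ∈ (HC H X).filter (fun p => (p.1 : ℝ) * p.2 ≤ (q : ℝ) ^ kap),
      1 / Real.sqrt ((p.1 : ℝ) * p.2) *
        ∑ g ∈ Icc 1 X, |CN μ q r (p.1 * g)| * |CN μ q r (p.2 * g)| / g ≤ C' + 1 := by
  have hq1 : (1 : ℝ) ≤ q := by exact_mod_cast (by omega : 1 ≤ q)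
  have hq0 : (0 : ℝ) < q := by linarith
  have hkap : (0 : ℝ) < kap := by unfold kap; norm_num
  have hmem : ∀ p ∈ (HC H X).filter (fun p => (p.1 : ℝ) * p.2 ≤ (q : ℝ) ^ kap),
      (1 ≤ p.1 ∧ (p.1 : ℝ) ≤ (q : ℝ) ^ kap) ∧ (1 ≤ p.2 ∧ (p.2 : ℝ) ≤ (q : ℝ) ^ kap) := by
    intro p hp
    rw [Finset.mem_filter] at hp
    obtain ⟨h1, h2⟩ := SecA_HC_mem H hp.1
    have h3 : (1 : ℝ) ≤ p.1 := by exact_mod_cast h1.1
    have h4 : (1 : ℝ) ≤ p.2 := by exact_mod_cast h2.1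
    refine ⟨⟨h1.1, ?_⟩, h2.1, ?_⟩
    · exact le_trans (by nlinarith) hp.2
    · exact le_trans (by nlinarith) hp.2
  have hin : ∀ p ∈ (HC H X).filter (fun p => (p.1 : ℝ) * p.2 ≤ (q : ℝ) ^ kap),
      1 / Real.sqrt ((p.1 : ℝ) * p.2) *
        ∑ g ∈ Icc 1 X, |CN μ q r (p.1 * g)| * |CN μ q r (p.2 * g)| / g ≤
      Wt q C p.1 * Wt q C p.2 / Real.sqrt ((p.1 : ℝ) * p.2) + 3 * z * (q : ℝ) ^ (2 * kap) := by
    intro p hp
    obtain ⟨⟨h1, h2⟩, h3, h4⟩ := hmem p hp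
    have h5 : (1 : ℝ) ≤ p.1 := by exact_mod_cast h1
    have h6 : (1 : ℝ) ≤ p.2 := by exact_mod_cast h3
    have h7 : 1 ≤ Real.sqrt ((p.1 : ℝ) * p.2) := by
      rw [Real.one_le_sqrt]
      nlinarith
    have h8 := SecA_CS μ q r hX p.1 p.2
    have w1 := SecA_Wt_nonneg q hq C hC p.1
    have w2 := SecA_Wt_nonneg q hq C hC p.2
    have d1 := hD p.1 h1 h2
    have d2 := hD p.2 h3 h4
    have u1 := hW p.1 h1 h2
    have u2 := hW p.2 h3 h4
    have hE : (1 : ℝ) ≤ (q : ℝ) ^ (2 * kap) := Real.one_le_rpow hq1 (by positivity)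
    have h9 : Real.sqrt (DD μ q r p.1) * Real.sqrt (DD μ q r p.2) ≤
        Wt q C p.1 * Wt q C p.2 + 3 * z * (q : ℝ) ^ (2 * kap) := by
      calc Real.sqrt (DD μ q r p.1) * Real.sqrt (DD μ q r p.2)
          ≤ (Wt q C p.1 + z) * (Wt q C p.2 + z) :=
            mul_le_mul d1 d2 (Real.sqrt_nonneg _) (by linarith)
        _ = Wt q C p.1 * Wt q C p.2 + (z * Wt q C p.1 + z * Wt q C p.2 + z * z) := by ring
        _ ≤ _ := by
            have e1 : z * Wt q C p.1 ≤ z * (q : ℝ) ^ (2 * kap) := mul_le_mul_of_nonneg_left u1 hz0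
            have e2 : z * Wt q C p.2 ≤ z * (q : ℝ) ^ (2 * kap) := mul_le_mul_of_nonneg_left u2 hz0
            have e3 : z * z ≤ z * (q : ℝ) ^ (2 * kap) :=
              mul_le_mul_of_nonneg_left (hz1.trans hE) hz0
            linarith
    have h10 : 0 ≤ 3 * z * (q : ℝ) ^ (2 * kap) := by positivity
    calc 1 / Real.sqrt ((p.1 : ℝ) * p.2) *
          ∑ g ∈ Icc 1 X, |CN μ q r (p.1 * g)| * |CN μ q r (p.2 * g)| / g
        ≤ 1 / Real.sqrt ((p.1 : ℝ) * p.2) *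
          (Wt q C p.1 * Wt q C p.2 + 3 * z * (q : ℝ) ^ (2 * kap)) := by
          apply mul_le_mul_of_nonneg_left (h8.trans h9) (by positivity)
      _ = Wt q C p.1 * Wt q C p.2 / Real.sqrt ((p.1 : ℝ) * p.2) +
          3 * z * (q : ℝ) ^ (2 * kap) / Real.sqrt ((p.1 : ℝ) * p.2) := by ring
      _ ≤ _ := by
          have := div_le_self h10 h7
          linarith
  refine (Finset.sum_le_sum hin).trans ?_
  rw [Finset.sum_add_distrib, Finset.sum_const, nsmul_eq_mul]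
  have hcard : (((HC H X).filter (fun p => (p.1 : ℝ) * p.2 ≤ (q : ℝ) ^ kap)).card : ℝ) ≤
      (q : ℝ) ^ (2 * kap) := by
    have hsub : (HC H X).filter (fun p => (p.1 : ℝ) * p.2 ≤ (q : ℝ) ^ kap) ⊆
        Icc 1 ⌊(q : ℝ) ^ kap⌋₊ ×ˢ Icc 1 ⌊(q : ℝ) ^ kap⌋₊ := by
      intro p hp
      obtain ⟨⟨h1, h2⟩, h3, h4⟩ := hmem p hp
      rw [Finset.mem_product, Finset.mem_Icc, Finset.mem_Icc]
      exact ⟨⟨h1, Nat.le_floor h2⟩, h3, Nat.le_floor h4⟩
    have h1 := Finset.card_le_card hsub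
    rw [Finset.card_product, Nat.card_Icc, Nat.add_sub_cancel] at h1
    have h2 : ((⌊(q : ℝ) ^ kap⌋₊ : ℕ) : ℝ) ≤ (q : ℝ) ^ kap := Nat.floor_le (by positivity)
    calc (((HC H X).filter (fun p => (p.1 : ℝ) * p.2 ≤ (q : ℝ) ^ kap)).card : ℝ)
        ≤ ((⌊(q : ℝ) ^ kap⌋₊ * ⌊(q : ℝ) ^ kap⌋₊ : ℕ) : ℝ) := by exact_mod_cast h1
      _ = (⌊(q : ℝ) ^ kap⌋₊ : ℝ) * (⌊(q : ℝ) ^ kap⌋₊ : ℝ) := by push_cast; ring
      _ ≤ (q : ℝ) ^ kap * (q : ℝ) ^ kap := by gcongr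
      _ = (q : ℝ) ^ (2 * kap) := by rw [← Real.rpow_add hq0]; congr 1; ring
  have h1 : ∑ p ∈ (HC H X).filter (fun p => (p.1 : ℝ) * p.2 ≤ (q : ℝ) ^ kap),
      Wt q C p.1 * Wt q C p.2 / Real.sqrt ((p.1 : ℝ) * p.2) ≤ C' := by
    refine le_trans (Finset.sum_le_sum_of_subset_of_nonneg
      (Finset.filter_subset_filter _ (SecA_HC_mono H hX)) ?_) hS
    intro p _ _
    have w1 := SecA_Wt_nonneg q hq C hC p.1
    have w2 := SecA_Wt_nonneg q hq C hC p.2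
    positivity
  have h2 : (((HC H X).filter (fun p => (p.1 : ℝ) * p.2 ≤ (q : ℝ) ^ kap)).card : ℝ) *
      (3 * z * (q : ℝ) ^ (2 * kap)) ≤ 1 := by
    calc _ ≤ (q : ℝ) ^ (2 * kap) * (3 * z * (q : ℝ) ^ (2 * kap)) :=
          mul_le_mul_of_nonneg_right hcard (by positivity)
      _ = 3 * z * ((q : ℝ) ^ (2 * kap) * (q : ℝ) ^ (2 * kap)) := by ring
      _ = 3 * z * (q : ℝ) ^ (4 * kap) := by rw [← Real.rpow_add hq0]; congr 2; ring
      _ ≤ 1 := hfin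
  linarith

theorem second_one (C₇ : ℝ) (hC₇ : 1 ≤ C₇) : ∃ C : ℝ, 1 ≤ C ∧ ∀ ε : ℝ, 0 < ε → ∃ q₀ : ℕ,
    ∀ (q : ℕ) [NeZero q] (H : Subgroup (ZMod q)ˣ) (ψ : DirichletCharacter ℂ q)
      (μ : Measure ℝ) (K : ℕ), q.Prime → q₀ ≤ q → (Nat.card H : ℝ) ≤ (q : ℝ) ^ (1 / 3 - ε) →
      10 * Real.log q + 100 ≤ K → Smooth μ C₇ K → ∀ r : ℝ, 0 < r →
      r ≤ (q : ℝ) ^ (1 / 100 : ℝ) →
      ∑ χ ∈ cos H ψ, ‖SS μ q r χ * mol q χ‖ ^ 2 ≤ C * (cos H ψ).card := by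
  obtain ⟨C, hC, q₁, hdiag⟩ := diag C₇ hC₇
  obtain ⟨C', q₂, hws⟩ := weight_sum C hC
  obtain ⟨q₃, hWt⟩ := SecA_Wt_le C hC
  refine ⟨|C'| + 2, by have := abs_nonneg C'; linarith, fun ε hε => ?_⟩
  obtain ⟨c, hc, q₄, hbig⟩ := big_sum ε hε
  obtain ⟨q₅, hq₅⟩ := SecA_large 1 c zero_le_one hc 4
  obtain ⟨q₆, hq₆⟩ := SecA_large 3 (1 / 150000 - 4 * kap) (by norm_num)
    (by unfold kap; norm_num) 0
  refine ⟨max 2 (max q₁ (max q₂ (max q₃ (max q₄ (max q₅ q₆))))), ?_⟩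
  intro q _ H ψ μ K hqp hq hH hK hμ r hr hrq
  simp only [max_le_iff] at hq
  obtain ⟨g0, g1, g2, g3, g4, g5, g6⟩ := hq
  have hq1 : (1 : ℝ) < q := by exact_mod_cast (by omega : 1 < q)
  have hq0 : (0 : ℝ) < q := by linarith
  have hprob := hμ.prob
  -- the length
  set A := ⌊r * (q : ℝ) ^ (51 / 100 : ℝ)⌋₊ with hA
  set B := ⌊yy q ^ 2⌋₊ with hB
  have hX54 : ((A * B : ℕ) : ℝ) ≤ (q : ℝ) ^ (54 / 100 : ℝ) := by
    push_cast
    have h1 : (A : ℝ) ≤ (q : ℝ) ^ (1 / 100 : ℝ) * (q : ℝ) ^ (51 / 100 : ℝ) := by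
      refine (Nat.floor_le (by positivity)).trans ?_
      exact mul_le_mul_of_nonneg_right hrq (by positivity)
    have h2 : (B : ℝ) ≤ (q : ℝ) ^ (2 / 100 : ℝ) := by
      refine (Nat.floor_le (by positivity)).trans ?_
      unfold yy
      rw [← Real.rpow_natCast, ← Real.rpow_mul hq0.le]
      apply le_of_eq
      congr 1
      norm_num
    calc (A : ℝ) * B ≤ ((q : ℝ) ^ (1 / 100 : ℝ) * (q : ℝ) ^ (51 / 100 : ℝ)) *
          (q : ℝ) ^ (2 / 100 : ℝ) := mul_le_mul h1 h2 (Nat.cast_nonneg _) (by positivity)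
      _ = (q : ℝ) ^ (54 / 100 : ℝ) := by
          rw [← Real.rpow_add hq0, ← Real.rpow_add hq0]
          congr 1
          norm_num
  have hXq : A * B < q := by
    have h1 : (q : ℝ) ^ (54 / 100 : ℝ) < (q : ℝ) ^ (1 : ℝ) :=
      Real.rpow_lt_rpow_of_exponent_lt hq1 (by norm_num)
    rw [Real.rpow_one] at h1
    exact_mod_cast lt_of_le_of_lt hX54 h1
  -- orthogonality
  have hexp : ∑ χ ∈ cos H ψ, ‖SS μ q r χ * mol q χ‖ ^ 2 =
      ∑ χ ∈ cos H ψ, ‖∑ N ∈ Icc 1 (A * B),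
        ((CN μ q r N : ℝ) : ℂ) / (Real.sqrt N : ℂ) * χ (N : ZMod q)‖ ^ 2 := by
    apply Finset.sum_congr rfl
    intro χ _
    rw [SecA_expand hμ g0 hr χ]
  rw [hexp]
  refine (orth_sq hqp H ψ (fun N => ((CN μ q r N : ℝ) : ℂ) / (Real.sqrt N : ℂ)) (A * B)
    hXq).trans ?_
  have hnorm : ∀ N : ℕ, ‖((CN μ q r N : ℝ) : ℂ) / (Real.sqrt N : ℂ)‖ =
      |CN μ q r N| / Real.sqrt N := by
    intro N
    rw [norm_div, Complex.norm_real, Complex.norm_real, Real.norm_eq_abs, Real.norm_eq_abs,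
      abs_of_nonneg (Real.sqrt_nonneg _)]
  simp only [hnorm]
  rw [mul_comm (|C'| + 2)]
  apply mul_le_mul_of_nonneg_left _ (Nat.cast_nonneg _)
  refine (SecA_group hqp H (A * B) hXq (fun N => |CN μ q r N|) (fun _ => abs_nonneg _)).trans ?_
  -- the two ranges
  rw [← Finset.sum_filter_add_sum_filter_not (HC H (A * B))
    (fun p => (q : ℝ) ^ kap < (p.1 : ℝ) * p.2)]
  have hpart1 := SecA_big hprob g0 H r hXq.le ((hbig q H g4 hH).1 (A * B) hX54) (hq₅ q g5)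
  have hH3 : (Nat.card H : ℝ) ≤ (q : ℝ) ^ (1 / 3 : ℝ) :=
    hH.trans (Real.rpow_le_rpow_of_exponent_le hq1.le (by linarith))
  have hz1 : (q : ℝ) ^ (-(1 / 150000) : ℝ) ≤ 1 :=
    Real.rpow_le_one_of_one_le_of_nonpos hq1.le (by norm_num)
  have hfin : 3 * (q : ℝ) ^ (-(1 / 150000) : ℝ) * (q : ℝ) ^ (4 * kap) ≤ 1 := by
    have h1 := hq₆ q g6
    rw [pow_zero, mul_one] at h1
    calc 3 * (q : ℝ) ^ (-(1 / 150000) : ℝ) * (q : ℝ) ^ (4 * kap)
        ≤ (q : ℝ) ^ (1 / 150000 - 4 * kap) * (q : ℝ) ^ (-(1 / 150000) : ℝ) *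
          (q : ℝ) ^ (4 * kap) := by gcongr
      _ = 1 := by
          rw [← Real.rpow_add hq0, ← Real.rpow_add hq0]
          convert Real.rpow_zero (q : ℝ) using 2
          ring
  have hpart2 := SecA_small (μ := μ) g0 H r hXq.le hC (by positivity) hz1
    (hdiag q μ K g1 hK hμ r hr hrq) (hWt q g3) (hws q H hqp g2 hH3) hfin
  have hnot : (HC H (A * B)).filter (fun p => ¬ (q : ℝ) ^ kap < (p.1 : ℝ) * p.2) =
      (HC H (A * B)).filter (fun p => (p.1 : ℝ) * p.2 ≤ (q : ℝ) ^ kap) := by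
    apply Finset.filter_congr
    intro p _
    exact not_lt
  rw [hnot]
  have := le_abs_self C'
  linarith

end Pool.Agent.NV
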