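import Pool.Agent.Lib.MP_afd523_nt.Defs
import Pool.Agent.Lib.MP_afd523_nt.Cut
import Pool.Agent.Lib.MP_afd523_nt.Afe
import Pool.Agent.Lib.MP_afd523_nt.Maj
import Pool.Agent.Lib.MP_afd523_nt.Gev
import Pool.Agent.Lib.MP_afd523_nt.SecA

/-!
MP_afd523_nt, project NV: the mollified second moment of `L(1/2, χ)`.
-/

namespace Pool.Agent.NV

open Finset Complex MeasureTheory

theorem SecB_sum_inv_sqrt (X : ℕ) : ∑ n ∈ Icc 1 X, 1 / Real.sqrt n ≤ 2 * Real.sqrt X := by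
  induction X with
  | zero => simp
  | succ X ih =>
    rw [Finset.sum_Icc_succ_top (by omega)]
    have h1 : (0 : ℝ) < Real.sqrt ((X + 1 : ℕ) : ℝ) := Real.sqrt_pos.2 (by positivity)
    have h2 : Real.sqrt (X : ℝ) ≤ Real.sqrt ((X + 1 : ℕ) : ℝ) :=
      Real.sqrt_le_sqrt (by push_cast; linarith)
    have h3 : Real.sqrt ((X + 1 : ℕ) : ℝ) ^ 2 = X + 1 := by
      rw [Real.sq_sqrt (by positivity)]
      push_cast
      ring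
    have h4 : Real.sqrt (X : ℝ) ^ 2 = X := Real.sq_sqrt (by positivity)
    have h5 : 1 / Real.sqrt ((X + 1 : ℕ) : ℝ) ≤
        2 * Real.sqrt ((X + 1 : ℕ) : ℝ) - 2 * Real.sqrt (X : ℝ) := by
      rw [div_le_iff₀ h1]
      nlinarith [Real.sqrt_nonneg (X : ℝ)]
    linarith

theorem SecB_sum_le {q : ℕ} [NeZero q] (χ : DirichletCharacter ℂ q) (c : ℕ → ℝ)
    (hc : ∀ n, 1 ≤ n → |c n| ≤ 1) (X : ℕ) :
    ‖∑ n ∈ Icc 1 X, (c n : ℂ) * χ (n : ZMod q) / (Real.sqrt n : ℂ)‖ ≤ 2 * Real.sqrt X := by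
  refine (norm_sum_le _ _).trans ((Finset.sum_le_sum fun n hn => ?_).trans (SecB_sum_inv_sqrt X))
  have hn1 : 1 ≤ n := (Finset.mem_Icc.1 hn).1
  rw [norm_div, norm_mul, Complex.norm_real, Complex.norm_real, Real.norm_eq_abs,
    Real.norm_of_nonneg (Real.sqrt_nonneg _)]
  refine div_le_div_of_nonneg_right ?_ (Real.sqrt_nonneg _)
  exact mul_le_one₀ (hc n hn1) (norm_nonneg _) (χ.norm_le_one _)

theorem SecB_SS {μ : Measure ℝ} {C : ℝ} {K : ℕ} (hμ : Smooth μ C K) {q : ℕ} [NeZero q] {r : ℝ}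
    (hr : 0 < r) (χ : DirichletCharacter ℂ q) :
    ‖SS μ q r χ‖ ^ 2 ≤ 4 * (r * (q : ℝ) ^ (51 / 100 : ℝ)) := by
  have hP := hμ.prob
  have h0 : 0 ≤ r * (q : ℝ) ^ (51 / 100 : ℝ) := by positivity
  have h1 : ‖SS μ q r χ‖ ≤ 2 * Real.sqrt (⌊r * (q : ℝ) ^ (51 / 100 : ℝ)⌋₊ : ℝ) := by
    unfold SS
    refine SecB_sum_le χ (fun n => Phi μ q r n) (fun n _ => ?_) _
    unfold Phi
    rw [abs_of_nonneg measureReal_nonneg]
    exact measureReal_le_one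
  have h2 : (⌊r * (q : ℝ) ^ (51 / 100 : ℝ)⌋₊ : ℝ) ≤ r * (q : ℝ) ^ (51 / 100 : ℝ) :=
    Nat.floor_le h0
  calc ‖SS μ q r χ‖ ^ 2 ≤ (2 * Real.sqrt (⌊r * (q : ℝ) ^ (51 / 100 : ℝ)⌋₊ : ℝ)) ^ 2 :=
        pow_le_pow_left₀ (norm_nonneg _) h1 2
    _ = 4 * (⌊r * (q : ℝ) ^ (51 / 100 : ℝ)⌋₊ : ℝ) := by
        rw [mul_pow, Real.sq_sqrt (by positivity)]
        norm_num
    _ ≤ _ := by linarith

theorem SecB_PP {q : ℕ} (hq : 1 ≤ q) (m : ℕ) : 0 ≤ PP q m ∧ PP q m ≤ 1 := by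
  unfold PP
  refine ⟨le_max_left _ _, max_le zero_le_one ?_⟩
  have h1 : 0 ≤ Real.log m := Real.log_natCast_nonneg m
  have h2 : 0 ≤ Real.log (yy q) := by
    unfold yy
    apply Real.log_nonneg
    exact Real.one_le_rpow (by exact_mod_cast hq) (by norm_num)
  have h3 := div_nonneg h1 h2
  linarith

theorem SecB_lamq {q : ℕ} (hq : 1 ≤ q) (m : ℕ) : |lamq q m| ≤ 1 := by
  unfold lamq
  split_ifs
  · unfold lamf
    obtain ⟨h1, h2⟩ := SecB_PP hq (ro (ww q) m)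
    rw [abs_mul, abs_of_nonneg h1]
    have h3 : |(ArithmeticFunction.moebius m : ℝ)| ≤ 1 := by
      have := ArithmeticFunction.abs_moebius_le_one (n := m)
      exact_mod_cast this
    exact mul_le_one₀ h3 h1 h2
  · simp

theorem SecB_mol {q : ℕ} [NeZero q] (hq : 1 ≤ q) (χ : DirichletCharacter ℂ q) :
    ‖mol q χ‖ ^ 2 ≤ 4 * (q : ℝ) ^ (1 / 50 : ℝ) := by
  have h1 : ‖mol q χ‖ ≤ 2 * Real.sqrt (⌊yy q ^ 2⌋₊ : ℝ) := by
    unfold mol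
    exact SecB_sum_le χ (fun n => lamq q n) (fun n _ => SecB_lamq hq n) _
  have h0 : yy q ^ 2 = (q : ℝ) ^ (1 / 50 : ℝ) := by
    unfold yy
    rw [← Real.rpow_natCast, ← Real.rpow_mul (Nat.cast_nonneg q)]
    norm_num
  have h2 : (⌊yy q ^ 2⌋₊ : ℝ) ≤ (q : ℝ) ^ (1 / 50 : ℝ) := by
    rw [← h0]
    exact Nat.floor_le (sq_nonneg _)
  calc ‖mol q χ‖ ^ 2 ≤ (2 * Real.sqrt (⌊yy q ^ 2⌋₊ : ℝ)) ^ 2 :=
        pow_le_pow_left₀ (norm_nonneg _) h1 2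
    _ = 4 * (⌊yy q ^ 2⌋₊ : ℝ) := by
        rw [mul_pow, Real.sq_sqrt (by positivity)]
        norm_num
    _ ≤ _ := by linarith

/-- the trivial bound for large `r` -/
theorem SecB_triv {μ : Measure ℝ} {C : ℝ} {K : ℕ} (hμ : Smooth μ C K) {q : ℕ} [NeZero q]
    (hq : 1 ≤ q) {r : ℝ} (hr : (q : ℝ) ^ (1 / 100 : ℝ) < r) (χ : DirichletCharacter ℂ q) :
    ‖SS μ q r χ * mol q χ‖ ^ 2 ≤ 16 * (q : ℝ) ^ (-(7 / 100) : ℝ) * r ^ 61 := by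
  have hq0 : (0 : ℝ) < q := by exact_mod_cast hq
  have hy : 0 < (q : ℝ) ^ (1 / 100 : ℝ) := Real.rpow_pos_of_pos hq0 _
  have hr0 : 0 < r := hy.trans hr
  have h1 := SecB_SS hμ hr0 χ
  have h2 := SecB_mol hq χ
  rw [norm_mul, mul_pow]
  have h3 : ‖SS μ q r χ‖ ^ 2 * ‖mol q χ‖ ^ 2 ≤
      4 * (r * (q : ℝ) ^ (51 / 100 : ℝ)) * (4 * (q : ℝ) ^ (1 / 50 : ℝ)) :=
    mul_le_mul h1 h2 (sq_nonneg _) (by positivity)
  refine h3.trans ?_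
  have h4 : (q : ℝ) ^ (51 / 100 : ℝ) * (q : ℝ) ^ (1 / 50 : ℝ) =
      (q : ℝ) ^ (-(7 / 100) : ℝ) * ((q : ℝ) ^ (1 / 100 : ℝ)) ^ 60 := by
    rw [← Real.rpow_natCast ((q : ℝ) ^ (1 / 100 : ℝ)), ← Real.rpow_mul hq0.le,
      ← Real.rpow_add hq0, ← Real.rpow_add hq0]
    norm_num
  have h5 : ((q : ℝ) ^ (1 / 100 : ℝ)) ^ 60 ≤ r ^ 60 := pow_le_pow_left₀ hy.le hr.le 60
  have h6 : 0 ≤ (q : ℝ) ^ (-(7 / 100) : ℝ) := (Real.rpow_pos_of_pos hq0 _).le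
  calc 4 * (r * (q : ℝ) ^ (51 / 100 : ℝ)) * (4 * (q : ℝ) ^ (1 / 50 : ℝ)) =
        16 * r * ((q : ℝ) ^ (51 / 100 : ℝ) * (q : ℝ) ^ (1 / 50 : ℝ)) := by ring
    _ = 16 * r * ((q : ℝ) ^ (-(7 / 100) : ℝ) * ((q : ℝ) ^ (1 / 100 : ℝ)) ^ 60) := by rw [h4]
    _ ≤ 16 * r * ((q : ℝ) ^ (-(7 / 100) : ℝ) * r ^ 60) := by
        refine mul_le_mul_of_nonneg_left (mul_le_mul_of_nonneg_left h5 h6) (by positivity)
    _ = _ := by ring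

/-- the part of the sum with one cut-off measure -/
theorem SecB_part {ν : Measure ℝ} {Cn : ℝ} (hν : Cut ν Cn) {μ : Measure ℝ} {C C₁ : ℝ} {K : ℕ}
    (hμ : Smooth μ C K) {q : ℕ} [NeZero q] (hq : 1 ≤ q) (T S : Finset (DirichletCharacter ℂ q))
    (hST : S ⊆ T) (hC₁ : 1 ≤ C₁)
    (hone : ∀ r : ℝ, 0 < r → r ≤ (q : ℝ) ^ (1 / 100 : ℝ) →
      ∑ χ ∈ T, ‖SS μ q r χ * mol q χ‖ ^ 2 ≤ C₁ * T.card)
    (hint : ∀ χ ∈ S, Integrable (fun r => ‖SS μ q r χ‖ ^ 2) ν)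
    (hL : ∀ χ ∈ S, ‖DirichletCharacter.LFunction χ (1 / 2)‖ ^ 2 ≤
      4 * ∫ r, ‖SS μ q r χ‖ ^ 2 ∂ν)
    (hbig : 16 * (q : ℝ) ^ (-(7 / 100) : ℝ) * ∫ r, r ^ 61 ∂ν ≤ 1) :
    ∑ χ ∈ S, ‖DirichletCharacter.LFunction χ (1 / 2) * mol q χ‖ ^ 2 ≤
      4 * (C₁ + 1) * T.card := by
  have hP := hν.prob
  have hint' : ∀ χ ∈ S, Integrable (fun r => ‖SS μ q r χ * mol q χ‖ ^ 2) ν := by
    intro χ hχ
    have h1 := (hint χ hχ).mul_const (‖mol q χ‖ ^ 2)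
    refine h1.congr (Filter.Eventually.of_forall fun r => ?_)
    simp only [norm_mul, mul_pow]
  have h1 : ∀ χ ∈ S, ‖DirichletCharacter.LFunction χ (1 / 2) * mol q χ‖ ^ 2 ≤
      4 * ∫ r, ‖SS μ q r χ * mol q χ‖ ^ 2 ∂ν := by
    intro χ hχ
    have h2 : ∫ r, ‖SS μ q r χ * mol q χ‖ ^ 2 ∂ν = (∫ r, ‖SS μ q r χ‖ ^ 2 ∂ν) * ‖mol q χ‖ ^ 2 := by
      rw [← integral_mul_const]
      refine integral_congr_ae (Filter.Eventually.of_forall fun r => ?_)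
      simp only [norm_mul, mul_pow]
    rw [h2, norm_mul, mul_pow, ← mul_assoc]
    exact mul_le_mul_of_nonneg_right (hL χ hχ) (sq_nonneg _)
  have h2 : ∫ r, ∑ χ ∈ S, ‖SS μ q r χ * mol q χ‖ ^ 2 ∂ν ≤
      ∫ r, (C₁ * T.card + T.card * (16 * (q : ℝ) ^ (-(7 / 100) : ℝ)) * r ^ 61) ∂ν := by
    refine integral_mono_ae (integrable_finsetSum _ hint')
      ((integrable_const _).add ((hν.mom 61).const_mul _)) ?_
    have hae : ∀ᵐ r ∂ν, 0 < r := by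
      rw [ae_iff]
      convert hν.pos using 2
      ext r
      simp
    filter_upwards [hae] with r hr
    have h3 : ∑ χ ∈ S, ‖SS μ q r χ * mol q χ‖ ^ 2 ≤ ∑ χ ∈ T, ‖SS μ q r χ * mol q χ‖ ^ 2 :=
      Finset.sum_le_sum_of_subset_of_nonneg hST fun _ _ _ => sq_nonneg _
    refine h3.trans ?_
    by_cases h4 : r ≤ (q : ℝ) ^ (1 / 100 : ℝ)
    · have h5 := hone r hr h4
      have h6 : 0 ≤ T.card * (16 * (q : ℝ) ^ (-(7 / 100) : ℝ)) * r ^ 61 := by positivity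
      linarith
    · have h5 : ∑ χ ∈ T, ‖SS μ q r χ * mol q χ‖ ^ 2 ≤
          ∑ _χ ∈ T, 16 * (q : ℝ) ^ (-(7 / 100) : ℝ) * r ^ 61 :=
        Finset.sum_le_sum fun χ _ => SecB_triv hμ hq (not_le.1 h4) χ
      rw [Finset.sum_const, nsmul_eq_mul] at h5
      have h6 : 0 ≤ C₁ * (T.card : ℝ) := by positivity
      linarith
  have h3 : ∫ r, (C₁ * T.card + T.card * (16 * (q : ℝ) ^ (-(7 / 100) : ℝ)) * r ^ 61) ∂ν =
      C₁ * T.card + T.card * (16 * (q : ℝ) ^ (-(7 / 100) : ℝ) * ∫ r, r ^ 61 ∂ν) := by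
    have h4 : ∫ r, T.card * (16 * (q : ℝ) ^ (-(7 / 100) : ℝ)) * r ^ 61 ∂ν =
        T.card * (16 * (q : ℝ) ^ (-(7 / 100) : ℝ)) * ∫ r, r ^ 61 ∂ν := integral_const_mul _ _
    rw [integral_add (integrable_const _) ((hν.mom 61).const_mul _), h4, integral_const,
      probReal_univ, one_smul]
    ring
  have h4 : (T.card : ℝ) * (16 * (q : ℝ) ^ (-(7 / 100) : ℝ) * ∫ r, r ^ 61 ∂ν) ≤ T.card * 1 :=
    mul_le_mul_of_nonneg_left hbig (Nat.cast_nonneg _)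
  calc ∑ χ ∈ S, ‖DirichletCharacter.LFunction χ (1 / 2) * mol q χ‖ ^ 2 ≤
        ∑ χ ∈ S, 4 * ∫ r, ‖SS μ q r χ * mol q χ‖ ^ 2 ∂ν := Finset.sum_le_sum h1
    _ = 4 * ∫ r, ∑ χ ∈ S, ‖SS μ q r χ * mol q χ‖ ^ 2 ∂ν := by
        rw [← Finset.mul_sum, integral_finsetSum _ hint']
    _ ≤ 4 * (C₁ + 1) * T.card := by linarith

theorem second : ∃ C : ℝ, 1 ≤ C ∧ ∀ ε : ℝ, 0 < ε → ∃ q₀ : ℕ,
    ∀ (q : ℕ) [NeZero q] (H : Subgroup (ZMod q)ˣ) (ψ : DirichletCharacter ℂ q),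
      q.Prime → q₀ ≤ q → (Nat.card H : ℝ) ≤ (q : ℝ) ^ (1 / 3 - ε) →
      ∑ χ ∈ (cos H ψ).erase 1, ‖DirichletCharacter.LFunction χ (1 / 2) * mol q χ‖ ^ 2 ≤
        C * (cos H ψ).card := by
  classical
  obtain ⟨C₇, hC₇, hgev⟩ := gevrey
  obtain ⟨C₁, hC₁, hone⟩ := second_one C₇ hC₇
  obtain ⟨Cn, hcut⟩ := cut_nu
  refine ⟨8 * (C₁ + 1), by linarith, fun ε hε => ?_⟩
  obtain ⟨q₁, hq₁⟩ := hone ε hε
  set B : ℝ := |∫ r, r ^ 61 ∂(nu 0)| + |∫ r, r ^ 61 ∂(nu 1)| + 1 with hB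
  have hB0 : 0 < B := by positivity
  have hlim : Filter.Tendsto (fun n : ℕ => (n : ℝ) ^ (-(7 / 100) : ℝ)) Filter.atTop (nhds 0) :=
    (tendsto_rpow_neg_atTop (by norm_num : (0 : ℝ) < 7 / 100)).comp tendsto_natCast_atTop_atTop
  obtain ⟨q₂, hq₂⟩ := Filter.eventually_atTop.1
    (hlim.eventually (gt_mem_nhds (show (0 : ℝ) < 1 / (16 * B) by positivity)))
  refine ⟨max q₁ (max q₂ 3), fun q _ H ψ hq hqq hH => ?_⟩
  have hqq1 : q₁ ≤ q := (le_max_left _ _).trans hqq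
  have hqq2 : q₂ ≤ q := ((le_max_left _ _).trans (le_max_right _ _)).trans hqq
  have hqq3 : 3 ≤ q := ((le_max_right _ _).trans (le_max_right _ _)).trans hqq
  have hbig0 := hq₂ q hqq2
  have hpos : 0 ≤ (q : ℝ) ^ (-(7 / 100) : ℝ) := Real.rpow_nonneg (Nat.cast_nonneg q) _
  have hbig : ∀ x : ℝ, |x| ≤ B → 16 * (q : ℝ) ^ (-(7 / 100) : ℝ) * x ≤ 1 := by
    intro x hx
    have h1 : 16 * (q : ℝ) ^ (-(7 / 100) : ℝ) * x ≤ 16 * (q : ℝ) ^ (-(7 / 100) : ℝ) * B :=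
      mul_le_mul_of_nonneg_left ((le_abs_self x).trans hx) (by positivity)
    have h2 : (q : ℝ) ^ (-(7 / 100) : ℝ) * (16 * B) < 1 := (lt_div_iff₀ (by positivity)).1 hbig0
    linarith
  obtain ⟨μ, hμ⟩ := hgev ⌈10 * Real.log q + 100⌉₊
  have hone' : ∀ r : ℝ, 0 < r → r ≤ (q : ℝ) ^ (1 / 100 : ℝ) →
      ∑ χ ∈ cos H ψ, ‖SS μ q r χ * mol q χ‖ ^ 2 ≤ C₁ * (cos H ψ).card :=
    hq₁ q H ψ μ _ hq hqq1 hH (Nat.le_ceil _) hμ
  -- the two parts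
  set R : ℕ → DirichletCharacter ℂ q → Prop := fun e χ =>
    Integrable (fun r => ‖SS μ q r χ‖ ^ 2) (nu e) ∧
      ‖DirichletCharacter.LFunction χ (1 / 2)‖ ^ 2 ≤ 4 * ∫ r, ‖SS μ q r χ‖ ^ 2 ∂(nu e) with hR
  have hR01 : ∀ χ : DirichletCharacter ℂ q, χ ≠ 1 → R 0 χ ∨ R 1 χ := by
    intro χ hχ
    obtain ⟨e, he, _, ε', hε', h⟩ := afe hq χ hχ
    have h1 := majorant (hcut e he) hqq3 χ ε' hε' h hμ
    interval_cases e
    · exact Or.inl h1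
    · exact Or.inr h1
  have hp0 := SecB_part (hcut 0 (by norm_num)) hμ (by omega : 1 ≤ q) (cos H ψ)
    (((cos H ψ).erase 1).filter (R 0)) ((Finset.filter_subset _ _).trans (Finset.erase_subset _ _))
    hC₁ hone' (fun χ hχ => (Finset.mem_filter.1 hχ).2.1) (fun χ hχ => (Finset.mem_filter.1 hχ).2.2)
    (hbig _ (by
      have := abs_nonneg (∫ r, r ^ 61 ∂(nu 1))
      linarith))
  have hp1 := SecB_part (hcut 1 le_rfl) hμ (by omega : 1 ≤ q) (cos H ψ)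
    (((cos H ψ).erase 1).filter (fun χ => ¬ R 0 χ))
    ((Finset.filter_subset _ _).trans (Finset.erase_subset _ _))
    hC₁ hone'
    (fun χ hχ => ((hR01 χ (Finset.ne_of_mem_erase (Finset.mem_filter.1 hχ).1)).resolve_left
      (Finset.mem_filter.1 hχ).2).1)
    (fun χ hχ => ((hR01 χ (Finset.ne_of_mem_erase (Finset.mem_filter.1 hχ).1)).resolve_left
      (Finset.mem_filter.1 hχ).2).2)
    (hbig _ (by
      have := abs_nonneg (∫ r, r ^ 61 ∂(nu 0))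
      linarith))
  rw [← Finset.sum_filter_add_sum_filter_not _ (R 0)]
  linarith

end Pool.Agent.NV
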