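import Pool.Agent.Lib.MP_afd523_nt.Defs
import Pool.Agent.Lib.MP_afd523_nt.Orth
import Pool.Agent.Lib.MP_afd523_nt.First
import Pool.Agent.Lib.MP_afd523_nt.SecB

namespace Pool.Agent.NV

open Finset Complex MeasureTheory

theorem Coset_mem_cos {q : ℕ} [NeZero q] {H : Subgroup (ZMod q)ˣ} {ψ χ : DirichletCharacter ℂ q} :
    χ ∈ cos H ψ ↔ ∀ u ∈ H, χ (u : ZMod q) = ψ (u : ZMod q) := by
  classical
  simp [cos]

/-- the subgroup generated by `H` and `-1` -/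
def Coset_pm {q : ℕ} (H : Subgroup (ZMod q)ˣ) : Subgroup (ZMod q)ˣ where
  carrier := {u | u ∈ H ∨ -u ∈ H}
  mul_mem' := by
    rintro a b (ha | ha) (hb | hb)
    · exact Or.inl (H.mul_mem ha hb)
    · right
      have := H.mul_mem ha hb
      rwa [mul_neg] at this
    · right
      have := H.mul_mem ha hb
      rwa [neg_mul] at this
    · left
      have := H.mul_mem ha hb
      rwa [neg_mul_neg] at this
  one_mem' := Or.inl H.one_mem
  inv_mem' := by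
    rintro a (ha | ha)
    · exact Or.inl (H.inv_mem ha)
    · right
      have := H.inv_mem ha
      rwa [inv_neg] at this

theorem Coset_le_pm {q : ℕ} (H : Subgroup (ZMod q)ˣ) : H ≤ Coset_pm H := fun _ hu => Or.inl hu

theorem Coset_neg_one_mem {q : ℕ} (H : Subgroup (ZMod q)ˣ) : (-1 : (ZMod q)ˣ) ∈ Coset_pm H := by
  right
  rw [neg_neg]
  exact H.one_mem

theorem Coset_card_pm {q : ℕ} [NeZero q] (H : Subgroup (ZMod q)ˣ) :
    Nat.card (Coset_pm H) ≤ 2 * Nat.card H := by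
  have h1 : ((Coset_pm H : Subgroup (ZMod q)ˣ) : Set (ZMod q)ˣ) ⊆
      (H : Set (ZMod q)ˣ) ∪ (fun x => -x) '' (H : Set (ZMod q)ˣ) := by
    rintro u (hu | hu)
    · exact Or.inl hu
    · exact Or.inr ⟨-u, hu, neg_neg u⟩
  have h2 : Nat.card (Coset_pm H) = ((Coset_pm H : Subgroup (ZMod q)ˣ) : Set (ZMod q)ˣ).ncard := by
    exact Nat.card_coe_set_eq _
  have h3 : Nat.card H = (H : Set (ZMod q)ˣ).ncard := Nat.card_coe_set_eq _
  rw [h2, h3]
  calc ((Coset_pm H : Subgroup (ZMod q)ˣ) : Set (ZMod q)ˣ).ncard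
      ≤ ((H : Set (ZMod q)ˣ) ∪ (fun x => -x) '' (H : Set (ZMod q)ˣ)).ncard :=
        Set.ncard_le_ncard h1 (Set.toFinite _)
    _ ≤ (H : Set (ZMod q)ˣ).ncard + ((fun x => -x) '' (H : Set (ZMod q)ˣ)).ncard :=
        Set.ncard_union_le _ _
    _ ≤ (H : Set (ZMod q)ˣ).ncard + (H : Set (ZMod q)ˣ).ncard :=
        Nat.add_le_add_left (Set.ncard_image_le (Set.toFinite _)) _
    _ = 2 * (H : Set (ZMod q)ˣ).ncard := by ring

theorem Coset_cs {q : ℕ} [NeZero q] (S : Finset (DirichletCharacter ℂ q)) (n C : ℝ) (hn : 0 < n)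
    (hC : 0 < C) (f : DirichletCharacter ℂ q → ℂ) (g : DirichletCharacter ℂ q → ℂ)
    (T : Finset (DirichletCharacter ℂ q)) (hT : ∀ χ ∈ S, g χ ≠ 0 → χ ∈ T)
    (h1 : ‖∑ χ ∈ S, g χ * f χ - n‖ ≤ n / 2) (h2 : ∑ χ ∈ S, ‖g χ * f χ‖ ^ 2 ≤ C * n) :
    n / (4 * C) ≤ T.card := by
  classical
  have hlow : n / 2 ≤ ‖∑ χ ∈ S, g χ * f χ‖ := by
    have : ‖(n : ℂ)‖ ≤ ‖∑ χ ∈ S, g χ * f χ - n‖ + ‖∑ χ ∈ S, g χ * f χ‖ := by
      calc ‖(n : ℂ)‖ = ‖(∑ χ ∈ S, g χ * f χ) - (∑ χ ∈ S, g χ * f χ - n)‖ := by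
            congr 1; ring
        _ ≤ ‖∑ χ ∈ S, g χ * f χ‖ + ‖∑ χ ∈ S, g χ * f χ - n‖ := norm_sub_le _ _
        _ = _ := add_comm _ _
    rw [Complex.norm_real, Real.norm_of_nonneg hn.le] at this
    linarith
  have hres : ∑ χ ∈ S, g χ * f χ = ∑ χ ∈ S ∩ T, g χ * f χ := by
    symm
    apply Finset.sum_subset Finset.inter_subset_left
    intro χ hχ hχ'
    have : χ ∉ T := fun h => hχ' (Finset.mem_inter.mpr ⟨hχ, h⟩)
    have h0 : g χ = 0 := by
      by_contra h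
      exact this (hT χ hχ h)
    rw [h0, zero_mul]
  have hcs : (∑ χ ∈ S ∩ T, ‖g χ * f χ‖) ^ 2 ≤ (S ∩ T).card * ∑ χ ∈ S ∩ T, ‖g χ * f χ‖ ^ 2 := by
    have := sq_sum_le_card_mul_sum_sq (s := S ∩ T) (f := fun χ => ‖g χ * f χ‖)
    exact_mod_cast this
  have hle : ∑ χ ∈ S ∩ T, ‖g χ * f χ‖ ^ 2 ≤ C * n :=
    (Finset.sum_le_sum_of_subset_of_nonneg Finset.inter_subset_left
      (fun _ _ _ => by positivity)).trans h2
  have hnorm : n / 2 ≤ ∑ χ ∈ S ∩ T, ‖g χ * f χ‖ := by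
    rw [hres] at hlow
    exact hlow.trans (norm_sum_le _ _)
  have hcard : ((S ∩ T).card : ℝ) ≤ T.card := by
    exact_mod_cast Finset.card_le_card Finset.inter_subset_right
  have h3 : (n / 2) ^ 2 ≤ (T.card : ℝ) * (C * n) := by
    calc (n / 2) ^ 2 ≤ (∑ χ ∈ S ∩ T, ‖g χ * f χ‖) ^ 2 := by
          apply pow_le_pow_left₀ (by positivity) hnorm
      _ ≤ (S ∩ T).card * ∑ χ ∈ S ∩ T, ‖g χ * f χ‖ ^ 2 := hcs
      _ ≤ (T.card : ℝ) * (C * n) := by
          apply mul_le_mul hcard hle _ (by positivity)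
          exact Finset.sum_nonneg (fun _ _ => by positivity)
  rw [div_le_iff₀ (by positivity)]
  nlinarith

theorem coset_theorem : ∃ η : ℝ, 0 < η ∧ ∀ ε : ℝ, 0 < ε → ∃ q₀ : ℕ,
    ∀ (q : ℕ) [NeZero q] (H : Subgroup (ZMod q)ˣ) (ψ : DirichletCharacter ℂ q),
      q.Prime → q₀ ≤ q → (Nat.card H : ℝ) ≤ (q : ℝ) ^ (1 / 3 - ε) →
      η * (cos H ψ).card ≤
        ((cos H ψ).filter (fun χ => DirichletCharacter.LFunction χ (1 / 2) ≠ 0)).card := by
  obtain ⟨C, hC, hsec⟩ := second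
  refine ⟨1 / (8 * C), by positivity, fun ε hε => ?_⟩
  obtain ⟨q₁, h₁⟩ := hsec (ε / 2) (by positivity)
  obtain ⟨q₂, h₂⟩ := first (ε / 2) (by positivity)
  -- 2 ≤ q ^ (ε/2) for large q
  obtain ⟨q₃, h₃⟩ : ∃ q₃ : ℕ, ∀ q : ℕ, q₃ ≤ q → (2 : ℝ) ≤ (q : ℝ) ^ (ε / 2) := by
    have h := (tendsto_rpow_atTop (show 0 < ε / 2 by positivity)).comp
      (tendsto_natCast_atTop_atTop (R := ℝ))
    have h' := h.eventually_ge_atTop 2
    exact Filter.eventually_atTop.mp h'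
  refine ⟨max q₁ (max q₂ q₃), fun q _ H ψ hq hqq hH => ?_⟩
  have hq1 : q₁ ≤ q := (le_max_left _ _).trans hqq
  have hq2 : q₂ ≤ q := ((le_max_left _ _).trans (le_max_right _ _)).trans hqq
  have hq3 : q₃ ≤ q := ((le_max_right _ _).trans (le_max_right _ _)).trans hqq
  have hqpos : (0 : ℝ) < q := by exact_mod_cast hq.pos
  have hH' : (Nat.card (Coset_pm H) : ℝ) ≤ (q : ℝ) ^ (1 / 3 - ε / 2) := by
    calc (Nat.card (Coset_pm H) : ℝ) ≤ 2 * Nat.card H := by exact_mod_cast Coset_card_pm H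
      _ ≤ (q : ℝ) ^ (ε / 2) * (q : ℝ) ^ (1 / 3 - ε) := by
          apply mul_le_mul (h₃ q hq3) hH (by positivity) (by positivity)
      _ = (q : ℝ) ^ (1 / 3 - ε / 2) := by
          rw [← Real.rpow_add hqpos]; congr 1; ring
  have hsub : cos (Coset_pm H) ψ ⊆ cos H ψ := by
    intro χ hχ
    rw [Coset_mem_cos] at hχ ⊢
    exact fun u hu => hχ u (Coset_le_pm H hu)
  have hc1 := card_cos hq H ψ
  have hc2 := card_cos hq (Coset_pm H) ψ
  have hcardH : (1 : ℝ) ≤ Nat.card H := by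
    exact_mod_cast Nat.one_le_iff_ne_zero.mpr Nat.card_pos.ne'
  have hcardH' : (Nat.card (Coset_pm H) : ℝ) ≤ 2 * Nat.card H := by
    exact_mod_cast Coset_card_pm H
  have hq1' : (1 : ℝ) < q := by exact_mod_cast hq.one_lt
  have hN : (0 : ℝ) < (cos (Coset_pm H) ψ).card := by
    by_contra h
    have h0 : ((cos (Coset_pm H) ψ).card : ℝ) = 0 := le_antisymm (not_lt.mp h) (by positivity)
    rw [h0, zero_mul] at hc2
    linarith
  have hhalf : ((cos H ψ).card : ℝ) ≤ 2 * (cos (Coset_pm H) ψ).card := by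
    have h5 : ((cos H ψ).card : ℝ) * Nat.card H ≤
        (2 * (cos (Coset_pm H) ψ).card) * Nat.card H := by
      rw [hc1, ← hc2]
      nlinarith
    exact le_of_mul_le_mul_right h5 (by linarith)
  have key := Coset_cs ((cos (Coset_pm H) ψ).erase 1) ((cos (Coset_pm H) ψ).card : ℝ) C hN
    (by linarith) (fun χ => mol q χ) (fun χ => DirichletCharacter.LFunction χ (1 / 2))
    ((cos H ψ).filter (fun χ => DirichletCharacter.LFunction χ (1 / 2) ≠ 0))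
    (fun χ hχ h => Finset.mem_filter.mpr ⟨hsub (Finset.mem_of_mem_erase hχ), h⟩)
    (by
      have := h₂ q (Coset_pm H) ψ hq hq2 (Coset_neg_one_mem H) hH'
      exact_mod_cast this)
    (h₁ q (Coset_pm H) ψ hq hq1 hH')
  calc 1 / (8 * C) * ((cos H ψ).card : ℝ)
      ≤ 1 / (8 * C) * (2 * (cos (Coset_pm H) ψ).card) :=
        mul_le_mul_of_nonneg_left hhalf (by positivity)
    _ = (cos (Coset_pm H) ψ).card / (4 * C) := by
        field_simp; ring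
    _ ≤ _ := key

end Pool.Agent.NV
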