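import Pool.Agent.Lib.MP_afd523_nt.Coset

/-! Project NV (MP_afd523_nt), module OD: characters of exact order `m`. -/

namespace Pool.Agent.NV

open Finset Complex MeasureTheory

theorem Order_mem_cos {q : ℕ} [NeZero q] {H : Subgroup (ZMod q)ˣ}
    {χ ψ : DirichletCharacter ℂ q} :
    χ ∈ cos H ψ ↔ ∀ u ∈ H, χ (u : ZMod q) = ψ (u : ZMod q) := by
  simp [cos]

/-- in a cyclic group of order `a * b` the elements with `u ^ a = 1` are the `b`-th powers -/
theorem Order_exists_root {G : Type*} [CommGroup G] [IsCyclic G] [Finite G] {a b : ℕ}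
    (h : a * b = Nat.card G) {u : G} (hu : u ^ a = 1) : ∃ v : G, v ^ b = u := by
  obtain ⟨g, hg⟩ := IsCyclic.exists_generator (α := G)
  obtain ⟨k, hk⟩ := Subgroup.mem_zpowers_iff.mp (hg u)
  have hog : orderOf g = Nat.card G := orderOf_eq_card_of_forall_mem_zpowers hg
  have hpos : 0 < Nat.card G := Nat.card_pos
  have ha : a ≠ 0 := by
    rintro rfl
    rw [zero_mul] at h
    omega
  have h1 : g ^ (k * a) = 1 := by
    rw [zpow_mul, hk]
    exact_mod_cast hu
  have h2 : (orderOf g : ℤ) ∣ k * a := orderOf_dvd_iff_zpow_eq_one.mpr h1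
  rw [hog, ← h] at h2
  push_cast at h2
  rw [mul_comm k (a : ℤ)] at h2
  have h3 : (b : ℤ) ∣ k := Int.dvd_of_mul_dvd_mul_left (by exact_mod_cast ha) h2
  obtain ⟨j, hj⟩ := h3
  refine ⟨g ^ j, ?_⟩
  rw [← hk, hj, mul_comm (b : ℤ) j, zpow_mul]
  exact (zpow_natCast _ _).symm

section
variable {q : ℕ} [NeZero q]

theorem Order_pow_eq_one_iff [IsCyclic (ZMod q)ˣ] {a k : ℕ} (h : a * k = Nat.card (ZMod q)ˣ)
    (χ : DirichletCharacter ℂ q) :
    χ ^ k = 1 ↔ ∀ u : (ZMod q)ˣ, u ^ a = 1 → χ (u : ZMod q) = 1 := by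
  constructor
  · intro hχ u hu
    obtain ⟨v, hv⟩ := Order_exists_root h hu
    have h1 : (χ ^ k) (v : ZMod q) = 1 := by
      rw [hχ]
      exact MulChar.one_apply_coe v
    rw [MulChar.pow_apply_coe] at h1
    rw [← hv, Units.val_pow_eq_pow_val, map_pow]
    exact h1
  · intro H
    apply MulChar.ext
    intro v
    have h1 : (v ^ k) ^ a = 1 := by
      rw [← pow_mul, mul_comm, h]
      exact pow_card_eq_one'
    have h2 := H (v ^ k) h1
    rw [Units.val_pow_eq_pow_val, map_pow] at h2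
    rw [MulChar.pow_apply_coe, h2, MulChar.one_apply_coe]

/-- the sieved set -/
noncomputable def Order_GG (q : ℕ) [NeZero q] (m : ℕ) (S : Finset ℕ) :
    Finset (DirichletCharacter ℂ q) := by
  classical
  exact Finset.univ.filter (fun χ => χ ^ m = 1 ∧ ∀ p ∈ S, χ ^ (m / p) ≠ 1)

theorem Order_mem_GG {m : ℕ} {S : Finset ℕ} {χ : DirichletCharacter ℂ q} :
    χ ∈ Order_GG q m S ↔ χ ^ m = 1 ∧ ∀ p ∈ S, χ ^ (m / p) ≠ 1 := by
  simp [Order_GG]

/-- the subgroup `u ^ k = 1` -/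
noncomputable def Order_H (q k : ℕ) : Subgroup (ZMod q)ˣ := (powMonoidHom k : (ZMod q)ˣ →* _).ker

theorem Order_mem_H {k : ℕ} {u : (ZMod q)ˣ} : u ∈ Order_H q k ↔ u ^ k = 1 := by
  rw [Order_H, MonoidHom.mem_ker, powMonoidHom_apply]

theorem Order_card_H [IsCyclic (ZMod q)ˣ] {k : ℕ} (hk : 0 < k) : Nat.card (Order_H q k) ≤ k := by
  classical
  have h1 := IsCyclic.card_pow_eq_one_le (α := (ZMod q)ˣ) hk
  have h2 : Nat.card (Order_H q k) = (univ.filter (fun a : (ZMod q)ˣ => a ^ k = 1)).card := by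
    rw [← Fintype.card_subtype, ← Nat.card_eq_fintype_card]
    exact Nat.card_congr (Equiv.subtypeEquivRight fun u => Order_mem_H)
  rw [h2]
  exact h1

/-- the sieved set is a union of cosets -/
theorem Order_GG_invariant [IsCyclic (ZMod q)ˣ] {m d P0 : ℕ} {S : Finset ℕ}
    (hdm : d * m = Nat.card (ZMod q)ˣ) (hP : ∀ p ∈ S, p ∣ P0) (hS : ∀ p ∈ S, p ∣ m)
    {χ χ' : DirichletCharacter ℂ q} (hχ : χ ∈ Order_GG q m S)
    (h : ∀ u ∈ Order_H q (d * P0), χ' (u : ZMod q) = χ (u : ZMod q)) :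
    χ' ∈ Order_GG q m S := by
  rw [Order_mem_GG] at hχ ⊢
  have key : ∀ a k : ℕ, a * k = Nat.card (ZMod q)ˣ → a ∣ d * P0 → (χ' ^ k = 1 ↔ χ ^ k = 1) := by
    intro a k hak had
    rw [Order_pow_eq_one_iff hak, Order_pow_eq_one_iff hak]
    refine forall_congr' fun u => ?_
    refine imp_congr_right fun hu => ?_
    rw [h u (Order_mem_H.mpr ?_)]
    obtain ⟨c, hc⟩ := had
    rw [hc, pow_mul, hu, one_pow]
  refine ⟨(key d m hdm (dvd_mul_right _ _)).mpr hχ.1, fun p hp => ?_⟩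
  have h1 : d * p * (m / p) = Nat.card (ZMod q)ˣ := by
    rw [mul_assoc, Nat.mul_div_cancel' (hS p hp), hdm]
  rw [ne_eq, key (d * p) (m / p) h1 (mul_dvd_mul_left d (hP p hp))]
  exact hχ.2 p hp

end

/-- few elements of the sieved set have an order dividing `m / p` -/
theorem Order_bad {X : Type*} [CommGroup X] [Fintype X] [DecidableEq X] [IsCyclic X] {m : ℕ}
    (hm0 : m ≠ 0) (hm : m ∣ Nat.card X) {S : Finset ℕ} (hS : ∀ p ∈ S, p.Prime)
    (hSm : ∀ p ∈ S, p ∣ m) {p : ℕ} (hp : p.Prime) (hpm : p ∣ m) (hpS : p ∉ S) :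
    p * (univ.filter (fun χ : X => (χ ^ m = 1 ∧ ∀ p ∈ S, χ ^ (m / p) ≠ 1) ∧
      χ ^ (m / p) = 1)).card ≤
      (univ.filter (fun χ : X => χ ^ m = 1 ∧ ∀ p ∈ S, χ ^ (m / p) ≠ 1)).card := by
  set v := m.factorization p with hv
  have hpv : p ^ v ∣ m := Nat.ordProj_dvd m p
  obtain ⟨ω, hω⟩ : ∃ ω : X, orderOf ω = p ^ v := by
    obtain ⟨g, hg⟩ := IsCyclic.exists_ofOrder_eq_natCard (α := X)
    have hN : Nat.card X ≠ 0 := Nat.card_pos.ne'
    obtain ⟨c, hc⟩ := hpv.trans hm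
    have hc0 : c ≠ 0 := by
      rintro rfl
      rw [mul_zero] at hc
      exact hN hc
    refine ⟨g ^ c, ?_⟩
    have h1 : c ∣ orderOf g := by
      rw [hg, hc]
      exact dvd_mul_left _ _
    rw [orderOf_pow_of_dvd hc0 h1, hg, hc, Nat.mul_div_cancel _ (Nat.pos_of_ne_zero hc0)]
  have hωm : ω ^ m = 1 := by
    rw [← orderOf_dvd_iff_pow_eq_one, hω]
    exact hpv
  have hζ1 : ω ^ (m / p) ≠ 1 := by
    intro h
    rw [← orderOf_dvd_iff_pow_eq_one, hω] at h
    have h1 : p ^ (v + 1) ∣ m := by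
      rw [pow_succ]
      have h2 := Nat.mul_dvd_mul_right h p
      rwa [Nat.div_mul_cancel hpm] at h2
    exact Nat.pow_succ_factorization_not_dvd hm0 hp h1
  have hζ : orderOf (ω ^ (m / p)) = p := by
    have := Fact.mk hp
    refine orderOf_eq_prime ?_ hζ1
    rw [← pow_mul, Nat.div_mul_cancel hpm]
    exact hωm
  have hS1 : ∀ p' ∈ S, ω ^ (m / p') = 1 := by
    intro p' hp'
    rw [← orderOf_dvd_iff_pow_eq_one, hω]
    have h1 : p ^ v ∣ p' * (m / p') := by
      rw [Nat.mul_div_cancel' (hSm p' hp')]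
      exact hpv
    refine Nat.Coprime.dvd_of_dvd_mul_left ?_ h1
    apply Nat.Coprime.pow_left
    rw [Nat.coprime_primes hp (hS p' hp')]
    rintro rfl
    exact hpS hp'
  rw [mul_comm]
  have hcard : (univ.filter (fun χ : X => (χ ^ m = 1 ∧ ∀ p ∈ S, χ ^ (m / p) ≠ 1) ∧
      χ ^ (m / p) = 1)).card * p = ((univ.filter (fun χ : X => (χ ^ m = 1 ∧
      ∀ p ∈ S, χ ^ (m / p) ≠ 1) ∧ χ ^ (m / p) = 1)) ×ˢ range p).card := by
    rw [card_product, card_range]
  rw [hcard]
  refine card_le_card_of_injOn (fun x => x.1 * ω ^ x.2) ?_ ?_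
  · rintro ⟨χ, j⟩ hx
    simp only [coe_product, coe_filter, Set.mem_prod, Set.mem_ofPred_eq, mem_univ, true_and] at hx
    simp only [coe_filter, Set.mem_ofPred_eq, mem_univ, true_and]
    obtain ⟨⟨⟨h1, h2⟩, -⟩, -⟩ := hx
    refine ⟨?_, fun p' hp' => ?_⟩
    · rw [mul_pow, h1, one_mul, ← pow_mul, mul_comm, pow_mul, hωm, one_pow]
    · rw [mul_pow, ← pow_mul, mul_comm j, pow_mul, hS1 p' hp', one_pow, mul_one]
      exact h2 p' hp'
  · rintro ⟨χ, j⟩ hx ⟨χ', j'⟩ hx' h
    simp only [coe_product, coe_filter, Set.mem_prod, Set.mem_ofPred_eq, mem_univ, true_and,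
      coe_range, Set.mem_Iio] at hx hx'
    have h1 := congrArg (fun y : X => y ^ (m / p)) h
    simp only [mul_pow, hx.1.2, hx'.1.2, one_mul] at h1
    rw [← pow_mul, ← pow_mul, mul_comm j (m / p), mul_comm j' (m / p), pow_mul, pow_mul] at h1
    have h2 : j = j' := by
      refine pow_injOn_Iio_orderOf (x := ω ^ (m / p)) ?_ ?_ h1
      · rw [hζ]
        exact hx.2
      · rw [hζ]
        exact hx'.2
    subst h2
    simp only [mul_left_inj] at h
    rw [h]

/-- summation over the classes -/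
theorem Order_classes {q : ℕ} [NeZero q] {η : ℝ} {H : Subgroup (ZMod q)ˣ}
    (L : DirichletCharacter ℂ q → Prop) [DecidablePred L] {GG : Finset (DirichletCharacter ℂ q)}
    (hGG : ∀ χ ∈ GG, cos H χ ⊆ GG)
    (hL : ∀ χ ∈ GG, η * (cos H χ).card ≤ ((cos H χ).filter L).card) :
    η * GG.card ≤ (GG.filter L).card := by
  classical
  have hfib : ∀ χ ∈ GG, GG.filter (fun χ' => cos H χ' = cos H χ) = cos H χ := by
    intro χ hχ
    ext χ'
    rw [mem_filter]
    constructor
    · rintro ⟨-, h⟩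
      rw [← h, Order_mem_cos]
      exact fun _ _ => rfl
    · intro h
      refine ⟨hGG χ hχ h, ?_⟩
      ext ψ
      rw [Order_mem_cos] at h ⊢
      rw [Order_mem_cos]
      exact forall₂_congr fun u hu => by rw [h u hu]
  rw [card_eq_sum_card_image (cos H) GG, card_eq_sum_card_fiberwise (s := GG.filter L)
    (t := GG.image (cos H)) (f := cos H)
    (fun χ hχ => mem_coe.mpr (mem_image_of_mem _ (mem_filter.mp (mem_coe.mp hχ)).1))]
  push_cast
  rw [mul_sum]
  refine sum_le_sum fun C hC => ?_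
  obtain ⟨χ, hχ, rfl⟩ := mem_image.mp hC
  rw [hfib χ hχ, filter_filter]
  have h1 : GG.filter (fun a => L a ∧ cos H a = cos H χ) = (cos H χ).filter L := by
    have h2 : GG.filter (fun a => cos H a = cos H χ ∧ L a) = (cos H χ).filter L := by
      rw [← filter_filter, hfib χ hχ]
    rw [← h2]
    exact filter_congr fun a _ => and_comm
  rw [h1]
  exact hL χ hχ

theorem Order_exp_two : (4 : ℝ) ≤ Real.exp 2 := by
  have h1 : (2.7 : ℝ) < Real.exp 1 := lt_trans (by norm_num) Real.exp_one_gt_d9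
  have h2 : Real.exp 2 = Real.exp 1 * Real.exp 1 := by
    rw [← Real.exp_add]
    norm_num
  rw [h2]
  nlinarith

/-- the size of the product of the small primes -/
theorem Order_P0 {m Z : ℕ} {z : ℝ} (hm : m ≠ 0) (hz : 0 ≤ z) (hZ : Z = ⌊z⌋₊) :
    ((∏ p ∈ m.primeFactors.filter (fun p => p ≤ Z), p : ℕ) : ℝ) ≤ Real.exp (2 * z) := by
  have h1 : ∏ p ∈ m.primeFactors.filter (fun p => p ≤ Z), p ∣ primorial Z := by
    rw [primorial]
    refine prod_dvd_prod_of_subset _ _ _ fun p hp => ?_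
    rw [mem_filter, Nat.mem_primeFactors] at hp
    rw [mem_filter, mem_range]
    exact ⟨by omega, hp.1.1⟩
  have h2 : (∏ p ∈ m.primeFactors.filter (fun p => p ≤ Z), p) ≤ 4 ^ Z :=
    (Nat.le_of_dvd (primorial_pos Z) h1).trans (primorial_le_four_pow Z)
  calc ((∏ p ∈ m.primeFactors.filter (fun p => p ≤ Z), p : ℕ) : ℝ) ≤ ((4 ^ Z : ℕ) : ℝ) := by
        exact_mod_cast h2
    _ = (4 : ℝ) ^ Z := by push_cast; rfl
    _ ≤ (Real.exp 2) ^ Z := pow_le_pow_left₀ (by norm_num) Order_exp_two Z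
    _ = Real.exp (2 * Z) := by rw [← Real.exp_nat_mul]; ring_nf
    _ ≤ Real.exp (2 * z) := by
        apply Real.exp_le_exp.mpr
        have := Nat.floor_le hz
        rw [← hZ] at this
        linarith

/-- the number of large prime factors -/
theorem Order_large {m q Z : ℕ} {z : ℝ} (hm : m ≠ 0) (hmq : m ≤ q) (hz : 1 < z)
    (hZ : Z = ⌊z⌋₊) :
    ((m.primeFactors.filter (fun p => ¬ p ≤ Z)).card : ℝ) * Real.log z ≤ Real.log q := by
  set T := m.primeFactors.filter (fun p => ¬ p ≤ Z) with hT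
  have h1 : z ^ T.card ≤ q := by
    calc z ^ T.card = ∏ p ∈ T, z := by rw [prod_const]
      _ ≤ ∏ p ∈ T, (p : ℝ) := by
          refine prod_le_prod (fun _ _ => by linarith) fun p hp => ?_
          rw [hT, mem_filter] at hp
          have h2 : Z + 1 ≤ p := by omega
          have h3 : z < Z + 1 := by
            rw [hZ]
            exact Nat.lt_floor_add_one z
          have h4 : ((Z + 1 : ℕ) : ℝ) ≤ p := by exact_mod_cast h2
          push_cast at h4
          linarith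
      _ = ((∏ p ∈ T, p : ℕ) : ℝ) := by push_cast; rfl
      _ ≤ (m : ℝ) := by
          have h5 : ∏ p ∈ T, p ∣ m :=
            (prod_dvd_prod_of_subset _ _ _ (filter_subset _ _)).trans (Nat.prod_primeFactors_dvd m)
          exact_mod_cast Nat.le_of_dvd (Nat.pos_of_ne_zero hm) h5
      _ ≤ q := by exact_mod_cast hmq
  have h2 := Real.log_le_log (by positivity) h1
  rwa [Real.log_pow] at h2

theorem order_theorem : ∃ η : ℝ, 0 < η ∧ ∀ ε : ℝ, 0 < ε → ∃ q₀ : ℕ,
    ∀ (q : ℕ) [NeZero q], q.Prime → q₀ ≤ q → ∀ m : ℕ, m ∣ q - 1 →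
      (q : ℝ) ^ (2 / 3 + ε) ≤ m →
      η * (Nat.totient m : ℝ) ≤
        Nat.card {χ : DirichletCharacter ℂ q // orderOf χ = m ∧
          DirichletCharacter.LFunction χ (1 / 2) ≠ 0} := by
  classical
  obtain ⟨η, hη, hc⟩ := coset_theorem
  refine ⟨η / 2, half_pos hη, fun ε hε => ?_⟩
  obtain ⟨q1, hq1⟩ := hc (ε / 2) (half_pos hε)
  set B : ℝ := Real.exp (8 / (ε * η)) with hB
  refine ⟨max q1 ⌈Real.exp (4 * B / ε)⌉₊, fun q _ hq hq0 m hm hmq => ?_⟩
  have hq1' : q1 ≤ q := (le_max_left _ _).trans hq0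
  have hqe : Real.exp (4 * B / ε) ≤ q := by
    have h1 : (⌈Real.exp (4 * B / ε)⌉₊ : ℝ) ≤ q := by exact_mod_cast (le_max_right _ _).trans hq0
    exact (Nat.le_ceil _).trans h1
  have hBpos : 0 < B := Real.exp_pos _
  have hB1 : 1 < B := by
    rw [hB]
    exact Real.one_lt_exp_iff.mpr (by positivity)
  have hqpos : (0 : ℝ) < q := by exact_mod_cast hq.pos
  have hL0 : 4 * B / ε ≤ Real.log q := by
    have h1 := Real.log_le_log (Real.exp_pos _) hqe
    rwa [Real.log_exp] at h1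
  have hL0pos : 0 < Real.log q := lt_of_lt_of_le (by positivity) hL0
  set z : ℝ := ε * Real.log q / 4 with hz
  have hzB : B ≤ z := by
    rw [hz, le_div_iff₀ (by norm_num : (0 : ℝ) < 4)]
    rw [div_le_iff₀ hε] at hL0
    linarith
  have hz1 : 1 < z := lt_of_lt_of_le hB1 hzB
  have hlogz : 8 / (ε * η) ≤ Real.log z := by
    have h1 := Real.log_le_log hBpos hzB
    rwa [hB, Real.log_exp] at h1
  have hlogzpos : 0 < Real.log z := lt_of_lt_of_le (by positivity) hlogz
  have : Fact q.Prime := ⟨hq⟩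
  have hcyc : IsCyclic (ZMod q)ˣ := inferInstance
  have hcard : Nat.card (ZMod q)ˣ = q - 1 := by
    rw [Nat.card_eq_fintype_card, ZMod.card_units_eq_totient, Nat.totient_prime hq]
  have hq2 : 2 ≤ q := hq.two_le
  have hm0 : m ≠ 0 := by
    rintro rfl
    rw [zero_dvd_iff] at hm
    omega
  obtain ⟨e⟩ : Nonempty (DirichletCharacter ℂ q ≃* (ZMod q)ˣ) := MulChar.mulEquiv_units _ _
  have hXcyc : IsCyclic (DirichletCharacter ℂ q) := e.isCyclic.mpr hcyc
  have hXcard : Nat.card (DirichletCharacter ℂ q) = q - 1 := by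
    rw [Nat.card_congr e.toEquiv, hcard]
  obtain ⟨d, hd⟩ := hm
  have hmqn : m ≤ q := (Nat.le_of_dvd (by omega) ⟨d, hd⟩).trans (Nat.sub_le _ _)
  set Z : ℕ := ⌊z⌋₊ with hZ
  set S : Finset ℕ := m.primeFactors.filter (fun p => p ≤ Z) with hS
  set T : Finset ℕ := m.primeFactors.filter (fun p => ¬ p ≤ Z) with hT
  set P0 : ℕ := ∏ p ∈ S, p with hP0
  have hSp : ∀ p ∈ S, p.Prime := fun p hp => Nat.prime_of_mem_primeFactors (mem_filter.mp hp).1
  have hSm : ∀ p ∈ S, p ∣ m := fun p hp => Nat.dvd_of_mem_primeFactors (mem_filter.mp hp).1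
  have hSP : ∀ p ∈ S, p ∣ P0 := fun p hp => dvd_prod_of_mem _ hp
  have hP0pos : 0 < P0 := prod_pos fun p hp => (hSp p hp).pos
  have hd0 : d ≠ 0 := by
    rintro rfl
    omega
  have hdm : d * m = Nat.card (ZMod q)ˣ := by rw [hcard, hd, mul_comm]
  -- the subgroup
  have hHcard : (Nat.card (Order_H q (d * P0)) : ℝ) ≤ (q : ℝ) ^ (1 / 3 - ε / 2) := by
    have h1 : (Nat.card (Order_H q (d * P0)) : ℝ) ≤ (d : ℝ) * P0 := by
      exact_mod_cast Order_card_H (q := q) (Nat.mul_pos (Nat.pos_of_ne_zero hd0) hP0pos)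
    have h2 : (P0 : ℝ) ≤ (q : ℝ) ^ (ε / 2) := by
      refine (Order_P0 hm0 (by linarith) hZ).trans ?_
      rw [Real.rpow_def_of_pos hqpos]
      apply Real.exp_le_exp.mpr
      rw [hz]
      apply le_of_eq
      ring
    have h3 : (d : ℝ) ≤ (q : ℝ) ^ (1 / 3 - ε) := by
      have h4 : (m : ℝ) * d ≤ q := by
        have : m * d ≤ q := by omega
        exact_mod_cast this
      have h5 : (q : ℝ) = (q : ℝ) ^ (2 / 3 + ε) * (q : ℝ) ^ (1 / 3 - ε) := by
        rw [← Real.rpow_add hqpos]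
        norm_num
      have h6 : 0 < (q : ℝ) ^ (2 / 3 + ε) := Real.rpow_pos_of_pos hqpos _
      have h7 : (q : ℝ) ^ (2 / 3 + ε) * d ≤ (q : ℝ) ^ (2 / 3 + ε) * (q : ℝ) ^ (1 / 3 - ε) := by
        rw [← h5]
        exact (mul_le_mul_of_nonneg_right hmq (Nat.cast_nonneg d)).trans h4
      exact le_of_mul_le_mul_left h7 h6
    calc (Nat.card (Order_H q (d * P0)) : ℝ) ≤ (d : ℝ) * P0 := h1
      _ ≤ (q : ℝ) ^ (1 / 3 - ε) * (q : ℝ) ^ (ε / 2) := by
          apply mul_le_mul h3 h2 (Nat.cast_nonneg _) (Real.rpow_nonneg hqpos.le _)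
      _ = (q : ℝ) ^ (1 / 3 - ε / 2) := by
          rw [← Real.rpow_add hqpos]
          ring_nf
  set GG := Order_GG q m S with hGG
  set L : DirichletCharacter ℂ q → Prop :=
    fun χ => DirichletCharacter.LFunction χ (1 / 2) ≠ 0 with hL
  have hmain : η * GG.card ≤ (GG.filter L).card := by
    refine Order_classes (H := Order_H q (d * P0)) L ?_ ?_
    · intro χ hχ χ' hχ'
      exact Order_GG_invariant hdm hSP hSm hχ (Order_mem_cos.mp hχ')
    · intro χ _
      exact hq1 q (Order_H q (d * P0)) χ hq hq1' hHcard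
  -- the bad characters
  have hbad : ∀ p ∈ T, ((GG.filter (fun χ => χ ^ (m / p) = 1)).card : ℝ) ≤ GG.card / z := by
    intro p hp
    rw [hT, mem_filter] at hp
    have hpp := Nat.prime_of_mem_primeFactors hp.1
    have hpS : p ∉ S := fun h => hp.2 (mem_filter.mp h).2
    have h1 := Order_bad (X := DirichletCharacter ℂ q) hm0
      (by rw [hXcard]; exact ⟨d, hd⟩) hSp hSm hpp (Nat.dvd_of_mem_primeFactors hp.1) hpS
    have h2 : GG = univ.filter (fun χ : DirichletCharacter ℂ q => χ ^ m = 1 ∧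
        ∀ p ∈ S, χ ^ (m / p) ≠ 1) := by
      ext χ
      rw [hGG, Order_mem_GG]
      simp
    have h3 : p * (GG.filter (fun χ => χ ^ (m / p) = 1)).card ≤ GG.card := by
      rw [h2, filter_filter]
      exact h1
    have h4 : z ≤ p := by
      have h5 : z < Z + 1 := by
        rw [hZ]
        exact Nat.lt_floor_add_one z
      have h6 : Z + 1 ≤ p := by omega
      have h7 : ((Z + 1 : ℕ) : ℝ) ≤ p := by exact_mod_cast h6
      push_cast at h7
      linarith
    rw [le_div_iff₀ (by linarith)]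
    have h8 : (p : ℝ) * (GG.filter (fun χ => χ ^ (m / p) = 1)).card ≤ GG.card := by
      exact_mod_cast h3
    calc ((GG.filter (fun χ => χ ^ (m / p) = 1)).card : ℝ) * z
        ≤ ((GG.filter (fun χ => χ ^ (m / p) = 1)).card : ℝ) * p :=
          mul_le_mul_of_nonneg_left h4 (Nat.cast_nonneg _)
      _ ≤ GG.card := by rw [mul_comm]; exact h8
  have hTcard : (T.card : ℝ) * Real.log z ≤ Real.log q := Order_large hm0 hmqn hz1 hZ
  have hTz : (T.card : ℝ) / z ≤ η / 2 := by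
    rw [div_le_iff₀ (by linarith)]
    have h1 : (T.card : ℝ) ≤ Real.log q / Real.log z := by
      rwa [le_div_iff₀ hlogzpos]
    refine h1.trans ?_
    rw [div_le_iff₀ hlogzpos, hz]
    have h2 : 8 ≤ Real.log z * (ε * η) := by
      rwa [div_le_iff₀ (by positivity)] at hlogz
    nlinarith
  -- the set of all characters of order `m` with nonzero value
  set R : Finset (DirichletCharacter ℂ q) :=
    univ.filter (fun χ => orderOf χ = m ∧ DirichletCharacter.LFunction χ (1 / 2) ≠ 0) with hR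
  have hRcard : Nat.card {χ : DirichletCharacter ℂ q // orderOf χ = m ∧
      DirichletCharacter.LFunction χ (1 / 2) ≠ 0} = R.card := by
    rw [hR, ← Fintype.card_subtype, ← Nat.card_eq_fintype_card]
  have hsub : GG.filter L ⊆ R ∪ T.biUnion (fun p => GG.filter (fun χ => χ ^ (m / p) = 1)) := by
    intro χ hχ
    rw [mem_filter] at hχ
    rw [mem_union, mem_biUnion]
    by_cases h : ∃ p ∈ T, χ ^ (m / p) = 1
    · obtain ⟨p, hp, h1⟩ := h
      exact Or.inr ⟨p, hp, mem_filter.mpr ⟨hχ.1, h1⟩⟩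
    · left
      push Not at h
      rw [hR, mem_filter]
      refine ⟨mem_univ _, ?_, hχ.2⟩
      have h1 := hχ.1
      rw [hGG, Order_mem_GG] at h1
      refine orderOf_eq_of_pow_and_pow_div_prime (Nat.pos_of_ne_zero hm0) h1.1 fun p hp hpm => ?_
      have hpf : p ∈ m.primeFactors := Nat.mem_primeFactors.mpr ⟨hp, hpm, hm0⟩
      by_cases hpZ : p ≤ Z
      · exact h1.2 p (mem_filter.mpr ⟨hpf, hpZ⟩)
      · exact h p (mem_filter.mpr ⟨hpf, hpZ⟩)
  have hcount : ((GG.filter L).card : ℝ) ≤ R.card + (η / 2) * GG.card := by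
    have h1 : (GG.filter L).card ≤ R.card +
        ∑ p ∈ T, (GG.filter (fun χ => χ ^ (m / p) = 1)).card :=
      (card_le_card hsub).trans ((card_union_le _ _).trans
        (Nat.add_le_add_left card_biUnion_le _))
    have h2 : ((GG.filter L).card : ℝ) ≤ R.card +
        ∑ p ∈ T, ((GG.filter (fun χ => χ ^ (m / p) = 1)).card : ℝ) := by exact_mod_cast h1
    have h3 : ∑ p ∈ T, ((GG.filter (fun χ => χ ^ (m / p) = 1)).card : ℝ) ≤
        T.card * (GG.card / z) := by
      calc ∑ p ∈ T, ((GG.filter (fun χ => χ ^ (m / p) = 1)).card : ℝ)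
          ≤ ∑ p ∈ T, (GG.card : ℝ) / z := sum_le_sum hbad
        _ = T.card * (GG.card / z) := by rw [sum_const, nsmul_eq_mul]
    have h4 : (T.card : ℝ) * (GG.card / z) ≤ (η / 2) * GG.card := by
      calc (T.card : ℝ) * (GG.card / z) = (T.card / z) * GG.card := by ring
        _ ≤ (η / 2) * GG.card := mul_le_mul_of_nonneg_right hTz (Nat.cast_nonneg _)
    linarith
  have htot : (Nat.totient m : ℝ) ≤ GG.card := by
    have h1 : (univ.filter (fun χ : DirichletCharacter ℂ q => orderOf χ = m)).card =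
        Nat.totient m := by
      apply IsCyclic.card_orderOf_eq_totient
      rw [← Nat.card_eq_fintype_card, hXcard]
      exact ⟨d, hd⟩
    rw [← h1]
    have h2 : (univ.filter (fun χ : DirichletCharacter ℂ q => orderOf χ = m)) ⊆ GG := by
      intro χ hχ
      rw [mem_filter] at hχ
      rw [hGG, Order_mem_GG]
      refine ⟨by rw [← hχ.2]; exact pow_orderOf_eq_one χ, fun p hp => ?_⟩
      refine pow_ne_one_of_lt_orderOf ?_ ?_
      · exact (Nat.div_pos (Nat.le_of_dvd (Nat.pos_of_ne_zero hm0) (hSm p hp))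
          (hSp p hp).pos).ne'
      · rw [hχ.2]
        exact Nat.div_lt_self (Nat.pos_of_ne_zero hm0) (hSp p hp).one_lt
    exact_mod_cast card_le_card h2
  rw [hRcard]
  have h9 : η / 2 * (Nat.totient m : ℝ) ≤ η / 2 * GG.card :=
    mul_le_mul_of_nonneg_left htot (half_pos hη).le
  linarith

end Pool.Agent.NV
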